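import Pool.Agent.Lib.MP_716318_co.H.Spec1

/-!
# MP_716318_co, package H: the number of bad neighbours
-/

set_option autoImplicit false

namespace Pool.Agent.Ham

open Finset
open scoped Classical

/-- The elements of a set with four elements are different. -/
private theorem Bad_ne {V : Type} [DecidableEq V] {x c z t : V}
    (h : ({x, c, z, t} : Finset V).card = 4) : c ≠ x ∧ t ≠ x ∧ t ≠ c ∧ t ≠ z := by
  have h3 : ∀ a b d : V, ({x, c, z, t} : Finset V) ⊆ {a, b, d} → False := by
    intro a b d hs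
    have h4 := card_le_card hs
    have h5 := card_le_three (a := a) (b := b) (c := d)
    omega
  refine ⟨?_, ?_, ?_, ?_⟩
  · rintro rfl
    exact h3 c z t (by simp)
  · rintro rfl
    exact h3 t c z (by
      intro a
      simp only [mem_insert, mem_singleton]
      tauto)
  · rintro rfl
    exact h3 x t z (by
      intro a
      simp only [mem_insert, mem_singleton]
      tauto)
  · rintro rfl
    exact h3 x c t (by
      intro a
      simp only [mem_insert, mem_singleton]
      tauto)

/-- **Bad**. -/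
theorem tBad : S_Bad := by
  intro V _ _ F x T hF hT
  obtain ⟨B, hB⟩ : ∃ B : Finset V, B = univ.filter (fun c => ∃ z, T < (c3 F x c z : ℝ)) := ⟨_, rfl⟩
  rw [← hB]
  have hz : ∀ c, ∃ z, c ∈ B → T < (c3 F x c z : ℝ) := by
    intro c
    by_cases hc : c ∈ B
    · rw [hB, mem_filter] at hc
      obtain ⟨-, z, hz⟩ := hc
      exact ⟨z, fun _ => hz⟩
    · exact ⟨c, fun h => absurd h hc⟩
  choose z hz using hz
  obtain ⟨P, hP⟩ : ∃ P : Finset (V × V), P =
      (univ : Finset (V × V)).filter (fun p => p.1 ∈ B ∧ ({x, p.1, z p.1, p.2} : Finset V) ∈ F) :=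
    ⟨_, rfl⟩
  have hPm : ∀ p, p ∈ P ↔ p.1 ∈ B ∧ ({x, p.1, z p.1, p.2} : Finset V) ∈ F := by
    intro p
    rw [hP, mem_filter]
    exact ⟨fun h => h.2, fun h => ⟨mem_univ _, h⟩⟩
  have h1 : P.card = ∑ c ∈ B, c3 F x c (z c) := by
    rw [card_eq_sum_card_fiberwise (f := Prod.fst) (t := B) (fun p hp => ((hPm p).1 hp).1)]
    refine sum_congr rfl fun c hc => ?_
    unfold c3
    refine card_bij (fun p _ => p.2) ?_ ?_ ?_
    · intro p hp
      rw [mem_filter] at hp
      obtain ⟨hp, rfl⟩ := hp
      rw [mem_filter]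
      exact ⟨mem_univ _, ((hPm p).1 hp).2⟩
    · intro p hp q hq hpq
      rw [mem_filter] at hp hq
      exact Prod.ext (hp.2.trans hq.2.symm) hpq
    · intro t ht
      rw [mem_filter] at ht
      refine ⟨(c, t), ?_, rfl⟩
      rw [mem_filter]
      exact ⟨(hPm _).2 ⟨hc, ht.2⟩, rfl⟩
  have h2 : T * B.card ≤ (P.card : ℝ) := by
    rw [h1, Nat.cast_sum, mul_comm, ← nsmul_eq_mul]
    exact card_nsmul_le_sum B _ T fun c hc => (hz c hc).le
  have h3 : P.card ≤ 3 * (P.image (fun p => ({x, p.1, z p.1, p.2} : Finset V))).card := by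
    refine card_le_mul_card_image P 3 ?_
    intro A hA
    rw [mem_image] at hA
    obtain ⟨p₀, hp₀, hA₀⟩ := hA
    have hAF : A ∈ F := hA₀ ▸ ((hPm p₀).1 hp₀).2
    have hxA : x ∈ A := by
      rw [← hA₀]
      exact mem_insert_self _ _
    have hc3 : (A.erase x).card = 3 := by
      rw [card_erase_of_mem hxA, hF A hAF]
    rw [← hc3]
    refine card_le_card_of_injOn Prod.fst ?_ ?_
    · intro p hp
      rw [mem_coe, mem_filter] at hp
      obtain ⟨-, hpA⟩ := hp
      have h4 := Bad_ne (by rw [hpA]; exact hF A hAF)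
      rw [mem_coe, mem_erase]
      refine ⟨h4.1, ?_⟩
      rw [← hpA]
      simp
    · intro p hp q hq hpq
      rw [mem_coe, mem_filter] at hp hq
      obtain ⟨-, hpA⟩ := hp
      obtain ⟨-, hqA⟩ := hq
      refine Prod.ext hpq ?_
      have h4 := Bad_ne (by rw [hpA]; exact hF A hAF)
      have h5 : p.2 ∈ ({x, q.1, z q.1, q.2} : Finset V) := by
        rw [hqA, ← hpA]
        simp
      rw [← hpq] at h5
      simp only [mem_insert, mem_singleton] at h5
      rcases h5 with h5 | h5 | h5 | h5
      · exact absurd h5 h4.2.1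
      · exact absurd h5 h4.2.2.1
      · exact absurd h5 h4.2.2.2
      · exact h5
  have h4 : (P.image (fun p => ({x, p.1, z p.1, p.2} : Finset V))).card ≤ dg F {x} := by
    unfold dg
    refine card_le_card ?_
    intro A hA
    rw [mem_image] at hA
    obtain ⟨p, hp, rfl⟩ := hA
    rw [mem_filter]
    refine ⟨((hPm p).1 hp).2, ?_⟩
    rw [singleton_subset_iff]
    exact mem_insert_self _ _
  have h5 : P.card ≤ 3 * dg F {x} := h3.trans (Nat.mul_le_mul_left 3 h4)
  have h6 : (P.card : ℝ) ≤ 3 * dg F {x} := by exact_mod_cast h5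
  exact h2.trans h6

end Pool.Agent.Ham
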