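import Pool.Agent.Lib.MP_716318_co.H.Spec1

/-!
# MP_716318_co, package H: linking the blocks (`S_Chain`)
-/

set_option autoImplicit false

namespace Pool.Agent.Ham

open Finset
open scoped Classical

private theorem ch_eds_nil {V : Type} : eds ([] : List V) = [] := rfl

private theorem ch_eds_one {V : Type} (a : V) : eds [a] = [] := rfl

private theorem ch_eds_cons {V : Type} (a b : V) (t : List V) :
    eds (a :: b :: t) = (a, b) :: eds (b :: t) := rfl

private theorem ch_eds_append {V : Type} (c : V) (m : List V) :
    ∀ (l : List V) (x : V), l.getLast? = some x → ∀ p ∈ eds (l ++ c :: m),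
      p ∈ eds l ∨ p = (x, c) ∨ p ∈ eds (c :: m) := by
  intro l
  induction l with
  | nil => intro x hx; simp at hx
  | cons a t ih =>
    intro x hx p hp
    cases t with
    | nil =>
      simp only [List.getLast?_singleton, Option.some.injEq] at hx
      subst hx
      rw [List.singleton_append, ch_eds_cons, List.mem_cons] at hp
      rcases hp with h | h
      · exact Or.inr (Or.inl h)
      · exact Or.inr (Or.inr h)
    | cons b t =>
      have hx' : (b :: t).getLast? = some x := by
        rw [← hx, List.getLast?_cons_cons]
      rw [List.cons_append, List.cons_append, ch_eds_cons, List.mem_cons] at hp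
      rcases hp with h | h
      · left; rw [ch_eds_cons, h]; exact List.mem_cons_self
      · rcases ih x hx' p (by rw [List.cons_append]; exact h) with h1 | h1 | h1
        · left; rw [ch_eds_cons]; exact List.mem_cons_of_mem _ h1
        · exact Or.inr (Or.inl h1)
        · exact Or.inr (Or.inr h1)

theorem tChain : S_Link → S_Chain := by
  intro hLink V _ _ F J U Es T D g0 g1 Q0 Bs hU4 hT hg0 hg1 hD hJU hQ0
  induction Bs using List.reverseRecOn with
  | nil =>
    intro hnd hU hne heQ heB hop hopB hopU hnum
    refine ⟨Q0, [], List.prefix_refl _, ?_, ?_, ?_, ?_, ?_, ?_, ?_, ?_⟩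
    · simpa using hnd
    · intro x hx; left; exact List.mem_append_left _ hx
    · intro x hx; simp at hx
    · intro e he; exact Or.inl (heQ e he)
    · refine ⟨?_, ?_⟩
      · intro e he; simp at he
      · intro e he; simp at he
    · simp
    · simp
    · obtain ⟨x, hx⟩ : ∃ x, Q0.getLast? = some x :=
        ⟨Q0.getLast hQ0, List.getLast?_eq_some_getLast hQ0⟩
      exact ⟨x, hx, hop x hx⟩
  | append_singleton Bs B ih =>
    intro hnd hU hne heQ heB hop hopB hopU hnum
    have hfl : (Bs ++ [B]).flatten = Bs.flatten ++ B := by simp
    rw [hfl, ← List.append_assoc] at hnd hU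
    have hlen : ((Bs ++ [B]).length : ℝ) = Bs.length + 1 := by simp
    rw [hlen] at hnum
    have hbs0 : (0 : ℝ) ≤ Bs.length := Nat.cast_nonneg _
    obtain ⟨Q, Lk, hpre, hQnd, hQm, hQf, hQe, hGd, hLl, hQl, x, hx, hxop⟩ := ih
      (List.Nodup.of_append_left hnd)
      (fun x hx => hU x (List.mem_append_left _ hx))
      (fun B' hB' => hne B' (List.mem_append_left _ hB')) heQ
      (fun B' hB' => heB B' (List.mem_append_left _ hB')) hop
      (fun B' hB' => hopB B' (List.mem_append_left _ hB')) hopU
      (by nlinarith)
    have hBmem : B ∈ Bs ++ [B] := by simp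
    have hBne : B ≠ [] := hne B hBmem
    obtain ⟨y, B', hB'⟩ := List.exists_cons_of_ne_nil hBne
    have hyop : Op F J Es D g0 y := hopB B hBmem y (Or.inl (by rw [hB']; rfl))
    -- cardinality of the forbidden set
    have hQ0sub : ∀ z ∈ Q0 ++ Bs.flatten, z ∈ Q := by
      intro z hz
      rcases List.mem_append.1 hz with h | h
      · exact hpre.subset h
      · exact hQf z h
    have hcard : ((U ∪ Q.toFinset).card : ℝ) ≤ U.card + 2 * Bs.length := by
      have h1 : (U ∪ Q.toFinset).card = U.card + (Q.toFinset \ U).card := by
        rw [← Finset.union_sdiff_self_eq_union, Finset.card_union_of_disjoint]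
        exact Finset.disjoint_sdiff
      have h2 : (Q.toFinset \ U) ⊆ Q.toFinset \ (Q0 ++ Bs.flatten).toFinset := by
        intro z hz
        rw [Finset.mem_sdiff] at hz ⊢
        refine ⟨hz.1, fun h => hz.2 (hU z ?_)⟩
        exact List.mem_append_left _ (List.mem_toFinset.1 h)
      have h3 : (Q0 ++ Bs.flatten).toFinset ⊆ Q.toFinset := by
        intro z hz
        exact List.mem_toFinset.2 (hQ0sub z (List.mem_toFinset.1 hz))
      have h4 : (Q.toFinset \ (Q0 ++ Bs.flatten).toFinset).card =
          Q.toFinset.card - (Q0 ++ Bs.flatten).toFinset.card := Finset.card_sdiff_of_subset h3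
      have h5 : Q.toFinset.card = Q.length := List.toFinset_card_of_nodup hQnd
      have h6 : (Q0 ++ Bs.flatten).toFinset.card = (Q0 ++ Bs.flatten).length :=
        List.toFinset_card_of_nodup (List.Nodup.of_append_left hnd)
      have h7 := Finset.card_le_card h2
      have h8 : (U ∪ Q.toFinset).card ≤ U.card + 2 * Bs.length := by omega
      exact_mod_cast h8
    have hLl' : (Lk.length : ℝ) ≤ 3 * Bs.length := by exact_mod_cast hLl
    obtain ⟨c, e, hc, he, hce, hG⟩ := hLink V F J (U ∪ Q.toFinset) Es Lk T D g0 g1 x y hU4 hT
      hg0 hg1 hD hGd (hJU.trans Finset.subset_union_left) hxop hyop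
      (fun c hc => hopU c (fun h => hc (Finset.mem_union_left _ h))) (by nlinarith)
    rw [Finset.mem_union, not_or, List.mem_toFinset] at hc he
    have hBU : ∀ z ∈ B, z ∈ U := fun z hz => hU z (List.mem_append_right _ hz)
    refine ⟨Q ++ c :: e :: B, (x, c) :: (c, e) :: (e, y) :: Lk, ?_, ?_, ?_, ?_, ?_, hG, ?_, ?_, ?_⟩
    · exact hpre.trans (List.prefix_append _ _)
    · rw [List.nodup_append]
      refine ⟨hQnd, ?_, ?_⟩
      · rw [List.nodup_cons, List.nodup_cons]
        refine ⟨?_, fun h => he.1 (hBU e h), List.Nodup.of_append_right hnd⟩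
        rw [List.mem_cons, not_or]
        exact ⟨hce, fun h => hc.1 (hBU c h)⟩
      · intro a ha b hb hab
        subst hab
        rw [List.mem_cons, List.mem_cons] at hb
        rcases hb with h | h | h
        · exact hc.2 (h ▸ ha)
        · exact he.2 (h ▸ ha)
        · rcases hQm a ha with h' | h'
          · exact (List.nodup_append.1 hnd).2.2 a h' a h rfl
          · exact h' (hBU a h)
    · intro z hz
      rw [List.mem_append, List.mem_cons, List.mem_cons] at hz
      rw [hfl, ← List.append_assoc]
      rcases hz with h | h | h | h
      · rcases hQm z h with h' | h'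
        · exact Or.inl (List.mem_append_left _ h')
        · exact Or.inr h'
      · right; rw [h]; exact hc.1
      · right; rw [h]; exact he.1
      · exact Or.inl (List.mem_append_right _ h)
    · intro z hz
      rw [hfl, List.mem_append] at hz
      rcases hz with h | h
      · exact List.mem_append_left _ (hQf z h)
      · exact List.mem_append_right _ (List.mem_cons_of_mem _ (List.mem_cons_of_mem _ h))
    · intro p hp
      rcases ch_eds_append c (e :: B) Q x hx p hp with h | h | h
      · rcases hQe p h with h' | h'
        · exact Or.inl h'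
        · right
          exact List.mem_cons_of_mem _ (List.mem_cons_of_mem _ (List.mem_cons_of_mem _ h'))
      · right; rw [h]; exact List.mem_cons_self
      · rw [ch_eds_cons, List.mem_cons] at h
        rcases h with h | h
        · right; rw [h]; exact List.mem_cons_of_mem _ List.mem_cons_self
        · rw [hB', ch_eds_cons, List.mem_cons] at h
          rcases h with h | h
          · right; rw [h]
            exact List.mem_cons_of_mem _ (List.mem_cons_of_mem _ List.mem_cons_self)
          · left; rw [← hB'] at h; exact heB B hBmem p h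
    · simp only [List.length_cons, List.length_append, List.length_nil]
      omega
    · rw [hfl]
      simp only [List.length_cons, List.length_append, List.length_nil] at hQl ⊢
      omega
    · refine ⟨B.getLast hBne, ?_, ?_⟩
      · have h1 : Q ++ c :: e :: B = (Q ++ [c, e]) ++ B := by simp
        rw [h1, List.getLast?_append_of_ne_nil _ hBne, List.getLast?_eq_some_getLast hBne]
      · exact hopB B hBmem _ (Or.inr (List.getLast?_eq_some_getLast hBne))

end Pool.Agent.Ham
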