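import Pool.Agent.Lib.MP_716318_co.H.Spec1

/-!
# MP_716318_co, package H: random completion (`S_Comp`)
-/

set_option autoImplicit false

namespace Pool.Agent.Ham

open Finset
open scoped Classical

private lemma wt_nonneg (r k : ℕ) : 0 ≤ wt r k := by unfold wt; positivity

private lemma sml_ex {I W : Type} [Fintype I] {A B : Finset (Finset (I × W))} {a b : ℝ}
    (hA : Sml A a) (hB : Sml B b) :
    ∃ C : Finset (Finset (I × W)), Sml C (a + b) ∧ (∀ M ∈ A, M ∈ C) ∧ ∀ M ∈ B, M ∈ C := by
  obtain ⟨a1, a2, a3⟩ := hA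
  obtain ⟨b1, b2, b3⟩ := hB
  have key : ∀ (P : Finset (I × W) → Prop) [DecidablePred P],
      ∑ M ∈ (A ∪ B).filter P, wt (Fintype.card I) M.card ≤
        ∑ M ∈ A.filter P, wt (Fintype.card I) M.card +
          ∑ M ∈ B.filter P, wt (Fintype.card I) M.card := by
    intro P _
    rw [Finset.filter_union, ← Finset.sum_union_inter]
    have := Finset.sum_nonneg (s := A.filter P ∩ B.filter P)
      (f := fun M => wt (Fintype.card I) M.card) (fun M _ => wt_nonneg _ _)
    linarith
  refine ⟨A ∪ B, ⟨?_, ?_, ?_⟩, fun M h => Finset.mem_union_left _ h,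
    fun M h => Finset.mem_union_right _ h⟩
  · intro M hM
    rcases Finset.mem_union.mp hM with h | h
    · exact a1 M h
    · exact b1 M h
  · intro i
    exact (key (fun M => ∃ p ∈ M, p.1 = i)).trans (add_le_add (a2 i) (b2 i))
  · intro w
    exact (key (fun M => ∃ p ∈ M, p.2 = w)).trans (add_le_add (a3 w) (b3 w))

private lemma cntk {V T : Type} [DecidableEq V] (k : ℕ) (F' : Finset (Finset V)) (hF : U4 F')
    (H : Finset T) (Φ : T → Finset V) (v : T → (Fin k → V)) (hv : Function.Injective v)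
    (hmem : ∀ t ∈ H, Φ t ∈ F') (hsub : ∀ t ∈ H, ∀ i, v t i ∈ Φ t) :
    H.card ≤ 4 ^ k * F'.card := by
  refine Finset.card_le_mul_card_image_of_maps_to (f := Φ) hmem _ ?_
  intro A hA
  have hc : (Fintype.piFinset (fun _ : Fin k => A)).card = 4 ^ k := by
    rw [Fintype.card_piFinset]
    simp [hF A hA]
  rw [← hc]
  refine Finset.card_le_card_of_injOn v ?_ (hv.injOn)
  intro t ht
  have ht' := Finset.mem_filter.mp (Finset.mem_coe.mp ht)
  refine Finset.mem_coe.mpr (Fintype.mem_piFinset.mpr ?_)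
  intro i
  rw [← ht'.2]
  exact hsub t ht'.1 i

private lemma ne4 {V : Type} [DecidableEq V] {F : Finset (Finset V)} (hF : U4 F) {a b c d : V}
    (h : ({a, b, c, d} : Finset V) ∈ F) : a ≠ c ∧ b ≠ c ∧ a ≠ d := by
  have h4 := hF _ h
  refine ⟨?_, ?_, ?_⟩
  · rintro rfl
    have : ({a, b, a, d} : Finset V) = {b, a, d} := by
      rw [Finset.insert_eq_of_mem]; simp
    rw [this] at h4
    have := Finset.card_le_three (a := b) (b := a) (c := d)
    omega
  · rintro rfl
    have : ({a, b, b, d} : Finset V) = {a, b, d} := by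
      rw [Finset.insert_eq_of_mem (a := b) (s := {b, d})]; simp
    rw [this] at h4
    have := Finset.card_le_three (a := a) (b := b) (c := d)
    omega
  · rintro rfl
    have : ({a, b, c, a} : Finset V) = {b, c, a} := by
      rw [Finset.insert_eq_of_mem]; simp
    rw [this] at h4
    have := Finset.card_le_three (a := b) (b := c) (c := a)
    omega

private lemma rot {V : Type} [DecidableEq V] (a b c d : V) :
    ({a, b, c, d} : Finset V) = {c, d, a, b} := by
  ext x; simp only [Finset.mem_insert, Finset.mem_singleton]; tauto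

private lemma edge_cases {V : Type} {r : ℕ} (hr : 0 < r) (f : Fin r → V) (p q : V) (e : V × V)
    (he : e ∈ eds (p :: (List.ofFn f ++ [q]))) :
    e = (p, f ⟨0, hr⟩) ∨ (∃ (i : ℕ) (h : i + 1 < r), e = (f ⟨i, by omega⟩, f ⟨i + 1, h⟩)) ∨
      e = (f ⟨r - 1, by omega⟩, q) := by
  unfold eds at he
  obtain ⟨n, hn, rfl⟩ := List.mem_iff_getElem.mp he
  have hlen : n < r + 1 := by
    have := hn
    simp only [List.length_zip, List.length_cons, List.length_append, List.length_ofFn,
      List.length_tail, List.length_nil] at this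
    omega
  rw [List.getElem_zip]
  rcases n with _ | k
  · left
    simp only [List.getElem_cons_zero, List.tail_cons, Prod.mk.injEq, true_and]
    rw [List.getElem_append_left (by simpa using hr)]
    simp
  · by_cases hk : k + 1 < r
    · right; left
      refine ⟨k, hk, ?_⟩
      simp only [List.getElem_cons_succ, List.tail_cons, Prod.mk.injEq]
      rw [List.getElem_append_left (by simp; omega), List.getElem_append_left (by simpa using hk)]
      simp
    · right; right
      have hk' : k = r - 1 := by omega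
      subst hk'
      simp only [List.getElem_cons_succ, List.tail_cons, Prod.mk.injEq]
      rw [List.getElem_append_left (by simp; omega),
        List.getElem_append_right (by simp; omega)]
      simp

private lemma card_sub {V : Type} (W : Finset V) (P : V → Prop) (Q : {x // x ∈ W} → Prop)
    (h : ∀ y : {x // x ∈ W}, Q y → P y.1) :
    (univ.filter Q).card ≤ (W.filter P).card := by
  refine Finset.card_le_card_of_injOn Subtype.val ?_ (Subtype.val_injective.injOn)
  intro y hy
  have hy' := (Finset.mem_filter.mp (Finset.mem_coe.mp hy)).2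
  exact Finset.mem_coe.mpr (Finset.mem_filter.mpr ⟨y.2, h y hy'⟩)

theorem tComp : S_Lll → S_Ta → S_Tb → S_Tc → S_Td → S_Te → S_Comp := by
  intro hL hTa hTb hTc hTd hTe
  obtain ⟨ra, hTa⟩ := hTa
  obtain ⟨rb, hTb⟩ := hTb
  obtain ⟨rc, hTc⟩ := hTc
  obtain ⟨rd, hTd⟩ := hTd
  obtain ⟨re, hTe⟩ := hTe
  refine ⟨ra + rb + rc + rd + re + 4, ?_⟩
  intro V _ _ F G W p q hU hG hp hq hpq hr h1 h2 h3
  obtain ⟨r, hrW⟩ : ∃ r, r = W.card := ⟨_, rfl⟩
  rw [← hrW] at hr h1 h2 h3
  have hcard : Fintype.card {x // x ∈ W} = r := by rw [hrW]; exact Fintype.card_coe W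
  have hr0 : 0 < r := by omega
  have hpI : p ∈ insert p (insert q W) := Finset.mem_insert_self _ _
  have hqI : q ∈ insert p (insert q W) := Finset.mem_insert_of_mem (Finset.mem_insert_self _ _)
  have hWI : ∀ y : {x // x ∈ W}, y.1 ∈ insert p (insert q W) := fun y =>
    Finset.mem_insert_of_mem (Finset.mem_insert_of_mem y.2)
  -- the family `G`
  obtain ⟨M1, s1, k1⟩ := hTa r {x // x ∈ W} (fun x y => G x.1 y.1) (by omega) hcard
    (fun x y => hG _ _) (by
      intro x
      have := card_sub W (fun y => G x.1 y) (fun y => G x.1 y.1) (fun y h => h)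
      have := h1 x.1 (hWI x)
      omega)
  obtain ⟨M2, s2, k2⟩ := hTb r {x // x ∈ W} ⟨0, hr0⟩ (univ.filter (fun y => G p y.1)) (by omega)
    hcard (by
      have := card_sub W (fun y => G p y) (fun y => G p y.1) (fun y h => h)
      have := h1 p hpI
      omega)
  obtain ⟨M3, s3, k3⟩ := hTb r {x // x ∈ W} ⟨r - 1, by omega⟩ (univ.filter (fun y => G y.1 q))
    (by omega) hcard (by
      have := card_sub W (fun y => G q y) (fun y => G y.1 q) (fun y h => hG _ _ h)
      have := h1 q hqI
      omega)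
  have hFU : U4 (F.filter (fun A => A ⊆ insert p (insert q W))) := fun A hA =>
    hU A (Finset.mem_filter.mp hA).1
  have hFx : ∀ x, U4 (F.filter (fun A => x ∈ A ∧ A ⊆ insert p (insert q W))) := fun x A hA =>
    hU A (Finset.mem_filter.mp hA).1
  -- quadruples
  obtain ⟨H4, hH4⟩ : ∃ H4 : Finset ({x // x ∈ W} × {x // x ∈ W} × {x // x ∈ W} × {x // x ∈ W}),
      H4 = univ.filter (fun t => ({t.1.1, t.2.1.1, t.2.2.1.1, t.2.2.2.1} : Finset V) ∈ F) :=
    ⟨_, rfl⟩
  have hsub4 : ∀ t : {x // x ∈ W} × {x // x ∈ W} × {x // x ∈ W} × {x // x ∈ W},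
      ({t.1.1, t.2.1.1, t.2.2.1.1, t.2.2.2.1} : Finset V) ⊆ insert p (insert q W) := by
    intro t x hx
    simp only [Finset.mem_insert, Finset.mem_singleton] at hx
    rcases hx with rfl | rfl | rfl | rfl <;> exact hWI _
  have hinj4 : Function.Injective
      (fun t : {x // x ∈ W} × {x // x ∈ W} × {x // x ∈ W} × {x // x ∈ W} =>
        (![t.1.1, t.2.1.1, t.2.2.1.1, t.2.2.2.1] : Fin 4 → V)) := by
    rintro ⟨a, b, c, d⟩ ⟨a', b', c', d'⟩ h
    have e0 := congrFun h 0
    have e1 := congrFun h 1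
    have e2 := congrFun h 2
    have e3 := congrFun h 3
    simp only [Matrix.cons_val_zero, Matrix.cons_val_one, Matrix.cons_val] at e0 e1 e2 e3
    rw [Subtype.ext e0, Subtype.ext e1, Subtype.ext e2, Subtype.ext e3]
  have hmem4 : ∀ t : {x // x ∈ W} × {x // x ∈ W} × {x // x ∈ W} × {x // x ∈ W}, ∀ i : Fin 4,
      (![t.1.1, t.2.1.1, t.2.2.1.1, t.2.2.2.1] : Fin 4 → V) i ∈
        ({t.1.1, t.2.1.1, t.2.2.1.1, t.2.2.2.1} : Finset V) := by
    intro t i
    fin_cases i <;> simp
  obtain ⟨M4, s4, k4⟩ := hTc r {x // x ∈ W} H4 (by omega) hcard (by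
      have := cntk 4 _ hFU H4 (fun t => ({t.1.1, t.2.1.1, t.2.2.1.1, t.2.2.2.1} : Finset V)) _
        hinj4 (by
          intro t ht
          rw [hH4] at ht
          exact Finset.mem_filter.mpr ⟨(Finset.mem_filter.mp ht).2, hsub4 t⟩)
        (fun t _ i => hmem4 t i)
      norm_num at this
      nlinarith) (by
      intro x
      have := cntk 4 _ (hFx x.1) (H4.filter (fun t => t.1 = x ∨ t.2.1 = x ∨ t.2.2.1 = x ∨
          t.2.2.2 = x)) (fun t => ({t.1.1, t.2.1.1, t.2.2.1.1, t.2.2.2.1} : Finset V)) _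
        hinj4 (by
          intro t ht
          have ht' := Finset.mem_filter.mp ht
          rw [hH4] at ht'
          refine Finset.mem_filter.mpr ⟨(Finset.mem_filter.mp ht'.1).2, ?_, hsub4 t⟩
          simp only [Finset.mem_insert, Finset.mem_singleton]
          rcases ht'.2 with h | h | h | h <;> rw [← h] <;> simp)
        (fun t _ i => hmem4 t i)
      have h2x := h2 x.1 (hWI x)
      norm_num at this
      nlinarith)
  -- triples
  have hinj3 : Function.Injective
      (fun t : {x // x ∈ W} × {x // x ∈ W} × {x // x ∈ W} =>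
        (![t.1.1, t.2.1.1, t.2.2.1] : Fin 3 → V)) := by
    rintro ⟨a, b, c⟩ ⟨a', b', c'⟩ h
    have e0 := congrFun h 0
    have e1 := congrFun h 1
    have e2 := congrFun h 2
    simp only [Matrix.cons_val_zero, Matrix.cons_val_one, Matrix.cons_val] at e0 e1 e2
    rw [Subtype.ext e0, Subtype.ext e1, Subtype.ext e2]
  obtain ⟨H5, hH5⟩ : ∃ H5 : Finset ({x // x ∈ W} × {x // x ∈ W} × {x // x ∈ W}),
      H5 = univ.filter (fun t => ({p, t.1.1, t.2.1.1, t.2.2.1} : Finset V) ∈ F) := ⟨_, rfl⟩
  obtain ⟨M5, s5, k5⟩ := hTd r {x // x ∈ W} ⟨0, hr0⟩ H5 (by omega) hcard (by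
      have := cntk 3 _ (hFx p) H5 (fun t => ({p, t.1.1, t.2.1.1, t.2.2.1} : Finset V)) _
        hinj3 (by
          intro t ht
          rw [hH5] at ht
          refine Finset.mem_filter.mpr ⟨(Finset.mem_filter.mp ht).2, by simp, ?_⟩
          intro x hx
          simp only [Finset.mem_insert, Finset.mem_singleton] at hx
          rcases hx with rfl | rfl | rfl | rfl
          · exact hpI
          all_goals exact hWI _)
        (by intro t _ i; fin_cases i <;> simp)
      have h2x := h2 p hpI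
      norm_num at this
      nlinarith)
  obtain ⟨H6, hH6⟩ : ∃ H6 : Finset ({x // x ∈ W} × {x // x ∈ W} × {x // x ∈ W}),
      H6 = univ.filter (fun t => ({t.2.1.1, t.2.2.1, t.1.1, q} : Finset V) ∈ F) := ⟨_, rfl⟩
  obtain ⟨M6, s6, k6⟩ := hTd r {x // x ∈ W} ⟨r - 1, by omega⟩ H6 (by omega) hcard (by
      have := cntk 3 _ (hFx q) H6 (fun t => ({t.2.1.1, t.2.2.1, t.1.1, q} : Finset V)) _
        hinj3 (by
          intro t ht
          rw [hH6] at ht
          refine Finset.mem_filter.mpr ⟨(Finset.mem_filter.mp ht).2, by simp, ?_⟩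
          intro x hx
          simp only [Finset.mem_insert, Finset.mem_singleton] at hx
          rcases hx with rfl | rfl | rfl | rfl
          · exact hWI _
          · exact hWI _
          · exact hWI _
          · exact hqI)
        (by intro t _ i; fin_cases i <;> simp)
      have h2x := h2 q hqI
      norm_num at this
      nlinarith)
  -- pairs
  obtain ⟨H7, hH7⟩ : ∃ H7 : Finset ({x // x ∈ W} × {x // x ∈ W}),
      H7 = univ.filter (fun t => ({p, t.1.1, t.2.1, q} : Finset V) ∈ F) := ⟨_, rfl⟩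
  have hinj2 : Function.Injective
      (fun t : {x // x ∈ W} × {x // x ∈ W} => (![t.1.1, t.2.1] : Fin 2 → V)) := by
    rintro ⟨a, b⟩ ⟨a', b'⟩ h
    have e0 := congrFun h 0
    have e1 := congrFun h 1
    simp only [Matrix.cons_val_zero, Matrix.cons_val_one] at e0 e1
    rw [Subtype.ext e0, Subtype.ext e1]
  obtain ⟨M7, s7, k7⟩ := hTe r {x // x ∈ W} ⟨0, hr0⟩ ⟨r - 1, by omega⟩ H7 (by omega) (by
      intro h
      have := congrArg Fin.val h
      simp only at this
      omega) hcard (by
      have := cntk 2 _ (hFx p) H7 (fun t => ({p, t.1.1, t.2.1, q} : Finset V)) _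
        hinj2 (by
          intro t ht
          rw [hH7] at ht
          refine Finset.mem_filter.mpr ⟨(Finset.mem_filter.mp ht).2, by simp, ?_⟩
          intro x hx
          simp only [Finset.mem_insert, Finset.mem_singleton] at hx
          rcases hx with rfl | rfl | rfl | rfl
          · exact hpI
          · exact hWI _
          · exact hWI _
          · exact hqI)
        (by intro t _ i; fin_cases i <;> simp)
      have h2x := h2 p hpI
      norm_num at this
      nlinarith)
  -- the union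
  obtain ⟨N2, t2, u2, v2⟩ := sml_ex s1 s2
  obtain ⟨N3, t3, u3, v3⟩ := sml_ex t2 s3
  obtain ⟨N4, t4, u4, v4⟩ := sml_ex t3 s4
  obtain ⟨N5, t5, u5, v5⟩ := sml_ex t4 s5
  obtain ⟨N6, t6, u6, v6⟩ := sml_ex t5 s6
  obtain ⟨N7, t7, u7, v7⟩ := sml_ex t6 s7
  have t8 : Sml N7 (1 / 32) := by
    obtain ⟨x1, x2, x3⟩ := t7
    exact ⟨x1, fun i => (x2 i).trans (by norm_num), fun w => (x3 w).trans (by norm_num)⟩
  obtain ⟨π, hπ⟩ := hL (Fin r) {x // x ∈ W} N7 (by rw [hcard]; simp) t8
  have g1 := k1 π (fun M h => hπ M (u7 _ (u6 _ (u5 _ (u4 _ (u3 _ (u2 _ h)))))))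
  have g2 := k2 π (fun M h => hπ M (u7 _ (u6 _ (u5 _ (u4 _ (u3 _ (v2 _ h)))))))
  have g3 := k3 π (fun M h => hπ M (u7 _ (u6 _ (u5 _ (u4 _ (v3 _ h))))))
  have g4 := k4 π (fun M h => hπ M (u7 _ (u6 _ (u5 _ (v4 _ h)))))
  have g5 := k5 π (fun M h => hπ M (u7 _ (u6 _ (v5 _ h))))
  have g6 := k6 π (fun M h => hπ M (u7 _ (v6 _ h)))
  have g7 := k7 π (fun M h => hπ M (v7 _ h))
  clear k1 k2 k3 k4 k5 k6 k7
  rw [hH5] at g5
  rw [hH6] at g6
  rw [hH7] at g7
  rw [hH4] at g4
  simp only [Finset.mem_filter, Finset.mem_univ, true_and] at g2 g3 g4 g5 g6 g7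
  refine ⟨List.ofFn (fun i => (π i).1), ?_, ?_, ?_, ?_⟩
  · rw [List.nodup_ofFn]
    exact Subtype.val_injective.comp π.injective
  · intro x
    rw [List.mem_ofFn]
    constructor
    · rintro ⟨i, rfl⟩
      exact (π i).2
    · intro hx
      exact ⟨π.symm ⟨x, hx⟩, by simp⟩
  · intro e he
    rcases edge_cases hr0 _ p q e he with rfl | ⟨i, h, rfl⟩ | rfl
    · exact g2
    · exact g1 i h
    · exact g3
  · intro e he f hf
    have cAB : ∀ (i : ℕ) (h : i + 1 < r), ({p, (π ⟨0, hr0⟩).1, (π ⟨i, by omega⟩).1,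
        (π ⟨i + 1, h⟩).1} : Finset V) ∉ F := by
      intro i h hc
      rcases Nat.eq_zero_or_pos i with rfl | hi
      · exact (ne4 hU hc).2.1 rfl
      · exact g5 i h (by show i ≠ 0; omega) (by show i + 1 ≠ 0; omega) hc
    have cAC : ({p, (π ⟨0, hr0⟩).1, (π ⟨r - 1, by omega⟩).1, q} : Finset V) ∉ F := g7
    have cBB : ∀ (i : ℕ) (h : i + 1 < r) (j : ℕ) (h' : j + 1 < r),
        ({(π ⟨i, by omega⟩).1, (π ⟨i + 1, h⟩).1, (π ⟨j, by omega⟩).1,
          (π ⟨j + 1, h'⟩).1} : Finset V) ∉ F := by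
      intro i h j h' hc
      obtain ⟨n1, n2, n3⟩ := ne4 hU hc
      rcases Nat.lt_trichotomy (i + 1) j with h5 | h5 | h5
      · exact g4 i j h5 h' hc
      · subst h5; exact n2 rfl
      · rcases Nat.lt_trichotomy (j + 1) i with h6 | h6 | h6
        · rw [rot] at hc
          exact g4 j i h6 h hc
        · subst h6; exact n3 rfl
        · have h7 : i = j := by omega
          subst h7; exact n1 rfl
    have cBC : ∀ (i : ℕ) (h : i + 1 < r), ({(π ⟨i, by omega⟩).1, (π ⟨i + 1, h⟩).1,
        (π ⟨r - 1, by omega⟩).1, q} : Finset V) ∉ F := by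
      intro i h hc
      by_cases h5 : i + 1 = r - 1
      · have h6 : (⟨i + 1, h⟩ : Fin r) = ⟨r - 1, by omega⟩ := Fin.ext h5
        rw [h6] at hc
        exact (ne4 hU hc).2.1 rfl
      · exact g6 i h (by show i ≠ r - 1; omega) (by show i + 1 ≠ r - 1; omega) hc
    rcases edge_cases hr0 _ p q e he with rfl | ⟨i, h, rfl⟩ | rfl <;>
      rcases edge_cases hr0 _ p q f hf with rfl | ⟨j, h', rfl⟩ | rfl <;>
      unfold Cf <;> intro hc <;> simp only at hc
    · exact (ne4 hU hc).1 rfl
    · exact cAB j h' hc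
    · exact cAC hc
    · rw [rot] at hc; exact cAB i h hc
    · exact cBB i h j h' hc
    · exact cBC i h hc
    · rw [rot] at hc; exact cAC hc
    · rw [rot] at hc; exact cBC j h' hc
    · exact (ne4 hU hc).1 rfl

end Pool.Agent.Ham
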