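import Pool.Agent.Lib.MP_716318_co.H.Spec2

/-!
# MP_716318_co, package H: the cost inequality (S_Cost)
-/

set_option autoImplicit false

namespace Pool.Agent.Ham

open Finset
open scoped Classical

private lemma costD4 {V : Type} [DecidableEq V] {a b c d : V}
    (h : ({a, b, c, d} : Finset V).card = 4) :
    a ≠ b ∧ a ≠ c ∧ a ≠ d ∧ b ≠ c ∧ b ≠ d ∧ c ≠ d := by
  rw [Finset.card_insert_eq_ite, Finset.card_insert_eq_ite, Finset.card_insert_eq_ite,
    Finset.card_singleton] at h
  split_ifs at h with h1 h2 h3 h4 h5 h6 h7 <;> simp at * <;> tauto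

/-- The members meeting `J` exactly in `S`. -/
private def costF {V : Type} [DecidableEq V] (F : Finset (Finset V)) (J S : Finset V) :
    Finset (Finset V) := F.filter (fun A => A ∩ J = S)

private lemma costA {V : Type} [Fintype V] [DecidableEq V] (hTwo : S_Two)
    (F : Finset (Finset V)) (J : Finset V) (θ : ℝ) (hF : U4 F) (hθ : 0 < θ) (v : V) (hv : v ∈ J) :
    (θ - 1) * nD F J θ v ≤ 2 * ((costF F J {v}).card : ℝ) := by
  have hU : U4 (costF F J {v}) := fun A hA => hF A (Finset.mem_filter.mp hA).1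
  have hex : ∀ x, ∃ y, x ∈ (univ : Finset V).filter (fun x => x ∉ J ∧ Dd F J θ v x) →
      (y ∉ J ∧ θ ≤ (ch F J v x y : ℝ)) := by
    intro x
    by_cases hx : x ∈ (univ : Finset V).filter (fun x => x ∉ J ∧ Dd F J θ v x)
    · obtain ⟨y, hy⟩ := (Finset.mem_filter.mp hx).2.2
      exact ⟨y, fun _ => hy⟩
    · exact ⟨x, fun h => absurd h hx⟩
  choose y hy using hex
  have h := hTwo V (costF F J {v}) v
    ((univ : Finset V).filter (fun x => x ∉ J ∧ Dd F J θ v x)) y θ hU hθ ?_
  · have h1 : dg (costF F J {v}) {v} ≤ (costF F J {v}).card := Finset.card_filter_le _ _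
    have h2 : (dg (costF F J {v}) {v} : ℝ) ≤ ((costF F J {v}).card : ℝ) := by exact_mod_cast h1
    have h3 : (θ - 1) * (nD F J θ v : ℝ) ≤ 2 * dg (costF F J {v}) {v} := h
    linarith
  · intro x hx
    obtain ⟨hyJ, hyc⟩ := hy x hx
    have hxJ : x ∉ J := (Finset.mem_filter.mp hx).2.1
    refine hyc.trans ?_
    have : ch F J v x (y x) ≤ c3 (costF F J {v}) v x (y x) := by
      unfold ch c3
      refine Finset.card_le_card fun t ht => ?_
      simp only [Finset.mem_filter, Finset.mem_univ, true_and] at ht ⊢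
      refine Finset.mem_filter.mpr ⟨ht.2, ?_⟩
      ext s
      simp only [Finset.mem_inter, Finset.mem_insert, Finset.mem_singleton]
      constructor
      · rintro ⟨h | h | h | h, hs⟩
        · exact h
        · exact absurd (h ▸ hs) hxJ
        · exact absurd (h ▸ hs) hyJ
        · exact absurd (h ▸ hs) ht.1
      · rintro rfl
        exact ⟨Or.inl rfl, hv⟩
    exact_mod_cast this

private lemma costB {V : Type} [Fintype V] [DecidableEq V]
    (F : Finset (Finset V)) (J : Finset V) (hF : U4 F) (v w : V) (hv : v ∈ J) (hw : w ∈ J) :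
    nE F J v w ≤ 2 * (costF F J {v, w}).card := by
  unfold nE
  refine Finset.card_le_mul_card_image_of_maps_to
    (f := fun p : V × V => ({v, p.1, w, p.2} : Finset V)) ?_ 2 ?_
  · intro p hp
    simp only [Finset.mem_filter, Finset.mem_univ, true_and] at hp
    refine Finset.mem_filter.mpr ⟨hp.2.2, ?_⟩
    ext s
    simp only [Finset.mem_inter, Finset.mem_insert, Finset.mem_singleton]
    constructor
    · rintro ⟨h | h | h | h, hs⟩
      · exact Or.inl h
      · exact absurd (h ▸ hs) hp.1
      · exact Or.inr h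
      · exact absurd (h ▸ hs) hp.2.1
    · rintro (rfl | rfl)
      · exact ⟨Or.inl rfl, hv⟩
      · exact ⟨Or.inr (Or.inr (Or.inl rfl)), hw⟩
  · intro A hA
    by_cases hne : (((univ : Finset (V × V)).filter (fun p : V × V => p.1 ∉ J ∧ p.2 ∉ J ∧
      ({v, p.1, w, p.2} : Finset V) ∈ F)).filter
        (fun p => ({v, p.1, w, p.2} : Finset V) = A)).Nonempty
    · obtain ⟨⟨x0, t0⟩, h0⟩ := hne
      simp only [Finset.mem_filter, Finset.mem_univ, true_and] at h0
      obtain ⟨⟨hx0, ht0, hF0⟩, hA0⟩ := h0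
      refine (Finset.card_le_card (t := {(x0, t0), (t0, x0)}) ?_).trans
        (Finset.card_le_two)
      rintro ⟨x, t⟩ h1
      simp only [Finset.mem_filter, Finset.mem_univ, true_and] at h1
      obtain ⟨⟨hx, ht, hF1⟩, hA1⟩ := h1
      have hd := costD4 (hF _ hF1)
      have hx' : x = x0 ∨ x = t0 := by
        have : x ∈ ({v, x0, w, t0} : Finset V) := by rw [hA0, ← hA1]; simp
        simp only [Finset.mem_insert, Finset.mem_singleton] at this
        rcases this with h | h | h | h
        · exact absurd h.symm hd.1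
        · exact Or.inl h
        · exact absurd h hd.2.2.2.1
        · exact Or.inr h
      have ht' : t = x0 ∨ t = t0 := by
        have : t ∈ ({v, x0, w, t0} : Finset V) := by rw [hA0, ← hA1]; simp
        simp only [Finset.mem_insert, Finset.mem_singleton] at this
        rcases this with h | h | h | h
        · exact absurd h.symm hd.2.2.1
        · exact Or.inl h
        · exact absurd h.symm hd.2.2.2.2.2
        · exact Or.inr h
      have hxt : x ≠ t := hd.2.2.2.2.1
      simp only [Finset.mem_insert, Finset.mem_singleton, Prod.mk.injEq]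
      rcases hx' with h | h <;> rcases ht' with h' | h'
      · exact absurd (h.trans h'.symm) hxt
      · exact Or.inl ⟨h, h'⟩
      · exact Or.inr ⟨h, h'⟩
      · exact absurd (h.trans h'.symm) hxt
    · rw [Finset.not_nonempty_iff_eq_empty] at hne
      rw [hne]
      simp

/-- The number of the `w ≠ v` with `B = {v, w}`. -/
private lemma costW {V : Type} [DecidableEq V] (J B : Finset V) (v : V) :
    ((J.erase v).filter (fun w => B = {v, w})).card ≤
      if B.card = 2 ∧ v ∈ B then 1 else 0 := by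
  split_ifs with h
  · refine Finset.card_le_one.mpr ?_
    intro w hw w' hw'
    rw [Finset.mem_filter, Finset.mem_erase] at hw hw'
    have : w ∈ ({v, w'} : Finset V) := by rw [← hw'.2, hw.2]; simp
    simp only [Finset.mem_insert, Finset.mem_singleton] at this
    rcases this with h1 | h1
    · exact absurd h1 hw.1.1
    · exact h1
  · refine le_of_eq (Finset.card_eq_zero.mpr ?_)
    rw [Finset.filter_eq_empty_iff]
    intro w hw hB
    rw [Finset.mem_erase] at hw
    refine h ⟨?_, by rw [hB]; simp⟩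
    rw [hB]
    exact Finset.card_pair hw.1.symm

private lemma costV {V : Type} [DecidableEq V] (B : Finset V) (v : V) :
    (if B = {v} then 1 else 0 : ℕ) ≤ if B.card = 1 ∧ v ∈ B then 1 else 0 := by
  by_cases h : B = {v}
  · rw [if_pos h, if_pos ⟨by rw [h]; simp, by rw [h]; simp⟩]
  · rw [if_neg h]; exact Nat.zero_le _

private lemma costDeg {V : Type} [Fintype V] [DecidableEq V]
    (F : Finset (Finset V)) (J : Finset V) (v : V) :
    (costF F J {v}).card + ∑ w ∈ J.erase v, (costF F J {v, w}).card ≤ dg F {v} := by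
  have h1 : (costF F J {v}).card = ∑ A ∈ F, if A ∩ J = {v} then 1 else 0 := by
    unfold costF; rw [Finset.card_filter]
  have h2 : ∑ w ∈ J.erase v, (costF F J {v, w}).card =
      ∑ A ∈ F, ((J.erase v).filter (fun w => A ∩ J = {v, w})).card := by
    unfold costF
    simp_rw [Finset.card_filter]
    rw [Finset.sum_comm]
  have h3 : dg F {v} = ∑ A ∈ F, if v ∈ A then 1 else 0 := by
    unfold dg
    rw [Finset.card_filter]
    refine Finset.sum_congr rfl fun A _ => ?_
    simp only [Finset.singleton_subset_iff]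
  rw [h1, h2, h3, ← Finset.sum_add_distrib]
  refine Finset.sum_le_sum fun A _ => ?_
  have ha := costV (A ∩ J) v
  have hb := costW J (A ∩ J) v
  by_cases hvA : v ∈ A
  · rw [if_pos hvA]
    by_cases hc1 : (A ∩ J).card = 1
    · have hn : ¬ ((A ∩ J).card = 2 ∧ v ∈ A ∩ J) := fun h => by omega
      rw [if_neg hn] at hb
      have hle : (if (A ∩ J).card = 1 ∧ v ∈ A ∩ J then 1 else 0 : ℕ) ≤ 1 := by
        split_ifs <;> omega
      omega
    · have hn : ¬ ((A ∩ J).card = 1 ∧ v ∈ A ∩ J) := fun h => hc1 h.1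
      rw [if_neg hn] at ha
      have hle : (if (A ∩ J).card = 2 ∧ v ∈ A ∩ J then 1 else 0 : ℕ) ≤ 1 := by
        split_ifs <;> omega
      omega
  · have hvB : v ∉ A ∩ J := fun h => hvA (Finset.mem_inter.mp h).1
    have hn1 : ¬ ((A ∩ J).card = 1 ∧ v ∈ A ∩ J) := fun h => hvB h.2
    have hn2 : ¬ ((A ∩ J).card = 2 ∧ v ∈ A ∩ J) := fun h => hvB h.2
    rw [if_neg hn1] at ha
    rw [if_neg hn2] at hb
    rw [if_neg hvA]
    omega

private lemma costTot {V : Type} [Fintype V] [DecidableEq V]
    (F : Finset (Finset V)) (J : Finset V) :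
    2 * ∑ v ∈ J, (costF F J {v}).card + ∑ v ∈ J, ∑ w ∈ J.erase v, (costF F J {v, w}).card ≤
      2 * F.card := by
  have h1 : ∑ v ∈ J, (costF F J {v}).card = ∑ A ∈ F, ∑ v ∈ J, if A ∩ J = {v} then 1 else 0 := by
    rw [Finset.sum_comm]
    refine Finset.sum_congr rfl fun v _ => ?_
    unfold costF; rw [Finset.card_filter]
  have h2 : ∑ v ∈ J, ∑ w ∈ J.erase v, (costF F J {v, w}).card =
      ∑ A ∈ F, ∑ v ∈ J, ((J.erase v).filter (fun w => A ∩ J = {v, w})).card := by
    rw [Finset.sum_comm]
    refine Finset.sum_congr rfl fun v _ => ?_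
    unfold costF
    simp_rw [Finset.card_filter]
    rw [Finset.sum_comm]
  rw [h1, h2, Finset.mul_sum, ← Finset.sum_add_distrib]
  have h3 : ∀ A ∈ F, 2 * (∑ v ∈ J, if A ∩ J = {v} then 1 else 0) +
      ∑ v ∈ J, ((J.erase v).filter (fun w => A ∩ J = {v, w})).card ≤ 2 := by
    intro A _
    have ha : (∑ v ∈ J, if A ∩ J = {v} then 1 else 0) ≤
        ∑ v ∈ J, if (A ∩ J).card = 1 ∧ v ∈ A ∩ J then 1 else 0 :=
      Finset.sum_le_sum fun v _ => costV (A ∩ J) v
    have hb : ∑ v ∈ J, ((J.erase v).filter (fun w => A ∩ J = {v, w})).card ≤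
        ∑ v ∈ J, if (A ∩ J).card = 2 ∧ v ∈ A ∩ J then 1 else 0 :=
      Finset.sum_le_sum fun v _ => costW J (A ∩ J) v
    have hc : ∀ k : ℕ, (∑ v ∈ J, if (A ∩ J).card = k ∧ v ∈ A ∩ J then 1 else 0) =
        if (A ∩ J).card = k then k else 0 := by
      intro k
      by_cases hk : (A ∩ J).card = k
      · rw [if_pos hk, ← Finset.card_filter]
        have : (J.filter fun v => (A ∩ J).card = k ∧ v ∈ A ∩ J) = A ∩ J := by
          ext s
          simp only [Finset.mem_filter, Finset.mem_inter]
          tauto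
        rw [this, hk]
      · rw [if_neg hk]
        refine Finset.sum_eq_zero fun v _ => ?_
        rw [if_neg (by tauto)]
    rw [hc 1] at ha
    rw [hc 2] at hb
    split_ifs at ha hb <;> omega
  calc _ ≤ ∑ A ∈ F, 2 := Finset.sum_le_sum h3
    _ = 2 * F.card := by rw [Finset.sum_const, smul_eq_mul, mul_comm]

/-- The cost inequality. -/
theorem tCost : S_Two → S_Cost := by
  intro hTwo V _ _ F J θ hF hθ
  have hA := fun v hv => costA hTwo F J θ hF hθ v hv
  have hB : ∀ v ∈ J, ∀ w ∈ J.erase v, (nE F J v w : ℝ) ≤ 2 * ((costF F J {v, w}).card : ℝ) := by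
    intro v hv w hw
    have := costB F J hF v w hv (Finset.mem_of_mem_erase hw)
    exact_mod_cast this
  have hBs : ∀ v ∈ J, ∑ w ∈ J.erase v, (nE F J v w : ℝ) ≤
      2 * ∑ w ∈ J.erase v, ((costF F J {v, w}).card : ℝ) := by
    intro v hv
    rw [Finset.mul_sum]
    exact Finset.sum_le_sum fun w hw => hB v hv w hw
  constructor
  · intro v hv
    have h1 : ((costF F J {v}).card : ℝ) + ∑ w ∈ J.erase v, ((costF F J {v, w}).card : ℝ) ≤
        dg F {v} := by exact_mod_cast costDeg F J v
    have h2 := hA v hv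
    have h3 := hBs v hv
    linarith
  · have h1 : 2 * (∑ v ∈ J, ((costF F J {v}).card : ℝ)) +
        ∑ v ∈ J, ∑ w ∈ J.erase v, ((costF F J {v, w}).card : ℝ) ≤ 2 * F.card := by
      exact_mod_cast costTot F J
    have h2 : 2 * (θ - 1) * ∑ v ∈ J, (nD F J θ v : ℝ) ≤
        4 * ∑ v ∈ J, ((costF F J {v}).card : ℝ) := by
      rw [Finset.mul_sum, Finset.mul_sum]
      refine Finset.sum_le_sum fun v hv => ?_
      have := hA v hv
      nlinarith
    have h3 : ∑ v ∈ J, ∑ w ∈ J.erase v, (nE F J v w : ℝ) ≤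
        2 * ∑ v ∈ J, ∑ w ∈ J.erase v, ((costF F J {v, w}).card : ℝ) := by
      rw [Finset.mul_sum]
      exact Finset.sum_le_sum fun v hv => hBs v hv
    linarith

end Pool.Agent.Ham
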