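import Pool.Agent.Lib.MP_716318_co.H.Spec2

set_option autoImplicit false

/-!
# MP_716318_co, package H: doubling in product spaces (`S_Dbl`)
-/

namespace Pool.Agent.Ham

open Finset
open scoped Classical

private def mx {ι Λ : Type} (s : ι → Bool) (a b : ι → Λ) : ι → Λ :=
  fun i => cond (s i) (b i) (a i)

private lemma mx_cons {Λ : Type} {k : ℕ} (s0 : Bool) (s : Fin k → Bool) (x y : Λ)
    (a b : Fin k → Λ) :
    mx (Fin.cons s0 s : Fin (k + 1) → Bool) (Fin.cons x a : Fin (k + 1) → Λ)
      (Fin.cons y b : Fin (k + 1) → Λ) = (Fin.cons (cond s0 y x) (mx s a b) : Fin (k + 1) → Λ) := by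
  funext i
  refine Fin.cases ?_ (fun j => ?_) i
  · simp [mx]
  · simp [mx]

private lemma sum_cons {Λ : Type} [Fintype Λ] (k : ℕ) (f : (Fin (k + 1) → Λ) → ℝ) :
    ∑ a, f a = ∑ b : Λ, ∑ a : Fin k → Λ, f (Fin.cons b a) := by
  rw [← Fintype.sum_prod_type' (f := fun (b : Λ) (a : Fin k → Λ) => f (Fin.cons b a))]
  exact (Fintype.sum_equiv (Fin.consEquiv (fun _ => Λ)) _ _ (fun p => rfl)).symm

/-- The indicator of a proposition. -/
private noncomputable def id1 (p : Prop) : ℝ := if p then 1 else 0

private lemma id1_nonneg (p : Prop) : 0 ≤ id1 p := by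
  unfold id1; split_ifs <;> norm_num

private lemma id1_mul (p q : Prop) : id1 p * id1 q = id1 (p ∧ q) := by
  unfold id1
  by_cases hp : p <;> by_cases hq : q <;> simp [hp, hq]

private lemma all_mx {Λ : Type} {k : ℕ} (Q : (Fin (k + 1) → Λ) → Prop) (b b' : Λ)
    (a a' : Fin k → Λ) :
    (∀ s : Fin k → Bool, Q (Fin.cons b (mx s a a')) ∧ Q (Fin.cons b' (mx s a a'))) ↔
      ∀ s : Fin (k + 1) → Bool, Q (mx s (Fin.cons b a) (Fin.cons b' a')) := by
  constructor
  · intro h s
    have e : s = (Fin.cons (s 0) (Fin.tail s) : Fin (k + 1) → Bool) := (Fin.cons_self_tail s).symm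
    rw [e, mx_cons]
    cases hs : s 0
    · simpa [hs] using (h (Fin.tail s)).1
    · simpa [hs] using (h (Fin.tail s)).2
  · intro h s
    constructor
    · have h1 := h (Fin.cons false s)
      rw [mx_cons] at h1
      exact h1
    · have h1 := h (Fin.cons true s)
      rw [mx_cons] at h1
      exact h1

private lemma core (Λ : Type) [Fintype Λ] : ∀ (k : ℕ) (X : Type) [Fintype X]
    (G : X → (Fin k → Λ) → Prop) (c : ℝ), 0 ≤ c →
    c * ((Fintype.card X : ℝ) * (Fintype.card Λ : ℝ) ^ k) ≤ ∑ x, ∑ a, id1 (G x a) →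
    c ^ (2 ^ k) * ((Fintype.card X : ℝ) * ((Fintype.card Λ : ℝ) ^ k) ^ 2) ≤
      ∑ x, ∑ a, ∑ a', id1 (∀ s, G x (mx s a a')) := by
  intro k
  induction k with
  | zero =>
    intro X _ G c hc h
    have e : ∀ x, ∑ a, ∑ a', id1 (∀ s, G x (mx s a a')) = ∑ a, id1 (G x a) := by
      intro x
      refine sum_congr rfl (fun a _ => ?_)
      rw [Fintype.sum_unique]
      unfold id1
      have h1 : (∀ s : Fin 0 → Bool, G x (mx s a default)) ↔ G x a := by
        constructor
        · intro h
          have h2 := h default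
          rwa [Subsingleton.elim (mx default a default) a] at h2
        · intro h s
          rwa [Subsingleton.elim (mx s a default) a]
      simp only [h1]
    simp only [e]
    simpa using h
  | succ k ih =>
    intro X _ G c hc h
    have h0 : c ^ 2 * ((Fintype.card (X × Λ × Λ) : ℝ) * (Fintype.card Λ : ℝ) ^ k) ≤
        ∑ x : X × Λ × Λ, ∑ a, id1 (G x.1 (Fin.cons x.2.1 a) ∧ G x.1 (Fin.cons x.2.2 a)) := by
      have e1 : ∑ x : X × Λ × Λ, ∑ a : Fin k → Λ,
          id1 (G x.1 (Fin.cons x.2.1 a) ∧ G x.1 (Fin.cons x.2.2 a)) =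
          ∑ p : X × (Fin k → Λ), (∑ b, id1 (G p.1 (Fin.cons b p.2))) ^ 2 := by
        rw [Fintype.sum_prod_type, Fintype.sum_prod_type]
        refine sum_congr rfl (fun x _ => ?_)
        rw [sum_comm]
        refine sum_congr rfl (fun a _ => ?_)
        rw [Fintype.sum_prod_type, sq, sum_mul_sum]
        refine sum_congr rfl (fun b _ => sum_congr rfl (fun b' _ => ?_))
        rw [id1_mul]
      rw [e1]
      have e2 : ∑ x, ∑ a, id1 (G x a) =
          ∑ p : X × (Fin k → Λ), ∑ b, id1 (G p.1 (Fin.cons b p.2)) := by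
        rw [Fintype.sum_prod_type]
        refine sum_congr rfl (fun x _ => ?_)
        rw [sum_cons, sum_comm]
      rw [e2] at h
      have cs := sq_sum_le_card_mul_sum_sq (s := (univ : Finset (X × (Fin k → Λ))))
        (f := fun p => ∑ b, id1 (G p.1 (Fin.cons b p.2)))
      have hcard : ((univ : Finset (X × (Fin k → Λ))).card : ℝ) =
          (Fintype.card X : ℝ) * (Fintype.card Λ : ℝ) ^ k := by
        rw [card_univ, Fintype.card_prod]
        simp
      rw [hcard] at cs
      have hX : ((Fintype.card (X × Λ × Λ) : ℕ) : ℝ) =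
          (Fintype.card X : ℝ) * (Fintype.card Λ : ℝ) ^ 2 := by
        rw [Fintype.card_prod, Fintype.card_prod]
        push_cast
        ring
      rw [hX]
      have hn : 0 ≤ ∑ p : X × (Fin k → Λ), (∑ b, id1 (G p.1 (Fin.cons b p.2))) ^ 2 :=
        sum_nonneg (fun p _ => sq_nonneg _)
      generalize ∑ p : X × (Fin k → Λ), (∑ b, id1 (G p.1 (Fin.cons b p.2))) ^ 2 = T at *
      generalize ∑ p : X × (Fin k → Λ), ∑ b, id1 (G p.1 (Fin.cons b p.2)) = U at *
      have hm : 0 ≤ (Fintype.card X : ℝ) * (Fintype.card Λ : ℝ) ^ k := by positivity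
      have hl : 0 ≤ (Fintype.card Λ : ℝ) := by positivity
      have h' : c * (((Fintype.card X : ℝ) * (Fintype.card Λ : ℝ) ^ k) * (Fintype.card Λ : ℝ)) ≤
          U := by
        have : ((Fintype.card X : ℝ) * (Fintype.card Λ : ℝ) ^ (k + 1)) =
          ((Fintype.card X : ℝ) * (Fintype.card Λ : ℝ) ^ k) * (Fintype.card Λ : ℝ) := by ring
        rw [← this]; exact h
      have hgoal : c ^ 2 * ((Fintype.card X : ℝ) * (Fintype.card Λ : ℝ) ^ 2 *
          (Fintype.card Λ : ℝ) ^ k) = c ^ 2 * (Fintype.card Λ : ℝ) ^ 2 *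
            ((Fintype.card X : ℝ) * (Fintype.card Λ : ℝ) ^ k) := by ring
      rw [hgoal]
      generalize (Fintype.card X : ℝ) * (Fintype.card Λ : ℝ) ^ k = m at *
      generalize (Fintype.card Λ : ℝ) = l at *
      rcases hm.eq_or_lt with h0 | hpos
      · rw [← h0]; simpa using hn
      · have h3 : (c * (m * l)) ^ 2 ≤ U ^ 2 :=
          pow_le_pow_left₀ (by positivity) h' 2
        have h4 : (c * (m * l)) ^ 2 ≤ m * T := h3.trans cs
        have h5 : m * (c ^ 2 * l ^ 2 * m) ≤ m * T := by
          calc m * (c ^ 2 * l ^ 2 * m) = (c * (m * l)) ^ 2 := by ring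
            _ ≤ m * T := h4
        exact le_of_mul_le_mul_left h5 hpos
    have h1 := ih (X × Λ × Λ)
      (fun x a => G x.1 (Fin.cons x.2.1 a) ∧ G x.1 (Fin.cons x.2.2 a)) (c ^ 2) (by positivity) h0
    have hX : ((Fintype.card (X × Λ × Λ) : ℕ) : ℝ) =
        (Fintype.card X : ℝ) * (Fintype.card Λ : ℝ) ^ 2 := by
      rw [Fintype.card_prod, Fintype.card_prod]
      push_cast
      ring
    rw [hX] at h1
    have e3 : ∑ x : X × Λ × Λ, ∑ a, ∑ a', id1 (∀ s, G x.1 (Fin.cons x.2.1 (mx s a a')) ∧
        G x.1 (Fin.cons x.2.2 (mx s a a'))) = ∑ x, ∑ a, ∑ a', id1 (∀ s, G x (mx s a a')) := by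
      rw [Fintype.sum_prod_type]
      refine sum_congr rfl (fun x _ => ?_)
      rw [Fintype.sum_prod_type, sum_cons]
      refine sum_congr rfl (fun b _ => ?_)
      rw [sum_comm]
      refine sum_congr rfl (fun a _ => ?_)
      rw [sum_cons]
      refine sum_congr rfl (fun b' _ => sum_congr rfl (fun a' _ => ?_))
      rw [all_mx (fun z => G x z) b b' a a']
    rw [← e3]
    refine le_trans (le_of_eq ?_) h1
    ring

theorem tDbl : S_Dbl := by
  intro H Λ _ _ _ _ c P hc h
  set e := Fintype.equivFin H with he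
  set k := Fintype.card H with hk
  have h1 := core Λ k Unit (fun _ a => P (fun v => a (e v))) c hc ?_
  · rw [Fintype.card_unit] at h1
    have e1 : ∑ _x : Unit, ∑ a : Fin k → Λ, ∑ a' : Fin k → Λ,
        id1 (∀ s, P (fun v => mx s a a' (e v))) =
        (univ.filter (fun p : (H → Λ) × (H → Λ) =>
          ∀ S : Finset H, P (fun v => if v ∈ S then p.2 v else p.1 v))).card := by
      rw [Fintype.sum_unique, card_filter]
      push_cast
      rw [Fintype.sum_prod_type]
      refine Fintype.sum_equiv (Equiv.arrowCongr e.symm (Equiv.refl Λ)) _ _ (fun a => ?_)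
      refine Fintype.sum_equiv (Equiv.arrowCongr e.symm (Equiv.refl Λ)) _ _ (fun a' => ?_)
      unfold id1
      have h2 : (∀ s : Fin k → Bool, P (fun v => mx s a a' (e v))) ↔
          ∀ S : Finset H, P (fun v => if v ∈ S then
            ((Equiv.arrowCongr e.symm (Equiv.refl Λ)) a') v else
            ((Equiv.arrowCongr e.symm (Equiv.refl Λ)) a) v) := by
        constructor
        · intro h S
          have h3 := h (fun i => decide (e.symm i ∈ S))
          have h4 : (fun v => mx (fun i => decide (e.symm i ∈ S)) a a' (e v)) =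
              (fun v => if v ∈ S then
                ((Equiv.arrowCongr e.symm (Equiv.refl Λ)) a') v else
                ((Equiv.arrowCongr e.symm (Equiv.refl Λ)) a) v) := by
            funext v
            by_cases hv : v ∈ S <;> simp [mx, hv, Equiv.arrowCongr]
          rwa [h4] at h3
        · intro h s
          have h3 := h (univ.filter (fun v => s (e v) = true))
          have h4 : (fun v => mx s a a' (e v)) =
              (fun v => if v ∈ (univ.filter (fun v => s (e v) = true)) then
                ((Equiv.arrowCongr e.symm (Equiv.refl Λ)) a') v else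
                ((Equiv.arrowCongr e.symm (Equiv.refl Λ)) a) v) := by
            funext v
            cases hv : s (e v) <;> simp [mx, hv, Equiv.arrowCongr]
          rw [h4]
          exact h3
      simp only [h2]
    rw [e1] at h1
    simpa using h1
  · rw [Fintype.card_unit]
    have e1 : ∑ _x : Unit, ∑ a : Fin k → Λ, id1 (P (fun v => a (e v))) =
        (univ.filter (fun a : H → Λ => P a)).card := by
      rw [Fintype.sum_unique, card_filter]
      push_cast
      refine Fintype.sum_equiv (Equiv.arrowCongr e.symm (Equiv.refl Λ)) _ _ (fun a => ?_)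
      rfl
    rw [e1]
    simpa using h

end Pool.Agent.Ham
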