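import Pool.Agent.Lib.MP_716318_co.H.Spec1

/-!
# MP_716318_co, package H: the number of vertices which cannot be joined to `x`
-/

set_option autoImplicit false

namespace Pool.Agent.Ham

open Finset
open scoped Classical

private theorem exc_one {V : Type} [Fintype V] [DecidableEq V] (F : Finset (Finset V))
    (J : Finset V) (x : V) (f : V × V) (hx : x ∉ J) (h1 : f.1 ∉ J) (h2 : f.2 ∉ J) :
    (univ.filter (fun c => c ∉ J ∧ Cf F (x, c) f)).card ≤ c3 (off F J) f.1 f.2 x := by
  unfold c3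
  apply card_le_card
  intro c hc
  rw [mem_filter] at hc ⊢
  refine ⟨mem_univ _, ?_⟩
  have h3 : ({f.1, f.2, x, c} : Finset V) = {x, c, f.1, f.2} := by
    ext a
    simp only [mem_insert, mem_singleton]
    tauto
  rw [h3]
  unfold off
  rw [mem_filter]
  refine ⟨hc.2.2, ?_⟩
  rw [disjoint_left]
  intro a ha
  simp only [mem_insert, mem_singleton] at ha
  rcases ha with rfl | rfl | rfl | rfl
  · exact hx
  · exact hc.2.1
  · exact h1
  · exact h2

theorem tExc : S_Bad → S_Exc := by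
  intro hBad V _ _ F J Es Lk T x hU hT hGd hx
  have hUo : U4 (off F J) := fun A hA => hU A (mem_filter.1 hA).1
  have hB := hBad V (off F J) x T hUo hT
  set A1 : Finset V := univ.filter (fun y => y ∉ J ∧ Gs F Es x y) with hA1
  set A2 : Finset V := univ.filter (fun c => ∃ z, T < (c3 (off F J) x c z : ℝ)) with hA2
  set A3 : Finset V := Lk.toFinset.biUnion
    (fun f => univ.filter (fun c => c ∉ J ∧ Cf F (x, c) f)) with hA3
  have hsub : univ.filter (fun c => c ∉ J ∧ ¬ Ad F J Es Lk T x c) ⊆ A1 ∪ (A2 ∪ A3) := by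
    intro c hc
    rw [mem_filter] at hc
    obtain ⟨-, hcJ, hAd⟩ := hc
    rw [mem_union, mem_union]
    by_contra hne
    push Not at hne
    obtain ⟨n1, n2, n3⟩ := hne
    apply hAd
    refine ⟨hcJ, ?_, ?_, ?_⟩
    · intro hG
      exact n1 (mem_filter.2 ⟨mem_univ _, hcJ, hG⟩)
    · intro z
      by_contra hz
      push Not at hz
      exact n2 (mem_filter.2 ⟨mem_univ _, z, hz⟩)
    · intro f hf hC
      apply n3
      rw [hA3, mem_biUnion]
      exact ⟨f, List.mem_toFinset.2 hf, mem_filter.2 ⟨mem_univ _, hcJ, hC⟩⟩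
  have h1 : (A1.card : ℝ) = gs F J Es x := rfl
  have h2 : (A2.card : ℝ) ≤ 3 * dg (off F J) {x} / T := by
    rw [le_div_iff₀ hT, mul_comm]
    exact hB
  have h3 : (A3.card : ℝ) ≤ Lk.length * T := by
    have h4 : (A3.card : ℝ) ≤ ∑ f ∈ Lk.toFinset,
        ((univ.filter (fun c => c ∉ J ∧ Cf F (x, c) f)).card : ℝ) := by
      rw [← Nat.cast_sum]
      exact_mod_cast card_biUnion_le
    have h5 : ∑ f ∈ Lk.toFinset,
        ((univ.filter (fun c => c ∉ J ∧ Cf F (x, c) f)).card : ℝ) ≤
        ∑ _f ∈ Lk.toFinset, T := by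
      apply sum_le_sum
      intro f hf
      have hf' : f ∈ Lk := List.mem_toFinset.1 hf
      obtain ⟨g1, g2, -, g4⟩ := hGd.1 f hf'
      have h6 : ((univ.filter (fun c => c ∉ J ∧ Cf F (x, c) f)).card : ℝ) ≤
          (c3 (off F J) f.1 f.2 x : ℝ) := by
        exact_mod_cast exc_one F J x f hx g1 g2
      exact h6.trans (g4 x)
    rw [sum_const, nsmul_eq_mul] at h5
    have h7 : (Lk.toFinset.card : ℝ) ≤ Lk.length := by
      exact_mod_cast List.toFinset_card_le Lk
    calc (A3.card : ℝ) ≤ _ := h4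
      _ ≤ (Lk.toFinset.card : ℝ) * T := h5
      _ ≤ Lk.length * T := mul_le_mul_of_nonneg_right h7 hT.le
  have h8 : ((univ.filter (fun c => c ∉ J ∧ ¬ Ad F J Es Lk T x c)).card : ℝ) ≤
      (A1.card : ℝ) + ((A2.card : ℝ) + (A3.card : ℝ)) := by
    have h9 := (card_le_card hsub).trans (card_union_le A1 (A2 ∪ A3))
    have h10 := card_union_le A2 A3
    have h11 : (univ.filter (fun c => c ∉ J ∧ ¬ Ad F J Es Lk T x c)).card ≤
        A1.card + (A2.card + A3.card) := h9.trans (by omega)
    exact_mod_cast h11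
  linarith

end Pool.Agent.Ham
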