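import Pool.Agent.Lib.MP_716318_co.H.Spec1

/-! # MP_716318_co, package H, Ext: one more vertex (helper79) -/

set_option autoImplicit false

namespace Pool.Agent.Ham

open Finset
open scoped Classical

private theorem ext_cons {V : Type} [Fintype V] [DecidableEq V] {F : Finset (Finset V)}
    {J : Finset V} {Es Lk : List (V × V)} {T : ℝ} {a b : V} (hU : U4 F) (hG : Gd F J Es T Lk)
    (ha : a ∉ J) (hb : b ∉ J) (hg : ¬ Gs F Es a b)
    (hc : ∀ z, (c3 (off F J) a b z : ℝ) ≤ T) (hf : ∀ f ∈ Lk, ¬ Cf F (a, b) f) :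
    Gd F J Es T ((a, b) :: Lk) := by
  have hself : ¬ Cf F (a, b) (a, b) := by
    intro h
    have h1 := hU _ h
    have h2 : ({a, b, a, b} : Finset V) = {a, b} := by
      ext z
      simp only [mem_insert, mem_singleton]
      tauto
    rw [h2] at h1
    have h3 : ({a, b} : Finset V).card ≤ 2 := card_le_two
    omega
  have hsym : ∀ f ∈ Lk, ¬ Cf F f (a, b) := by
    intro f hfL h
    apply hf f hfL
    have h2 : ({f.1, f.2, a, b} : Finset V) = {a, b, f.1, f.2} := by
      ext z
      simp only [mem_insert, mem_singleton]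
      tauto
    have h3 : ({f.1, f.2, a, b} : Finset V) ∈ F := h
    rw [h2] at h3
    exact h3
  obtain ⟨h1, h2⟩ := hG
  refine ⟨?_, ?_⟩
  · intro e he
    rcases List.mem_cons.1 he with rfl | he
    · exact ⟨ha, hb, hg, hc⟩
    · exact h1 e he
  · intro e he f hfL
    rcases List.mem_cons.1 he with rfl | he
    · rcases List.mem_cons.1 hfL with rfl | hfL
      · exact hself
      · exact hf f hfL
    · rcases List.mem_cons.1 hfL with rfl | hfL
      · exact hsym e he
      · exact h2 e he f hfL

theorem tExt : S_Exc → S_Ext := by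
  intro hExc V _ _ F J U Es Lk T D g x hU4 hT hG hJU hOp hlt
  obtain ⟨hxJ, hdg, hgs⟩ := hOp
  have h1 := hExc V F J Es Lk T x hU4 hT hG hxJ
  set B := univ.filter (fun c => c ∉ J ∧ ¬ Ad F J Es Lk T x c) with hB
  have h2 : (B.card : ℝ) ≤ g + 3 * D / T + Lk.length * T := by
    have h3 : 3 * (dg (off F J) {x} : ℝ) / T ≤ 3 * D / T := by
      apply div_le_div_of_nonneg_right _ hT.le
      linarith
    linarith
  have h4 : (U ∪ B).card < Fintype.card V := by
    have h5 : ((U ∪ B).card : ℝ) ≤ U.card + B.card := by exact_mod_cast card_union_le U B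
    have h6 : ((U ∪ B).card : ℝ) < Fintype.card V := by linarith
    exact_mod_cast h6
  obtain ⟨c, hc⟩ : ∃ c, c ∉ U ∪ B := by
    by_contra h
    push Not at h
    have : U ∪ B = univ := eq_univ_of_forall h
    rw [this, card_univ] at h4
    exact lt_irrefl _ h4
  rw [mem_union, not_or] at hc
  obtain ⟨hcU, hcB⟩ := hc
  have hcJ : c ∉ J := fun h => hcU (hJU h)
  have hAd : Ad F J Es Lk T x c := by
    by_contra h
    exact hcB (mem_filter.2 ⟨mem_univ _, hcJ, h⟩)
  obtain ⟨-, a1, a2, a3⟩ := hAd
  refine ⟨c, hcU, ext_cons hU4 hG hxJ hcJ a1 a2 a3, ext_cons hU4 hG hcJ hxJ ?_ ?_ ?_⟩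
  · rintro ⟨e, he, h⟩
    apply a1
    refine ⟨e, he, ?_⟩
    have h7 : ({e.1, e.2, c, x} : Finset V) = {e.1, e.2, x, c} := by
      ext z
      simp only [mem_insert, mem_singleton]
      tauto
    have h8 : ({e.1, e.2, c, x} : Finset V) ∈ F := h
    rw [h7] at h8
    exact h8
  · intro z
    have h7 : c3 (off F J) c x z = c3 (off F J) x c z := by
      unfold c3
      congr 1
      apply filter_congr
      intro t _
      have h9 : ({c, x, z, t} : Finset V) = {x, c, z, t} := by
        ext w
        simp only [mem_insert, mem_singleton]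
        tauto
      rw [h9]
    rw [h7]
    exact a2 z
  · intro f hf h
    apply a3 f hf
    have h7 : ({c, x, f.1, f.2} : Finset V) = {x, c, f.1, f.2} := by
      ext z
      simp only [mem_insert, mem_singleton]
      tauto
    have h8 : ({c, x, f.1, f.2} : Finset V) ∈ F := h
    rw [h7] at h8
    exact h8

end Pool.Agent.Ham
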