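import Pool.Agent.Lib.MP_716318_co.H.Spec2

/-!
# MP_716318_co, package H: all scales (`tGt`)
-/

set_option autoImplicit false

namespace Pool.Agent.Ham

open Finset
open scoped Classical

theorem tGt : S_Os → S_Sum → S_Gt := by
  intro hOs hSum γ δ ε0 hγ hγ1 hδ hδ1 hε0
  obtain ⟨es, hes⟩ : ∃ es : ℝ, es = min ε0 (min (γ * δ / 5000) (1 / 200000)) := ⟨_, rfl⟩
  have hgd : 0 < γ * δ := mul_pos hγ hδ
  have hes0 : 0 < es := by
    rw [hes]
    exact lt_min hε0 (lt_min (by positivity) (by norm_num))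
  have hes1 : es ≤ ε0 := by rw [hes]; exact min_le_left _ _
  have hes2 : es ≤ γ * δ / 5000 := by
    rw [hes]; exact (min_le_right _ _).trans (min_le_left _ _)
  have hes3 : es ≤ 1 / 200000 := by
    rw [hes]; exact (min_le_right _ _).trans (min_le_right _ _)
  have step : ∀ t : {ε : ℝ // 0 < ε ∧ ε ≤ es}, ∃ u : {ε : ℝ // 0 < ε ∧ ε ≤ es}, ∃ N : ℕ,
      u.1 < t.1 ∧ ∀ (V : Type) [Fintype V] [DecidableEq V] (F : Finset (Finset V)), U4 F →
      N ≤ Fintype.card V → 2 * F.card ≤ (Fintype.card V) ^ 2 → ¬ Acc F →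
      (∑ y ∈ univ.filter (fun y => y ∉ He F t.1 ∧ u.1 * (Fintype.card V : ℝ) ^ 2 < dg F {y}),
        (dg F {y} : ℝ)) ≤ γ * δ / 1000 * (Fintype.card V : ℝ) ^ 2 →
      (univ.filter (fun a => Z0 F (He F t.1) ((1 - δ) * Fintype.card V) a)).card <
        γ * (Fintype.card {x // x ∉ He F t.1} : ℝ) ^ Fintype.card {v // v ∈ He F t.1} := by
    intro t
    obtain ⟨ε', h1, h2, N, hN⟩ := hOs γ δ t.1 hγ hγ1 hδ hδ1 t.2.1 (t.2.2.trans hes2)
      (t.2.2.trans hes3)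
    exact ⟨⟨ε', h1, h2.le.trans t.2.2⟩, N, h2, hN⟩
  choose nx N hlt hN using step
  obtain ⟨e, he0, he1⟩ : ∃ e : ℕ → {ε : ℝ // 0 < ε ∧ ε ≤ es}, e 0 = ⟨es, hes0, le_rfl⟩ ∧
      ∀ j, e (j + 1) = nx (e j) :=
    ⟨fun j => nx^[j] ⟨es, hes0, le_rfl⟩, rfl, fun j => Function.iterate_succ_apply' nx j _⟩
  have hanti : StrictAnti (fun j => (e j).1) := by
    apply strictAnti_nat_of_succ_lt
    intro j
    show (e (j + 1)).1 < (e j).1
    rw [he1]
    exact hlt _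
  obtain ⟨k, hk⟩ : ∃ k : ℕ, k = ⌈2000 / (γ * δ)⌉₊ := ⟨_, rfl⟩
  have hk1 : 2000 / (γ * δ) ≤ (k : ℝ) := by rw [hk]; exact Nat.le_ceil _
  have hk2 : 2000 ≤ (k : ℝ) * (γ * δ) := by rwa [div_le_iff₀ hgd] at hk1
  have hk0 : 0 < k := by
    rcases Nat.eq_zero_or_pos k with h | h
    · rw [h] at hk2
      norm_num at hk2
    · exact h
  refine ⟨(e k).1, (e k).2.1, ∑ j ∈ range k, N (e j), ?_⟩
  intro V _ _ F hF hn hc hacc
  by_contra hcon
  push Not at hcon
  have hcj : ∀ j ∈ range k, γ * δ / 1000 * (Fintype.card V : ℝ) ^ 2 <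
      ∑ y ∈ univ.filter (fun y => y ∉ He F (e j).1 ∧
        (e (j + 1)).1 * (Fintype.card V : ℝ) ^ 2 < dg F {y}), (dg F {y} : ℝ) := by
    intro j hj
    by_contra hle
    push Not at hle
    have hnj : N (e j) ≤ Fintype.card V :=
      (Finset.single_le_sum (f := fun j => N (e j)) (fun _ _ => Nat.zero_le _) hj).trans hn
    rw [he1] at hle
    have h1 := hN (e j) V F hF hnj hc hacc hle
    have h2 := hcon (e j).1 (hanti.antitone (mem_range.mp hj).le) ((e j).2.2.trans hes1)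
    exact absurd h1 (not_lt.mpr h2)
  have hdisj : (↑(range k) : Set ℕ).PairwiseDisjoint (fun j =>
      univ.filter (fun y => y ∉ He F (e j).1 ∧
        (e (j + 1)).1 * (Fintype.card V : ℝ) ^ 2 < dg F {y})) := by
    have key : ∀ i j : ℕ, i < j → ∀ y, y ∉ He F (e j).1 →
        ¬ (e (i + 1)).1 * (Fintype.card V : ℝ) ^ 2 < dg F {y} := by
      intro i j hij y hy hlt'
      have h1 : (e j).1 ≤ (e (i + 1)).1 := hanti.antitone (Nat.succ_le_of_lt hij)
      apply hy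
      unfold He
      rw [mem_filter]
      refine ⟨mem_univ _, ?_⟩
      exact (mul_le_mul_of_nonneg_right h1 (sq_nonneg _)).trans hlt'.le
    intro i _ j _ hij
    show Disjoint _ _
    rw [Finset.disjoint_left]
    intro y hy1 hy2
    rw [mem_filter] at hy1 hy2
    rcases lt_or_gt_of_ne hij with h | h
    · exact key i j h y hy2.2.1 hy1.2.2
    · exact key j i h y hy1.2.1 hy2.2.2
  have hsum1 : ∑ j ∈ range k, γ * δ / 1000 * (Fintype.card V : ℝ) ^ 2 <
      ∑ j ∈ range k, ∑ y ∈ univ.filter (fun y => y ∉ He F (e j).1 ∧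
        (e (j + 1)).1 * (Fintype.card V : ℝ) ^ 2 < dg F {y}), (dg F {y} : ℝ) :=
    Finset.sum_lt_sum_of_nonempty ⟨0, mem_range.mpr hk0⟩ hcj
  have hsum2 : ∑ j ∈ range k, ∑ y ∈ univ.filter (fun y => y ∉ He F (e j).1 ∧
        (e (j + 1)).1 * (Fintype.card V : ℝ) ^ 2 < dg F {y}), (dg F {y} : ℝ) ≤
      ∑ y, (dg F {y} : ℝ) := by
    rw [← Finset.sum_biUnion hdisj]
    exact Finset.sum_le_sum_of_subset_of_nonneg (subset_univ _) (fun _ _ _ => Nat.cast_nonneg _)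
  have hsum3 : ∑ y, (dg F {y} : ℝ) = 4 * F.card := by
    have h := (hSum V F hF).1
    have h2 := congrArg (fun z : ℕ => (z : ℝ)) h
    push_cast at h2
    exact h2
  have hc' : (2 : ℝ) * F.card ≤ (Fintype.card V : ℝ) ^ 2 := by exact_mod_cast hc
  rw [Finset.sum_const, card_range, nsmul_eq_mul] at hsum1
  have hfin : 2 * (Fintype.card V : ℝ) ^ 2 ≤
      (k : ℝ) * (γ * δ / 1000 * (Fintype.card V : ℝ) ^ 2) := by
    have h3 := mul_le_mul_of_nonneg_right hk2 (sq_nonneg (Fintype.card V : ℝ))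
    linarith
  linarith

end Pool.Agent.Ham
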