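import Pool.Agent.Lib.MP_716318_co.H.Spec1

/-!
# MP_716318_co, package H: the local lemma for random bijections (`tLll`)
-/

set_option autoImplicit false

namespace Pool.Agent.Ham

open Finset
open scoped Classical

/-- number of bijections which contain no member of `𝓢` -/
private noncomputable def lN {I W : Type} [Fintype I] [DecidableEq I] [Fintype W] [DecidableEq W]
    (𝓢 : Finset (Finset (I × W))) : ℝ :=
  ((univ.filter (fun π : I ≃ W => ∀ M' ∈ 𝓢, ¬ Ct π M')).card : ℝ)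

/-- number of those among them which contain `M` -/
private noncomputable def lA {I W : Type} [Fintype I] [DecidableEq I] [Fintype W] [DecidableEq W]
    (M : Finset (I × W)) (𝓢 : Finset (Finset (I × W))) : ℝ :=
  ((univ.filter (fun π : I ≃ W => Ct π M ∧ ∀ M' ∈ 𝓢, ¬ Ct π M')).card : ℝ)

private theorem wt_nn (r k : ℕ) : 0 ≤ wt r k := by
  unfold wt
  positivity

private theorem card_le_of_pb {I W : Type} [Fintype I] [DecidableEq I]
    (M : Finset (I × W)) (h : PB M) : M.card ≤ Fintype.card I := by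
  have h1 : (M.image Prod.fst).card = M.card := by
    apply Finset.card_image_of_injOn
    intro p hp q hq hpq
    exact Prod.ext hpq ((h p hp q hq).1 hpq)
  rw [← h1]
  exact Finset.card_le_univ _

private theorem lA_le_wt {I W : Type} [Fintype I] [DecidableEq I] [Fintype W] [DecidableEq W]
    (hS : S_Sw) (M : Finset (I × W)) (𝓢 : Finset (Finset (I × W)))
    (hc : Fintype.card I = Fintype.card W) (hM : PB M)
    (hd : ∀ M' ∈ 𝓢, ∀ p ∈ M, ∀ q ∈ M', p.1 ≠ q.1 ∧ p.2 ≠ q.2) :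
    lA M 𝓢 ≤ wt (Fintype.card I) M.card * lN 𝓢 := by
  have h1 := hS I W M 𝓢 hc hM hd
  have h2 : 0 < (Fintype.card I).descFactorial M.card :=
    Nat.descFactorial_pos.2 (card_le_of_pb M hM)
  have h3 : (0 : ℝ) < ((Fintype.card I).descFactorial M.card : ℝ) := by exact_mod_cast h2
  have h4 : ((Fintype.card I).descFactorial M.card : ℝ) * lA M 𝓢 ≤ lN 𝓢 := by
    unfold lA lN
    exact_mod_cast h1
  unfold wt
  rw [div_mul_eq_mul_div, one_mul, le_div_iff₀ h3]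
  linarith [mul_comm ((Fintype.card I).descFactorial M.card : ℝ) (lA M 𝓢)]

private theorem lA_anti {I W : Type} [Fintype I] [DecidableEq I] [Fintype W] [DecidableEq W]
    (M : Finset (I × W)) (𝓢 𝓣 : Finset (Finset (I × W))) (h : 𝓣 ⊆ 𝓢) : lA M 𝓢 ≤ lA M 𝓣 := by
  unfold lA
  have : (univ.filter (fun π : I ≃ W => Ct π M ∧ ∀ M' ∈ 𝓢, ¬ Ct π M')) ⊆
      (univ.filter (fun π : I ≃ W => Ct π M ∧ ∀ M' ∈ 𝓣, ¬ Ct π M')) := by
    intro π hπ
    rw [Finset.mem_filter] at hπ ⊢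
    exact ⟨hπ.1, hπ.2.1, fun M' hM' => hπ.2.2 M' (h hM')⟩
  exact_mod_cast Finset.card_le_card this

private theorem lN_le {I W : Type} [Fintype I] [DecidableEq I] [Fintype W] [DecidableEq W]
    (𝓢 𝓢₁ 𝓢₂ : Finset (Finset (I × W))) (h : ∀ M ∈ 𝓢, M ∈ 𝓢₁ ∨ M ∈ 𝓢₂) :
    lN 𝓢₂ ≤ lN 𝓢 + ∑ M ∈ 𝓢₁, lA M 𝓢₂ := by
  unfold lN lA
  have h1 : (univ.filter (fun π : I ≃ W => ∀ M' ∈ 𝓢₂, ¬ Ct π M')) ⊆
      (univ.filter (fun π : I ≃ W => ∀ M' ∈ 𝓢, ¬ Ct π M')) ∪
      𝓢₁.biUnion (fun M => univ.filter (fun π : I ≃ W => Ct π M ∧ ∀ M' ∈ 𝓢₂, ¬ Ct π M')) := by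
    intro π hπ
    rw [Finset.mem_filter] at hπ
    rw [Finset.mem_union, Finset.mem_biUnion]
    by_cases hc : ∃ M ∈ 𝓢₁, Ct π M
    · obtain ⟨M, hM, hcM⟩ := hc
      right
      exact ⟨M, hM, by rw [Finset.mem_filter]; exact ⟨hπ.1, hcM, hπ.2⟩⟩
    · left
      rw [Finset.mem_filter]
      refine ⟨hπ.1, fun M hM hcM => ?_⟩
      rcases h M hM with h' | h'
      · exact hc ⟨M, h', hcM⟩
      · exact hπ.2 M h' hcM
  have h2 := (Finset.card_le_card h1).trans (Finset.card_union_le _ _)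
  have h3 := h2.trans (Nat.add_le_add_left Finset.card_biUnion_le _)
  exact_mod_cast h3

private theorem sum_wt {I W : Type} [Fintype I] [DecidableEq I] [DecidableEq W]
    (𝓜 𝓢 : Finset (Finset (I × W))) (h : 𝓢 ⊆ 𝓜) (hS : Sml 𝓜 (1 / 32)) (M : Finset (I × W))
    (hM : M.card ≤ 4) :
    ∑ M' ∈ 𝓢.filter (fun M' => ∃ p ∈ M, ∃ q ∈ M', p.1 = q.1 ∨ p.2 = q.2),
      wt (Fintype.card I) M'.card ≤ 1 / 4 := by
  have h1 : ∀ M' ∈ 𝓢.filter (fun M' => ∃ p ∈ M, ∃ q ∈ M', p.1 = q.1 ∨ p.2 = q.2),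
      wt (Fintype.card I) M'.card ≤
        ∑ p ∈ M, ((if ∃ q ∈ M', q.1 = p.1 then wt (Fintype.card I) M'.card else 0) +
          (if ∃ q ∈ M', q.2 = p.2 then wt (Fintype.card I) M'.card else 0)) := by
    intro M' hM'
    rw [Finset.mem_filter] at hM'
    obtain ⟨_, p, hp, q, hq, hpq⟩ := hM'
    have hnn : ∀ p ∈ M, 0 ≤ ((if ∃ q ∈ M', q.1 = p.1 then wt (Fintype.card I) M'.card else 0) +
          (if ∃ q ∈ M', q.2 = p.2 then wt (Fintype.card I) M'.card else 0)) := by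
      intro p _
      apply add_nonneg
      · split_ifs
        · exact wt_nn _ _
        · exact le_refl _
      · split_ifs
        · exact wt_nn _ _
        · exact le_refl _
    refine le_trans ?_ (Finset.single_le_sum hnn hp)
    rcases hpq with h' | h'
    · rw [if_pos ⟨q, hq, h'.symm⟩]
      have : 0 ≤ (if ∃ q ∈ M', q.2 = p.2 then wt (Fintype.card I) M'.card else 0) := by
        split_ifs
        · exact wt_nn _ _
        · exact le_refl _
      linarith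
    · rw [if_pos (⟨q, hq, h'.symm⟩ : ∃ q ∈ M', q.2 = p.2)]
      have : 0 ≤ (if ∃ q ∈ M', q.1 = p.1 then wt (Fintype.card I) M'.card else 0) := by
        split_ifs
        · exact wt_nn _ _
        · exact le_refl _
      linarith
  have h2 : ∀ p ∈ M, ∑ M' ∈ 𝓜,
      ((if ∃ q ∈ M', q.1 = p.1 then wt (Fintype.card I) M'.card else 0) +
          (if ∃ q ∈ M', q.2 = p.2 then wt (Fintype.card I) M'.card else 0)) ≤ 1 / 16 := by
    intro p _
    rw [Finset.sum_add_distrib, ← Finset.sum_filter, ← Finset.sum_filter]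
    have e1 : ∑ M' ∈ 𝓜.filter (fun M' => ∃ q ∈ M', q.1 = p.1), wt (Fintype.card I) M'.card ≤
        1 / 32 := by convert hS.2.1 p.1
    have e2 : ∑ M' ∈ 𝓜.filter (fun M' => ∃ q ∈ M', q.2 = p.2), wt (Fintype.card I) M'.card ≤
        1 / 32 := by convert hS.2.2 p.2
    linarith
  calc ∑ M' ∈ 𝓢.filter (fun M' => ∃ p ∈ M, ∃ q ∈ M', p.1 = q.1 ∨ p.2 = q.2),
      wt (Fintype.card I) M'.card
      ≤ ∑ M' ∈ 𝓢.filter (fun M' => ∃ p ∈ M, ∃ q ∈ M', p.1 = q.1 ∨ p.2 = q.2),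
        ∑ p ∈ M, ((if ∃ q ∈ M', q.1 = p.1 then wt (Fintype.card I) M'.card else 0) +
          (if ∃ q ∈ M', q.2 = p.2 then wt (Fintype.card I) M'.card else 0)) :=
        Finset.sum_le_sum h1
    _ ≤ ∑ M' ∈ 𝓜,
        ∑ p ∈ M, ((if ∃ q ∈ M', q.1 = p.1 then wt (Fintype.card I) M'.card else 0) +
          (if ∃ q ∈ M', q.2 = p.2 then wt (Fintype.card I) M'.card else 0)) := by
        apply Finset.sum_le_sum_of_subset_of_nonneg ((Finset.filter_subset _ _).trans h)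
        intro M' _ _
        apply Finset.sum_nonneg
        intro p _
        apply add_nonneg
        · split_ifs
          · exact wt_nn _ _
          · exact le_refl _
        · split_ifs
          · exact wt_nn _ _
          · exact le_refl _
    _ = ∑ p ∈ M, ∑ M' ∈ 𝓜,
        ((if ∃ q ∈ M', q.1 = p.1 then wt (Fintype.card I) M'.card else 0) +
          (if ∃ q ∈ M', q.2 = p.2 then wt (Fintype.card I) M'.card else 0)) :=
        Finset.sum_comm
    _ ≤ ∑ _p ∈ M, (1 / 16 : ℝ) := Finset.sum_le_sum h2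
    _ = M.card * (1 / 16 : ℝ) := by rw [Finset.sum_const, nsmul_eq_mul]
    _ ≤ 1 / 4 := by
        have : (M.card : ℝ) ≤ 4 := by exact_mod_cast hM
        linarith

private theorem wt_le {I W : Type} [Fintype I] [DecidableEq I] [DecidableEq W]
    (𝓜 : Finset (Finset (I × W))) (hS : Sml 𝓜 (1 / 32)) (M : Finset (I × W)) (hM : M ∈ 𝓜) :
    wt (Fintype.card I) M.card ≤ 1 / 32 := by
  obtain ⟨p, hp⟩ := (hS.1 M hM).1
  have e1 : ∑ M' ∈ 𝓜.filter (fun M' => ∃ q ∈ M', q.1 = p.1), wt (Fintype.card I) M'.card ≤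
      1 / 32 := by convert hS.2.1 p.1
  refine le_trans ?_ e1
  exact Finset.single_le_sum (f := fun M : Finset (I × W) => wt (Fintype.card I) M.card)
    (fun _ _ => wt_nn _ _) (Finset.mem_filter.2 ⟨hM, p, hp, rfl⟩)

private theorem main_claim {I W : Type} [Fintype I] [DecidableEq I] [Fintype W] [DecidableEq W]
    (hSw : S_Sw) (𝓜 : Finset (Finset (I × W))) (hc : Fintype.card I = Fintype.card W)
    (hS : Sml 𝓜 (1 / 32)) (𝓢 : Finset (Finset (I × W))) :
    𝓢 ⊆ 𝓜 → 0 < lN 𝓢 ∧ ∀ M ∈ 𝓜, lA M 𝓢 ≤ 2 * wt (Fintype.card I) M.card * lN 𝓢 := by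
  induction 𝓢 using Finset.strongInduction with
  | H 𝓢 ih =>
    intro hsub
    have hpos : 0 < lN 𝓢 := by
      rcases 𝓢.eq_empty_or_nonempty with h0 | ⟨M, hM⟩
      · subst h0
        obtain ⟨e⟩ := Fintype.card_eq.1 hc
        unfold lN
        have : 0 < (univ.filter (fun π : I ≃ W => ∀ M' ∈ (∅ : Finset (Finset (I × W))),
            ¬ Ct π M')).card := by
          apply Finset.card_pos.2
          exact ⟨e, by
            rw [Finset.mem_filter]
            exact ⟨Finset.mem_univ _, fun M' hM' => absurd hM' (Finset.notMem_empty _)⟩⟩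
        exact_mod_cast this
      · have hss : 𝓢.erase M ⊂ 𝓢 := Finset.erase_ssubset hM
        obtain ⟨i1, i2⟩ := ih _ hss (hss.subset.trans hsub)
        have h1 := lN_le 𝓢 {M} (𝓢.erase M) (by
          intro M' hM'
          by_cases he : M' = M
          · left
            rw [he]
            exact Finset.mem_singleton_self _
          · right
            exact Finset.mem_erase.2 ⟨he, hM'⟩)
        rw [Finset.sum_singleton] at h1
        have h2 := i2 M (hsub hM)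
        have h3 := wt_le 𝓜 hS M (hsub hM)
        have h4 : wt (Fintype.card I) M.card * lN (𝓢.erase M) ≤ 1 / 32 * lN (𝓢.erase M) :=
          mul_le_mul_of_nonneg_right h3 i1.le
        nlinarith
    refine ⟨hpos, fun M hM => ?_⟩
    have hM3 := hS.1 M hM
    have hd : ∀ M' ∈ 𝓢.filter (fun M' => ¬ ∃ p ∈ M, ∃ q ∈ M', p.1 = q.1 ∨ p.2 = q.2),
        ∀ p ∈ M, ∀ q ∈ M', p.1 ≠ q.1 ∧ p.2 ≠ q.2 := by
      intro M' hM' p hp q hq
      rw [Finset.mem_filter] at hM'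
      exact ⟨fun h => hM'.2 ⟨p, hp, q, hq, Or.inl h⟩, fun h => hM'.2 ⟨p, hp, q, hq, Or.inr h⟩⟩
    have h1 := lA_le_wt hSw M _ hc hM3.2.2 hd
    have h2 := lA_anti M 𝓢 _
      (Finset.filter_subset (fun M' => ¬ ∃ p ∈ M, ∃ q ∈ M', p.1 = q.1 ∨ p.2 = q.2) 𝓢)
    have hw := wt_nn (Fintype.card I) M.card
    by_cases he : 𝓢.filter (fun M' => ¬ ∃ p ∈ M, ∃ q ∈ M', p.1 = q.1 ∨ p.2 = q.2) = 𝓢
    · rw [he] at h1
      have : 0 ≤ wt (Fintype.card I) M.card * lN 𝓢 := mul_nonneg hw hpos.le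
      linarith
    · have hss : 𝓢.filter (fun M' => ¬ ∃ p ∈ M, ∃ q ∈ M', p.1 = q.1 ∨ p.2 = q.2) ⊂ 𝓢 :=
        (Finset.filter_subset _ _).ssubset_of_ne he
      obtain ⟨i1, i2⟩ := ih _ hss (hss.subset.trans hsub)
      have h3 := lN_le 𝓢 (𝓢.filter (fun M' => ∃ p ∈ M, ∃ q ∈ M', p.1 = q.1 ∨ p.2 = q.2))
        (𝓢.filter (fun M' => ¬ ∃ p ∈ M, ∃ q ∈ M', p.1 = q.1 ∨ p.2 = q.2)) (by
          intro M' hM'
          by_cases hq : ∃ p ∈ M, ∃ q ∈ M', p.1 = q.1 ∨ p.2 = q.2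
          · left
            exact Finset.mem_filter.2 ⟨hM', hq⟩
          · right
            exact Finset.mem_filter.2 ⟨hM', hq⟩)
      set 𝓣 := 𝓢.filter (fun M' => ¬ ∃ p ∈ M, ∃ q ∈ M', p.1 = q.1 ∨ p.2 = q.2) with h𝓣
      have h4 : ∑ M' ∈ 𝓢.filter (fun M' => ∃ p ∈ M, ∃ q ∈ M', p.1 = q.1 ∨ p.2 = q.2),
          lA M' 𝓣 ≤ (2 * lN 𝓣) *
          ∑ M' ∈ 𝓢.filter (fun M' => ∃ p ∈ M, ∃ q ∈ M', p.1 = q.1 ∨ p.2 = q.2),
          wt (Fintype.card I) M'.card := by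
        rw [Finset.mul_sum]
        apply Finset.sum_le_sum
        intro M' hM'
        have := i2 M' (hsub (Finset.mem_filter.1 hM').1)
        linarith
      have h5 := sum_wt 𝓜 𝓢 hsub hS M hM3.2.1
      have h6 : (2 * lN 𝓣) *
          ∑ M' ∈ 𝓢.filter (fun M' => ∃ p ∈ M, ∃ q ∈ M', p.1 = q.1 ∨ p.2 = q.2),
          wt (Fintype.card I) M'.card ≤ (2 * lN 𝓣) * (1 / 4) :=
        mul_le_mul_of_nonneg_left h5 (by linarith)
      have h7 : lN 𝓣 ≤ 2 * lN 𝓢 := by linarith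
      have h8 : wt (Fintype.card I) M.card * lN 𝓣 ≤ wt (Fintype.card I) M.card * (2 * lN 𝓢) :=
        mul_le_mul_of_nonneg_left h7 hw
      linarith

/-- The local lemma for random bijections. -/
theorem tLll : S_Sw → S_Lll := by
  intro hSw I W _ _ _ _ 𝓜 hc hS
  have h := (main_claim hSw 𝓜 hc hS 𝓜 (Finset.Subset.refl _)).1
  unfold lN at h
  have h' : 0 < (univ.filter (fun π : I ≃ W => ∀ M' ∈ 𝓜, ¬ Ct π M')).card := by exact_mod_cast h
  obtain ⟨π, hπ⟩ := Finset.card_pos.1 h'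
  exact ⟨π, (Finset.mem_filter.1 hπ).2⟩

end Pool.Agent.Ham
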