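import Pool.Agent.Lib.MP_716318_co.H.Spec2

set_option autoImplicit false

namespace Pool.Agent.Ham

open Finset
open scoped Classical

/-- Markov's inequality for counting. -/
private theorem mk_mk {α : Type} [Fintype α] (P : α → Prop) (dP : DecidablePred P) (g : α → ℝ)
    (t : ℝ) (h0 : ∀ a, 0 ≤ g a) (h1 : ∀ a, P a → t ≤ g a) :
    t * ((@filter α P dP univ).card : ℝ) ≤ ∑ a, g a := by
  calc t * ((@filter α P dP univ).card : ℝ) = ∑ _a ∈ @filter α P dP univ, t := by
        rw [sum_const, nsmul_eq_mul, mul_comm]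
    _ ≤ ∑ a ∈ @filter α P dP univ, g a := sum_le_sum fun a ha => h1 a (mem_filter.1 ha).2
    _ ≤ ∑ a, g a := sum_le_sum_of_subset_of_nonneg (filter_subset _ _) fun a _ _ => h0 a

theorem tMk : S_Pr → S_Mk := by
  intro hPr H Λ _ _ _ _ w hw
  obtain ⟨h1, h2, -⟩ := hPr H Λ
  have hl : (0 : ℝ) ≤ Fintype.card Λ := Nat.cast_nonneg _
  refine ⟨?_, ?_⟩
  · intro t ht
    have h3 : t * ((univ.filter (fun a : H → Λ => t ≤ ∑ v, w v (a v))).card : ℝ) ≤
        ∑ a : H → Λ, ∑ v, w v (a v) :=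
      mk_mk _ _ _ t (fun a => sum_nonneg fun v _ => hw v (a v)) fun a ha => ha
    have h4 : (Fintype.card Λ : ℝ) * ∑ a : H → Λ, ∑ v, w v (a v) =
        (Fintype.card Λ : ℝ) ^ Fintype.card H * ∑ v, ∑ x, w v x := by
      rw [sum_comm, mul_sum, mul_sum]
      exact sum_congr rfl fun v _ => h1 v (w v)
    rw [← h4]
    calc t * Fintype.card Λ * ((univ.filter (fun a : H → Λ => t ≤ ∑ v, w v (a v))).card : ℝ)
        = Fintype.card Λ * (t * ((univ.filter (fun a : H → Λ => t ≤ ∑ v, w v (a v))).card : ℝ)) := by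
          ring
      _ ≤ _ := mul_le_mul_of_nonneg_left h3 hl
  · intro T₁ T₂ hT1 hT
    let g : (H → Λ) → ℝ := fun a => ∑ v, ∑ u, if v = u then 0 else w v (a v) * w u (a u)
    have hg0 : ∀ a, 0 ≤ g a := by
      intro a
      refine sum_nonneg fun v _ => sum_nonneg fun u _ => ?_
      split_ifs
      · exact le_rfl
      · exact mul_nonneg (hw _ _) (hw _ _)
    have hg1 : ∀ a, g a = (∑ v, w v (a v)) ^ 2 - ∑ v, w v (a v) ^ 2 := by
      intro a
      have h5 : ∀ v u : H, (if v = u then (0 : ℝ) else w v (a v) * w u (a u)) =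
          w v (a v) * w u (a u) - if v = u then w v (a v) ^ 2 else 0 := by
        intro v u
        split_ifs with h
        · subst h
          ring
        · ring
      change ∑ v, ∑ u, (if v = u then (0 : ℝ) else w v (a v) * w u (a u)) = _
      simp only [h5, sum_sub_distrib, sum_ite_eq, mem_univ, if_true]
      rw [sq, sum_mul_sum]
    have hg2 : ∀ a, (T₂ ≤ ∑ v, w v (a v) ∧ ∀ v, w v (a v) ≤ T₁) → T₂ * (T₂ - T₁) ≤ g a := by
      rintro a ⟨h5, h6⟩
      have h7 : ∑ v, w v (a v) ^ 2 ≤ T₁ * ∑ v, w v (a v) := by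
        rw [mul_sum]
        refine sum_le_sum fun v _ => ?_
        rw [sq]
        exact mul_le_mul_of_nonneg_right (h6 v) (hw _ _)
      rw [hg1]
      nlinarith
    have h8 := mk_mk (fun a : H → Λ => T₂ ≤ ∑ v, w v (a v) ∧ ∀ v, w v (a v) ≤ T₁)
      (fun a => inferInstance) g (T₂ * (T₂ - T₁)) hg0 hg2
    have h9 : (Fintype.card Λ : ℝ) ^ 2 * ∑ a, g a ≤
        (Fintype.card Λ : ℝ) ^ Fintype.card H * (∑ v, ∑ x, w v x) ^ 2 := by
      have e1 : ∑ a, g a = ∑ v, ∑ u, ∑ a : H → Λ, if v = u then 0 else w v (a v) * w u (a u) := by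
        change ∑ a : H → Λ, ∑ v, ∑ u, (if v = u then (0 : ℝ) else w v (a v) * w u (a u)) = _
        rw [sum_comm]
        refine sum_congr rfl fun v _ => ?_
        rw [sum_comm]
      rw [e1, sq (∑ v, ∑ x, w v x), sum_mul_sum, mul_sum, mul_sum]
      refine sum_le_sum fun v _ => ?_
      rw [mul_sum, mul_sum]
      refine sum_le_sum fun u _ => ?_
      by_cases h : v = u
      · simp only [if_pos h, sum_const_zero, mul_zero]
        exact mul_nonneg (pow_nonneg hl _)
          (mul_nonneg (sum_nonneg fun x _ => hw v x) (sum_nonneg fun x _ => hw u x))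
      · simp only [if_neg h]
        rw [h2 v u (fun x y => w v x * w u y) h, sum_mul_sum]
    calc T₂ * (T₂ - T₁) * (Fintype.card Λ : ℝ) ^ 2 * ((univ.filter (fun a : H → Λ =>
          T₂ ≤ ∑ v, w v (a v) ∧ ∀ v, w v (a v) ≤ T₁)).card : ℝ)
        = (Fintype.card Λ : ℝ) ^ 2 * (T₂ * (T₂ - T₁) * ((univ.filter (fun a : H → Λ =>
          T₂ ≤ ∑ v, w v (a v) ∧ ∀ v, w v (a v) ≤ T₁)).card : ℝ)) := by ring
      _ ≤ (Fintype.card Λ : ℝ) ^ 2 * ∑ a, g a := mul_le_mul_of_nonneg_left h8 (by positivity)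
      _ ≤ _ := h9

end Pool.Agent.Ham
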