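import Pool.Agent.Lib.MP_716318_co.H.Spec2

/-!
# MP_716318_co, package H: most choices with `Z0` are good (`tOsA`)
-/

set_option autoImplicit false

namespace Pool.Agent.Ham

open Finset
open scoped Classical

private theorem card_biU {α β : Type} [DecidableEq β] (s : Finset α) (f : α → Finset β) :
    ((s.biUnion f).card : ℝ) ≤ ∑ i ∈ s, ((f i).card : ℝ) := by
  exact_mod_cast Finset.card_biUnion_le

private theorem card_lam {V : Type} [Fintype V] [DecidableEq V] (J : Finset V) :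
    (Fintype.card {x // x ∉ J} : ℝ) = (Fintype.card V : ℝ) - J.card := by
  have h1 : Fintype.card {x // x ∉ J} = Fintype.card V - Fintype.card {x // x ∈ J} :=
    Fintype.card_subtype_compl (fun x => x ∈ J)
  have h2 : Fintype.card {x // x ∈ J} = J.card := Fintype.card_coe J
  have h3 : J.card ≤ Fintype.card V := Finset.card_le_univ J
  rw [h1, h2, Nat.cast_sub h3]

/-- the sum over the second coordinate -/
private noncomputable def sy {V : Type} [Fintype V] [DecidableEq V] (F : Finset (Finset V))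
    (J : Finset V) (y : V) : ℝ := ∑ v : {v // v ∈ J}, ∑ x : {x // x ∉ J}, (ch F J v.1 x.1 y : ℝ)

private theorem sy_nn {V : Type} [Fintype V] [DecidableEq V] (F : Finset (Finset V))
    (J : Finset V) (y : V) : 0 ≤ sy F J y :=
  Finset.sum_nonneg (fun _ _ => Finset.sum_nonneg (fun _ _ => Nat.cast_nonneg _))

private theorem sy_le (hSum : S_Sum) {V : Type} [Fintype V] [DecidableEq V]
    (F : Finset (Finset V)) (hF : U4 F) (J : Finset V) (y : V) (hy : y ∉ J) :
    sy F J y ≤ 2 * (dg F {y} : ℝ) := by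
  have := (hSum V F hF).2.1 J y hy
  unfold sy
  exact_mod_cast this

private theorem sum_dg (hSum : S_Sum) {V : Type} [Fintype V] [DecidableEq V]
    (F : Finset (Finset V)) (hF : U4 F) : ∑ y, (dg F {y} : ℝ) = 4 * (F.card : ℝ) := by
  have := (hSum V F hF).1
  exact_mod_cast this

private theorem Sy_cast {V : Type} [Fintype V] [DecidableEq V] (F : Finset (Finset V))
    (J : Finset V) (a : {v // v ∈ J} → {x // x ∉ J}) (y : V) :
    (Sy F J a y : ℝ) = ∑ v : {v // v ∈ J}, (ch F J v.1 (a v).1 y : ℝ) := by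
  unfold Sy
  push_cast
  rfl

/-- first moment for one `y` -/
private theorem mk1 (hMk : S_Mk) {V : Type} [Fintype V] [DecidableEq V] (F : Finset (Finset V))
    (J : Finset V) (y : V) (t : ℝ) (ht : 0 < t) :
    t * (Fintype.card {x // x ∉ J} : ℝ) *
      (univ.filter (fun a : {v // v ∈ J} → {x // x ∉ J} => t ≤ (Sy F J a y : ℝ))).card ≤
      (Fintype.card {x // x ∉ J} : ℝ) ^ Fintype.card {v // v ∈ J} * sy F J y := by
  have h := (hMk {v // v ∈ J} {x // x ∉ J} (fun v x => (ch F J v.1 x.1 y : ℝ))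
    (fun _ _ => Nat.cast_nonneg _)).1 t ht
  have he : (univ.filter (fun a : {v // v ∈ J} → {x // x ∉ J} => t ≤ (Sy F J a y : ℝ))) =
      (univ.filter (fun a : {v // v ∈ J} → {x // x ∉ J} =>
        t ≤ ∑ v, (ch F J v.1 (a v).1 y : ℝ))) := by
    apply Finset.filter_congr
    intro a _
    rw [Sy_cast]
  rw [he]
  exact h

/-- second moment for one `y` -/
private theorem mk2 (hMk : S_Mk) {V : Type} [Fintype V] [DecidableEq V] (F : Finset (Finset V))
    (J : Finset V) (y : V) (T₁ T₂ : ℝ) (h0 : 0 ≤ T₁) (h12 : T₁ < T₂) :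
    T₂ * (T₂ - T₁) * (Fintype.card {x // x ∉ J} : ℝ) ^ 2 *
      (univ.filter (fun a : {v // v ∈ J} → {x // x ∉ J} => T₂ ≤ (Sy F J a y : ℝ) ∧
        ∀ v, (ch F J v.1 (a v).1 y : ℝ) ≤ T₁)).card ≤
      (Fintype.card {x // x ∉ J} : ℝ) ^ Fintype.card {v // v ∈ J} * sy F J y ^ 2 := by
  have h := (hMk {v // v ∈ J} {x // x ∉ J} (fun v x => (ch F J v.1 x.1 y : ℝ))
    (fun _ _ => Nat.cast_nonneg _)).2 T₁ T₂ h0 h12
  have he : (univ.filter (fun a : {v // v ∈ J} → {x // x ∉ J} => T₂ ≤ (Sy F J a y : ℝ) ∧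
        ∀ v, (ch F J v.1 (a v).1 y : ℝ) ≤ T₁)) =
      (univ.filter (fun a : {v // v ∈ J} → {x // x ∉ J} =>
        T₂ ≤ ∑ v, (ch F J v.1 (a v).1 y : ℝ) ∧ ∀ v, (ch F J v.1 (a v).1 y : ℝ) ≤ T₁)) := by
    apply Finset.filter_congr
    intro a _
    rw [Sy_cast]
  rw [he]
  exact h

/-- the bad sets -/
private noncomputable def b2 {V : Type} [Fintype V] [DecidableEq V] (F : Finset (Finset V))
    (J : Finset V) (T₁ T₂ : ℝ) : Finset ({v // v ∈ J} → {x // x ∉ J}) :=
  (univ.filter (fun y => y ∉ J)).biUnion (fun y =>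
    univ.filter (fun a : {v // v ∈ J} → {x // x ∉ J} => T₂ ≤ (Sy F J a y : ℝ) ∧
        ∀ v, (ch F J v.1 (a v).1 y : ℝ) ≤ T₁))

private noncomputable def b3 {V : Type} [Fintype V] [DecidableEq V] (F : Finset (Finset V))
    (J : Finset V) (r t : ℝ) : Finset ({v // v ∈ J} → {x // x ∉ J}) :=
  (univ.filter (fun y => y ∉ J ∧ r < dg F {y})).biUnion (fun y =>
    univ.filter (fun a : {v // v ∈ J} → {x // x ∉ J} => t ≤ (Sy F J a y : ℝ)))

private noncomputable def b4 {V : Type} [Fintype V] [DecidableEq V] (F : Finset (Finset V))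
    (J : Finset V) (t : ℝ) : Finset ({v // v ∈ J} → {x // x ∉ J}) :=
    univ.filter (fun a : {v // v ∈ J} → {x // x ∉ J} =>
      t ≤ ∑ y ∈ univ.filter (fun y => y ∉ J), (Sy F J a y : ℝ))

private noncomputable def b5 {V : Type} [Fintype V] [DecidableEq V] (F : Finset (Finset V))
    (J : Finset V) (r : ℝ) : Finset ({v // v ∈ J} → {x // x ∉ J}) :=
    univ.filter (fun a : {v // v ∈ J} → {x // x ∉ J} => ∃ v, r < (dg F {(a v).1} : ℝ))

private theorem b2_le (hMk : S_Mk) {V : Type} [Fintype V] [DecidableEq V] (F : Finset (Finset V))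
    (J : Finset V) (T₁ T₂ M S : ℝ) (h0 : 0 ≤ T₁) (h12 : T₁ < T₂)
    (hM : ∀ y, y ∉ J → sy F J y ≤ M)
    (hS : ∑ y ∈ univ.filter (fun y => y ∉ J), sy F J y ≤ S) (hM0 : 0 ≤ M) :
    T₂ * (T₂ - T₁) * (Fintype.card {x // x ∉ J} : ℝ) ^ 2 * (b2 F J T₁ T₂).card ≤
      (Fintype.card {x // x ∉ J} : ℝ) ^ Fintype.card {v // v ∈ J} * (M * S) := by
  have h1 := card_biU (univ.filter (fun y => y ∉ J)) (fun y =>
    univ.filter (fun a : {v // v ∈ J} → {x // x ∉ J} => T₂ ≤ (Sy F J a y : ℝ) ∧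
        ∀ v, (ch F J v.1 (a v).1 y : ℝ) ≤ T₁))
  have hc : 0 ≤ T₂ * (T₂ - T₁) * (Fintype.card {x // x ∉ J} : ℝ) ^ 2 :=
    mul_nonneg (mul_nonneg (h0.trans h12.le) (by linarith)) (by positivity)
  have hL : 0 ≤ (Fintype.card {x // x ∉ J} : ℝ) ^ Fintype.card {v // v ∈ J} := by positivity
  calc T₂ * (T₂ - T₁) * (Fintype.card {x // x ∉ J} : ℝ) ^ 2 * (b2 F J T₁ T₂).card
      ≤ T₂ * (T₂ - T₁) * (Fintype.card {x // x ∉ J} : ℝ) ^ 2 *
        ∑ y ∈ univ.filter (fun y => y ∉ J), ((univ.filter (fun a : {v // v ∈ J} → {x // x ∉ J} =>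
          T₂ ≤ (Sy F J a y : ℝ) ∧ ∀ v, (ch F J v.1 (a v).1 y : ℝ) ≤ T₁)).card : ℝ) := by
        apply mul_le_mul_of_nonneg_left _ hc
        unfold b2
        exact h1
    _ = ∑ y ∈ univ.filter (fun y => y ∉ J), T₂ * (T₂ - T₁) *
          (Fintype.card {x // x ∉ J} : ℝ) ^ 2 *
          ((univ.filter (fun a : {v // v ∈ J} → {x // x ∉ J} =>
          T₂ ≤ (Sy F J a y : ℝ) ∧ ∀ v, (ch F J v.1 (a v).1 y : ℝ) ≤ T₁)).card : ℝ) := by
        rw [Finset.mul_sum]
    _ ≤ ∑ y ∈ univ.filter (fun y => y ∉ J),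
          (Fintype.card {x // x ∉ J} : ℝ) ^ Fintype.card {v // v ∈ J} * sy F J y ^ 2 :=
        Finset.sum_le_sum (fun y _ => mk2 hMk F J y T₁ T₂ h0 h12)
    _ ≤ ∑ y ∈ univ.filter (fun y => y ∉ J),
          (Fintype.card {x // x ∉ J} : ℝ) ^ Fintype.card {v // v ∈ J} * (M * sy F J y) := by
        apply Finset.sum_le_sum
        intro y hy
        rw [Finset.mem_filter] at hy
        apply mul_le_mul_of_nonneg_left _ hL
        rw [sq]
        exact mul_le_mul_of_nonneg_right (hM y hy.2) (sy_nn F J y)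
    _ = (Fintype.card {x // x ∉ J} : ℝ) ^ Fintype.card {v // v ∈ J} *
          (M * ∑ y ∈ univ.filter (fun y => y ∉ J), sy F J y) := by
        rw [Finset.mul_sum, Finset.mul_sum]
    _ ≤ _ := mul_le_mul_of_nonneg_left (mul_le_mul_of_nonneg_left hS hM0) hL

private theorem b3_le (hMk : S_Mk) {V : Type} [Fintype V] [DecidableEq V] (F : Finset (Finset V))
    (J : Finset V) (r t S : ℝ) (ht : 0 < t)
    (hS : ∑ y ∈ univ.filter (fun y => y ∉ J ∧ r < dg F {y}), sy F J y ≤ S) :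
    t * (Fintype.card {x // x ∉ J} : ℝ) * (b3 F J r t).card ≤
      (Fintype.card {x // x ∉ J} : ℝ) ^ Fintype.card {v // v ∈ J} * S := by
  have h1 := card_biU (univ.filter (fun y => y ∉ J ∧ r < dg F {y})) (fun y =>
    univ.filter (fun a : {v // v ∈ J} → {x // x ∉ J} => t ≤ (Sy F J a y : ℝ)))
  have hc : 0 ≤ t * (Fintype.card {x // x ∉ J} : ℝ) := mul_nonneg ht.le (by positivity)
  have hL : 0 ≤ (Fintype.card {x // x ∉ J} : ℝ) ^ Fintype.card {v // v ∈ J} := by positivity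
  calc t * (Fintype.card {x // x ∉ J} : ℝ) * (b3 F J r t).card
      ≤ t * (Fintype.card {x // x ∉ J} : ℝ) * ∑ y ∈ univ.filter (fun y => y ∉ J ∧ r < dg F {y}),
        ((univ.filter (fun a : {v // v ∈ J} → {x // x ∉ J} =>
          t ≤ (Sy F J a y : ℝ))).card : ℝ) := by
        apply mul_le_mul_of_nonneg_left _ hc
        unfold b3
        exact h1
    _ = ∑ y ∈ univ.filter (fun y => y ∉ J ∧ r < dg F {y}), t * (Fintype.card {x // x ∉ J} : ℝ) *
        ((univ.filter (fun a : {v // v ∈ J} → {x // x ∉ J} =>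
          t ≤ (Sy F J a y : ℝ))).card : ℝ) := by rw [Finset.mul_sum]
    _ ≤ ∑ y ∈ univ.filter (fun y => y ∉ J ∧ r < dg F {y}),
          (Fintype.card {x // x ∉ J} : ℝ) ^ Fintype.card {v // v ∈ J} * sy F J y :=
        Finset.sum_le_sum (fun y _ => mk1 hMk F J y t ht)
    _ = (Fintype.card {x // x ∉ J} : ℝ) ^ Fintype.card {v // v ∈ J} *
          ∑ y ∈ univ.filter (fun y => y ∉ J ∧ r < dg F {y}), sy F J y := by rw [Finset.mul_sum]
    _ ≤ _ := mul_le_mul_of_nonneg_left hS hL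

private theorem b4_le (hMk : S_Mk) {V : Type} [Fintype V] [DecidableEq V] (F : Finset (Finset V))
    (J : Finset V) (t S : ℝ) (ht : 0 < t)
    (hS : ∑ y ∈ univ.filter (fun y => y ∉ J), sy F J y ≤ S) :
    t * (Fintype.card {x // x ∉ J} : ℝ) * (b4 F J t).card ≤
      (Fintype.card {x // x ∉ J} : ℝ) ^ Fintype.card {v // v ∈ J} * S := by
  have hL : 0 ≤ (Fintype.card {x // x ∉ J} : ℝ) ^ Fintype.card {v // v ∈ J} := by positivity
  have h := (hMk {v // v ∈ J} {x // x ∉ J}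
    (fun v x => ∑ y ∈ univ.filter (fun y => y ∉ J), (ch F J v.1 x.1 y : ℝ))
    (fun _ _ => Finset.sum_nonneg (fun _ _ => Nat.cast_nonneg _))).1 t ht
  have he : b4 F J t = univ.filter (fun a : {v // v ∈ J} → {x // x ∉ J} =>
      t ≤ ∑ v, ∑ y ∈ univ.filter (fun y => y ∉ J), (ch F J v.1 (a v).1 y : ℝ)) := by
    unfold b4
    apply Finset.filter_congr
    intro a _
    rw [Finset.sum_comm]
    simp only [Sy_cast]
  have hs : ∑ v : {v // v ∈ J}, ∑ x : {x // x ∉ J},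
      ∑ y ∈ univ.filter (fun y => y ∉ J), (ch F J v.1 x.1 y : ℝ) =
      ∑ y ∈ univ.filter (fun y => y ∉ J), sy F J y := by
    unfold sy
    rw [Finset.sum_comm]
    rw [Finset.sum_congr rfl (fun x _ => Finset.sum_comm (s := (univ : Finset {v // v ∈ J}))
      (t := univ.filter (fun y => y ∉ J)) (f := fun v y => (ch F J v.1 x.1 y : ℝ)))]
    rw [Finset.sum_comm]
    apply Finset.sum_congr rfl
    intro y _
    rw [Finset.sum_comm]
  rw [he]
  refine h.trans ?_
  apply mul_le_mul_of_nonneg_left _ hL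
  rw [hs]
  exact hS

private theorem b5_le (hMk : S_Mk) {V : Type} [Fintype V] [DecidableEq V] (F : Finset (Finset V))
    (J : Finset V) (r : ℝ) :
    (Fintype.card {x // x ∉ J} : ℝ) * (b5 F J r).card ≤
      (Fintype.card {x // x ∉ J} : ℝ) ^ Fintype.card {v // v ∈ J} *
        (J.card * (univ.filter (fun x => r ≤ (dg F {x} : ℝ))).card) := by
  have hL : 0 ≤ (Fintype.card {x // x ∉ J} : ℝ) ^ Fintype.card {v // v ∈ J} := by positivity
  have h := (hMk {v // v ∈ J} {x // x ∉ J}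
    (fun _ x => if r < (dg F {x.1} : ℝ) then 1 else 0)
    (fun _ _ => by split_ifs <;> norm_num)).1 1 one_pos
  rw [one_mul] at h
  have hsub : b5 F J r ⊆ univ.filter (fun a : {v // v ∈ J} → {x // x ∉ J} =>
      (1 : ℝ) ≤ ∑ v, if r < (dg F {(a v).1} : ℝ) then 1 else 0) := by
    intro a ha
    unfold b5 at ha
    rw [Finset.mem_filter] at ha ⊢
    refine ⟨ha.1, ?_⟩
    obtain ⟨v, hv⟩ := ha.2
    calc (1 : ℝ) = if r < (dg F {(a v).1} : ℝ) then 1 else 0 := by rw [if_pos hv]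
      _ ≤ ∑ v, if r < (dg F {(a v).1} : ℝ) then 1 else 0 :=
        Finset.single_le_sum (f := fun v => if r < (dg F {(a v).1} : ℝ) then (1 : ℝ) else 0)
          (fun _ _ => by split_ifs <;> norm_num) (Finset.mem_univ v)
  have hcard : ((b5 F J r).card : ℝ) ≤ ((univ.filter (fun a : {v // v ∈ J} → {x // x ∉ J} =>
      (1 : ℝ) ≤ ∑ v, if r < (dg F {(a v).1} : ℝ) then 1 else 0)).card : ℝ) := by
    exact_mod_cast Finset.card_le_card hsub
  refine (mul_le_mul_of_nonneg_left hcard (by positivity)).trans (h.trans ?_)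
  apply mul_le_mul_of_nonneg_left _ hL
  rw [Finset.sum_const, Finset.card_univ, Fintype.card_coe, nsmul_eq_mul]
  apply mul_le_mul_of_nonneg_left _ (Nat.cast_nonneg _)
  rw [Finset.sum_boole]
  have : ((univ.filter (fun x : {x // x ∉ J} => r < (dg F {x.1} : ℝ))).map
      ⟨Subtype.val, Subtype.val_injective⟩) ⊆ univ.filter (fun x => r ≤ (dg F {x} : ℝ)) := by
    intro x hx
    rw [Finset.mem_map] at hx
    obtain ⟨z, hz, rfl⟩ := hx
    rw [Finset.mem_filter] at hz ⊢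
    exact ⟨Finset.mem_univ _, hz.2.le⟩
  have h2 := Finset.card_le_card this
  rw [Finset.card_map] at h2
  exact_mod_cast h2

private theorem num2 {γ δ ε n lam L B : ℝ} (hγ : 0 < γ) (hδ : 0 < δ) (hδ1 : δ ≤ 1 / 500)
    (hε : ε ≤ γ * δ / 5000) (hn : 0 < n) (hlam : 9 / 10 * n ≤ lam) (hL : 0 ≤ L) (hB : 0 ≤ B)
    (h : (1 - δ / 2) * n * ((1 - δ / 2) * n - (1 - δ) * n) * lam ^ 2 * B ≤
      L * (2 * ε * n ^ 2 * (4 * n ^ 2))) : B ≤ γ / 8 * L := by
  have h1 : δ / 4 * n ^ 2 ≤ (1 - δ / 2) * n * ((1 - δ / 2) * n - (1 - δ) * n) := by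
    have : (1 - δ / 2) * n * ((1 - δ / 2) * n - (1 - δ) * n) = (1 - δ / 2) * (δ / 2) * n ^ 2 := by
      ring
    rw [this]
    apply mul_le_mul_of_nonneg_right _ (by positivity)
    nlinarith
  have h2 : 81 / 100 * n ^ 2 ≤ lam ^ 2 := by
    have : (9 / 10 * n) ^ 2 ≤ lam ^ 2 := pow_le_pow_left₀ (by positivity) hlam 2
    calc 81 / 100 * n ^ 2 = (9 / 10 * n) ^ 2 := by ring
      _ ≤ _ := this
  have h3 : (δ / 4 * n ^ 2) * (81 / 100 * n ^ 2) * B ≤ L * (2 * ε * n ^ 2 * (4 * n ^ 2)) := by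
    refine le_trans ?_ h
    apply mul_le_mul_of_nonneg_right _ hB
    exact mul_le_mul h1 h2 (by positivity) (le_trans (by positivity) h1)
  have h4 : L * (2 * ε * n ^ 2 * (4 * n ^ 2)) ≤ L * (2 * (γ * δ / 5000) * n ^ 2 * (4 * n ^ 2)) := by
    apply mul_le_mul_of_nonneg_left _ hL
    have : 0 ≤ n ^ 2 * (4 * n ^ 2) := by positivity
    nlinarith
  have h5 : (δ * n ^ 4) * (81 / 400 * B) ≤ (δ * n ^ 4) * (8 / 5000 * γ * L) := by
    calc (δ * n ^ 4) * (81 / 400 * B) = (δ / 4 * n ^ 2) * (81 / 100 * n ^ 2) * B := by ring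
      _ ≤ L * (2 * (γ * δ / 5000) * n ^ 2 * (4 * n ^ 2)) := h3.trans h4
      _ = (δ * n ^ 4) * (8 / 5000 * γ * L) := by ring
  have h6 := le_of_mul_le_mul_left h5 (by positivity)
  have h7 : 0 ≤ γ * L := mul_nonneg hγ.le hL
  nlinarith

private theorem num3 {γ δ n lam L B : ℝ} (hγ : 0 < γ) (hδ : 0 < δ)
    (hn : 0 < n) (hlam : 9 / 10 * n ≤ lam) (hL : 0 ≤ L) (hB : 0 ≤ B)
    (h : δ / 8 * n * lam * B ≤ L * (2 * (γ * δ / 1000 * n ^ 2))) : B ≤ γ / 8 * L := by
  have h1 : δ / 8 * n * (9 / 10 * n) * B ≤ L * (2 * (γ * δ / 1000 * n ^ 2)) := by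
    refine le_trans ?_ h
    apply mul_le_mul_of_nonneg_right _ hB
    exact mul_le_mul_of_nonneg_left hlam (by positivity)
  have h5 : (δ * n ^ 2) * (9 / 80 * B) ≤ (δ * n ^ 2) * (1 / 500 * γ * L) := by
    calc (δ * n ^ 2) * (9 / 80 * B) = δ / 8 * n * (9 / 10 * n) * B := by ring
      _ ≤ L * (2 * (γ * δ / 1000 * n ^ 2)) := h1
      _ = (δ * n ^ 2) * (1 / 500 * γ * L) := by ring
  have h6 := le_of_mul_le_mul_left h5 (by positivity)
  have h7 : 0 ≤ γ * L := mul_nonneg hγ.le hL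
  nlinarith

private theorem num4 {γ n lam L B : ℝ} (hγ : 0 < γ)
    (hn : 0 < n) (hlam : 9 / 10 * n ≤ lam) (hL : 0 ≤ L) (hB : 0 ≤ B)
    (h : 64 / γ * n * lam * B ≤ L * (4 * n ^ 2)) : B ≤ γ / 8 * L := by
  have h1 : 64 / γ * n * (9 / 10 * n) * B ≤ L * (4 * n ^ 2) := by
    refine le_trans ?_ h
    apply mul_le_mul_of_nonneg_right _ hB
    exact mul_le_mul_of_nonneg_left hlam (by positivity)
  have h5 : (n ^ 2 / γ) * (576 / 10 * B) ≤ (n ^ 2 / γ) * (4 * γ * L) := by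
    calc (n ^ 2 / γ) * (576 / 10 * B) = 64 / γ * n * (9 / 10 * n) * B := by ring
      _ ≤ L * (4 * n ^ 2) := h1
      _ = (n ^ 2 / γ) * (4 * γ * L) := by field_simp
  have h6 := le_of_mul_le_mul_left h5 (by positivity)
  have h7 : 0 ≤ γ * L := mul_nonneg hγ.le hL
  nlinarith

private theorem num5 {γ ε ε' n lam L B h C : ℝ} (hγ : 0 < γ) (hε : 0 < ε) (hε' : 0 < ε')
    (hn : 40 / (ε * ε' * γ) ≤ n) (hlam : 9 / 10 * n ≤ lam) (hL : 0 ≤ L) (hB : 0 ≤ B)
    (hh : 0 ≤ h) (hh2 : h * ε ≤ 2) (hC2 : C * ε' ≤ 2)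
    (hb : lam * B ≤ L * (h * C)) : B ≤ γ / 8 * L := by
  have h0 : 36 / (ε * ε' * γ) ≤ lam := by
    calc 36 / (ε * ε' * γ) = 9 / 10 * (40 / (ε * ε' * γ)) := by ring
      _ ≤ 9 / 10 * n := by linarith
      _ ≤ lam := hlam
  have h1 : 36 / (ε * ε' * γ) * B ≤ L * (h * C) := (mul_le_mul_of_nonneg_right h0 hB).trans hb
  have h2 : (h * C) * (ε * ε') ≤ 4 := by
    calc (h * C) * (ε * ε') = (h * ε) * (C * ε') := by ring
      _ ≤ (h * ε) * 2 := mul_le_mul_of_nonneg_left hC2 (by positivity)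
      _ ≤ 2 * 2 := by linarith
      _ = 4 := by norm_num
  have h3 : 36 * B ≤ 4 * γ * L := by
    have h4 : (36 / (ε * ε' * γ) * B) * (ε * ε' * γ) ≤ L * (h * C) * (ε * ε' * γ) :=
      mul_le_mul_of_nonneg_right h1 (by positivity)
    have h5 : (36 / (ε * ε' * γ) * B) * (ε * ε' * γ) = 36 * B := by
      field_simp
    have h6 : L * (h * C) * (ε * ε' * γ) ≤ 4 * γ * L := by
      calc L * (h * C) * (ε * ε' * γ) = (L * γ) * ((h * C) * (ε * ε')) := by ring
        _ ≤ (L * γ) * 4 := mul_le_mul_of_nonneg_left h2 (by positivity)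
        _ = 4 * γ * L := by ring
    linarith
  have h7 : 0 ≤ γ * L := mul_nonneg hγ.le hL
  nlinarith

theorem tOsA : S_Mk → S_Sum → S_OsA := by
  intro hMk hSum γ δ ε ε' hγ hγ1 hδ hδ1 hε' hεε hε
  have hε0 : 0 < ε := hε'.trans hεε
  obtain ⟨N, hN⟩ := exists_nat_ge (20 / ε + 40 / (ε * ε' * γ) + 1)
  refine ⟨N, ?_⟩
  intro V _ _ F hF hn hc hmed hZ
  have hp1 : 0 < 20 / ε := by positivity
  have hp2 : 0 < 40 / (ε * ε' * γ) := by positivity
  have hnge : 20 / ε + 40 / (ε * ε' * γ) + 1 ≤ (Fintype.card V : ℝ) :=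
    hN.trans (by exact_mod_cast hn)
  have hcR : 2 * (F.card : ℝ) ≤ (Fintype.card V : ℝ) ^ 2 := by exact_mod_cast hc
  have hheR : ∀ e : ℝ, ((He F e).card : ℝ) * (e * (Fintype.card V : ℝ) ^ 2) ≤
      4 * (F.card : ℝ) := (hSum V F hF).2.2
  have hdgR := sum_dg hSum F hF
  have hsyle := sy_le hSum F hF
  have hlamJ := card_lam (He F ε)
  have hJmem : ∀ y, y ∉ He F ε → (dg F {y} : ℝ) < ε * (Fintype.card V : ℝ) ^ 2 := by
    intro y hy
    by_contra hcon
    push Not at hcon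
    exact hy (by unfold He; rw [Finset.mem_filter]; exact ⟨Finset.mem_univ _, hcon⟩)
  have hmem' : univ.filter (fun x => ε' * (Fintype.card V : ℝ) ^ 2 ≤ (dg F {x} : ℝ)) =
      He F ε' := rfl
  set n : ℝ := (Fintype.card V : ℝ) with hnn
  have hn0 : 0 < n := by linarith
  have hcell : ∀ e : ℝ, 0 < e → ((He F e).card : ℝ) * e ≤ 2 := by
    intro e he
    have h1 := hheR e
    have h2 : (((He F e).card : ℝ) * e) * n ^ 2 ≤ 2 * n ^ 2 := by
      calc (((He F e).card : ℝ) * e) * n ^ 2 = ((He F e).card : ℝ) * (e * n ^ 2) := by ring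
        _ ≤ 4 * (F.card : ℝ) := h1
        _ ≤ 2 * n ^ 2 := by linarith
    exact le_of_mul_le_mul_right h2 (by positivity)
  have hJc := hcell ε hε0
  have hlam : 9 / 10 * n ≤ (Fintype.card {x // x ∉ He F ε} : ℝ) := by
    rw [hlamJ]
    have h1 : ((He F ε).card : ℝ) ≤ 2 / ε := by
      rw [le_div_iff₀ hε0]
      exact hJc
    have h2 : 2 / ε = (20 / ε) / 10 := by ring
    linarith
  have hS : ∑ y ∈ univ.filter (fun y => y ∉ He F ε), sy F (He F ε) y ≤ 4 * n ^ 2 := by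
    calc ∑ y ∈ univ.filter (fun y => y ∉ He F ε), sy F (He F ε) y
        ≤ ∑ y ∈ univ.filter (fun y => y ∉ He F ε), 2 * (dg F {y} : ℝ) := by
          apply Finset.sum_le_sum
          intro y hy
          rw [Finset.mem_filter] at hy
          exact hsyle (He F ε) y hy.2
      _ ≤ ∑ y, 2 * (dg F {y} : ℝ) := by
          apply Finset.sum_le_sum_of_subset_of_nonneg (Finset.filter_subset _ _)
          intro y _ _
          positivity
      _ = 2 * ∑ y, (dg F {y} : ℝ) := by rw [Finset.mul_sum]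
      _ = 8 * (F.card : ℝ) := by rw [hdgR]; ring
      _ ≤ 4 * n ^ 2 := by linarith
  have hM : ∀ y, y ∉ He F ε → sy F (He F ε) y ≤ 2 * ε * n ^ 2 := by
    intro y hy
    have h1 := hsyle (He F ε) y hy
    have h2 := hJmem y hy
    linarith
  have hS3 : ∑ y ∈ univ.filter (fun y => y ∉ He F ε ∧ ε' * n ^ 2 < dg F {y}),
      sy F (He F ε) y ≤ 2 * (γ * δ / 1000 * n ^ 2) := by
    calc ∑ y ∈ univ.filter (fun y => y ∉ He F ε ∧ ε' * n ^ 2 < dg F {y}), sy F (He F ε) y
        ≤ ∑ y ∈ univ.filter (fun y => y ∉ He F ε ∧ ε' * n ^ 2 < dg F {y}),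
          2 * (dg F {y} : ℝ) := by
          apply Finset.sum_le_sum
          intro y hy
          rw [Finset.mem_filter] at hy
          exact hsyle (He F ε) y hy.2.1
      _ = 2 * ∑ y ∈ univ.filter (fun y => y ∉ He F ε ∧ ε' * n ^ 2 < dg F {y}),
          (dg F {y} : ℝ) := by rw [Finset.mul_sum]
      _ ≤ 2 * (γ * δ / 1000 * n ^ 2) := by linarith
  have hL : 0 ≤ (Fintype.card {x // x ∉ He F ε} : ℝ) ^ Fintype.card {v // v ∈ He F ε} := by
    positivity
  have e2 := b2_le hMk F (He F ε) ((1 - δ) * n) ((1 - δ / 2) * n) (2 * ε * n ^ 2) (4 * n ^ 2)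
    (mul_nonneg (by linarith) hn0.le) (by nlinarith) hM hS (by positivity)
  have e3 := b3_le hMk F (He F ε) (ε' * n ^ 2) (δ / 8 * n) _ (by positivity) hS3
  have e4 := b4_le hMk F (He F ε) (64 / γ * n) _ (by positivity) hS
  have e5 := b5_le hMk F (He F ε) (ε' * n ^ 2)
  rw [hmem'] at e5
  have f2 := num2 hγ hδ hδ1 hε hn0 hlam hL (Nat.cast_nonneg _) e2
  have f3 := num3 hγ hδ hn0 hlam hL (Nat.cast_nonneg _) e3
  have f4 := num4 hγ hn0 hlam hL (Nat.cast_nonneg _) e4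
  have f5 := num5 hγ hε0 hε' (by linarith) hlam hL (Nat.cast_nonneg _) (Nat.cast_nonneg _) hJc
    (hcell ε' hε') e5
  have hsub : univ.filter (fun a => Z0 F (He F ε) ((1 - δ) * n) a) ⊆
      univ.filter (fun a => Gq F (He F ε) δ γ ε' a) ∪
      (b2 F (He F ε) ((1 - δ) * n) ((1 - δ / 2) * n) ∪ (b3 F (He F ε) (ε' * n ^ 2) (δ / 8 * n) ∪
      (b4 F (He F ε) (64 / γ * n) ∪ b5 F (He F ε) (ε' * n ^ 2)))) := by
    intro a ha
    rw [Finset.mem_filter] at ha
    obtain ⟨_, hz⟩ := ha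
    simp only [Finset.mem_union]
    by_cases c2 : ∀ y, y ∉ He F ε → (Sy F (He F ε) a y : ℝ) ≤ (1 - δ / 2) * n
    · by_cases c3 : ∀ y, y ∉ He F ε → ε' * n ^ 2 < dg F {y} →
        (Sy F (He F ε) a y : ℝ) ≤ δ / 8 * n
      · by_cases c4 : (∑ y ∈ univ.filter (fun y => y ∉ He F ε), (Sy F (He F ε) a y : ℝ)) ≤
          64 / γ * n
        · by_cases c5 : ∀ v, (dg F {(a v).1} : ℝ) ≤ ε' * n ^ 2
          · left
            rw [Finset.mem_filter]
            exact ⟨Finset.mem_univ _, hz, c2, c3, c4, c5⟩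
          · right; right; right; right
            push Not at c5
            unfold b5
            rw [Finset.mem_filter]
            exact ⟨Finset.mem_univ _, c5⟩
        · right; right; right; left
          push Not at c4
          unfold b4
          rw [Finset.mem_filter]
          exact ⟨Finset.mem_univ _, c4.le⟩
      · right; right; left
        push Not at c3
        obtain ⟨y, hy1, hy2, hy3⟩ := c3
        unfold b3
        rw [Finset.mem_biUnion]
        refine ⟨y, ?_, ?_⟩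
        · rw [Finset.mem_filter]
          exact ⟨Finset.mem_univ _, hy1, hy2⟩
        · rw [Finset.mem_filter]
          exact ⟨Finset.mem_univ _, hy3.le⟩
    · right; left
      push Not at c2
      obtain ⟨y, hy1, hy2⟩ := c2
      unfold b2
      rw [Finset.mem_biUnion]
      refine ⟨y, ?_, ?_⟩
      · rw [Finset.mem_filter]
        exact ⟨Finset.mem_univ _, hy1⟩
      · rw [Finset.mem_filter]
        refine ⟨Finset.mem_univ _, hy2.le, ?_⟩
        intro v
        have := hz.1 v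
        unfold Dd at this
        push Not at this
        exact (this y hy1).le
  have hcard := (Finset.card_le_card hsub).trans ((Finset.card_union_le _ _).trans
    (Nat.add_le_add_left ((Finset.card_union_le _ _).trans (Nat.add_le_add_left
      ((Finset.card_union_le _ _).trans (Nat.add_le_add_left (Finset.card_union_le _ _) _)) _)) _))
  have hcardR : ((univ.filter (fun a => Z0 F (He F ε) ((1 - δ) * n) a)).card : ℝ) ≤
      ((univ.filter (fun a => Gq F (He F ε) δ γ ε' a)).card : ℝ) +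
      (((b2 F (He F ε) ((1 - δ) * n) ((1 - δ / 2) * n)).card : ℝ) +
      (((b3 F (He F ε) (ε' * n ^ 2) (δ / 8 * n)).card : ℝ) +
      (((b4 F (He F ε) (64 / γ * n)).card : ℝ) + ((b5 F (He F ε) (ε' * n ^ 2)).card : ℝ)))) := by
    exact_mod_cast hcard
  linarith

end Pool.Agent.Ham
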