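import Pool.Agent.Lib.MP_716318_co.H.Spec2

/-!
# MP_716318_co, package H: two choices with good mixtures (`tOsB`)
-/

set_option autoImplicit false

namespace Pool.Agent.Ham

open Finset
open scoped Classical

private theorem card_biU {α β : Type} [DecidableEq β] (s : Finset α) (f : α → Finset β) :
    ((s.biUnion f).card : ℝ) ≤ ∑ i ∈ s, ((f i).card : ℝ) := by
  exact_mod_cast Finset.card_biUnion_le

private theorem card_lam {V : Type} [Fintype V] [DecidableEq V] (J : Finset V) :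
    (Fintype.card {x // x ∉ J} : ℝ) = (Fintype.card V : ℝ) - J.card := by
  have h1 : Fintype.card {x // x ∉ J} = Fintype.card V - Fintype.card {x // x ∈ J} :=
    Fintype.card_subtype_compl (fun x => x ∈ J)
  have h2 : Fintype.card {x // x ∈ J} = J.card := Fintype.card_coe J
  have h3 : J.card ≤ Fintype.card V := Finset.card_le_univ J
  rw [h1, h2, Nat.cast_sub h3]

/-- the sum over the second coordinate -/
private noncomputable def sy {V : Type} [Fintype V] [DecidableEq V] (F : Finset (Finset V))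
    (J : Finset V) (y : V) : ℝ := ∑ v : {v // v ∈ J}, ∑ x : {x // x ∉ J}, (ch F J v.1 x.1 y : ℝ)

private theorem sy_nn {V : Type} [Fintype V] [DecidableEq V] (F : Finset (Finset V))
    (J : Finset V) (y : V) : 0 ≤ sy F J y :=
  Finset.sum_nonneg (fun _ _ => Finset.sum_nonneg (fun _ _ => Nat.cast_nonneg _))

private theorem sy_le (hSum : S_Sum) {V : Type} [Fintype V] [DecidableEq V]
    (F : Finset (Finset V)) (hF : U4 F) (J : Finset V) (y : V) (hy : y ∉ J) :
    sy F J y ≤ 2 * (dg F {y} : ℝ) := by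
  have := (hSum V F hF).2.1 J y hy
  unfold sy
  exact_mod_cast this

private theorem sum_dg (hSum : S_Sum) {V : Type} [Fintype V] [DecidableEq V]
    (F : Finset (Finset V)) (hF : U4 F) : ∑ y, (dg F {y} : ℝ) = 4 * (F.card : ℝ) := by
  have := (hSum V F hF).1
  exact_mod_cast this

private theorem Sy_cast {V : Type} [Fintype V] [DecidableEq V] (F : Finset (Finset V))
    (J : Finset V) (a : {v // v ∈ J} → {x // x ∉ J}) (y : V) :
    (Sy F J a y : ℝ) = ∑ v : {v // v ∈ J}, (ch F J v.1 (a v).1 y : ℝ) := by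
  unfold Sy
  push_cast
  rfl

/-- first moment for one `y` -/
private theorem mk1 (hMk : S_Mk) {V : Type} [Fintype V] [DecidableEq V] (F : Finset (Finset V))
    (J : Finset V) (y : V) (t : ℝ) (ht : 0 < t) :
    t * (Fintype.card {x // x ∉ J} : ℝ) *
      (univ.filter (fun a : {v // v ∈ J} → {x // x ∉ J} => t ≤ (Sy F J a y : ℝ))).card ≤
      (Fintype.card {x // x ∉ J} : ℝ) ^ Fintype.card {v // v ∈ J} * sy F J y := by
  have h := (hMk {v // v ∈ J} {x // x ∉ J} (fun v x => (ch F J v.1 x.1 y : ℝ))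
    (fun _ _ => Nat.cast_nonneg _)).1 t ht
  have he : (univ.filter (fun a : {v // v ∈ J} → {x // x ∉ J} => t ≤ (Sy F J a y : ℝ))) =
      (univ.filter (fun a : {v // v ∈ J} → {x // x ∉ J} =>
        t ≤ ∑ v, (ch F J v.1 (a v).1 y : ℝ))) := by
    apply Finset.filter_congr
    intro a _
    rw [Sy_cast]
  rw [he]
  exact h


/-- the number of the pairs without coincidences -/
private theorem inj_count (H Λ : Type) [Fintype H] [DecidableEq H] [Fintype Λ] [DecidableEq Λ]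
    (hD : 2 * Fintype.card H ≤ Fintype.card Λ) (hpos : 0 < Fintype.card Λ) :
    ((Fintype.card Λ : ℝ) ^ Fintype.card H) ^ 2 *
      (1 - (2 * Fintype.card H : ℝ) ^ 2 / Fintype.card Λ) ≤
      ((univ.filter (fun p : (H → Λ) × (H → Λ) =>
        Function.Injective (Sum.elim p.1 p.2))).card : ℝ) := by
  have e1 : {p : (H → Λ) × (H → Λ) // Function.Injective (Sum.elim p.1 p.2)} ≃
      {f : H ⊕ H → Λ // Function.Injective f} :=
    (Equiv.sumArrowEquivProdArrow H H Λ).symm.subtypeEquiv (fun p => Iff.rfl)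
  have h1 : (univ.filter (fun p : (H → Λ) × (H → Λ) =>
        Function.Injective (Sum.elim p.1 p.2))).card =
        (Fintype.card Λ).descFactorial (Fintype.card (H ⊕ H)) := by
    rw [← Fintype.card_embedding_eq, ← Fintype.card_subtype]
    exact Fintype.card_congr (e1.trans (Equiv.subtypeInjectiveEquivEmbedding _ _))
  rw [h1, Fintype.card_sum, ← two_mul]
  have h2 := Nat.pow_sub_le_descFactorial (Fintype.card Λ) (2 * Fintype.card H)
  have h3 : (((Fintype.card Λ + 1 - 2 * Fintype.card H : ℕ) : ℝ)) ^ (2 * Fintype.card H) ≤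
      (((Fintype.card Λ).descFactorial (2 * Fintype.card H) : ℕ) : ℝ) := by
    exact_mod_cast h2
  refine le_trans ?_ h3
  rw [Nat.cast_sub (by omega)]
  push_cast
  set l : ℝ := (Fintype.card Λ : ℝ) with hl
  set h : ℝ := (Fintype.card H : ℝ) with hh
  have hl0 : 0 < l := by rw [hl]; exact_mod_cast hpos
  have hh0 : 0 ≤ h := Nat.cast_nonneg _
  have hDR : 2 * h ≤ l := by rw [hl, hh]; exact_mod_cast hD
  have h4 : l + 1 - 2 * h = l * (1 + -((2 * h - 1) / l)) := by
    field_simp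
    ring
  have h5 : 1 + ((2 * Fintype.card H : ℕ) : ℝ) * -((2 * h - 1) / l) ≤
      (1 + -((2 * h - 1) / l)) ^ (2 * Fintype.card H) := by
    apply one_add_mul_le_pow
    have : (2 * h - 1) / l ≤ 2 := by
      rw [div_le_iff₀ hl0]
      linarith
    linarith
  have h6 : 1 - (2 * h) ^ 2 / l ≤ 1 + ((2 * Fintype.card H : ℕ) : ℝ) * -((2 * h - 1) / l) := by
    push_cast
    rw [← hh]
    have : (2 * h) ^ 2 / l - 2 * h * ((2 * h - 1) / l) = 2 * h / l := by
      field_simp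
      ring
    have h7 : 0 ≤ 2 * h / l := by positivity
    nlinarith
  rw [h4]
  refine le_trans ?_ (le_of_eq (mul_pow _ _ _).symm)
  calc (l ^ Fintype.card H) ^ 2 * (1 - (2 * h) ^ 2 / l)
      = l ^ (2 * Fintype.card H) * (1 - (2 * h) ^ 2 / l) := by
        rw [← pow_mul, mul_comm (Fintype.card H) 2]
    _ ≤ l ^ (2 * Fintype.card H) * (1 + -((2 * h - 1) / l)) ^ (2 * Fintype.card H) :=
        mul_le_mul_of_nonneg_left (h6.trans h5) (by positivity)

/-- the pairs with two expensive choices for `y` -/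
private noncomputable def bp {V : Type} [Fintype V] [DecidableEq V] (F : Finset (Finset V))
    (J : Finset V) (t : ℝ) (y : V) :
    Finset (({v // v ∈ J} → {x // x ∉ J}) × ({v // v ∈ J} → {x // x ∉ J})) :=
  (univ.filter (fun a : {v // v ∈ J} → {x // x ∉ J} => t ≤ (Sy F J a y : ℝ))) ×ˢ
  (univ.filter (fun a : {v // v ∈ J} → {x // x ∉ J} => t ≤ (Sy F J a y : ℝ)))

private theorem bp_le (hMk : S_Mk) {V : Type} [Fintype V] [DecidableEq V] (F : Finset (Finset V))
    (J : Finset V) (r t M S : ℝ) (ht : 0 < t)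
    (hM : ∀ y, y ∉ J → (dg F {y} : ℝ) ≤ r → sy F J y ≤ M) (hM0 : 0 ≤ M)
    (hS : ∑ y ∈ univ.filter (fun y => y ∉ J ∧ (dg F {y} : ℝ) ≤ r), sy F J y ≤ S) :
    (t * (Fintype.card {x // x ∉ J} : ℝ)) ^ 2 *
      (((univ.filter (fun y => y ∉ J ∧ (dg F {y} : ℝ) ≤ r)).biUnion (bp F J t)).card : ℝ) ≤
      ((Fintype.card {x // x ∉ J} : ℝ) ^ Fintype.card {v // v ∈ J}) ^ 2 * (M * S) := by
  have h1 := card_biU (univ.filter (fun y => y ∉ J ∧ (dg F {y} : ℝ) ≤ r)) (bp F J t)
  have hL : 0 ≤ (Fintype.card {x // x ∉ J} : ℝ) ^ Fintype.card {v // v ∈ J} := by positivity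
  calc (t * (Fintype.card {x // x ∉ J} : ℝ)) ^ 2 *
      (((univ.filter (fun y => y ∉ J ∧ (dg F {y} : ℝ) ≤ r)).biUnion (bp F J t)).card : ℝ)
      ≤ (t * (Fintype.card {x // x ∉ J} : ℝ)) ^ 2 *
        ∑ y ∈ univ.filter (fun y => y ∉ J ∧ (dg F {y} : ℝ) ≤ r), ((bp F J t y).card : ℝ) :=
        mul_le_mul_of_nonneg_left h1 (by positivity)
    _ = ∑ y ∈ univ.filter (fun y => y ∉ J ∧ (dg F {y} : ℝ) ≤ r),
        (t * (Fintype.card {x // x ∉ J} : ℝ)) ^ 2 * ((bp F J t y).card : ℝ) := by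
        rw [Finset.mul_sum]
    _ ≤ ∑ y ∈ univ.filter (fun y => y ∉ J ∧ (dg F {y} : ℝ) ≤ r),
        ((Fintype.card {x // x ∉ J} : ℝ) ^ Fintype.card {v // v ∈ J}) ^ 2 *
          (M * sy F J y) := by
        apply Finset.sum_le_sum
        intro y hy
        rw [Finset.mem_filter] at hy
        have h2 := mk1 hMk F J y t ht
        unfold bp
        rw [Finset.card_product, Nat.cast_mul]
        set B : ℝ := ((univ.filter (fun a : {v // v ∈ J} → {x // x ∉ J} =>
          t ≤ (Sy F J a y : ℝ))).card : ℝ) with hB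
        have hB0 : 0 ≤ B := Nat.cast_nonneg _
        calc (t * (Fintype.card {x // x ∉ J} : ℝ)) ^ 2 * (B * B)
            = (t * (Fintype.card {x // x ∉ J} : ℝ) * B) ^ 2 := by ring
          _ ≤ ((Fintype.card {x // x ∉ J} : ℝ) ^ Fintype.card {v // v ∈ J} * sy F J y) ^ 2 :=
            pow_le_pow_left₀ (by positivity) h2 2
          _ = ((Fintype.card {x // x ∉ J} : ℝ) ^ Fintype.card {v // v ∈ J}) ^ 2 *
              (sy F J y * sy F J y) := by ring
          _ ≤ _ := by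
            apply mul_le_mul_of_nonneg_left _ (by positivity)
            exact mul_le_mul_of_nonneg_right (hM y hy.2.1 hy.2.2) (sy_nn F J y)
    _ = ((Fintype.card {x // x ∉ J} : ℝ) ^ Fintype.card {v // v ∈ J}) ^ 2 *
          (M * ∑ y ∈ univ.filter (fun y => y ∉ J ∧ (dg F {y} : ℝ) ≤ r), sy F J y) := by
        rw [Finset.mul_sum, Finset.mul_sum]
    _ ≤ _ := mul_le_mul_of_nonneg_left (mul_le_mul_of_nonneg_left hS hM0) (by positivity)

private theorem numB {δ κ ε' n lam L2 B : ℝ} (hδ : 0 < δ) (hκ : 0 < κ)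
    (hε : ε' ≤ δ ^ 2 * κ / 5000) (hn : 0 < n) (hlam : 9 / 10 * n ≤ lam) (hL : 0 ≤ L2) (hB : 0 ≤ B)
    (h : (δ / 8 * n * lam) ^ 2 * B ≤ L2 * (2 * ε' * n ^ 2 * (4 * n ^ 2))) : B ≤ κ / 4 * L2 := by
  have h2 : (δ / 8 * n * (9 / 10 * n)) ^ 2 ≤ (δ / 8 * n * lam) ^ 2 := by
    apply pow_le_pow_left₀ (by positivity)
    exact mul_le_mul_of_nonneg_left hlam (by positivity)
  have h3 : (δ / 8 * n * (9 / 10 * n)) ^ 2 * B ≤ L2 * (2 * ε' * n ^ 2 * (4 * n ^ 2)) :=
    (mul_le_mul_of_nonneg_right h2 hB).trans h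
  have h4 : L2 * (2 * ε' * n ^ 2 * (4 * n ^ 2)) ≤
      L2 * (2 * (δ ^ 2 * κ / 5000) * n ^ 2 * (4 * n ^ 2)) := by
    apply mul_le_mul_of_nonneg_left _ hL
    have : 0 ≤ n ^ 2 * (4 * n ^ 2) := by positivity
    nlinarith
  have h5 : (δ ^ 2 * n ^ 4) * (81 / 6400 * B) ≤ (δ ^ 2 * n ^ 4) * (8 / 5000 * κ * L2) := by
    calc (δ ^ 2 * n ^ 4) * (81 / 6400 * B) = (δ / 8 * n * (9 / 10 * n)) ^ 2 * B := by ring
      _ ≤ L2 * (2 * (δ ^ 2 * κ / 5000) * n ^ 2 * (4 * n ^ 2)) := h3.trans h4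
      _ = (δ ^ 2 * n ^ 4) * (8 / 5000 * κ * L2) := by ring
  have h6 := le_of_mul_le_mul_left h5 (by positivity)
  have h7 : 0 ≤ κ * L2 := mul_nonneg hκ.le hL
  nlinarith

theorem tOsB : S_Mk → S_Sum → S_Dbl → S_OsB := by
  intro hMk hSum hDbl γ δ ε hγ hγ1 hδ hδ1 hε
  set k : ℕ := ⌈2 / ε⌉₊ with hk
  set c : ℝ := γ / 2 with hcdef
  have hc0 : 0 < c := by positivity
  have hc1 : c ≤ 1 := by linarith
  set κ : ℝ := c ^ (2 ^ k) with hκdef
  have hκ : 0 < κ := by positivity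
  have hκ1 : κ ≤ 1 := pow_le_one₀ hc0.le hc1
  refine ⟨δ ^ 2 * κ / 5000, by positivity, ?_⟩
  intro ε' hε' hε'1
  obtain ⟨N, hN⟩ := exists_nat_ge (20 / ε + 20 * (k : ℝ) ^ 2 / κ + 1)
  refine ⟨N, ?_⟩
  intro V _ _ F hF hn hc hG
  have hp1 : 0 < 20 / ε := by positivity
  have hp2 : 0 ≤ 20 * (k : ℝ) ^ 2 / κ := by positivity
  have hnge : 20 / ε + 20 * (k : ℝ) ^ 2 / κ + 1 ≤ (Fintype.card V : ℝ) :=
    hN.trans (by exact_mod_cast hn)
  have hcR : 2 * (F.card : ℝ) ≤ (Fintype.card V : ℝ) ^ 2 := by exact_mod_cast hc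
  have hheR : ∀ e : ℝ, ((He F e).card : ℝ) * (e * (Fintype.card V : ℝ) ^ 2) ≤
      4 * (F.card : ℝ) := (hSum V F hF).2.2
  have hdgR := sum_dg hSum F hF
  have hsyle := sy_le hSum F hF
  have hlamJ := card_lam (He F ε)
  have hD := hDbl {v // v ∈ He F ε} {x // x ∉ He F ε} c (fun a => Gq F (He F ε) δ γ ε' a) hc0.le hG
  have hIc := inj_count {v // v ∈ He F ε} {x // x ∉ He F ε}
  set n : ℝ := (Fintype.card V : ℝ) with hnn
  have hn0 : 0 < n := by linarith
  have hcell : ((He F ε).card : ℝ) * ε ≤ 2 := by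
    have h1 := hheR ε
    have h2 : (((He F ε).card : ℝ) * ε) * n ^ 2 ≤ 2 * n ^ 2 := by
      calc (((He F ε).card : ℝ) * ε) * n ^ 2 = ((He F ε).card : ℝ) * (ε * n ^ 2) := by ring
        _ ≤ 4 * (F.card : ℝ) := h1
        _ ≤ 2 * n ^ 2 := by linarith
    exact le_of_mul_le_mul_right h2 (by positivity)
  have hJ1 : ((He F ε).card : ℝ) ≤ 2 / ε := by
    rw [le_div_iff₀ hε]
    exact hcell
  have hJk : Fintype.card {v // v ∈ He F ε} ≤ k := by
    have h1 : Fintype.card {v // v ∈ He F ε} = (He F ε).card := Fintype.card_coe _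
    rw [h1]
    have : ((He F ε).card : ℝ) ≤ (k : ℝ) := hJ1.trans (Nat.le_ceil _)
    exact_mod_cast this
  have hlam : 9 / 10 * n ≤ (Fintype.card {x // x ∉ He F ε} : ℝ) := by
    rw [hlamJ]
    have h2 : 2 / ε = (20 / ε) / 10 := by ring
    linarith
  have hlam0 : (0 : ℝ) < (Fintype.card {x // x ∉ He F ε} : ℝ) := lt_of_lt_of_le (by positivity) hlam
  have hkR : (Fintype.card {v // v ∈ He F ε} : ℝ) ≤ k := by exact_mod_cast hJk
  have hh0 : (0 : ℝ) ≤ (Fintype.card {v // v ∈ He F ε} : ℝ) := Nat.cast_nonneg _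
  -- the pairs with coincidences
  have hlam2 : 18 * (k : ℝ) ^ 2 / κ ≤ (Fintype.card {x // x ∉ He F ε} : ℝ) := by
    have : 18 * (k : ℝ) ^ 2 / κ = 9 / 10 * (20 * (k : ℝ) ^ 2 / κ) := by ring
    rw [this]
    refine le_trans ?_ hlam
    linarith
  have hlam3 : 18 * (k : ℝ) ^ 2 ≤ κ * (Fintype.card {x // x ∉ He F ε} : ℝ) := by
    rw [div_le_iff₀ hκ] at hlam2
    linarith
  have hhk2 : (Fintype.card {v // v ∈ He F ε} : ℝ) ^ 2 ≤ (k : ℝ) ^ 2 :=
    pow_le_pow_left₀ hh0 hkR 2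
  have hDl : 2 * Fintype.card {v // v ∈ He F ε} ≤ Fintype.card {x // x ∉ He F ε} := by
    have h1 : (Fintype.card {v // v ∈ He F ε} : ℝ) ≤
        (Fintype.card {v // v ∈ He F ε} : ℝ) ^ 2 := by
      have : Fintype.card {v // v ∈ He F ε} ≤ Fintype.card {v // v ∈ He F ε} ^ 2 :=
        Nat.le_self_pow two_ne_zero _
      exact_mod_cast this
    have h2 : κ * (Fintype.card {x // x ∉ He F ε} : ℝ) ≤
        1 * (Fintype.card {x // x ∉ He F ε} : ℝ) := mul_le_mul_of_nonneg_right hκ1 hlam0.le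
    have h3 : (2 : ℝ) * (Fintype.card {v // v ∈ He F ε} : ℝ) ≤
        (Fintype.card {x // x ∉ He F ε} : ℝ) := by nlinarith
    exact_mod_cast h3
  have hI := hIc hDl (by exact_mod_cast hlam0)
  have hI2 : (2 * (Fintype.card {v // v ∈ He F ε} : ℝ)) ^ 2 /
      (Fintype.card {x // x ∉ He F ε} : ℝ) ≤ κ / 4 := by
    rw [div_le_iff₀ hlam0]
    nlinarith
  -- the pairs with two expensive choices
  have hS : ∑ y ∈ univ.filter (fun y => y ∉ He F ε ∧ (dg F {y} : ℝ) ≤ ε' * n ^ 2),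
      sy F (He F ε) y ≤ 4 * n ^ 2 := by
    calc ∑ y ∈ univ.filter (fun y => y ∉ He F ε ∧ (dg F {y} : ℝ) ≤ ε' * n ^ 2), sy F (He F ε) y
        ≤ ∑ y ∈ univ.filter (fun y => y ∉ He F ε ∧ (dg F {y} : ℝ) ≤ ε' * n ^ 2),
          2 * (dg F {y} : ℝ) := by
          apply Finset.sum_le_sum
          intro y hy
          rw [Finset.mem_filter] at hy
          exact hsyle (He F ε) y hy.2.1
      _ ≤ ∑ y, 2 * (dg F {y} : ℝ) := by
          apply Finset.sum_le_sum_of_subset_of_nonneg (Finset.filter_subset _ _)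
          intro y _ _
          positivity
      _ = 2 * ∑ y, (dg F {y} : ℝ) := by rw [Finset.mul_sum]
      _ = 8 * (F.card : ℝ) := by rw [hdgR]; ring
      _ ≤ 4 * n ^ 2 := by linarith
  have hM : ∀ y, y ∉ He F ε → (dg F {y} : ℝ) ≤ ε' * n ^ 2 →
      sy F (He F ε) y ≤ 2 * ε' * n ^ 2 := by
    intro y hy hy2
    have h1 := hsyle (He F ε) y hy
    linarith
  have e3 := bp_le hMk F (He F ε) (ε' * n ^ 2) (δ / 8 * n) _ _ (by positivity) hM (by positivity) hS
  have f3 := numB hδ hκ hε'1 hn0 hlam (by positivity) (Nat.cast_nonneg _) e3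
  -- conclusion
  set Bd := (univ.filter (fun y => y ∉ He F ε ∧ (dg F {y} : ℝ) ≤ ε' * n ^ 2)).biUnion
    (bp F (He F ε) (δ / 8 * n)) with hBd
  set I := univ.filter (fun p : ({v // v ∈ He F ε} → {x // x ∉ He F ε}) ×
    ({v // v ∈ He F ε} → {x // x ∉ He F ε}) => Function.Injective (Sum.elim p.1 p.2)) with hIdef
  set G := univ.filter (fun p : ({v // v ∈ He F ε} → {x // x ∉ He F ε}) ×
    ({v // v ∈ He F ε} → {x // x ∉ He F ε}) => ∀ S : Finset {v // v ∈ He F ε},
      Gq F (He F ε) δ γ ε' (fun v => if v ∈ S then p.2 v else p.1 v)) with hGdef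
  set L : ℝ := (Fintype.card {x // x ∉ He F ε} : ℝ) ^ Fintype.card {v // v ∈ He F ε} with hL
  have hL0 : 0 < L := by positivity
  have hpow : κ ≤ c ^ (2 ^ Fintype.card {v // v ∈ He F ε}) :=
    pow_le_pow_of_le_one hc0.le hc1 (Nat.pow_le_pow_right (by norm_num) hJk)
  have hGc : κ * L ^ 2 ≤ (G.card : ℝ) :=
    (mul_le_mul_of_nonneg_right hpow (by positivity)).trans hD
  have hIC : ((univ \ I).card : ℝ) ≤ κ / 4 * L ^ 2 := by
    have h1 : (univ \ I).card + I.card = (univ : Finset (({v // v ∈ He F ε} →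
        {x // x ∉ He F ε}) × ({v // v ∈ He F ε} → {x // x ∉ He F ε}))).card :=
      Finset.card_sdiff_add_card_eq_card (Finset.subset_univ _)
    have h2 : (univ : Finset (({v // v ∈ He F ε} → {x // x ∉ He F ε}) ×
        ({v // v ∈ He F ε} → {x // x ∉ He F ε}))).card =
        (Fintype.card {x // x ∉ He F ε} ^ Fintype.card {v // v ∈ He F ε}) ^ 2 := by
      rw [Finset.card_univ, Fintype.card_prod, Fintype.card_fun, sq]
    have h3 : ((univ \ I).card : ℝ) + (I.card : ℝ) = L ^ 2 := by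
      rw [hL]
      rw [h2] at h1
      exact_mod_cast h1
    have h4 : L ^ 2 * (1 - κ / 4) ≤ L ^ 2 * (1 - (2 * (Fintype.card {v // v ∈ He F ε} : ℝ)) ^ 2 /
      (Fintype.card {x // x ∉ He F ε} : ℝ)) := by
      apply mul_le_mul_of_nonneg_left _ (by positivity)
      linarith
    have h5 := h4.trans hI
    linarith
  by_contra hcon
  have hsub : G ⊆ (univ \ I) ∪ Bd := by
    intro p hp
    rw [Finset.mem_union]
    by_contra hpn
    push Not at hpn
    obtain ⟨hp1, hp2⟩ := hpn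
    have hpI : Function.Injective (Sum.elim p.1 p.2) := by
      by_contra hI'
      apply hp1
      rw [Finset.mem_sdiff]
      refine ⟨Finset.mem_univ _, ?_⟩
      intro hmem
      rw [hIdef, Finset.mem_filter] at hmem
      exact hI' hmem.2
    rw [hGdef, Finset.mem_filter] at hp
    apply hcon
    refine ⟨p.1, p.2, hp.2, ?_, ?_, ?_, ?_⟩
    · intro v w hvw
      have := @hpI (Sum.inl v) (Sum.inl w) (by simpa using hvw)
      exact Sum.inl_injective this
    · intro v w hvw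
      have := @hpI (Sum.inr v) (Sum.inr w) (by simpa using hvw)
      exact Sum.inr_injective this
    · intro v w hvw
      have := @hpI (Sum.inl v) (Sum.inr w) (by simpa using hvw)
      exact absurd this (by simp)
    · intro y hy hy2
      by_contra hcon2
      push Not at hcon2
      apply hp2
      rw [hBd, Finset.mem_biUnion]
      refine ⟨y, ?_, ?_⟩
      · rw [Finset.mem_filter]
        exact ⟨Finset.mem_univ _, hy, hy2⟩
      · unfold bp
        rw [Finset.mem_product, Finset.mem_filter, Finset.mem_filter]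
        exact ⟨⟨Finset.mem_univ _, hcon2.1.le⟩, ⟨Finset.mem_univ _, hcon2.2.le⟩⟩
  have hcard := (Finset.card_le_card hsub).trans (Finset.card_union_le _ _)
  have hcardR : (G.card : ℝ) ≤ ((univ \ I).card : ℝ) + (Bd.card : ℝ) := by exact_mod_cast hcard
  have : 0 < κ * L ^ 2 := by positivity
  linarith

end Pool.Agent.Ham
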