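import Pool.Agent.Lib.MP_716318_co.H.Spec2

/-!
# MP_716318_co, package H: from two choices to an acceptable path (`S_OsC`)
-/

set_option autoImplicit false

namespace Pool.Agent.Ham

open Finset
open scoped Classical

private lemma ne4 {V : Type} [DecidableEq V] {F : Finset (Finset V)} (hF : U4 F) {a b c d : V}
    (h : ({a, b, c, d} : Finset V) ∈ F) : a ≠ c ∧ b ≠ c ∧ a ≠ d := by
  have h4 := hF _ h
  refine ⟨?_, ?_, ?_⟩
  · rintro rfl
    have : ({a, b, a, d} : Finset V) = {b, a, d} := by
      rw [Finset.insert_eq_of_mem]; simp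
    rw [this] at h4
    have := Finset.card_le_three (a := b) (b := a) (c := d)
    omega
  · rintro rfl
    have : ({a, b, b, d} : Finset V) = {a, b, d} := by
      rw [Finset.insert_eq_of_mem (a := b) (s := {b, d})]; simp
    rw [this] at h4
    have := Finset.card_le_three (a := a) (b := b) (c := d)
    omega
  · rintro rfl
    have : ({a, b, c, a} : Finset V) = {b, c, a} := by
      rw [Finset.insert_eq_of_mem]; simp
    rw [this] at h4
    have := Finset.card_le_three (a := b) (b := c) (c := a)
    omega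

private lemma ex_out {V : Type} [Fintype V] (U : Finset V) (h : U.card < Fintype.card V) :
    ∃ s, s ∉ U := by
  by_contra hc
  push Not at hc
  have : U = univ := Finset.eq_univ_iff_forall.mpr hc
  rw [this, Finset.card_univ] at h
  omega

private lemma dg_off {V : Type} [DecidableEq V] (F : Finset (Finset V)) (J S : Finset V) :
    dg (off F J) S ≤ dg F S := by
  unfold dg off
  exact Finset.card_le_card (Finset.filter_subset_filter _ (Finset.filter_subset _ _))

/-- The edges of the blocks. -/
private noncomputable def EE {V : Type} (J : Finset V) (a a' : {v // v ∈ J} → {x // x ∉ J}) :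
    List (V × V) :=
  (univ : Finset {v // v ∈ J}).toList.map (fun v => ((a v).1, v.1)) ++
    (univ : Finset {v // v ∈ J}).toList.map (fun v => (v.1, (a' v).1))

/-- The blocks. -/
private noncomputable def BB {V : Type} (J : Finset V) (a a' : {v // v ∈ J} → {x // x ∉ J}) :
    List (List V) :=
  (univ : Finset {v // v ∈ J}).toList.map (fun v => [(a v).1, v.1, (a' v).1])

private lemma mem_EE {V : Type} (J : Finset V) (a a' : {v // v ∈ J} → {x // x ∉ J}) (e : V × V) :
    e ∈ EE J a a' ↔ ∃ v, e = ((a v).1, v.1) ∨ e = (v.1, (a' v).1) := by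
  unfold EE
  simp only [List.mem_append, List.mem_map, Finset.mem_toList, Finset.mem_univ, true_and]
  constructor
  · rintro (⟨v, rfl⟩ | ⟨v, rfl⟩)
    · exact ⟨v, Or.inl rfl⟩
    · exact ⟨v, Or.inr rfl⟩
  · rintro ⟨v, rfl | rfl⟩
    · exact Or.inl ⟨v, rfl⟩
    · exact Or.inr ⟨v, rfl⟩

private lemma mem_BB {V : Type} (J : Finset V) (a a' : {v // v ∈ J} → {x // x ∉ J}) (B : List V) :
    B ∈ BB J a a' ↔ ∃ v, B = [(a v).1, v.1, (a' v).1] := by
  unfold BB
  simp only [List.mem_map, Finset.mem_toList, Finset.mem_univ, true_and]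
  constructor
  · rintro ⟨v, rfl⟩; exact ⟨v, rfl⟩
  · rintro ⟨v, rfl⟩; exact ⟨v, rfl⟩

private lemma mem_fl {V : Type} (J : Finset V) (a a' : {v // v ∈ J} → {x // x ∉ J}) (x : V) :
    x ∈ (BB J a a').flatten ↔ ∃ v, x = (a v).1 ∨ x = v.1 ∨ x = (a' v).1 := by
  simp only [List.mem_flatten, mem_BB]
  constructor
  · rintro ⟨_, ⟨v, rfl⟩, hx⟩
    simp only [List.mem_cons, List.not_mem_nil, or_false] at hx
    exact ⟨v, hx⟩
  · rintro ⟨v, hx⟩
    refine ⟨_, ⟨v, rfl⟩, ?_⟩
    simp only [List.mem_cons, List.not_mem_nil, or_false]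
    exact hx

private lemma len_EE {V : Type} (J : Finset V) (a a' : {v // v ∈ J} → {x // x ∉ J}) :
    (EE J a a').length = 2 * J.card := by
  unfold EE
  simp only [List.length_append, List.length_map, Finset.length_toList, Finset.card_univ,
    Fintype.card_coe]
  omega

private lemma len_fl {V : Type} (J : Finset V) (a a' : {v // v ∈ J} → {x // x ∉ J}) :
    ((BB J a a').flatten).length = 3 * J.card := by
  have : ∀ L : List {v // v ∈ J},
      ((L.map (fun v => [(a v).1, v.1, (a' v).1])).flatten).length = 3 * L.length := by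
    intro L
    induction L with
    | nil => simp
    | cons v L ih =>
      simp only [List.map_cons, List.flatten_cons, List.length_append, ih, List.length_cons,
        List.length_nil]
      omega
  unfold BB
  rw [this, Finset.length_toList, Finset.card_univ, Fintype.card_coe]

private lemma nd_fl {V : Type} (J : Finset V) (a a' : {v // v ∈ J} → {x // x ∉ J})
    (ha : Function.Injective a) (ha' : Function.Injective a') (hd : ∀ v w, a v ≠ a' w) :
    ((BB J a a').flatten).Nodup := by
  have hJ : ∀ (v w : {v // v ∈ J}) (b : {v // v ∈ J} → {x // x ∉ J}), (b w).1 ≠ v.1 :=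
    fun v w b h => (b w).2 (h ▸ v.2)
  rw [List.nodup_flatten]
  constructor
  · intro B hB
    obtain ⟨v, rfl⟩ := (mem_BB J a a' B).mp hB
    simp only [List.nodup_cons, List.mem_cons, List.not_mem_nil, or_false, not_or,
      List.nodup_nil, and_true, not_false_eq_true]
    exact ⟨⟨hJ v v a, fun h => hd v v (Subtype.ext h)⟩, fun h => hJ v v a' h.symm⟩
  · unfold BB
    rw [List.pairwise_map]
    refine List.Pairwise.imp ?_ (Finset.nodup_toList _)
    intro v w hvw x hx hy
    simp only [List.mem_cons, List.not_mem_nil, or_false] at hx hy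
    rcases hx with rfl | rfl | rfl
    · rcases hy with h | h | h
      · exact hvw (ha (Subtype.ext h))
      · exact hJ w v a h
      · exact hd v w (Subtype.ext h)
    · rcases hy with h | h | h
      · exact hJ v w a h.symm
      · exact hvw (Subtype.ext h)
      · exact hJ v w a' h.symm
    · rcases hy with h | h | h
      · exact hd w v (Subtype.ext h.symm)
      · exact hJ w v a' h
      · exact hvw (ha' (Subtype.ext h))

private lemma gs_le {V : Type} [Fintype V] [DecidableEq V] (F : Finset (Finset V)) (J : Finset V)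
    (a a' : {v // v ∈ J} → {x // x ∉ J}) (x : V) :
    gs F J (EE J a a') x ≤ Sy F J a x + Sy F J a' x := by
  unfold gs Sy ch
  rw [← Finset.sum_add_distrib]
  have hsub : (univ.filter (fun y => y ∉ J ∧ Gs F (EE J a a') x y)) ⊆
      (univ : Finset {v // v ∈ J}).biUnion (fun v =>
        (univ.filter (fun t => t ∉ J ∧ ({v.1, (a v).1, x, t} : Finset V) ∈ F)) ∪
        (univ.filter (fun t => t ∉ J ∧ ({v.1, (a' v).1, x, t} : Finset V) ∈ F))) := by
    intro y hy
    obtain ⟨hyJ, e, he, hc⟩ := (Finset.mem_filter.mp hy).2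
    obtain ⟨v, rfl | rfl⟩ := (mem_EE J a a' e).mp he
    · refine Finset.mem_biUnion.mpr ⟨v, Finset.mem_univ _, Finset.mem_union_left _ ?_⟩
      refine Finset.mem_filter.mpr ⟨Finset.mem_univ _, hyJ, ?_⟩
      have : ({v.1, (a v).1, x, y} : Finset V) = {(a v).1, v.1, x, y} := Finset.insert_comm _ _ _
      rw [this]; exact hc
    · refine Finset.mem_biUnion.mpr ⟨v, Finset.mem_univ _, Finset.mem_union_right _ ?_⟩
      exact Finset.mem_filter.mpr ⟨Finset.mem_univ _, hyJ, hc⟩
  refine (Finset.card_le_card hsub).trans (Finset.card_biUnion_le.trans ?_)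
  exact Finset.sum_le_sum fun v _ => Finset.card_union_le _ _

theorem tOsC : S_Pe → S_Sum → S_OsC := by
  intro hPe hSum γ δ ε hγ hγ1 hδ hδ1 hε hε1
  have hK : (1 : ℝ) ≤ 6 / ε + 128 / γ + 10 := by
    have h1 : 0 < 6 / ε := by positivity
    have h2 : 0 < 128 / γ := by positivity
    linarith
  obtain ⟨η, hη, n0', hPe⟩ := hPe (δ / 4) (6 / ε + 128 / γ + 10) (by linarith) (by linarith) hK
  refine ⟨η, hη, ?_⟩
  intro ε' hε' hε'2
  refine ⟨n0' + ⌈6 / ε + 2 / ε'⌉₊ + 3, ?_⟩
  intro V _ _ F hU hn h2F ⟨a, a', hP⟩
  obtain ⟨J, hJ⟩ : ∃ J, J = He F ε := ⟨_, rfl⟩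
  revert a a'
  rw [← hJ]
  intro a a' hP
  obtain ⟨-, -, hs3⟩ := hSum V F hU
  obtain ⟨n, hnn⟩ : ∃ n, n = Fintype.card V := ⟨_, rfl⟩
  rw [← hnn] at hn h2F
  simp only [← hnn] at hs3
  have hn0 : (0 : ℝ) < n := by
    have : 0 < n := by omega
    exact_mod_cast this
  have hn2 : (0 : ℝ) < (n : ℝ) ^ 2 := by positivity
  have h2Fr : 2 * (F.card : ℝ) ≤ (n : ℝ) ^ 2 := by exact_mod_cast h2F
  have hHe : ∀ e : ℝ, 0 < e → ((He F e).card : ℝ) ≤ 2 / e := by
    intro e he
    have h1 := hs3 e
    rw [le_div_iff₀ he]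
    have h2 : ((He F e).card : ℝ) * e * (n : ℝ) ^ 2 ≤ 2 * (n : ℝ) ^ 2 := by nlinarith
    exact le_of_mul_le_mul_right h2 hn2
  have hJc : (J.card : ℝ) ≤ 2 / ε := hJ ▸ hHe ε hε
  have hH'c := hHe ε' hε'
  have hbig : 6 / ε + 2 / ε' + 2 < (n : ℝ) := by
    have h1 : (⌈6 / ε + 2 / ε'⌉₊ : ℝ) + 3 ≤ n := by
      have : ⌈6 / ε + 2 / ε'⌉₊ + 3 ≤ n := by omega
      exact_mod_cast this
    have h2 := Nat.le_ceil (6 / ε + 2 / ε')
    linarith
  have h6 : 3 * (2 / ε) = 6 / ε := by ring
  -- degrees
  have hdJ : ∀ x, x ∉ J → (dg F {x} : ℝ) < ε * (n : ℝ) ^ 2 := by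
    intro x hx
    by_contra hc
    apply hx
    rw [hJ]
    refine Finset.mem_filter.mpr ⟨Finset.mem_univ _, ?_⟩
    rw [← hnn]
    exact not_lt.mp hc
  obtain ⟨hmix, ha, ha', haa, hch⟩ := hP
  have g0 := hmix ∅
  have g1 := hmix univ
  simp only [Finset.notMem_empty, if_false, Finset.mem_univ, if_true] at g0 g1
  -- the two end points
  obtain ⟨U, hUdef⟩ : ∃ U : Finset V, U = J ∪ (univ.image (fun v => (a v).1)) ∪
    (univ.image (fun v => (a' v).1)) ∪ He F ε' := ⟨_, rfl⟩
  have hUc : U.card ≤ J.card + J.card + J.card + (He F ε').card := by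
    rw [hUdef]
    refine (Finset.card_union_le _ _).trans (Nat.add_le_add_right ?_ _)
    refine (Finset.card_union_le _ _).trans (Nat.add_le_add ?_ ?_)
    · refine (Finset.card_union_le _ _).trans (Nat.add_le_add_left ?_ _)
      refine Finset.card_image_le.trans (le_of_eq ?_)
      rw [Finset.card_univ, Fintype.card_coe]
    · refine Finset.card_image_le.trans (le_of_eq ?_)
      rw [Finset.card_univ, Fintype.card_coe]
  have hUr : (U.card : ℝ) + 1 < n := by
    have : (U.card : ℝ) ≤ J.card + J.card + J.card + (He F ε').card := by exact_mod_cast hUc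
    linarith
  have hUn : U.card + 1 < Fintype.card V := by
    rw [← hnn]; exact_mod_cast hUr
  obtain ⟨s, hs⟩ := ex_out U (by omega)
  obtain ⟨t, ht⟩ := ex_out (insert s U) (by
    have := Finset.card_insert_le s U
    omega)
  have hts : t ≠ s := fun h => ht (h ▸ Finset.mem_insert_self _ _)
  have htU : t ∉ U := fun h => ht (Finset.mem_insert_of_mem h)
  have hout : ∀ x, x ∉ U → x ∉ J ∧ (∀ v, x ≠ (a v).1) ∧ (∀ v, x ≠ (a' v).1) ∧
      (dg F {x} : ℝ) ≤ ε' * (n : ℝ) ^ 2 := by
    intro x hx
    rw [hUdef] at hx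
    simp only [Finset.mem_union, not_or, Finset.mem_image, Finset.mem_univ, true_and,
      not_exists] at hx
    obtain ⟨⟨⟨x1, x2⟩, x3⟩, x4⟩ := hx
    refine ⟨x1, fun v h => x2 v h.symm, fun v h => x3 v h.symm, ?_⟩
    by_contra hc
    apply x4
    refine Finset.mem_filter.mpr ⟨Finset.mem_univ _, ?_⟩
    rw [← hnn]
    exact (not_le.mp hc).le
  have hnf : ∀ x, x ∉ U → x ∉ (BB J a a').flatten := by
    intro x hx hm
    obtain ⟨v, h | h | h⟩ := (mem_fl J a a' x).mp hm
    · exact (hout x hx).2.1 v h
    · exact (hout x hx).1 (h ▸ v.2)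
    · exact (hout x hx).2.2.1 v h
  -- conflicts
  have hz : ∀ S : Finset {v // v ∈ J}, ∀ v w : {v // v ∈ J}, v ≠ w →
      ({v.1, ((if v ∈ S then a' v else a v) : {x // x ∉ J}).1, w.1,
        ((if w ∈ S then a' w else a w) : {x // x ∉ J}).1} : Finset V) ∉ F := by
    intro S v w hvw
    exact (hmix S).1.2 v w hvw
  have z00 : ∀ v w : {v // v ∈ J}, v ≠ w → ({v.1, (a v).1, w.1, (a w).1} : Finset V) ∉ F := by
    intro v w hvw
    have := hz ∅ v w hvw
    simpa using this
  have z11 : ∀ v w : {v // v ∈ J}, v ≠ w → ({v.1, (a' v).1, w.1, (a' w).1} : Finset V) ∉ F := by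
    intro v w hvw
    have := hz univ v w hvw
    simpa using this
  have z10 : ∀ v w : {v // v ∈ J}, v ≠ w → ({v.1, (a' v).1, w.1, (a w).1} : Finset V) ∉ F := by
    intro v w hvw
    have := hz {v} v w hvw
    rw [if_pos (Finset.mem_singleton_self v),
      if_neg (fun h => hvw (Finset.mem_singleton.mp h).symm)] at this
    exact this
  have hc0 : ∀ e ∈ EE J a a', ∀ f ∈ EE J a a', ¬ Cf F e f := by
    intro e he f hf hc
    unfold Cf at hc
    obtain ⟨v, rfl | rfl⟩ := (mem_EE J a a' e).mp he <;>
      obtain ⟨w, rfl | rfl⟩ := (mem_EE J a a' f).mp hf <;>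
      simp only at hc <;>
      by_cases hvw : v = w
    · subst hvw; exact (ne4 hU hc).1 rfl
    · refine z00 v w hvw ?_
      have : ({v.1, (a v).1, w.1, (a w).1} : Finset V) = {(a v).1, v.1, (a w).1, w.1} := by
        ext x; simp only [Finset.mem_insert, Finset.mem_singleton]; tauto
      rw [this]; exact hc
    · subst hvw; exact (ne4 hU hc).2.1 rfl
    · refine z10 w v (Ne.symm hvw) ?_
      have : ({w.1, (a' w).1, v.1, (a v).1} : Finset V) = {(a v).1, v.1, w.1, (a' w).1} := by
        ext x; simp only [Finset.mem_insert, Finset.mem_singleton]; tauto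
      rw [this]; exact hc
    · subst hvw; exact (ne4 hU hc).2.2 rfl
    · refine z10 v w hvw ?_
      have : ({v.1, (a' v).1, w.1, (a w).1} : Finset V) = {v.1, (a' v).1, (a w).1, w.1} := by
        ext x; simp only [Finset.mem_insert, Finset.mem_singleton]; tauto
      rw [this]; exact hc
    · subst hvw; exact (ne4 hU hc).1 rfl
    · exact z11 v w hvw hc
  -- degrees again
  have hoff : ∀ x, (dg (off F J) {x} : ℝ) ≤ dg F {x} := fun x => by
    exact_mod_cast dg_off F J {x}
  have hgs : ∀ x, (gs F J (EE J a a') x : ℝ) ≤ Sy F J a x + Sy F J a' x := fun x => by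
    exact_mod_cast gs_le F J a a' x
  obtain ⟨-, p2, p3, p4, p5⟩ := g0
  obtain ⟨-, q2, q3, q4, q5⟩ := g1
  rw [← hnn] at p2 p3 p4 p5 q2 q3 q4 q5 hch
  have hηn : ε' * (n : ℝ) ^ 2 ≤ η * (n : ℝ) ^ 2 := mul_le_mul_of_nonneg_right hε'2 hn2.le
  have hδn : 0 < δ * (n : ℝ) := mul_pos hδ hn0
  have hδn1 : δ * (n : ℝ) ≤ 1 / 500 * n := mul_le_mul_of_nonneg_right hδ1 hn0.le
  have hεn : ε * (n : ℝ) ^ 2 ≤ 1 / 200000 * (n : ℝ) ^ 2 :=
    mul_le_mul_of_nonneg_right hε1 hn2.le
  obtain ⟨l, l1, l2, -, -, l3, -⟩ := hPe V F J (EE J a a') [s] [t] (BB J a a')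
    (by rw [← hnn]; omega)
    { u4 := hU
      nz := ⟨by simp, by simp, by
        intro B hB
        obtain ⟨v, rfl⟩ := (mem_BB J a a' B).mp hB
        simp⟩
      nd := by
        rw [List.singleton_append, List.nodup_cons, List.mem_append, List.mem_singleton,
          not_or]
        refine ⟨⟨hnf s hs, fun h => hts h.symm⟩, ?_⟩
        rw [List.nodup_append]
        refine ⟨nd_fl J a a' ha ha' haa, by simp, ?_⟩
        intro x hx y hy h
        rw [List.mem_singleton] at hy
        subst h
        subst hy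
        exact hnf _ htU hx
      len := by
        constructor
        · rw [List.length_append, List.length_append, len_fl]
          simp only [List.length_singleton]
          push_cast
          have h2 : 0 < 128 / γ := by positivity
          linarith
        · rw [len_EE]
          push_cast
          have h2 : 0 < 128 / γ := by positivity
          have h3 : 0 < 2 / ε := by positivity
          linarith
      jb := by
        intro x hx
        refine List.mem_append_right _ (List.mem_append_left _ ?_)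
        exact (mem_fl J a a' x).mpr ⟨⟨x, hx⟩, Or.inr (Or.inl rfl)⟩
      es := by
        refine ⟨?_, ?_, ?_⟩
        · intro e he
          simp [eds] at he
        · intro e he
          simp [eds] at he
        · intro B hB e he
          obtain ⟨v, rfl⟩ := (mem_BB J a a' B).mp hB
          simp only [eds, List.tail_cons, List.zip_cons_cons, List.zip_nil_right,
            List.mem_cons, List.not_mem_nil, or_false] at he
          exact (mem_EE J a a' e).mpr ⟨v, he⟩
      ends := by
        intro x hx
        rw [← hnn]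
        have key : x ∉ J ∧ (dg F {x} : ℝ) ≤ ε' * (n : ℝ) ^ 2 := by
          rcases hx with h | h | ⟨B, hB, h⟩
          · simp only [List.getLast?_singleton, Option.some.injEq] at h
            subst h
            exact ⟨(hout _ hs).1, (hout _ hs).2.2.2⟩
          · simp only [List.head?_cons, Option.some.injEq] at h
            subst h
            exact ⟨(hout _ htU).1, (hout _ htU).2.2.2⟩
          · obtain ⟨v, rfl⟩ := (mem_BB J a a' B).mp hB
            rcases h with h | h
            · simp only [List.head?_cons, Option.some.injEq] at h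
              subst h
              exact ⟨(a v).2, p5 v⟩
            · simp only [List.getLast?_cons_cons, List.getLast?_singleton,
                Option.some.injEq] at h
              subst h
              exact ⟨(a' v).2, q5 v⟩
        exact ⟨key.1, (hoff x).trans (key.2.trans hηn)⟩
      c0 := hc0
      c1 := by
        intro x hx
        rw [← hnn]
        have h1 := hdJ x hx
        have h2 := hoff x
        have h3 : (200000 * dg (off F J) {x} : ℝ) ≤ (n : ℝ) ^ 2 := by linarith
        exact_mod_cast h3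
      c2 := by
        intro x hx _
        rw [← hnn]
        refine (hgs x).trans ?_
        by_cases h : (dg F {x} : ℝ) ≤ ε' * (n : ℝ) ^ 2
        · rcases hch x hx h with h' | h'
          · have := q2 x hx
            linarith
          · have := p2 x hx
            linarith
        · have h1 := p3 x hx (not_le.mp h)
          have h2 := q3 x hx (not_le.mp h)
          linarith
      c2m := by
        intro x hx h
        rw [← hnn] at h ⊢
        have h0 : ε' * (n : ℝ) ^ 2 < dg F {x} := lt_of_le_of_lt hηn (lt_of_lt_of_le h (hoff x))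
        have h1 := p3 x hx h0
        have h2 := q3 x hx h0
        have h3 := hgs x
        have h4 : (2000 * gs F J (EE J a a') x : ℝ) ≤ n := by linarith
        exact_mod_cast h4
      c3 := by
        rw [← hnn]
        refine (Finset.sum_le_sum fun x _ => hgs x).trans ?_
        rw [Finset.sum_add_distrib]
        have h1 : 0 < 6 / ε * (n : ℝ) := by positivity
        have h2 : 64 / γ * (n : ℝ) + 64 / γ * n = 128 / γ * n := by ring
        linarith
      c4 := by
        rw [← hnn]
        have : (off F J).card ≤ F.card := Finset.card_le_card (Finset.filter_subset _ _)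
        omega }
  exact ⟨l, l1, l2, l3⟩

end Pool.Agent.Ham
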