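import Pool.Agent.Lib.MP_716318_co.H.Spec1

/-!
# MP_716318_co, package H: the path embedding theorem (`S_Pe`)
-/

set_option autoImplicit false

namespace Pool.Agent.Ham

open Finset
open scoped Classical

private theorem pe_eds_cons {V : Type} (a b : V) (t : List V) :
    eds (a :: b :: t) = (a, b) :: eds (b :: t) := rfl

private theorem pe_eds_append {V : Type} (c : V) (m : List V) :
    ∀ (l : List V) (x : V), l.getLast? = some x → ∀ p ∈ eds (l ++ c :: m),
      p ∈ eds l ∨ p = (x, c) ∨ p ∈ eds (c :: m) := by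
  intro l
  induction l with
  | nil => intro x hx; simp at hx
  | cons a t ih =>
    intro x hx p hp
    cases t with
    | nil =>
      simp only [List.getLast?_singleton, Option.some.injEq] at hx
      subst hx
      rw [List.singleton_append, pe_eds_cons, List.mem_cons] at hp
      rcases hp with h | h
      · exact Or.inr (Or.inl h)
      · exact Or.inr (Or.inr h)
    | cons b t =>
      have hx' : (b :: t).getLast? = some x := by
        rw [← hx, List.getLast?_cons_cons]
      rw [List.cons_append, List.cons_append, pe_eds_cons, List.mem_cons] at hp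
      rcases hp with h | h
      · left; rw [pe_eds_cons, h]; exact List.mem_cons_self
      · rcases ih x hx' p (by rw [List.cons_append]; exact h) with h1 | h1 | h1
        · left; rw [pe_eds_cons]; exact List.mem_cons_of_mem _ h1
        · exact Or.inr (Or.inl h1)
        · exact Or.inr (Or.inr h1)

private theorem pe_cf_symm {V : Type} [DecidableEq V] (F : Finset (Finset V)) (e f : V × V)
    (h : Cf F e f) : Cf F f e := by
  unfold Cf at *
  have : ({f.1, f.2, e.1, e.2} : Finset V) = {e.1, e.2, f.1, f.2} := by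
    ext z; simp only [Finset.mem_insert, Finset.mem_singleton]; tauto
  rw [this]; exact h

private theorem pe_gs_symm {V : Type} [DecidableEq V] (F : Finset (Finset V))
    (L : List (V × V)) (a b : V) (h : Gs F L a b) : Gs F L b a := by
  obtain ⟨e, he, hc⟩ := h
  refine ⟨e, he, ?_⟩
  unfold Cf at *
  have : ({e.1, e.2, b, a} : Finset V) = {e.1, e.2, a, b} := by
    ext z; simp only [Finset.mem_insert, Finset.mem_singleton]; tauto
  change ({e.1, e.2, b, a} : Finset V) ∈ F
  rw [this]; exact hc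

/-- Elements of `Q` outside `U`. -/
private theorem pe_card {V : Type} [DecidableEq V] (U : Finset V) (P Q : List V)
    (m : ℕ) (hP : P.Nodup) (hQ : Q.Nodup) (hPQ : ∀ z ∈ P, z ∈ Q) (hPU : ∀ z ∈ P, z ∈ U)
    (hl : Q.length ≤ P.length + 2 * m) : (U ∪ Q.toFinset).card ≤ U.card + 2 * m := by
  have h1 : (U ∪ Q.toFinset).card = U.card + (Q.toFinset \ U).card := by
    rw [← Finset.union_sdiff_self_eq_union, Finset.card_union_of_disjoint]
    exact Finset.disjoint_sdiff
  have h2 : (Q.toFinset \ U) ⊆ Q.toFinset \ P.toFinset := by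
    intro z hz
    rw [Finset.mem_sdiff] at hz ⊢
    exact ⟨hz.1, fun h => hz.2 (hPU z (List.mem_toFinset.1 h))⟩
  have h3 : P.toFinset ⊆ Q.toFinset := by
    intro z hz
    exact List.mem_toFinset.2 (hPQ z (List.mem_toFinset.1 hz))
  have h4 : (Q.toFinset \ P.toFinset).card = Q.toFinset.card - P.toFinset.card :=
    Finset.card_sdiff_of_subset h3
  have h5 : Q.toFinset.card = Q.length := List.toFinset_card_of_nodup hQ
  have h6 : P.toFinset.card = P.length := List.toFinset_card_of_nodup hP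
  have h7 := Finset.card_le_card h2
  omega

private theorem pe_flat {V : Type} (Y : List V) : (Y.map (fun y => [y])).flatten = Y := by
  induction Y with
  | nil => rfl
  | cons a t ih => rw [List.map_cons, List.flatten_cons, ih]; rfl

/-- The links. -/
private theorem pe_links (hExt : S_Ext) (hChain : S_Chain) {V : Type} [Fintype V] [DecidableEq V]
    (F : Finset (Finset V)) (J U Y : Finset V) (Es : List (V × V)) (B0 B1 : List V)
    (Bs : List (List V)) (T D g0 g1 : ℝ) (hU4 : U4 F) (hT : 0 < T) (hg0 : 0 ≤ g0) (hg1 : 0 ≤ g1)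
    (hD : 0 ≤ D) (hJU : J ⊆ U) (hB0 : B0 ≠ []) (hB1 : B1 ≠ []) (hBs : ∀ B ∈ Bs, B ≠ [])
    (hnd : (B0 ++ (Bs.flatten ++ B1)).Nodup)
    (hYb : ∀ y ∈ Y, y ∉ B0 ++ (Bs.flatten ++ B1))
    (hbU : ∀ x ∈ B0 ++ (Bs.flatten ++ B1), x ∈ U) (hYU : Y ⊆ U)
    (he0 : ∀ e ∈ eds B0, e ∈ Es) (heB : ∀ B ∈ Bs, ∀ e ∈ eds B, e ∈ Es)
    (hopE : ∀ x, (B0.getLast? = some x ∨ B1.head? = some x ∨
      ∃ B ∈ Bs, B.head? = some x ∨ B.getLast? = some x) → Op F J Es D g0 x)
    (hopY : ∀ y ∈ Y, Op F J Es D g0 y)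
    (hopU : ∀ c, c ∉ U → Op F J Es D g1 c) (m : ℕ) (hm : m = Bs.length + Y.card)
    (hnum : (U.card : ℝ) + 2 * m + 2 + g0 + g1 + 6 * D / T + 2 * (3 * m + 1) * T
      < Fintype.card V) :
    ∃ (Q : List V) (Lk : List (V × V)) (p q x x' : V), B0 <+: Q ∧ Q.Nodup ∧
      (∀ z ∈ Q, z ∈ B0 ++ (Bs.flatten ++ Y.toList) ∨ z ∉ U) ∧
      (∀ z ∈ Bs.flatten ++ Y.toList, z ∈ Q) ∧
      (∀ e ∈ eds Q, e ∈ Es ∨ e ∈ Lk) ∧ (x, p) ∈ Lk ∧ (q, x') ∈ Lk ∧ Q.getLast? = some x ∧
      B1.head? = some x' ∧ Gd F J Es T Lk ∧ Lk.length ≤ 3 * m + 2 ∧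
      Q.length ≤ B0.length + Bs.flatten.length + Y.card + 2 * m ∧ p ∉ U ∧ p ∉ Q ∧
      q ∉ U ∧ q ∉ Q ∧ p ≠ q := by
  have hfl : (Bs ++ Y.toList.map (fun y => [y])).flatten = Bs.flatten ++ Y.toList := by
    rw [List.flatten_append, pe_flat]
  have hlen : (Bs ++ Y.toList.map (fun y => [y])).length = m := by
    rw [List.length_append, List.length_map, Finset.length_toList, hm]
  have hbm : ∀ z ∈ B0 ++ (Bs.flatten ++ Y.toList), z ∈ U := by
    intro z hz
    rw [List.mem_append, List.mem_append] at hz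
    rcases hz with h | h | h
    · exact hbU z (List.mem_append_left _ h)
    · exact hbU z (List.mem_append_right _ (List.mem_append_left _ h))
    · exact hYU (Finset.mem_toList.1 h)
  have hnd' : (B0 ++ (Bs.flatten ++ Y.toList)).Nodup := by
    rw [List.nodup_append] at hnd ⊢
    obtain ⟨h0, h1, h2⟩ := hnd
    rw [List.nodup_append] at h1
    refine ⟨h0, ?_, ?_⟩
    · rw [List.nodup_append]
      refine ⟨h1.1, Finset.nodup_toList _, ?_⟩
      intro a ha b hb hab
      subst hab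
      exact hYb a (Finset.mem_toList.1 hb) (List.mem_append_right _ (List.mem_append_left _ ha))
    · intro a ha b hb hab
      subst hab
      rcases List.mem_append.1 hb with h | h
      · exact h2 a ha a (List.mem_append_left _ h) rfl
      · exact hYb a (Finset.mem_toList.1 h) (List.mem_append_left _ ha)
  have hmR : (0 : ℝ) ≤ m := Nat.cast_nonneg _
  have hDT : 0 ≤ D / T := div_nonneg hD hT.le
  have h6 : 6 * D / T = 6 * (D / T) := by ring
  have h3 : 3 * D / T = 3 * (D / T) := by ring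
  have hmT : 0 ≤ m * T := mul_nonneg hmR hT.le
  rw [h6] at hnum
  obtain ⟨Q, Lk, hpre, hQnd, hQm, hQf, hQe, hGd, hLl, hQl, x, hx, hxop⟩ :=
    hChain V F J U Es T D g0 g1 B0 (Bs ++ Y.toList.map (fun y => [y])) hU4 hT hg0 hg1 hD hJU hB0
      (by rw [hfl]; exact hnd') (by rw [hfl]; exact hbm)
      (by
        intro B hB
        rcases List.mem_append.1 hB with h | h
        · exact hBs B h
        · obtain ⟨y, -, rfl⟩ := List.mem_map.1 h
          simp)
      he0
      (by
        intro B hB e he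
        rcases List.mem_append.1 hB with h | h
        · exact heB B h e he
        · obtain ⟨y, -, rfl⟩ := List.mem_map.1 h
          simp [eds] at he)
      (fun x hx => hopE x (Or.inl hx))
      (by
        intro B hB x hx
        rcases List.mem_append.1 hB with h | h
        · exact hopE x (Or.inr (Or.inr ⟨B, h, hx⟩))
        · obtain ⟨y, hy, rfl⟩ := List.mem_map.1 h
          simp only [List.head?_cons, List.getLast?_singleton, Option.some.injEq, or_self] at hx
          subst hx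
          exact hopY y (Finset.mem_toList.1 hy))
      hopU (by rw [hlen, h6]; nlinarith)
  rw [hfl] at hQm hQf hQl
  rw [hlen] at hLl hQl
  have hQ0sub : ∀ z ∈ B0 ++ (Bs.flatten ++ Y.toList), z ∈ Q := by
    intro z hz
    rcases List.mem_append.1 hz with h | h
    · exact hpre.subset h
    · exact hQf z h
  have hcard : ((U ∪ Q.toFinset).card : ℝ) ≤ U.card + 2 * m := by
    exact_mod_cast pe_card U (B0 ++ (Bs.flatten ++ Y.toList)) Q m hnd' hQnd hQ0sub hbm hQl
  have hLlR : (Lk.length : ℝ) ≤ 3 * m := by exact_mod_cast hLl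
  have hLT : (Lk.length : ℝ) * T ≤ 3 * m * T := mul_le_mul_of_nonneg_right hLlR hT.le
  obtain ⟨p, hp, hG1, -⟩ := hExt V F J (U ∪ Q.toFinset) Es Lk T D g0 x hU4 hT hGd
    (hJU.trans Finset.subset_union_left) hxop (by rw [h3]; nlinarith)
  obtain ⟨x', B1', hB1'⟩ := List.exists_cons_of_ne_nil hB1
  have hx' : B1.head? = some x' := by rw [hB1']; rfl
  have hcard2 : ((insert p (U ∪ Q.toFinset)).card : ℝ) ≤ U.card + 2 * m + 1 := by
    have := Finset.card_insert_le p (U ∪ Q.toFinset)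
    have h' : ((insert p (U ∪ Q.toFinset)).card : ℝ) ≤ (U ∪ Q.toFinset).card + 1 := by
      exact_mod_cast this
    linarith
  obtain ⟨q, hq, -, hG2⟩ := hExt V F J (insert p (U ∪ Q.toFinset)) Es ((x, p) :: Lk) T D g0 x' hU4
    hT hG1 ((hJU.trans Finset.subset_union_left).trans (Finset.subset_insert _ _))
    (hopE x' (Or.inr (Or.inl hx')))
    (by
      rw [h3, List.length_cons]
      push_cast
      nlinarith)
  rw [Finset.mem_union, not_or, List.mem_toFinset] at hp
  rw [Finset.mem_insert, not_or, Finset.mem_union, not_or, List.mem_toFinset] at hq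
  refine ⟨Q, (q, x') :: (x, p) :: Lk, p, q, x, x', hpre, hQnd, hQm, hQf, ?_, ?_, ?_, hx, hx', hG2,
    ?_, ?_, hp.1, hp.2, hq.2.1, hq.2.2, fun h => hq.1 h.symm⟩
  · intro e he
    rcases hQe e he with h | h
    · exact Or.inl h
    · exact Or.inr (List.mem_cons_of_mem _ (List.mem_cons_of_mem _ h))
  · exact List.mem_cons_of_mem _ List.mem_cons_self
  · exact List.mem_cons_self
  · simp only [List.length_cons]; omega
  · simp only [List.length_append, Finset.length_toList] at hQl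
    omega

/-- The number of forbidden neighbours in `W`. -/
private theorem pe_deg {V : Type} [Fintype V] [DecidableEq V] (F : Finset (Finset V))
    (J W : Finset V) (Es Lk : List (V × V)) (T : ℝ) (hT : 0 ≤ T) (hGd : Gd F J Es T Lk) (x : V)
    (hx : x ∉ J) (hW : ∀ y ∈ W, y ∉ J) :
    ((W.filter (fun y => Gs F (Es ++ Lk) x y)).card : ℝ) ≤ gs F J Es x + Lk.length * T := by
  have hsub : W.filter (fun y => Gs F (Es ++ Lk) x y) ⊆
      (univ.filter (fun y => y ∉ J ∧ Gs F Es x y)) ∪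
      Lk.toFinset.biUnion (fun e => univ.filter
        (fun t => ({e.1, e.2, x, t} : Finset V) ∈ off F J)) := by
    intro y hy
    rw [Finset.mem_filter] at hy
    obtain ⟨hyW, e, he, hcf⟩ := hy
    have hyJ := hW y hyW
    rw [Finset.mem_union]
    rcases List.mem_append.1 he with h | h
    · left
      rw [Finset.mem_filter]
      exact ⟨Finset.mem_univ _, hyJ, e, h, hcf⟩
    · right
      rw [Finset.mem_biUnion]
      refine ⟨e, List.mem_toFinset.2 h, ?_⟩
      rw [Finset.mem_filter]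
      refine ⟨Finset.mem_univ _, ?_⟩
      unfold off
      rw [Finset.mem_filter]
      refine ⟨hcf, ?_⟩
      have he' := hGd.1 e h
      rw [Finset.disjoint_left]
      intro z hz
      simp only [Finset.mem_insert, Finset.mem_singleton] at hz
      rcases hz with h | h | h | h
      · rw [h]; exact he'.1
      · rw [h]; exact he'.2.1
      · rw [h]; exact hx
      · rw [h]; exact hyJ
  have h1 := (Finset.card_le_card hsub).trans (Finset.card_union_le _ _)
  have h2 : (Lk.toFinset.biUnion (fun e => univ.filter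
        (fun t => ({e.1, e.2, x, t} : Finset V) ∈ off F J))).card ≤
      ∑ e ∈ Lk.toFinset, c3 (off F J) e.1 e.2 x := Finset.card_biUnion_le
  have h3 : (∑ e ∈ Lk.toFinset, (c3 (off F J) e.1 e.2 x : ℝ)) ≤ Lk.toFinset.card * T := by
    rw [← nsmul_eq_mul]
    exact Finset.sum_le_card_nsmul _ _ _
      (fun e he => (hGd.1 e (List.mem_toFinset.1 he)).2.2.2 x)
  have h4 : (Lk.toFinset.card : ℝ) * T ≤ Lk.length * T :=
    mul_le_mul_of_nonneg_right (by exact_mod_cast List.toFinset_card_le Lk) hT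
  have h5 : (univ.filter (fun y => y ∉ J ∧ Gs F Es x y)).card = gs F J Es x := rfl
  rw [h5] at h1
  have h6 : (W.filter (fun y => Gs F (Es ++ Lk) x y)).card ≤
      gs F J Es x + ∑ e ∈ Lk.toFinset, c3 (off F J) e.1 e.2 x :=
    h1.trans (Nat.add_le_add_left h2 _)
  have h7 : ((W.filter (fun y => Gs F (Es ++ Lk) x y)).card : ℝ) ≤
      gs F J Es x + ∑ e ∈ Lk.toFinset, (c3 (off F J) e.1 e.2 x : ℝ) := by
    exact_mod_cast h6
  linarith

/-- Few vertices of large degree. -/
private theorem pe_heavy {V : Type} [Fintype V] [DecidableEq V] (F : Finset (Finset V))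
    (h4 : U4 F) (D : ℝ) :
    ((univ.filter (fun x => D < (dg F {x} : ℝ))).card : ℝ) * D ≤ 4 * F.card := by
  have h1 : (∑ x : V, dg F {x}) = 4 * F.card := by
    have h2 : ∀ x : V, dg F {x} = ∑ A ∈ F, if x ∈ A then 1 else 0 := by
      intro x
      unfold dg
      rw [Finset.card_filter]
      refine Finset.sum_congr rfl (fun A _ => ?_)
      simp only [Finset.singleton_subset_iff]
    rw [Finset.sum_congr rfl (fun x _ => h2 x), Finset.sum_comm]
    have h3 : ∀ A ∈ F, (∑ x : V, if x ∈ A then 1 else 0) = 4 := by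
      intro A hA
      rw [← Finset.card_filter, ← h4 A hA]
      congr 1
      ext z; simp
    rw [Finset.sum_congr rfl h3, Finset.sum_const, smul_eq_mul, mul_comm]
  have h2 : ((univ.filter (fun x => D < (dg F {x} : ℝ))).card : ℝ) * D ≤
      ∑ x ∈ univ.filter (fun x => D < (dg F {x} : ℝ)), (dg F {x} : ℝ) := by
    rw [← nsmul_eq_mul]
    exact Finset.card_nsmul_le_sum _ _ _ (fun x hx => (Finset.mem_filter.1 hx).2.le)
  have h3 : (∑ x ∈ univ.filter (fun x => D < (dg F {x} : ℝ)), (dg F {x} : ℝ)) ≤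
      ∑ x : V, (dg F {x} : ℝ) :=
    Finset.sum_le_sum_of_subset_of_nonneg (Finset.filter_subset _ _)
      (fun _ _ _ => Nat.cast_nonneg _)
  have h5 : (∑ x : V, (dg F {x} : ℝ)) = 4 * F.card := by exact_mod_cast h1
  linarith

private theorem pe_len {V : Type} (Bs : List (List V)) (h : ∀ B ∈ Bs, B ≠ []) :
    Bs.length ≤ Bs.flatten.length := by
  induction Bs with
  | nil => simp
  | cons B t ih =>
    have h1 := ih (fun B' hB' => h B' (List.mem_cons_of_mem _ hB'))
    have h2 : 0 < B.length := List.length_pos_iff.2 (h B List.mem_cons_self)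
    rw [List.flatten_cons, List.length_append, List.length_cons]
    omega

/-- The assembly. -/
private theorem pe_final {V : Type} [DecidableEq V] (F : Finset (Finset V)) (U : Finset V)
    (Es Lk : List (V × V)) (B0 B1 Q Z l0 : List V) (p q x x' : V)
    (hpre : B0 <+: Q) (hQnd : Q.Nodup) (hQm : ∀ z ∈ Q, z ∈ Z ∨ z ∉ U)
    (hZB : ∀ z ∈ Z, z ∉ B1) (hB1U : ∀ z ∈ B1, z ∈ U) (hB1nd : B1.Nodup)
    (hQe : ∀ e ∈ eds Q, e ∈ Es ∨ e ∈ Lk) (hxp : (x, p) ∈ Lk) (hqx : (q, x') ∈ Lk)
    (hx : Q.getLast? = some x) (hx' : B1.head? = some x') (he1 : ∀ e ∈ eds B1, e ∈ Es)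
    (hpU : p ∉ U) (hpQ : p ∉ Q) (hqU : q ∉ U) (hqQ : q ∉ Q) (hpq : p ≠ q)
    (hl0nd : l0.Nodup) (hl0 : ∀ z, z ∈ l0 ↔ (z ∉ Q ∧ z ∉ B1 ∧ z ≠ p ∧ z ≠ q))
    (cEE : ∀ e ∈ Es, ∀ f ∈ Es, ¬ Cf F e f) (cEL : ∀ e ∈ Es, ∀ f ∈ Lk, ¬ Cf F e f)
    (cLL : ∀ e ∈ Lk, ∀ f ∈ Lk, ¬ Cf F e f)
    (cG : ∀ e ∈ eds (p :: (l0 ++ [q])), ¬ Gs F (Es ++ Lk) e.1 e.2)
    (cN : ∀ e ∈ eds (p :: (l0 ++ [q])), ∀ f ∈ eds (p :: (l0 ++ [q])), ¬ Cf F e f) :
    ∃ l : List V, l.Nodup ∧ (∀ x, x ∈ l) ∧ B0 <+: l ∧ B1 <:+ l ∧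
        (∀ e ∈ eds l, ∀ f ∈ eds l, ¬ Cf F e f) ∧ ∀ e ∈ eds l, ∀ f ∈ Es, ¬ Cf F e f := by
  have hmem : ∀ e ∈ eds (Q ++ p :: (l0 ++ q :: B1)),
      (e ∈ Es ∨ e ∈ Lk) ∨ e ∈ eds (p :: (l0 ++ [q])) := by
    intro e he
    rcases pe_eds_append p (l0 ++ q :: B1) Q x hx e he with h | h | h
    · exact Or.inl (hQe e h)
    · left; right; rw [h]; exact hxp
    · obtain ⟨c, B1', hB1'⟩ : ∃ c B1', B1 = c :: B1' := by
        cases B1 with
        | nil => simp at hx'
        | cons c B1' => exact ⟨c, B1', rfl⟩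
      have hc : c = x' := by
        rw [hB1'] at hx'
        simpa using hx'
      have h1 : p :: (l0 ++ q :: B1) = (p :: (l0 ++ [q])) ++ c :: B1' := by
        rw [hB1']; simp
      rw [h1] at h
      have h2 : (p :: (l0 ++ [q])).getLast? = some q := by
        rw [← List.cons_append, List.getLast?_append_of_ne_nil _ (by simp)]
        rfl
      rcases pe_eds_append c B1' _ q h2 e h with h3 | h3 | h3
      · exact Or.inr h3
      · left; right; rw [h3, hc]; exact hqx
      · left; left; rw [← hB1'] at h3; exact he1 e h3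
  have hold : ∀ e, (e ∈ Es ∨ e ∈ Lk) → ∀ f, (f ∈ Es ∨ f ∈ Lk) → ¬ Cf F e f := by
    intro e he f hf
    rcases he with he | he <;> rcases hf with hf | hf
    · exact cEE e he f hf
    · exact cEL e he f hf
    · exact fun h => cEL f hf e he (pe_cf_symm F e f h)
    · exact cLL e he f hf
  have hon : ∀ e, (e ∈ Es ∨ e ∈ Lk) → ∀ f ∈ eds (p :: (l0 ++ [q])), ¬ Cf F e f := by
    intro e he f hf h
    exact cG f hf ⟨e, List.mem_append.2 he, h⟩
  have hqB : q ∉ B1 := fun h => hqU (hB1U q h)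
  have hpB : p ∉ B1 := fun h => hpU (hB1U p h)
  refine ⟨Q ++ p :: (l0 ++ q :: B1), ?_, ?_, ?_, ?_, ?_, ?_⟩
  · rw [List.nodup_append]
    refine ⟨hQnd, ?_, ?_⟩
    · rw [List.nodup_cons]
      refine ⟨?_, ?_⟩
      · rw [List.mem_append, List.mem_cons]
        rintro (h | h | h)
        · exact ((hl0 p).1 h).2.2.1 rfl
        · exact hpq h
        · exact hpB h
      · rw [List.nodup_append]
        refine ⟨hl0nd, List.nodup_cons.2 ⟨hqB, hB1nd⟩, ?_⟩
        intro a ha b hb hab
        subst hab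
        have h1 := (hl0 a).1 ha
        rcases List.mem_cons.1 hb with h | h
        · exact h1.2.2.2 h
        · exact h1.2.1 h
    · intro a ha b hb hab
      subst hab
      rw [List.mem_cons, List.mem_append, List.mem_cons] at hb
      rcases hb with h | h | h | h
      · exact hpQ (h ▸ ha)
      · exact ((hl0 a).1 h).1 ha
      · exact hqQ (h ▸ ha)
      · rcases hQm a ha with h' | h'
        · exact hZB a h' h
        · exact h' (hB1U a h)
  · intro z
    rw [List.mem_append, List.mem_cons, List.mem_append, List.mem_cons]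
    by_cases h1 : z ∈ Q
    · exact Or.inl h1
    by_cases h2 : z = p
    · exact Or.inr (Or.inl h2)
    by_cases h3 : z = q
    · exact Or.inr (Or.inr (Or.inr (Or.inl h3)))
    by_cases h4 : z ∈ B1
    · exact Or.inr (Or.inr (Or.inr (Or.inr h4)))
    · exact Or.inr (Or.inr (Or.inl ((hl0 z).2 ⟨h1, h4, h2, h3⟩)))
  · exact hpre.trans (List.prefix_append _ _)
  · exact ⟨Q ++ p :: (l0 ++ [q]), by simp⟩
  · intro e he f hf
    rcases hmem e he with h | h <;> rcases hmem f hf with h' | h'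
    · exact hold e h f h'
    · exact hon e h f h'
    · exact fun hh => hon f h' e h (pe_cf_symm F e f hh)
    · exact cN e h f h'
  · intro e he f hf
    rcases hmem e he with h | h
    · exact hold e h f (Or.inl hf)
    · exact fun hh => hon f (Or.inl hf) e h (pe_cf_symm F e f hh)

theorem tPe : S_Ext → S_Chain → S_Comp → S_Pe := by
  intro hExt hChain hComp δ K hδ hδ1 hK
  obtain ⟨r0, hComp⟩ := hComp
  obtain ⟨ε, hε⟩ : ∃ ε : ℝ, ε = δ ^ 2 / (10 ^ 8 * K) := ⟨_, rfl⟩
  have hK0 : 0 < K := by linarith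
  have hεpos : 0 < ε := by rw [hε]; positivity
  obtain ⟨η, hη⟩ : ∃ η : ℝ, η = ε * δ / 100 := ⟨_, rfl⟩
  have hηpos : 0 < η := by rw [hη]; positivity
  obtain ⟨M, hM⟩ : ∃ M : ℝ, M = 2001 * K / δ := ⟨_, rfl⟩
  have hMpos : 0 < M := by rw [hM]; positivity
  have hMε : M * ε = 2001 * δ / 10 ^ 8 := by rw [hM, hε]; field_simp
  have hεle : ε ≤ δ / 10 ^ 8 := by
    rw [hε, div_le_div_iff₀ (by positivity) (by positivity)]
    nlinarith [mul_nonneg hδ.le (sub_nonneg.2 hδ1), mul_nonneg hδ.le (sub_nonneg.2 hK)]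
  have hKδ : K ≤ K / δ := by
    rw [le_div_iff₀ hδ]; nlinarith
  obtain ⟨n0, hn0⟩ := exists_nat_ge (100 * (K + 4 / η + 2000 * K / δ + 6 * M + 10 + r0) / δ)
  refine ⟨η, hηpos, n0, ?_⟩
  intro V _ _ F J Es B0 B1 Bs hn hB
  obtain ⟨n, hnn⟩ : ∃ n : ℝ, n = (Fintype.card V : ℝ) := ⟨_, rfl⟩
  obtain ⟨C, hC⟩ : ∃ C : ℝ, C = K + 4 / η + 2000 * K / δ + 6 * M + 10 + r0 := ⟨_, rfl⟩
  have h4η : 0 < 4 / η := by positivity
  have h2K : 0 < 2000 * K / δ := by positivity
  have hr0 : (0 : ℝ) ≤ r0 := Nat.cast_nonneg _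
  have hCn : 100 * C ≤ δ * n := by
    have h1 : 100 * C / δ ≤ n := by
      rw [hC, hnn]
      exact hn0.trans (by exact_mod_cast hn)
    rw [div_le_iff₀ hδ] at h1
    linarith
  have hC10 : 10 ≤ C := by rw [hC]; linarith
  have hnpos : 0 < n := by
    by_contra h
    have : δ * n ≤ 0 := mul_nonpos_of_nonneg_of_nonpos hδ.le (not_lt.1 h)
    linarith
  have hδn : δ * n ≤ n := by nlinarith
  obtain ⟨T, hT⟩ : ∃ T : ℝ, T = ε * n := ⟨_, rfl⟩
  have hTpos : 0 < T := by rw [hT]; positivity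
  obtain ⟨D, hD⟩ : ∃ D : ℝ, D = η * n ^ 2 := ⟨_, rfl⟩
  have hDpos : 0 < D := by rw [hD]; positivity
  obtain ⟨g1, hg1⟩ : ∃ g1 : ℝ, g1 = δ / 2000 * n := ⟨_, rfl⟩
  have hg1pos : 0 < g1 := by rw [hg1]; positivity
  have hDT : 6 * D / T = 6 * (δ * n / 100) := by
    rw [hD, hT, hη]; field_simp
  -- the sets
  obtain ⟨bl, hbl⟩ : ∃ bl : List V, bl = B0 ++ (Bs.flatten ++ B1) := ⟨_, rfl⟩
  obtain ⟨Md, hMd⟩ : ∃ Md : Finset V,
    Md = univ.filter (fun x => D < (dg (off F J) {x} : ℝ)) := ⟨_, rfl⟩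
  obtain ⟨Y, hY⟩ : ∃ Y : Finset V, Y = univ.filter
    (fun x => x ∉ J ∧ x ∉ bl ∧ x ∉ Md ∧ g1 < (gs F J Es x : ℝ)) := ⟨_, rfl⟩
  have hU4' : U4 (off F J) := fun A hA => hB.u4 A (Finset.mem_filter.1 hA).1
  have hMdc : (Md.card : ℝ) ≤ 4 / η := by
    have h1 := pe_heavy (off F J) hU4' D
    rw [← hMd] at h1
    have h2 : ((off F J).card : ℝ) ≤ n ^ 2 := by
      rw [hnn]; exact_mod_cast hB.c4
    have h3 : (Md.card : ℝ) * η * n ^ 2 ≤ 4 * n ^ 2 := by
      rw [hD] at h1; linarith
    have h4 : (Md.card : ℝ) * η ≤ 4 := le_of_mul_le_mul_right h3 (by positivity)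
    rw [le_div_iff₀ hηpos]; exact h4
  have hYc : (Y.card : ℝ) ≤ 2000 * K / δ := by
    have h1 : (Y.card : ℝ) * g1 ≤ ∑ x ∈ Y, (gs F J Es x : ℝ) := by
      rw [← nsmul_eq_mul]
      refine Finset.card_nsmul_le_sum _ _ _ (fun x hx => ?_)
      rw [hY] at hx
      exact (Finset.mem_filter.1 hx).2.2.2.2.le
    have h2 : ∑ x ∈ Y, (gs F J Es x : ℝ) ≤
        ∑ x ∈ univ.filter (fun x => x ∉ J), (gs F J Es x : ℝ) := by
      refine Finset.sum_le_sum_of_subset_of_nonneg ?_ (fun _ _ _ => Nat.cast_nonneg _)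
      intro x hx
      rw [hY] at hx
      exact Finset.mem_filter.2 ⟨Finset.mem_univ _, (Finset.mem_filter.1 hx).2.1⟩
    have h3 := hB.c3
    rw [← hnn] at h3
    have h4 : (Y.card : ℝ) * (δ / 2000) * n ≤ K * n := by
      rw [hg1] at h1; linarith
    have h5 : (Y.card : ℝ) * (δ / 2000) ≤ K := le_of_mul_le_mul_right h4 hnpos
    rw [le_div_iff₀ hδ]; linarith
  obtain ⟨U, hU⟩ : ∃ U : Finset V, U = (Md ∪ Y) ∪ bl.toFinset := ⟨_, rfl⟩
  have hblK : (bl.length : ℝ) ≤ K := by rw [hbl]; exact hB.len.1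
  have hUc : (U.card : ℝ) ≤ 4 / η + 2000 * K / δ + K := by
    have h1 : U.card ≤ Md.card + Y.card + bl.length := by
      rw [hU]
      refine (Finset.card_union_le _ _).trans ?_
      exact Nat.add_le_add (Finset.card_union_le _ _) (List.toFinset_card_le _)
    have h2 : (U.card : ℝ) ≤ Md.card + Y.card + bl.length := by exact_mod_cast h1
    linarith
  obtain ⟨m, hm⟩ : ∃ m : ℕ, m = Bs.length + Y.card := ⟨_, rfl⟩
  have hmM : (m : ℝ) ≤ M := by
    have h1 : Bs.length ≤ bl.length := by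
      rw [hbl, List.length_append, List.length_append]
      have := pe_len Bs hB.nz.2.2
      omega
    have h2 : (Bs.length : ℝ) ≤ bl.length := by exact_mod_cast h1
    have h3 : M = 2000 * K / δ + K / δ := by rw [hM]; ring
    rw [hm]; push_cast
    linarith
  have hm0 : (0 : ℝ) ≤ m := Nat.cast_nonneg _
  have hmT : (m : ℝ) * T ≤ 2001 * δ / 10 ^ 8 * n := by
    calc (m : ℝ) * T ≤ M * T := mul_le_mul_of_nonneg_right hmM hTpos.le
      _ = M * ε * n := by rw [hT]; ring
      _ = 2001 * δ / 10 ^ 8 * n := by rw [hMε]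
  have hTle : T ≤ δ / 10 ^ 8 * n := by
    rw [hT]; exact mul_le_mul_of_nonneg_right hεle hnpos.le
  have hblU : ∀ z ∈ bl, z ∈ U := by
    intro z hz
    rw [hU]
    exact Finset.mem_union_right _ (List.mem_toFinset.2 hz)
  have hJU : J ⊆ U := fun z hz => hblU z (by rw [hbl]; exact hB.jb z hz)
  have hYU : Y ⊆ U := by
    rw [hU]
    exact Finset.subset_union_right.trans Finset.subset_union_left
  have hYp : ∀ y ∈ Y, y ∉ J ∧ y ∉ bl ∧ y ∉ Md := by
    intro y hy
    rw [hY] at hy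
    have := (Finset.mem_filter.1 hy).2
    exact ⟨this.1, this.2.1, this.2.2.1⟩
  have hnMd : ∀ y, y ∉ Md → (dg (off F J) {y} : ℝ) ≤ D := by
    intro y hy
    by_contra h
    exact hy (by rw [hMd]; exact Finset.mem_filter.2 ⟨Finset.mem_univ _, not_le.1 h⟩)
  have hopY : ∀ y ∈ Y, Op F J Es D ((1 - δ) * n) y := by
    intro y hy
    have h1 := hYp y hy
    have h2 := hnMd y h1.2.2
    refine ⟨h1.1, h2, ?_⟩
    have h3 := hB.c2 y h1.1 (by rw [← hnn, ← hD]; exact h2)
    rw [hnn]; exact h3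
  have hopE : ∀ x, (B0.getLast? = some x ∨ B1.head? = some x ∨
      ∃ B ∈ Bs, B.head? = some x ∨ B.getLast? = some x) → Op F J Es D ((1 - δ) * n) x := by
    intro x hx
    have h1 := hB.ends x hx
    refine ⟨h1.1, by rw [hD, hnn]; exact h1.2, ?_⟩
    rw [hnn]; exact hB.c2 x h1.1 h1.2
  have hopU : ∀ c, c ∉ U → Op F J Es D g1 c := by
    intro c hc
    have h1 : c ∉ J := fun h => hc (hJU h)
    have h2 : c ∉ Md := by
      intro h; apply hc; rw [hU]
      exact Finset.mem_union_left _ (Finset.mem_union_left _ h)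
    refine ⟨h1, hnMd c h2, ?_⟩
    by_contra h
    apply hc
    apply hYU
    rw [hY]
    exact Finset.mem_filter.2 ⟨Finset.mem_univ _, h1, fun h' => hc (hblU c h'), h2, not_le.1 h⟩
  have hnum : (U.card : ℝ) + 2 * m + 2 + (1 - δ) * n + g1 + 6 * D / T + 2 * (3 * m + 1) * T
      < Fintype.card V := by
    rw [← hnn, hDT, hg1]
    have h1 : (U.card : ℝ) + 2 * m + 2 ≤ C := by rw [hC]; linarith
    have h2 : 2 * (3 * (m : ℝ) + 1) * T = 6 * (m * T) + 2 * T := by ring
    rw [h2]
    have h3 : 0 < δ * n := by positivity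
    linarith
  have hblnd : (B0 ++ (Bs.flatten ++ B1)).Nodup := hB.nd
  obtain ⟨Q, Lk, p, q, x, x', hpre, hQnd, hQm, hQf, hQe, hxp, hqx, hx, hx', hGd, hLl, hQl, hpU,
    hpQ, hqU, hqQ, hpq⟩ := pe_links hExt hChain F J U Y Es B0 B1 Bs T D ((1 - δ) * n) g1 hB.u4
      hTpos (mul_nonneg (by linarith) hnpos.le) hg1pos.le hDpos.le hJU hB.nz.1 hB.nz.2.1
      hB.nz.2.2 hblnd (fun y hy => by rw [← hbl]; exact (hYp y hy).2.1)
      (by rw [← hbl]; exact hblU) hYU hB.es.1 hB.es.2.2 hopE hopY hopU m hm hnum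
  -- the rest
  obtain ⟨S, hS⟩ : ∃ S : Finset V, S = Q.toFinset ∪ B1.toFinset ∪ {p, q} := ⟨_, rfl⟩
  obtain ⟨W, hW⟩ : ∃ W : Finset V, W = Sᶜ := ⟨_, rfl⟩
  have hWm : ∀ z, z ∈ W ↔ (z ∉ Q ∧ z ∉ B1 ∧ z ≠ p ∧ z ≠ q) := by
    intro z
    rw [hW, hS]
    simp only [Finset.mem_compl, Finset.mem_union, List.mem_toFinset, Finset.mem_insert,
      Finset.mem_singleton]
    constructor
    · intro h
      exact ⟨fun h1 => h (Or.inl (Or.inl h1)), fun h1 => h (Or.inl (Or.inr h1)),
        fun h1 => h (Or.inr (Or.inl h1)), fun h1 => h (Or.inr (Or.inr h1))⟩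
    · rintro ⟨h1, h2, h3, h4⟩ ((h | h) | (h | h))
      · exact h1 h
      · exact h2 h
      · exact h3 h
      · exact h4 h
  have hSc : (S.card : ℝ) ≤ K + 2000 * K / δ + 2 * M + 2 := by
    have h1 : S.card ≤ Q.length + B1.length + 2 := by
      rw [hS]
      refine (Finset.card_union_le _ _).trans ?_
      refine Nat.add_le_add ((Finset.card_union_le _ _).trans ?_) Finset.card_le_two
      exact Nat.add_le_add (List.toFinset_card_le _) (List.toFinset_card_le _)
    have h2 : bl.length = B0.length + Bs.flatten.length + B1.length := by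
      rw [hbl, List.length_append, List.length_append]; omega
    have h3 : S.card ≤ bl.length + Y.card + 2 * m + 2 := by omega
    have h4 : (S.card : ℝ) ≤ bl.length + Y.card + 2 * m + 2 := by exact_mod_cast h3
    linarith
  have hSW : (S.card : ℝ) + W.card = n := by
    rw [hW, hnn]; exact_mod_cast Finset.card_add_card_compl S
  have hSC : (S.card : ℝ) ≤ C := by rw [hC]; linarith
  have hWr0 : r0 ≤ W.card := by
    have h1 : (r0 : ℝ) ≤ W.card := by
      have h2 : (r0 : ℝ) ≤ C := by rw [hC]; linarith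
      linarith
    exact_mod_cast h1
  have hWn : 99 / 100 * n ≤ W.card := by linarith
  have hW2 : (Fintype.card V) ^ 2 ≤ 2 * W.card ^ 2 := by
    have h1 : n ^ 2 ≤ 2 * (W.card : ℝ) ^ 2 := by
      have h2 : (99 / 100 * n) ^ 2 ≤ (W.card : ℝ) ^ 2 := pow_le_pow_left₀ (by linarith) hWn 2
      have h3 : 0 ≤ n ^ 2 := sq_nonneg n
      linarith [h2, h3]
    rw [hnn] at h1
    exact_mod_cast h1
  have hZ : ∀ z ∈ B0 ++ (Bs.flatten ++ Y.toList), z ∈ Q := by
    intro z hz
    rcases List.mem_append.1 hz with h | h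
    · exact hpre.subset h
    · exact hQf z h
  have hins : ∀ z ∈ insert p (insert q W), z ∉ J ∧ z ∉ Y ∧ z ∉ bl := by
    intro z hz
    rw [Finset.mem_insert, Finset.mem_insert] at hz
    rcases hz with h | h | h
    · rw [h]
      exact ⟨fun h => hpU (hJU h), fun h => hpU (hYU h), fun h => hpU (hblU p h)⟩
    · rw [h]
      exact ⟨fun h => hqU (hJU h), fun h => hqU (hYU h), fun h => hqU (hblU q h)⟩
    · have h1 := (hWm z).1 h
      have h2 : z ∉ bl := by
        rw [hbl]
        intro h'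
        rcases List.mem_append.1 h' with h3 | h3
        · exact h1.1 (hZ z (List.mem_append_left _ h3))
        · rcases List.mem_append.1 h3 with h4 | h4
          · exact h1.1 (hZ z (List.mem_append_right _ (List.mem_append_left _ h4)))
          · exact h1.2.1 h4
      refine ⟨fun h' => h2 (by rw [hbl]; exact hB.jb z h'), fun h' => h1.1 (hZ z ?_), h2⟩
      exact List.mem_append_right _ (List.mem_append_right _ (Finset.mem_toList.2 h'))
  have hgsn : ∀ z ∈ insert p (insert q W), (gs F J Es z : ℝ) ≤ n / 2000 := by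
    intro z hz
    obtain ⟨h1, h2, h3⟩ := hins z hz
    by_cases h4 : z ∈ Md
    · have h5 : D < (dg (off F J) {z} : ℝ) := by
        rw [hMd] at h4; exact (Finset.mem_filter.1 h4).2
      have h6 := hB.c2m z h1 (by rw [← hnn, ← hD]; exact h5)
      have h7 : (2000 : ℝ) * gs F J Es z ≤ n := by rw [hnn]; exact_mod_cast h6
      linarith
    · have h5 : (gs F J Es z : ℝ) ≤ g1 := by
        by_contra h
        apply h2
        rw [hY]
        exact Finset.mem_filter.2 ⟨Finset.mem_univ _, h1, h3, h4, not_le.1 h⟩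
      rw [hg1] at h5
      linarith
  have hLT : (Lk.length : ℝ) * T ≤ n / 10000 := by
    have h1 : (Lk.length : ℝ) ≤ 3 * m + 2 := by exact_mod_cast hLl
    have h2 : (Lk.length : ℝ) * T ≤ (3 * m + 2) * T := mul_le_mul_of_nonneg_right h1 hTpos.le
    have h3 : (3 * (m : ℝ) + 2) * T = 3 * (m * T) + 2 * T := by ring
    rw [h3] at h2
    linarith
  have hWJ : ∀ y ∈ W, y ∉ J := fun y hy =>
    (hins y (Finset.mem_insert_of_mem (Finset.mem_insert_of_mem hy))).1
  have hoff : ∀ A ∈ F, A ⊆ insert p (insert q W) → A ∈ off F J := by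
    intro A hA hAs
    refine Finset.mem_filter.2 ⟨hA, ?_⟩
    rw [Finset.disjoint_left]
    intro z hz
    exact (hins z (hAs hz)).1
  have hpW : p ∉ W := fun h => ((hWm p).1 h).2.2.1 rfl
  have hqW : q ∉ W := fun h => ((hWm q).1 h).2.2.2 rfl
  obtain ⟨l0, hl0nd, hl0, hl0G, hl0C⟩ := hComp V F (Gs F (Es ++ Lk)) W p q hB.u4
    (pe_gs_symm F (Es ++ Lk))
    hpW hqW hpq hWr0
    (by
      intro z hz
      have h1 := pe_deg F J W Es Lk T hTpos.le hGd z (hins z hz).1 hWJ
      have h2 := hgsn z hz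
      have h3 : (1000 : ℝ) * (W.filter (fun y => Gs F (Es ++ Lk) z y)).card ≤ W.card := by
        linarith
      exact_mod_cast h3)
    (by
      intro z hz
      have h1 : (F.filter (fun A => z ∈ A ∧ A ⊆ insert p (insert q W))).card ≤
          dg (off F J) {z} := by
        refine Finset.card_le_card ?_
        intro A hA
        rw [Finset.mem_filter] at hA ⊢
        exact ⟨hoff A hA.1 hA.2.2, Finset.singleton_subset_iff.2 hA.2.1⟩
      have h2 := hB.c1 z (hins z hz).1
      omega)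
    (by
      have h1 : (F.filter (fun A => A ⊆ insert p (insert q W))).card ≤ (off F J).card := by
        refine Finset.card_le_card ?_
        intro A hA
        rw [Finset.mem_filter] at hA
        exact hoff A hA.1 hA.2
      have h2 := hB.c4
      omega)
  have hnd1 := List.nodup_append.1 hblnd
  have hnd2 := List.nodup_append.1 hnd1.2.1
  refine pe_final F U Es Lk B0 B1 Q (B0 ++ (Bs.flatten ++ Y.toList)) l0 p q x x' hpre hQnd hQm
    ?_ ?_ hnd2.2.1 hQe hxp hqx hx hx' hB.es.2.1 hpU hpQ hqU hqQ hpq hl0nd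
    (fun z => (hl0 z).trans (hWm z)) hB.c0 ?_ hGd.2 hl0G hl0C
  · intro z hz hz1
    rcases List.mem_append.1 hz with h | h
    · exact hnd1.2.2 z h z (List.mem_append_right _ hz1) rfl
    · rcases List.mem_append.1 h with h' | h'
      · exact hnd2.2.2 z h' z hz1 rfl
      · refine (hYp z (Finset.mem_toList.1 h')).2.1 ?_
        rw [hbl]
        exact List.mem_append_right _ (List.mem_append_right _ hz1)
  · intro z hz
    refine hblU z ?_
    rw [hbl]
    exact List.mem_append_right _ (List.mem_append_right _ hz)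
  · intro e he f hf hc
    exact (hGd.1 f hf).2.2.1 ⟨e, he, hc⟩

end Pool.Agent.Ham
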