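import Pool.Agent.Lib.MP_716318_co.H.Spec2

set_option autoImplicit false

namespace Pool.Agent.Ham

open Finset
open scoped Classical

/-- Resampling one coordinate. -/
private theorem pr_res {H Λ : Type} [Fintype H] [DecidableEq H] [Fintype Λ] [DecidableEq Λ]
    (v : H) (g : (H → Λ) → ℝ) :
    (Fintype.card Λ : ℝ) * ∑ a : H → Λ, g a = ∑ a : H → Λ, ∑ x : Λ, g (Function.update a v x) := by
  let T : (H → Λ) × Λ → (H → Λ) × Λ := fun p => (Function.update p.1 v p.2, p.1 v)
  have hT : Function.Involutive T := by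
    intro p
    change (Function.update (Function.update p.1 v p.2) v (p.1 v),
      Function.update p.1 v p.2 v) = p
    rw [Function.update_idem, Function.update_eq_self, Function.update_self]
  have h1 : ∑ p : (H → Λ) × Λ, g (Function.update p.1 v p.2) = ∑ p : (H → Λ) × Λ, g p.1 :=
    Equiv.sum_comp hT.toPerm fun p => g p.1
  rw [Fintype.sum_prod_type, Fintype.sum_prod_type] at h1
  rw [h1, mul_sum]
  refine sum_congr rfl fun a _ => ?_
  change (Fintype.card Λ : ℝ) * g a = ∑ _y : Λ, g a
  rw [sum_const, nsmul_eq_mul, card_univ]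

private theorem pr_one {H Λ : Type} [Fintype H] [DecidableEq H] [Fintype Λ] [DecidableEq Λ]
    (v : H) (f : Λ → ℝ) : (Fintype.card Λ : ℝ) * ∑ a : H → Λ, f (a v) =
      (Fintype.card Λ : ℝ) ^ Fintype.card H * ∑ x, f x := by
  rw [pr_res v]
  simp only [Function.update_self]
  rw [sum_const, nsmul_eq_mul, card_univ, Fintype.card_fun, Nat.cast_pow]

private theorem pr_two {H Λ : Type} [Fintype H] [DecidableEq H] [Fintype Λ] [DecidableEq Λ]
    (v w : H) (f : Λ → Λ → ℝ) (h : v ≠ w) :
    (Fintype.card Λ : ℝ) ^ 2 * ∑ a : H → Λ, f (a v) (a w) =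
      (Fintype.card Λ : ℝ) ^ Fintype.card H * ∑ x, ∑ y, f x y := by
  rw [sq, mul_assoc, pr_res v]
  simp only [Function.update_self, Function.update_of_ne h.symm]
  rw [sum_comm, mul_sum, mul_sum]
  exact sum_congr rfl fun x _ => pr_one w (f x)

theorem tPr : S_Pr := by
  intro H Λ _ _ _ _
  refine ⟨pr_one, pr_two, ?_⟩
  intro u v w f huv hvw huw
  rw [pow_succ (Fintype.card Λ : ℝ) 2, mul_assoc, pr_res u]
  simp only [Function.update_self, Function.update_of_ne huv.symm, Function.update_of_ne huw.symm]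
  rw [sum_comm, mul_sum, mul_sum]
  exact sum_congr rfl fun x _ => pr_two v w (f x) hvw

end Pool.Agent.Ham
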