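import Pool.Agent.Lib.MP_716318_co.H.Spec2

/-!
# MP_716318_co, package H: degree sums (S_Sum)
-/

set_option autoImplicit false

namespace Pool.Agent.Ham

open Finset
open scoped Classical

private lemma sumD4 {V : Type} [DecidableEq V] {a b c d : V}
    (h : ({a, b, c, d} : Finset V).card = 4) :
    a ≠ b ∧ a ≠ c ∧ a ≠ d ∧ b ≠ c ∧ b ≠ d ∧ c ≠ d := by
  rw [Finset.card_insert_eq_ite, Finset.card_insert_eq_ite, Finset.card_insert_eq_ite,
    Finset.card_singleton] at h
  split_ifs at h with h1 h2 h3 h4 h5 h6 h7 <;> simp at * <;> tauto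

private lemma sumOne {V : Type} [Fintype V] [DecidableEq V] (F : Finset (Finset V))
    (hF : U4 F) : ∑ y, dg F {y} = 4 * F.card := by
  have h1 : ∀ y : V, dg F {y} = ∑ A ∈ F, if y ∈ A then 1 else 0 := by
    intro y
    unfold dg
    rw [Finset.card_filter]
    refine Finset.sum_congr rfl fun A _ => ?_
    simp only [Finset.singleton_subset_iff]
  simp_rw [h1]
  rw [Finset.sum_comm]
  have h2 : ∀ A ∈ F, (∑ y : V, if y ∈ A then 1 else 0) = 4 := by
    intro A hA
    rw [← Finset.card_filter]
    have : (univ.filter fun y => y ∈ A) = A := by ext; simp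
    rw [this]
    exact hF A hA
  rw [Finset.sum_congr rfl h2]
  simp [mul_comm]

private lemma sumFib {V : Type} [Fintype V] [DecidableEq V] (F : Finset (Finset V))
    (hF : U4 F) (J : Finset V) (y : V) (hy : y ∉ J) :
    ((univ : Finset (V × V × V)).filter (fun p => p.1 ∈ J ∧ p.2.1 ∉ J ∧ p.2.2 ∉ J ∧
      ({p.1, p.2.1, y, p.2.2} : Finset V) ∈ F)).card ≤ 2 * dg F {y} := by
  unfold dg
  refine Finset.card_le_mul_card_image_of_maps_to
    (f := fun p : V × V × V => ({p.1, p.2.1, y, p.2.2} : Finset V)) ?_ 2 ?_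
  · intro p hp
    simp only [Finset.mem_filter, Finset.mem_univ, true_and] at hp
    simp only [Finset.mem_filter, Finset.singleton_subset_iff]
    exact ⟨hp.2.2.2, by simp⟩
  · intro A hA
    by_cases hne : (((univ : Finset (V × V × V)).filter (fun p => p.1 ∈ J ∧ p.2.1 ∉ J ∧
      p.2.2 ∉ J ∧ ({p.1, p.2.1, y, p.2.2} : Finset V) ∈ F)).filter
        (fun p => ({p.1, p.2.1, y, p.2.2} : Finset V) = A)).Nonempty
    · obtain ⟨⟨v0, x0, t0⟩, h0⟩ := hne
      simp only [Finset.mem_filter, Finset.mem_univ, true_and] at h0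
      obtain ⟨⟨hv0, hx0, ht0, hF0⟩, hA0⟩ := h0
      have hd0 := sumD4 (hF _ hF0)
      refine (Finset.card_le_card (t := {(v0, x0, t0), (v0, t0, x0)}) ?_).trans
        (Finset.card_le_two)
      rintro ⟨v, x, t⟩ h1
      simp only [Finset.mem_filter, Finset.mem_univ, true_and] at h1
      obtain ⟨⟨hv, hx, ht, hF1⟩, hA1⟩ := h1
      have hd := sumD4 (hF _ hF1)
      have hv' : v = v0 := by
        have : v ∈ ({v0, x0, y, t0} : Finset V) := by rw [hA0, ← hA1]; simp
        simp only [Finset.mem_insert, Finset.mem_singleton] at this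
        rcases this with h | h | h | h
        · exact h
        · exact absurd (h ▸ hv) hx0
        · exact absurd (h ▸ hv) hy
        · exact absurd (h ▸ hv) ht0
      subst hv'
      have hx' : x = x0 ∨ x = t0 := by
        have : x ∈ ({v, x0, y, t0} : Finset V) := by rw [hA0, ← hA1]; simp
        simp only [Finset.mem_insert, Finset.mem_singleton] at this
        rcases this with h | h | h | h
        · exact absurd h.symm hd.1
        · exact Or.inl h
        · exact absurd h hd.2.2.2.1
        · exact Or.inr h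
      have ht' : t = x0 ∨ t = t0 := by
        have : t ∈ ({v, x0, y, t0} : Finset V) := by rw [hA0, ← hA1]; simp
        simp only [Finset.mem_insert, Finset.mem_singleton] at this
        rcases this with h | h | h | h
        · exact absurd h.symm hd.2.2.1
        · exact Or.inl h
        · exact absurd h.symm hd.2.2.2.2.2
        · exact Or.inr h
      have hxt : x ≠ t := hd.2.2.2.2.1
      simp only [Finset.mem_insert, Finset.mem_singleton, Prod.mk.injEq, true_and]
      rcases hx' with h | h <;> rcases ht' with h' | h'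
      · exact absurd (h.trans h'.symm) hxt
      · exact Or.inl ⟨h, h'⟩
      · exact Or.inr ⟨h, h'⟩
      · exact absurd (h.trans h'.symm) hxt
    · rw [Finset.not_nonempty_iff_eq_empty] at hne
      rw [hne]
      simp

private lemma sumTwo {V : Type} [Fintype V] [DecidableEq V] (F : Finset (Finset V))
    (hF : U4 F) (J : Finset V) (y : V) (hy : y ∉ J) :
    ∑ v : {v // v ∈ J}, ∑ x : {x // x ∉ J}, ch F J v.1 x.1 y ≤ 2 * dg F {y} := by
  refine le_trans ?_ (sumFib F hF J y hy)
  have h1 : ∀ (v : {v // v ∈ J}) (x : {x // x ∉ J}), ch F J v.1 x.1 y =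
      ((univ : Finset V).filter (fun t => t ∉ J ∧ ({v.1, x.1, y, t} : Finset V) ∈ F)).card :=
    fun v x => rfl
  have h2 : ∑ v : {v // v ∈ J}, ∑ x : {x // x ∉ J}, ch F J v.1 x.1 y =
      ((univ : Finset {v // v ∈ J}).sigma (fun v => (univ : Finset {x // x ∉ J}).sigma
        (fun x => (univ : Finset V).filter
          (fun t => t ∉ J ∧ ({v.1, x.1, y, t} : Finset V) ∈ F)))).card := by
    rw [Finset.card_sigma]
    refine Finset.sum_congr rfl fun v _ => ?_
    rw [Finset.card_sigma]
    rfl
  rw [h2]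
  refine Finset.card_le_card_of_injOn
    (fun p => ((p.1 : V), (p.2.1 : V), p.2.2)) ?_ ?_
  · rintro ⟨v, x, t⟩ hp
    simp only [Finset.coe_sigma, Set.mem_sigma_iff, Finset.mem_coe, Finset.mem_sigma,
      Finset.mem_filter, Finset.mem_univ, true_and] at hp ⊢
    exact ⟨v.2, x.2, hp.1, hp.2⟩
  · rintro ⟨v, x, t⟩ _ ⟨v', x', t'⟩ _ h
    simp only [Prod.mk.injEq] at h
    obtain ⟨hv, hx, ht⟩ := h
    have hv' : v = v' := Subtype.ext hv
    have hx' : x = x' := Subtype.ext hx
    subst hv' hx' ht
    rfl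

/-- Degree sums. -/
theorem tSum : S_Sum := by
  intro V _ _ F hF
  refine ⟨sumOne F hF, fun J y hy => sumTwo F hF J y hy, fun ε => ?_⟩
  have h1 := sumOne F hF
  have h2 : (∑ y ∈ He F ε, (dg F {y} : ℝ)) ≤ ∑ y, (dg F {y} : ℝ) :=
    Finset.sum_le_sum_of_subset_of_nonneg (Finset.subset_univ _) fun _ _ _ => by positivity
  have h3 : ((He F ε).card : ℝ) * (ε * (Fintype.card V : ℝ) ^ 2) ≤
      ∑ y ∈ He F ε, (dg F {y} : ℝ) := by
    rw [← nsmul_eq_mul]
    refine Finset.card_nsmul_le_sum _ _ _ fun y hy => ?_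
    simp only [He, Finset.mem_filter, Finset.mem_univ, true_and] at hy
    exact hy
  have h4 : (∑ y, (dg F {y} : ℝ)) = 4 * F.card := by exact_mod_cast h1
  linarith

end Pool.Agent.Ham
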