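import Pool.Agent.Lib.MP_716318_co.H.Spec1

set_option autoImplicit false

namespace Pool.Agent.Ham

open Finset
open scoped Classical

private theorem ta_mem {α : Type} {p : α → Prop} (d : DecidablePred p) {s : Finset α} {a : α}
    (h : a ∈ @filter α p d s) : a ∈ s ∧ p a := mem_filter.1 h

private theorem ta_wt {r : ℕ} (hr : 2 ≤ r) : wt r 2 = 1 / ((r : ℝ) * (r - 1)) := by
  unfold wt
  have h1 : r.descFactorial 2 = (r - 1) * r := by
    simp [Nat.descFactorial]
  rw [h1, Nat.cast_mul, Nat.cast_sub (by omega), Nat.cast_one, mul_comm]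

private theorem ta_sum {r : ℕ} (hr : 2 ≤ r) {β : Type} (S : Finset (Finset β))
    (hS : ∀ M ∈ S, M.card = 2) (hc : 1000 * S.card ≤ 2 * (r * r)) :
    ∑ M ∈ S, wt r M.card ≤ 1 / 250 := by
  rw [sum_congr rfl fun M hM => by rw [hS M hM], sum_const, nsmul_eq_mul, ta_wt hr]
  have h2 : (2 : ℝ) ≤ r := by exact_mod_cast hr
  have h1 : (1000 : ℝ) * S.card ≤ 2 * (r * r) := by exact_mod_cast hc
  have h3 : (0 : ℝ) < r * (r - 1) := by nlinarith
  rw [mul_one_div, div_le_iff₀ h3]
  nlinarith

private theorem ta_pairs {r : ℕ} {W : Type} [Fintype W] [DecidableEq W] (G : W → W → Prop)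
    (hW : Fintype.card W = r) (hG : ∀ x, 1000 * (univ.filter (fun y => G x y)).card ≤ r) :
    1000 * (univ.filter (fun p : W × W => G p.1 p.2)).card ≤ r * r := by
  rw [card_eq_sum_card_fiberwise (f := Prod.fst) (t := univ) fun _ _ => mem_coe.2 (mem_univ _),
    mul_sum]
  have h1 : ∀ x ∈ (univ : Finset W), 1000 * ((univ.filter (fun p : W × W => G p.1 p.2)).filter
      (fun p => p.1 = x)).card ≤ r := by
    intro x _
    refine le_trans (Nat.mul_le_mul_left 1000 ?_) (hG x)
    refine card_le_card_of_injOn Prod.snd ?_ ?_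
    · intro p hp
      simp only [coe_filter, mem_filter, mem_univ, true_and, Set.mem_ofPred_eq] at hp ⊢
      rw [← hp.2]
      exact hp.1
    · intro p hp q hq h
      simp only [coe_filter, mem_filter, mem_univ, true_and, Set.mem_ofPred_eq] at hp hq
      exact Prod.ext (hp.2.trans hq.2.symm) h
  refine (sum_le_card_nsmul _ _ _ h1).trans (le_of_eq ?_)
  rw [card_univ, hW, smul_eq_mul]

private def ta_nx {r : ℕ} (i : Fin r) : Fin r := if h : i.val + 1 < r then ⟨i.val + 1, h⟩ else i

private def ta_f {r : ℕ} {W : Type} [DecidableEq W] (t : Fin r × W × W) : Finset (Fin r × W) :=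
  {(t.1, t.2.1), (ta_nx t.1, t.2.2)}

theorem tTa : S_Ta := by
  refine ⟨2, ?_⟩
  intro r W _ _ G hr hW hsym hG
  let T : Finset (Fin r × W × W) := univ.filter fun t => t.1.val + 1 < r ∧ t.2.1 ≠ t.2.2 ∧
    G t.2.1 t.2.2
  have hT : ∀ t ∈ T, (t.1.val + 1 < r ∧ t.2.1 ≠ t.2.2 ∧ G t.2.1 t.2.2) := fun t ht =>
    (mem_filter.1 ht).2
  have hnx : ∀ i : Fin r, i.val + 1 < r → (ta_nx i).val = i.val + 1 := by
    intro i hi
    rw [ta_nx, dif_pos hi]
  have hnx' : ∀ i : Fin r, i.val + 1 < r → ta_nx i ≠ i := by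
    intro i hi h
    have := hnx i hi
    rw [h] at this
    omega
  have hmem : ∀ (t : Fin r × W × W) (p : Fin r × W), p ∈ ta_f t ↔
      p = (t.1, t.2.1) ∨ p = (ta_nx t.1, t.2.2) := by
    intro t p
    rw [ta_f, mem_insert, mem_singleton]
  have hcard : ∀ t ∈ T, (ta_f t).card = 2 := by
    intro t ht
    refine card_pair fun h => ?_
    exact (hT t ht).2.1 (Prod.ext_iff.1 h).2
  have hmain : ∀ (S : Finset (Finset (Fin r × W))) (R : Finset (Fin r × W × W)),
      (∀ M ∈ S, ∃ t ∈ T, t ∈ R ∧ ta_f t = M) → 1000 * R.card ≤ 2 * (r * r) →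
      ∑ M ∈ S, wt (Fintype.card (Fin r)) M.card ≤ 1 / 250 := by
    intro S R hQ hR
    rw [Fintype.card_fin]
    refine ta_sum hr _ ?_ ?_
    · intro M hM
      obtain ⟨t, ht, _, rfl⟩ := hQ M hM
      exact hcard t ht
    · refine le_trans (Nat.mul_le_mul_left 1000 ?_) hR
      have h1 : S ⊆ R.image ta_f := by
        intro M hM
        obtain ⟨t, _, ht, rfl⟩ := hQ M hM
        exact mem_image_of_mem _ ht
      exact (card_le_card h1).trans card_image_le
  refine ⟨T.image ta_f, ⟨?_, ?_, ?_⟩, ?_⟩
  · intro M hM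
    obtain ⟨t, ht, rfl⟩ := mem_image.1 hM
    have h1 := hT t ht
    have h2 := hnx' t.1 h1.1
    refine ⟨⟨(t.1, t.2.1), (hmem t _).2 (Or.inl rfl)⟩, by rw [hcard t ht]; omega, ?_⟩
    intro p hp q hq
    rcases (hmem t p).1 hp with rfl | rfl <;> rcases (hmem t q).1 hq with rfl | rfl
    · exact iff_of_true rfl rfl
    · exact iff_of_false (fun h => h2 h.symm) h1.2.1
    · exact iff_of_false h2 (fun h => h1.2.1 h.symm)
    · exact iff_of_true rfl rfl
  · intro i
    refine hmain _ ((univ.filter fun j : Fin r => j = i ∨ j.val + 1 = i.val) ×ˢ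
      (univ.filter fun p : W × W => G p.1 p.2)) ?_ ?_
    · intro M hM
      obtain ⟨hM, p, hp, hpi⟩ := ta_mem _ hM
      obtain ⟨t, ht, rfl⟩ := mem_image.1 hM
      have h1 := hT t ht
      refine ⟨t, ht, ?_, rfl⟩
      rw [mem_product, mem_filter, mem_filter]
      refine ⟨⟨mem_univ _, ?_⟩, mem_univ _, h1.2.2⟩
      rcases (hmem t p).1 hp with rfl | rfl
      · exact Or.inl hpi
      · right
        rw [← hpi, hnx _ h1.1]
    · rw [card_product]
      have h3 : (univ.filter fun j : Fin r => j = i ∨ j.val + 1 = i.val).card ≤ 2 := by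
        rw [filter_or]
        refine (card_union_le _ _).trans ?_
        have h4 : (univ.filter fun j : Fin r => j = i).card ≤ 1 :=
          card_le_one.2 fun a ha b hb => by
            rw [mem_filter] at ha hb
            rw [ha.2, hb.2]
        have h5 : (univ.filter fun j : Fin r => j.val + 1 = i.val).card ≤ 1 :=
          card_le_one.2 fun a ha b hb => by
            rw [mem_filter] at ha hb
            exact Fin.ext (by omega)
        omega
      calc 1000 * ((univ.filter fun j : Fin r => j = i ∨ j.val + 1 = i.val).card *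
            (univ.filter fun p : W × W => G p.1 p.2).card)
          = (univ.filter fun j : Fin r => j = i ∨ j.val + 1 = i.val).card *
            (1000 * (univ.filter fun p : W × W => G p.1 p.2).card) := by ring
        _ ≤ 2 * (r * r) := Nat.mul_le_mul h3 (ta_pairs G hW hG)
  · intro w
    refine hmain _ (univ ×ˢ (({w} ×ˢ univ.filter (fun y => G w y)) ∪
      ((univ.filter (fun y => G w y)) ×ˢ {w}))) ?_ ?_
    · intro M hM
      obtain ⟨hM, p, hp, hpw⟩ := ta_mem _ hM
      obtain ⟨t, ht, rfl⟩ := mem_image.1 hM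
      have h1 := hT t ht
      refine ⟨t, ht, ?_, rfl⟩
      rw [mem_product, mem_union, mem_product, mem_product, mem_filter, mem_filter, mem_singleton,
        mem_singleton]
      refine ⟨mem_univ _, ?_⟩
      rcases (hmem t p).1 hp with rfl | rfl
      · left
        have hpw' : t.2.1 = w := hpw
        refine ⟨hpw', mem_univ _, ?_⟩
        rw [← hpw']
        exact h1.2.2
      · right
        have hpw' : t.2.2 = w := hpw
        refine ⟨⟨mem_univ _, ?_⟩, hpw'⟩
        rw [← hpw']
        exact hsym _ _ h1.2.2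
    · rw [card_product, card_univ, Fintype.card_fin]
      have h3 : 1000 * (({w} ×ˢ univ.filter (fun y => G w y)) ∪
          ((univ.filter (fun y => G w y)) ×ˢ {w}) : Finset (W × W)).card ≤ 2 * r := by
        have h4 := card_union_le ({w} ×ˢ univ.filter (fun y => G w y) : Finset (W × W))
          ((univ.filter (fun y => G w y)) ×ˢ {w})
        rw [card_product, card_product, card_singleton, one_mul, mul_one] at h4
        have h5 := hG w
        omega
      calc 1000 * (r * (({w} ×ˢ univ.filter (fun y => G w y)) ∪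
          ((univ.filter (fun y => G w y)) ×ˢ {w}) : Finset (W × W)).card)
          = r * (1000 * (({w} ×ˢ univ.filter (fun y => G w y)) ∪
          ((univ.filter (fun y => G w y)) ×ˢ {w}) : Finset (W × W)).card) := by ring
        _ ≤ r * (2 * r) := Nat.mul_le_mul_left r h3
        _ = 2 * (r * r) := by ring
  · intro π hπ i h hGi
    let t : Fin r × W × W := (⟨i, by omega⟩, π ⟨i, by omega⟩, π ⟨i + 1, h⟩)
    have ht : t ∈ T := by
      refine mem_filter.2 ⟨mem_univ _, h, ?_, hGi⟩
      intro h1
      have h2 := congrArg Fin.val (π.injective h1)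
      change i = i + 1 at h2
      omega
    refine hπ _ (mem_image_of_mem _ ht) ?_
    intro p hp
    have hn : ta_nx t.1 = ⟨i + 1, h⟩ := Fin.ext (hnx t.1 h)
    rcases (hmem t p).1 hp with rfl | rfl
    · rfl
    · rw [hn]

end Pool.Agent.Ham
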