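import Pool.Agent.Lib.MP_716318_co.H.Spec1

set_option autoImplicit false

namespace Pool.Agent.Ham

open Finset
open scoped Classical

private theorem tb_mem {α : Type} {p : α → Prop} (d : DecidablePred p) {s : Finset α} {a : α}
    (h : a ∈ @filter α p d s) : a ∈ s ∧ p a := mem_filter.1 h

private theorem tb_wt (r : ℕ) : wt r 1 = 1 / (r : ℝ) := by
  unfold wt
  rw [Nat.descFactorial_one]

theorem tTb : S_Tb := by
  refine ⟨250, ?_⟩
  intro r W _ _ a B hr hW hB
  have hr0 : (0 : ℝ) < r := by
    have : (250 : ℝ) ≤ r := by exact_mod_cast hr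
    linarith
  have hone : ∀ M ∈ B.image (fun x => ({(a, x)} : Finset (Fin r × W))), M.card = 1 := by
    intro M hM
    obtain ⟨x, _, rfl⟩ := mem_image.1 hM
    exact card_singleton _
  have hsum : ∀ S ⊆ B.image (fun x => ({(a, x)} : Finset (Fin r × W))),
      ∑ M ∈ S, wt (Fintype.card (Fin r)) M.card = S.card * (1 / (r : ℝ)) := by
    intro S hS
    rw [Fintype.card_fin, sum_congr rfl fun M hM => by rw [hone M (hS hM)], sum_const,
      nsmul_eq_mul, tb_wt]
  refine ⟨B.image (fun x => ({(a, x)} : Finset (Fin r × W))), ⟨?_, ?_, ?_⟩, ?_⟩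
  · intro M hM
    have h1 := hone M hM
    obtain ⟨x, _, rfl⟩ := mem_image.1 hM
    refine ⟨singleton_nonempty _, by omega, ?_⟩
    intro p hp q hq
    rw [mem_singleton] at hp hq
    rw [hp, hq]
    exact iff_of_true rfl rfl
  · intro i
    rw [hsum _ fun M hM => (tb_mem _ hM).1]
    have h0 : ∀ S ⊆ B.image (fun x => ({(a, x)} : Finset (Fin r × W))), (S.card : ℝ) ≤ B.card := by
      intro S hS
      exact_mod_cast (card_le_card hS).trans card_image_le
    have h3 : (1000 : ℝ) * B.card ≤ r := by exact_mod_cast hB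
    rw [mul_one_div, div_le_iff₀ hr0]
    refine (h0 _ fun M hM => (tb_mem _ hM).1).trans ?_
    linarith
  · intro w
    rw [hsum _ fun M hM => (tb_mem _ hM).1]
    have h0 : ∀ S : Finset (Finset (Fin r × W)),
        (∀ M ∈ S, M ∈ B.image (fun x => ({(a, x)} : Finset (Fin r × W))) ∧ ∃ p ∈ M, p.2 = w) →
        (S.card : ℝ) ≤ 1 := by
      intro S hS
      have h1 : S.card ≤ 1 := by
        refine card_le_one.2 fun M hM M' hM' => ?_
        obtain ⟨hM1, p, hp, hpw⟩ := hS M hM
        obtain ⟨hM1', q, hq, hqw⟩ := hS M' hM'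
        obtain ⟨x, _, rfl⟩ := mem_image.1 hM1
        obtain ⟨y, _, rfl⟩ := mem_image.1 hM1'
        rw [mem_singleton] at hp hq
        rw [hp] at hpw
        rw [hq] at hqw
        have e1 : x = w := hpw
        have e2 : y = w := hqw
        rw [e1, e2]
      exact_mod_cast h1
    have h3 : (250 : ℝ) ≤ r := by exact_mod_cast hr
    rw [mul_one_div, div_le_iff₀ hr0]
    refine (h0 _ fun M hM => tb_mem _ hM).trans ?_
    linarith
  · intro π hπ haB
    refine hπ {(a, π a)} (mem_image_of_mem (fun x => ({(a, x)} : Finset (Fin r × W))) haB) ?_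
    intro p hp
    rw [mem_singleton] at hp
    rw [hp]

end Pool.Agent.Ham
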