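import Pool.Agent.Lib.MP_716318_co.H.Spec1

set_option autoImplicit false

namespace Pool.Agent.Ham

open Finset
open scoped Classical

private lemma tc_sum {α ι : Type} [DecidableEq α] (Q : Finset ι) (mk : ι → α) (P : α → Prop)
    [DecidablePred P] (N : ℕ) (w : α → ℝ) (c : ℝ) (hc : 0 ≤ c) (hw : ∀ q ∈ Q, w (mk q) = c)
    (hN : (Q.filter (fun q => P (mk q))).card ≤ N) :
    ∑ M ∈ (Q.image mk).filter P, w M ≤ (N : ℝ) * c := by
  have h1 : ∑ M ∈ (Q.image mk).filter P, w M = ((Q.image mk).filter P).card * c := by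
    rw [Finset.sum_congr rfl (g := fun _ => c)]
    · simp
    · intro M hM
      rw [Finset.mem_filter, Finset.mem_image] at hM
      obtain ⟨⟨q, hq, rfl⟩, -⟩ := hM
      exact hw q hq
  rw [h1]
  refine mul_le_mul_of_nonneg_right ?_ hc
  have h2 : ((Q.image mk).filter P).card ≤ (Q.filter (fun q => P (mk q))).card := by
    have h3 : (Q.image mk).filter P ⊆ (Q.filter (fun q => P (mk q))).image mk := by
      intro M hM
      rw [Finset.mem_filter, Finset.mem_image] at hM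
      obtain ⟨⟨q, hq, rfl⟩, hP⟩ := hM
      rw [Finset.mem_image]
      exact ⟨q, by rw [Finset.mem_filter]; exact ⟨hq, hP⟩, rfl⟩
    exact (Finset.card_le_card h3).trans Finset.card_image_le
  exact_mod_cast h2.trans hN

private lemma tc_desc (r : ℕ) (hr : 6 ≤ r) :
    (r : ℝ) ^ 3 * ((r : ℝ) - 6) ≤ (r.descFactorial 4 : ℝ) := by
  have h1 : r.descFactorial 4 = (r - 3) * ((r - 2) * ((r - 1) * r)) := by
    simp [Nat.descFactorial_succ]
  rw [h1]
  have h6 : (6 : ℝ) ≤ (r : ℝ) := by exact_mod_cast hr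
  rw [Nat.cast_mul, Nat.cast_mul, Nat.cast_mul, Nat.cast_sub (by omega), Nat.cast_sub (by omega),
    Nat.cast_sub (by omega)]
  push_cast
  nlinarith [h6, mul_nonneg (show (0:ℝ) ≤ r by linarith) (show (0:ℝ) ≤ (r:ℝ) - 6 by linarith)]

/-- The set of four pairs. -/
private def tcMk {r : ℕ} {W : Type} [DecidableEq W]
    (q : (Fin r × Fin r) × (Fin r × Fin r) × (W × W × W × W)) : Finset (Fin r × W) :=
  {(q.1.1, q.2.2.1), (q.1.2, q.2.2.2.1), (q.2.1.1, q.2.2.2.2.1), (q.2.1.2, q.2.2.2.2.2)}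

/-- The index set. -/
private noncomputable def tcQ {r : ℕ} {W : Type} [Fintype W] [DecidableEq W]
    (H : Finset (W × W × W × W)) : Finset ((Fin r × Fin r) × (Fin r × Fin r) × (W × W × W × W)) :=
  univ.filter (fun q => q.1.2.val = q.1.1.val + 1 ∧ q.2.1.2.val = q.2.1.1.val + 1 ∧
    q.1.2.val < q.2.1.1.val ∧ q.2.2 ∈ H ∧ q.2.2.1 ≠ q.2.2.2.1 ∧ q.2.2.1 ≠ q.2.2.2.2.1 ∧
    q.2.2.1 ≠ q.2.2.2.2.2 ∧ q.2.2.2.1 ≠ q.2.2.2.2.1 ∧ q.2.2.2.1 ≠ q.2.2.2.2.2 ∧
    q.2.2.2.2.1 ≠ q.2.2.2.2.2)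

private lemma tc_memQ {r : ℕ} {W : Type} [Fintype W] [DecidableEq W]
    (H : Finset (W × W × W × W)) (i i' j j' : Fin r) (x y z w : W) :
    ((i, i'), (j, j'), (x, y, z, w)) ∈ tcQ H ↔ i'.val = i.val + 1 ∧ j'.val = j.val + 1 ∧
      i'.val < j.val ∧ (x, y, z, w) ∈ H ∧ x ≠ y ∧ x ≠ z ∧ x ≠ w ∧ y ≠ z ∧ y ≠ w ∧ z ≠ w := by
  simp [tcQ]

private lemma tc_pb {r : ℕ} {W : Type} [Fintype W] [DecidableEq W]
    (H : Finset (W × W × W × W)) (q : (Fin r × Fin r) × (Fin r × Fin r) × (W × W × W × W))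
    (hq : q ∈ tcQ H) : (tcMk q).card = 4 ∧ PB (tcMk q) := by
  obtain ⟨⟨i, i'⟩, ⟨j, j'⟩, ⟨x, y, z, w⟩⟩ := q
  rw [tc_memQ] at hq
  obtain ⟨h1, h2, h3, -, n1, n2, n3, n4, n5, n6⟩ := hq
  have a1 : i ≠ i' := by intro h; rw [h] at h1; omega
  have a2 : i ≠ j := by intro h; rw [h] at h1; omega
  have a3 : i ≠ j' := by intro h; rw [h] at h1; omega
  have a4 : i' ≠ j := by intro h; rw [h] at h3; omega
  have a5 : i' ≠ j' := by intro h; rw [h] at h3; omega
  have a6 : j ≠ j' := by intro h; rw [h] at h2; omega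
  constructor
  · unfold tcMk
    rw [Finset.card_insert_of_notMem, Finset.card_insert_of_notMem, Finset.card_insert_of_notMem,
      Finset.card_singleton]
    · simp [a6]
    · simp [a4, a5]
    · simp [a1, a2, a3]
  · intro p hp q hq
    simp only [tcMk, Finset.mem_insert, Finset.mem_singleton] at hp hq
    rcases hp with rfl | rfl | rfl | rfl <;> rcases hq with rfl | rfl | rfl | rfl <;>
      simp [a1, a2, a3, a4, a5, a6, n1, n2, n3, n4, n5, n6, a1.symm, a2.symm, a3.symm, a4.symm,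
        a5.symm, a6.symm, n1.symm, n2.symm, n3.symm, n4.symm, n5.symm, n6.symm]

private lemma tc_card_pos {r : ℕ} {W : Type} [Fintype W] [DecidableEq W]
    (H : Finset (W × W × W × W)) (a : Fin r) (P : Finset (Fin r × W) → Prop) [DecidablePred P]
    (hP : ∀ M, P M → ∃ p ∈ M, p.1 = a) :
    ((tcQ H).filter (fun q => P (tcMk q))).card ≤ 4 * (r * H.card) := by
  have key : ∀ (S : Finset ((Fin r × Fin r) × (Fin r × Fin r) × (W × W × W × W)))
      (f : ((Fin r × Fin r) × (Fin r × Fin r) × (W × W × W × W)) → Fin r),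
      S ⊆ tcQ H → (∀ q ∈ S, ∀ q' ∈ S, f q = f q' → q.1 = q'.1 ∧ q.2.1 = q'.2.1) →
      S.card ≤ r * H.card := by
    intro S f hS hf
    have h1 : S.card ≤ ((univ : Finset (Fin r)) ×ˢ H).card := by
      refine Finset.card_le_card_of_injOn (fun q => (f q, q.2.2)) ?_ ?_
      · intro q hq
        have hq' := hS hq
        simp only [tcQ, Finset.mem_filter] at hq'
        simp [hq'.2.2.2.2.1]
      · intro q hq q' hq' h
        simp only [Prod.mk.injEq] at h
        obtain ⟨e1, e2⟩ := hf q hq q' hq' h.1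
        exact Prod.ext e1 (Prod.ext e2 h.2)
    rw [Finset.card_product, Finset.card_univ, Fintype.card_fin] at h1
    exact h1
  have hsub : (tcQ H).filter (fun q => P (tcMk q)) ⊆
      (((tcQ H).filter (fun q => q.1.1 = a) ∪ (tcQ H).filter (fun q => q.1.2 = a)) ∪
      ((tcQ H).filter (fun q => q.2.1.1 = a) ∪ (tcQ H).filter (fun q => q.2.1.2 = a))) := by
    intro q hq
    rw [Finset.mem_filter] at hq
    obtain ⟨hq, hPq⟩ := hq
    obtain ⟨p, hp, hpa⟩ := hP _ hPq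
    simp only [tcMk, Finset.mem_insert, Finset.mem_singleton] at hp
    simp only [Finset.mem_union, Finset.mem_filter]
    rcases hp with rfl | rfl | rfl | rfl
    · exact Or.inl (Or.inl ⟨hq, hpa⟩)
    · exact Or.inl (Or.inr ⟨hq, hpa⟩)
    · exact Or.inr (Or.inl ⟨hq, hpa⟩)
    · exact Or.inr (Or.inr ⟨hq, hpa⟩)
  have hval : ∀ q ∈ tcQ (r := r) H, q.1.2.val = q.1.1.val + 1 ∧ q.2.1.2.val = q.2.1.1.val + 1 := by
    intro q hq
    simp only [tcQ, Finset.mem_filter] at hq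
    exact ⟨hq.2.1, hq.2.2.1⟩
  have c1 : ((tcQ H).filter (fun q => q.1.1 = a)).card ≤ r * H.card := by
    refine key _ (fun q => q.2.1.1) (Finset.filter_subset _ _) ?_
    intro q hq q' hq' h
    rw [Finset.mem_filter] at hq hq'
    have v := hval q hq.1
    have v' := hval q' hq'.1
    refine ⟨Prod.ext (hq.2.trans hq'.2.symm) (Fin.ext ?_), Prod.ext h (Fin.ext ?_)⟩
    · rw [v.1, v'.1, hq.2, hq'.2]
    · have h' : q.2.1.1 = q'.2.1.1 := h
      rw [v.2, v'.2, h']
  have c2 : ((tcQ H).filter (fun q => q.1.2 = a)).card ≤ r * H.card := by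
    refine key _ (fun q => q.2.1.1) (Finset.filter_subset _ _) ?_
    intro q hq q' hq' h
    rw [Finset.mem_filter] at hq hq'
    have v := hval q hq.1
    have v' := hval q' hq'.1
    have e : q.1.2.val = q'.1.2.val := by rw [hq.2, hq'.2]
    refine ⟨Prod.ext (Fin.ext ?_) (hq.2.trans hq'.2.symm), Prod.ext h (Fin.ext ?_)⟩
    · omega
    · have h' : q.2.1.1 = q'.2.1.1 := h
      rw [v.2, v'.2, h']
  have c3 : ((tcQ H).filter (fun q => q.2.1.1 = a)).card ≤ r * H.card := by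
    refine key _ (fun q => q.1.1) (Finset.filter_subset _ _) ?_
    intro q hq q' hq' h
    rw [Finset.mem_filter] at hq hq'
    have v := hval q hq.1
    have v' := hval q' hq'.1
    refine ⟨Prod.ext h (Fin.ext ?_), Prod.ext (hq.2.trans hq'.2.symm) (Fin.ext ?_)⟩
    · have h' : q.1.1 = q'.1.1 := h
      rw [v.1, v'.1, h']
    · rw [v.2, v'.2, hq.2, hq'.2]
  have c4 : ((tcQ H).filter (fun q => q.2.1.2 = a)).card ≤ r * H.card := by
    refine key _ (fun q => q.1.1) (Finset.filter_subset _ _) ?_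
    intro q hq q' hq' h
    rw [Finset.mem_filter] at hq hq'
    have v := hval q hq.1
    have v' := hval q' hq'.1
    have e : q.2.1.2.val = q'.2.1.2.val := by rw [hq.2, hq'.2]
    refine ⟨Prod.ext h (Fin.ext ?_), Prod.ext (Fin.ext ?_) (hq.2.trans hq'.2.symm)⟩
    · have h' : q.1.1 = q'.1.1 := h
      rw [v.1, v'.1, h']
    · omega
  have hu := Finset.card_le_card hsub
  have u1 := Finset.card_union_le ((tcQ H).filter (fun q => q.1.1 = a) ∪
    (tcQ H).filter (fun q => q.1.2 = a))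
    ((tcQ H).filter (fun q => q.2.1.1 = a) ∪ (tcQ H).filter (fun q => q.2.1.2 = a))
  have u2 := Finset.card_union_le ((tcQ H).filter (fun q => q.1.1 = a))
    ((tcQ H).filter (fun q => q.1.2 = a))
  have u3 := Finset.card_union_le ((tcQ H).filter (fun q => q.2.1.1 = a))
    ((tcQ H).filter (fun q => q.2.1.2 = a))
  omega

private lemma tc_card_val {r : ℕ} {W : Type} [Fintype W] [DecidableEq W]
    (H : Finset (W × W × W × W)) (v : W) (P : Finset (Fin r × W) → Prop) [DecidablePred P]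
    (hP : ∀ M, P M → ∃ p ∈ M, p.2 = v) :
    ((tcQ H).filter (fun q => P (tcMk q))).card ≤
      r * (r * (H.filter (fun t => t.1 = v ∨ t.2.1 = v ∨ t.2.2.1 = v ∨ t.2.2.2 = v)).card) := by
  have h1 : ((tcQ H).filter (fun q => P (tcMk q))).card ≤
      ((univ : Finset (Fin r)) ×ˢ ((univ : Finset (Fin r)) ×ˢ
        (H.filter (fun t => t.1 = v ∨ t.2.1 = v ∨ t.2.2.1 = v ∨ t.2.2.2 = v)))).card := by
    refine Finset.card_le_card_of_injOn (fun q => (q.1.1, q.2.1.1, q.2.2)) ?_ ?_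
    · intro q hq
      rw [Finset.mem_coe, Finset.mem_filter] at hq
      obtain ⟨hq, hPq⟩ := hq
      obtain ⟨p, hp, hpa⟩ := hP _ hPq
      have hq' := hq
      simp only [tcQ, Finset.mem_filter] at hq'
      simp only [tcMk, Finset.mem_insert, Finset.mem_singleton] at hp
      simp only [Finset.coe_product, Finset.coe_univ, Set.mem_prod, Set.mem_univ, true_and,
        Finset.mem_coe, Finset.mem_filter]
      refine ⟨hq'.2.2.2.2.1, ?_⟩
      rcases hp with rfl | rfl | rfl | rfl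
      · exact Or.inl hpa
      · exact Or.inr (Or.inl hpa)
      · exact Or.inr (Or.inr (Or.inl hpa))
      · exact Or.inr (Or.inr (Or.inr hpa))
    · intro q hq q' hq' h
      rw [Finset.mem_coe, Finset.mem_filter] at hq hq'
      have w1 := hq.1
      have w2 := hq'.1
      simp only [tcQ, Finset.mem_filter] at w1 w2
      simp only [Prod.mk.injEq] at h
      obtain ⟨e1, e2, e3⟩ := h
      have f1 : q.1.1.val = q'.1.1.val := by rw [e1]
      have f2 : q.2.1.1.val = q'.2.1.1.val := by rw [e2]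
      refine Prod.ext (Prod.ext e1 (Fin.ext ?_)) (Prod.ext (Prod.ext e2 (Fin.ext ?_)) e3)
      · have := w1.2.1; have := w2.2.1; omega
      · have := w1.2.2.1; have := w2.2.2.1; omega
  rw [Finset.card_product, Finset.card_product, Finset.card_univ, Fintype.card_fin] at h1
  exact h1

private lemma tc_pos {r : ℕ} {W : Type} [Fintype W] [DecidableEq W]
    (H : Finset (W × W × W × W)) (hr : 2000000 ≤ r) (hH : H.card ≤ 1000 * r ^ 2) (a : Fin r)
    (P : Finset (Fin r × W) → Prop) (dP : DecidablePred P) (hP : ∀ M, P M → ∃ p ∈ M, p.1 = a) :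
    ∑ M ∈ ((tcQ H).image tcMk).filter P, wt (Fintype.card (Fin r)) M.card ≤ 1 / 250 := by
  have hr0 : (2000000 : ℝ) ≤ (r : ℝ) := by exact_mod_cast hr
  have hrpos : (0 : ℝ) < (r : ℝ) := by linarith
  have hD := tc_desc r (by omega)
  have hDpos : (0 : ℝ) < (r.descFactorial 4 : ℝ) :=
    lt_of_lt_of_le (mul_pos (pow_pos hrpos 3) (by linarith)) hD
  have hw4 : ∀ q ∈ tcQ (r := r) H, wt (Fintype.card (Fin r)) (tcMk q).card =
      1 / (r.descFactorial 4 : ℝ) := by
    intro q hq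
    rw [(tc_pb H q hq).1, Fintype.card_fin]
    rfl
  have hc : (0 : ℝ) ≤ 1 / (r.descFactorial 4 : ℝ) := by positivity
  have h0 := tc_sum (tcQ (r := r) H) tcMk P (4 * (r * H.card))
      (fun M => wt (Fintype.card (Fin r)) M.card) (1 / (r.descFactorial 4 : ℝ)) hc hw4
      (tc_card_pos H a P hP)
  refine h0.trans ?_
  rw [mul_one_div, div_le_iff₀ hDpos]
  have h3 : (((4 * (r * H.card)) : ℕ) : ℝ) ≤ 4 * (r * (1000 * (r : ℝ) ^ 2)) := by
    exact_mod_cast (Nat.mul_le_mul_left 4 (Nat.mul_le_mul_left r hH))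
  refine h3.trans ?_
  have h4 : (0 : ℝ) ≤ (r : ℝ) ^ 3 * ((r : ℝ) - 2000000) :=
    mul_nonneg (pow_nonneg hrpos.le 3) (by linarith)
  have h5 := pow_pos hrpos 3
  linarith

private lemma tc_val {r : ℕ} {W : Type} [Fintype W] [DecidableEq W]
    (H : Finset (W × W × W × W)) (hr : 2000000 ≤ r) (v : W)
    (hx : 300 * (H.filter (fun t => t.1 = v ∨ t.2.1 = v ∨ t.2.2.1 = v ∨ t.2.2.2 = v)).card
      ≤ r ^ 2)
    (P : Finset (Fin r × W) → Prop) (dP : DecidablePred P) (hP : ∀ M, P M → ∃ p ∈ M, p.2 = v) :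
    ∑ M ∈ ((tcQ H).image tcMk).filter P, wt (Fintype.card (Fin r)) M.card ≤ 1 / 250 := by
  have hr0 : (2000000 : ℝ) ≤ (r : ℝ) := by exact_mod_cast hr
  have hrpos : (0 : ℝ) < (r : ℝ) := by linarith
  have hD := tc_desc r (by omega)
  have hDpos : (0 : ℝ) < (r.descFactorial 4 : ℝ) :=
    lt_of_lt_of_le (mul_pos (pow_pos hrpos 3) (by linarith)) hD
  have hw4 : ∀ q ∈ tcQ (r := r) H, wt (Fintype.card (Fin r)) (tcMk q).card =
      1 / (r.descFactorial 4 : ℝ) := by
    intro q hq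
    rw [(tc_pb H q hq).1, Fintype.card_fin]
    rfl
  have hc : (0 : ℝ) ≤ 1 / (r.descFactorial 4 : ℝ) := by positivity
  have h0 := tc_sum (tcQ (r := r) H) tcMk P
      (r * (r * (H.filter (fun t => t.1 = v ∨ t.2.1 = v ∨ t.2.2.1 = v ∨ t.2.2.2 = v)).card))
      (fun M => wt (Fintype.card (Fin r)) M.card) (1 / (r.descFactorial 4 : ℝ)) hc hw4
      (tc_card_val H v P hP)
  refine h0.trans ?_
  rw [mul_one_div, div_le_iff₀ hDpos]
  generalize (H.filter (fun t => t.1 = v ∨ t.2.1 = v ∨ t.2.2.1 = v ∨ t.2.2.2 = v)).card = k at hx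
  have h3 : (300 : ℝ) * (k : ℝ) ≤ (r : ℝ) ^ 2 := by exact_mod_cast hx
  have h6 : (r : ℝ) * (r * (k : ℝ)) ≤ r * (r * ((r : ℝ) ^ 2 / 300)) := by
    refine mul_le_mul_of_nonneg_left (mul_le_mul_of_nonneg_left ?_ hrpos.le) hrpos.le
    linarith
  push_cast
  refine h6.trans ?_
  have h4 : (0 : ℝ) ≤ (r : ℝ) ^ 3 * ((r : ℝ) - 2000000) :=
    mul_nonneg (pow_nonneg hrpos.le 3) (by linarith)
  have h5 := pow_pos hrpos 3
  nlinarith [hD]

theorem tTc : S_Tc := by
  refine ⟨2000000, ?_⟩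
  intro r W _ _ H hr hW hH hx
  refine ⟨(tcQ H).image tcMk, ⟨?_, ?_, ?_⟩, ?_⟩
  · intro M hM
    rw [Finset.mem_image] at hM
    obtain ⟨q, hq, rfl⟩ := hM
    have h := tc_pb H q hq
    refine ⟨?_, h.1.le, h.2⟩
    rw [← Finset.card_pos, h.1]
    norm_num
  · intro a
    exact tc_pos H hr hH a _ _ (fun M h => h)
  · intro v
    exact tc_val H hr v (hx v) _ _ (fun M h => h)
  · intro π hπ i j hij h hmem
    have hinj := π.injective
    have b0 : i < r := by omega
    have b1 : i + 1 < r := by omega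
    have b2 : j < r := by omega
    refine hπ (tcMk ((⟨i, b0⟩, ⟨i + 1, b1⟩), (⟨j, b2⟩, ⟨j + 1, h⟩),
      (π ⟨i, b0⟩, π ⟨i + 1, b1⟩, π ⟨j, b2⟩, π ⟨j + 1, h⟩))) ?_ ?_
    · rw [Finset.mem_image]
      refine ⟨_, ?_, rfl⟩
      rw [tc_memQ]
      refine ⟨rfl, rfl, hij, hmem, ?_, ?_, ?_, ?_, ?_, ?_⟩ <;>
      · intro e
        have := hinj e
        rw [Fin.mk.injEq] at this
        omega
    · intro p hp
      simp only [tcMk, Finset.mem_insert, Finset.mem_singleton] at hp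
      rcases hp with rfl | rfl | rfl | rfl <;> rfl

end Pool.Agent.Ham
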