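import Pool.Agent.Lib.MP_716318_co.H.Spec1

/-!
# MP_716318_co, package H: a fixed position and a pair of consecutive positions (`S_Td`)
-/

set_option autoImplicit false

namespace Pool.Agent.Ham

open Finset
open scoped Classical

/-- The next position. -/
private def nx {r : ℕ} (j : Fin r) : Fin r := if h : j.val + 1 < r then ⟨j.val + 1, h⟩ else j

private theorem nx_val {r : ℕ} (j : Fin r) (h : j.val + 1 < r) : (nx j).val = j.val + 1 := by
  unfold nx
  rw [dif_pos h]

/-- The member of the family. -/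
private noncomputable def mb {r : ℕ} {W : Type} (a : Fin r) (p : Fin r × W × W × W) : Finset (Fin r × W) :=
  {(a, p.2.1), (p.1, p.2.2.1), (nx p.1, p.2.2.2)}

/-- The admissible data. -/
private def ad {r : ℕ} {W : Type} (a : Fin r) (p : Fin r × W × W × W) : Prop :=
  p.1.val + 1 < r ∧ p.1.val ≠ a.val ∧ p.1.val + 1 ≠ a.val ∧ p.2.1 ≠ p.2.2.1 ∧
    p.2.1 ≠ p.2.2.2 ∧ p.2.2.1 ≠ p.2.2.2

private theorem pos_ne {r : ℕ} {W : Type} {a : Fin r} {p : Fin r × W × W × W} (h : ad a p) :
    a ≠ p.1 ∧ a ≠ nx p.1 ∧ p.1 ≠ nx p.1 := by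
  obtain ⟨h1, h2, h3, -, -, -⟩ := h
  have hn := nx_val p.1 h1
  refine ⟨fun e => h2 (by rw [e]), fun e => ?_, fun e => ?_⟩
  · have := congrArg Fin.val e
    omega
  · have := congrArg Fin.val e
    omega

private theorem mb_card {r : ℕ} {W : Type} {a : Fin r} {p : Fin r × W × W × W} (h : ad a p) :
    (mb a p).card = 3 := by
  obtain ⟨h1, h2, h3⟩ := pos_ne h
  unfold mb
  rw [Finset.card_eq_three]
  refine ⟨_, _, _, ?_, ?_, ?_, rfl⟩
  · exact fun e => h1 (congrArg Prod.fst e)
  · exact fun e => h2 (congrArg Prod.fst e)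
  · exact fun e => h3 (congrArg Prod.fst e)

private theorem mb_pb {r : ℕ} {W : Type} {a : Fin r} {p : Fin r × W × W × W} (h : ad a p) :
    PB (mb a p) := by
  obtain ⟨h1, h2, h3⟩ := pos_ne h
  obtain ⟨-, -, -, h4, h5, h6⟩ := h
  intro u hu v hv
  simp only [mb, Finset.mem_insert, Finset.mem_singleton] at hu hv
  rcases hu with rfl | rfl | rfl <;> rcases hv with rfl | rfl | rfl <;>
    simp [h1, h2, h3, h4, h5, h6, h1.symm, h2.symm, h3.symm, h4.symm, h5.symm, h6.symm]

theorem tTd : S_Td := by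
  refine ⟨20, ?_⟩
  intro r W _ _ a H hr hW hH
  let 𝓜 : Finset (Finset (Fin r × W)) := ((univ ×ˢ H).filter (ad a)).image (mb a)
  have hmem : ∀ M ∈ 𝓜, ∃ p, ad a p ∧ mb a p = M := by
    intro M hM
    obtain ⟨p, hp, rfl⟩ := Finset.mem_image.1 hM
    exact ⟨p, (Finset.mem_filter.1 hp).2, rfl⟩
  have hcard : (𝓜.card : ℝ) ≤ r * H.card := by
    have h1 : 𝓜.card ≤ ((univ : Finset (Fin r)) ×ˢ H).card :=
      le_trans Finset.card_image_le (Finset.card_filter_le _ _)
    rw [Finset.card_product, Finset.card_univ, Fintype.card_fin] at h1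
    exact_mod_cast h1
  have hw : ∀ M ∈ 𝓜, wt (Fintype.card (Fin r)) M.card = 1 / ((r : ℝ) * (r - 1) * (r - 2)) := by
    intro M hM
    obtain ⟨p, hp, rfl⟩ := hmem M hM
    rw [mb_card hp, Fintype.card_fin]
    unfold wt
    congr 1
    obtain ⟨s, rfl⟩ : ∃ s, r = s + 2 := ⟨r - 2, by omega⟩
    simp only [Nat.descFactorial_succ, Nat.descFactorial_zero, Nat.sub_zero, mul_one]
    have e1 : s + 2 - 2 = s := by omega
    have e2 : s + 2 - 1 = s + 1 := by omega
    rw [e1, e2]
    push_cast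
    ring
  have hrR : (20 : ℝ) ≤ r := by exact_mod_cast hr
  have hHR : 300 * (H.card : ℝ) ≤ (r : ℝ) ^ 2 := by exact_mod_cast hH
  have hden : 0 < (r : ℝ) * (r - 1) * (r - 2) := by
    have h1 : (0 : ℝ) < r := by linarith
    have h2 : (0 : ℝ) < r - 1 := by linarith
    have h3 : (0 : ℝ) < r - 2 := by linarith
    positivity
  have htot : ∀ 𝓢 ⊆ 𝓜, ∑ M ∈ 𝓢, wt (Fintype.card (Fin r)) M.card ≤ 1 / 250 := by
    intro 𝓢 hS
    calc ∑ M ∈ 𝓢, wt (Fintype.card (Fin r)) M.card
        = ∑ M ∈ 𝓢, 1 / ((r : ℝ) * (r - 1) * (r - 2)) :=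
          Finset.sum_congr rfl fun M hM => hw M (hS hM)
      _ = 𝓢.card * (1 / ((r : ℝ) * (r - 1) * (r - 2))) := by
          rw [Finset.sum_const, nsmul_eq_mul]
      _ ≤ (r * H.card) * (1 / ((r : ℝ) * (r - 1) * (r - 2))) := by
          apply mul_le_mul_of_nonneg_right _ (by positivity)
          refine le_trans ?_ hcard
          exact_mod_cast Finset.card_le_card hS
      _ ≤ 1 / 250 := by
          rw [mul_one_div, div_le_div_iff₀ hden (by norm_num)]
          have h1 : 250 * (H.card : ℝ) ≤ (r - 1) * (r - 2) := by nlinarith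
          have h2 : (0 : ℝ) ≤ r := by linarith
          nlinarith [mul_le_mul_of_nonneg_left h1 h2]
  refine ⟨𝓜, ⟨?_, ?_, ?_⟩, ?_⟩
  · intro M hM
    obtain ⟨p, hp, rfl⟩ := hmem M hM
    refine ⟨?_, ?_, mb_pb hp⟩
    · rw [← Finset.card_pos, mb_card hp]
      norm_num
    · rw [mb_card hp]
      norm_num
  · intro i
    refine htot _ ?_
    intro M hM
    simp only [Finset.mem_filter] at hM
    exact hM.1
  · intro w
    refine htot _ ?_
    intro M hM
    simp only [Finset.mem_filter] at hM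
    exact hM.1
  · intro π hπ j h h1 h2 hmemH
    have hjr : j < r := by omega
    let j' : Fin r := ⟨j, hjr⟩
    have hn : nx j' = ⟨j + 1, h⟩ := by
      apply Fin.ext
      exact nx_val j' h
    have hne1 : a ≠ j' := fun e => h1 (by rw [e])
    have hne2 : a ≠ ⟨j + 1, h⟩ := fun e => h2 (by rw [e])
    have hne3 : j' ≠ ⟨j + 1, h⟩ := fun e => by
      have := congrArg Fin.val e
      simp [j'] at this
    let p : Fin r × W × W × W := (j', π a, π j', π ⟨j + 1, h⟩)
    have hp : ad a p := by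
      refine ⟨h, h1, h2, ?_, ?_, ?_⟩
      · exact fun e => hne1 (π.injective e)
      · exact fun e => hne2 (π.injective e)
      · exact fun e => hne3 (π.injective e)
    have hM : mb a p ∈ 𝓜 := by
      apply Finset.mem_image_of_mem
      rw [Finset.mem_filter]
      exact ⟨Finset.mem_product.2 ⟨Finset.mem_univ _, hmemH⟩, hp⟩
    apply hπ _ hM
    intro u hu
    simp only [mb, Finset.mem_insert, Finset.mem_singleton] at hu
    rcases hu with rfl | rfl | rfl
    · rfl
    · rfl
    · change π (nx j') = π ⟨j + 1, h⟩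
      rw [hn]

end Pool.Agent.Ham
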