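import Pool.Agent.Lib.MP_716318_co.H.Spec1

/-!
# MP_716318_co, package H: two fixed positions
-/

set_option autoImplicit false

namespace Pool.Agent.Ham

open Finset
open scoped Classical

private theorem te_wt {r h : ℕ} (hr : 6 ≤ r) (hh : 300 * h ≤ r ^ 2) :
    (h : ℝ) * wt r 2 ≤ 1 / 250 := by
  have h1 : (r.descFactorial 2 : ℝ) = ((r : ℝ) - 1) * r := by
    rw [Nat.descFactorial_succ, Nat.descFactorial_one, Nat.cast_mul, Nat.cast_sub (by omega),
      Nat.cast_one]
  have h2 : (6 : ℝ) ≤ r := by exact_mod_cast hr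
  have h3 : 300 * (h : ℝ) ≤ (r : ℝ) ^ 2 := by exact_mod_cast hh
  have h4 : (0 : ℝ) < ((r : ℝ) - 1) * r := by nlinarith
  rw [wt, h1, mul_one_div, div_le_div_iff₀ h4 (by norm_num)]
  nlinarith

private theorem te_sum {r : ℕ} {W : Type} (hr : 6 ≤ r) (H : Finset (W × W))
    (𝓜 : Finset (Finset (Fin r × W))) (P : Finset (Fin r × W) → Prop)
    (D : DecidablePred P)
    (hc : ∀ M ∈ 𝓜, M.card = 2) (hM : 𝓜.card ≤ H.card) (hH : 300 * H.card ≤ r ^ 2) :
    ∑ M ∈ 𝓜.filter P, wt (Fintype.card (Fin r)) M.card ≤ 1 / 250 := by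
  have h0 : (0 : ℝ) ≤ wt r 2 := by
    rw [wt]
    positivity
  have h1 : ∑ M ∈ 𝓜.filter P, wt (Fintype.card (Fin r)) M.card =
      ((𝓜.filter P).card : ℝ) * wt r 2 := by
    rw [Finset.sum_congr rfl (g := fun _ => wt r 2) fun M hM => ?_, Finset.sum_const,
      nsmul_eq_mul]
    rw [hc M (Finset.mem_filter.1 hM).1, Fintype.card_fin]
  rw [h1]
  refine le_trans ?_ (te_wt hr hH)
  refine mul_le_mul_of_nonneg_right ?_ h0
  exact_mod_cast (Finset.card_filter_le _ _).trans hM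

theorem tTe : S_Te := by
  refine ⟨6, fun r W _ _ a b H hr hab hW hH => ?_⟩
  let g : W × W → Finset (Fin r × W) := fun q => {(a, q.1), (b, q.2)}
  have hg : ∀ q, (g q).card = 2 := fun q => Finset.card_pair fun h => hab (congrArg Prod.fst h)
  let 𝓜 : Finset (Finset (Fin r × W)) := (H.filter fun q => q.1 ≠ q.2).image g
  have hc : ∀ M ∈ 𝓜, M.card = 2 := by
    intro M hM
    obtain ⟨q, _, rfl⟩ := Finset.mem_image.1 hM
    exact hg q
  have hM : 𝓜.card ≤ H.card := Finset.card_image_le.trans (Finset.card_filter_le _ _)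
  refine ⟨𝓜, ⟨fun M hM' => ?_, fun i => te_sum hr H 𝓜 _ _ hc hM hH,
    fun w => te_sum hr H 𝓜 _ _ hc hM hH⟩, fun π hπ hin => ?_⟩
  · obtain ⟨q, hq, rfl⟩ := Finset.mem_image.1 hM'
    have hq' : q.1 ≠ q.2 := (Finset.mem_filter.1 hq).2
    refine ⟨⟨(a, q.1), Finset.mem_insert_self _ _⟩, by rw [hg q]; norm_num, ?_⟩
    intro p hp p' hp'
    rcases Finset.mem_insert.1 hp with rfl | hp
    · rcases Finset.mem_insert.1 hp' with rfl | hp'
      · exact ⟨fun _ => rfl, fun _ => rfl⟩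
      · rw [Finset.mem_singleton.1 hp']
        exact ⟨fun h => absurd h hab, fun h => absurd h hq'⟩
    · rw [Finset.mem_singleton.1 hp]
      rcases Finset.mem_insert.1 hp' with rfl | hp'
      · exact ⟨fun h => absurd h.symm hab, fun h => absurd h.symm hq'⟩
      · rw [Finset.mem_singleton.1 hp']
        exact ⟨fun _ => rfl, fun _ => rfl⟩
  · have hne : π a ≠ π b := fun h => hab (π.injective h)
    refine hπ (g (π a, π b)) (Finset.mem_image.2 ⟨_, Finset.mem_filter.2 ⟨hin, hne⟩, rfl⟩) ?_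
    intro p hp
    rcases Finset.mem_insert.1 hp with rfl | hp
    · rfl
    · rw [Finset.mem_singleton.1 hp]

end Pool.Agent.Ham
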