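import Pool.Agent.Lib.MP_716318_co.H.Spec2

/-!
# MP_716318_co, package H: Theorem A (`S_ThA`)
-/

set_option autoImplicit false

namespace Pool.Agent.Ham

open Finset
open scoped Classical

private theorem tha_ind {V : Type} [Fintype V] [DecidableEq V] (F : Finset (Finset V))
    (J : Finset V) (θ : ℝ) (a : {v // v ∈ J} → {x // x ∉ J}) :
    (if ¬ Z0 F J θ a then (1 : ℝ) else 0) ≤
      (∑ v : {v // v ∈ J}, if Dd F J θ v.1 (a v).1 then (1 : ℝ) else 0) +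
      (1 / 2) * ∑ v : {v // v ∈ J}, ∑ w : {v // v ∈ J},
        if v ≠ w then (if ({v.1, (a v).1, w.1, (a w).1} : Finset V) ∈ F then (1 : ℝ) else 0)
          else 0 := by
  have h1 : ∀ v : {v // v ∈ J}, (0 : ℝ) ≤ if Dd F J θ v.1 (a v).1 then (1 : ℝ) else 0 := by
    intro v; split_ifs <;> norm_num
  have h2 : ∀ v w : {v // v ∈ J}, (0 : ℝ) ≤ if v ≠ w then
      (if ({v.1, (a v).1, w.1, (a w).1} : Finset V) ∈ F then (1 : ℝ) else 0) else 0 := by
    intro v w; split_ifs <;> norm_num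
  have h3 : (0 : ℝ) ≤ ∑ v : {v // v ∈ J}, if Dd F J θ v.1 (a v).1 then (1 : ℝ) else 0 :=
    Finset.sum_nonneg (fun v _ => h1 v)
  have h4 : ∀ v : {v // v ∈ J}, (0 : ℝ) ≤ ∑ w : {v // v ∈ J}, if v ≠ w then
      (if ({v.1, (a v).1, w.1, (a w).1} : Finset V) ∈ F then (1 : ℝ) else 0) else 0 :=
    fun v => Finset.sum_nonneg (fun w _ => h2 v w)
  have h5 : (0 : ℝ) ≤ ∑ v : {v // v ∈ J}, ∑ w : {v // v ∈ J}, if v ≠ w then
      (if ({v.1, (a v).1, w.1, (a w).1} : Finset V) ∈ F then (1 : ℝ) else 0) else 0 :=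
    Finset.sum_nonneg (fun v _ => h4 v)
  by_cases hZ : Z0 F J θ a
  · rw [if_neg (not_not.2 hZ)]
    positivity
  rw [if_pos hZ]
  unfold Z0 at hZ
  rw [not_and_or] at hZ
  rcases hZ with h | h
  · push Not at h
    obtain ⟨v, hv⟩ := h
    have h6 := Finset.single_le_sum (fun v _ => h1 v) (Finset.mem_univ v)
    rw [if_pos hv] at h6
    linarith
  · push Not at h
    obtain ⟨v, w, hvw, hF⟩ := h
    have h6 := Finset.single_le_sum (fun w _ => h2 v w) (Finset.mem_univ w)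
    rw [if_pos hvw, if_pos hF] at h6
    have hF' : ({w.1, (a w).1, v.1, (a v).1} : Finset V) ∈ F := by
      have : ({w.1, (a w).1, v.1, (a v).1} : Finset V) = {v.1, (a v).1, w.1, (a w).1} := by
        ext z; simp only [Finset.mem_insert, Finset.mem_singleton]; tauto
      rw [this]; exact hF
    have h7 := Finset.single_le_sum (fun v' _ => h2 w v') (Finset.mem_univ v)
    rw [if_pos (Ne.symm hvw), if_pos hF'] at h7
    have h8 : (∑ u ∈ ({v, w} : Finset {v // v ∈ J}), ∑ w : {v // v ∈ J}, if u ≠ w then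
      (if ({u.1, (a u).1, w.1, (a w).1} : Finset V) ∈ F then (1 : ℝ) else 0) else 0) ≤
      ∑ u : {v // v ∈ J}, ∑ w : {v // v ∈ J}, if u ≠ w then
      (if ({u.1, (a u).1, w.1, (a w).1} : Finset V) ∈ F then (1 : ℝ) else 0) else 0 :=
      Finset.sum_le_sum_of_subset_of_nonneg (Finset.subset_univ _) (fun u _ _ => h4 u)
    rw [Finset.sum_pair hvw] at h8
    linarith

private theorem tha_count (hPr : S_Pr) {V : Type} [Fintype V] [DecidableEq V]
    (F : Finset (Finset V)) (J : Finset V) (θ : ℝ) :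
    (Fintype.card {x // x ∉ J} : ℝ) ^ 2 *
      (univ.filter (fun a : {v // v ∈ J} → {x // x ∉ J} => ¬ Z0 F J θ a)).card ≤
    (Fintype.card {x // x ∉ J} : ℝ) ^ Fintype.card {v // v ∈ J} *
      ((Fintype.card {x // x ∉ J} : ℝ) * ∑ v ∈ J, (nD F J θ v : ℝ) +
      (1 / 2) * ∑ v ∈ J, ∑ w ∈ J.erase v, (nE F J v w : ℝ)) := by
  obtain ⟨hP1, hP2, -⟩ := hPr {v // v ∈ J} {x // x ∉ J}
  obtain ⟨L, hL⟩ : ∃ L : ℝ, L = (Fintype.card {x // x ∉ J} : ℝ) := ⟨_, rfl⟩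
  obtain ⟨P, hP⟩ : ∃ P : ℝ, P = L ^ Fintype.card {v // v ∈ J} := ⟨_, rfl⟩
  rw [← hL] at hP1 hP2 ⊢
  rw [← hP] at hP1 hP2 ⊢
  -- one vertex
  have hD : ∀ v : {v // v ∈ J}, L * ∑ a : {v // v ∈ J} → {x // x ∉ J},
      (if Dd F J θ v.1 (a v).1 then (1 : ℝ) else 0) = P * nD F J θ v.1 := by
    intro v
    rw [hP1 v (fun x => if Dd F J θ v.1 x.1 then (1 : ℝ) else 0)]
    congr 1
    unfold nD
    rw [Finset.card_filter]
    push_cast
    have h1 : (∑ x : V, if x ∉ J ∧ Dd F J θ v.1 x then (1 : ℝ) else 0) =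
        ∑ x ∈ univ.filter (fun x => x ∉ J), if Dd F J θ v.1 x then (1 : ℝ) else 0 := by
      rw [Finset.sum_filter]
      refine Finset.sum_congr rfl (fun x _ => ?_)
      by_cases hx : x ∈ J <;> simp [hx]
    rw [h1]
    exact (Finset.sum_subtype (univ.filter (fun x => x ∉ J)) (by intro x; simp)
      (fun x => if Dd F J θ v.1 x then (1 : ℝ) else 0)).symm
  have hE : ∀ v w : {v // v ∈ J}, L ^ 2 * ∑ a : {v // v ∈ J} → {x // x ∉ J},
      (if v ≠ w then (if ({v.1, (a v).1, w.1, (a w).1} : Finset V) ∈ F then (1 : ℝ) else 0)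
        else 0) = P * (if v.1 ≠ w.1 then (nE F J v.1 w.1 : ℝ) else 0) := by
    intro v w
    by_cases hvw : v = w
    · subst hvw; simp
    have hvw' : v.1 ≠ w.1 := fun h => hvw (Subtype.ext h)
    simp only [ne_eq, hvw, not_false_eq_true, if_true, hvw']
    rw [hP2 v w (fun x y => if ({v.1, x.1, w.1, y.1} : Finset V) ∈ F then (1 : ℝ) else 0) hvw]
    congr 1
    unfold nE
    rw [Finset.card_filter]
    push_cast
    rw [← Finset.univ_product_univ, Finset.sum_product]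
    have h1 : ∀ x : V, (∑ y : V, if x ∉ J ∧ y ∉ J ∧ ({v.1, x, w.1, y} : Finset V) ∈ F
        then (1 : ℝ) else 0) = if x ∉ J then (∑ y ∈ univ.filter (fun y => y ∉ J),
          if ({v.1, x, w.1, y} : Finset V) ∈ F then (1 : ℝ) else 0) else 0 := by
      intro x
      by_cases hx : x ∈ J
      · simp [hx]
      · rw [if_pos hx, Finset.sum_filter]
        refine Finset.sum_congr rfl (fun y _ => ?_)
        by_cases hy : y ∈ J <;> simp [hx, hy]
    rw [Finset.sum_congr rfl (fun x _ => h1 x), ← Finset.sum_filter]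
    have h2 : ∀ x : V, (∑ y ∈ univ.filter (fun y => y ∉ J),
          if ({v.1, x, w.1, y} : Finset V) ∈ F then (1 : ℝ) else 0) =
          ∑ y : {y // y ∉ J}, if ({v.1, x, w.1, y.1} : Finset V) ∈ F then (1 : ℝ) else 0 := by
      intro x
      exact Finset.sum_subtype (univ.filter (fun y => y ∉ J)) (by intro y; simp)
        (fun y => if ({v.1, x, w.1, y} : Finset V) ∈ F then (1 : ℝ) else 0)
    rw [Finset.sum_congr rfl (fun x _ => h2 x)]
    exact (Finset.sum_subtype (univ.filter (fun x => x ∉ J)) (by intro x; simp)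
      (fun x => ∑ y : {y // y ∉ J},
        if ({v.1, x, w.1, y.1} : Finset V) ∈ F then (1 : ℝ) else 0)).symm
  have hcount : ((univ.filter (fun a : {v // v ∈ J} → {x // x ∉ J} => ¬ Z0 F J θ a)).card : ℝ) ≤
      (∑ v : {v // v ∈ J}, ∑ a : {v // v ∈ J} → {x // x ∉ J},
        if Dd F J θ v.1 (a v).1 then (1 : ℝ) else 0) +
      (1 / 2) * ∑ v : {v // v ∈ J}, ∑ w : {v // v ∈ J}, ∑ a : {v // v ∈ J} → {x // x ∉ J},
        if v ≠ w then (if ({v.1, (a v).1, w.1, (a w).1} : Finset V) ∈ F then (1 : ℝ) else 0)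
          else 0 := by
    rw [Finset.card_filter]
    push_cast
    refine (Finset.sum_le_sum (fun a _ => tha_ind F J θ a)).trans ?_
    rw [Finset.sum_add_distrib, ← Finset.mul_sum]
    apply le_of_eq
    congr 1
    · exact Finset.sum_comm
    · congr 1
      rw [Finset.sum_comm]
      exact Finset.sum_congr rfl (fun v _ => Finset.sum_comm)
  have hS1 : (∑ v : {v // v ∈ J}, (nD F J θ v.1 : ℝ)) = ∑ v ∈ J, (nD F J θ v : ℝ) :=
    Finset.sum_coe_sort J (fun v => (nD F J θ v : ℝ))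
  have hS2 : (∑ v : {v // v ∈ J}, ∑ w : {v // v ∈ J},
      if v.1 ≠ w.1 then (nE F J v.1 w.1 : ℝ) else 0) =
      ∑ v ∈ J, ∑ w ∈ J.erase v, (nE F J v w : ℝ) := by
    have h1 : ∀ v : V, (∑ w : {v // v ∈ J}, if v ≠ w.1 then (nE F J v w.1 : ℝ) else 0) =
        ∑ w ∈ J.erase v, (nE F J v w : ℝ) := by
      intro v
      rw [Finset.sum_coe_sort J (fun w => if v ≠ w then (nE F J v w : ℝ) else 0),
        ← Finset.sum_filter]
      refine Finset.sum_congr ?_ (fun _ _ => rfl)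
      ext w
      rw [Finset.mem_filter, Finset.mem_erase]
      exact ⟨fun h => ⟨h.2.symm, h.1⟩, fun h => ⟨h.2, h.1.symm⟩⟩
    rw [Finset.sum_congr rfl (fun (v : {v // v ∈ J}) _ => h1 v.1)]
    exact Finset.sum_coe_sort J (fun v => ∑ w ∈ J.erase v, (nE F J v w : ℝ))
  have hL0 : 0 ≤ L := by rw [hL]; exact Nat.cast_nonneg _
  calc L ^ 2 * ((univ.filter (fun a : {v // v ∈ J} → {x // x ∉ J} => ¬ Z0 F J θ a)).card : ℝ)
      ≤ L ^ 2 * ((∑ v : {v // v ∈ J}, ∑ a : {v // v ∈ J} → {x // x ∉ J},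
        if Dd F J θ v.1 (a v).1 then (1 : ℝ) else 0) +
      (1 / 2) * ∑ v : {v // v ∈ J}, ∑ w : {v // v ∈ J}, ∑ a : {v // v ∈ J} → {x // x ∉ J},
        if v ≠ w then (if ({v.1, (a v).1, w.1, (a w).1} : Finset V) ∈ F then (1 : ℝ) else 0)
          else 0) := mul_le_mul_of_nonneg_left hcount (by positivity)
    _ = L * (∑ v : {v // v ∈ J}, L * ∑ a : {v // v ∈ J} → {x // x ∉ J},
        if Dd F J θ v.1 (a v).1 then (1 : ℝ) else 0) +
      (1 / 2) * ∑ v : {v // v ∈ J}, ∑ w : {v // v ∈ J}, L ^ 2 *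
        ∑ a : {v // v ∈ J} → {x // x ∉ J},
        if v ≠ w then (if ({v.1, (a v).1, w.1, (a w).1} : Finset V) ∈ F then (1 : ℝ) else 0)
          else 0 := by
        rw [← Finset.mul_sum]
        simp_rw [← Finset.mul_sum]
        ring
    _ = L * (∑ v : {v // v ∈ J}, P * (nD F J θ v.1 : ℝ)) +
      (1 / 2) * ∑ v : {v // v ∈ J}, ∑ w : {v // v ∈ J},
        P * (if v.1 ≠ w.1 then (nE F J v.1 w.1 : ℝ) else 0) := by
        rw [Finset.sum_congr rfl (fun v _ => hD v)]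
        rw [Finset.sum_congr rfl (fun v _ => Finset.sum_congr rfl (fun w _ => hE v w))]
    _ = P * (L * ∑ v ∈ J, (nD F J θ v : ℝ) +
      (1 / 2) * ∑ v ∈ J, ∑ w ∈ J.erase v, (nE F J v w : ℝ)) := by
        rw [← hS1, ← hS2]
        simp_rw [← Finset.mul_sum]
        ring

theorem tThA : S_Gt → S_Cost → S_Pr → S_Sum → S_ThA := by
  intro hGt hCost hPr hSum γ₀ hγ₀
  obtain ⟨γ, hγdef⟩ : ∃ γ : ℝ, γ = min γ₀ (1 / 2) := ⟨_, rfl⟩
  have hγ : 0 < γ := by rw [hγdef]; exact lt_min hγ₀ (by norm_num)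
  have hγ2 : γ ≤ 1 / 2 := by rw [hγdef]; exact min_le_right _ _
  have hγγ : γ ≤ γ₀ := by rw [hγdef]; exact min_le_left _ _
  obtain ⟨δ, hδdef⟩ : ∃ δ : ℝ, δ = min (γ / 8) (1 / 500) := ⟨_, rfl⟩
  have hδ : 0 < δ := by rw [hδdef]; exact lt_min (by positivity) (by norm_num)
  have hδ1 : δ ≤ γ / 8 := by rw [hδdef]; exact min_le_left _ _
  have hδ2 : δ ≤ 1 / 500 := by rw [hδdef]; exact min_le_right _ _
  obtain ⟨εm, hεm, n1, hGt⟩ := hGt γ δ 1 hγ (by linarith) hδ hδ2 one_pos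
  obtain ⟨n2, hn2⟩ := exists_nat_ge ((2 + 2 / εm) / δ)
  refine ⟨max n1 n2, ?_⟩
  intro V _ _ F hU4 hn hF
  by_contra hAcc
  obtain ⟨n, hnn⟩ : ∃ n : ℝ, n = (Fintype.card V : ℝ) := ⟨_, rfl⟩
  have hn1 : n1 ≤ Fintype.card V := (le_max_left _ _).trans hn
  have h2m : 0 < 2 / εm := by positivity
  have hn2' : 2 + 2 / εm ≤ δ * n := by
    have h1 : (2 + 2 / εm) / δ ≤ n := by
      rw [hnn]
      exact hn2.trans (by exact_mod_cast (le_max_right _ _).trans hn)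
    rw [div_le_iff₀ hδ] at h1
    linarith
  have hnpos : 0 < n := by
    by_contra h
    have : δ * n ≤ 0 := mul_nonpos_of_nonneg_of_nonpos hδ.le (not_lt.1 h)
    linarith
  have hn2pos : 0 < n ^ 2 := by positivity
  rw [← hnn] at hF
  have hF2 : 2 * (F.card : ℝ) ≤ (1 - 2 * γ) * n ^ 2 := by nlinarith
  have hFn : 2 * F.card ≤ (Fintype.card V) ^ 2 := by
    have h1 : 2 * (F.card : ℝ) ≤ n ^ 2 := by nlinarith
    rw [hnn] at h1
    exact_mod_cast h1
  obtain ⟨ε, hε1, -, hZ⟩ := hGt V F hU4 hn1 hFn hAcc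
  have hεpos : 0 < ε := lt_of_lt_of_le hεm hε1
  rw [← hnn] at hZ
  obtain ⟨J, hJ⟩ : ∃ J : Finset V, J = He F ε := ⟨_, rfl⟩
  have hJc : (J.card : ℝ) ≤ 2 / εm := by
    have h1 := (hSum V F hU4).2.2 ε
    rw [← hJ, ← hnn] at h1
    have h2 : (J.card : ℝ) * ε * n ^ 2 ≤ 2 * n ^ 2 := by nlinarith
    have h3 : (J.card : ℝ) * ε ≤ 2 := le_of_mul_le_mul_right h2 hn2pos
    have h4 : (J.card : ℝ) * εm ≤ (J.card : ℝ) * ε :=
      mul_le_mul_of_nonneg_left hε1 (Nat.cast_nonneg _)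
    rw [le_div_iff₀ hεm]; linarith
  rw [← hJ] at hZ
  obtain ⟨θ, hθ⟩ : ∃ θ : ℝ, θ = (1 - δ) * n := ⟨_, rfl⟩
  rw [← hθ] at hZ
  obtain ⟨L, hL⟩ : ∃ L : ℝ, L = (Fintype.card {x // x ∉ J} : ℝ) := ⟨_, rfl⟩
  have hLn : L = n - J.card := by
    have h1 : Fintype.card {x // x ∉ J} = Fintype.card V - J.card := by
      rw [Fintype.card_subtype_compl, Fintype.card_coe]
    have h2 : J.card ≤ Fintype.card V := Finset.card_le_univ J
    rw [hL, h1, Nat.cast_sub h2, hnn]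
  have hδn : δ * n ≤ n / 500 := by nlinarith
  have hLpos : 0 < L := by rw [hLn]; linarith
  have hθ1 : 0 < θ - 1 := by rw [hθ]; linarith
  have hθL : θ - 1 ≤ L := by rw [hθ, hLn]; linarith
  have hθLn : (1 - 2 * δ) * n ^ 2 ≤ (θ - 1) * L := by
    have h1 : 1 + 2 / εm ≤ δ * n := by linarith
    have h2 : (θ - 1) * L = (1 - δ) * n ^ 2 - n - (J.card : ℝ) * ((1 - δ) * n - 1) := by
      rw [hθ, hLn]; ring
    have h3 : (J.card : ℝ) * ((1 - δ) * n - 1) ≤ 2 / εm * n := by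
      have h4 : 0 ≤ (1 - δ) * n - 1 := by rw [← hθ]; exact hθ1.le
      have h5 : (1 - δ) * n - 1 ≤ n := by nlinarith
      calc (J.card : ℝ) * ((1 - δ) * n - 1) ≤ 2 / εm * ((1 - δ) * n - 1) :=
            mul_le_mul_of_nonneg_right hJc h4
        _ ≤ 2 / εm * n := mul_le_mul_of_nonneg_left h5 h2m.le
    have h6 : (1 + 2 / εm) * n ≤ δ * n * n := mul_le_mul_of_nonneg_right h1 hnpos.le
    rw [h2]
    nlinarith
  have hcost := (hCost V F J θ hU4 (by linarith)).2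
  have hcnt := tha_count hPr F J θ
  obtain ⟨S1, hS1⟩ : ∃ S1 : ℝ, S1 = ∑ v ∈ J, (nD F J θ v : ℝ) := ⟨_, rfl⟩
  obtain ⟨S2, hS2⟩ : ∃ S2 : ℝ, S2 = ∑ v ∈ J, ∑ w ∈ J.erase v, (nE F J v w : ℝ) := ⟨_, rfl⟩
  rw [← hS1, ← hS2] at hcost hcnt
  have hS2n : 0 ≤ S2 := by
    rw [hS2]
    exact Finset.sum_nonneg (fun v _ => Finset.sum_nonneg (fun w _ => Nat.cast_nonneg _))
  rw [← hL] at hcnt hZ
  obtain ⟨P, hP⟩ : ∃ P : ℝ, P = L ^ Fintype.card {v // v ∈ J} := ⟨_, rfl⟩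
  rw [← hP] at hcnt hZ
  have hPpos : 0 < P := by rw [hP]; positivity
  have htot : ((univ.filter (fun a : {v // v ∈ J} → {x // x ∉ J} => Z0 F J θ a)).card : ℝ) +
      (univ.filter (fun a : {v // v ∈ J} → {x // x ∉ J} => ¬ Z0 F J θ a)).card = P := by
    have h1 := Finset.card_filter_add_card_filter_not
      (s := (univ : Finset ({v // v ∈ J} → {x // x ∉ J}))) (fun a => Z0 F J θ a)
    rw [Finset.card_univ, Fintype.card_fun] at h1
    rw [hP, hL]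
    exact_mod_cast h1
  obtain ⟨N, hN⟩ : ∃ N : ℝ, N =
    ((univ.filter (fun a : {v // v ∈ J} → {x // x ∉ J} => ¬ Z0 F J θ a)).card : ℝ) := ⟨_, rfl⟩
  rw [← hN] at hcnt htot
  have hNlow : (1 - γ) * P < N := by linarith
  -- the upper bound
  have h1 : (θ - 1) * (L * S1 + 1 / 2 * S2) ≤ 2 * L * F.card := by
    have h2 : (θ - 1) * S2 ≤ L * S2 := mul_le_mul_of_nonneg_right hθL hS2n
    have h3 : L * (2 * (θ - 1) * S1 + S2) ≤ L * (4 * F.card) :=
      mul_le_mul_of_nonneg_left hcost hLpos.le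
    nlinarith
  have h2 : (θ - 1) * (L ^ 2 * N) ≤ P * (2 * L * F.card) := by
    calc (θ - 1) * (L ^ 2 * N) ≤ (θ - 1) * (P * (L * S1 + 1 / 2 * S2)) :=
          mul_le_mul_of_nonneg_left hcnt hθ1.le
      _ = P * ((θ - 1) * (L * S1 + 1 / 2 * S2)) := by ring
      _ ≤ P * (2 * L * F.card) := mul_le_mul_of_nonneg_left h1 hPpos.le
  have h3 : (θ - 1) * L * N ≤ P * (2 * F.card) := by
    have h4 : ((θ - 1) * L * N) * L ≤ (P * (2 * F.card)) * L := by
      calc ((θ - 1) * L * N) * L = (θ - 1) * (L ^ 2 * N) := by ring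
        _ ≤ P * (2 * L * F.card) := h2
        _ = (P * (2 * F.card)) * L := by ring
    exact le_of_mul_le_mul_right h4 hLpos
  have hN0 : 0 ≤ N := by rw [hN]; exact Nat.cast_nonneg _
  have h4 : (1 - 2 * δ) * n ^ 2 * N ≤ P * ((1 - 2 * γ) * n ^ 2) :=
    calc (1 - 2 * δ) * n ^ 2 * N ≤ (θ - 1) * L * N := mul_le_mul_of_nonneg_right hθLn hN0
      _ ≤ P * (2 * F.card) := h3
      _ ≤ P * ((1 - 2 * γ) * n ^ 2) := mul_le_mul_of_nonneg_left hF2 hPpos.le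
  have h5 : (1 - 2 * δ) * n ^ 2 * ((1 - γ) * P) < (1 - 2 * δ) * n ^ 2 * N :=
    mul_lt_mul_of_pos_left hNlow (mul_pos (by linarith) hn2pos)
  have h6 : (1 - 2 * δ) * (1 - γ) * (n ^ 2 * P) < (1 - 2 * γ) * (n ^ 2 * P) := by
    calc (1 - 2 * δ) * (1 - γ) * (n ^ 2 * P) = (1 - 2 * δ) * n ^ 2 * ((1 - γ) * P) := by ring
      _ < (1 - 2 * δ) * n ^ 2 * N := h5
      _ ≤ P * ((1 - 2 * γ) * n ^ 2) := h4
      _ = (1 - 2 * γ) * (n ^ 2 * P) := by ring
  have h7 : (1 - 2 * δ) * (1 - γ) < 1 - 2 * γ :=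
    lt_of_mul_lt_mul_right h6 (by positivity)
  nlinarith

end Pool.Agent.Ham
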