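import Pool.Agent.Lib.MP_716318_co.H.Spec2

/-!
# MP_716318_co, package H: a member serves at most two vertices (S_Two)
-/

set_option autoImplicit false

namespace Pool.Agent.Ham

open Finset
open scoped Classical

private lemma twoD4 {V : Type} [DecidableEq V] {a b c d : V}
    (h : ({a, b, c, d} : Finset V).card = 4) :
    a ≠ b ∧ a ≠ c ∧ a ≠ d ∧ b ≠ c ∧ b ≠ d ∧ c ≠ d := by
  rw [Finset.card_insert_eq_ite, Finset.card_insert_eq_ite, Finset.card_insert_eq_ite,
    Finset.card_singleton] at h
  split_ifs at h with h1 h2 h3 h4 h5 h6 h7 <;> simp at * <;> tauto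

/-- In a set `{p, q, r}` mapped into itself without fixed points some orbit is everything. -/
private lemma twoOrb {V : Type} [DecidableEq V] (y : V → V) (p q r : V)
    (hp : y p = q ∨ y p = r) (hq : y q = p ∨ y q = r) (hr : y r = p ∨ y r = q) :
    ∃ z ∈ ({p, q, r} : Finset V), ({p, q, r} : Finset V) = {z, y z, y (y z)} := by
  rcases hp with h1 | h1 <;> rcases hq with h2 | h2 <;> rcases hr with h3 | h3
  · refine ⟨r, by simp, ?_⟩
    rw [h3, h1]; ext t; simp only [Finset.mem_insert, Finset.mem_singleton]; tauto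
  · refine ⟨r, by simp, ?_⟩
    rw [h3, h2]; ext t; simp only [Finset.mem_insert, Finset.mem_singleton]; tauto
  · refine ⟨p, by simp, ?_⟩
    rw [h1, h2]
  · refine ⟨p, by simp, ?_⟩
    rw [h1, h2]
  · refine ⟨q, by simp, ?_⟩
    rw [h2, h1]; ext t; simp only [Finset.mem_insert, Finset.mem_singleton]; tauto
  · refine ⟨p, by simp, ?_⟩
    rw [h1, h3]; ext t; simp only [Finset.mem_insert, Finset.mem_singleton]; tauto
  · refine ⟨q, by simp, ?_⟩
    rw [h2, h3]; ext t; simp only [Finset.mem_insert, Finset.mem_singleton]; tauto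
  · refine ⟨p, by simp, ?_⟩
    rw [h1, h3]; ext t; simp only [Finset.mem_insert, Finset.mem_singleton]; tauto

private lemma twoMul {V : Type} [Fintype V] [DecidableEq V] (v : V) (D : Finset V)
    (y : V → V) (hD : ∀ a ∈ D, v ≠ a ∧ v ≠ y a ∧ a ≠ y a) (A : Finset V) (hA : A.card = 4)
    (hv : v ∈ A) :
    (D.filter (fun a => ({v, a, y a} : Finset V) ⊆ A)).card ≤
      2 + (D.filter (fun z => A = {v, z, y z, y (y z)})).card := by
  by_cases h2 : (D.filter (fun a => ({v, a, y a} : Finset V) ⊆ A)).card ≤ 2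
  · omega
  push Not at h2
  have hsub : D.filter (fun a => ({v, a, y a} : Finset V) ⊆ A) ⊆ A.erase v := by
    intro a ha
    simp only [Finset.mem_filter] at ha
    rw [Finset.mem_erase]
    exact ⟨(hD a ha.1).1.symm, ha.2 (by simp)⟩
  have hcE : (A.erase v).card = 3 := by rw [Finset.card_erase_of_mem hv, hA]
  have heq : D.filter (fun a => ({v, a, y a} : Finset V) ⊆ A) = A.erase v :=
    Finset.eq_of_subset_of_card_le hsub (by omega)
  obtain ⟨p, q, r, hpq, hpr, hqr, hE⟩ := Finset.card_eq_three.mp hcE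
  have hmem : ∀ a ∈ ({p, q, r} : Finset V), a ∈ D ∧ y a ∈ ({p, q, r} : Finset V) ∧ y a ≠ a := by
    intro a ha
    rw [← hE, ← heq, Finset.mem_filter] at ha
    refine ⟨ha.1, ?_, (hD a ha.1).2.2.symm⟩
    rw [← hE, Finset.mem_erase]
    exact ⟨(hD a ha.1).2.1.symm, ha.2 (by simp)⟩
  have hp := hmem p (by simp)
  have hq := hmem q (by simp)
  have hr := hmem r (by simp)
  simp only [Finset.mem_insert, Finset.mem_singleton] at hp hq hr
  obtain ⟨z, hz, hz'⟩ := twoOrb y p q r (by tauto) (by tauto) (by tauto)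
  have hzD : z ∈ D := (hmem z hz).1
  have hAz : A = {v, z, y z, y (y z)} := by
    rw [← hz', ← hE, Finset.insert_erase hv]
  have h3 : (D.filter (fun a => ({v, a, y a} : Finset V) ⊆ A)).card = 3 := by rw [heq, hcE]
  have h1 : 0 < (D.filter (fun z => A = {v, z, y z, y (y z)})).card :=
    Finset.card_pos.mpr ⟨z, Finset.mem_filter.mpr ⟨hzD, hAz⟩⟩
  omega

/-- A member serves at most two vertices, with at most `|D|` exceptions. -/
theorem tTwo : S_Two := by
  intro V _ _ F v D y θ hF hθ hD
  have hex : ∀ a ∈ D, v ≠ a ∧ v ≠ y a ∧ a ≠ y a := by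
    intro a ha
    have h0 : 0 < c3 F v a (y a) := by
      have := hD a ha
      have h1 : (0 : ℝ) < c3 F v a (y a) := lt_of_lt_of_le hθ this
      exact_mod_cast h1
    obtain ⟨t, ht⟩ := Finset.card_pos.mp h0
    simp only [Finset.mem_filter, Finset.mem_univ, true_and] at ht
    have h4 := twoD4 (hF _ ht)
    exact ⟨h4.1, h4.2.1, h4.2.2.2.1⟩
  have hS : ∀ a ∈ D, c3 F v a (y a) ≤
      ((F.filter (fun A => {v} ⊆ A)).filter (fun A => ({v, a, y a} : Finset V) ⊆ A)).card := by
    intro a ha
    unfold c3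
    refine Finset.card_le_card_of_injOn (fun t => ({v, a, y a, t} : Finset V)) ?_ ?_
    · intro t ht
      simp only [Finset.coe_filter, Set.mem_setOf_eq, Finset.mem_univ, true_and] at ht
      simp only [Finset.coe_filter, Set.mem_setOf_eq, Finset.mem_filter]
      refine ⟨⟨ht, by simp⟩, ?_⟩
      intro s hs
      simp only [Finset.mem_insert, Finset.mem_singleton] at hs ⊢
      tauto
    · intro t ht t' ht' h
      simp only [Finset.coe_filter, Set.mem_setOf_eq, Finset.mem_univ, true_and] at ht ht'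
      have h4 := twoD4 (hF _ ht)
      have h4' := twoD4 (hF _ ht')
      have hm : t ∈ ({v, a, y a, t'} : Finset V) := by
        rw [← show ({v, a, y a, t} : Finset V) = {v, a, y a, t'} from h]; simp
      simp only [Finset.mem_insert, Finset.mem_singleton] at hm
      rcases hm with hm | hm | hm | hm
      · exact absurd hm.symm h4.2.2.1
      · exact absurd hm.symm h4.2.2.2.2.1
      · exact absurd hm.symm h4.2.2.2.2.2
      · exact hm
  -- double counting
  have hdc : ∑ a ∈ D, ((F.filter (fun A => {v} ⊆ A)).filter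
      (fun A => ({v, a, y a} : Finset V) ⊆ A)).card =
      ∑ A ∈ F.filter (fun A => {v} ⊆ A), (D.filter (fun a => ({v, a, y a} : Finset V) ⊆ A)).card := by
    simp_rw [Finset.card_filter (fun A : Finset V => _ ⊆ A) (F.filter (fun A => {v} ⊆ A))]
    rw [Finset.sum_comm]
    refine Finset.sum_congr rfl fun A _ => ?_
    rw [Finset.card_filter]
  have hdc2 : ∑ A ∈ F.filter (fun A => {v} ⊆ A),
      (D.filter (fun z => A = {v, z, y z, y (y z)})).card ≤ D.card := by
    have : ∑ A ∈ F.filter (fun A => {v} ⊆ A),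
        (D.filter (fun z => A = {v, z, y z, y (y z)})).card =
        ∑ z ∈ D, ((F.filter (fun A => {v} ⊆ A)).filter
          (fun A => A = {v, z, y z, y (y z)})).card := by
      simp_rw [Finset.card_filter _ D]
      rw [Finset.sum_comm]
      refine Finset.sum_congr rfl fun A _ => ?_
      rw [Finset.card_filter]
    rw [this]
    calc _ ≤ ∑ z ∈ D, 1 := by
          refine Finset.sum_le_sum fun z _ => ?_
          refine Finset.card_le_one.mpr ?_
          intro A hA B hB
          rw [Finset.mem_filter] at hA hB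
          rw [hA.2, hB.2]
      _ = D.card := by simp
  have hle : ∑ A ∈ F.filter (fun A => {v} ⊆ A),
      (D.filter (fun a => ({v, a, y a} : Finset V) ⊆ A)).card ≤
      ∑ A ∈ F.filter (fun A => {v} ⊆ A),
        (2 + (D.filter (fun z => A = {v, z, y z, y (y z)})).card) := by
    refine Finset.sum_le_sum fun A hA => ?_
    rw [Finset.mem_filter, Finset.singleton_subset_iff] at hA
    exact twoMul v D y hex A (hF A hA.1) hA.2
  rw [Finset.sum_add_distrib, Finset.sum_const, smul_eq_mul] at hle
  have hnat : ∑ a ∈ D, c3 F v a (y a) ≤ 2 * dg F {v} + D.card := by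
    have h1 : ∑ a ∈ D, c3 F v a (y a) ≤ ∑ a ∈ D, ((F.filter (fun A => {v} ⊆ A)).filter
      (fun A => ({v, a, y a} : Finset V) ⊆ A)).card := Finset.sum_le_sum hS
    have h2 : dg F {v} = (F.filter (fun A => {v} ⊆ A)).card := rfl
    rw [h2]
    rw [hdc] at h1
    omega
  have hreal : (∑ a ∈ D, (c3 F v a (y a) : ℝ)) ≤ 2 * dg F {v} + D.card := by
    exact_mod_cast hnat
  have hlow : (D.card : ℝ) * θ ≤ ∑ a ∈ D, (c3 F v a (y a) : ℝ) := by
    rw [← nsmul_eq_mul]
    exact Finset.card_nsmul_le_sum _ _ _ hD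
  nlinarith

end Pool.Agent.Ham
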