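import Pool.Agent.Lib.MP_716318_co.H.Sw
import Pool.Agent.Lib.MP_716318_co.H.Lll
import Pool.Agent.Lib.MP_716318_co.H.Ta
import Pool.Agent.Lib.MP_716318_co.H.Tb
import Pool.Agent.Lib.MP_716318_co.H.Tc
import Pool.Agent.Lib.MP_716318_co.H.Td
import Pool.Agent.Lib.MP_716318_co.H.Te
import Pool.Agent.Lib.MP_716318_co.H.Comp
import Pool.Agent.Lib.MP_716318_co.H.Bad
import Pool.Agent.Lib.MP_716318_co.H.Exc
import Pool.Agent.Lib.MP_716318_co.H.Ext
import Pool.Agent.Lib.MP_716318_co.H.Link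
import Pool.Agent.Lib.MP_716318_co.H.Chain
import Pool.Agent.Lib.MP_716318_co.H.Pe
import Pool.Agent.Lib.MP_716318_co.H.Pr
import Pool.Agent.Lib.MP_716318_co.H.Mk
import Pool.Agent.Lib.MP_716318_co.H.Dbl
import Pool.Agent.Lib.MP_716318_co.H.Sum
import Pool.Agent.Lib.MP_716318_co.H.Two
import Pool.Agent.Lib.MP_716318_co.H.Cost
import Pool.Agent.Lib.MP_716318_co.H.OsA
import Pool.Agent.Lib.MP_716318_co.H.OsB
import Pool.Agent.Lib.MP_716318_co.H.OsC
import Pool.Agent.Lib.MP_716318_co.H.Os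
import Pool.Agent.Lib.MP_716318_co.H.Gt
import Pool.Agent.Lib.MP_716318_co.H.ThA

/-!
# MP_716318_co, package H: assembly of Theorem A
-/

set_option autoImplicit false

namespace Pool.Agent.Ham

theorem pe : S_Pe :=
  tPe (tExt (tExc tBad)) (tChain (tLink (tExc tBad) (tExt (tExc tBad))))
    (tComp (tLll tSw) tTa tTb tTc tTd tTe)

theorem gt : S_Gt :=
  tGt (tOs (tOsA (tMk tPr) tSum) (tOsB (tMk tPr) tSum tDbl) (tOsC pe tSum)) tSum

theorem thA : S_ThA := tThA gt (tCost tTwo) tPr tSum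

end Pool.Agent.Ham
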