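import Pool.Agent.Lib.MP_716318_co.H.Spec5

set_option autoImplicit false

namespace Pool.Agent.Ham

open Finset
open scoped Classical

private theorem cb_ne {V : Type} [DecidableEq V] {p q z t : V}
    (h : ({p, q, z, t} : Finset V).card = 4) :
    z ≠ p ∧ z ≠ q ∧ t ≠ p ∧ t ≠ q ∧ z ≠ t := by
  have key : ∀ a b c : V, ({p, q, z, t} : Finset V) ⊆ {a, b, c} → False := by
    intro a b c hs
    have h1 := card_le_card hs
    have h2 : ({a, b, c} : Finset V).card ≤ 3 := card_le_three
    omega
  refine ⟨?_, ?_, ?_, ?_, ?_⟩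
  · rintro rfl
    exact key q z t (by intro x; simp only [mem_insert, mem_singleton]; tauto)
  · rintro rfl
    exact key p z t (by intro x; simp only [mem_insert, mem_singleton]; tauto)
  · rintro rfl
    exact key t q z (by intro x; simp only [mem_insert, mem_singleton]; tauto)
  · rintro rfl
    exact key p t z (by intro x; simp only [mem_insert, mem_singleton]; tauto)
  · rintro rfl
    exact key p q z (by intro x; simp only [mem_insert, mem_singleton]; tauto)

private theorem cb_sum {V : Type} [Fintype V] [DecidableEq V] (F : Finset (Finset V)) (hF : U4 F)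
    (p q : V) (hpq : p ≠ q) (S : Finset V) : ∑ z ∈ S, c3 F p q z ≤ 2 * dg F {p, q} := by
  have h0 : ∑ z ∈ S, c3 F p q z ≤ ∑ z, c3 F p q z :=
    sum_le_sum_of_subset (subset_univ S)
  have h1 : ∑ z, c3 F p q z = ((univ : Finset (V × V)).filter
      (fun w => ({p, q, w.1, w.2} : Finset V) ∈ F)).card := by
    rw [card_filter, Fintype.sum_prod_type]
    refine sum_congr rfl fun z _ => ?_
    unfold c3
    rw [card_filter]
  rw [h1] at h0
  refine h0.trans ?_
  unfold dg
  refine card_le_mul_card_image_of_maps_to (f := fun w : V × V => ({p, q, w.1, w.2} : Finset V))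
    ?_ 2 ?_
  · intro w hw
    rw [mem_filter] at hw ⊢
    refine ⟨hw.2, ?_⟩
    intro x
    simp only [mem_insert, mem_singleton]
    tauto
  · intro A hA
    rw [mem_filter] at hA
    have hp : p ∈ A := hA.2 (by simp)
    have hq : q ∈ A := hA.2 (by simp)
    have hc : ((A.erase p).erase q).card = 2 := by
      rw [card_erase_of_mem (mem_erase.2 ⟨hpq.symm, hq⟩), card_erase_of_mem hp, hF A hA.1]
    calc _ ≤ ((A.erase p).erase q).offDiag.card := by
          refine card_le_card fun w hw => ?_
          rw [mem_filter, mem_filter] at hw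
          obtain ⟨⟨-, h2⟩, h3⟩ := hw
          obtain ⟨h4, h5, h6, h7, h8⟩ := cb_ne (hF _ h2)
          rw [mem_offDiag]
          have h9 : w.1 ∈ A := by rw [← h3]; simp
          have h10 : w.2 ∈ A := by rw [← h3]; simp
          exact ⟨mem_erase.2 ⟨h5, mem_erase.2 ⟨h4, h9⟩⟩, mem_erase.2 ⟨h7, mem_erase.2 ⟨h6, h10⟩⟩, h8⟩
      _ = 2 := by rw [offDiag_card, hc]

private theorem cb_gs {V : Type} [Fintype V] [DecidableEq V] (F : Finset (Finset V))
    (v a x y z : V) (h1 : v ≠ x) (h2 : v ≠ y) (hz : z ∉ ({v, y} : Finset V)) :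
    gs F {v, y} [(v, a), (x, y)] z ≤ c3 F v a z + c3 (off F {v}) x y z := by
  unfold gs c3
  refine (card_le_card ?_).trans (card_union_le _ _)
  intro t ht
  rw [mem_filter] at ht
  obtain ⟨-, ht1, e, he, hc⟩ := ht
  rw [mem_union, mem_filter, mem_filter]
  rw [List.mem_cons, List.mem_singleton] at he
  unfold Cf at hc
  rcases he with rfl | rfl
  · left
    exact ⟨mem_univ _, hc⟩
  · right
    refine ⟨mem_univ _, ?_⟩
    unfold off
    rw [mem_filter]
    refine ⟨hc, ?_⟩
    rw [disjoint_singleton_right]
    simp only [mem_insert, mem_singleton, not_or] at hz ht1 ⊢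
    exact ⟨h1, h2, fun h => hz.1 h.symm, fun h => ht1.1 h.symm⟩

theorem tCb : S_Pes → S_Cb := by
  intro hP
  obtain ⟨ξ, hξ, n0, hP⟩ := hP (1 / 100) (5 * 10 ^ 7) (by norm_num) (by norm_num) (by norm_num)
  refine ⟨ξ, hξ, n0, ?_⟩
  intro V _ _ F v a x y hU hn hnd hm hA hoff
  simp only [List.nodup_cons, List.mem_cons, List.not_mem_nil, or_false, not_or,
    List.nodup_nil, and_true, not_false_eq_true] at hnd
  obtain ⟨⟨hva, hvx, hvy⟩, ⟨hax, hay⟩, hxy⟩ := hnd
  have hB : Bls F {v, y} [(v, a), (x, y)] [v, a] [x, y] [] (5 * 10 ^ 7) := by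
    refine ⟨hU, ⟨by simp, by simp, by simp⟩, ?_, ?_, ?_, ⟨?_, ?_, ?_⟩, ?_, ?_⟩
    · simp only [List.flatten_nil, List.nil_append, List.cons_append, List.nodup_cons,
        List.mem_cons, List.not_mem_nil, or_false, not_or, List.nodup_nil, and_true,
        not_false_eq_true]
      exact ⟨⟨hva, hvx, hvy⟩, ⟨hax, hay⟩, hxy⟩
    · norm_num
    · intro w hw
      simp only [mem_insert, mem_singleton] at hw
      rcases hw with rfl | rfl <;> simp
    · intro e he
      simp only [eds, List.tail_cons, List.zip_cons_cons, List.zip_nil_right, List.mem_singleton]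
        at he
      rw [he]
      simp
    · intro e he
      simp only [eds, List.tail_cons, List.zip_cons_cons, List.zip_nil_right, List.mem_singleton]
        at he
      rw [he]
      simp
    · intro B hB
      simp at hB
    · intro w hw
      simp only [List.getLast?_cons_cons, List.getLast?_singleton, List.head?_cons,
        Option.some.injEq, List.not_mem_nil, false_and, exists_false, or_false] at hw
      rw [mem_insert, mem_singleton, not_or]
      rcases hw with rfl | rfl
      · exact ⟨fun h => hva h.symm, hay⟩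
      · exact ⟨fun h => hvx h.symm, hxy⟩
    · have hsame : ∀ p q : V, ¬ Cf F (p, q) (p, q) := by
        intro p q hc
        have h1 := hU _ hc
        exact (cb_ne h1).1 rfl
      intro e he f hf
      rw [List.mem_cons, List.mem_singleton] at he hf
      rcases he with rfl | rfl <;> rcases hf with rfl | rfl
      · exact hsame _ _
      · exact hm
      · intro hc
        refine hm ?_
        unfold Cf at hc
        have h1 : ({v, a, x, y} : Finset V) = {x, y, v, a} := by
          ext w
          simp only [mem_insert, mem_singleton]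
          tauto
        rw [h1]
        exact hc
      · exact hsame _ _
  have hoff2 : ((off F {v, y}).card : ℝ) ≤ ξ * (Fintype.card V : ℝ) ^ 2 := by
    refine le_trans ?_ hoff
    have h1 : off F {v, y} ⊆ off F {v} := by
      intro A hA
      unfold off at hA ⊢
      rw [mem_filter] at hA ⊢
      refine ⟨hA.1, hA.2.mono_right ?_⟩
      intro w hw
      rw [mem_singleton] at hw
      rw [hw]
      simp
    exact_mod_cast card_le_card h1
  rcases hP V F {v, y} [(v, a), (x, y)] [v, a] [x, y] [] hn hB hoff2 hA with ⟨z, hz, h⟩ | h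
  · right
    right
    refine ⟨z, fun h => hz (by rw [h]; simp), ?_⟩
    have h1 := cb_gs F v a x y z hvx hvy hz
    have h2 : (gs F {v, y} [(v, a), (x, y)] z : ℝ) ≤ (c3 F v a z : ℝ) + c3 (off F {v}) x y z := by
      exact_mod_cast h1
    have h3 : (1 - 1 / 100 : ℝ) * Fintype.card V = 99 / 100 * (Fintype.card V : ℝ) := by ring
    linarith
  · by_contra hcon
    rw [not_or, not_or] at hcon
    obtain ⟨hc1, hc2, -⟩ := hcon
    rw [not_le] at hc1 hc2
    have hU2 : U4 (off F {v}) := fun A hA => hU A (mem_filter.1 hA).1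
    have h1 : ∑ z ∈ univ.filter (fun z => z ∉ ({v, y} : Finset V)),
        gs F {v, y} [(v, a), (x, y)] z ≤ 2 * dg F {v, a} + 2 * dg (off F {v}) {x, y} := by
      calc _ ≤ ∑ z ∈ univ.filter (fun z => z ∉ ({v, y} : Finset V)),
            (c3 F v a z + c3 (off F {v}) x y z) :=
            sum_le_sum fun z hz => cb_gs F v a x y z hvx hvy (mem_filter.1 hz).2
        _ = _ := sum_add_distrib
        _ ≤ _ := add_le_add (cb_sum F hU v a hva _) (cb_sum (off F {v}) hU2 x y hxy _)
    have h2 : (∑ z ∈ univ.filter (fun z => z ∉ ({v, y} : Finset V)),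
        (gs F {v, y} [(v, a), (x, y)] z : ℝ)) ≤
        2 * (dg F {v, a} : ℝ) + 2 * (dg (off F {v}) {x, y} : ℝ) := by
      exact_mod_cast h1
    have h3 : (0 : ℝ) ≤ Fintype.card V := Nat.cast_nonneg _
    linarith

end Pool.Agent.Ham
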