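import Pool.Agent.Lib.MP_716318_co.H.Spec5

/-!
# MP_716318_co, package H: Theorem B (`S_Main`)
-/

set_option autoImplicit false

namespace Pool.Agent.Ham

open Finset
open scoped Classical

private theorem mn_choose (m : ℕ) : 2 * m.choose 2 = m * (m - 1) := by
  rw [Nat.choose_two_right]
  exact Nat.mul_div_cancel' (Nat.even_mul_pred_self m).two_dvd

/-- The four classes of the members. -/
private theorem mn_part {V : Type} [Fintype V] [DecidableEq V] (F : Finset (Finset V)) (v w : V) :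
    F.card = dg F {v, w} + (fv F v w).card + (fv F w v).card + (off F {v, w}).card := by
  unfold dg fv off
  rw [Finset.card_filter, Finset.card_filter, Finset.card_filter, Finset.card_filter,
    ← Finset.sum_add_distrib, ← Finset.sum_add_distrib, ← Finset.sum_add_distrib,
    Finset.card_eq_sum_ones]
  refine Finset.sum_congr rfl (fun A _ => ?_)
  have h1 : ({v, w} : Finset V) ⊆ A ↔ v ∈ A ∧ w ∈ A := by
    rw [Finset.insert_subset_iff, Finset.singleton_subset_iff]
  have h2 : Disjoint A ({v, w} : Finset V) ↔ v ∉ A ∧ w ∉ A := by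
    rw [Finset.disjoint_right]
    simp
  simp only [h1, h2]
  by_cases hv : v ∈ A <;> by_cases hw : w ∈ A <;> simp [hv, hw]

/-- The missing pairs and the members through `v`, `w`. -/
private theorem mn_count {V : Type} [Fintype V] [DecidableEq V] (F : Finset (Finset V)) (v w : V)
    (hU : U4 F) (hvw : v ≠ w) :
    ∑ a, dM F v w a + 2 * dg F {v, w} = (Fintype.card V - 2) * (Fintype.card V - 2 - 1) := by
  obtain ⟨P, hP⟩ : ∃ P : Finset (V × V), P = (({v, w} : Finset V)ᶜ).offDiag := ⟨_, rfl⟩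
  have hPm : ∀ p : V × V, p ∈ P ↔ (p.1 ≠ v ∧ p.1 ≠ w) ∧ (p.2 ≠ v ∧ p.2 ≠ w) ∧ p.1 ≠ p.2 := by
    intro p
    rw [hP, Finset.mem_offDiag, Finset.mem_compl, Finset.mem_compl, Finset.mem_insert,
      Finset.mem_insert, Finset.mem_singleton, Finset.mem_singleton, not_or, not_or]
  have hPc : P.card = (Fintype.card V - 2) * (Fintype.card V - 2 - 1) := by
    rw [hP, Finset.offDiag_card, Finset.card_compl, Finset.card_pair hvw, Nat.mul_sub_one]
  -- the pairs in `F`
  have h1 : (P.filter (fun p => ({v, w, p.1, p.2} : Finset V) ∈ F)).card = 2 * dg F {v, w} := by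
    have h2 := Finset.card_eq_sum_card_fiberwise
      (s := P.filter (fun p => ({v, w, p.1, p.2} : Finset V) ∈ F))
      (t := F.filter (fun A => ({v, w} : Finset V) ⊆ A))
      (f := fun p => ({v, w, p.1, p.2} : Finset V)) (by
        intro p hp
        rw [Finset.mem_coe, Finset.mem_filter] at hp ⊢
        refine ⟨hp.2, ?_⟩
        intro z hz
        simp only [Finset.mem_insert, Finset.mem_singleton] at hz ⊢
        rcases hz with h | h
        · exact Or.inl h
        · exact Or.inr (Or.inl h))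
    rw [h2]
    have h3 : ∀ A ∈ F.filter (fun A => ({v, w} : Finset V) ⊆ A),
        ((P.filter (fun p => ({v, w, p.1, p.2} : Finset V) ∈ F)).filter
          (fun p => ({v, w, p.1, p.2} : Finset V) = A)).card = 2 := by
      intro A hA
      rw [Finset.mem_filter] at hA
      have hA4 := hU A hA.1
      have h4 : (P.filter (fun p => ({v, w, p.1, p.2} : Finset V) ∈ F)).filter
          (fun p => ({v, w, p.1, p.2} : Finset V) = A) = (A \ {v, w}).offDiag := by
        ext ⟨a, b⟩
        rw [Finset.mem_filter, Finset.mem_filter, hPm, Finset.mem_offDiag, Finset.mem_sdiff,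
          Finset.mem_sdiff, Finset.mem_insert, Finset.mem_insert, Finset.mem_singleton,
          Finset.mem_singleton, not_or, not_or]
        constructor
        · rintro ⟨⟨⟨ha, hb, hab⟩, -⟩, hEq⟩
          refine ⟨⟨?_, ha⟩, ⟨?_, hb⟩, hab⟩
          · rw [← hEq]; simp
          · rw [← hEq]; simp
        · rintro ⟨⟨haA, ha⟩, ⟨hbA, hb⟩, hab⟩
          have hEq : ({v, w, a, b} : Finset V) = A := by
            refine Finset.eq_of_subset_of_card_le ?_ ?_
            · intro z hz
              simp only [Finset.mem_insert, Finset.mem_singleton] at hz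
              rcases hz with h | h | h | h
              · rw [h]; exact hA.2 (by simp)
              · rw [h]; exact hA.2 (by simp)
              · rw [h]; exact haA
              · rw [h]; exact hbA
            · rw [hA4, Finset.card_insert_of_notMem, Finset.card_insert_of_notMem,
                Finset.card_pair hab]
              · simp only [Finset.mem_insert, Finset.mem_singleton, not_or]
                exact ⟨fun h => ha.2 h.symm, fun h => hb.2 h.symm⟩
              · simp only [Finset.mem_insert, Finset.mem_singleton, not_or]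
                exact ⟨hvw, fun h => ha.1 h.symm, fun h => hb.1 h.symm⟩
          exact ⟨⟨⟨ha, hb, hab⟩, by rw [hEq]; exact hA.1⟩, hEq⟩
      rw [h4, Finset.offDiag_card, Finset.card_sdiff_of_subset hA.2, hA4, Finset.card_pair hvw]
    rw [Finset.sum_congr rfl h3, Finset.sum_const, smul_eq_mul, mul_comm]
    rfl
  have h2 : ∑ a, dM F v w a = (P.filter (fun p => ({v, w, p.1, p.2} : Finset V) ∉ F)).card := by
    have h3 : P.filter (fun p => ({v, w, p.1, p.2} : Finset V) ∉ F) =
        univ.filter (fun p : V × V => Ms F v w p.1 p.2) := by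
      ext p
      rw [Finset.mem_filter, Finset.mem_filter, hPm]
      unfold Ms
      constructor
      · rintro ⟨⟨ha, hb, hab⟩, h⟩
        exact ⟨Finset.mem_univ _, hab, ha.1, ha.2, hb.1, hb.2, h⟩
      · rintro ⟨-, hab, ha1, ha2, hb1, hb2, h⟩
        exact ⟨⟨⟨ha1, ha2⟩, ⟨hb1, hb2⟩, hab⟩, h⟩
    rw [h3, Finset.card_filter, ← Finset.univ_product_univ, Finset.sum_product]
    refine Finset.sum_congr rfl (fun a _ => ?_)
    unfold dM
    rw [Finset.card_filter]
  rw [h2, ← h1, ← hPc, add_comm]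
  exact Finset.card_filter_add_card_filter_not _

theorem tMain : S_Stab → S_Ca → S_Rb2 → S_Ra1 → S_Nh → S_Main := by
  intro hSt hCa hRb hRa hNh
  obtain ⟨ξ1, hξ1, n1, hCa⟩ := hCa
  obtain ⟨ξ2, hξ2, n2, hRb⟩ := hRb
  obtain ⟨n3, hRa⟩ := hRa
  obtain ⟨ξ4, hξ4, n4, hNh⟩ := hNh
  obtain ⟨ξ, hξ⟩ : ∃ ξ : ℝ, ξ = min ξ1 (min ξ2 ξ4) := ⟨_, rfl⟩
  have hξ0 : 0 < ξ := by rw [hξ]; exact lt_min hξ1 (lt_min hξ2 hξ4)
  have hξa : ξ ≤ ξ1 := by rw [hξ]; exact min_le_left _ _
  have hξb : ξ ≤ ξ2 := by rw [hξ]; exact (min_le_right _ _).trans (min_le_left _ _)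
  have hξc : ξ ≤ ξ4 := by rw [hξ]; exact (min_le_right _ _).trans (min_le_right _ _)
  obtain ⟨n5, hSt⟩ := hSt ξ hξ0
  refine ⟨n1 + n2 + n3 + n4 + n5, ?_⟩
  intro V _ _ F hU hn hF
  by_contra hAcc
  obtain ⟨n, hnn⟩ : ∃ n : ℕ, n = Fintype.card V := ⟨_, rfl⟩
  have h2c := mn_choose (Fintype.card V - 2)
  have hsq : (Fintype.card V - 2) * (Fintype.card V - 2 - 1) ≤ (Fintype.card V) ^ 2 := by
    rw [sq]; exact Nat.mul_le_mul (by omega) (by omega)
  have hF2 : 2 * F.card ≤ (Fintype.card V) ^ 2 := by omega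
  obtain ⟨v, hv⟩ := hSt V F hU (by omega) hF2 hAcc
  have hn2 : (0 : ℝ) ≤ (Fintype.card V : ℝ) ^ 2 := by positivity
  have hoff : ∀ ξ' : ℝ, ξ ≤ ξ' → ((off F {v}).card : ℝ) ≤ ξ' * (Fintype.card V : ℝ) ^ 2 :=
    fun ξ' h => hv.trans (mul_le_mul_of_nonneg_right h hn2)
  obtain ⟨Tn, hTn⟩ : ∃ Tn : Finset V, Tn = univ.filter
    (fun a => a ≠ v ∧ (dg F {v, a} : ℝ) < (10 : ℝ) ^ 7 * Fintype.card V) := ⟨_, rfl⟩
  have hTm : ∀ a, a ∈ Tn ↔ a ≠ v ∧ (dg F {v, a} : ℝ) < (10 : ℝ) ^ 7 * Fintype.card V := by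
    intro a
    rw [hTn, Finset.mem_filter]
    exact ⟨fun h => h.2, fun h => ⟨Finset.mem_univ _, h⟩⟩
  have hex : ∀ a, ∃ y, a ∈ Tn → (1 - 1 / (10 : ℝ) ^ 8) * Fintype.card V ≤ c3 F v a y := by
    intro a
    by_cases ha : a ∈ Tn
    · have h1 := (hTm a).1 ha
      rcases hCa V F v a hU (by omega) h1.1 hAcc (hoff ξ1 hξa) with h | ⟨y, hy⟩
      · exact absurd h1.2 (not_lt.2 h)
      · exact ⟨y, fun _ => hy⟩
    · exact ⟨a, fun h => absurd h ha⟩
  choose y hy using hex
  by_cases hin : ∀ u, ((Tn.filter (fun a => y a = u)).card : ℝ) ≤ (Fintype.card V : ℝ) / 200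
  · have h1 := hRb V F v Tn y hU (by omega) hAcc (hoff ξ2 hξb) hTm hy hin
    omega
  · push Not at hin
    obtain ⟨w, hw⟩ := hin
    obtain ⟨hvw, hdg⟩ := hRa V F v w Tn y hU (by omega) hF2 hTm hy hw
    have hcnt := mn_count F v w hU hvw
    have hpart := mn_part F v w
    refine hNh V F v w (by omega) ⟨hU, hvw, hAcc, ?_, ?_, ?_⟩
    · have h1 : (off F {v, w}).card ≤ (off F {v}).card := by
        refine Finset.card_le_card ?_
        intro A hA
        unfold off at *
        rw [Finset.mem_filter] at hA ⊢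
        exact ⟨hA.1, hA.2.mono_right (by simp)⟩
      have h2 : ((off F {v, w}).card : ℝ) ≤ (off F {v}).card := by exact_mod_cast h1
      exact h2.trans (hoff ξ4 hξc)
    · have h1 : ∑ a, dM F v w a + 2 * dg F {v, w} ≤ (Fintype.card V) ^ 2 := hcnt.le.trans hsq
      have h2 : (∑ a, (dM F v w a : ℝ)) + 2 * (dg F {v, w} : ℝ) ≤ (Fintype.card V : ℝ) ^ 2 := by
        exact_mod_cast h1
      linarith
    · omega

end Pool.Agent.Ham
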