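import Pool.Agent.Lib.MP_716318_co.H.Spec5

set_option autoImplicit false

namespace Pool.Agent.Ham

open Finset
open scoped Classical

private lemma na_card4 {V : Type} [DecidableEq V] {p q x y : V}
    (h : ({p, q, x, y} : Finset V).card = 4) :
    p ≠ q ∧ p ≠ x ∧ p ≠ y ∧ q ≠ x ∧ q ≠ y ∧ x ≠ y := by
  have h3 : ∀ a b c : V, ({a, b, c} : Finset V).card ≤ 3 := fun a b c => Finset.card_le_three
  refine ⟨?_, ?_, ?_, ?_, ?_, ?_⟩
  · rintro rfl
    have := h3 p x y
    rw [Finset.insert_eq_of_mem (by simp)] at h
    omega
  · rintro rfl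
    have := h3 q p y
    rw [Finset.insert_eq_of_mem (by simp)] at h
    omega
  · rintro rfl
    have := h3 q x p
    rw [Finset.insert_eq_of_mem (by simp)] at h
    omega
  · rintro rfl
    have := h3 p q y
    rw [Finset.insert_eq_of_mem (a := q) (by simp)] at h
    omega
  · rintro rfl
    have := h3 p x q
    rw [Finset.insert_eq_of_mem (a := q) (by simp)] at h
    omega
  · rintro rfl
    have := h3 p q x
    rw [Finset.insert_eq_of_mem (a := x) (by simp)] at h
    omega

private lemma na_sum {V : Type} [Fintype V] [DecidableEq V] (G : Finset (Finset V)) (hG : U4 G)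
    (p q : V) :
    ∑ x, (univ.filter (fun y => ({p, q, x, y} : Finset V) ∈ G)).card ≤ 2 * dg G {q} := by
  have h1 : ∑ x, (univ.filter (fun y => ({p, q, x, y} : Finset V) ∈ G)).card =
      ((univ : Finset (V × V)).filter (fun z => ({p, q, z.1, z.2} : Finset V) ∈ G)).card := by
    rw [Finset.card_filter, Fintype.sum_prod_type]
    exact Finset.sum_congr rfl (fun x _ => Finset.card_filter _ _)
  rw [h1]
  unfold dg
  refine Finset.card_le_mul_card_image_of_maps_to
    (f := fun z : V × V => ({p, q, z.1, z.2} : Finset V)) ?_ 2 ?_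
  · intro z hz
    have hz' := (Finset.mem_filter.mp hz).2
    refine Finset.mem_filter.mpr ⟨hz', ?_⟩
    simp
  · intro A hA
    have hA' := (Finset.mem_filter.mp hA).1
    have hA4 := hG A hA'
    rcases Finset.eq_empty_or_nonempty (((univ : Finset (V × V)).filter
          (fun z => ({p, q, z.1, z.2} : Finset V) ∈ G)).filter
          (fun z => ({p, q, z.1, z.2} : Finset V) = A)) with he | hne
    · rw [he]; simp
    · refine le_trans (Finset.card_le_card (t := ((A.erase p).erase q).offDiag) ?_) ?_
      · intro z hz
        have hz2 := (Finset.mem_filter.mp hz).2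
        have hz2' : ({p, q, z.1, z.2} : Finset V) = A := hz2
        have h4 : ({p, q, z.1, z.2} : Finset V).card = 4 := by rw [hz2']; exact hA4
        obtain ⟨h12, h13, h14, h23, h24, h34⟩ := na_card4 h4
        rw [Finset.mem_offDiag, ← hz2']
        refine ⟨?_, ?_, h34⟩
        · simp only [Finset.mem_erase, Finset.mem_insert, Finset.mem_singleton]
          exact ⟨h23.symm, h13.symm, by tauto⟩
        · simp only [Finset.mem_erase, Finset.mem_insert, Finset.mem_singleton]
          exact ⟨h24.symm, h14.symm, by tauto⟩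
      · obtain ⟨z, hz⟩ := hne
        have hz2' : ({p, q, z.1, z.2} : Finset V) = A := (Finset.mem_filter.mp hz).2
        have h4 : ({p, q, z.1, z.2} : Finset V).card = 4 := by rw [hz2']; exact hA4
        obtain ⟨h12, h13, h14, h23, h24, h34⟩ := na_card4 h4
        have hp : p ∈ A := by rw [← hz2']; simp
        have hq : q ∈ A.erase p := by
          rw [← hz2']
          simp only [Finset.mem_erase, Finset.mem_insert, Finset.mem_singleton]
          exact ⟨h12.symm, by tauto⟩
        rw [Finset.offDiag_card, Finset.card_erase_of_mem hq, Finset.card_erase_of_mem hp, hA4]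

private lemma na_gs {V : Type} [Fintype V] [DecidableEq V] (F : Finset (Finset V)) (hF : U4 F)
    (v w a b z : V) (hvw : v ≠ w) (hav : a ≠ v) (haw : a ≠ w) (hbv : b ≠ v) (hbw : b ≠ w)
    (hz : z ∉ ({v, w} : Finset V)) :
    gs F {v, w} [(v, a), (b, w)] z ≤ c3 (fv F v w) v a z + c3 (fv F w v) w b z := by
  have hzv : z ≠ v := fun h => hz (by simp [h])
  have hzw : z ≠ w := fun h => hz (by simp [h])
  unfold gs c3
  refine le_trans (Finset.card_le_card (t := (univ.filter (fun t => ({v, a, z, t} : Finset V) ∈ fv F v w)) ∪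
    (univ.filter (fun t => ({w, b, z, t} : Finset V) ∈ fv F w v))) ?_) (Finset.card_union_le _ _)
  intro t ht
  obtain ⟨htJ, e, he, hc⟩ := (Finset.mem_filter.mp ht).2
  have htv : t ≠ v := fun h => htJ (by simp [h])
  have htw : t ≠ w := fun h => htJ (by simp [h])
  rw [Finset.mem_union, Finset.mem_filter, Finset.mem_filter]
  simp only [List.mem_cons, List.not_mem_nil, or_false] at he
  rcases he with rfl | rfl
  · left
    refine ⟨Finset.mem_univ _, ?_⟩
    have hc' : ({v, a, z, t} : Finset V) ∈ F := hc
    refine Finset.mem_filter.mpr ⟨hc', by simp, ?_⟩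
    simp only [Finset.mem_insert, Finset.mem_singleton, not_or]
    exact ⟨hvw.symm, haw.symm, hzw.symm, htw.symm⟩
  · right
    refine ⟨Finset.mem_univ _, ?_⟩
    have hc' : ({b, w, z, t} : Finset V) ∈ F := hc
    rw [Finset.insert_comm] at hc'
    refine Finset.mem_filter.mpr ⟨hc', by simp, ?_⟩
    simp only [Finset.mem_insert, Finset.mem_singleton, not_or]
    exact ⟨hvw, hbv.symm, hzv.symm, htv.symm⟩

private lemma na_u4 {V : Type} [DecidableEq V] {F : Finset (Finset V)} (hF : U4 F) (v w : V) :
    U4 (fv F v w) := fun A hA => hF A (Finset.mem_filter.mp hA).1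

private lemma na_no {V : Type} [DecidableEq V] {F : Finset (Finset V)} (hF : U4 F) (p q : V) :
    ¬ Cf F (p, q) (p, q) := by
  intro h
  have h4 := hF _ h
  have := na_card4 h4
  exact this.2.1 rfl

theorem tNa : S_Pes → S_Na := by
  intro hP
  obtain ⟨ξ, hξ, n0, H⟩ := hP (1 / 1000) 40 (by norm_num) (by norm_num) (by norm_num)
  refine ⟨ξ, hξ, n0, ?_⟩
  intro V _ _ F v w a b hF hn hvw hacc hoff hms
  obtain ⟨hab, hav, haw, hbv, hbw, hm⟩ := hms
  have hB : Bls F {v, w} [(v, a), (b, w)] [v, a] [b, w] [] 40 := by
    refine ⟨hF, ⟨by simp, by simp, by simp⟩, ?_, ?_, ?_, ?_, ?_, ?_⟩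
    · simp only [List.flatten_nil, List.nil_append, List.cons_append, List.nodup_cons,
        List.mem_cons, List.not_mem_nil, or_false, not_or, List.nodup_nil]
      exact ⟨⟨hav.symm, hbv.symm, hvw⟩, ⟨hab, haw⟩, hbw, not_false, trivial⟩
    · constructor
      · simp; norm_num
      · simp; norm_num
    · intro x hx
      simp only [Finset.mem_insert, Finset.mem_singleton] at hx
      rcases hx with rfl | rfl <;> simp
    · refine ⟨?_, ?_, by simp⟩
      · intro e he
        simp only [eds, List.tail_cons, List.zip_cons_cons, List.zip_nil_right, List.mem_cons,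
          List.not_mem_nil, or_false] at he
        simp [he]
      · intro e he
        simp only [eds, List.tail_cons, List.zip_cons_cons, List.zip_nil_right, List.mem_cons,
          List.not_mem_nil, or_false] at he
        simp [he]
    · intro x hx
      have hx' : x = a ∨ x = b := by
        rcases hx with h | h | ⟨B, hB, _⟩
        · left; simpa using h.symm
        · right; simpa using h.symm
        · simp at hB
      simp only [Finset.mem_insert, Finset.mem_singleton, not_or]
      rcases hx' with rfl | rfl
      · exact ⟨hav, haw⟩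
      · exact ⟨hbv, hbw⟩
    · intro e he f hf
      simp only [List.mem_cons, List.not_mem_nil, or_false] at he hf
      rcases he with rfl | rfl <;> rcases hf with rfl | rfl
      · exact na_no hF _ _
      · intro h
        apply hm
        have h' : ({v, a, b, w} : Finset V) ∈ F := h
        have e1 : ({v, w, a, b} : Finset V) = {v, a, b, w} := by
          ext t; simp only [Finset.mem_insert, Finset.mem_singleton]; tauto
        rw [e1]; exact h'
      · intro h
        apply hm
        have h' : ({b, w, v, a} : Finset V) ∈ F := h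
        have e1 : ({v, w, a, b} : Finset V) = {b, w, v, a} := by
          ext t; simp only [Finset.mem_insert, Finset.mem_singleton]; tauto
        rw [e1]; exact h'
      · exact na_no hF _ _
  rcases H V F {v, w} [(v, a), (b, w)] [v, a] [b, w] [] hn hB hoff hacc with ⟨z, hz, h⟩ | h
  · right; right
    refine ⟨z, ?_⟩
    have h2 := na_gs F hF v w a b z hvw hav haw hbv hbw hz
    have h3 : (gs F {v, w} [(v, a), (b, w)] z : ℝ) ≤
        (c3 (fv F v w) v a z : ℝ) + c3 (fv F w v) w b z := by exact_mod_cast h2
    have h4 : (0 : ℝ) ≤ Fintype.card V := by positivity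
    linarith
  · have h5 : ∑ x ∈ univ.filter (fun x => x ∉ ({v, w} : Finset V)),
        (gs F {v, w} [(v, a), (b, w)] x : ℝ) ≤
        2 * (dg (fv F v w) {a} : ℝ) + 2 * dg (fv F w v) {b} := by
      have h6 : ∑ x ∈ univ.filter (fun x => x ∉ ({v, w} : Finset V)),
          gs F {v, w} [(v, a), (b, w)] x ≤ 2 * dg (fv F v w) {a} + 2 * dg (fv F w v) {b} := by
        calc ∑ x ∈ univ.filter (fun x => x ∉ ({v, w} : Finset V)),
              gs F {v, w} [(v, a), (b, w)] x
            ≤ ∑ x ∈ univ.filter (fun x => x ∉ ({v, w} : Finset V)),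
              (c3 (fv F v w) v a x + c3 (fv F w v) w b x) := by
              refine Finset.sum_le_sum (fun x hx => ?_)
              exact na_gs F hF v w a b x hvw hav haw hbv hbw (Finset.mem_filter.mp hx).2
          _ ≤ ∑ x, (c3 (fv F v w) v a x + c3 (fv F w v) w b x) :=
              Finset.sum_le_sum_of_subset (Finset.filter_subset _ _)
          _ = ∑ x, c3 (fv F v w) v a x + ∑ x, c3 (fv F w v) w b x := Finset.sum_add_distrib
          _ ≤ 2 * dg (fv F v w) {a} + 2 * dg (fv F w v) {b} :=
              Nat.add_le_add (na_sum _ (na_u4 hF v w) v a) (na_sum _ (na_u4 hF w v) w b)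
      exact_mod_cast h6
    have h4 : (0 : ℝ) ≤ Fintype.card V := by positivity
    by_cases h7 : 8 * (Fintype.card V : ℝ) ≤ dg (fv F v w) {a}
    · left; exact h7
    · right; left
      push Not at h7
      linarith

end Pool.Agent.Ham
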