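import Pool.Agent.Lib.MP_716318_co.H.Spec5

/-!
# MP_716318_co, package H: a missing set and two missing pairs (`tNb`)
-/

set_option autoImplicit false

namespace Pool.Agent.Ham

open Finset
open scoped Classical

private theorem nb_p1 {V : Type} [DecidableEq V] (v w a b : V) :
    ({v, w, a, b} : Finset V) = {v, a, b, w} := by
  ext u
  simp only [mem_insert, mem_singleton]
  tauto

private theorem nb_p2 {V : Type} [DecidableEq V] (v w a b : V) :
    ({v, w, a, b} : Finset V) = {v, a, w, b} := by
  ext u
  simp only [mem_insert, mem_singleton]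
  tauto

private theorem nb_p3 {V : Type} [DecidableEq V] (v w a b : V) :
    ({v, w, a, b} : Finset V) = {w, v, a, b} := by
  ext u
  simp only [mem_insert, mem_singleton]
  tauto

private theorem nb_symm {V : Type} [DecidableEq V] (F : Finset (Finset V)) (e f : V × V)
    (h : ¬ Cf F e f) : ¬ Cf F f e := by
  intro h'
  apply h
  unfold Cf at h' ⊢
  have : ({e.1, e.2, f.1, f.2} : Finset V) = {f.1, f.2, e.1, e.2} := by
    ext u
    simp only [mem_insert, mem_singleton]
    tauto
  rw [this]
  exact h'

private theorem nb_common {V : Type} [DecidableEq V] (F : Finset (Finset V)) (hF : U4 F)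
    (e f : V × V) (h : e.1 = f.1 ∨ e.1 = f.2 ∨ e.2 = f.1 ∨ e.2 = f.2) : ¬ Cf F e f := by
  intro h'
  have h4 := hF _ h'
  rcases h with h | h | h | h
  · have : ({e.1, e.2, f.1, f.2} : Finset V) = {e.2, f.1, f.2} := by
      ext u
      simp only [mem_insert, mem_singleton, h]
      tauto
    rw [this] at h4
    have := Finset.card_le_three (a := e.2) (b := f.1) (c := f.2)
    omega
  · have : ({e.1, e.2, f.1, f.2} : Finset V) = {e.2, f.1, f.2} := by
      ext u
      simp only [mem_insert, mem_singleton, h]
      tauto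
    rw [this] at h4
    have := Finset.card_le_three (a := e.2) (b := f.1) (c := f.2)
    omega
  · have : ({e.1, e.2, f.1, f.2} : Finset V) = {e.1, f.1, f.2} := by
      ext u
      simp only [mem_insert, mem_singleton, h]
      tauto
    rw [this] at h4
    have := Finset.card_le_three (a := e.1) (b := f.1) (c := f.2)
    omega
  · have : ({e.1, e.2, f.1, f.2} : Finset V) = {e.1, f.1, f.2} := by
      ext u
      simp only [mem_insert, mem_singleton, h]
      tauto
    rw [this] at h4
    have := Finset.card_le_three (a := e.1) (b := f.1) (c := f.2)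
    omega

private theorem nb_sum {V : Type} [Fintype V] [DecidableEq V] (G : Finset (Finset V)) (hG : U4 G)
    (v a : V) (hva : v ≠ a) : ∑ z, c3 G v a z ≤ 2 * dg G {v, a} := by
  have h1 : ∑ z, c3 G v a z =
      (univ.filter (fun p : V × V => ({v, a, p.1, p.2} : Finset V) ∈ G)).card := by
    unfold c3
    rw [Finset.card_filter, Fintype.sum_prod_type]
    apply Finset.sum_congr rfl
    intro z _
    rw [Finset.card_filter]
  rw [h1]
  unfold dg
  apply Finset.card_le_mul_card_image_of_maps_to (f := fun p : V × V => ({v, a, p.1, p.2} : Finset V))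
  · intro p hp
    rw [mem_filter] at hp ⊢
    refine ⟨hp.2, ?_⟩
    intro u hu
    simp only [mem_insert, mem_singleton] at hu ⊢
    tauto
  · intro A hA
    rw [mem_filter] at hA
    have hc : (A \ {v, a}).card = 2 := by
      rw [Finset.card_sdiff_of_subset hA.2, hG A hA.1, Finset.card_pair hva]
    obtain ⟨p, q, hpq, he⟩ := Finset.card_eq_two.1 hc
    have hp : p ∈ A \ {v, a} := by rw [he]; simp
    have hq : q ∈ A \ {v, a} := by rw [he]; simp
    rw [mem_sdiff] at hp hq
    have hsub : (univ.filter (fun p : V × V => ({v, a, p.1, p.2} : Finset V) ∈ G)).filter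
        (fun p => ({v, a, p.1, p.2} : Finset V) = A) ⊆ {(p, q), (q, p)} := by
      intro r hr
      rw [mem_filter] at hr
      have hr2 := hr.2
      rw [← hr2] at hp hq
      simp only [mem_insert, mem_singleton, not_or] at hp hq ⊢
      obtain ⟨hp1, hp2, hp3⟩ := hp
      obtain ⟨hq1, hq2, hq3⟩ := hq
      have hp4 : p = r.1 ∨ p = r.2 := by tauto
      have hq4 : q = r.1 ∨ q = r.2 := by tauto
      rcases hp4 with h | h
      · rcases hq4 with h' | h'
        · exact absurd (h.trans h'.symm) hpq
        · left
          exact Prod.ext h.symm h'.symm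
      · rcases hq4 with h' | h'
        · right
          exact Prod.ext h'.symm h.symm
        · exact absurd (h.trans h'.symm) hpq
    exact (Finset.card_le_card hsub).trans Finset.card_le_two

private theorem nb_dg {V : Type} [DecidableEq V] (G : Finset (Finset V)) (v a : V) :
    dg G {v, a} ≤ dg G {a} := by
  unfold dg
  apply Finset.card_le_card
  intro A hA
  rw [mem_filter] at hA ⊢
  exact ⟨hA.1, fun u hu => hA.2 (by
    simp only [mem_insert, mem_singleton] at hu ⊢
    exact Or.inr hu)⟩

private theorem nb_off {V : Type} [DecidableEq V] (F : Finset (Finset V)) (v w y : V) :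
    (off F {v, w, y}).card ≤ (off F {v, w}).card := by
  apply Finset.card_le_card
  intro A hA
  unfold off at hA ⊢
  rw [mem_filter] at hA ⊢
  refine ⟨hA.1, Finset.disjoint_of_subset_right ?_ hA.2⟩
  intro u hu
  simp only [mem_insert, mem_singleton] at hu ⊢
  tauto

private theorem nb_bls {V : Type} [Fintype V] [DecidableEq V] (F : Finset (Finset V))
    (v w a b c x y : V) (hU : U4 F) (hnd : [v, w, a, b, c, x, y].Nodup)
    (hab : Ms F v w a b) (hac : Ms F v w a c) (h1 : ({v, a, x, y} : Finset V) ∉ F)
    (h2 : ({w, b, x, y} : Finset V) ∉ F) (h3 : ({w, c, x, y} : Finset V) ∉ F) :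
    Bls F {v, w, y} [(v, a), (b, w), (w, c), (x, y)] [v, a] [x, y] [[b, w, c]] 100 := by
  have hnd' := hnd
  simp only [List.nodup_cons, List.mem_cons, List.not_mem_nil, or_false, not_or,
    not_false_eq_true, List.nodup_nil, and_true] at hnd'
  obtain ⟨⟨vw, va, vb, vc, vx, vy⟩, ⟨wa, wb, wc, wx, wy⟩, ⟨ab, ac, ax, ay⟩, ⟨bc, bx, by'⟩,
    ⟨cx, cy⟩, xy⟩ := hnd'
  have k1 : ¬ Cf F (v, a) (b, w) := by
    intro h
    apply hab.2.2.2.2.2
    rw [nb_p1]
    exact h
  have k2 : ¬ Cf F (v, a) (w, c) := by
    intro h
    apply hac.2.2.2.2.2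
    rw [nb_p2]
    exact h
  have k3 : ¬ Cf F (v, a) (x, y) := h1
  have k4 : ¬ Cf F (b, w) (x, y) := by
    intro h
    apply h2
    rw [nb_p3]
    exact h
  have k5 : ¬ Cf F (w, c) (x, y) := h3
  have k6 : ¬ Cf F (b, w) (w, c) := nb_common F hU _ _ (Or.inr (Or.inr (Or.inl rfl)))
  have k0 : ∀ e, ¬ Cf F e e := fun e => nb_common F hU _ _ (Or.inl rfl)
  refine ⟨hU, ⟨by simp, by simp, by simp⟩, ?_, ⟨?_, ?_⟩, ?_, ⟨?_, ?_, ?_⟩, ?_, ?_⟩
  · simp only [List.flatten_cons, List.flatten_nil, List.append_nil, List.cons_append,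
      List.nil_append, List.nodup_cons, List.mem_cons, List.not_mem_nil, or_false, not_or,
      not_false_eq_true, List.nodup_nil, and_true]
    exact ⟨⟨va, vb, vw, vc, vx, vy⟩, ⟨ab, Ne.symm wa, ac, ax, ay⟩,
      ⟨Ne.symm wb, bc, bx, by'⟩, ⟨wc, wx, wy⟩, ⟨cx, cy⟩, xy⟩
  · simp only [List.flatten_cons, List.flatten_nil, List.append_nil, List.cons_append,
      List.nil_append, List.length_cons, List.length_nil]
    norm_num
  · simp only [List.length_cons, List.length_nil]
    norm_num
  · intro z hz
    simp only [mem_insert, mem_singleton] at hz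
    simp only [List.flatten_cons, List.flatten_nil, List.append_nil, List.cons_append,
      List.nil_append, List.mem_cons, List.not_mem_nil, or_false]
    rcases hz with h | h | h
    · exact Or.inl h
    · exact Or.inr (Or.inr (Or.inr (Or.inl h)))
    · exact Or.inr (Or.inr (Or.inr (Or.inr (Or.inr (Or.inr h)))))
  · intro e he
    simp only [eds, List.tail_cons, List.zip_cons_cons, List.zip_nil_right, List.mem_cons,
      List.not_mem_nil, or_false] at he ⊢
    exact Or.inl he
  · intro e he
    simp only [eds, List.tail_cons, List.zip_cons_cons, List.zip_nil_right, List.mem_cons,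
      List.not_mem_nil, or_false] at he ⊢
    exact Or.inr (Or.inr (Or.inr he))
  · intro B hB e he
    simp only [List.mem_cons, List.not_mem_nil, or_false] at hB
    subst hB
    simp only [eds, List.tail_cons, List.zip_cons_cons, List.zip_nil_right, List.mem_cons,
      List.not_mem_nil, or_false] at he ⊢
    rcases he with h | h
    · exact Or.inr (Or.inl h)
    · exact Or.inr (Or.inr (Or.inl h))
  · intro z hz
    have hz' : z = a ∨ z = x ∨ z = b ∨ z = c := by
      rcases hz with h | h | ⟨B, hB, h⟩
      · left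
        simpa using h.symm
      · right; left
        simpa using h.symm
      · simp only [List.mem_cons, List.not_mem_nil, or_false] at hB
        subst hB
        rcases h with h | h
        · right; right; left
          simpa using h.symm
        · right; right; right
          simpa using h.symm
    simp only [mem_insert, mem_singleton, not_or]
    rcases hz' with rfl | rfl | rfl | rfl
    · exact ⟨Ne.symm va, Ne.symm wa, ay⟩
    · exact ⟨Ne.symm vx, Ne.symm wx, xy⟩
    · exact ⟨Ne.symm vb, Ne.symm wb, by'⟩
    · exact ⟨Ne.symm vc, Ne.symm wc, cy⟩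
  · intro e he f hf
    simp only [List.mem_cons, List.not_mem_nil, or_false] at he hf
    rcases he with rfl | rfl | rfl | rfl
    · rcases hf with rfl | rfl | rfl | rfl
      · exact k0 _
      · exact k1
      · exact k2
      · exact k3
    · rcases hf with rfl | rfl | rfl | rfl
      · exact nb_symm F _ _ k1
      · exact k0 _
      · exact k6
      · exact k4
    · rcases hf with rfl | rfl | rfl | rfl
      · exact nb_symm F _ _ k2
      · exact nb_symm F _ _ k6
      · exact k0 _
      · exact k5
    · rcases hf with rfl | rfl | rfl | rfl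
      · exact nb_symm F _ _ k3
      · exact nb_symm F _ _ k4
      · exact nb_symm F _ _ k5
      · exact k0 _

private theorem nb_gs {V : Type} [Fintype V] [DecidableEq V] (F : Finset (Finset V))
    (v w a b c x y : V) (hnd : [v, w, a, b, c, x, y].Nodup) :
    ∀ z, z ∉ ({v, w, y} : Finset V) →
      gs F {v, w, y} [(v, a), (b, w), (w, c), (x, y)] z ≤
        c3 (fv F v w) v a z + c3 (fv F w v) w b z + c3 (fv F w v) w c z +
          c3 (off F {v, w}) x y z := by
  have hnd' := hnd
  simp only [List.nodup_cons, List.mem_cons, List.not_mem_nil, or_false, not_or,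
    not_false_eq_true, List.nodup_nil, and_true] at hnd'
  obtain ⟨⟨vw, va, vb, vc, vx, vy⟩, ⟨wa, wb, wc, wx, wy⟩, ⟨ab, ac, ax, ay⟩, ⟨bc, bx, by'⟩,
    ⟨cx, cy⟩, xy⟩ := hnd'
  intro z hz
  simp only [mem_insert, mem_singleton, not_or] at hz
  obtain ⟨zv, zw, zy⟩ := hz
  unfold gs
  have hsub : (univ.filter (fun t => t ∉ ({v, w, y} : Finset V) ∧
      Gs F [(v, a), (b, w), (w, c), (x, y)] z t)) ⊆
      ((univ.filter (fun t => ({v, a, z, t} : Finset V) ∈ fv F v w) ∪
      univ.filter (fun t => ({w, b, z, t} : Finset V) ∈ fv F w v)) ∪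
      univ.filter (fun t => ({w, c, z, t} : Finset V) ∈ fv F w v)) ∪
      univ.filter (fun t => ({x, y, z, t} : Finset V) ∈ off F {v, w}) := by
    intro t ht
    rw [mem_filter] at ht
    obtain ⟨-, htJ, e, he, hc⟩ := ht
    simp only [mem_insert, mem_singleton, not_or] at htJ
    obtain ⟨tv, tw, ty⟩ := htJ
    simp only [List.mem_cons, List.not_mem_nil, or_false] at he
    simp only [mem_union, mem_filter, mem_univ, true_and, fv, off]
    rcases he with rfl | rfl | rfl | rfl
    · left; left; left
      refine ⟨hc, by simp, ?_⟩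
      simp only [mem_insert, mem_singleton, not_or]
      exact ⟨Ne.symm vw, wa, Ne.symm zw, Ne.symm tw⟩
    · left; left; right
      refine ⟨by rw [nb_p3]; exact hc, by simp, ?_⟩
      simp only [mem_insert, mem_singleton, not_or]
      exact ⟨vw, vb, Ne.symm zv, Ne.symm tv⟩
    · left; right
      refine ⟨hc, by simp, ?_⟩
      simp only [mem_insert, mem_singleton, not_or]
      exact ⟨vw, vc, Ne.symm zv, Ne.symm tv⟩
    · right
      refine ⟨hc, ?_⟩
      rw [Finset.disjoint_left]
      intro u hu hu'
      simp only [mem_insert, mem_singleton] at hu hu'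
      rcases hu' with rfl | rfl
      · rcases hu with h | h | h | h
        · exact vx h
        · exact vy h
        · exact zv h.symm
        · exact tv h.symm
      · rcases hu with h | h | h | h
        · exact wx h
        · exact wy h
        · exact zw h.symm
        · exact tw h.symm
  refine (Finset.card_le_card hsub).trans ?_
  refine (Finset.card_union_le _ _).trans (Nat.add_le_add_right ?_ _)
  refine (Finset.card_union_le _ _).trans (Nat.add_le_add_right ?_ _)
  exact Finset.card_union_le _ _

/-- A missing set and two missing pairs. -/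
theorem tNb : S_Pes → S_Nb := by
  intro hP
  obtain ⟨ξ, hξ, n0, H⟩ := hP (1 / 1000) 100 (by norm_num) (by norm_num) (by norm_num)
  refine ⟨ξ, hξ, n0, ?_⟩
  intro V _ _ F v w a b c x y hU hn hA hoff hnd hab hac h1 h2 h3
  have hnd' := hnd
  simp only [List.nodup_cons, List.mem_cons, List.not_mem_nil, or_false, not_or,
    not_false_eq_true, List.nodup_nil, and_true] at hnd'
  obtain ⟨⟨vw, va, vb, vc, vx, vy⟩, ⟨wa, wb, wc, wx, wy⟩, ⟨ab, ac, ax, ay⟩, ⟨bc, bx, by'⟩,
    ⟨cx, cy⟩, xy⟩ := hnd'
  have hoff' : ((off F {v, w, y}).card : ℝ) ≤ ξ * (Fintype.card V : ℝ) ^ 2 :=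
    le_trans (by exact_mod_cast nb_off F v w y) hoff
  have hB := nb_bls F v w a b c x y hU hnd hab hac h1 h2 h3
  have hgs := nb_gs F v w a b c x y hnd
  have hUv : ∀ p q : V, U4 (fv F p q) := fun p q A hA => hU A (mem_filter.1 hA).1
  have hUo : U4 (off F {v, w}) := fun A hA => hU A (mem_filter.1 hA).1
  have hnn : (0 : ℝ) ≤ Fintype.card V := Nat.cast_nonneg _
  rcases H V F {v, w, y} [(v, a), (b, w), (w, c), (x, y)] [v, a] [x, y] [[b, w, c]] hn hB hoff'
    hA with ⟨z, hz, hz2⟩ | hsum
  · right; right; right; right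
    refine ⟨z, ?_, ?_⟩
    · simp only [mem_insert, mem_singleton, not_or] at hz
      exact hz.2.2
    · have h5 : (gs F {v, w, y} [(v, a), (b, w), (w, c), (x, y)] z : ℝ) ≤
          (c3 (fv F v w) v a z : ℝ) + c3 (fv F w v) w b z + c3 (fv F w v) w c z +
            c3 (off F {v, w}) x y z := by
        exact_mod_cast hgs z hz
      linarith
  · by_contra hcon
    simp only [not_or, not_le] at hcon
    obtain ⟨q1, q2, q3, q4, -⟩ := hcon
    have s1 := nb_sum (fv F v w) (hUv v w) v a va
    have s2 := nb_sum (fv F w v) (hUv w v) w b wb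
    have s3 := nb_sum (fv F w v) (hUv w v) w c wc
    have s4 := nb_sum (off F {v, w}) hUo x y xy
    have t1 := nb_dg (fv F v w) v a
    have t2 := nb_dg (fv F w v) w b
    have t3 := nb_dg (fv F w v) w c
    have hs : ∑ z ∈ univ.filter (fun z => z ∉ ({v, w, y} : Finset V)),
        gs F {v, w, y} [(v, a), (b, w), (w, c), (x, y)] z ≤
        2 * dg (fv F v w) {a} + 2 * dg (fv F w v) {b} + 2 * dg (fv F w v) {c} +
          2 * dg (off F {v, w}) {x, y} := by
      calc ∑ z ∈ univ.filter (fun z => z ∉ ({v, w, y} : Finset V)),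
          gs F {v, w, y} [(v, a), (b, w), (w, c), (x, y)] z
          ≤ ∑ z ∈ univ.filter (fun z => z ∉ ({v, w, y} : Finset V)),
            (c3 (fv F v w) v a z + c3 (fv F w v) w b z + c3 (fv F w v) w c z +
              c3 (off F {v, w}) x y z) :=
            Finset.sum_le_sum (fun z hz => hgs z (mem_filter.1 hz).2)
        _ ≤ ∑ z, (c3 (fv F v w) v a z + c3 (fv F w v) w b z + c3 (fv F w v) w c z +
              c3 (off F {v, w}) x y z) :=
            Finset.sum_le_sum_of_subset (Finset.filter_subset _ _)
        _ = ∑ z, c3 (fv F v w) v a z + ∑ z, c3 (fv F w v) w b z + ∑ z, c3 (fv F w v) w c z +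
              ∑ z, c3 (off F {v, w}) x y z := by
            rw [Finset.sum_add_distrib, Finset.sum_add_distrib, Finset.sum_add_distrib]
        _ ≤ _ := by omega
    have hs' : (∑ z ∈ univ.filter (fun z => z ∉ ({v, w, y} : Finset V)),
        (gs F {v, w, y} [(v, a), (b, w), (w, c), (x, y)] z : ℝ)) ≤
        2 * (dg (fv F v w) {a} : ℝ) + 2 * dg (fv F w v) {b} + 2 * dg (fv F w v) {c} +
          2 * dg (off F {v, w}) {x, y} := by
      exact_mod_cast hs
    linarith

end Pool.Agent.Ham
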