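import Pool.Agent.Lib.MP_716318_co.H.Spec5

/-!
# MP_716318_co, package H: partners near a star
-/

set_option autoImplicit false

namespace Pool.Agent.Ham

open Finset
open scoped Classical

private theorem nc_c3_le {V : Type} [Fintype V] [DecidableEq V] {G : Finset (Finset V)} (hG : U4 G)
    (w b z : V) : c3 G w b z ≤ dg G {b} := by
  unfold c3 dg
  apply Finset.card_le_card_of_injOn (fun t => ({w, b, z, t} : Finset V))
  · intro t ht
    rw [Finset.mem_coe, Finset.mem_filter] at ht
    rw [Finset.mem_coe, Finset.mem_filter]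
    refine ⟨ht.2, ?_⟩
    intro x hx
    rw [Finset.mem_singleton] at hx
    subst hx
    simp
  · intro t ht t' ht' htt
    rw [Finset.mem_coe, Finset.mem_filter] at ht ht'
    have h4 := hG _ ht.2
    have hnot : t ∉ ({w, b, z} : Finset V) := by
      intro hmem
      have h1 : ({w, b, z, t} : Finset V) ⊆ {w, b, z} := by
        intro x hx
        simp only [Finset.mem_insert, Finset.mem_singleton] at hx hmem ⊢
        rcases hx with rfl | rfl | rfl | rfl
        · exact Or.inl rfl
        · exact Or.inr (Or.inl rfl)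
        · exact Or.inr (Or.inr rfl)
        · exact hmem
      have h2 := Finset.card_le_card h1
      have h3 : ({w, b, z} : Finset V).card ≤ 3 := Finset.card_le_three
      omega
    have htm : t ∈ ({w, b, z, t'} : Finset V) := by
      have : t ∈ ({w, b, z, t} : Finset V) := by simp
      have e : ({w, b, z, t} : Finset V) = {w, b, z, t'} := htt
      rw [e] at this
      exact this
    simp only [Finset.mem_insert, Finset.mem_singleton] at htm hnot
    rcases htm with h | h | h | h
    · exact absurd (Or.inl h) hnot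
    · exact absurd (Or.inr (Or.inl h)) hnot
    · exact absurd (Or.inr (Or.inr h)) hnot
    · exact h

theorem tNc : S_Na → S_Nt → S_Nc := by
  intro hNa hNt
  obtain ⟨ξ, hξ, n0, h0⟩ := hNa
  refine ⟨ξ, hξ, n0, ?_⟩
  intro V _ _ F v w hn hS a ha
  obtain ⟨-, hbad, -, -, -, -, -, -⟩ := hNt V F v w ξ hS
  have hn0 : (0 : ℝ) < (Fintype.card V : ℝ) := by
    have : 0 < Fintype.card V := Fintype.card_pos_iff.2 ⟨a⟩
    exact_mod_cast this
  unfold Tm at ha
  rw [Finset.mem_filter] at ha
  obtain ⟨ha1, ha2⟩ := ha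
  unfold T1 at ha1
  rw [Finset.mem_filter] at ha1
  obtain ⟨-, ha1⟩ := ha1
  -- a missing pair with a good second vertex
  obtain ⟨b, hb, hgood⟩ : ∃ b, Ms F v w a b ∧ ¬ (b ≠ v ∧ b ≠ w ∧
      ((Fintype.card V : ℝ) / 1000 < dg (fv F v w) {b} ∨
        (Fintype.card V : ℝ) / 1000 < dg (fv F w v) {b})) := by
    by_contra hcon
    push Not at hcon
    have hle : dM F v w a ≤ (univ.filter (fun b => b ≠ v ∧ b ≠ w ∧
      ((Fintype.card V : ℝ) / 1000 < dg (fv F v w) {b} ∨
        (Fintype.card V : ℝ) / 1000 < dg (fv F w v) {b}))).card := by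
      unfold dM
      apply Finset.card_le_card
      intro b hb
      rw [Finset.mem_filter] at hb ⊢
      refine ⟨hb.1, ?_⟩
      by_contra hc
      exact hc (hcon b hb.2)
    have h1 : (10000 : ℝ) * (dM F v w a : ℝ) ≤ 3 * (Fintype.card V : ℝ) := by
      have h2 : 10000 * dM F v w a ≤ 3 * Fintype.card V := by
        refine le_trans ?_ hbad
        exact Nat.mul_le_mul_left _ hle
      exact_mod_cast h2
    nlinarith
  obtain ⟨hab, hav, haw, hbv, hbw, -⟩ := id hb
  have hdb : (dg (fv F w v) {b} : ℝ) ≤ (Fintype.card V : ℝ) / 1000 := by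
    by_contra hc
    push Not at hc
    exact hgood ⟨hbv, hbw, Or.inr hc⟩
  rcases h0 V F v w a b hS.u4 hn hS.vw hS.na hS.o hb with h | h | ⟨z, hz⟩
  · linarith
  · linarith
  · refine ⟨z, ?_⟩
    have hU : U4 (fv F w v) := by
      intro A hA
      unfold fv at hA
      rw [Finset.mem_filter] at hA
      exact hS.u4 A hA.1
    have h1 : (c3 (fv F w v) w b z : ℝ) ≤ (dg (fv F w v) {b} : ℝ) := by
      exact_mod_cast nc_c3_le hU w b z
    linarith

end Pool.Agent.Ham
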