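import Pool.Agent.Lib.MP_716318_co.H.Spec5

set_option autoImplicit false

namespace Pool.Agent.Ham

open Finset
open scoped Classical

private theorem c3_le_dg {V : Type} [Fintype V] [DecidableEq V] {G : Finset (Finset V)}
    (hG : U4 G) (x y z : V) : c3 G x y z ≤ dg G {y} := by
  unfold c3 dg
  apply card_le_card_of_injOn (fun t => ({x, y, z, t} : Finset V))
  · intro t ht
    rw [mem_coe, mem_filter] at ht
    rw [mem_coe, mem_filter]
    refine ⟨ht.2, ?_⟩
    intro a ha
    rw [mem_singleton] at ha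
    subst ha
    simp
  · intro t ht t' ht' h
    rw [mem_coe, mem_filter] at ht ht'
    simp only at h
    by_contra hne
    have h1 := hG _ ht.2
    have h2 : t ∈ ({x, y, z, t'} : Finset V) := by
      rw [← h]
      simp
    have h3 : t ∈ ({x, y, z} : Finset V) := by
      simp only [mem_insert, mem_singleton] at h2 ⊢
      tauto
    have h4 : ({x, y, z, t} : Finset V) ⊆ {x, y, z} := by
      intro a ha
      simp only [mem_insert, mem_singleton] at ha h3 ⊢
      rcases ha with ha | ha | ha | ha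
      · exact Or.inl ha
      · exact Or.inr (Or.inl ha)
      · exact Or.inr (Or.inr ha)
      · rw [ha]
        exact h3
    have h5 := card_le_card h4
    have h6 : ({x, y, z} : Finset V).card ≤ 3 := card_le_three
    omega

private theorem u4_fv {V : Type} [DecidableEq V] {F : Finset (Finset V)} (hF : U4 F) (v w : V) :
    U4 (fv F v w) := fun A hA => hF A (mem_filter.mp hA).1

/-- **Nd**: cover of the missing pairs. -/
theorem tNd : S_Na → S_Nt → S_Nd := by
  rintro ⟨ξ, hξ, n0, hNa⟩ -
  refine ⟨ξ, hξ, n0, ?_⟩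
  intro V _ _ F v w hn hS a b hab
  by_contra hcon
  simp only [not_or] at hcon
  obtain ⟨ha1, hb1, ha2, hb2⟩ := hcon
  have hba : Ms F v w b a := by
    obtain ⟨h1, h2, h3, h4, h5, h6⟩ := hab
    refine ⟨fun h => h1 h.symm, h4, h5, h2, h3, ?_⟩
    have h7 : ({v, w, b, a} : Finset V) = {v, w, a, b} := by
      ext x
      simp only [mem_insert, mem_singleton]
      tauto
    rw [h7]
    exact h6
  have hn0 : (0 : ℝ) ≤ Fintype.card V := Nat.cast_nonneg _
  have key : ∀ c d : V, Ms F v w c d → 999 / 1000 * (Fintype.card V : ℝ) ≤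
      (dg (fv F v w) {c} : ℝ) + dg (fv F w v) {d} := by
    intro c d hcd
    have hc0 : (0 : ℝ) ≤ dg (fv F v w) {c} := Nat.cast_nonneg _
    have hd0 : (0 : ℝ) ≤ dg (fv F w v) {d} := Nat.cast_nonneg _
    rcases hNa V F v w c d hS.u4 hn hS.vw hS.na hS.o hcd with h | h | ⟨z, h⟩
    · linarith
    · linarith
    · have h1 : (c3 (fv F v w) v c z : ℝ) ≤ dg (fv F v w) {c} :=
        Nat.cast_le.mpr (c3_le_dg (u4_fv hS.u4 v w) v c z)
      have h2 : (c3 (fv F w v) w d z : ℝ) ≤ dg (fv F w v) {d} :=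
        Nat.cast_le.mpr (c3_le_dg (u4_fv hS.u4 w v) w d z)
      linarith
  have k1 := key a b hab
  have k2 := key b a hba
  have hmem : ∀ c : V, c ≠ v → c ≠ w → c ∉ T1 F v w → c ∉ T2 F v w →
      (dg (fv F v w) {c} : ℝ) + dg (fv F w v) {c} < 999 / 1000 * (Fintype.card V : ℝ) := by
    intro c h1 h2 h3 h4
    by_contra h5
    push Not at h5
    apply h4
    unfold T2
    rw [mem_filter]
    exact ⟨mem_univ _, h1, h2, h3, h5⟩
  have m1 := hmem a hab.2.1 hab.2.2.1 ha1 ha2
  have m2 := hmem b hab.2.2.2.1 hab.2.2.2.2.1 hb1 hb2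
  linarith

end Pool.Agent.Ham
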