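import Pool.Agent.Lib.MP_716318_co.H.Spec5

set_option autoImplicit false

namespace Pool.Agent.Ham

open Finset
open scoped Classical

private theorem ms_symm {V : Type} [DecidableEq V] {F : Finset (Finset V)} {v w a b : V}
    (h : Ms F v w a b) : Ms F v w b a := by
  obtain ⟨h1, h2, h3, h4, h5, h6⟩ := h
  refine ⟨h1.symm, h4, h5, h2, h3, ?_⟩
  have e : ({v, w, b, a} : Finset V) = {v, w, a, b} := by
    rw [Finset.pair_comm b a]
  rw [e]
  exact h6

private theorem dM_eq {V : Type} [Fintype V] [DecidableEq V] (F : Finset (Finset V))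
    (v w a : V) : (dM F v w a : ℝ) = ∑ b, (if Ms F v w a b then (1 : ℝ) else 0) := by
  rw [dM, Finset.card_filter]
  push_cast
  rfl

theorem tNd2 : S_Nd2 := by
  intro V _ _ F v w hvw hv hw hcov
  set T := T1 F v w with hT
  set S := T2 F v w with hS
  set W : Finset V := univ.filter (fun x => x ≠ v ∧ x ≠ w) with hW
  have hn : (W.card : ℝ) = (Fintype.card V : ℝ) - 2 := by
    have h1 : W = (univ.erase v).erase w := by
      ext x
      simp only [hW, mem_filter, mem_univ, true_and, mem_erase, and_true]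
      tauto
    have h2 : w ∈ (univ : Finset V).erase v := mem_erase.2 ⟨hvw.symm, mem_univ _⟩
    have h3 : W.card + 2 = Fintype.card V := by
      rw [h1, card_erase_of_mem h2, card_erase_of_mem (mem_univ v), card_univ]
      have h4 : 1 < Fintype.card V := Fintype.one_lt_card_iff.2 ⟨v, w, hvw⟩
      omega
    have h5 : (W.card : ℝ) + 2 = Fintype.card V := by exact_mod_cast h3
    linarith
  have hTW : T ⊆ W := by
    intro x hx
    simp only [hW, mem_filter, mem_univ, true_and]
    refine ⟨fun h => hv (h ▸ hx), fun h => hw (h ▸ hx)⟩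
  -- pointwise bound
  have hp : ∀ a b : V, (if Ms F v w a b then (1 : ℝ) else 0) ≤
      (if a ∈ T ∧ b ∈ W.erase a then (1 : ℝ) else 0) +
      (if a ∈ W \ T ∧ b ∈ T then (1 : ℝ) else 0) +
      (if a ∈ S then (if Ms F v w a b then (1 : ℝ) else 0) else 0) +
      (if b ∈ S then (if Ms F v w b a then (1 : ℝ) else 0) else 0) := by
    intro a b
    have n1 : (0 : ℝ) ≤ (if a ∈ T ∧ b ∈ W.erase a then (1 : ℝ) else 0) := by
      split_ifs <;> norm_num
    have n2 : (0 : ℝ) ≤ (if a ∈ W \ T ∧ b ∈ T then (1 : ℝ) else 0) := by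
      split_ifs <;> norm_num
    have n3 : (0 : ℝ) ≤ (if a ∈ S then (if Ms F v w a b then (1 : ℝ) else 0) else 0) := by
      split_ifs <;> norm_num
    have n4 : (0 : ℝ) ≤ (if b ∈ S then (if Ms F v w b a then (1 : ℝ) else 0) else 0) := by
      split_ifs <;> norm_num
    by_cases h : Ms F v w a b
    · have haW : a ∈ W := by
        simp only [hW, mem_filter, mem_univ, true_and]
        exact ⟨h.2.1, h.2.2.1⟩
      have hbW : b ∈ W := by
        simp only [hW, mem_filter, mem_univ, true_and]
        exact ⟨h.2.2.2.1, h.2.2.2.2.1⟩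
      rw [if_pos h]
      rw [if_pos h] at n3
      by_cases ha : a ∈ T
      · have e1 : (if a ∈ T ∧ b ∈ W.erase a then (1 : ℝ) else 0) = 1 :=
          if_pos ⟨ha, mem_erase.2 ⟨h.1.symm, hbW⟩⟩
        linarith
      · by_cases hb : b ∈ T
        · have e1 : (if a ∈ W \ T ∧ b ∈ T then (1 : ℝ) else 0) = 1 :=
            if_pos ⟨mem_sdiff.2 ⟨haW, ha⟩, hb⟩
          linarith
        · rcases hcov a b h with h1 | h1 | h1 | h1
          · exact absurd h1 ha
          · exact absurd h1 hb
          · have e1 : (if a ∈ S then (if Ms F v w a b then (1 : ℝ) else 0) else 0) = 1 := by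
              rw [if_pos h1, if_pos h]
            rw [if_pos h] at e1
            linarith
          · have e1 : (if b ∈ S then (if Ms F v w b a then (1 : ℝ) else 0) else 0) = 1 := by
              rw [if_pos h1, if_pos (ms_symm h)]
            linarith
    · rw [if_neg h]
      rw [if_neg h] at n3
      linarith
  have hsum : (∑ a, (dM F v w a : ℝ)) ≤
      (∑ a, ∑ b, (if a ∈ T ∧ b ∈ W.erase a then (1 : ℝ) else 0)) +
      (∑ a, ∑ b, (if a ∈ W \ T ∧ b ∈ T then (1 : ℝ) else 0)) +
      (∑ a, ∑ b, (if a ∈ S then (if Ms F v w a b then (1 : ℝ) else 0) else 0)) +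
      (∑ a, ∑ b, (if b ∈ S then (if Ms F v w b a then (1 : ℝ) else 0) else 0)) := by
    rw [← sum_add_distrib, ← sum_add_distrib, ← sum_add_distrib]
    refine sum_le_sum fun a _ => ?_
    rw [← sum_add_distrib, ← sum_add_distrib, ← sum_add_distrib, dM_eq]
    exact sum_le_sum fun b _ => hp a b
  have s1 : (∑ a, ∑ b, (if a ∈ T ∧ b ∈ W.erase a then (1 : ℝ) else 0)) =
      T.card * ((Fintype.card V : ℝ) - 3) := by
    have h1 : ∀ a, ∑ b, (if a ∈ T ∧ b ∈ W.erase a then (1 : ℝ) else 0) =
        if a ∈ T then ((Fintype.card V : ℝ) - 3) else 0 := by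
      intro a
      by_cases ha : a ∈ T
      · rw [if_pos ha]
        have h2 : ∀ b, (if a ∈ T ∧ b ∈ W.erase a then (1 : ℝ) else 0) =
            if b ∈ W.erase a then 1 else 0 := by
          intro b
          simp [ha]
        rw [sum_congr rfl fun b _ => h2 b, sum_boole, filter_mem_eq_inter, univ_inter,
          card_erase_of_mem (hTW ha)]
        have h3 : 1 ≤ W.card := card_pos.2 ⟨a, hTW ha⟩
        rw [Nat.cast_sub h3, hn]
        push_cast
        ring
      · rw [if_neg ha]
        refine sum_eq_zero fun b _ => ?_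
        rw [if_neg]
        rintro ⟨h, _⟩
        exact ha h
    rw [sum_congr rfl fun a _ => h1 a, ← sum_filter, filter_mem_eq_inter, univ_inter, sum_const,
      nsmul_eq_mul]
  have s2 : (∑ a, ∑ b, (if a ∈ W \ T ∧ b ∈ T then (1 : ℝ) else 0)) =
      ((Fintype.card V : ℝ) - 2 - T.card) * T.card := by
    have h1 : ∀ a, ∑ b, (if a ∈ W \ T ∧ b ∈ T then (1 : ℝ) else 0) =
        if a ∈ W \ T then (T.card : ℝ) else 0 := by
      intro a
      by_cases ha : a ∈ W \ T
      · rw [if_pos ha]
        have h2 : ∀ b, (if a ∈ W \ T ∧ b ∈ T then (1 : ℝ) else 0) =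
            if b ∈ T then 1 else 0 := by
          intro b
          by_cases hb : b ∈ T
          · rw [if_pos ⟨ha, hb⟩, if_pos hb]
          · rw [if_neg (fun h => hb h.2), if_neg hb]
        rw [sum_congr rfl fun b _ => h2 b, sum_boole, filter_mem_eq_inter, univ_inter]
      · rw [if_neg ha]
        refine sum_eq_zero fun b _ => ?_
        rw [if_neg]
        rintro ⟨h, _⟩
        exact ha h
    rw [sum_congr rfl fun a _ => h1 a, ← sum_filter, filter_mem_eq_inter, univ_inter, sum_const,
      nsmul_eq_mul, card_sdiff_of_subset hTW, Nat.cast_sub (card_le_card hTW), hn]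
  have hd : ∀ a ∈ S, (dM F v w a : ℝ) ≤ 4 / 1000 * Fintype.card V := by
    intro a ha
    rw [hS, T2, mem_filter] at ha
    have h1 := ha.2.2.2.1
    rw [T1, mem_filter, not_and] at h1
    exact (not_le.1 (h1 (mem_univ a))).le
  have s3 : (∑ a, ∑ b, (if a ∈ S then (if Ms F v w a b then (1 : ℝ) else 0) else 0)) ≤
      S.card * (4 / 1000 * Fintype.card V) := by
    have h1 : ∀ a, ∑ b, (if a ∈ S then (if Ms F v w a b then (1 : ℝ) else 0) else 0) =
        if a ∈ S then (dM F v w a : ℝ) else 0 := by
      intro a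
      by_cases ha : a ∈ S
      · rw [if_pos ha, dM_eq]
        exact sum_congr rfl fun b _ => if_pos ha
      · rw [if_neg ha]
        exact sum_eq_zero fun b _ => if_neg ha
    rw [sum_congr rfl fun a _ => h1 a, ← sum_filter, filter_mem_eq_inter, univ_inter,
      ← nsmul_eq_mul]
    exact sum_le_card_nsmul _ _ _ hd
  have s4 : (∑ a, ∑ b, (if b ∈ S then (if Ms F v w b a then (1 : ℝ) else 0) else 0)) ≤
      S.card * (4 / 1000 * Fintype.card V) := by
    rw [sum_comm]
    exact s3
  have hfin := hsum.trans (add_le_add (add_le_add (add_le_add s1.le s2.le) s3) s4)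
  refine hfin.trans (le_of_eq ?_)
  ring

end Pool.Agent.Ham
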