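import Pool.Agent.Lib.MP_716318_co.H.Spec5

/-!
# MP_716318_co, package H, module Ne: a missing set at a vertex with a unique partner
-/

set_option autoImplicit false

namespace Pool.Agent.Ham

open Finset
open scoped Classical

private theorem c3_le_dg {V : Type} [Fintype V] [DecidableEq V] (F : Finset (Finset V))
    (hF : U4 F) (x y z : V) (S : Finset V) (hS : S ⊆ {x, y, z}) : c3 F x y z ≤ dg F S := by
  unfold c3 dg
  have hne : ∀ t : V, ({x, y, z, t} : Finset V) ∈ F → t ∉ ({x, y, z} : Finset V) := by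
    intro t ht hmem
    have h1 : ({x, y, z, t} : Finset V) = insert t {x, y, z} := by
      ext u
      simp only [Finset.mem_insert, Finset.mem_singleton]
      tauto
    have h2 := hF _ ht
    rw [h1, Finset.insert_eq_of_mem hmem] at h2
    have h3 := Finset.card_le_three (a := x) (b := y) (c := z)
    omega
  refine Finset.card_le_card_of_injOn (fun t => ({x, y, z, t} : Finset V)) ?_ ?_
  · intro t ht
    have ht' : ({x, y, z, t} : Finset V) ∈ F := by simpa using ht
    have h : ({x, y, z, t} : Finset V) ∈ F.filter (fun A => S ⊆ A) := by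
      rw [Finset.mem_filter]
      refine ⟨ht', hS.trans fun u hu => ?_⟩
      simp only [Finset.mem_insert, Finset.mem_singleton] at hu ⊢
      tauto
    exact h
  · intro t ht t' ht' h
    have h1 : ({x, y, z, t} : Finset V) ∈ F := by simpa using ht
    have h2 := hne t h1
    have h3 : t ∈ ({x, y, z, t'} : Finset V) := by
      have h4 : ({x, y, z, t} : Finset V) = {x, y, z, t'} := h
      rw [← h4]
      simp
    simp only [Finset.mem_insert, Finset.mem_singleton] at h2 h3
    tauto

theorem tNe (h1 : S_Nb) (h2 : S_Nt) : S_Ne := by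
  obtain ⟨ξ, hξ, n0, hN⟩ := h1
  refine ⟨ξ, hξ, max n0 4000, fun V _ _ F v w hn hNS a ha y x hnd hz hmis => ?_⟩
  by_contra hcon
  rw [not_or, not_le, not_le] at hcon
  obtain ⟨hc1, hc2⟩ := hcon
  have hn0 : n0 ≤ Fintype.card V := (le_max_left _ _).trans hn
  have hn1 : 4000 ≤ Fintype.card V := (le_max_right _ _).trans hn
  have hn2 : (4000 : ℝ) ≤ Fintype.card V := by exact_mod_cast hn1
  obtain ⟨-, hb, -⟩ := h2 V F v w ξ hNS
  have hu := hNS.u4
  -- distinctness
  simp only [List.nodup_cons, List.mem_cons, List.not_mem_nil, or_false, not_or, not_false_eq_true,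
    List.nodup_nil, and_true] at hnd
  obtain ⟨⟨hvw, hva, hvy, hvx⟩, ⟨hwa, hwy, hwx⟩, ⟨hay, hax⟩, hyx⟩ := hnd
  -- the vertex `a`
  have ha' := (Finset.mem_filter.1 ha)
  have haT := (Finset.mem_filter.1 ha'.1).2
  have had := ha'.2
  -- the sets
  set B : Finset V := univ.filter (fun b => Ms F v w a b) with hB
  set B1 : Finset V := univ.filter (fun b => b ≠ v ∧ b ≠ w ∧
      ((Fintype.card V : ℝ) / 1000 < dg (fv F v w) {b} ∨
        (Fintype.card V : ℝ) / 1000 < dg (fv F w v) {b})) with hB1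
  set B3 : Finset V := univ.filter (fun t => ({w, x, y, t} : Finset V) ∈ fv F w v) with hB3
  have hBc : 4 / 1000 * (Fintype.card V : ℝ) ≤ B.card := haT
  have hB1c : 10000 * (B1.card : ℝ) ≤ 3 * (Fintype.card V : ℝ) := by exact_mod_cast hb
  have hB3c : (B3.card : ℝ) < 2 / 1000 * (Fintype.card V : ℝ) := hc2
  set G : Finset V := B \ (B1 ∪ ({x, y} ∪ B3)) with hG
  have hGc : 1 < G.card := by
    have e1 : B.card ≤ G.card + (B1 ∪ ({x, y} ∪ B3)).card := by
      have := Finset.card_le_card_sdiff_add_card (s := B) (t := B1 ∪ ({x, y} ∪ B3))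
      omega
    have e2 : (B1 ∪ ({x, y} ∪ B3)).card ≤ B1.card + (2 + B3.card) := by
      refine (Finset.card_union_le _ _).trans (Nat.add_le_add_left ?_ _)
      exact (Finset.card_union_le _ _).trans (Nat.add_le_add_right Finset.card_le_two _)
    have e3 : (B.card : ℝ) ≤ G.card + (B1.card + (2 + B3.card)) := by
      exact_mod_cast e1.trans (Nat.add_le_add_left e2 _)
    have e4 : (1 : ℝ) < G.card := by linarith
    exact_mod_cast e4
  obtain ⟨b, hbG, c, hcG, hbc⟩ := Finset.one_lt_card.1 hGc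
  have key : ∀ b ∈ G, Ms F v w a b ∧ b ≠ x ∧ b ≠ y ∧ ({w, b, x, y} : Finset V) ∉ F ∧
      (dg (fv F w v) {b} : ℝ) ≤ (Fintype.card V : ℝ) / 1000 := by
    intro b hb
    rw [hG, Finset.mem_sdiff, Finset.mem_union, Finset.mem_union, not_or, not_or] at hb
    obtain ⟨hb1, hb2, hb3, hb4⟩ := hb
    have hM : Ms F v w a b := (Finset.mem_filter.1 hb1).2
    simp only [Finset.mem_insert, Finset.mem_singleton, not_or] at hb3
    refine ⟨hM, hb3.1, hb3.2, fun h => hb4 ?_, ?_⟩
    · rw [hB3, Finset.mem_filter]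
      refine ⟨Finset.mem_univ _, ?_⟩
      unfold fv
      rw [Finset.mem_filter]
      have e : ({w, x, y, b} : Finset V) = {w, b, x, y} := by
        ext u
        simp only [Finset.mem_insert, Finset.mem_singleton]
        tauto
      rw [e]
      refine ⟨h, by simp, ?_⟩
      simp only [Finset.mem_insert, Finset.mem_singleton, not_or]
      exact ⟨hvw, fun h' => hM.2.2.2.1 h'.symm, hvx, hvy⟩
    · by_contra h
      rw [not_le] at h
      refine hb2 ?_
      rw [hB1, Finset.mem_filter]
      exact ⟨Finset.mem_univ _, hM.2.2.2.1, hM.2.2.2.2.1, Or.inr h⟩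
  obtain ⟨b1, b2, b3, b4, b5⟩ := key b hbG
  obtain ⟨c1, c2, c3', c4, c5⟩ := key c hcG
  have hnd7 : [v, w, a, b, c, x, y].Nodup := by
    simp only [List.nodup_cons, List.mem_cons, List.not_mem_nil, or_false, not_or,
      not_false_eq_true, List.nodup_nil, and_true]
    exact ⟨⟨hvw, hva, fun h => b1.2.2.2.1 h.symm, fun h => c1.2.2.2.1 h.symm, hvx, hvy⟩,
      ⟨hwa, fun h => b1.2.2.2.2.1 h.symm, fun h => c1.2.2.2.2.1 h.symm, hwx, hwy⟩,
      ⟨b1.1, c1.1, hax, hay⟩, ⟨hbc, b2, b3⟩, ⟨c2, c3'⟩, fun h => hyx h.symm⟩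
  have hmis' : ({v, a, x, y} : Finset V) ∉ F := by
    have e : ({v, a, x, y} : Finset V) = {v, a, y, x} := by
      ext u
      simp only [Finset.mem_insert, Finset.mem_singleton]
      tauto
    rw [e]
    exact hmis
  have hufv : U4 (fv F w v) := fun A hA => hu A (Finset.mem_filter.1 hA).1
  have huoff : U4 (off F {v, w}) := fun A hA => hu A (Finset.mem_filter.1 hA).1
  rcases hN V F v w a b c x y hu hn0 hNS.na hNS.o hnd7 b1 c1 hmis' b4 c4 with h | h | h | h | h
  · linarith
  · linarith
  · linarith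
  · linarith
  · obtain ⟨z, hzy, hz2⟩ := h
    have g1 := hz z hzy
    have g2 : (c3 (fv F w v) w b z : ℝ) ≤ dg (fv F w v) {b} := by
      exact_mod_cast c3_le_dg _ hufv w b z {b} (by simp)
    have g3 : (c3 (fv F w v) w c z : ℝ) ≤ dg (fv F w v) {c} := by
      exact_mod_cast c3_le_dg _ hufv w c z {c} (by simp)
    have g4 : (c3 (off F {v, w}) x y z : ℝ) ≤ dg (off F {v, w}) {x, y} := by
      refine Nat.cast_le.2 (c3_le_dg _ huoff x y z {x, y} ?_)
      intro u hu'
      simp only [Finset.mem_insert, Finset.mem_singleton] at hu' ⊢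
      tauto
    linarith

end Pool.Agent.Ham
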