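import Pool.Agent.Lib.MP_716318_co.H.Spec5

/-!
# MP_716318_co, package H: the switched star has an acceptable path
-/

set_option autoImplicit false

namespace Pool.Agent.Ham

open Finset
open scoped Classical

theorem tNg : S_Ng := by
  intro V _ _ F v w a a' hU hnd hF
  have hd : v ≠ w ∧ v ≠ a ∧ v ≠ a' ∧ w ≠ a ∧ w ≠ a' ∧ a ≠ a' := by
    simp only [List.nodup_cons, List.mem_cons, List.not_mem_nil, or_false, not_or,
      not_false_eq_true, List.nodup_nil, and_true] at hnd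
    exact ⟨hnd.1.1, hnd.1.2.1, hnd.1.2.2, hnd.2.1.1, hnd.2.1.2, hnd.2.2⟩
  obtain ⟨n1, n2, n3, n4, n5, n6⟩ := hd
  let l' : List V := (univ \ ({a', w, a, v} : Finset V)).toList
  have hl' : ∀ x, x ∈ l' ↔ x ≠ a' ∧ x ≠ w ∧ x ≠ a ∧ x ≠ v := by
    intro x
    show x ∈ (univ \ ({a', w, a, v} : Finset V)).toList ↔ _
    simp only [Finset.mem_toList, Finset.mem_sdiff, Finset.mem_univ, true_and, Finset.mem_insert,
      Finset.mem_singleton, not_or]
  have hn' : l'.Nodup := Finset.nodup_toList _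
  let l : List V := a' :: w :: a :: v :: l'
  have he : ∀ e ∈ eds l, (e.1 = a' ∧ e.2 = w) ∨ (e.1 = w ∧ e.2 = a) ∨ (e.1 = a ∧ e.2 = v) ∨
      ((e.1 = v ∨ e.1 ∈ l') ∧ e.2 ∈ l') := by
    intro e hm
    have h1 : eds l = (a', w) :: (w, a) :: (a, v) :: (v :: l').zip l' := rfl
    rw [h1] at hm
    simp only [List.mem_cons] at hm
    rcases hm with hm | hm | hm | hm
    · left; rw [hm]; exact ⟨rfl, rfl⟩
    · right; left; rw [hm]; exact ⟨rfl, rfl⟩
    · right; right; left; rw [hm]; exact ⟨rfl, rfl⟩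
    · right; right; right
      have h2 : (e.1, e.2) ∈ (v :: l').zip l' := hm
      have h3 := List.of_mem_zip h2
      exact ⟨List.mem_cons.1 h3.1, h3.2⟩
  refine ⟨l, ?_, ?_, ?_⟩
  · show (a' :: w :: a :: v :: l').Nodup
    have hv : v ∉ l' := fun h => ((hl' v).1 h).2.2.2 rfl
    have ha : a ∉ l' := fun h => ((hl' a).1 h).2.2.1 rfl
    have hw : w ∉ l' := fun h => ((hl' w).1 h).2.1 rfl
    have ha' : a' ∉ l' := fun h => ((hl' a').1 h).1 rfl
    simp only [List.nodup_cons, List.mem_cons, not_or]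
    exact ⟨⟨n5.symm, n6.symm, n3.symm, ha'⟩, ⟨n4, n1.symm, hw⟩, ⟨n2.symm, ha⟩, hv, hn'⟩
  · intro x
    show x ∈ a' :: w :: a :: v :: l'
    simp only [List.mem_cons, hl']
    tauto
  · intro e hm f hm' hc
    have hc' : ({e.1, e.2, f.1, f.2} : Finset V) ∈ F := hc
    have h4 := hU _ hc'
    have hA := hF _ hc'
    simp only [Finset.mem_insert, Finset.mem_singleton] at hA
    have g1 := he e hm
    have g2 := he f hm'
    rw [hl', hl'] at g1 g2
    have k3 : ∀ p q r : V, ({p, q, r} : Finset V).card ≤ 3 := fun p q r => Finset.card_le_three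
    rcases g1 with ⟨i1, i2⟩ | ⟨i1, i2⟩ | ⟨i1, i2⟩ | ⟨i1, i2⟩ <;>
    rcases g2 with ⟨j1, j2⟩ | ⟨j1, j2⟩ | ⟨j1, j2⟩ | ⟨j1, j2⟩ <;>
    grind

end Pool.Agent.Ham
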