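import Pool.Agent.Lib.MP_716318_co.H.Spec5

/-!
# MP_716318_co, package H: near a star, the contradiction
-/

set_option autoImplicit false

namespace Pool.Agent.Ham

open Finset
open scoped Classical

private theorem four {V : Type} [DecidableEq V] {v x z t : V}
    (h : ({v, x, z, t} : Finset V).card = 4) :
    v ≠ x ∧ v ≠ z ∧ v ≠ t ∧ x ≠ z ∧ x ≠ t ∧ z ≠ t := by
  have h1 : v ∉ ({x, z, t} : Finset V) := fun hm => by
    rw [Finset.insert_eq_of_mem hm] at h
    have := Finset.card_le_three (a := x) (b := z) (c := t)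
    omega
  have h2 : ({x, z, t} : Finset V).card = 3 := by
    rw [Finset.card_insert_of_notMem h1] at h
    omega
  have h3 : x ∉ ({z, t} : Finset V) := fun hm => by
    rw [Finset.insert_eq_of_mem hm] at h2
    have := Finset.card_le_two (a := z) (b := t)
    omega
  have h4 : z ≠ t := by
    rintro rfl
    rw [Finset.card_insert_of_notMem h3] at h2
    simp at h2
  simp only [Finset.mem_insert, Finset.mem_singleton, not_or] at h1 h3
  exact ⟨h1.1, h1.2.1, h1.2.2, h3.1, h3.2, h4⟩

private theorem mono {V : Type} [Fintype V] [DecidableEq V] {F : Finset (Finset V)} {v w : V}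
    {ξ η : ℝ} (h : ξ ≤ η) (H : NS F v w ξ) : NS F v w η := by
  refine ⟨H.u4, H.vw, H.na, H.o.trans ?_, H.m, H.f⟩
  exact mul_le_mul_of_nonneg_right h (by positivity)

private theorem numer (t pv pw uv uw o T2 n f g D : ℕ) (hn : 100000 ≤ n)
    (h1 : ((n : ℝ) - 4) * t + 1 / 100 * (n : ℝ) * (2 * t - pv - pw) + ((uv : ℝ) + uw) / 4 +
      (o : ℝ) / 2 + 5 / 100 * (n : ℝ) * T2 ≤ (f : ℝ) + g + o)
    (h2 : (D : ℝ) ≤ 2 * t * ((n : ℝ) - 2) - t * (t + 1) + 8 / 1000 * n * T2)
    (h3 : 2 * (f + g + o) < D) (hv : pv ≤ t) (hw : pw ≤ t) :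
    (t = 1 ∨ t = 2) ∧ pv = t ∧ pw = t ∧ T2 = 0 ∧ uv + uw < 4 ∧ o < 2 := by
  have h3' : 2 * ((f : ℝ) + g + o) < D := by exact_mod_cast h3
  have hn' : (100000 : ℝ) ≤ n := by exact_mod_cast hn
  have hv' : (pv : ℝ) ≤ t := by exact_mod_cast hv
  have hw' : (pw : ℝ) ≤ t := by exact_mod_cast hw
  have e1 : 0 ≤ (n : ℝ) * (2 * t - pv - pw) := mul_nonneg (by linarith) (by linarith)
  have e2 : 0 ≤ (n : ℝ) * T2 := by positivity
  have e3 : (0 : ℝ) ≤ uv := by positivity
  have e4 : (0 : ℝ) ≤ uw := by positivity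
  have e5 : (0 : ℝ) ≤ o := by positivity
  have key : (t : ℝ) * (t - 3) + 2 / 100 * ((n : ℝ) * (2 * t - pv - pw)) + ((uv : ℝ) + uw) / 2 + o +
      92 / 1000 * ((n : ℝ) * T2) < 0 := by
    nlinarith
  have ht : t = 1 ∨ t = 2 := by
    rcases Nat.lt_or_ge t 3 with ht | ht
    · interval_cases t
      · exfalso
        norm_num at key
        norm_num at e1
        nlinarith
      · left; rfl
      · right; rfl
    · exfalso
      have ht' : (3 : ℝ) ≤ t := by exact_mod_cast ht
      have : 0 ≤ (t : ℝ) * (t - 3) := mul_nonneg (by linarith) (by linarith)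
      linarith
  have ht2 : (t : ℝ) * (t - 3) = -2 := by
    rcases ht with rfl | rfl <;> norm_num
  rw [ht2] at key
  have hT : T2 = 0 := by
    by_contra hne
    have h4 : (1 : ℝ) ≤ T2 := by exact_mod_cast Nat.one_le_iff_ne_zero.2 hne
    have h5 : (100000 : ℝ) * 1 ≤ (n : ℝ) * T2 := mul_le_mul hn' h4 (by norm_num) (by linarith)
    linarith
  have hp : pv + pw = 2 * t := by
    by_contra hne
    have h4 : pv + pw + 1 ≤ 2 * t := by omega
    have h4' : (1 : ℝ) ≤ 2 * t - pv - pw := by
      have : (pv : ℝ) + pw + 1 ≤ 2 * t := by exact_mod_cast h4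
      linarith
    have h5 : (100000 : ℝ) * 1 ≤ (n : ℝ) * (2 * t - pv - pw) :=
      mul_le_mul hn' h4' (by norm_num) (by linarith)
    linarith
  refine ⟨ht, by omega, by omega, hT, ?_, ?_⟩
  · have : ((uv : ℝ) + uw) < 4 := by linarith
    exact_mod_cast this
  · have : (o : ℝ) < 2 := by linarith
    exact_mod_cast this

private theorem tm_sub {V : Type} [Fintype V] [DecidableEq V] (F : Finset (Finset V)) (v w : V) :
    Tm F v w ⊆ T1 F v w := Finset.filter_subset _ _

private theorem pn_le {V : Type} [Fintype V] [DecidableEq V] (F : Finset (Finset V)) (v w : V)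
    (y : V → V) : pn F v w y ≤ (T1 F v w).card :=
  (Finset.card_le_card (Finset.filter_subset _ _)).trans (Finset.card_le_card (tm_sub F v w))

private theorem pfall {V : Type} [Fintype V] [DecidableEq V] {F : Finset (Finset V)} {v w : V}
    {y : V → V} (h : pn F v w y = (T1 F v w).card) : ∀ a ∈ T1 F v w, a ∈ Tm F v w ∧
      Pf (fv F v w) v (Tm F v w) y (Fintype.card V : ℝ) a := by
  have h1 : (Tm F v w).filter (fun a => Pf (fv F v w) v (Tm F v w) y (Fintype.card V : ℝ) a) =
      T1 F v w :=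
    Finset.eq_of_subset_of_card_le ((Finset.filter_subset _ _).trans (tm_sub F v w)) h.ge
  intro a ha
  rw [← h1] at ha
  exact Finset.mem_filter.1 ha

private theorem c3pos {V : Type} [Fintype V] [DecidableEq V] {F : Finset (Finset V)} {v w : V}
    {y : V → V} (hU : U4 F) (hn : 0 < Fintype.card V) (hP : Pm F v w y) {a : V}
    (ha : a ∈ Tm F v w) : y a ≠ a := by
  have h1 := hP a ha
  have h2 : (0 : ℝ) < Fintype.card V := by exact_mod_cast hn
  have h3 : 0 < c3 (fv F v w) v a (y a) := by
    have : (0 : ℝ) < c3 (fv F v w) v a (y a) := by linarith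
    exact_mod_cast this
  obtain ⟨s, hs⟩ := Finset.card_pos.1 h3
  have h4 := (Finset.mem_filter.1 hs).2
  have h5 := four (hU _ (Finset.mem_filter.1 h4).1)
  exact fun h => h5.2.2.2.1 h.symm

/-- One side. -/
private theorem side {V : Type} [Fintype V] [DecidableEq V] {F : Finset (Finset V)} {v w a a' : V}
    {y : V → V} (hU : U4 F) (hn : 0 < Fintype.card V) (hP : Pm F v w y)
    (hT : T1 F v w = {a, a'}) (hnd : [v, w, a, a'].Nodup) (hp : pn F v w y = 2)
    (hl : ls F v w y < 1) :
    Fintype.card V ≤ (fv F v w).card + 4 ∧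
      ((fv F v w).card + 4 = Fintype.card V → ∀ A ∈ fv F v w, a ∈ A ∧ a' ∈ A) := by
  have hd : v ≠ w ∧ v ≠ a ∧ v ≠ a' ∧ w ≠ a ∧ w ≠ a' ∧ a ≠ a' := by
    simp only [List.nodup_cons, List.mem_cons, List.not_mem_nil, or_false, not_or,
      not_false_eq_true, List.nodup_nil, and_true] at hnd
    exact ⟨hnd.1.1, hnd.1.2.1, hnd.1.2.2, hnd.2.1.1, hnd.2.1.2, hnd.2.2⟩
  obtain ⟨n1, n2, n3, n4, n5, n6⟩ := hd
  have hc2 : (T1 F v w).card = 2 := by rw [hT, Finset.card_pair n6]
  have hall := pfall (F := F) (v := v) (w := w) (y := y) (hp.trans hc2.symm)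
  have ha : a ∈ T1 F v w := by rw [hT]; simp
  obtain ⟨haT, haP⟩ := hall a ha
  have hya : y a = a' := by
    have h1 := tm_sub F v w haP.2.1
    rw [hT, Finset.mem_insert, Finset.mem_singleton] at h1
    rcases h1 with h1 | h1
    · exact absurd h1 (c3pos hU hn hP haT)
    · exact h1
  let S : Finset V := univ.filter (fun t => ({v, a, a', t} : Finset V) ∈ fv F v w)
  let R : Finset V := univ \ {v, w, a, a'}
  have hSR : ∀ b z : V, univ.filter (fun t => ({v, b, z, t} : Finset V) ∈ fv F v w) ⊆
      univ \ {v, w, b, z} := by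
    intro b z t ht
    have h1 := (Finset.mem_filter.1 ht).2
    obtain ⟨h2, h3, h4⟩ := Finset.mem_filter.1 h1
    have h5 := four (hU _ h2)
    simp only [Finset.mem_sdiff, Finset.mem_univ, true_and, Finset.mem_insert,
      Finset.mem_singleton, not_or]
    refine ⟨h5.2.2.1.symm, ?_, h5.2.2.2.2.1.symm, h5.2.2.2.2.2.symm⟩
    rintro rfl
    exact h4 (by simp)
  have hc4 : ∀ b z : V, (∃ t, ({v, b, z, t} : Finset V) ∈ fv F v w) →
      ((univ \ {v, w, b, z} : Finset V).card : ℝ) = (Fintype.card V : ℝ) - 4 := by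
    intro b z ⟨t, ht⟩
    obtain ⟨h2, h3, h4⟩ := Finset.mem_filter.1 ht
    have h5 := four (hU _ h2)
    simp only [Finset.mem_insert, Finset.mem_singleton, not_or] at h4
    have h6 : ({v, w, b, z} : Finset V).card = 4 := by
      have k1 : b ∉ ({z} : Finset V) := by
        rw [Finset.mem_singleton]; exact h5.2.2.2.1
      have k2 : w ∉ ({b, z} : Finset V) := by
        simp only [Finset.mem_insert, Finset.mem_singleton, not_or]; exact ⟨h4.2.1, h4.2.2.1⟩
      have k3 : v ∉ ({w, b, z} : Finset V) := by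
        simp only [Finset.mem_insert, Finset.mem_singleton, not_or]
        exact ⟨fun h => h4.1 h.symm, h5.1, h5.2.1⟩
      rw [Finset.card_insert_of_notMem k3, Finset.card_insert_of_notMem k2,
        Finset.card_insert_of_notMem k1, Finset.card_singleton]
    have h7 := Finset.card_sdiff_add_card_eq_card (Finset.subset_univ ({v, w, b, z} : Finset V))
    rw [h6, Finset.card_univ] at h7
    have h8 : ((univ \ {v, w, b, z} : Finset V).card : ℝ) + 4 = Fintype.card V := by
      exact_mod_cast h7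
    linarith
  -- all the terms of `ls` are nonnegative
  have hpos : ∀ b ∈ (Tm F v w).filter (fun b => Pf (fv F v w) v (Tm F v w) y
      (Fintype.card V : ℝ) b), 0 ≤ ((Fintype.card V : ℝ) - 4 - c3 (fv F v w) v b (y b)) := by
    intro b hb
    have hbT := (Finset.mem_filter.1 hb).1
    have h1 := hP b hbT
    have h2 : (0 : ℝ) < Fintype.card V := by exact_mod_cast hn
    have h3 : 0 < c3 (fv F v w) v b (y b) := by
      have : (0 : ℝ) < c3 (fv F v w) v b (y b) := by linarith
      exact_mod_cast this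
    obtain ⟨s, hs⟩ := Finset.card_pos.1 h3
    have h4 := hc4 b (y b) ⟨s, (Finset.mem_filter.1 hs).2⟩
    have h5 : ((c3 (fv F v w) v b (y b) : ℕ) : ℝ) ≤ ((univ \ {v, w, b, y b} : Finset V).card : ℝ) := by
      exact_mod_cast Finset.card_le_card (hSR b (y b))
    rw [h4] at h5
    linarith
  have hmem : a ∈ (Tm F v w).filter (fun b => Pf (fv F v w) v (Tm F v w) y
      (Fintype.card V : ℝ) b) := Finset.mem_filter.2 ⟨haT, haP⟩
  have hterm : ((Fintype.card V : ℝ) - 4 - c3 (fv F v w) v a (y a)) < 1 :=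
    lt_of_le_of_lt (Finset.single_le_sum hpos hmem) hl
  rw [hya] at hterm
  have hScard : (c3 (fv F v w) v a a' : ℕ) = S.card := rfl
  have hcs : c3 (fv F v w) v a a' ≤ R.card := Finset.card_le_card (hSR a a')
  have hRc : R.card + 4 = Fintype.card V := by
    have h6 : ({v, w, a, a'} : Finset V).card = 4 := by
      have k1 : a ∉ ({a'} : Finset V) := by
        rw [Finset.mem_singleton]; exact n6
      have k2 : w ∉ ({a, a'} : Finset V) := by
        simp only [Finset.mem_insert, Finset.mem_singleton, not_or]; exact ⟨n4, n5⟩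
      have k3 : v ∉ ({w, a, a'} : Finset V) := by
        simp only [Finset.mem_insert, Finset.mem_singleton, not_or]
        exact ⟨n1, n2, n3⟩
      rw [Finset.card_insert_of_notMem k3, Finset.card_insert_of_notMem k2,
        Finset.card_insert_of_notMem k1, Finset.card_singleton]
    have h7 := Finset.card_sdiff_add_card_eq_card (Finset.subset_univ ({v, w, a, a'} : Finset V))
    rw [h6, Finset.card_univ] at h7
    exact h7
  have hceq : c3 (fv F v w) v a a' = R.card := by
    have h1 : (R.card : ℝ) + 4 = Fintype.card V := by exact_mod_cast hRc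
    have h2 : (R.card : ℝ) < c3 (fv F v w) v a a' + 1 := by linarith
    have h3 : R.card < c3 (fv F v w) v a a' + 1 := by exact_mod_cast h2
    omega
  have hSeq : S = R := Finset.eq_of_subset_of_card_le (hSR a a') (by rw [← hceq]; exact le_refl _)
  have himg : R.image (fun t => ({v, a, a', t} : Finset V)) ⊆ fv F v w := by
    intro A hA
    obtain ⟨t, ht, rfl⟩ := Finset.mem_image.1 hA
    rw [← hSeq] at ht
    exact (Finset.mem_filter.1 ht).2
  have hinj : Set.InjOn (fun t => ({v, a, a', t} : Finset V)) (R : Set V) := by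
    intro s hs t ht hst
    have hs' : s ∈ univ \ {v, w, a, a'} := hs
    have hst' : ({v, a, a', s} : Finset V) = {v, a, a', t} := hst
    have h1 : s ∈ ({v, a, a', t} : Finset V) := by rw [← hst']; simp
    simp only [Finset.mem_sdiff, Finset.mem_univ, true_and, Finset.mem_insert,
      Finset.mem_singleton, not_or] at h1 hs'
    rcases h1 with h1 | h1 | h1 | h1
    · exact absurd h1 hs'.1
    · exact absurd h1 hs'.2.2.1
    · exact absurd h1 hs'.2.2.2
    · exact h1
  have hic : (R.image (fun t => ({v, a, a', t} : Finset V))).card = R.card :=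
    Finset.card_image_of_injOn hinj
  have hle := Finset.card_le_card himg
  rw [hic] at hle
  refine ⟨by omega, ?_⟩
  intro heq A hA
  have h1 : R.image (fun t => ({v, a, a', t} : Finset V)) = fv F v w :=
    Finset.eq_of_subset_of_card_le himg (by rw [hic]; omega)
  rw [← h1] at hA
  obtain ⟨t, _, rfl⟩ := Finset.mem_image.1 hA
  exact ⟨by simp, by simp⟩

/-- The missing pairs. -/
private theorem pairs {V : Type} [Fintype V] [DecidableEq V] {F : Finset (Finset V)} {v w a a' : V}
    (hnd : [v, w, a, a'].Nodup)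
    (hc : ∀ p q, Ms F v w p q → (p = a ∨ p = a') ∨ (q = a ∨ q = a'))
    (hD : 4 * Fintype.card V ≤ ∑ p, dM F v w p + 15) :
    ∀ p q, p ≠ q → p ≠ v → p ≠ w → q ≠ v → q ≠ w → (p = a ∨ p = a') → Ms F v w p q := by
  have hd : v ≠ w ∧ v ≠ a ∧ v ≠ a' ∧ w ≠ a ∧ w ≠ a' ∧ a ≠ a' := by
    simp only [List.nodup_cons, List.mem_cons, List.not_mem_nil, or_false, not_or,
      not_false_eq_true, List.nodup_nil, and_true] at hnd
    exact ⟨hnd.1.1, hnd.1.2.1, hnd.1.2.2, hnd.2.1.1, hnd.2.1.2, hnd.2.2⟩
  obtain ⟨n1, n2, n3, n4, n5, n6⟩ := hd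
  let P : Finset (V × V) := univ.filter (fun e => Ms F v w e.1 e.2)
  have hPc : P.card = ∑ p, dM F v w p := by
    have h1 : P.card = ∑ e : V × V, if Ms F v w e.1 e.2 then 1 else 0 := by
      rw [Finset.card_filter]
    rw [h1, Fintype.sum_prod_type]
    refine Finset.sum_congr rfl (fun p _ => ?_)
    unfold dM
    rw [Finset.card_filter]
  let U : Finset V := univ \ {v, w}
  let U' : Finset V := univ \ {v, w, a, a'}
  have hU : U.card + 2 = Fintype.card V := by
    have h6 : ({v, w} : Finset V).card = 2 := Finset.card_pair n1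
    have h7 := Finset.card_sdiff_add_card_eq_card (Finset.subset_univ ({v, w} : Finset V))
    rw [h6, Finset.card_univ] at h7
    exact h7
  have hU' : U'.card + 4 = Fintype.card V := by
    have h6 : ({v, w, a, a'} : Finset V).card = 4 := by
      have k1 : a ∉ ({a'} : Finset V) := by
        rw [Finset.mem_singleton]; exact n6
      have k2 : w ∉ ({a, a'} : Finset V) := by
        simp only [Finset.mem_insert, Finset.mem_singleton, not_or]; exact ⟨n4, n5⟩
      have k3 : v ∉ ({w, a, a'} : Finset V) := by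
        simp only [Finset.mem_insert, Finset.mem_singleton, not_or]
        exact ⟨n1, n2, n3⟩
      rw [Finset.card_insert_of_notMem k3, Finset.card_insert_of_notMem k2,
        Finset.card_insert_of_notMem k1, Finset.card_singleton]
    have h7 := Finset.card_sdiff_add_card_eq_card (Finset.subset_univ ({v, w, a, a'} : Finset V))
    rw [h6, Finset.card_univ] at h7
    exact h7
  let R : Finset (V × V) := U.offDiag \ U'.offDiag
  have hsub : U'.offDiag ⊆ U.offDiag := by
    intro e he
    rw [Finset.mem_offDiag] at he ⊢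
    obtain ⟨h1, h2, h3⟩ := he
    have k : ∀ x, x ∈ U' → x ∈ U := by
      intro x hx
      have hx' : x ∈ univ \ {v, w, a, a'} := hx
      show x ∈ univ \ {v, w}
      simp only [Finset.mem_sdiff, Finset.mem_univ, true_and, Finset.mem_insert,
        Finset.mem_singleton, not_or] at hx' ⊢
      exact ⟨hx'.1, hx'.2.1⟩
    exact ⟨k _ h1, k _ h2, h3⟩
  have hRc : R.card + U'.offDiag.card = U.offDiag.card :=
    Finset.card_sdiff_add_card_eq_card hsub
  rw [Finset.offDiag_card, Finset.offDiag_card] at hRc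
  obtain ⟨m, hm⟩ : ∃ m, U'.card = m := ⟨_, rfl⟩
  have hUm : U.card = m + 2 := by omega
  rw [hm, hUm] at hRc
  have hRc' : R.card = 4 * m + 2 := by
    have h1 : m * m - m + m = m * m := Nat.sub_add_cancel (Nat.le_mul_self m)
    have h2 : (m + 2) * (m + 2) - (m + 2) + (m + 2) = (m + 2) * (m + 2) :=
      Nat.sub_add_cancel (Nat.le_mul_self (m + 2))
    have h3 : (m + 2) * (m + 2) = m * m + 4 * m + 4 := by ring
    omega
  have hPR : P ⊆ R := by
    intro e he
    have h1 : Ms F v w e.1 e.2 := (Finset.mem_filter.1 he).2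
    obtain ⟨k1, k2, k3, k4, k5, k6⟩ := h1
    have h2 := hc _ _ ⟨k1, k2, k3, k4, k5, k6⟩
    show e ∈ U.offDiag \ U'.offDiag
    rw [Finset.mem_sdiff, Finset.mem_offDiag, Finset.mem_offDiag]
    refine ⟨⟨?_, ?_, k1⟩, ?_⟩
    · show e.1 ∈ univ \ {v, w}
      simp only [Finset.mem_sdiff, Finset.mem_univ, true_and, Finset.mem_insert,
        Finset.mem_singleton, not_or]
      exact ⟨k2, k3⟩
    · show e.2 ∈ univ \ {v, w}
      simp only [Finset.mem_sdiff, Finset.mem_univ, true_and, Finset.mem_insert,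
        Finset.mem_singleton, not_or]
      exact ⟨k4, k5⟩
    · rintro ⟨h3, h4, _⟩
      have h3' : e.1 ∈ univ \ {v, w, a, a'} := h3
      have h4' : e.2 ∈ univ \ {v, w, a, a'} := h4
      simp only [Finset.mem_sdiff, Finset.mem_univ, true_and, Finset.mem_insert,
        Finset.mem_singleton, not_or] at h3' h4'
      rcases h2 with (h2 | h2) | (h2 | h2)
      · exact h3'.2.2.1 h2
      · exact h3'.2.2.2 h2
      · exact h4'.2.2.1 h2
      · exact h4'.2.2.2 h2
  intro p q hpq hpv hpw hqv hqw hpa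
  by_contra hns
  have hR1 : (p, q) ∈ R ∧ (q, p) ∈ R := by
    have u1 : p ∈ U := by
      show p ∈ univ \ {v, w}
      simp only [Finset.mem_sdiff, Finset.mem_univ, true_and, Finset.mem_insert,
        Finset.mem_singleton, not_or]
      exact ⟨hpv, hpw⟩
    have u2 : q ∈ U := by
      show q ∈ univ \ {v, w}
      simp only [Finset.mem_sdiff, Finset.mem_univ, true_and, Finset.mem_insert,
        Finset.mem_singleton, not_or]
      exact ⟨hqv, hqw⟩
    have u3 : p ∉ U' := by
      intro h
      have h' : p ∈ univ \ {v, w, a, a'} := h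
      simp only [Finset.mem_sdiff, Finset.mem_univ, true_and, Finset.mem_insert,
        Finset.mem_singleton, not_or] at h'
      rcases hpa with h2 | h2
      · exact h'.2.2.1 h2
      · exact h'.2.2.2 h2
    constructor
    · show (p, q) ∈ U.offDiag \ U'.offDiag
      rw [Finset.mem_sdiff, Finset.mem_offDiag, Finset.mem_offDiag]
      exact ⟨⟨u1, u2, hpq⟩, fun h => u3 h.1⟩
    · show (q, p) ∈ U.offDiag \ U'.offDiag
      rw [Finset.mem_sdiff, Finset.mem_offDiag, Finset.mem_offDiag]
      exact ⟨⟨u2, u1, hpq.symm⟩, fun h => u3 h.2.1⟩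
  have hns' : ¬ Ms F v w q p := by
    intro h
    obtain ⟨k1, k2, k3, k4, k5, k6⟩ := h
    apply hns
    refine ⟨hpq, hpv, hpw, hqv, hqw, ?_⟩
    have : ({v, w, p, q} : Finset V) = {v, w, q, p} := by
      rw [Finset.pair_comm p q]
    rw [this]
    exact k6
  have hP2 : P ⊆ (R.erase (p, q)).erase (q, p) := by
    intro e he
    have h1 : Ms F v w e.1 e.2 := (Finset.mem_filter.1 he).2
    rw [Finset.mem_erase, Finset.mem_erase]
    refine ⟨?_, ?_, hPR he⟩
    · rintro rfl; exact hns' h1
    · rintro rfl; exact hns h1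
  have h5 := Finset.card_le_card hP2
  have h6 : (q, p) ∈ R.erase (p, q) := by
    rw [Finset.mem_erase]
    refine ⟨?_, hR1.2⟩
    intro h
    exact hpq (Prod.mk.inj h).2
  rw [Finset.card_erase_of_mem h6, Finset.card_erase_of_mem hR1.1, hPc] at h5
  omega

theorem tNh : S_Nc → S_Nd → S_Nd2 → S_Nt → S_Nf → S_Nl → S_Ng → S_Nh := by
  intro hNc hNd hNd2 hNt hNf hNl hNg
  obtain ⟨ξ1, hξ1, m1, hc⟩ := hNc
  obtain ⟨ξ2, hξ2, m2, hd⟩ := hNd
  obtain ⟨ξ3, hξ3, m3, hf⟩ := hNf
  obtain ⟨ξ4, hξ4, m4, hl⟩ := hNl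
  refine ⟨min (min ξ1 ξ2) (min ξ3 ξ4), lt_min (lt_min hξ1 hξ2) (lt_min hξ3 hξ4),
    m1 + m2 + m3 + m4 + 100000, ?_⟩
  intro V _ _ F v w hn H
  have H1 := mono ((min_le_left _ _).trans (min_le_left _ _)) H
  have H2 := mono ((min_le_left _ _).trans (min_le_right _ _)) H
  have H3 := mono ((min_le_right _ _).trans (min_le_left _ _)) H
  have H4 := mono ((min_le_right _ _).trans (min_le_right _ _)) H
  obtain ⟨_, _, _, dsy, tsy, t2sy, hv1, hw1⟩ := hNt V F v w _ H
  have K1 := (hNt V F v w _ H1).2.2.1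
  have K4 := (hNt V F v w _ H4).2.2.1
  have hU := H.u4
  have hvw := H.vw
  have hn0 : 0 < Fintype.card V := by omega
  -- partner maps
  have hyv : ∀ a, ∃ z, a ∈ Tm F v w → 99 / 100 * (Fintype.card V : ℝ) ≤ c3 (fv F v w) v a z := by
    intro a
    by_cases ha : a ∈ Tm F v w
    · obtain ⟨z, hz⟩ := hc V F v w (by omega) H1 a ha
      exact ⟨z, fun _ => hz⟩
    · exact ⟨a, fun h => absurd h ha⟩
  have hyw : ∀ a, ∃ z, a ∈ Tm F w v → 99 / 100 * (Fintype.card V : ℝ) ≤ c3 (fv F w v) w a z := by
    intro a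
    by_cases ha : a ∈ Tm F w v
    · obtain ⟨z, hz⟩ := hc V F w v (by omega) K1 a ha
      exact ⟨z, fun _ => hz⟩
    · exact ⟨a, fun h => absurd h ha⟩
  choose yv hyv using hyv
  choose yw hyw using hyw
  have Pv : Pm F v w yv := hyv
  have Pw : Pm F w v yw := hyw
  have hcov := hd V F v w (by omega) H2
  have hs2 := hNd2 V F v w hvw hv1 hw1 hcov
  have hs1 := hf V F v w yv yw (by omega) H3 Pv Pw
  have hs3 := H.f
  have hpv := pn_le F v w yv
  have hpw : pn F w v yw ≤ (T1 F v w).card := by
    rw [tsy]; exact pn_le F w v yw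
  have hs2' : ((∑ a, dM F v w a : ℕ) : ℝ) ≤ 2 * (T1 F v w).card * ((Fintype.card V : ℝ) - 2) -
      (T1 F v w).card * ((T1 F v w).card + 1) + 8 / 1000 * Fintype.card V * (T2 F v w).card := by
    push_cast
    exact hs2
  obtain ⟨ht, ep, eq, e2, eu, eo⟩ := numer (T1 F v w).card (pn F v w yv) (pn F w v yw)
    (un F v w yv) (un F w v yw) (off F {v, w}).card (T2 F v w).card (Fintype.card V)
    (fv F v w).card (fv F w v).card (∑ a, dM F v w a) (by omega) hs1 hs2' hs3 hpv hpw
  rcases ht with ht | ht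
  · -- one vertex
    obtain ⟨a, haT⟩ := Finset.card_eq_one.1 ht
    have ha : a ∈ T1 F v w := by rw [haT]; simp
    obtain ⟨h1, h2⟩ := pfall ep a ha
    have h3 := tm_sub F v w h2.2.1
    rw [haT, Finset.mem_singleton] at h3
    exact c3pos hU hn0 Pv h1 h3
  · obtain ⟨a, a', haa, hT⟩ := Finset.card_eq_two.1 ht
    have ha : a ∈ T1 F v w := by rw [hT]; simp
    have ha' : a' ∈ T1 F v w := by rw [hT]; simp
    have d1 : v ≠ a := fun h => hv1 (h ▸ ha)
    have d2 : v ≠ a' := fun h => hv1 (h ▸ ha')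
    have d3 : w ≠ a := fun h => hw1 (h ▸ ha)
    have d4 : w ≠ a' := fun h => hw1 (h ▸ ha')
    have nd1 : [v, w, a, a'].Nodup := by
      simp only [List.nodup_cons, List.mem_cons, List.not_mem_nil, or_false, not_or,
        not_false_eq_true, List.nodup_nil, and_true]
      exact ⟨⟨hvw, d1, d2⟩, ⟨d3, d4⟩, haa⟩
    have nd2 : [w, v, a, a'].Nodup := by
      simp only [List.nodup_cons, List.mem_cons, List.not_mem_nil, or_false, not_or,
        not_false_eq_true, List.nodup_nil, and_true]
      exact ⟨⟨hvw.symm, d3, d4⟩, ⟨d1, d2⟩, haa⟩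
    have hnR : (100000 : ℝ) ≤ Fintype.card V := by
      have : 100000 ≤ Fintype.card V := by omega
      exact_mod_cast this
    have hnp : (0 : ℝ) < Fintype.card V := by linarith
    have eo' : ((off F {v, w}).card : ℝ) ≤ 2 := by exact_mod_cast eo.le
    have euv : (un F v w yv : ℝ) ≤ 4 := by
      have : un F v w yv ≤ 4 := by omega
      exact_mod_cast this
    have euw : (un F w v yw : ℝ) ≤ 4 := by
      have : un F w v yw ≤ 4 := by omega
      exact_mod_cast this
    have hsmall : ∀ o u : ℝ, o ≤ 2 → u ≤ 4 →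
        72 * o / (Fintype.card V : ℝ) + 12000 * u / (Fintype.card V : ℝ) < 1 := by
      intro o u ho hu
      rw [← add_div, div_lt_one hnp]
      linarith
    have lv : ls F v w yv < 1 := by
      have h1 := hl V F v w yv yw (by omega) H4 Pv Pw
      have h2 := hsmall _ _ eo' euw
      rw [eq] at h1
      have h3 : 2 / 100 * (Fintype.card V : ℝ) * (((T1 F v w).card : ℝ) - ((T1 F v w).card : ℝ)) =
        0 := by rw [sub_self, mul_zero]
      rw [h3] at h1
      linarith
    have hoff : off F {w, v} = off F {v, w} := by rw [Finset.pair_comm]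
    have lw : ls F w v yw < 1 := by
      have h1 := hl V F w v yw yv (by omega) K4 Pw Pv
      have h2 := hsmall _ _ eo' euv
      rw [ep, ← tsy, hoff] at h1
      have h3 : 2 / 100 * (Fintype.card V : ℝ) * (((T1 F v w).card : ℝ) - ((T1 F v w).card : ℝ)) =
        0 := by rw [sub_self, mul_zero]
      rw [h3] at h1
      linarith
    obtain ⟨sv1, sv2⟩ := side hU hn0 Pv hT nd1 (ep.trans ht) lv
    obtain ⟨sw1, sw2⟩ := side hU hn0 Pw (tsy.symm.trans hT) nd2 (eq.trans ht) lw
    rw [ht, e2] at hs2'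
    have hD : (∑ a, dM F v w a) + 14 ≤ 4 * Fintype.card V := by
      have h1 : ((∑ a, dM F v w a : ℕ) : ℝ) + 14 ≤ 4 * Fintype.card V := by
        push_cast at hs2' ⊢
        linarith
      exact_mod_cast h1
    have hoc : (off F {v, w}).card = 0 := by omega
    have hfv : (fv F v w).card + 4 = Fintype.card V := by omega
    have hfw : (fv F w v).card + 4 = Fintype.card V := by omega
    have hD2 : 4 * Fintype.card V ≤ ∑ p, dM F v w p + 15 := by omega
    have hT2 : T2 F v w = ∅ := Finset.card_eq_zero.1 e2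
    have hcov' : ∀ p q, Ms F v w p q → (p = a ∨ p = a') ∨ (q = a ∨ q = a') := by
      intro p q hpq
      have h1 := hcov p q hpq
      rw [hT2, hT] at h1
      simp only [Finset.mem_insert, Finset.mem_singleton, Finset.notMem_empty, or_false] at h1
      exact h1
    have hall := pairs nd1 hcov' hD2
    apply H.na
    apply hNg V F v w a a' hU nd1
    intro A hA
    have h4 := hU A hA
    have key : ∀ p, (p = a ∨ p = a') → v ∈ A → w ∈ A → p ∉ A := by
      intro p hp hv hw hpA
      have hpv : p ≠ v := by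
        rcases hp with rfl | rfl
        · exact d1.symm
        · exact d2.symm
      have hpw' : p ≠ w := by
        rcases hp with rfl | rfl
        · exact d3.symm
        · exact d4.symm
      have k1 : w ∈ A.erase v := Finset.mem_erase.2 ⟨hvw.symm, hw⟩
      have k2 : p ∈ (A.erase v).erase w :=
        Finset.mem_erase.2 ⟨hpw', Finset.mem_erase.2 ⟨hpv, hpA⟩⟩
      have k3 : (((A.erase v).erase w).erase p).card = 1 := by
        rw [Finset.card_erase_of_mem k2, Finset.card_erase_of_mem k1,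
          Finset.card_erase_of_mem hv, h4]
      obtain ⟨q, hq⟩ := Finset.card_eq_one.1 k3
      have k4 : A = {v, w, p, q} := by
        rw [← Finset.insert_erase hv, ← Finset.insert_erase k1, ← Finset.insert_erase k2, hq]
      have k5 : q ∈ ((A.erase v).erase w).erase p := by rw [hq]; simp
      simp only [Finset.mem_erase] at k5
      obtain ⟨q1, q2, q3, q4⟩ := k5
      have k6 := hall p q q1.symm hpv hpw' q3 q2 hp
      exact k6.2.2.2.2.2 (k4 ▸ hA)
    by_cases hv : v ∈ A
    · by_cases hw : w ∈ A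
      · left
        exact ⟨hv, hw, key a (Or.inl rfl) hv hw, key a' (Or.inr rfl) hv hw⟩
      · right
        have h5 := sv2 hfv A (Finset.mem_filter.2 ⟨hA, hv, hw⟩)
        exact ⟨h5.1, h5.2, Or.inl ⟨hv, hw⟩⟩
    · by_cases hw : w ∈ A
      · right
        have h5 := sw2 hfw A (Finset.mem_filter.2 ⟨hA, hw, hv⟩)
        exact ⟨h5.1, h5.2, Or.inr ⟨hw, hv⟩⟩
      · exfalso
        have h5 : A ∈ off F {v, w} := by
          refine Finset.mem_filter.2 ⟨hA, ?_⟩
          rw [Finset.disjoint_right]
          intro x hx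
          rw [Finset.mem_insert, Finset.mem_singleton] at hx
          rcases hx with rfl | rfl
          · exact hv
          · exact hw
        rw [Finset.card_eq_zero.1 hoc] at h5
        exact absurd h5 (Finset.notMem_empty A)

end Pool.Agent.Ham
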