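import Pool.Agent.Lib.MP_716318_co.H.Spec5

set_option autoImplicit false

namespace Pool.Agent.Ham

open Finset
open scoped Classical

private theorem mem_fv' {V : Type} [DecidableEq V] {F : Finset (Finset V)} {v w : V}
    {A : Finset V} : A ∈ fv F v w ↔ A ∈ F ∧ v ∈ A ∧ w ∉ A := by
  simp [fv]

private theorem four_ne {V : Type} [DecidableEq V] {a b c d : V}
    (h : ({a, b, c, d} : Finset V).card = 4) :
    a ≠ b ∧ a ≠ c ∧ a ≠ d ∧ b ≠ c ∧ b ≠ d ∧ c ≠ d := by
  have h1 : a ∉ ({b, c, d} : Finset V) := by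
    intro hm
    rw [insert_eq_of_mem hm] at h
    have := Finset.card_le_three (a := b) (b := c) (c := d)
    omega
  have h2 : b ∉ ({c, d} : Finset V) := by
    intro hm
    rw [insert_eq_of_mem hm] at h
    have := Finset.card_le_three (a := a) (b := c) (c := d)
    omega
  have h3 : c ∉ ({d} : Finset V) := by
    intro hm
    rw [insert_eq_of_mem hm] at h
    have := Finset.card_le_three (a := a) (b := b) (c := d)
    omega
  simp only [mem_insert, mem_singleton, not_or] at h1 h2 h3
  exact ⟨h1.1, h1.2.1, h1.2.2, h2.1, h2.2, h3⟩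

private theorem set_swap {V : Type} [DecidableEq V] (v a b x : V) :
    ({v, a, b, x} : Finset V) = {v, b, a, x} := by
  ext u
  simp only [mem_insert, mem_singleton]
  tauto

private theorem c3_swap {V : Type} [Fintype V] [DecidableEq V] (F : Finset (Finset V))
    (v a b : V) : c3 F v a b = c3 F v b a := by
  unfold c3
  congr 1
  apply Finset.filter_congr
  intro t _
  rw [set_swap v a b t]

private theorem partner {V : Type} [Fintype V] [DecidableEq V] {F : Finset (Finset V)}
    {v w a b : V} (hU : U4 F) (h : 0 < c3 (fv F v w) v a b) :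
    v ≠ a ∧ v ≠ b ∧ a ≠ b ∧ w ≠ a ∧ w ≠ b := by
  unfold c3 at h
  obtain ⟨t, ht⟩ := Finset.card_pos.mp h
  rw [mem_filter, mem_fv'] at ht
  obtain ⟨-, hF, -, hw⟩ := ht
  obtain ⟨h1, h2, -, h4, -, -⟩ := four_ne (hU _ hF)
  simp only [mem_insert, mem_singleton, not_or] at hw
  exact ⟨h1, h2, h4, hw.2.1, hw.2.2.1⟩

/-- the missing `x` of `a`, `b` -/
private def Xs {V : Type} [Fintype V] [DecidableEq V] (F : Finset (Finset V)) (v w a b : V) :
    Finset V := univ.filter (fun x => x ∉ ({v, w, a, b} : Finset V) ∧ ({v, a, b, x} : Finset V) ∉ F)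

private theorem card_Xs {V : Type} [Fintype V] [DecidableEq V] (F : Finset (Finset V))
    (v w a b : V) (hw : w ≠ v ∧ w ≠ a ∧ w ≠ b) :
    Fintype.card V ≤ 4 + (Xs F v w a b).card + c3 (fv F v w) v a b := by
  have hsub : (univ : Finset V) ⊆ ({v, w, a, b} ∪ Xs F v w a b) ∪
      univ.filter (fun t => ({v, a, b, t} : Finset V) ∈ fv F v w) := by
    intro x _
    by_cases h1 : x ∈ ({v, w, a, b} : Finset V)
    · exact mem_union_left _ (mem_union_left _ h1)
    · by_cases h2 : ({v, a, b, x} : Finset V) ∈ F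
      · apply mem_union_right
        rw [mem_filter, mem_fv']
        refine ⟨mem_univ _, h2, by simp, ?_⟩
        simp only [mem_insert, mem_singleton, not_or] at h1 ⊢
        exact ⟨hw.1, hw.2.1, hw.2.2, fun h => h1.2.1 h.symm⟩
      · apply mem_union_left
        apply mem_union_right
        unfold Xs
        rw [mem_filter]
        exact ⟨mem_univ _, h1, h2⟩
  have h1 := Finset.card_le_card hsub
  rw [Finset.card_univ] at h1
  have h2 := Finset.card_union_le ({v, w, a, b} ∪ Xs F v w a b)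
      (univ.filter (fun t => ({v, a, b, t} : Finset V) ∈ fv F v w))
  have h3 := Finset.card_union_le ({v, w, a, b} : Finset V) (Xs F v w a b)
  have h4 := Finset.card_le_four (a := v) (b := w) (c := a) (d := b)
  have h5 : (univ.filter (fun t => ({v, a, b, t} : Finset V) ∈ fv F v w)).card =
      c3 (fv F v w) v a b := rfl
  omega

/-- double counting -/
private theorem dc {V : Type} [Fintype V] [DecidableEq V] (H : Finset (Finset V))
    (g : Finset V → Finset (V × V)) (m : ℕ) (hg : ∀ A ∈ H, (g A).card = m) :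
    ∑ p : V × V, (H.filter (fun A => p ∈ g A)).card = m * H.card := by
  have h1 : ∀ p : V × V, (H.filter (fun A => p ∈ g A)).card =
      ∑ A ∈ H, if p ∈ g A then 1 else 0 := by
    intro p
    rw [Finset.card_filter]
  simp only [h1]
  rw [Finset.sum_comm]
  have h2 : ∀ A ∈ H, (∑ p : V × V, if p ∈ g A then 1 else 0) = m := by
    intro A hA
    rw [← hg A hA, ← Finset.card_filter]
    congr 1
    ext p
    simp
  rw [Finset.sum_congr rfl h2, Finset.sum_const, smul_eq_mul, mul_comm]

private theorem markov {ι : Type} [Fintype ι] (S : Finset ι) (f : ι → ℕ) (θ M : ℝ)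
    (h : ∀ p ∈ S, θ ≤ f p) (hM : ((∑ p, f p : ℕ) : ℝ) ≤ M) : S.card * θ ≤ M := by
  have h1 : S.card • θ ≤ ∑ p ∈ S, (f p : ℝ) := Finset.card_nsmul_le_sum S _ θ h
  have h2 : ∑ p ∈ S, (f p : ℝ) ≤ ∑ p, (f p : ℝ) :=
    Finset.sum_le_sum_of_subset_of_nonneg (Finset.subset_univ S) (fun _ _ _ => Nat.cast_nonneg _)
  rw [nsmul_eq_mul] at h1
  push_cast at hM
  linarith

/-- pairs of large degree in a family of 4-sets -/
private theorem q1 {V : Type} [Fintype V] [DecidableEq V] (H : Finset (Finset V)) (hH : U4 H)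
    (S : Finset (V × V)) (θ : ℝ) (hS : ∀ p ∈ S, p.1 ≠ p.2 ∧ θ ≤ dg H {p.1, p.2}) :
    S.card * θ ≤ 12 * H.card := by
  apply markov S (fun p => (H.filter (fun A => p ∈ A.offDiag)).card) θ
  · intro p hp
    obtain ⟨h1, h2⟩ := hS p hp
    refine le_trans h2 ?_
    unfold dg
    rw [Nat.cast_le]
    apply Finset.card_le_card
    intro A hA
    rw [mem_filter] at hA ⊢
    refine ⟨hA.1, ?_⟩
    rw [Finset.mem_offDiag]
    exact ⟨hA.2 (by simp), hA.2 (by simp), h1⟩
  · rw [dc H (fun A => A.offDiag) 12 (by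
      intro A hA
      rw [Finset.offDiag_card, hH A hA])]
    push_cast
    exact le_refl _

/-- pairs with many `t` in a family of 4-sets containing `w` -/
private theorem q2 {V : Type} [Fintype V] [DecidableEq V] (H : Finset (Finset V)) (hH : U4 H)
    (w : V) (hw : ∀ A ∈ H, w ∈ A) (S : Finset (V × V)) (θ : ℝ)
    (hS : ∀ p ∈ S, θ ≤ c3 H w p.1 p.2) :
    S.card * θ ≤ 6 * H.card := by
  apply markov S (fun p => (H.filter (fun A => p ∈ (A.erase w).offDiag)).card) θ
  · intro p hp
    refine le_trans (hS p hp) ?_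
    unfold c3
    rw [Nat.cast_le]
    apply Finset.card_le_card_of_injOn (fun t => ({w, p.1, p.2, t} : Finset V))
    · intro t ht
      rw [Finset.mem_coe, mem_filter] at ht
      rw [Finset.mem_coe, mem_filter]
      refine ⟨ht.2, ?_⟩
      obtain ⟨h1, h2, -, h4, -, -⟩ := four_ne (hH _ ht.2)
      rw [Finset.mem_offDiag]
      refine ⟨?_, ?_, h4⟩
      · rw [Finset.mem_erase]
        exact ⟨h1.symm, by simp⟩
      · rw [Finset.mem_erase]
        exact ⟨h2.symm, by simp⟩
    · intro t ht t' ht' htt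
      rw [Finset.mem_coe, mem_filter] at ht ht'
      obtain ⟨-, -, h3, -, h5, h6⟩ := four_ne (hH _ ht.2)
      have h7 : t ∈ ({w, p.1, p.2, t'} : Finset V) := by
        have h8 : t ∈ ({w, p.1, p.2, t} : Finset V) := by simp
        have h9 : ({w, p.1, p.2, t} : Finset V) = {w, p.1, p.2, t'} := htt
        rw [← h9]
        exact h8
      simp only [mem_insert, mem_singleton] at h7
      rcases h7 with h | h | h | h
      · exact absurd h.symm h3
      · exact absurd h.symm h5
      · exact absurd h.symm h6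
      · exact h
  · rw [dc H (fun A => (A.erase w).offDiag) 6 (by
      intro A hA
      rw [Finset.offDiag_card, Finset.card_erase_of_mem (hw A hA), hH A hA])]
    push_cast
    exact le_refl _

/-- the pairs `Q` -/
private def Qp {V : Type} [Fintype V] [DecidableEq V] (F : Finset (Finset V)) (v w : V)
    (yw : V → V) (x c : V) : Prop :=
  x ≠ c ∧ ((Fintype.card V : ℝ) / 3 ≤ dg (off F {v, w}) {x, c} ∨
    (2 / 1000 * (Fintype.card V : ℝ) ≤ c3 (fv F w v) w x c ∧
      (x ∈ Tm F w v → yw x ≠ c) ∧ (c ∈ Tm F w v → yw c ≠ x)))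

/-- pairs which are not claimed have many unclaimed members -/
private theorem unclaimed {V : Type} [Fintype V] [DecidableEq V] (F : Finset (Finset V))
    (v w : V) (yw : V → V) (hU : U4 F) (hn : 3000 ≤ Fintype.card V)
    (hT : 20000 * (T1 F w v).card ≤ Fintype.card V) (hPm : Pm F w v yw) (x c : V)
    (h2 : 2 / 1000 * (Fintype.card V : ℝ) ≤ c3 (fv F w v) w x c)
    (hx : x ∈ Tm F w v → yw x ≠ c) (hc : c ∈ Tm F w v → yw c ≠ x) :
    (Fintype.card V : ℝ) / 1000 ≤
      c3 ((fv F w v).filter (fun A => Cl (Tm F w v) yw A = ∅)) w x c := by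
  set U := (fv F w v).filter (fun A => Cl (Tm F w v) yw A = ∅) with hUdef
  have hsub : univ.filter (fun t => ({w, x, c, t} : Finset V) ∈ fv F w v) ⊆
      (univ.filter (fun t => ({w, x, c, t} : Finset V) ∈ U) ∪ {yw x, yw c}) ∪ T1 F w v := by
    intro t ht
    rw [mem_filter] at ht
    by_cases htU : ({w, x, c, t} : Finset V) ∈ U
    · exact mem_union_left _ (mem_union_left _ (by rw [mem_filter]; exact ⟨mem_univ _, htU⟩))
    · rw [hUdef, mem_filter, not_and] at htU
      have hne := Finset.nonempty_iff_ne_empty.mpr (htU ht.2)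
      obtain ⟨a, ha⟩ := hne
      unfold Cl at ha
      rw [mem_filter] at ha
      obtain ⟨haA, haT, hyA⟩ := ha
      have hpos : 0 < c3 (fv F w v) w a (yw a) := by
        have h3 := hPm a haT
        have h4 : (0 : ℝ) < Fintype.card V := by
          have : (3000 : ℝ) ≤ Fintype.card V := by exact_mod_cast hn
          linarith
        have h5 : (0 : ℝ) < c3 (fv F w v) w a (yw a) := by linarith
        exact_mod_cast h5
      obtain ⟨p1, p2, p3, -, -⟩ := partner hU hpos
      simp only [mem_insert, mem_singleton] at haA hyA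
      rcases haA with h | h | h | h
      · exact absurd h.symm p1
      · subst h
        rcases hyA with h' | h' | h' | h'
        · exact absurd h'.symm p2
        · exact absurd h'.symm p3
        · exact absurd h' (hx haT)
        · exact mem_union_left _ (mem_union_right _ (by simp [h']))
      · subst h
        rcases hyA with h' | h' | h' | h'
        · exact absurd h'.symm p2
        · exact absurd h' (hc haT)
        · exact absurd h'.symm p3
        · exact mem_union_left _ (mem_union_right _ (by simp [h']))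
      · subst h
        apply mem_union_right
        unfold Tm at haT
        rw [mem_filter] at haT
        exact haT.1
  have h3 := Finset.card_le_card hsub
  have h4 := Finset.card_union_le
    (univ.filter (fun t => ({w, x, c, t} : Finset V) ∈ U) ∪ {yw x, yw c}) (T1 F w v)
  have h5 := Finset.card_union_le
    (univ.filter (fun t => ({w, x, c, t} : Finset V) ∈ U)) {yw x, yw c}
  have h6 := Finset.card_le_two (a := yw x) (b := yw c)
  have h7 : (univ.filter (fun t => ({w, x, c, t} : Finset V) ∈ fv F w v)).card =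
      c3 (fv F w v) w x c := rfl
  have h8 : (univ.filter (fun t => ({w, x, c, t} : Finset V) ∈ U)).card = c3 U w x c := rfl
  rw [h7] at h3
  rw [h8] at h5
  have h9 : c3 (fv F w v) w x c ≤ c3 U w x c + 2 + (T1 F w v).card := by omega
  have h9' : (c3 (fv F w v) w x c : ℝ) ≤ (c3 U w x c : ℝ) + 2 + (T1 F w v).card := by
    exact_mod_cast h9
  have hT' : 20000 * ((T1 F w v).card : ℝ) ≤ Fintype.card V := by exact_mod_cast hT
  have hn' : (3000 : ℝ) ≤ Fintype.card V := by exact_mod_cast hn
  linarith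

private theorem qcard {V : Type} [Fintype V] [DecidableEq V] (F : Finset (Finset V))
    (v w : V) (yw : V → V) (hU : U4 F) (hn : 3000 ≤ Fintype.card V)
    (hT : 20000 * (T1 F w v).card ≤ Fintype.card V) (hPm : Pm F w v yw) :
    ((univ.filter (fun p : V × V => Qp F v w yw p.1 p.2)).card : ℝ) ≤
      36 * (off F {v, w}).card / Fintype.card V + 6000 * un F w v yw / Fintype.card V := by
  have hn' : (3000 : ℝ) ≤ Fintype.card V := by exact_mod_cast hn
  have hpos : (0 : ℝ) < Fintype.card V := by linarith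
  set S1 : Finset (V × V) := univ.filter (fun p : V × V => p.1 ≠ p.2 ∧
    (Fintype.card V : ℝ) / 3 ≤ dg (off F {v, w}) {p.1, p.2}) with hS1
  set S2 : Finset (V × V) := univ.filter (fun p : V × V =>
    (Fintype.card V : ℝ) / 1000 ≤
      c3 ((fv F w v).filter (fun A => Cl (Tm F w v) yw A = ∅)) w p.1 p.2) with hS2
  have hsub : univ.filter (fun p : V × V => Qp F v w yw p.1 p.2) ⊆ S1 ∪ S2 := by
    intro p hp
    rw [mem_filter] at hp
    obtain ⟨-, hne, h | ⟨h2, hx, hc⟩⟩ := hp
    · apply mem_union_left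
      rw [hS1, mem_filter]
      exact ⟨mem_univ _, hne, h⟩
    · apply mem_union_right
      rw [hS2, mem_filter]
      exact ⟨mem_univ _, unclaimed F v w yw hU hn hT hPm p.1 p.2 h2 hx hc⟩
  have hc := le_trans (Finset.card_le_card hsub) (Finset.card_union_le S1 S2)
  have hc' : ((univ.filter (fun p : V × V => Qp F v w yw p.1 p.2)).card : ℝ) ≤
      (S1.card : ℝ) + S2.card := by exact_mod_cast hc
  have hUo : U4 (off F {v, w}) := by
    intro A hA
    unfold off at hA
    rw [mem_filter] at hA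
    exact hU A hA.1
  have b1 : (S1.card : ℝ) * ((Fintype.card V : ℝ) / 3) ≤ 12 * (off F {v, w}).card := by
    apply q1 (off F {v, w}) hUo
    intro p hp
    rw [hS1, mem_filter] at hp
    exact hp.2
  have b2 : (S2.card : ℝ) * ((Fintype.card V : ℝ) / 1000) ≤ 6 * un F w v yw := by
    unfold un
    apply q2 _ _ w
    · intro A hA
      rw [mem_filter, mem_fv'] at hA
      exact hA.1.2.1
    · intro p hp
      rw [hS2, mem_filter] at hp
      exact hp.2
    · intro A hA
      rw [mem_filter, mem_fv'] at hA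
      exact hU A hA.1.1
  have c1 : (S1.card : ℝ) ≤ 36 * (off F {v, w}).card / Fintype.card V := by
    rw [le_div_iff₀ hpos]
    linarith
  have c2 : (S2.card : ℝ) ≤ 6000 * un F w v yw / Fintype.card V := by
    rw [le_div_iff₀ hpos]
    linarith
  linarith

/-- the key step -/
private theorem key {V : Type} [Fintype V] [DecidableEq V] (F : Finset (Finset V))
    (v w : V) (yw : V → V) (hvw : v ≠ w) (hn : 3000 ≤ Fintype.card V)
    (hPm : Pm F w v yw)
    (hNe : ∀ a ∈ Tm F v w, ∀ y x, [v, w, a, y, x].Nodup →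
      (∀ z, z ≠ y → 2 * (c3 (fv F v w) v a z : ℝ) < Fintype.card V) →
      ({v, a, y, x} : Finset V) ∉ F →
      (Fintype.card V : ℝ) / 3 ≤ dg (off F {v, w}) {x, y} ∨
      2 / 1000 * (Fintype.card V : ℝ) ≤ c3 (fv F w v) w x y)
    (a b x : V) (haT : a ∈ Tm F v w) (hbT : b ∈ Tm F v w)
    (hane : v ≠ a ∧ v ≠ b ∧ a ≠ b ∧ w ≠ a ∧ w ≠ b)
    (hPa : ∀ z, z ≠ b → 2 * (c3 (fv F v w) v a z : ℝ) < Fintype.card V)
    (hPb : ∀ z, z ≠ a → 2 * (c3 (fv F v w) v b z : ℝ) < Fintype.card V)
    (hWa : Pf (fv F w v) w (Tm F w v) yw (Fintype.card V : ℝ) a)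
    (hWb : Pf (fv F w v) w (Tm F w v) yw (Fintype.card V : ℝ) b)
    (hx : x ∈ Xs F v w a b) : Qp F v w yw x a ∨ Qp F v w yw x b := by
  have hn' : (3000 : ℝ) ≤ Fintype.card V := by exact_mod_cast hn
  unfold Xs at hx
  rw [mem_filter] at hx
  obtain ⟨-, hx1, hx2⟩ := hx
  simp only [mem_insert, mem_singleton, not_or] at hx1
  obtain ⟨xv, xw, xa, xb⟩ := hx1
  obtain ⟨va, vb, ab, wa, wb⟩ := hane
  have r1 := hNe a haT b x (by
    simp only [List.nodup_cons, List.mem_cons, List.not_mem_nil, or_false, not_or,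
      not_false_eq_true, List.nodup_nil, and_true]
    exact ⟨⟨hvw, va, vb, Ne.symm xv⟩, ⟨wa, wb, Ne.symm xw⟩, ⟨ab, Ne.symm xa⟩, Ne.symm xb⟩) hPa hx2
  have r2 := hNe b hbT a x (by
    simp only [List.nodup_cons, List.mem_cons, List.not_mem_nil, or_false, not_or,
      not_false_eq_true, List.nodup_nil, and_true]
    exact ⟨⟨hvw, vb, va, Ne.symm xv⟩, ⟨wb, wa, Ne.symm xw⟩, ⟨Ne.symm ab, Ne.symm xb⟩,
      Ne.symm xa⟩) hPb (by rw [set_swap v b a x]; exact hx2)
  by_contra hcon
  rw [not_or] at hcon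
  obtain ⟨n1, n2⟩ := hcon
  -- claimed pairs
  have cl : ∀ c, Pf (fv F w v) w (Tm F w v) yw (Fintype.card V : ℝ) c → x ≠ c →
      ((Fintype.card V : ℝ) / 3 ≤ dg (off F {v, w}) {x, c} ∨
      2 / 1000 * (Fintype.card V : ℝ) ≤ c3 (fv F w v) w x c) → ¬ Qp F v w yw x c →
      x = yw c := by
    intro c hc hxc hr hq
    by_contra hne
    apply hq
    refine ⟨hxc, ?_⟩
    rcases hr with h | h
    · exact Or.inl h
    · refine Or.inr ⟨h, ?_, fun _ h' => hne h'.symm⟩
      intro hxT hyx
      have h3 := hPm x hxT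
      rw [hyx, c3_swap] at h3
      have h4 := hc.2.2.2.1 x hne
      linarith
  have e1 := cl a hWa xa r2 n1
  have e2 := cl b hWb xb r1 n2
  have f1 := hWa.2.2.1
  have f2 := hWb.2.2.1
  rw [← e1] at f1
  rw [← e2] at f2
  exact ab (f1.symm.trans f2)

theorem tNl : S_Ne → S_Nt → S_Nl := by
  intro hNe0 hNt
  obtain ⟨ξ, hξ, n0, hNe⟩ := hNe0
  refine ⟨ξ, hξ, max n0 3000, ?_⟩
  intro V _ _ F v w yv yw hn hNS hPv hPw
  have hn0 : n0 ≤ Fintype.card V := le_trans (le_max_left _ _) hn
  have hn3 : 3000 ≤ Fintype.card V := le_trans (le_max_right _ _) hn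
  have hn' : (3000 : ℝ) ≤ Fintype.card V := by exact_mod_cast hn3
  have hNe' := hNe V F v w hn0 hNS
  obtain ⟨hT, -, hNS', -, hT1, -, hvT, hwT⟩ := hNt V F v w ξ hNS
  have hU := hNS.u4
  have hvw := hNS.vw
  set N : ℝ := (Fintype.card V : ℝ) with hN
  set Pv := (Tm F v w).filter (fun a => Pf (fv F v w) v (Tm F v w) yv N a) with hPvdef
  set Pw := (Tm F w v).filter (fun a => Pf (fv F w v) w (Tm F w v) yw N a) with hPwdef
  have hPvT : Pv ⊆ T1 F v w := by
    intro a ha
    rw [hPvdef, mem_filter] at ha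
    have := ha.1
    unfold Tm at this
    exact (mem_filter.mp this).1
  have hPwT : Pw ⊆ T1 F v w := by
    intro a ha
    rw [hPwdef, mem_filter] at ha
    have := ha.1
    unfold Tm at this
    rw [hT1]
    exact (mem_filter.mp this).1
  -- facts on the members of Pv
  have hfac : ∀ a ∈ Pv, yv a ∈ Pv ∧ yv (yv a) = a ∧
      (v ≠ a ∧ v ≠ yv a ∧ a ≠ yv a ∧ w ≠ a ∧ w ≠ yv a) ∧
      (99 / 100 * N ≤ c3 (fv F v w) v a (yv a)) := by
    intro a ha
    rw [hPvdef, mem_filter] at ha
    obtain ⟨haT, hp⟩ := ha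
    have h3 := hPv a haT
    have hpos : 0 < c3 (fv F v w) v a (yv a) := by
      have h5 : (0 : ℝ) < c3 (fv F v w) v a (yv a) := by linarith
      exact_mod_cast h5
    refine ⟨?_, hp.2.2.1, partner hU hpos, h3⟩
    rw [hPvdef, mem_filter]
    refine ⟨hp.2.1, hp.2.1, ?_, ?_, ?_, ?_⟩
    · rw [hp.2.2.1]; exact hp.1
    · rw [hp.2.2.1]
    · rw [hp.2.2.1]; exact hp.2.2.2.2
    · rw [hp.2.2.1]; exact hp.2.2.2.1
  -- split
  set A1 := Pv.filter (fun a => ¬ (a ∈ Pw ∧ yv a ∈ Pw)) with hA1
  set A2 := Pv.filter (fun a => a ∈ Pw ∧ yv a ∈ Pw) with hA2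
  have hls : ls F v w yv = ∑ a ∈ A2, (N - 4 - c3 (fv F v w) v a (yv a)) +
      ∑ a ∈ A1, (N - 4 - c3 (fv F v w) v a (yv a)) := by
    unfold ls
    rw [hA1, hA2]
    exact (Finset.sum_filter_add_sum_filter_not Pv (fun a => a ∈ Pw ∧ yv a ∈ Pw) _).symm
  -- case I
  have hD : (A1.card : ℝ) ≤ 2 * ((T1 F v w).card - (Pw.card : ℝ)) := by
    have hsub : A1 ⊆ (Pv \ Pw) ∪ (Pv \ Pw).image yv := by
      intro a ha
      rw [hA1, mem_filter] at ha
      obtain ⟨haP, hna⟩ := ha
      by_cases h1 : a ∈ Pw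
      · apply mem_union_right
        rw [mem_image]
        have h2 : yv a ∉ Pw := fun h => hna ⟨h1, h⟩
        exact ⟨yv a, mem_sdiff.mpr ⟨(hfac a haP).1, h2⟩, (hfac a haP).2.1⟩
      · exact mem_union_left _ (mem_sdiff.mpr ⟨haP, h1⟩)
    have h1 := Finset.card_le_card hsub
    have h2 := Finset.card_union_le (Pv \ Pw) ((Pv \ Pw).image yv)
    have h3 : ((Pv \ Pw).image yv).card ≤ (Pv \ Pw).card := Finset.card_image_le
    have h4 : (Pv \ Pw).card ≤ (T1 F v w \ Pw).card :=
      Finset.card_le_card (Finset.sdiff_subset_sdiff hPvT (Finset.Subset.refl _))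
    have h5 : (T1 F v w \ Pw).card + Pw.card = (T1 F v w).card :=
      Finset.card_sdiff_add_card_eq_card hPwT
    have h6 : A1.card ≤ 2 * (T1 F v w \ Pw).card := by omega
    have h5' : ((T1 F v w \ Pw).card : ℝ) + Pw.card = (T1 F v w).card := by exact_mod_cast h5
    have h6' : (A1.card : ℝ) ≤ 2 * (T1 F v w \ Pw).card := by exact_mod_cast h6
    linarith
  have hI : ∑ a ∈ A1, (N - 4 - c3 (fv F v w) v a (yv a)) ≤ A1.card * (N / 100) := by
    rw [← nsmul_eq_mul]
    apply Finset.sum_le_card_nsmul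
    intro a ha
    rw [hA1, mem_filter] at ha
    have := (hfac a ha.1).2.2.2
    linarith
  -- case II
  have hII : ∑ a ∈ A2, (N - 4 - c3 (fv F v w) v a (yv a)) ≤
      2 * (univ.filter (fun p : V × V => Qp F v w yw p.1 p.2)).card := by
    have hq : ∀ a ∈ A2, (N - 4 - c3 (fv F v w) v a (yv a)) ≤
        ((univ.filter (fun x => Qp F v w yw x a)).card : ℝ) +
        ((univ.filter (fun x => Qp F v w yw x (yv a))).card : ℝ) := by
      intro a ha
      rw [hA2, mem_filter] at ha
      obtain ⟨haP, haW, hbW⟩ := ha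
      obtain ⟨hbP, hyy, hne, h99⟩ := hfac a haP
      have h1 := card_Xs F v w a (yv a) ⟨Ne.symm hvw, hne.2.2.2.1, hne.2.2.2.2⟩
      have hsub : Xs F v w a (yv a) ⊆ (univ.filter (fun x => Qp F v w yw x a)) ∪
          (univ.filter (fun x => Qp F v w yw x (yv a))) := by
        intro x hx
        rw [hPvdef, mem_filter] at haP hbP
        rw [hPwdef, mem_filter] at haW hbW
        have hk := key F v w yw hvw hn3 hPw hNe' a (yv a) x haP.1 hbP.1 hne
          haP.2.2.2.2.1 haP.2.2.2.2.2 haW.2 hbW.2 hx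
        rcases hk with h | h
        · exact mem_union_left _ (mem_filter.mpr ⟨mem_univ _, h⟩)
        · exact mem_union_right _ (mem_filter.mpr ⟨mem_univ _, h⟩)
      have h2 := le_trans (Finset.card_le_card hsub) (Finset.card_union_le _ _)
      have h3 : Fintype.card V ≤ 4 + ((univ.filter (fun x => Qp F v w yw x a)).card +
          (univ.filter (fun x => Qp F v w yw x (yv a))).card) + c3 (fv F v w) v a (yv a) := by
        omega
      have h4 : (Fintype.card V : ℝ) ≤ 4 + ((univ.filter (fun x => Qp F v w yw x a)).card +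
          (univ.filter (fun x => Qp F v w yw x (yv a))).card) + c3 (fv F v w) v a (yv a) := by
        exact_mod_cast h3
      linarith
    have htot : (∑ c, ((univ.filter (fun x => Qp F v w yw x c)).card : ℝ)) =
        ((univ.filter (fun p : V × V => Qp F v w yw p.1 p.2)).card : ℝ) := by
      rw [Finset.card_filter]
      push_cast
      rw [Fintype.sum_prod_type_right]
      apply Finset.sum_congr rfl
      intro c _
      rw [Finset.card_filter]
      push_cast
      rfl
    have hs1 : ∑ a ∈ A2, ((univ.filter (fun x => Qp F v w yw x a)).card : ℝ) ≤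
        ∑ c, ((univ.filter (fun x => Qp F v w yw x c)).card : ℝ) :=
      Finset.sum_le_sum_of_subset_of_nonneg (Finset.subset_univ _)
        (fun _ _ _ => Nat.cast_nonneg _)
    have hinj : Set.InjOn yv (A2 : Set V) := by
      intro a ha b hb hab
      rw [Finset.mem_coe, hA2, mem_filter] at ha hb
      have h1 := (hfac a ha.1).2.1
      have h2 := (hfac b hb.1).2.1
      rw [← h1, ← h2, hab]
    have hs2 : ∑ a ∈ A2, ((univ.filter (fun x => Qp F v w yw x (yv a))).card : ℝ) ≤
        ∑ c, ((univ.filter (fun x => Qp F v w yw x c)).card : ℝ) := by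
      rw [← Finset.sum_image (f := fun c => ((univ.filter (fun x => Qp F v w yw x c)).card : ℝ))
        hinj]
      exact Finset.sum_le_sum_of_subset_of_nonneg (Finset.subset_univ _)
        (fun _ _ _ => Nat.cast_nonneg _)
    have h1 := Finset.sum_le_sum hq
    rw [Finset.sum_add_distrib] at h1
    rw [htot] at hs1 hs2
    linarith
  have hQ := qcard F v w yw hU hn3 (by rw [← hT1]; exact hT) hPw
  have hpn : (pn F w v yw : ℝ) = Pw.card := rfl
  rw [hls, hpn]
  have hI2 : (A1.card : ℝ) * (N / 100) ≤ 2 * ((T1 F v w).card - (Pw.card : ℝ)) * (N / 100) :=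
    mul_le_mul_of_nonneg_right hD (by linarith)
  have e1 : 72 * ((off F {v, w}).card : ℝ) / N = 2 * (36 * (off F {v, w}).card / N) := by ring
  have e2 : 12000 * (un F w v yw : ℝ) / N = 2 * (6000 * un F w v yw / N) := by ring
  have e3 : 2 / 100 * N * (((T1 F v w).card : ℝ) - Pw.card) =
    2 * ((T1 F v w).card - (Pw.card : ℝ)) * (N / 100) := by ring
  rw [e1, e2, e3]
  linarith

end Pool.Agent.Ham
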