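import Pool.Agent.Lib.MP_716318_co.H.Spec5
set_option autoImplicit false
namespace Pool.Agent.Ham

open Finset
open scoped Classical

private theorem Ms_comm {V : Type} [DecidableEq V] (F : Finset (Finset V)) (v w a b : V) :
    Ms F v w a b ↔ Ms F w v a b := by
  unfold Ms
  rw [Finset.insert_comm v w]
  tauto

private theorem dM_comm {V : Type} [Fintype V] [DecidableEq V] (F : Finset (Finset V))
    (v w a : V) : dM F v w a = dM F w v a := by
  unfold dM
  congr 1
  ext b
  simp only [mem_filter, mem_univ, true_and]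
  exact Ms_comm F v w a b

private theorem T1_comm {V : Type} [Fintype V] [DecidableEq V] (F : Finset (Finset V))
    (v w : V) : T1 F v w = T1 F w v := by
  unfold T1
  ext a
  simp only [mem_filter, mem_univ, true_and]
  rw [dM_comm F v w a]

private theorem T2_comm {V : Type} [Fintype V] [DecidableEq V] (F : Finset (Finset V))
    (v w : V) : T2 F v w = T2 F w v := by
  unfold T2
  ext a
  simp only [mem_filter, mem_univ, true_and]
  rw [T1_comm F v w, add_comm ((dg (fv F v w) {a} : ℝ))]
  tauto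

private theorem dM_self {V : Type} [Fintype V] [DecidableEq V] (F : Finset (Finset V))
    (v w : V) : dM F v w v = 0 := by
  unfold dM
  rw [card_eq_zero, filter_eq_empty_iff]
  intro b _ h
  exact h.2.1 rfl

private theorem sum_dg {V : Type} [Fintype V] [DecidableEq V] (F : Finset (Finset V))
    (v w : V) (h4 : U4 F) :
    ∑ b ∈ univ.filter (fun b => b ≠ v ∧ b ≠ w), dg (fv F v w) {b} ≤ 3 * (fv F v w).card := by
  unfold dg
  have h1 : ∀ b : V, ((fv F v w).filter (fun A => ({b} : Finset V) ⊆ A)).card =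
      ∑ A ∈ fv F v w, if b ∈ A then 1 else 0 := by
    intro b
    rw [card_filter]
    refine sum_congr rfl fun A _ => ?_
    simp only [singleton_subset_iff]
  rw [sum_congr rfl (fun b _ => h1 b), sum_comm]
  have h2 : ∀ A ∈ fv F v w, (∑ b ∈ univ.filter (fun b => b ≠ v ∧ b ≠ w),
      if b ∈ A then 1 else 0) ≤ 3 := by
    intro A hA
    rw [fv, mem_filter] at hA
    rw [← card_filter]
    have h3 : (univ.filter (fun b => b ≠ v ∧ b ≠ w)).filter (fun b => b ∈ A) ⊆ A.erase v := by
      intro b hb
      rw [mem_filter, mem_filter] at hb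
      exact mem_erase.2 ⟨hb.1.2.1, hb.2⟩
    refine (card_le_card h3).trans ?_
    rw [card_erase_of_mem hA.2.1, h4 A hA.1]
  calc _ ≤ ∑ A ∈ fv F v w, 3 := sum_le_sum h2
    _ = 3 * (fv F v w).card := by rw [sum_const, smul_eq_mul, mul_comm]

theorem tNt : S_Nt := by
  intro V _ _ F v w ξ h
  set n : ℝ := (Fintype.card V : ℝ) with hn
  have hsum : 0 < ∑ a, dM F v w a := lt_of_le_of_lt (Nat.zero_le _) h.f
  have hVne : Nonempty V := by
    by_contra hne
    rw [not_nonempty_iff] at hne
    rw [Finset.univ_eq_empty, Finset.sum_empty] at hsum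
    exact lt_irrefl _ hsum
  have hn0 : 0 < n := by
    rw [hn]
    exact_mod_cast Fintype.card_pos
  have hf : 2 * (((fv F v w).card : ℝ) + (fv F w v).card + (off F {v, w}).card) <
      ∑ a, (dM F v w a : ℝ) := by
    exact_mod_cast h.f
  have hm : ∑ a, (dM F v w a : ℝ) ≤ 2 / (10 : ℝ) ^ 7 * n ^ 2 := h.m
  have ho : (0 : ℝ) ≤ ((off F {v, w}).card : ℝ) := Nat.cast_nonneg _
  have hT1 : 20000 * (T1 F v w).card ≤ Fintype.card V := by
    have h1 : ((T1 F v w).card : ℝ) * (4 / 1000 * n) ≤ ∑ a, (dM F v w a : ℝ) := by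
      calc ((T1 F v w).card : ℝ) * (4 / 1000 * n) = ∑ a ∈ T1 F v w, (4 / 1000 * n) := by
            rw [sum_const, nsmul_eq_mul]
        _ ≤ ∑ a ∈ T1 F v w, (dM F v w a : ℝ) := by
            refine sum_le_sum fun a ha => ?_
            rw [T1, mem_filter] at ha
            exact ha.2
        _ ≤ ∑ a, (dM F v w a : ℝ) :=
            sum_le_sum_of_subset_of_nonneg (subset_univ _) fun _ _ _ => Nat.cast_nonneg _
    have h2 : (20000 : ℝ) * (T1 F v w).card ≤ n := by
      have h3 := h1.trans hm
      by_contra hlt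
      push Not at hlt
      have h4 := mul_lt_mul_of_pos_right hlt hn0
      nlinarith
    rw [hn] at h2
    exact_mod_cast h2
  have hB : 10000 * (univ.filter (fun b => b ≠ v ∧ b ≠ w ∧
      (n / 1000 < dg (fv F v w) {b} ∨ n / 1000 < dg (fv F w v) {b}))).card ≤
        3 * Fintype.card V := by
    set S := univ.filter (fun b => b ≠ v ∧ b ≠ w ∧
      (n / 1000 < dg (fv F v w) {b} ∨ n / 1000 < dg (fv F w v) {b})) with hS
    have e1 : ((∑ b ∈ univ.filter (fun b => b ≠ v ∧ b ≠ w), dg (fv F v w) {b} : ℕ) : ℝ) ≤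
        3 * ((fv F v w).card : ℝ) := by exact_mod_cast sum_dg F v w h.u4
    have e2 : ((∑ b ∈ univ.filter (fun b => b ≠ w ∧ b ≠ v), dg (fv F w v) {b} : ℕ) : ℝ) ≤
        3 * ((fv F w v).card : ℝ) := by exact_mod_cast sum_dg F w v h.u4
    have e3 : univ.filter (fun b : V => b ≠ w ∧ b ≠ v) = univ.filter (fun b => b ≠ v ∧ b ≠ w) := by
      ext b
      simp only [mem_filter, mem_univ, true_and]
      tauto
    rw [e3] at e2
    have h1 : (S.card : ℝ) * (n / 1000) ≤
        ((∑ b ∈ univ.filter (fun b => b ≠ v ∧ b ≠ w), dg (fv F v w) {b} : ℕ) : ℝ) +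
        ((∑ b ∈ univ.filter (fun b => b ≠ v ∧ b ≠ w), dg (fv F w v) {b} : ℕ) : ℝ) := by
      rw [Nat.cast_sum, Nat.cast_sum, ← sum_add_distrib]
      calc (S.card : ℝ) * (n / 1000) = ∑ b ∈ S, (n / 1000) := by rw [sum_const, nsmul_eq_mul]
        _ ≤ ∑ b ∈ S, ((dg (fv F v w) {b} : ℝ) + (dg (fv F w v) {b} : ℝ)) := by
            refine sum_le_sum fun b hb => ?_
            rw [hS, mem_filter] at hb
            have p1 : (0 : ℝ) ≤ (dg (fv F v w) {b} : ℝ) := Nat.cast_nonneg _
            have p2 : (0 : ℝ) ≤ (dg (fv F w v) {b} : ℝ) := Nat.cast_nonneg _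
            rcases hb.2.2.2 with hh | hh
            · linarith
            · linarith
        _ ≤ _ := by
            refine sum_le_sum_of_subset_of_nonneg ?_ fun b _ _ => by positivity
            intro b hb
            rw [hS, mem_filter] at hb
            rw [mem_filter]
            exact ⟨mem_univ _, hb.2.1, hb.2.2.1⟩
    have h2 : (10000 : ℝ) * S.card ≤ 3 * n := by
      have h3 : (S.card : ℝ) * (n / 1000) ≤ 3 / 2 * (2 / (10 : ℝ) ^ 7 * n ^ 2) := by
        linarith
      by_contra hlt
      push Not at hlt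
      have h4 := mul_lt_mul_of_pos_right hlt hn0
      nlinarith
    rw [hn] at h2
    exact_mod_cast h2
  refine ⟨hT1, hB, ?_, dM_comm F v w, T1_comm F v w, T2_comm F v w, ?_, ?_⟩
  · refine ⟨h.u4, h.vw.symm, h.na, ?_, ?_, ?_⟩
    · rw [pair_comm w v]
      exact h.o
    · have := h.m
      simp only [dM_comm F v w] at this
      exact this
    · have := h.f
      simp only [dM_comm F v w] at this
      rw [pair_comm w v, add_comm (fv F w v).card]
      exact this
  · intro hv
    rw [T1, mem_filter, dM_self, Nat.cast_zero] at hv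
    have := hv.2
    linarith
  · intro hv
    rw [T1_comm, T1, mem_filter, dM_self, Nat.cast_zero] at hv
    have := hv.2
    linarith

end Pool.Agent.Ham
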