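import Pool.Agent.Lib.MP_716318_co.H.Spec5

set_option autoImplicit false

namespace Pool.Agent.Ham

open Finset
open scoped Classical

theorem tPes : S_Pe → S_Pes := by
  intro hPe δ K hδ hδ1 hK
  obtain ⟨η, hη, n0, h⟩ := hPe δ K hδ hδ1 hK
  refine ⟨min η (1 / 200000), lt_min hη (by norm_num), n0, ?_⟩
  intro V _ _ F J Es B0 B1 Bs hn hB hoff hacc
  by_contra hcon
  push Not at hcon
  obtain ⟨hc1, hc2⟩ := hcon
  have hn2 : (0 : ℝ) ≤ (Fintype.card V : ℝ) ^ 2 := sq_nonneg _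
  have ho1 : ((off F J).card : ℝ) ≤ η * (Fintype.card V : ℝ) ^ 2 :=
    hoff.trans (mul_le_mul_of_nonneg_right (min_le_left _ _) hn2)
  have ho2 : ((off F J).card : ℝ) ≤ 1 / 200000 * (Fintype.card V : ℝ) ^ 2 :=
    hoff.trans (mul_le_mul_of_nonneg_right (min_le_right _ _) hn2)
  have ho3 : 200000 * (off F J).card ≤ (Fintype.card V) ^ 2 := by
    have : (200000 : ℝ) * ((off F J).card : ℝ) ≤ (Fintype.card V : ℝ) ^ 2 := by linarith
    exact_mod_cast this
  have hd : ∀ x, dg (off F J) {x} ≤ (off F J).card := fun x => card_filter_le _ _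
  have hdη : ∀ x, (dg (off F J) {x} : ℝ) ≤ η * (Fintype.card V : ℝ) ^ 2 := fun x =>
    le_trans (by exact_mod_cast hd x) ho1
  obtain ⟨l, hl1, hl2, -, -, hl3, -⟩ := h V F J Es B0 B1 Bs hn
    { u4 := hB.u4
      nz := hB.nz
      nd := hB.nd
      len := hB.len
      jb := hB.jb
      es := hB.es
      ends := fun x hx => ⟨hB.ends x hx, hdη x⟩
      c0 := hB.c0
      c1 := fun x _ => (Nat.mul_le_mul_left _ (hd x)).trans ho3
      c2 := fun x hx _ => hc1 x hx
      c2m := fun x _ hx => absurd (hdη x) (not_le.2 hx)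
      c3 := hc2
      c4 := by omega }
  exact hacc ⟨l, hl1, hl2, hl3⟩

end Pool.Agent.Ham
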