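import Pool.Agent.Lib.MP_716318_co.H.Spec3

/-!
# MP_716318_co, package H: disjoint events at two independent choices
-/

set_option autoImplicit false

namespace Pool.Agent.Ham

open Finset
open scoped Classical

section RaAux

variable {H Λ : Type}

/-- An event depends only on the coordinates in its index set. -/
private theorem evt_congr [DecidableEq H] {D : H → Λ → Prop} {G : H → H → Λ → Λ → Prop}
    {e : Finset H} {a c : H → Λ} (h : Evt D G e a) (hc : ∀ v ∈ e, c v = a v) : Evt D G e c := by
  rcases h with ⟨v, he, hv⟩ | ⟨v, w, hvw, he, hg⟩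
  · left
    refine ⟨v, he, ?_⟩
    rw [hc v (by rw [he]; simp)]
    exact hv
  · right
    refine ⟨v, w, hvw, he, ?_⟩
    rw [hc v (by rw [he]; simp), hc w (by rw [he]; simp)]
    exact hg

private theorem evt_card [DecidableEq H] {D : H → Λ → Prop} {G : H → H → Λ → Λ → Prop}
    {e : Finset H} {a : H → Λ} (h : Evt D G e a) : e.card ≤ 2 ∧ e.Nonempty := by
  rcases h with ⟨v, he, hv⟩ | ⟨v, w, hvw, he, hg⟩
  · rw [he]
    simp
  · rw [he]
    exact ⟨Finset.card_le_two, ⟨v, by simp⟩⟩

/-- The mixture. -/
private noncomputable def mix (S : Finset H) (a b : H → Λ) (v : H) : Λ := if v ∈ S then a v else b v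

private theorem mix_mix (S : Finset H) (a b : H → Λ) : mix S (mix S a b) (mix S b a) = a := by
  funext v
  by_cases h : v ∈ S <;> simp [mix, h]

/-- The number of the sets which contain `e` and are disjoint from `f`. -/
private theorem card_between [Fintype H] [DecidableEq H] (e f : Finset H) (he : e.card ≤ 2)
    (hf : f.card ≤ 2) :
    2 ^ Fintype.card H ≤ 16 * (univ.filter (fun S : Finset H => e ⊆ S \ f ∪ e ∧
      ∃ T : Finset H, S = T \ f ∪ e)).card := by
  have h1 : (univ : Finset (Finset H)).card ≤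
      ((univ.filter (fun S : Finset H => e ⊆ S \ f ∪ e ∧ ∃ T : Finset H, S = T \ f ∪ e)) ×ˢ
        (e.powerset ×ˢ f.powerset)).card := by
    refine Finset.card_le_card_of_injOn (fun S => (S \ f ∪ e, (S ∩ e, S ∩ f))) ?_ ?_
    · intro S _
      simp only [Finset.coe_product, Set.mem_prod, Finset.mem_coe, Finset.mem_filter,
        Finset.mem_univ, true_and, Finset.mem_powerset]
      exact ⟨⟨Finset.subset_union_right, S, rfl⟩, Finset.inter_subset_right,
        Finset.inter_subset_right⟩
    · intro S _ T _ hST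
      simp only [Prod.mk.injEq] at hST
      obtain ⟨h1, h2, h3⟩ := hST
      ext v
      have k1 := Finset.ext_iff.1 h1 v
      have k2 := Finset.ext_iff.1 h2 v
      have k3 := Finset.ext_iff.1 h3 v
      simp only [Finset.mem_union, Finset.mem_sdiff, Finset.mem_inter] at k1 k2 k3
      tauto
  rw [Finset.card_product, Finset.card_product, Finset.card_powerset, Finset.card_powerset,
    Finset.card_univ, Fintype.card_finset] at h1
  have h2 : (2 : ℕ) ^ e.card ≤ 4 := by
    calc (2 : ℕ) ^ e.card ≤ 2 ^ 2 := Nat.pow_le_pow_right (by norm_num) he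
      _ = 4 := by norm_num
  have h3 : (2 : ℕ) ^ f.card ≤ 4 := by
    calc (2 : ℕ) ^ f.card ≤ 2 ^ 2 := Nat.pow_le_pow_right (by norm_num) hf
      _ = 4 := by norm_num
  have h4 : (2 : ℕ) ^ e.card * 2 ^ f.card ≤ 16 := by
    calc (2 : ℕ) ^ e.card * 2 ^ f.card ≤ 4 * 4 := Nat.mul_le_mul h2 h3
      _ = 16 := by norm_num
  calc 2 ^ Fintype.card H ≤ _ := h1
    _ ≤ _ * 16 := Nat.mul_le_mul_left _ h4
    _ = _ := Nat.mul_comm _ _

end RaAux

theorem tRa : S_Ra := by
  intro H Λ _ _ _ _ D G
  set L := univ.filter (fun p : (H → Λ) × (H → Λ) =>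
      ∃ e f : Finset H, Evt D G e p.1 ∧ Evt D G f p.2 ∧ Disjoint e f) with hL
  set N2 := univ.filter (fun a : H → Λ => 2 ≤ Nn D G a) with hN2
  -- the triples
  have key1 : ∀ p ∈ L, 2 ^ Fintype.card H ≤
      16 * (univ.filter (fun S : Finset H => 2 ≤ Nn D G (mix S p.1 p.2))).card := by
    intro p hp
    rw [hL, Finset.mem_filter] at hp
    obtain ⟨-, e, f, he, hf, hd⟩ := hp
    refine (card_between e f (evt_card he).1 (evt_card hf).1).trans ?_
    refine Nat.mul_le_mul_left _ (Finset.card_le_card ?_)
    intro S hS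
    rw [Finset.mem_filter] at hS ⊢
    obtain ⟨-, -, T, rfl⟩ := hS
    refine ⟨Finset.mem_univ _, ?_⟩
    have c1 : Evt D G e (mix (T \ f ∪ e) p.1 p.2) := by
      refine evt_congr he fun v hv => ?_
      simp only [mix]
      rw [if_pos (Finset.mem_union_right _ hv)]
    have c2 : Evt D G f (mix (T \ f ∪ e) p.1 p.2) := by
      refine evt_congr hf fun v hv => ?_
      have : v ∉ T \ f ∪ e := by
        rw [Finset.mem_union, Finset.mem_sdiff]
        rintro (h | h)
        · exact h.2 hv
        · exact Finset.disjoint_left.1 hd h hv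
      simp only [mix]
      rw [if_neg this]
    have hne : e ≠ f := by
      rintro rfl
      exact (evt_card he).2.ne_empty (Finset.disjoint_self_iff_empty _ |>.1 hd)
    unfold Nn
    refine Finset.one_lt_card.2 ⟨e, ?_, f, ?_, hne⟩
    · rw [Finset.mem_filter]
      exact ⟨Finset.mem_univ _, c1⟩
    · rw [Finset.mem_filter]
      exact ⟨Finset.mem_univ _, c2⟩
  have key2 : ∀ S : Finset H, (univ.filter (fun p : (H → Λ) × (H → Λ) =>
      2 ≤ Nn D G (mix S p.1 p.2))).card = N2.card * Fintype.card (H → Λ) := by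
    intro S
    rw [← Finset.card_univ, ← Finset.card_product]
    refine Finset.card_bij (fun p _ => (mix S p.1 p.2, mix S p.2 p.1)) ?_ ?_ ?_
    · intro p hp
      rw [Finset.mem_filter] at hp
      rw [Finset.mem_product, hN2, Finset.mem_filter]
      exact ⟨⟨Finset.mem_univ _, hp.2⟩, Finset.mem_univ _⟩
    · intro p _ q _ hpq
      simp only [Prod.mk.injEq] at hpq
      have a1 := mix_mix S p.1 p.2
      have a2 := mix_mix S p.2 p.1
      rw [hpq.1, hpq.2, mix_mix] at a1
      rw [hpq.1, hpq.2, mix_mix] at a2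
      exact Prod.ext a1.symm a2.symm
    · intro q hq
      rw [Finset.mem_product, hN2, Finset.mem_filter] at hq
      refine ⟨(mix S q.1 q.2, mix S q.2 q.1), ?_, ?_⟩
      · rw [Finset.mem_filter]
        refine ⟨Finset.mem_univ _, ?_⟩
        simp only [mix_mix]
        exact hq.1.2
      · simp only [mix_mix]
  have key3 : ∑ p ∈ L, (univ.filter (fun S : Finset H => 2 ≤ Nn D G (mix S p.1 p.2))).card ≤
      2 ^ Fintype.card H * (N2.card * Fintype.card (H → Λ)) := by
    calc ∑ p ∈ L, (univ.filter (fun S : Finset H => 2 ≤ Nn D G (mix S p.1 p.2))).card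
        ≤ ∑ p : (H → Λ) × (H → Λ),
          (univ.filter (fun S : Finset H => 2 ≤ Nn D G (mix S p.1 p.2))).card :=
          Finset.sum_le_sum_of_subset (Finset.subset_univ _)
      _ = ∑ S : Finset H, (univ.filter (fun p : (H → Λ) × (H → Λ) =>
          2 ≤ Nn D G (mix S p.1 p.2))).card := by
          simp only [Finset.card_filter]
          exact Finset.sum_comm
      _ = ∑ S : Finset H, N2.card * Fintype.card (H → Λ) := Finset.sum_congr rfl fun S _ => key2 S
      _ = _ := by
          rw [Finset.sum_const, smul_eq_mul, Finset.card_univ, Fintype.card_finset]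
  have key4 : 2 ^ Fintype.card H * L.card ≤
      2 ^ Fintype.card H * (16 * (Fintype.card (H → Λ) * N2.card)) := by
    calc 2 ^ Fintype.card H * L.card = ∑ p ∈ L, 2 ^ Fintype.card H := by
          rw [Finset.sum_const, smul_eq_mul, Nat.mul_comm]
      _ ≤ ∑ p ∈ L, 16 * (univ.filter (fun S : Finset H => 2 ≤ Nn D G (mix S p.1 p.2))).card :=
          Finset.sum_le_sum key1
      _ = 16 * ∑ p ∈ L, (univ.filter (fun S : Finset H => 2 ≤ Nn D G (mix S p.1 p.2))).card := by
          rw [Finset.mul_sum]
      _ ≤ 16 * (2 ^ Fintype.card H * (N2.card * Fintype.card (H → Λ))) :=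
          Nat.mul_le_mul_left _ key3
      _ = _ := by ring
  exact Nat.le_of_mul_le_mul_left key4 (by positivity)

end Pool.Agent.Ham
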