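import Pool.Agent.Lib.MP_716318_co.H.Spec5

/-!
# MP_716318_co, package H, part 5: a large in-degree
-/

set_option autoImplicit false

namespace Pool.Agent.Ham

open Finset
open scoped Classical

/-- Four elements of a set of size four are different. -/
private theorem d4 {V : Type} [DecidableEq V] {x y z w : V} (h : ({x, y, z, w} : Finset V).card = 4) :
    x ≠ y ∧ x ≠ z ∧ x ≠ w ∧ y ≠ z ∧ y ≠ w ∧ z ≠ w := by
  have h3 : ∀ p q r : V, ({p, q, r} : Finset V).card ≤ 3 := fun p q r => card_le_three
  refine ⟨?_, ?_, ?_, ?_, ?_, ?_⟩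
  · rintro rfl
    have := h3 x z w
    have e : ({x, x, z, w} : Finset V) = {x, z, w} := by ext u; simp
    rw [e] at h
    omega
  · rintro rfl
    have := h3 x y w
    have e : ({x, y, x, w} : Finset V) = {x, y, w} := by ext u; simp; tauto
    rw [e] at h
    omega
  · rintro rfl
    have := h3 x y z
    have e : ({x, y, z, x} : Finset V) = {x, y, z} := by ext u; simp; tauto
    rw [e] at h
    omega
  · rintro rfl
    have := h3 x y w
    have e : ({x, y, y, w} : Finset V) = {x, y, w} := by ext u; simp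
    rw [e] at h
    omega
  · rintro rfl
    have := h3 x y z
    have e : ({x, y, z, y} : Finset V) = {x, y, z} := by ext u; simp; tauto
    rw [e] at h
    omega
  · rintro rfl
    have := h3 x y z
    have e : ({x, y, z, z} : Finset V) = {x, y, z} := by ext u; simp
    rw [e] at h
    omega

/-- The ordered pairs which complete `v, w` to a member. -/
private noncomputable def O {V : Type} [Fintype V] [DecidableEq V] (F : Finset (Finset V)) (v w : V) :
    Finset (V × V) := univ.filter (fun p => ({v, w, p.1, p.2} : Finset V) ∈ F)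

private theorem cO {V : Type} [Fintype V] [DecidableEq V] {F : Finset (Finset V)} (hF : U4 F)
    (v w : V) : (O F v w).card ≤ 2 * dg F {v, w} := by
  unfold dg
  refine Finset.card_le_mul_card_image_of_maps_to
    (f := fun p : V × V => ({v, w, p.1, p.2} : Finset V)) ?_ 2 ?_
  · intro p hp
    refine Finset.mem_filter.2 ⟨(Finset.mem_filter.1 hp).2, ?_⟩
    intro u hu
    simp only [Finset.mem_insert, Finset.mem_singleton] at hu ⊢
    tauto
  · intro A hA
    obtain ⟨hAF, hvw⟩ := Finset.mem_filter.1 hA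
    have h4 := hF A hAF
    by_cases hne : ((O F v w).filter (fun p => ({v, w, p.1, p.2} : Finset V) = A)).Nonempty
    · obtain ⟨⟨r, s⟩, hrs⟩ := hne
      have e1 : ({v, w, r, s} : Finset V) = A := (Finset.mem_filter.1 hrs).2
      have hd := d4 (e1 ▸ h4)
      have hsub : (O F v w).filter (fun p => ({v, w, p.1, p.2} : Finset V) = A) ⊆
          {(r, s), (s, r)} := by
        rintro ⟨p, q⟩ hpq
        have e2 : ({v, w, p, q} : Finset V) = A := (Finset.mem_filter.1 hpq).2
        have hd2 := d4 (e2 ▸ h4)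
        have hp : p ∈ ({v, w, r, s} : Finset V) := by
          rw [e1, ← e2]
          simp
        have hq : q ∈ ({v, w, r, s} : Finset V) := by
          rw [e1, ← e2]
          simp
        simp only [Finset.mem_insert, Finset.mem_singleton] at hp hq
        simp only [Finset.mem_insert, Finset.mem_singleton, Prod.mk.injEq]
        rcases hp with hp | hp | hp | hp
        · exact absurd hp.symm hd2.2.1
        · exact absurd hp.symm hd2.2.2.2.1
        · rcases hq with hq | hq | hq | hq
          · exact absurd hq.symm hd2.2.2.1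
          · exact absurd hq.symm hd2.2.2.2.2.1
          · exact absurd (hp.trans hq.symm) hd2.2.2.2.2.2
          · exact Or.inl ⟨hp, hq⟩
        · rcases hq with hq | hq | hq | hq
          · exact absurd hq.symm hd2.2.2.1
          · exact absurd hq.symm hd2.2.2.2.2.1
          · exact Or.inr ⟨hp, hq⟩
          · exact absurd (hp.trans hq.symm) hd2.2.2.2.2.2
      exact (Finset.card_le_card hsub).trans Finset.card_le_two
    · rw [Finset.not_nonempty_iff_eq_empty] at hne
      rw [hne]
      simp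

/-- The pairs with an end point in `D`. -/
private theorem c1 {V : Type} [Fintype V] [DecidableEq V] {F : Finset (Finset V)} (hF : U4 F)
    (v w : V) (D : Finset V) :
    2 * ∑ a ∈ D, c3 F v a w ≤ 2 * dg F {v, w} + D.card ^ 2 := by
  have h1 : ((D ×ˢ univ).filter (fun p : V × V => ({v, w, p.1, p.2} : Finset V) ∈ F)).card =
      ∑ a ∈ D, c3 F v a w := by
    rw [Finset.card_filter, Finset.sum_product]
    refine Finset.sum_congr rfl fun a _ => ?_
    unfold c3
    rw [Finset.card_filter]
    refine Finset.sum_congr rfl fun t _ => ?_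
    have e : ({v, w, a, t} : Finset V) = {v, a, w, t} := by ext u; simp; tauto
    simp only [e]
  have h2 : ((univ ×ˢ D).filter (fun p : V × V => ({v, w, p.1, p.2} : Finset V) ∈ F)).card =
      ∑ a ∈ D, c3 F v a w := by
    rw [Finset.card_filter, Finset.sum_product_right]
    refine Finset.sum_congr rfl fun a _ => ?_
    unfold c3
    rw [Finset.card_filter]
    refine Finset.sum_congr rfl fun t _ => ?_
    have e : ({v, w, t, a} : Finset V) = {v, a, w, t} := by ext u; simp; tauto
    simp only [e]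
  have h3 := Finset.card_union_add_card_inter
    ((D ×ˢ univ).filter (fun p : V × V => ({v, w, p.1, p.2} : Finset V) ∈ F))
    ((univ ×ˢ D).filter (fun p : V × V => ({v, w, p.1, p.2} : Finset V) ∈ F))
  have h4 : (((D ×ˢ univ).filter (fun p : V × V => ({v, w, p.1, p.2} : Finset V) ∈ F)) ∪
      ((univ ×ˢ D).filter (fun p : V × V => ({v, w, p.1, p.2} : Finset V) ∈ F))).card ≤
      (O F v w).card := by
    refine Finset.card_le_card fun p hp => ?_
    rcases Finset.mem_union.1 hp with hp | hp
    · exact Finset.mem_filter.2 ⟨Finset.mem_univ _, (Finset.mem_filter.1 hp).2⟩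
    · exact Finset.mem_filter.2 ⟨Finset.mem_univ _, (Finset.mem_filter.1 hp).2⟩
  have h5 : (((D ×ˢ univ).filter (fun p : V × V => ({v, w, p.1, p.2} : Finset V) ∈ F)) ∩
      ((univ ×ˢ D).filter (fun p : V × V => ({v, w, p.1, p.2} : Finset V) ∈ F))).card ≤
      D.card ^ 2 := by
    have : D.card ^ 2 = (D ×ˢ D).card := by
      rw [Finset.card_product]
      ring
    rw [this]
    refine Finset.card_le_card fun p hp => ?_
    have ha := (Finset.mem_product.1 (Finset.mem_filter.1 (Finset.mem_inter.1 hp).1).1).1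
    have hb := (Finset.mem_product.1 (Finset.mem_filter.1 (Finset.mem_inter.1 hp).2).1).2
    exact Finset.mem_product.2 ⟨ha, hb⟩
  have h6 := cO hF v w
  omega

/-- The sum of the degrees at `v`. -/
private theorem c2 {V : Type} [Fintype V] [DecidableEq V] {F : Finset (Finset V)} (hF : U4 F)
    (v : V) (S : Finset V) (hS : v ∉ S) : ∑ a ∈ S, dg F {v, a} ≤ 3 * F.card := by
  have h1 : ∑ a ∈ S, dg F {v, a} = ∑ A ∈ F, (S.filter (fun a => ({v, a} : Finset V) ⊆ A)).card := by
    simp only [dg, Finset.card_filter]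
    exact Finset.sum_comm
  rw [h1]
  have h2 : ∀ A ∈ F, (S.filter (fun a => ({v, a} : Finset V) ⊆ A)).card ≤ 3 := by
    intro A hA
    by_cases hv : v ∈ A
    · have h3 : (S.filter (fun a => ({v, a} : Finset V) ⊆ A)) ⊆ A.erase v := by
        intro a ha
        obtain ⟨haS, haA⟩ := Finset.mem_filter.1 ha
        refine Finset.mem_erase.2 ⟨fun e => hS (e ▸ haS), haA (by simp)⟩
      refine (Finset.card_le_card h3).trans ?_
      rw [Finset.card_erase_of_mem hv, hF A hA]
    · have h3 : (S.filter (fun a => ({v, a} : Finset V) ⊆ A)) = ∅ := by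
        refine Finset.filter_eq_empty_iff.2 fun a _ h => hv (h (by simp))
      rw [h3]
      simp
  calc ∑ A ∈ F, (S.filter (fun a => ({v, a} : Finset V) ⊆ A)).card ≤ ∑ A ∈ F, 3 :=
        Finset.sum_le_sum h2
    _ = 3 * F.card := by
        rw [Finset.sum_const, smul_eq_mul, mul_comm]

/-- The final computation. -/
private theorem fin {n d G E T : ℝ} (hn : (10 : ℝ) ^ 9 ≤ n)
    (h1 : 2 * (d * ((1 - 1 / (10 : ℝ) ^ 8) * n)) ≤ 2 * G + d ^ 2)
    (h2 : n - 1 - 3 / 2 / (10 : ℝ) ^ 7 * n ≤ T)
    (h3 : ((1 - 1 / (10 : ℝ) ^ 8) * n - 2) * (T - d - 1) ≤ 2 * E)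
    (h4 : 2 * (G + E) ≤ n ^ 2) (h5 : n / 200 < d) (h6 : d ≤ n) :
    (1 / 2 - 1 / (10 : ℝ) ^ 7) * n ^ 2 ≤ G := by
  norm_num at hn h1 h2 h3 ⊢
  have hn0 : 0 < n := by linarith
  have e1 : 0 ≤ 99999999 / 100000000 * n - 2 := by linarith
  have e2 : (99999999 / 100000000 * n - 2) * (n - 2 - 3 / 20000000 * n - d) ≤ 2 * E :=
    (mul_le_mul_of_nonneg_left (by linarith) e1).trans h3
  have e3 : d * n ≤ n * n := mul_le_mul_of_nonneg_right h6 hn0.le
  have e4 : 1000000000 * n ≤ n * n := mul_le_mul_of_nonneg_right hn hn0.le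
  have e5 : d * (n - d) ≤ 2 / 10000000 * n ^ 2 := by
    nlinarith
  have e6 : n / 200 * (n - d) ≤ 2 / 10000000 * n ^ 2 :=
    (mul_le_mul_of_nonneg_right h5.le (by linarith)).trans e5
  have e7 : n - d ≤ 4 / 100000 * n := by
    by_contra hc
    push Not at hc
    have := mul_lt_mul_of_pos_left hc hn0
    nlinarith
  have e8 : (n - d) * (n - d) ≤ (4 / 100000 * n) * (4 / 100000 * n) :=
    mul_le_mul e7 e7 (by linarith) (by linarith)
  nlinarith

theorem tRa1 (hTwo : S_Two) : S_Ra1 := by
  refine ⟨10 ^ 9, ?_⟩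
  intro V _ _ F v w Tn y hF hn h2F hTn hy hD
  have hnR : (10 : ℝ) ^ 9 ≤ (Fintype.card V : ℝ) := by exact_mod_cast hn
  set n : ℝ := (Fintype.card V : ℝ) with hndef
  have hn0 : 0 < n := by
    have : (0 : ℝ) < (10 : ℝ) ^ 9 := by norm_num
    linarith
  set D : Finset V := Tn.filter (fun a => y a = w) with hDdef
  have hDpos : 0 < D.card := by
    have : (0 : ℝ) < D.card := lt_trans (by positivity) hD
    exact_mod_cast this
  have hvw : v ≠ w := by
    rintro rfl
    obtain ⟨a, ha⟩ := Finset.card_pos.1 hDpos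
    obtain ⟨haT, hya⟩ := Finset.mem_filter.1 ha
    have h1 := hy a haT
    rw [hya] at h1
    have h2 : c3 F v a v = 0 := by
      unfold c3
      rw [Finset.card_eq_zero, Finset.filter_eq_empty_iff]
      intro t _ ht
      exact (d4 (hF _ ht)).2.1 rfl
    rw [h2] at h1
    have h3 : (0 : ℝ) < (1 - 1 / (10 : ℝ) ^ 8) * n := mul_pos (by norm_num) hn0
    push_cast at h1
    linarith
  refine ⟨hvw, ?_⟩
  set F2 : Finset (Finset V) := F.filter (fun A => v ∈ A ∧ w ∉ A) with hF2
  set D' : Finset V := Tn.filter (fun a => y a ≠ w ∧ a ≠ w) with hD'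
  have hvT : v ∉ Tn := fun h => ((hTn v).1 h).1 rfl
  -- (1)
  have h1 : 2 * ((D.card : ℝ) * ((1 - 1 / (10 : ℝ) ^ 8) * n)) ≤
      2 * (dg F {v, w} : ℝ) + (D.card : ℝ) ^ 2 := by
    have e1 : (D.card : ℝ) * ((1 - 1 / (10 : ℝ) ^ 8) * n) ≤ ∑ a ∈ D, (c3 F v a w : ℝ) := by
      rw [← nsmul_eq_mul]
      refine Finset.card_nsmul_le_sum _ _ _ fun a ha => ?_
      obtain ⟨haT, hya⟩ := Finset.mem_filter.1 ha
      have := hy a haT
      rwa [hya] at this
    have e2 : 2 * ∑ a ∈ D, (c3 F v a w : ℝ) ≤ 2 * (dg F {v, w} : ℝ) + (D.card : ℝ) ^ 2 := by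
      exact_mod_cast c1 hF v w D
    linarith
  -- (2)
  have h2 : n - 1 - 3 / 2 / (10 : ℝ) ^ 7 * n ≤ (Tn.card : ℝ) := by
    set S : Finset V := (univ.erase v).filter (fun a => a ∉ Tn) with hS
    have e1 : Fintype.card V ≤ S.card + Tn.card + 1 := by
      have : (univ : Finset V) ⊆ insert v (S ∪ Tn) := by
        intro a _
        by_cases hav : a = v
        · simp [hav]
        · by_cases haT : a ∈ Tn
          · simp [haT]
          · refine Finset.mem_insert_of_mem (Finset.mem_union_left _ ?_)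
            exact Finset.mem_filter.2 ⟨Finset.mem_erase.2 ⟨hav, Finset.mem_univ _⟩, haT⟩
      have h := Finset.card_le_card this
      rw [Finset.card_univ] at h
      have h' := Finset.card_insert_le v (S ∪ Tn)
      have h'' := Finset.card_union_le S Tn
      omega
    have e2 : (S.card : ℝ) * ((10 : ℝ) ^ 7 * n) ≤ ∑ a ∈ S, (dg F {v, a} : ℝ) := by
      rw [← nsmul_eq_mul]
      refine Finset.card_nsmul_le_sum _ _ _ fun a ha => ?_
      obtain ⟨hav, haT⟩ := Finset.mem_filter.1 ha
      by_contra hc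
      push Not at hc
      exact haT ((hTn a).2 ⟨(Finset.mem_erase.1 hav).1, hc⟩)
    have e3 : ∑ a ∈ S, (dg F {v, a} : ℝ) ≤ 3 * (F.card : ℝ) := by
      exact_mod_cast c2 hF v S (fun h => (Finset.mem_erase.1 (Finset.mem_filter.1 h).1).1 rfl)
    have e4 : 2 * (F.card : ℝ) ≤ n ^ 2 := by
      rw [hndef]
      exact_mod_cast h2F
    have e5 : (Fintype.card V : ℝ) ≤ (S.card : ℝ) + Tn.card + 1 := by exact_mod_cast e1
    have e6 : (S.card : ℝ) ≤ 3 / 2 / (10 : ℝ) ^ 7 * n := by
      have e7 : (S.card : ℝ) * ((10 : ℝ) ^ 7 * n) ≤ 3 / 2 * n ^ 2 := by linarith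
      have e8 : (3 / 2 / (10 : ℝ) ^ 7 * n) * ((10 : ℝ) ^ 7 * n) = 3 / 2 * n ^ 2 := by ring
      rw [← e8] at e7
      exact le_of_mul_le_mul_right e7 (by positivity)
    linarith
  -- (3)
  have hθ : 0 < (1 - 1 / (10 : ℝ) ^ 8) * n - 1 := by
    have : (1 - 1 / (10 : ℝ) ^ 8) * (10 : ℝ) ^ 9 ≤ (1 - 1 / (10 : ℝ) ^ 8) * n :=
      mul_le_mul_of_nonneg_left hnR (by norm_num)
    norm_num at this ⊢
    linarith
  have h3 : ((1 - 1 / (10 : ℝ) ^ 8) * n - 2) * ((Tn.card : ℝ) - D.card - 1) ≤ 2 * (F2.card : ℝ) := by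
    have hU : U4 F2 := fun A hA => hF A (Finset.mem_filter.1 hA).1
    have e1 := hTwo V F2 v D' y ((1 - 1 / (10 : ℝ) ^ 8) * n - 1) hU hθ (by
      intro a ha
      obtain ⟨haT, hya, haw⟩ := Finset.mem_filter.1 ha
      have g1 := hy a haT
      have g2 : c3 F v a (y a) ≤ c3 F2 v a (y a) + 1 := by
        unfold c3
        have : (univ.filter (fun t => ({v, a, y a, t} : Finset V) ∈ F)) ⊆
            insert w (univ.filter (fun t => ({v, a, y a, t} : Finset V) ∈ F2)) := by
          intro t ht
          by_cases htw : t = w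
          · simp [htw]
          · refine Finset.mem_insert_of_mem (Finset.mem_filter.2 ⟨Finset.mem_univ _, ?_⟩)
            refine Finset.mem_filter.2 ⟨(Finset.mem_filter.1 ht).2, by simp, ?_⟩
            simp only [Finset.mem_insert, Finset.mem_singleton, not_or]
            exact ⟨hvw.symm, haw.symm, hya.symm, fun e => htw e.symm⟩
        exact (Finset.card_le_card this).trans (Finset.card_insert_le _ _)
      have g3 : (c3 F v a (y a) : ℝ) ≤ (c3 F2 v a (y a) : ℝ) + 1 := by exact_mod_cast g2
      linarith)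
    have e2 : Tn.card ≤ D'.card + D.card + 1 := by
      have : Tn ⊆ insert w (D' ∪ D) := by
        intro a ha
        by_cases haw : a = w
        · simp [haw]
        · refine Finset.mem_insert_of_mem ?_
          by_cases hya : y a = w
          · exact Finset.mem_union_right _ (Finset.mem_filter.2 ⟨ha, hya⟩)
          · exact Finset.mem_union_left _ (Finset.mem_filter.2 ⟨ha, hya, haw⟩)
      have h := Finset.card_le_card this
      have h' := Finset.card_insert_le w (D' ∪ D)
      have h'' := Finset.card_union_le D' D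
      omega
    have e3 : (Tn.card : ℝ) - D.card - 1 ≤ D'.card := by
      have : (Tn.card : ℝ) ≤ (D'.card : ℝ) + D.card + 1 := by exact_mod_cast e2
      linarith
    have e4 : (dg F2 {v} : ℝ) ≤ F2.card := by
      exact_mod_cast Finset.card_filter_le _ _
    have e5 : 0 ≤ (1 - 1 / (10 : ℝ) ^ 8) * n - 2 := by
      have : (1 - 1 / (10 : ℝ) ^ 8) * (10 : ℝ) ^ 9 ≤ (1 - 1 / (10 : ℝ) ^ 8) * n :=
        mul_le_mul_of_nonneg_left hnR (by norm_num)
      norm_num at this ⊢
      linarith
    have e6 := mul_le_mul_of_nonneg_left e3 e5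
    have e7 : ((1 - 1 / (10 : ℝ) ^ 8) * n - 2) * (D'.card : ℝ) =
        ((1 - 1 / (10 : ℝ) ^ 8) * n - 1 - 1) * (D'.card : ℝ) := by ring
    linarith
  -- (4)
  have h4 : 2 * ((dg F {v, w} : ℝ) + F2.card) ≤ n ^ 2 := by
    have e1 : dg F {v, w} + F2.card ≤ F.card := by
      unfold dg
      rw [← Finset.card_union_of_disjoint]
      · refine Finset.card_le_card fun A hA => ?_
        rcases Finset.mem_union.1 hA with hA | hA
        · exact (Finset.mem_filter.1 hA).1
        · exact (Finset.mem_filter.1 hA).1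
      · refine Finset.disjoint_left.2 fun A hA hB => ?_
        have hA' := (Finset.mem_filter.1 hA).2
        have hB' := (Finset.mem_filter.1 hB).2
        exact hB'.2 (hA' (by simp))
    have e2 : 2 * (dg F {v, w} + F2.card) ≤ (Fintype.card V) ^ 2 := by omega
    rw [hndef]
    exact_mod_cast e2
  have h6 : (D.card : ℝ) ≤ n := by
    rw [hndef]
    exact_mod_cast Finset.card_le_univ D
  exact fin hnR h1 h2 h3 h4 hD h6

end Pool.Agent.Ham
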