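import Pool.Agent.Lib.MP_716318_co.H.Spec3

set_option autoImplicit false

namespace Pool.Agent.Ham

open Finset
open scoped Classical

/-- The numerical core. -/
private theorem rb_real {ι : Type} [DecidableEq ι] (U : Finset ι) (a b : ι → ℝ) (α β s : ℝ)
    (ha : ∀ u ∈ U, 0 ≤ a u) (hb : ∀ u ∈ U, 0 ≤ b u) (hα : ∑ u ∈ U, a u ≤ α)
    (hβ : ∑ u ∈ U, b u ≤ β) (hs : 0 < s) (h1 : 10 * s < α) (h2 : 10 * s < β)
    (h : α * β - s ^ 2 ≤ ∑ u ∈ U, a u * b u) :
    ∃ u ∈ U, α - s / 10 ≤ a u ∧ β - s / 5 ≤ b u := by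
  have hα0 : 0 < α := by linarith
  have hβ0 : 0 < β := by linarith
  have hne : U.Nonempty := by
    by_contra hU
    rw [not_nonempty_iff_eq_empty.1 hU, sum_empty] at h
    nlinarith [mul_pos (sub_pos.2 h1) (sub_pos.2 h2)]
  obtain ⟨u0, hu0, hmax⟩ := exists_max_image U a hne
  have e1 : ∑ u ∈ U, a u * b u ≤ a u0 * β := by
    calc ∑ u ∈ U, a u * b u ≤ ∑ u ∈ U, a u0 * b u :=
          sum_le_sum fun u hu => mul_le_mul_of_nonneg_right (hmax u hu) (hb u hu)
      _ = a u0 * ∑ u ∈ U, b u := by rw [mul_sum]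
      _ ≤ a u0 * β := mul_le_mul_of_nonneg_left hβ (ha u0 hu0)
  have e2 : (α - a u0) * β ≤ s ^ 2 := by linarith
  have e3 : a u0 ≤ α := (single_le_sum ha hu0).trans hα
  have e4 : ∑ u ∈ U.erase u0, a u * b u ≤ s ^ 2 := by
    refine le_trans ?_ e2
    have e5 : ∀ u ∈ U.erase u0, a u ≤ α - a u0 := by
      intro u hu
      have h3 : a u + a u0 ≤ ∑ u ∈ U, a u := by
        rw [← sum_erase_add U a hu0]
        have h4 := single_le_sum (f := a) (fun i hi => ha i (mem_of_mem_erase hi)) hu
        linarith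
      linarith
    calc ∑ u ∈ U.erase u0, a u * b u ≤ ∑ u ∈ U.erase u0, (α - a u0) * b u :=
          sum_le_sum fun u hu => mul_le_mul_of_nonneg_right (e5 u hu)
            (hb u (mem_of_mem_erase hu))
      _ = (α - a u0) * ∑ u ∈ U.erase u0, b u := by rw [mul_sum]
      _ ≤ (α - a u0) * β := by
        refine mul_le_mul_of_nonneg_left ?_ (by linarith)
        refine le_trans ?_ hβ
        exact sum_le_sum_of_subset_of_nonneg (erase_subset _ _) fun u hu _ => hb u hu
  rw [← sum_erase_add U _ hu0] at h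
  have e6 : a u0 * b u0 ≤ α * b u0 := mul_le_mul_of_nonneg_right e3 (hb u0 hu0)
  refine ⟨u0, hu0, ?_, ?_⟩
  · by_contra hc
    push Not at hc
    have h5 : s / 10 < α - a u0 := by linarith
    nlinarith [mul_pos (sub_pos.2 h5) hβ0, mul_pos hs (sub_pos.2 h2)]
  · by_contra hc
    push Not at hc
    have h5 : s / 5 < β - b u0 := by linarith
    nlinarith [mul_pos (sub_pos.2 h5) hα0, mul_pos hs (sub_pos.2 h1)]

private theorem rb_mem {α : Type} {p : α → Prop} (d : DecidablePred p) {s : Finset α} {a : α}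
    (h : a ∈ @filter α p d s) : a ∈ s ∧ p a := mem_filter.1 h

/-- The intersecting pairs. -/
private theorem rb_pairs {H : Type} [Fintype H] [DecidableEq H] (μ : Finset H → ℝ) (v w : H)
    (hvw : v ≠ w) (z : ℝ) (h0 : ∀ e, 0 ≤ μ e) (hc : ∀ e, μ e ≠ 0 → e.card ≤ 2)
    (hz : (∑ e : Finset H, ∑ f : Finset H, if Disjoint e f then μ e * μ f else 0) ≤ z) :
    (∑ e ∈ univ.filter (fun e : Finset H => v ∈ e ∧ w ∉ e), μ e) *
      (∑ e ∈ univ.filter (fun e : Finset H => w ∈ e ∧ v ∉ e), μ e) - z ≤
    ∑ u ∈ univ.filter (fun u : H => u ≠ v ∧ u ≠ w), μ {v, u} * μ {w, u} := by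
  let P := (univ.filter (fun e : Finset H => v ∈ e ∧ w ∉ e)) ×ˢ
    (univ.filter (fun e : Finset H => w ∈ e ∧ v ∉ e))
  have hP : (∑ e ∈ univ.filter (fun e : Finset H => v ∈ e ∧ w ∉ e), μ e) *
      (∑ e ∈ univ.filter (fun e : Finset H => w ∈ e ∧ v ∉ e), μ e) =
      ∑ p ∈ P, μ p.1 * μ p.2 := by
    rw [sum_mul_sum, sum_product]
  rw [hP, ← sum_filter_add_sum_filter_not P (fun p => Disjoint p.1 p.2)]
  have h1 : ∑ p ∈ P.filter (fun p => Disjoint p.1 p.2), μ p.1 * μ p.2 ≤ z := by
    refine le_trans ?_ hz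
    rw [← sum_product', sum_filter]
    refine sum_le_sum_of_subset_of_nonneg (subset_univ _) fun p _ _ => ?_
    split_ifs
    · exact mul_nonneg (h0 _) (h0 _)
    · exact le_rfl
  have h2 : ∑ p ∈ P.filter (fun p => ¬ Disjoint p.1 p.2), μ p.1 * μ p.2 ≤
      ∑ u ∈ univ.filter (fun u : H => u ≠ v ∧ u ≠ w), μ {v, u} * μ {w, u} := by
    have h3 : ∑ u ∈ univ.filter (fun u : H => u ≠ v ∧ u ≠ w), μ {v, u} * μ {w, u} =
        ∑ p ∈ (univ.filter (fun u : H => u ≠ v ∧ u ≠ w)).image
          (fun u => (({v, u} : Finset H), ({w, u} : Finset H))), μ p.1 * μ p.2 := by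
      rw [sum_image]
      intro u hu u' hu' h
      have hu1 := (rb_mem _ (mem_coe.1 hu)).2
      have h5 : ({v, u} : Finset H) = {v, u'} := (Prod.ext_iff.1 h).1
      have h4 : u ∈ ({v, u'} : Finset H) := by
        rw [← h5]
        exact mem_insert_of_mem (mem_singleton_self u)
      rw [mem_insert, mem_singleton] at h4
      exact h4.resolve_left hu1.1
    rw [h3, ← sum_filter_ne_zero]
    refine sum_le_sum_of_subset_of_nonneg ?_ fun p _ _ => mul_nonneg (h0 _) (h0 _)
    intro p hp
    obtain ⟨hp, hne⟩ := rb_mem _ hp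
    obtain ⟨hp, hnd⟩ := rb_mem _ hp
    obtain ⟨hp1, hp2⟩ := mem_product.1 hp
    have ha := (rb_mem _ hp1).2
    have hb := (rb_mem _ hp2).2
    obtain ⟨u, hu1, hu2⟩ := not_disjoint_iff.1 hnd
    have huv : u ≠ v := fun h => hb.2 (h ▸ hu2)
    have huw : u ≠ w := fun h => ha.2 (h ▸ hu1)
    have c1 := hc _ (left_ne_zero_of_mul hne)
    have c2 := hc _ (right_ne_zero_of_mul hne)
    have e1 : ({v, u} : Finset H) = p.1 := by
      refine eq_of_subset_of_card_le ?_ ?_
      · intro x hx
        rw [mem_insert, mem_singleton] at hx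
        rcases hx with rfl | rfl
        · exact ha.1
        · exact hu1
      · rw [card_pair huv.symm]
        exact c1
    have e2 : ({w, u} : Finset H) = p.2 := by
      refine eq_of_subset_of_card_le ?_ ?_
      · intro x hx
        rw [mem_insert, mem_singleton] at hx
        rcases hx with rfl | rfl
        · exact hb.1
        · exact hu2
      · rw [card_pair huw.symm]
        exact c2
    rw [mem_image]
    exact ⟨u, mem_filter.2 ⟨mem_univ _, huv, huw⟩, Prod.ext e1 e2⟩
  linarith

/-- The pairs which contain `v` and not `w`. -/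
private theorem rb_sum {H : Type} [Fintype H] [DecidableEq H] (μ : Finset H → ℝ) (v w : H)
    (h0 : ∀ e, 0 ≤ μ e) :
    ∑ u ∈ univ.filter (fun u : H => u ≠ v ∧ u ≠ w), μ {v, u} ≤
      ∑ e ∈ univ.filter (fun e : Finset H => v ∈ e ∧ (v = w ∨ w ∉ e)), μ e := by
  have h3 : ∑ u ∈ univ.filter (fun u : H => u ≠ v ∧ u ≠ w), μ {v, u} =
      ∑ e ∈ (univ.filter (fun u : H => u ≠ v ∧ u ≠ w)).image (fun u => ({v, u} : Finset H)),
        μ e := by
    rw [sum_image]
    intro u hu u' hu' h
    have hu1 := (rb_mem _ (mem_coe.1 hu)).2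
    have h4 : u ∈ ({v, u'} : Finset H) := by
      change ({v, u} : Finset H) = {v, u'} at h
      rw [← h]
      exact mem_insert_of_mem (mem_singleton_self u)
    rw [mem_insert, mem_singleton] at h4
    exact h4.resolve_left hu1.1
  rw [h3]
  refine sum_le_sum_of_subset_of_nonneg ?_ fun e _ _ => h0 e
  intro e he
  obtain ⟨u, hu, rfl⟩ := mem_image.1 he
  have hu1 := (rb_mem _ hu).2
  refine mem_filter.2 ⟨mem_univ _, mem_insert_self _ _, ?_⟩
  by_cases hvw : v = w
  · exact Or.inl hvw
  · right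
    rw [mem_insert, mem_singleton]
    push Not
    exact ⟨fun h => hvw h.symm, fun h => hu1.2 h.symm⟩

theorem tRb : S_Rb := by
  intro ξ hξ
  obtain ⟨s, hs0, hs1, hs2⟩ : ∃ s : ℝ, 0 < s ∧ s ≤ 1 / 10 ∧ 11 * s ≤ ξ :=
    ⟨min (1 / 10) (ξ / 11), lt_min (by norm_num) (by linarith), min_le_left _ _, by
      have := min_le_right (1 / 10 : ℝ) (ξ / 11)
      linarith⟩
  refine ⟨s ^ 2, by positivity, ?_⟩
  intro H _ _ μ h0 hc hm1 hm2 hz
  have hss : s ^ 2 ≤ s / 10 := by nlinarith
  have hz' : (∑ e : Finset H, ∑ f : Finset H, if Disjoint e f then μ e * μ f else 0) ≤ s ^ 2 := by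
    refine le_trans (le_of_eq ?_) hz
    refine sum_congr rfl fun e _ => ?_
    rw [sum_filter]
  -- the set `e`
  obtain ⟨e, he1, he2⟩ : ∃ e, μ e ≠ 0 ∧ (∑ f : Finset H, if Disjoint e f then μ f else 0) ≤
      2 * s ^ 2 := by
    by_contra hcon
    push Not at hcon
    have h1 : 2 * s ^ 2 * ∑ e, μ e ≤
        ∑ e : Finset H, ∑ f : Finset H, if Disjoint e f then μ e * μ f else 0 := by
      rw [mul_sum]
      refine sum_le_sum fun e _ => ?_
      have h2 : (∑ f : Finset H, if Disjoint e f then μ e * μ f else 0) =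
          μ e * ∑ f : Finset H, if Disjoint e f then μ f else 0 := by
        rw [mul_sum]
        refine sum_congr rfl fun f _ => ?_
        rw [mul_ite, mul_zero]
      rw [h2]
      by_cases he : μ e = 0
      · rw [he, mul_zero, zero_mul]
      · rw [mul_comm]
        exact mul_le_mul_of_nonneg_left (hcon e he).le (h0 e)
    have h3 : 2 * s ^ 2 * (1 - s ^ 2) ≤ 2 * s ^ 2 * ∑ e, μ e :=
      mul_le_mul_of_nonneg_left hm1 (by positivity)
    have h4 : s ^ 2 ≤ 1 / 100 := by nlinarith
    have h5 : 0 < s ^ 2 := by positivity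
    nlinarith
  have hsplit : ∀ (p q : Finset H → Prop) (dp : DecidablePred p) (dq : DecidablePred q),
      (∀ f, ¬ p f → q f) →
      ∑ f, μ f ≤ (∑ f, if p f then μ f else 0) + ∑ f, if q f then μ f else 0 := by
    intro p q dp dq hpq
    rw [← sum_add_distrib]
    refine sum_le_sum fun f _ => ?_
    have h1 := h0 f
    by_cases hp : p f
    · rw [if_pos hp]
      split_ifs <;> linarith
    · rw [if_neg hp, if_pos (hpq f hp)]
      linarith
  have hcard := hc e he1
  rcases Nat.lt_or_ge e.card 2 with hlt | hge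
  · -- one element
    obtain ⟨v, rfl⟩ := card_eq_one.1 (by omega : e.card = 1)
    left
    refine ⟨v, ?_⟩
    have h1 := hsplit (fun f => Disjoint {v} f) (fun f => v ∈ f) (fun _ => inferInstance)
      (fun _ => inferInstance) fun f hf => by
        by_contra h
        exact hf (disjoint_singleton_left.2 h)
    rw [sum_filter]
    linarith
  · obtain ⟨v, w, hvw, rfl⟩ := card_eq_two.1 (by omega : e.card = 2)
    have hpair : ∀ f : Finset H, v ∈ f → w ∈ f → μ f ≠ 0 → f = {v, w} := by
      intro f h1 h2 h3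
      refine (eq_of_subset_of_card_le ?_ ?_).symm
      · intro x hx
        rw [mem_insert, mem_singleton] at hx
        rcases hx with rfl | rfl
        · exact h1
        · exact h2
      · rw [card_pair hvw]
        exact (hc f h3).2
    have hsum3 : ∑ f, μ f ≤ (∑ f, if Disjoint {v, w} f then μ f else 0) +
        ((∑ f ∈ univ.filter (fun e : Finset H => v ∈ e ∧ w ∉ e), μ f) +
        ((∑ f ∈ univ.filter (fun e : Finset H => w ∈ e ∧ v ∉ e), μ f) + μ {v, w})) := by
      have e1 : μ {v, w} = ∑ f, if f = {v, w} then μ f else 0 := by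
        rw [sum_ite_eq' univ ({v, w} : Finset H), if_pos (mem_univ _)]
      rw [e1, sum_filter, sum_filter, ← sum_add_distrib, ← sum_add_distrib, ← sum_add_distrib]
      refine sum_le_sum fun f _ => ?_
      have h1 := h0 f
      by_cases hd : Disjoint {v, w} f
      · rw [if_pos hd]
        split_ifs <;> linarith
      · rw [if_neg hd]
        by_cases hv : v ∈ f
        · by_cases hw : w ∈ f
          · by_cases hf : μ f = 0
            · rw [hf]
              split_ifs <;> simp
            · have h2 := hpair f hv hw hf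
              rw [if_pos h2]
              split_ifs <;> linarith
          · rw [if_pos (show v ∈ f ∧ w ∉ f from ⟨hv, hw⟩)]
            split_ifs <;> linarith
        · by_cases hw : w ∈ f
          · rw [if_pos (show w ∈ f ∧ v ∉ f from ⟨hw, hv⟩)]
            split_ifs <;> linarith
          · exfalso
            refine hd ?_
            rw [disjoint_insert_left, disjoint_singleton_left]
            exact ⟨hv, hw⟩
    have hA : ∀ x y : H, x ≠ y → (∑ f ∈ univ.filter (fun e : Finset H => x ∈ e ∧ y ∉ e), μ f) +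
        μ {x, y} ≤ ∑ e ∈ univ.filter (fun e : Finset H => x ∈ e), μ e := by
      intro x y hxy
      have e1 : μ {x, y} = ∑ f, if f = {x, y} then μ f else 0 := by
        rw [sum_ite_eq' univ ({x, y} : Finset H), if_pos (mem_univ _)]
      rw [e1, sum_filter, sum_filter, ← sum_add_distrib]
      refine sum_le_sum fun f _ => ?_
      have h1 := h0 f
      by_cases hf : f = {x, y}
      · have h2 : x ∈ f := by rw [hf]; exact mem_insert_self _ _
        have h3 : y ∈ f := by rw [hf]; exact mem_insert_of_mem (mem_singleton_self y)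
        rw [if_pos hf, if_pos h2, if_neg (fun h => h.2 h3)]
        linarith
      · rw [if_neg hf]
        by_cases hx : x ∈ f
        · rw [if_pos hx]
          split_ifs <;> linarith
        · rw [if_neg hx, if_neg (fun h => hx h.1)]
          linarith
    set α := ∑ f ∈ univ.filter (fun e : Finset H => v ∈ e ∧ w ∉ e), μ f with hα
    set β := ∑ f ∈ univ.filter (fun e : Finset H => w ∈ e ∧ v ∉ e), μ f with hβ
    by_cases hβs : β ≤ 10 * s
    · left
      exact ⟨v, by have := hA v w hvw; linarith⟩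
    by_cases hαs : α ≤ 10 * s
    · left
      refine ⟨w, ?_⟩
      have h1 := hA w v hvw.symm
      rw [pair_comm w v] at h1
      linarith
    right
    push Not at hβs hαs
    have hp := rb_pairs μ v w hvw (s ^ 2) h0 (fun e he => (hc e he).2) hz'
    have hsa := rb_sum μ v w h0
    have hsb := rb_sum μ w v h0
    simp only [hvw, hvw.symm, false_or] at hsa hsb
    have hcomm : (univ.filter (fun u : H => u ≠ w ∧ u ≠ v)) =
        univ.filter (fun u : H => u ≠ v ∧ u ≠ w) := by
      ext u
      simp only [mem_filter, mem_univ, true_and]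
      tauto
    rw [hcomm] at hsb
    obtain ⟨u, hu, hu1, hu2⟩ := rb_real (univ.filter (fun u : H => u ≠ v ∧ u ≠ w))
      (fun u => μ {v, u}) (fun u => μ {w, u}) α β s (fun u _ => h0 _) (fun u _ => h0 _) hsa hsb
      hs0 hαs hβs hp
    have hu3 := (rb_mem _ hu).2
    refine ⟨u, v, w, hu3.1, hvw, hu3.2, ?_⟩
    rw [pair_comm u v, pair_comm u w]
    linarith

end Pool.Agent.Ham
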