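import Pool.Agent.Lib.MP_716318_co.H.Spec5

/-!
# MP_716318_co, package H: all in-degrees of the partner map are small
-/

set_option autoImplicit false

namespace Pool.Agent.Ham

open Finset
open scoped Classical

private theorem c3_G {V : Type} [Fintype V] [DecidableEq V] (F : Finset (Finset V)) (v a b : V) :
    c3 (F.filter (fun A => v ∈ A)) v a b = c3 F v a b := by
  unfold c3
  congr 1
  ext t
  simp [Finset.mem_filter]

private theorem dg_G {V : Type} [DecidableEq V] (F : Finset (Finset V)) (v a : V) :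
    dg (F.filter (fun A => v ∈ A)) {a} = dg F {v, a} := by
  unfold dg
  rw [Finset.filter_filter]
  congr 1
  ext A
  simp [Finset.mem_filter, Finset.insert_subset_iff]

private theorem nmem {V : Type} [DecidableEq V] {F : Finset (Finset V)} (hU : U4 F)
    {x b z t : V} (h : ({x, b, z, t} : Finset V) ∈ F) : t ∉ ({x, b, z} : Finset V) := by
  intro ht
  have h1 : ({x, b, z, t} : Finset V) = {x, b, z} := by
    ext s
    simp only [Finset.mem_insert, Finset.mem_singleton] at ht ⊢
    constructor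
    · rintro (h2 | h2 | h2 | h2)
      · exact Or.inl h2
      · exact Or.inr (Or.inl h2)
      · exact Or.inr (Or.inr h2)
      · rw [h2]; exact ht
    · rintro (h2 | h2 | h2)
      · exact Or.inl h2
      · exact Or.inr (Or.inl h2)
      · exact Or.inr (Or.inr (Or.inl h2))
  have h2 := hU _ h
  rw [h1] at h2
  have h3 : ({x, b, z} : Finset V).card ≤ 3 := Finset.card_le_three
  omega

private theorem c3_le_dg {V : Type} [Fintype V] [DecidableEq V] {F : Finset (Finset V)}
    (hU : U4 F) (x b z : V) : c3 F x b z ≤ dg F {x, b} := by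
  unfold c3 dg
  refine Finset.card_le_card_of_injOn (fun t => ({x, b, z, t} : Finset V)) ?_ ?_
  · intro t ht
    have ht' := (Finset.mem_filter.1 (Finset.mem_coe.1 ht)).2
    refine Finset.mem_coe.2 (Finset.mem_filter.2 ⟨ht', ?_⟩)
    intro s hs
    simp only [Finset.mem_insert, Finset.mem_singleton] at hs ⊢
    rcases hs with hs | hs
    · exact Or.inl hs
    · exact Or.inr (Or.inl hs)
  · intro t ht t' ht' heq
    have h1 := (Finset.mem_filter.1 (Finset.mem_coe.1 ht)).2
    have h3 := nmem hU h1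
    have heq' : ({x, b, z, t} : Finset V) = {x, b, z, t'} := heq
    have h4 : t ∈ ({x, b, z, t'} : Finset V) := by
      rw [← heq']
      simp
    simp only [Finset.mem_insert, Finset.mem_singleton] at h3 h4
    rcases h4 with h4 | h4 | h4 | h4
    · exact absurd (Or.inl h4) h3
    · exact absurd (Or.inr (Or.inl h4)) h3
    · exact absurd (Or.inr (Or.inr h4)) h3
    · exact h4

private theorem c3_X {V : Type} [Fintype V] [DecidableEq V] {F : Finset (Finset V)}
    (hU : U4 F) (v a b : V) (h1 : a ≠ v) (h2 : b ≠ v) (h3 : b ≠ a) :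
    c3 F v a b + (univ.filter (fun x => x ∉ ({v, a, b} : Finset V) ∧
      ({v, a, b, x} : Finset V) ∉ F)).card + 3 = Fintype.card V := by
  have h4 : ({v, a, b} : Finset V).card = 3 :=
    Finset.card_eq_three.2 ⟨v, a, b, h1.symm, h2.symm, h3.symm, rfl⟩
  have h5 : (univ.filter (fun x => ({v, a, b, x} : Finset V) ∈ F)) ∪
      (univ.filter (fun x => x ∉ ({v, a, b} : Finset V) ∧ ({v, a, b, x} : Finset V) ∉ F)) =
      univ \ ({v, a, b} : Finset V) := by
    ext x
    rw [Finset.mem_union, Finset.mem_filter, Finset.mem_filter, Finset.mem_sdiff]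
    constructor
    · rintro (⟨_, hx⟩ | ⟨_, hx, _⟩)
      · exact ⟨Finset.mem_univ _, nmem hU hx⟩
      · exact ⟨Finset.mem_univ _, hx⟩
    · rintro ⟨_, hx⟩
      by_cases h6 : ({v, a, b, x} : Finset V) ∈ F
      · exact Or.inl ⟨Finset.mem_univ _, h6⟩
      · exact Or.inr ⟨Finset.mem_univ _, hx, h6⟩
  have h6 : Disjoint (univ.filter (fun x => ({v, a, b, x} : Finset V) ∈ F))
      (univ.filter (fun x => x ∉ ({v, a, b} : Finset V) ∧ ({v, a, b, x} : Finset V) ∉ F)) := by
    rw [Finset.disjoint_left]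
    intro x hx hx'
    exact (Finset.mem_filter.1 hx').2.2 (Finset.mem_filter.1 hx).2
  have h7 := Finset.card_union_of_disjoint h6
  rw [h5, Finset.card_sdiff_of_subset (Finset.subset_univ _), h4, Finset.card_univ] at h7
  have h8 : ({v, a, b} : Finset V).card ≤ Fintype.card V := Finset.card_le_univ _
  unfold c3
  omega

private theorem pairs {V : Type} [DecidableEq V] (F : Finset (Finset V)) (hU : U4 F)
    (Q : Finset (V × V)) (hQ : ∀ q ∈ Q, q.1 ≠ q.2) :
    ∑ q ∈ Q, dg F {q.1, q.2} ≤ 12 * F.card := by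
  have h1 : ∀ q ∈ Q, dg F {q.1, q.2} =
      ∑ A ∈ F, if ({q.1, q.2} : Finset V) ⊆ A then 1 else 0 := by
    intro q _
    unfold dg
    rw [Finset.card_filter]
  rw [Finset.sum_congr rfl h1, Finset.sum_comm]
  have h2 : ∀ A ∈ F, (∑ q ∈ Q, if ({q.1, q.2} : Finset V) ⊆ A then 1 else 0) ≤ 12 := by
    intro A hA
    rw [← Finset.card_filter]
    have h3 : Q.filter (fun q => ({q.1, q.2} : Finset V) ⊆ A) ⊆ A.offDiag := by
      intro q hq
      obtain ⟨hq1, hq2⟩ := Finset.mem_filter.1 hq
      rw [Finset.mem_offDiag]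
      refine ⟨hq2 ?_, hq2 ?_, hQ q hq1⟩ <;> simp
    refine (Finset.card_le_card h3).trans ?_
    rw [Finset.offDiag_card, hU A hA]
  refine (Finset.sum_le_sum h2).trans ?_
  rw [Finset.sum_const, smul_eq_mul]
  omega

private theorem split {V : Type} [DecidableEq V] (F : Finset (Finset V)) (v : V) :
    (F.filter (fun A => v ∈ A)).card + (off F {v}).card = F.card := by
  have h1 : off F {v} = F.filter (fun A => ¬ v ∈ A) := by
    unfold off
    ext A
    simp [Finset.mem_filter]
  rw [h1]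
  exact Finset.card_filter_add_card_filter_not (s := F) (fun A => v ∈ A)

private theorem final (n p s o g f : ℝ) (hn : 1000 ≤ n) (hp : p ≤ n - 1) (hp0 : 0 ≤ p)
    (hs : s ≤ o) (h : ((n - 3) * p - s) / 2 + 52 / 100 * n * (n - 1 - p) ≤ g)
    (hf : g + o = f) (ho : 0 ≤ o) : (n - 2) * (n - 3) / 2 ≤ f := by
  nlinarith [mul_nonneg (sub_nonneg.2 hp) (by linarith : (0 : ℝ) ≤ n)]

theorem tRb2 : S_Cb → S_Wl → S_Rb2 := by
  intro hCb hWl
  obtain ⟨ξ, hξ, n0, hC⟩ := hCb
  refine ⟨ξ, hξ, max n0 1000, ?_⟩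
  intro V _ _ F v Tn y hU hn hA hoff hTn hc hind
  have hn0 : n0 ≤ Fintype.card V := (le_max_left _ _).trans hn
  have hn1 : 1000 ≤ Fintype.card V := (le_max_right _ _).trans hn
  have hn1' : (1000 : ℝ) ≤ (Fintype.card V : ℝ) := by exact_mod_cast hn1
  set G := F.filter (fun A => v ∈ A) with hG
  set Ta := univ.filter (fun a => a ≠ v ∧ a ∉ Tn) with hTa
  have hUG : U4 G := fun A hA => hU A (Finset.mem_filter.1 hA).1
  have hvT : v ∉ Tn := fun h => ((hTn v).1 h).1 rfl
  have hvTa : v ∉ Ta := fun h => (Finset.mem_filter.1 h).2.1 rfl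
  have hcard : Tn.card + Ta.card = Fintype.card V - 1 := by
    have h1 : Tn ∪ Ta = univ.erase v := by
      ext a
      rw [Finset.mem_union, hTa, Finset.mem_filter, Finset.mem_erase]
      constructor
      · rintro (h | ⟨_, h, _⟩)
        · exact ⟨((hTn a).1 h).1, Finset.mem_univ _⟩
        · exact ⟨h, Finset.mem_univ _⟩
      · rintro ⟨h, _⟩
        by_cases h2 : a ∈ Tn
        · exact Or.inl h2
        · exact Or.inr ⟨Finset.mem_univ _, h, h2⟩
    have h2 : Disjoint Tn Ta := by
      rw [Finset.disjoint_left]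
      intro a ha ha'
      exact (Finset.mem_filter.1 ha').2.2 ha
    rw [← Finset.card_union_of_disjoint h2, h1, Finset.card_erase_of_mem (Finset.mem_univ v),
      Finset.card_univ]
  have hW : Wh G v Tn Ta ∅ y (Fintype.card V : ℝ) := by
    refine ⟨hUG, fun A hA => (Finset.mem_filter.1 hA).2, hn1',
      ⟨hvT, hvTa, Finset.notMem_empty v⟩, ?_, hind, ?_, ?_, ?_, ?_⟩
    · intro a ha
      rw [hG, c3_G]
      refine le_trans ?_ (hc a ha)
      have : (0 : ℝ) ≤ (Fintype.card V : ℝ) := by linarith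
      nlinarith
    · exact_mod_cast Finset.card_le_univ Tn
    · refine ⟨?_, Finset.disjoint_empty_right _, Finset.disjoint_empty_right _⟩
      rw [Finset.disjoint_left]
      intro a ha ha'
      exact (Finset.mem_filter.1 ha').2.2 ha
    · intro a ha
      obtain ⟨_, h1, h2⟩ := Finset.mem_filter.1 ha
      rw [hG, dg_G]
      have h3 : ¬ ((dg F {v, a} : ℝ) < (10 : ℝ) ^ 7 * Fintype.card V) :=
        fun h => h2 ((hTn a).2 ⟨h1, h⟩)
      rw [not_lt] at h3
      refine le_trans ?_ h3
      have : (0 : ℝ) ≤ (Fintype.card V : ℝ) := by linarith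
      nlinarith
    · intro a ha
      exact absurd ha (Finset.notMem_empty a)
  have hl := hWl V G v Tn Ta ∅ y (Fintype.card V : ℝ) hW
  set P := Tn.filter (fun a => Pf G v Tn y (Fintype.card V : ℝ) a) with hP
  have hPI : P.card + (Tn.filter (fun a => ¬ Pf G v Tn y (Fintype.card V : ℝ) a)).card =
      Tn.card := Finset.card_filter_add_card_filter_not (s := Tn) _
  -- the missing sets
  let X : V → Finset V := fun a => univ.filter (fun x => x ∉ ({v, a, y a} : Finset V) ∧
    ({v, a, y a, x} : Finset V) ∉ F)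
  have hPf : ∀ a ∈ P, a ∈ Tn ∧ y a ∈ Tn ∧ y (y a) = a ∧ y a ≠ a ∧
      ∀ b, b ≠ y a → 2 * (c3 F v a b : ℝ) < Fintype.card V := by
    intro a ha
    obtain ⟨ha1, ha2, ha3, ha4, ha5, ha6⟩ := Finset.mem_filter.1 ha
    refine ⟨ha1, ha3, ha4, ?_, ?_⟩
    · intro hya
      have h1 := hc a ha1
      rw [hya] at h1
      have h2 : c3 F v a a = 0 := by
        unfold c3
        rw [Finset.card_eq_zero, Finset.filter_eq_empty_iff]
        intro t _ ht
        have h3 := hU _ ht
        have h4 : ({v, a, a, t} : Finset V) = {v, a, t} := by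
          ext s
          simp
        rw [h4] at h3
        have h5 : ({v, a, t} : Finset V).card ≤ 3 := Finset.card_le_three
        omega
      rw [h2, Nat.cast_zero] at h1
      nlinarith
    · intro b hb
      have h1 := ha5 b hb
      rw [hG, c3_G] at h1
      exact h1
  have hcX : ∀ a ∈ P, (c3 G v a (y a) : ℝ) = (Fintype.card V : ℝ) - 3 - (X a).card := by
    intro a ha
    obtain ⟨ha1, ha2, ha3, ha4, ha5⟩ := hPf a ha
    have h1 := c3_X hU v a (y a) ((hTn a).1 ha1).1 ((hTn _).1 ha2).1 ha4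
    have h2 : ((c3 F v a (y a) + (X a).card + 3 : ℕ) : ℝ) = (Fintype.card V : ℝ) := by
      exact_mod_cast h1
    rw [hG, c3_G]
    push_cast at h2
    linarith
  have hXd : ∀ a ∈ P, ∀ x ∈ X a, x ≠ y a ∧
      (Fintype.card V : ℝ) / 3 ≤ dg (off F {v}) {x, y a} := by
    intro a ha x hx
    obtain ⟨ha1, ha2, ha3, ha4, ha5⟩ := hPf a ha
    obtain ⟨_, hx1, hx2⟩ := Finset.mem_filter.1 hx
    simp only [Finset.mem_insert, Finset.mem_singleton, not_or] at hx1
    obtain ⟨hx3, hx4, hx5⟩ := hx1
    refine ⟨hx5, ?_⟩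
    have hnd : [v, a, x, y a].Nodup := by
      have h1 := ((hTn a).1 ha1).1
      have h2 := ((hTn _).1 ha2).1
      simp only [List.nodup_cons, List.mem_cons, List.not_mem_nil, or_false, not_or,
        not_false_eq_true, List.nodup_nil, and_true]
      exact ⟨⟨h1.symm, fun h => hx3 h.symm, h2.symm⟩, ⟨fun h => hx4 h.symm, ha4.symm⟩, hx5⟩
    have hset : ({v, a, x, y a} : Finset V) ∉ F := by
      intro h
      apply hx2
      have h1 : ({v, a, y a, x} : Finset V) = {v, a, x, y a} := by
        ext s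
        simp only [Finset.mem_insert, Finset.mem_singleton]
        tauto
      rw [h1]
      exact h
    have hoU : U4 (off F {v}) := fun A hA => hU A (Finset.mem_filter.1 hA).1
    rcases hC V F v a x (y a) hU hn0 hnd hset hA hoff with h | h | ⟨z, hz, h⟩
    · exact absurd ((hTn a).1 ha1).2 (not_lt.2 h)
    · refine le_trans ?_ h
      nlinarith
    · have h1 := ha5 z hz
      have h2 : (c3 (off F {v}) x (y a) z : ℝ) ≤ dg (off F {v}) {x, y a} := by
        exact_mod_cast c3_le_dg hoU x (y a) z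
      nlinarith
  -- counting
  have hsum : (∑ a ∈ P, ((X a).card : ℝ)) ≤ (off F {v}).card := by
    let Q : Finset (V × V) := univ.filter (fun q => q.1 ≠ q.2 ∧
      (Fintype.card V : ℝ) / 3 ≤ dg (off F {v}) {q.1, q.2})
    have h1 : ∑ a ∈ P, (X a).card ≤ Q.card := by
      rw [← Finset.card_sigma]
      refine Finset.card_le_card_of_injOn (fun q => (q.2, y q.1)) ?_ ?_
      · intro q hq
        obtain ⟨hq1, hq2⟩ := Finset.mem_sigma.1 (Finset.mem_coe.1 hq)
        obtain ⟨h2, h3⟩ := hXd q.1 hq1 q.2 hq2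
        exact Finset.mem_coe.2 (Finset.mem_filter.2 ⟨Finset.mem_univ _, h2, h3⟩)
      · rintro ⟨a, x⟩ hq ⟨a', x'⟩ hq' heq
        obtain ⟨hq1, _⟩ := Finset.mem_sigma.1 (Finset.mem_coe.1 hq)
        obtain ⟨hq1', _⟩ := Finset.mem_sigma.1 (Finset.mem_coe.1 hq')
        have e1 : x = x' := congrArg Prod.fst heq
        have e2 : y a = y a' := congrArg Prod.snd heq
        have e3 : a = a' := by
          rw [← (hPf a hq1).2.2.1, e2]
          exact (hPf a' hq1').2.2.1
        subst e1
        subst e3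
        rfl
    have h2 := pairs (off F {v}) (fun A hA => hU A (Finset.mem_filter.1 hA).1) Q
      (fun q hq => (Finset.mem_filter.1 hq).2.1)
    have h3 : (Q.card : ℝ) * ((Fintype.card V : ℝ) / 3) ≤
        ∑ q ∈ Q, (dg (off F {v}) {q.1, q.2} : ℝ) := by
      rw [← nsmul_eq_mul]
      exact Finset.card_nsmul_le_sum _ _ _ (fun q hq => (Finset.mem_filter.1 hq).2.2)
    have h4 : (∑ q ∈ Q, (dg (off F {v}) {q.1, q.2} : ℝ)) ≤ 12 * (off F {v}).card := by
      exact_mod_cast h2
    have h5 : (∑ a ∈ P, ((X a).card : ℝ)) ≤ Q.card := by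
      exact_mod_cast h1
    have h6 : (0 : ℝ) ≤ (Q.card : ℝ) := Nat.cast_nonneg _
    nlinarith
  have hPc : ∑ a ∈ P, (c3 G v a (y a) : ℝ) =
      ((Fintype.card V : ℝ) - 3) * P.card - ∑ a ∈ P, ((X a).card : ℝ) := by
    rw [Finset.sum_congr rfl hcX, Finset.sum_sub_distrib, Finset.sum_const, nsmul_eq_mul]
    ring
  rw [hPc, Finset.card_empty, Nat.cast_zero, mul_zero, add_zero] at hl
  have hcard' : ((Tn.filter (fun a => ¬ Pf G v Tn y (Fintype.card V : ℝ) a)).card : ℝ) +
      Ta.card = (Fintype.card V : ℝ) - 1 - P.card := by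
    have h1 : (P.card + (Tn.filter (fun a => ¬ Pf G v Tn y (Fintype.card V : ℝ) a)).card) +
        Ta.card + 1 = Fintype.card V := by
      rw [hPI]
      omega
    have h2 : (((P.card + (Tn.filter (fun a => ¬ Pf G v Tn y
        (Fintype.card V : ℝ) a)).card) + Ta.card + 1 : ℕ) : ℝ) = (Fintype.card V : ℝ) := by
      exact_mod_cast h1
    push_cast at h2
    linarith
  rw [hcard'] at hl
  have hu : (0 : ℝ) ≤ ((G.filter (fun A => Cl Tn y A = ∅)).card : ℝ) / 2 := by positivity
  have hsp : (G.card : ℝ) + (off F {v}).card = F.card := by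
    exact_mod_cast split F v
  have hPn : (P.card : ℝ) ≤ (Fintype.card V : ℝ) - 1 := by
    have h1 : P.card + 1 ≤ Fintype.card V := by omega
    have h2 : ((P.card + 1 : ℕ) : ℝ) ≤ (Fintype.card V : ℝ) := by exact_mod_cast h1
    push_cast at h2
    linarith
  have hfin := final (Fintype.card V : ℝ) P.card (∑ a ∈ P, ((X a).card : ℝ))
    (off F {v}).card G.card F.card hn1' hPn (Nat.cast_nonneg _) hsum (by linarith) hsp
    (Nat.cast_nonneg _)
  have hch : (((Fintype.card V - 2).choose 2 : ℕ) : ℝ) =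
      ((Fintype.card V : ℝ) - 2) * ((Fintype.card V : ℝ) - 3) / 2 := by
    rw [Nat.cast_choose_two, Nat.cast_sub (by omega)]
    push_cast
    ring
  have : (((Fintype.card V - 2).choose 2 : ℕ) : ℝ) ≤ (F.card : ℝ) := by
    rw [hch]
    exact hfin
  exact_mod_cast this

end Pool.Agent.Ham
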