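import Pool.Agent.Lib.MP_716318_co.H.Spec3

set_option autoImplicit false

namespace Pool.Agent.Ham

open Finset
open scoped Classical

private theorem rc_quad {X l c : ℝ} (h : X * (l - X) ≤ c / 2 * l ^ 2) (hc0 : 0 ≤ c)
    (hc : c ≤ 1 / 2) : X ≤ c * l ∨ (1 - c) * l ≤ X := by
  by_contra hcon
  push Not at hcon
  have h1 := mul_pos (sub_pos.2 hcon.1) (sub_pos.2 hcon.2)
  have h2 : 0 ≤ c * l ^ 2 * (1 / 2 - c) :=
    mul_nonneg (mul_nonneg hc0 (sq_nonneg l)) (by linarith)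
  nlinarith

/-- The alternative for a typical `x`. -/
private theorem rc_one {Λ : Type} [Fintype Λ] (p q : Λ → ℝ) (r b : Λ → Λ → ℝ) (κ : ℝ)
    (hκ0 : 0 ≤ κ) (hκ : κ ≤ 1 / 24) (hp : ∀ y, p y = 0 ∨ p y = 1) (hr : ∀ y t, r y t = r t y)
    (h1 : ∀ y t, 1 - p y - b y t - q t ≤ r y t)
    (h2 : ∀ y t, |r y t - (1 - p y)| ≤ b y t + q t)
    (hB : ∑ y, ∑ t, b y t ≤ κ ^ 2 * (Fintype.card Λ : ℝ) ^ 2)
    (hq : ∑ t, q t ≤ κ * Fintype.card Λ) :
    (1 - 4 * κ) * Fintype.card Λ ≤ ∑ y, p y ∨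
      (1 - 6 * κ) * (Fintype.card Λ : ℝ) ^ 2 ≤ ∑ y, ∑ t, r y t := by
  set l : ℝ := (Fintype.card Λ : ℝ) with hl
  have hl0 : 0 ≤ l := Nat.cast_nonneg _
  have hcst : ∀ c : ℝ, ∑ _y : Λ, c = l * c := by
    intro c
    rw [sum_const, nsmul_eq_mul, card_univ]
  set X := ∑ y, p y with hX
  set B := ∑ y, ∑ t, b y t with hBd
  set Q := ∑ t, q t with hQ
  have hA : ∑ y, ∑ t, |p y - p t| = 2 * (X * (l - X)) := by
    have e1 : ∀ y t, |p y - p t| = p y + p t - 2 * (p y * p t) := by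
      intro y t
      rcases hp y with h | h <;> rcases hp t with h' | h' <;> rw [h, h'] <;> norm_num
    have e2 : ∑ y, ∑ t, |p y - p t| = ∑ y, (l * p y + X - 2 * (p y * X)) := by
      refine sum_congr rfl fun y _ => ?_
      rw [sum_congr rfl fun t _ => e1 y t, sum_sub_distrib, sum_add_distrib, hcst, ← mul_sum,
        ← mul_sum]
    rw [e2, sum_sub_distrib, sum_add_distrib, hcst, ← mul_sum, ← mul_sum, ← sum_mul]
    ring
  have hle : ∑ y, ∑ t, |p y - p t| ≤ 2 * B + 2 * (l * Q) := by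
    have e1 : ∀ y t, |p y - p t| ≤ (b y t + q t) + (b t y + q y) := by
      intro y t
      have a1 := abs_le.1 (h2 y t)
      have a2 := abs_le.1 (h2 t y)
      rw [hr t y] at a2
      rw [abs_le]
      constructor <;> linarith [a1.1, a1.2, a2.1, a2.2]
    calc ∑ y, ∑ t, |p y - p t| ≤ ∑ y, ∑ t, ((b y t + q t) + (b t y + q y)) :=
          sum_le_sum fun y _ => sum_le_sum fun t _ => e1 y t
      _ = ∑ y, ((∑ t, b y t + Q) + (∑ t, b t y + l * q y)) := by
        refine sum_congr rfl fun y _ => ?_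
        rw [sum_add_distrib, sum_add_distrib, sum_add_distrib, hcst]
      _ = (B + l * Q) + (B + l * Q) := by
        rw [sum_add_distrib, sum_add_distrib, sum_add_distrib, hcst, ← mul_sum,
          sum_comm (f := fun y t => b t y)]
      _ = 2 * B + 2 * (l * Q) := by ring
  have hlQ : l * Q ≤ κ * l ^ 2 := by
    have := mul_le_mul_of_nonneg_left hq hl0
    nlinarith
  have hκκ : κ ^ 2 * l ^ 2 ≤ κ * l ^ 2 := by
    have : κ ^ 2 ≤ κ := by nlinarith
    exact mul_le_mul_of_nonneg_right this (sq_nonneg l)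
  have hX2 : X * (l - X) ≤ 4 * κ / 2 * l ^ 2 := by
    rw [hA] at hle
    linarith
  rcases rc_quad hX2 (by linarith) (by linarith) with h | h
  · right
    have e1 : ∑ y, ∑ t, (1 - p y - b y t - q t) ≤ ∑ y, ∑ t, r y t :=
      sum_le_sum fun y _ => sum_le_sum fun t _ => h1 y t
    have e2 : ∑ y, ∑ t, (1 - p y - b y t - q t) = l ^ 2 - l * X - B - l * Q := by
      have e3 : ∀ y, ∑ t, (1 - p y - b y t - q t) = l - l * p y - ∑ t, b y t - Q := by
        intro y
        rw [sum_sub_distrib, sum_sub_distrib, hcst]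
        ring
      rw [sum_congr rfl fun y _ => e3 y, sum_sub_distrib, sum_sub_distrib, sum_sub_distrib, hcst,
        hcst, ← mul_sum]
      ring
    rw [e2] at e1
    have e4 : l * X ≤ 4 * κ * l ^ 2 := by
      have := mul_le_mul_of_nonneg_left h hl0
      nlinarith
    linarith
  · left
    exact h

private theorem rc_count {Λ : Type} [Fintype Λ] (R : Λ → Λ → Prop) :
    ((univ.filter (fun p : Λ × Λ => R p.1 p.2)).card : ℝ) =
      ∑ x, ∑ y, if R x y then (1 : ℝ) else 0 := by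
  rw [card_filter, Nat.cast_sum, Fintype.sum_prod_type]
  refine sum_congr rfl fun x _ => sum_congr rfl fun y _ => ?_
  split_ifs <;> simp

/-- The main argument, for densities. -/
private theorem rc_main {Λ : Type} [Fintype Λ] (r1 r2 r3 : Λ → Λ → ℝ) (b : Λ → Λ → Λ → ℝ) (κ : ℝ)
    (hl : 0 < (Fintype.card Λ : ℝ)) (hκ0 : 0 < κ) (hκ : κ ≤ 1 / 24)
    (v1 : ∀ x y, r1 x y = 0 ∨ r1 x y = 1) (v3 : ∀ x y, r3 x y = 0 ∨ r3 x y = 1)
    (s1 : ∀ x y, r1 x y = r1 y x) (s2 : ∀ x y, r2 x y = r2 y x)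
    (b1 : ∀ x y t, r1 x y * r3 x t ≤ b x y t)
    (b2 : ∀ x y t, 1 - r1 x y - b x y t - r3 x t ≤ r2 y t)
    (b3 : ∀ x y t, |r2 y t - (1 - r1 x y)| ≤ b x y t + r3 x t)
    (b4 : ∀ x y t, |r2 y t - (1 - r3 x t)| ≤ b x y t + r1 x y)
    (hB : ∑ x, ∑ y, ∑ t, b x y t ≤ κ ^ 4 * (Fintype.card Λ : ℝ) ^ 3) :
    (1 - 17 * κ) * (Fintype.card Λ : ℝ) ^ 2 ≤ ∑ x, ∑ y, r1 x y ∨
    (1 - 17 * κ) * (Fintype.card Λ : ℝ) ^ 2 ≤ ∑ x, ∑ y, r2 x y ∨
    (1 - 17 * κ) * (Fintype.card Λ : ℝ) ^ 2 ≤ ∑ x, ∑ y, r3 x y := by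
  set l : ℝ := (Fintype.card Λ : ℝ) with hld
  have hl2 : 0 < l ^ 2 := by positivity
  have hcst : ∀ c : ℝ, ∑ _y : Λ, c = l * c := by
    intro c
    rw [sum_const, nsmul_eq_mul, card_univ]
  have n1 : ∀ x y, 0 ≤ r1 x y := fun x y => by rcases v1 x y with h | h <;> rw [h]; norm_num
  have n3 : ∀ x y, 0 ≤ r3 x y := fun x y => by rcases v3 x y with h | h <;> rw [h]; norm_num
  have m1 : ∀ x y, r1 x y ≤ 1 := fun x y => by rcases v1 x y with h | h <;> rw [h]; norm_num
  have nb : ∀ x y t, 0 ≤ b x y t := fun x y t => (mul_nonneg (n1 x y) (n3 x t)).trans (b1 x y t)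
  by_cases hR2 : (1 - 6 * κ) * l ^ 2 ≤ ∑ x, ∑ y, r2 x y
  · right
    left
    refine le_trans ?_ hR2
    exact mul_le_mul_of_nonneg_right (by linarith) hl2.le
  let X : Λ → ℝ := fun x => ∑ y, r1 x y
  let Y : Λ → ℝ := fun x => ∑ t, r3 x t
  let B : Λ → ℝ := fun x => ∑ y, ∑ t, b x y t
  have hX0 : ∀ x, 0 ≤ X x := fun x => sum_nonneg fun y _ => n1 x y
  have hY0 : ∀ x, 0 ≤ Y x := fun x => sum_nonneg fun y _ => n3 x y
  have hXl : ∀ x, X x ≤ l := by
    intro x
    have h1 : X x ≤ ∑ _y : Λ, (1 : ℝ) := sum_le_sum fun y _ => m1 x y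
    rw [hcst, mul_one] at h1
    exact h1
  -- the alternative
  have halt : ∀ x, B x ≤ κ ^ 2 * l ^ 2 →
      (Y x ≤ κ * l ∧ (1 - 4 * κ) * l ≤ X x) ∨ (X x ≤ κ * l ∧ (1 - 4 * κ) * l ≤ Y x) := by
    intro x hx
    have h1 : X x * Y x ≤ κ ^ 2 * l ^ 2 := by
      refine le_trans ?_ hx
      change (∑ y, r1 x y) * (∑ t, r3 x t) ≤ _
      rw [sum_mul_sum]
      exact sum_le_sum fun y _ => sum_le_sum fun t _ => b1 x y t
    have h2 : X x ≤ κ * l ∨ Y x ≤ κ * l := by
      by_contra hcon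
      push Not at hcon
      have h3 : (κ * l) * (κ * l) < X x * Y x :=
        mul_lt_mul'' hcon.1 hcon.2 (by positivity) (by positivity)
      nlinarith
    rcases h2 with h2 | h2
    · right
      refine ⟨h2, ?_⟩
      have h3 := rc_one (r3 x) (r1 x) r2 (fun y t => b x t y) κ hκ0.le hκ (v3 x) s2
        (fun y t => by
          have h4 := abs_le.1 (b4 x t y)
          rw [s2 y t]
          linarith [h4.1])
        (fun y t => by
          rw [s2 y t]
          exact b4 x t y)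
        (by
          rw [sum_comm]
          exact hx)
        h2
      exact h3.resolve_right hR2
    · left
      refine ⟨h2, ?_⟩
      have h3 := rc_one (r1 x) (r3 x) r2 (fun y t => b x y t) κ hκ0.le hκ (v1 x) s2
        (fun y t => b2 x y t) (fun y t => b3 x y t) hx h2
      exact h3.resolve_right hR2
  let at' : Λ → ℝ := fun x => if B x ≤ κ ^ 2 * l ^ 2 then 0 else 1
  have hat : ∑ x, at' x ≤ κ ^ 2 * l := by
    have h1 : κ ^ 2 * l ^ 2 * ∑ x, at' x ≤ κ ^ 4 * l ^ 3 := by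
      refine le_trans ?_ hB
      rw [mul_sum]
      refine sum_le_sum fun x _ => ?_
      change κ ^ 2 * l ^ 2 * (if B x ≤ κ ^ 2 * l ^ 2 then 0 else 1) ≤ B x
      split_ifs with h
      · rw [mul_zero]
        exact sum_nonneg fun y _ => sum_nonneg fun t _ => nb x y t
      · rw [mul_one]
        exact (not_le.1 h).le
    have h2 : 0 < κ ^ 2 * l ^ 2 := by positivity
    refine le_of_mul_le_mul_left (h1.trans (le_of_eq ?_)) h2
    ring
  let c : Λ → ℝ := fun x => if B x ≤ κ ^ 2 * l ^ 2 ∧ (1 - 4 * κ) * l ≤ X x then 1 else 0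
  have hc0 : ∀ x, 0 ≤ c x := fun x => by
    change (0 : ℝ) ≤ if _ then 1 else 0
    split_ifs <;> norm_num
  have hc1 : ∀ x, c x ≤ 1 := fun x => by
    change (if _ then (1 : ℝ) else 0) ≤ 1
    split_ifs <;> norm_num
  set C := ∑ x, c x with hC
  have hC0 : 0 ≤ C := sum_nonneg fun x _ => hc0 x
  have hCl : C ≤ l := by
    have h1 : C ≤ ∑ _y : Λ, (1 : ℝ) := sum_le_sum fun y _ => hc1 y
    rw [hcst, mul_one] at h1
    exact h1
  have hcX : ∀ x, c x * ((1 - 4 * κ) * l) ≤ c x * X x := by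
    intro x
    change (if B x ≤ κ ^ 2 * l ^ 2 ∧ (1 - 4 * κ) * l ≤ X x then (1 : ℝ) else 0) * _ ≤
      (if B x ≤ κ ^ 2 * l ^ 2 ∧ (1 - 4 * κ) * l ≤ X x then (1 : ℝ) else 0) * _
    split_ifs with h
    · rw [one_mul, one_mul]
      exact h.2
    · rw [zero_mul, zero_mul]
  have hlow : C * ((1 - 4 * κ) * l - C) ≤ ∑ x, ∑ y, c x * (1 - c y) * r1 x y := by
    rw [hC, sum_mul, ← hC]
    refine sum_le_sum fun x _ => ?_
    have h1 : c x * (X x - C) ≤ ∑ y, c x * (1 - c y) * r1 x y := by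
      change c x * ((∑ y, r1 x y) - ∑ y, c y) ≤ _
      rw [← sum_sub_distrib, mul_sum]
      refine sum_le_sum fun y _ => ?_
      rw [mul_assoc]
      refine mul_le_mul_of_nonneg_left ?_ (hc0 x)
      nlinarith [mul_nonneg (hc0 y) (sub_nonneg.2 (m1 x y))]
    have h2 := hcX x
    nlinarith
  have hup : ∑ x, ∑ y, c x * (1 - c y) * r1 x y ≤ κ * l ^ 2 + κ ^ 2 * l ^ 2 := by
    rw [sum_comm]
    have h1 : ∀ y, ∑ x, c x * (1 - c y) * r1 x y ≤ κ * l + l * at' y := by
      intro y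
      have h2 : ∑ x, c x * (1 - c y) * r1 x y ≤ (1 - c y) * X y := by
        change _ ≤ (1 - c y) * ∑ x, r1 y x
        rw [mul_sum]
        refine sum_le_sum fun x _ => ?_
        rw [s1 x y, mul_assoc]
        have h3 : 0 ≤ (1 - c y) * r1 y x := mul_nonneg (sub_nonneg.2 (hc1 y)) (n1 y x)
        nlinarith [hc1 x, hc0 x]
      refine h2.trans ?_
      change (1 - (if B y ≤ κ ^ 2 * l ^ 2 ∧ (1 - 4 * κ) * l ≤ X y then (1 : ℝ) else 0)) * X y ≤
        κ * l + l * (if B y ≤ κ ^ 2 * l ^ 2 then 0 else 1)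
      by_cases hB' : B y ≤ κ ^ 2 * l ^ 2
      · rw [if_pos hB', mul_zero, add_zero]
        by_cases hX' : (1 - 4 * κ) * l ≤ X y
        · rw [if_pos ⟨hB', hX'⟩, sub_self, zero_mul]
          positivity
        · rw [if_neg fun h => hX' h.2, sub_zero, one_mul]
          rcases halt y hB' with h4 | h4
          · exact absurd h4.2 hX'
          · exact h4.1
      · rw [if_neg hB', if_neg fun h => hB' h.1, sub_zero, one_mul, mul_one]
        have := hXl y
        have : 0 ≤ κ * l := by positivity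
        linarith
    refine (sum_le_sum fun y _ => h1 y).trans ?_
    rw [sum_add_distrib, hcst, ← mul_sum]
    have h2 := mul_le_mul_of_nonneg_left hat hl.le
    nlinarith
  have hκκ : κ ^ 2 * l ^ 2 ≤ κ * l ^ 2 := by
    have : κ ^ 2 ≤ κ := by nlinarith
    exact mul_le_mul_of_nonneg_right this (sq_nonneg l)
  have hquad : C * (l - C) ≤ 12 * κ / 2 * l ^ 2 := by
    have h1 := hlow.trans hup
    have h2 : κ * l * C ≤ κ * l * l := mul_le_mul_of_nonneg_left hCl (by positivity)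
    nlinarith
  rcases rc_quad hquad (by linarith) (by linarith) with h | h
  · right
    right
    have h1 : ∑ x, (1 - c x - at' x) * ((1 - 4 * κ) * l) ≤ ∑ x, Y x := by
      refine sum_le_sum fun x _ => ?_
      change (1 - (if B x ≤ κ ^ 2 * l ^ 2 ∧ (1 - 4 * κ) * l ≤ X x then (1 : ℝ) else 0) -
        (if B x ≤ κ ^ 2 * l ^ 2 then 0 else 1)) * ((1 - 4 * κ) * l) ≤ Y x
      by_cases hB' : B x ≤ κ ^ 2 * l ^ 2
      · rw [if_pos hB', sub_zero]
        by_cases hX' : (1 - 4 * κ) * l ≤ X x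
        · rw [if_pos ⟨hB', hX'⟩, sub_self, zero_mul]
          exact hY0 x
        · rw [if_neg fun h => hX' h.2, sub_zero, one_mul]
          rcases halt x hB' with h4 | h4
          · exact absurd h4.2 hX'
          · exact h4.2
      · rw [if_neg hB', if_neg fun h => hB' h.1, sub_zero, sub_self, zero_mul]
        exact hY0 x
    rw [← sum_mul, sum_sub_distrib, sum_sub_distrib, hcst, mul_one] at h1
    refine le_trans ?_ h1
    have h2 : (1 - 13 * κ) * l ≤ l - C - ∑ x, at' x := by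
      have : κ ^ 2 * l ≤ κ * l := mul_le_mul_of_nonneg_right (by nlinarith) hl.le
      linarith
    have h3 : (1 - 13 * κ) * l * ((1 - 4 * κ) * l) ≤ (l - C - ∑ x, at' x) * ((1 - 4 * κ) * l) :=
      mul_le_mul_of_nonneg_right h2 (mul_nonneg (by linarith) hl.le)
    refine le_trans ?_ h3
    have h4 : 0 ≤ κ ^ 2 * l ^ 2 := by positivity
    nlinarith
  · left
    have h1 : ∑ x, c x * ((1 - 4 * κ) * l) ≤ ∑ x, X x := by
      refine sum_le_sum fun x _ => (hcX x).trans ?_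
      nlinarith [mul_nonneg (hX0 x) (sub_nonneg.2 (hc1 x))]
    rw [← sum_mul] at h1
    refine le_trans ?_ h1
    have h3 : (1 - 12 * κ) * l * ((1 - 4 * κ) * l) ≤ C * ((1 - 4 * κ) * l) :=
      mul_le_mul_of_nonneg_right h (mul_nonneg (by linarith) hl.le)
    refine le_trans ?_ h3
    have h4 : 0 ≤ κ ^ 2 * l ^ 2 := by positivity
    have h5 : 0 ≤ κ * l ^ 2 := by positivity
    nlinarith

theorem tRc : S_Rc := by
  intro ξ hξ
  obtain ⟨κ, hκ0, hκ1, hκ2⟩ : ∃ κ : ℝ, 0 < κ ∧ κ ≤ 1 / 24 ∧ 17 * κ ≤ ξ :=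
    ⟨min (1 / 24) (ξ / 17), lt_min (by norm_num) (by linarith), min_le_left _ _, by
      have := min_le_right (1 / 24 : ℝ) (ξ / 17)
      linarith⟩
  refine ⟨κ ^ 4, by positivity, ?_⟩
  intro Λ _ _ R1 R2 R3 s1 s2 s3 hcount
  rw [rc_count, rc_count, rc_count]
  rcases Nat.eq_zero_or_pos (Fintype.card Λ) with h0 | h0
  · left
    rw [h0, Nat.cast_zero]
    refine le_trans (le_of_eq ?_) (sum_nonneg fun x _ => sum_nonneg fun y _ => ?_)
    · ring
    · split_ifs <;> norm_num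
  have hl : (0 : ℝ) < Fintype.card Λ := by exact_mod_cast h0
  let E : Λ → Λ → Λ → Prop := fun x y t => (R1 x y ∧ ¬ R2 y t ∧ ¬ R3 x t) ∨
    (¬ R1 x y ∧ R2 y t ∧ ¬ R3 x t) ∨ (¬ R1 x y ∧ ¬ R2 y t ∧ R3 x t)
  have hsym : ∀ (R : Λ → Λ → Prop), (∀ x y, R x y → R y x) → ∀ x y,
      (if R x y then (1 : ℝ) else 0) = if R y x then 1 else 0 := by
    intro R hR x y
    by_cases h : R x y
    · rw [if_pos h, if_pos (hR _ _ h)]
    · rw [if_neg h, if_neg fun h' => h (hR _ _ h')]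
  have hv : ∀ (R : Λ → Λ → Prop) x y, (if R x y then (1 : ℝ) else 0) = 0 ∨
      (if R x y then (1 : ℝ) else 0) = 1 := by
    intro R x y
    split_ifs
    · exact Or.inr rfl
    · exact Or.inl rfl
  have hmain := rc_main (fun x y => if R1 x y then (1 : ℝ) else 0)
    (fun x y => if R2 x y then (1 : ℝ) else 0) (fun x y => if R3 x y then (1 : ℝ) else 0)
    (fun x y t => if E x y t then 0 else 1) κ hl hκ0 hκ1 (hv R1) (hv R3) (hsym R1 s1) (hsym R2 s2)
    (by
      intro x y t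
      by_cases h1 : R1 x y <;> by_cases h2 : R2 y t <;> by_cases h3 : R3 x t <;>
        simp [E, h1, h2, h3])
    (by
      intro x y t
      by_cases h1 : R1 x y <;> by_cases h2 : R2 y t <;> by_cases h3 : R3 x t <;>
        simp [E, h1, h2, h3] <;> norm_num)
    (by
      intro x y t
      by_cases h1 : R1 x y <;> by_cases h2 : R2 y t <;> by_cases h3 : R3 x t <;>
        simp [E, h1, h2, h3])
    (by
      intro x y t
      by_cases h1 : R1 x y <;> by_cases h2 : R2 y t <;> by_cases h3 : R3 x t <;>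
        simp [E, h1, h2, h3])
    (by
      have e1 : ((univ.filter (fun p : Λ × Λ × Λ =>
          (R1 p.1 p.2.1 ∧ ¬ R2 p.2.1 p.2.2 ∧ ¬ R3 p.1 p.2.2) ∨
          (¬ R1 p.1 p.2.1 ∧ R2 p.2.1 p.2.2 ∧ ¬ R3 p.1 p.2.2) ∨
          (¬ R1 p.1 p.2.1 ∧ ¬ R2 p.2.1 p.2.2 ∧ R3 p.1 p.2.2))).card : ℝ) =
          ∑ x, ∑ y, ∑ t, if E x y t then (1 : ℝ) else 0 := by
        rw [card_filter, Nat.cast_sum, Fintype.sum_prod_type]
        refine sum_congr rfl fun x _ => ?_
        rw [Fintype.sum_prod_type]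
        refine sum_congr rfl fun y _ => sum_congr rfl fun t _ => ?_
        change ((if E x y t then 1 else 0 : ℕ) : ℝ) = if E x y t then 1 else 0
        split_ifs <;> simp
      rw [e1] at hcount
      have e2 : (∑ x, ∑ y, ∑ t, if E x y t then (0 : ℝ) else 1) +
          (∑ x, ∑ y, ∑ t, if E x y t then (1 : ℝ) else 0) = (Fintype.card Λ : ℝ) ^ 3 := by
        rw [← sum_add_distrib]
        have e3 : ∀ x : Λ, ((∑ y, ∑ t, if E x y t then (0 : ℝ) else 1) +
            ∑ y, ∑ t, if E x y t then (1 : ℝ) else 0) = (Fintype.card Λ : ℝ) ^ 2 := by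
          intro x
          rw [← sum_add_distrib]
          have e4 : ∀ y : Λ, ((∑ t, if E x y t then (0 : ℝ) else 1) +
              ∑ t, if E x y t then (1 : ℝ) else 0) = (Fintype.card Λ : ℝ) := by
            intro y
            rw [← sum_add_distrib]
            have e5 : ∀ t : Λ, ((if E x y t then (0 : ℝ) else 1) +
                if E x y t then (1 : ℝ) else 0) = 1 := by
              intro t
              split_ifs <;> norm_num
            rw [sum_congr rfl fun t _ => e5 t, sum_const, nsmul_eq_mul, card_univ, mul_one]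
          rw [sum_congr rfl fun y _ => e4 y, sum_const, nsmul_eq_mul, card_univ, sq]
        rw [sum_congr rfl fun x _ => e3 x, sum_const, nsmul_eq_mul, card_univ]
        ring
      linarith)
  have hfin : (1 - ξ) * (Fintype.card Λ : ℝ) ^ 2 ≤ (1 - 17 * κ) * (Fintype.card Λ : ℝ) ^ 2 :=
    mul_le_mul_of_nonneg_right (by linarith) (sq_nonneg _)
  exact hmain.imp hfin.trans (Or.imp hfin.trans hfin.trans)

end Pool.Agent.Ham
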