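import Pool.Agent.Lib.MP_716318_co.H.Spec3

/-!
# MP_716318_co, package H: one vertex in almost all events
-/

set_option autoImplicit false

namespace Pool.Agent.Ham

open Finset
open scoped Classical

section RdAux

variable {H Λ : Type}

/-- The event of a pair. -/
private theorem rd_pair [DecidableEq H] {D : H → Λ → Prop} {G : H → H → Λ → Λ → Prop}
    (hG : GSym G) {a : H → Λ} {u v : H} (huv : u ≠ v) (h : Evt D G {u, v} a) :
    G u v (a u) (a v) := by
  rcases h with ⟨x, hx, hd⟩ | ⟨x, y, hxy, he, hg⟩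
  · exfalso
    have h1 : u ∈ ({x} : Finset H) := by rw [← hx]; simp
    have h2 : v ∈ ({x} : Finset H) := by rw [← hx]; simp
    rw [mem_singleton] at h1 h2
    exact huv (h1.trans h2.symm)
  · have h1 : u ∈ ({x, y} : Finset H) := by rw [← he]; simp
    have h2 : v ∈ ({x, y} : Finset H) := by rw [← he]; simp
    rw [mem_insert, mem_singleton] at h1 h2
    rcases h1 with h1 | h1
    · rcases h2 with h2 | h2
      · exact absurd (h1.trans h2.symm) huv
      · rw [h1, h2]
        exact hg
    · rcases h2 with h2 | h2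
      · rw [h1, h2]
        exact hG.1 _ _ _ _ hg
      · exact absurd (h1.trans h2.symm) huv

/-- The events which contain a vertex. -/
private theorem rd_mem [DecidableEq H] {D : H → Λ → Prop} {G : H → H → Λ → Λ → Prop}
    (hG : GSym G) {a : H → Λ} {e : Finset H} {v : H} (hv : v ∈ e) (h : Evt D G e a) :
    D v (a v) ∨ ∃ w, w ≠ v ∧ G v w (a v) (a w) := by
  rcases h with ⟨x, hx, hd⟩ | ⟨x, y, hxy, he, hg⟩
  · rw [hx, mem_singleton] at hv
    rw [hv]
    exact Or.inl hd
  · rw [he, mem_insert, mem_singleton] at hv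
    rcases hv with hv | hv
    · rw [hv]
      exact Or.inr ⟨y, hxy.symm, hg⟩
    · rw [hv]
      exact Or.inr ⟨x, hxy, hG.1 _ _ _ _ hg⟩

/-- An event has one or two elements. -/
private theorem rd_card [DecidableEq H] {D : H → Λ → Prop} {G : H → H → Λ → Λ → Prop}
    {e : Finset H} {a : H → Λ} (h : Evt D G e a) : 1 ≤ e.card ∧ e.card ≤ 2 := by
  rcases h with ⟨v, he, hv⟩ | ⟨v, w, hvw, he, hg⟩
  · rw [he]
    simp
  · rw [he, Finset.card_pair hvw]
    exact ⟨by norm_num, le_refl 2⟩

/-- Sums over the fibres of a map. -/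
private theorem rd_fib {α ι : Type} [Fintype ι] [DecidableEq ι] (A : Finset α) (E : α → ι) (g : ι → ℝ) :
    ∑ e, ((A.filter (fun a => E a = e)).card : ℝ) * g e = ∑ a ∈ A, g (E a) := by
  rw [← Finset.sum_fiberwise A E (fun a => g (E a))]
  refine Finset.sum_congr rfl fun e _ => ?_
  rw [Finset.sum_congr rfl (g := fun _ => g e) (fun a ha => by rw [(Finset.mem_filter.mp ha).2])]
  rw [Finset.sum_const, nsmul_eq_mul]

end RdAux

theorem tRd : S_Ra → S_Rb → S_Rc → S_Pr → S_Rd := by
  intro hRa hRb hRc hPr ξ hξ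
  obtain ⟨z3, hz3, hRc'⟩ := hRc ξ hξ
  obtain ⟨z2, hz2, hRb'⟩ := hRb (min ξ z3) (lt_min hξ hz3)
  refine ⟨min (z2 / 16) (1 / 2), lt_min (by positivity) (by norm_num), ?_⟩
  intro H Λ _ _ _ _ D G hG hN
  set N : ℝ := (Fintype.card (H → Λ) : ℝ) with hNdef
  have hζ1 : min (z2 / 16) (1 / 2 : ℝ) ≤ z2 / 16 := min_le_left _ _
  have hζ2 : min (z2 / 16) (1 / 2 : ℝ) ≤ 1 / 2 := min_le_right _ _
  generalize min (z2 / 16) (1 / 2 : ℝ) = ζ at hN hζ1 hζ2
  -- the case of an empty space
  rcases Nat.eq_zero_or_pos (Fintype.card (H → Λ)) with h0 | hpos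
  · have hne : Nonempty H := by
      by_contra hcon
      rw [not_nonempty_iff] at hcon
      have : Nonempty (H → Λ) := ⟨fun x => (hcon.false x).elim⟩
      exact (Fintype.card_pos (α := H → Λ)).ne' h0
    obtain ⟨v⟩ := hne
    refine ⟨v, ?_⟩
    have : N = 0 := by rw [hNdef, h0]; simp
    rw [this, mul_zero]
    positivity
  have hNpos : 0 < N := by rw [hNdef]; exact_mod_cast hpos
  -- the set of the choices with exactly one event
  set A : Finset (H → Λ) := univ.filter (fun a : H → Λ => Nn D G a = 1) with hAdef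
  have hAE : ∀ a : H → Λ, ∃ e : Finset H, a ∈ A → (Evt D G e a ∧ ∀ f, Evt D G f a → f = e) := by
    intro a
    by_cases ha : a ∈ A
    · have h1 : Nn D G a = 1 := (Finset.mem_filter.mp ha).2
      rw [Nn, Finset.card_eq_one] at h1
      obtain ⟨e, he⟩ := h1
      refine ⟨e, fun _ => ⟨?_, fun f hf => ?_⟩⟩
      · have : e ∈ univ.filter (fun e : Finset H => Evt D G e a) := by
          rw [he]; exact Finset.mem_singleton_self e
        exact (Finset.mem_filter.mp this).2
      · have : f ∈ univ.filter (fun e : Finset H => Evt D G e a) :=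
          Finset.mem_filter.mpr ⟨Finset.mem_univ f, hf⟩
        rw [he] at this
        exact Finset.mem_singleton.mp this
    · exact ⟨∅, fun h => absurd h ha⟩
  choose E hE using hAE
  have hAcard : (1 - ζ) * N ≤ (A.card : ℝ) := by
    have h1 : (univ.filter (fun a : H → Λ => Nn D G a = 1)).card +
        (univ.filter (fun a : H → Λ => ¬ Nn D G a = 1)).card = Fintype.card (H → Λ) := by
      rw [Finset.card_filter_add_card_filter_not]
      exact Finset.card_univ
    have h2 : (A.card : ℝ) + ((univ.filter (fun a : H → Λ => Nn D G a ≠ 1)).card : ℝ) = N := by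
      rw [hNdef, hAdef]
      exact_mod_cast h1
    linarith
  have hAle : (A.card : ℝ) ≤ N := by
    rw [hNdef]
    exact_mod_cast Finset.card_le_univ A
  -- the measure
  set μ : Finset H → ℝ := fun e => ((A.filter (fun a => E a = e)).card : ℝ) / N with hμ
  have hμ0 : ∀ e, 0 ≤ μ e := fun e => div_nonneg (Nat.cast_nonneg _) hNpos.le
  have hμc : ∀ e, μ e ≠ 0 → 1 ≤ e.card ∧ e.card ≤ 2 := by
    intro e he
    have h1 : (A.filter (fun a => E a = e)).card ≠ 0 := by
      intro h
      apply he
      simp only [hμ]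
      rw [h]
      simp
    obtain ⟨a, ha⟩ := Finset.card_pos.mp (Nat.pos_of_ne_zero h1)
    obtain ⟨haA, hae⟩ := Finset.mem_filter.mp ha
    have h2 := (hE a haA).1
    rw [hae] at h2
    exact rd_card h2
  have hsum : ∀ g : Finset H → ℝ, ∑ e, μ e * g e = (∑ a ∈ A, g (E a)) / N := by
    intro g
    rw [← rd_fib A E g, Finset.sum_div]
    refine Finset.sum_congr rfl fun e _ => ?_
    simp only [hμ]
    ring
  have hμsum : ∑ e, μ e = (A.card : ℝ) / N := by
    have h1 := hsum (fun _ => 1)
    simpa using h1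
  have hμ1 : 1 - z2 ≤ ∑ e, μ e := by
    rw [hμsum, le_div_iff₀ hNpos]
    refine le_trans ?_ hAcard
    apply mul_le_mul_of_nonneg_right _ hNpos.le
    linarith
  have hμ2 : ∑ e, μ e ≤ 1 := by
    rw [hμsum, div_le_one hNpos]
    exact hAle
  -- disjoint pairs
  have hdis : (∑ e, ∑ f ∈ univ.filter (fun f => Disjoint e f), μ e * μ f) ≤ z2 := by
    have h1 : (∑ e, ∑ f ∈ univ.filter (fun f => Disjoint e f), μ e * μ f) =
        (∑ a ∈ A, ∑ b ∈ A, (if Disjoint (E a) (E b) then (1 : ℝ) else 0)) / N / N := by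
      have h2 : ∀ e : Finset H, ∑ f ∈ univ.filter (fun f => Disjoint e f), μ e * μ f =
          μ e * ((∑ b ∈ A, (if Disjoint e (E b) then (1 : ℝ) else 0)) / N) := by
        intro e
        rw [← hsum (fun f => if Disjoint e f then (1 : ℝ) else 0), Finset.sum_filter, Finset.mul_sum]
        refine Finset.sum_congr rfl fun f _ => ?_
        by_cases hd : Disjoint e f
        · rw [if_pos hd, if_pos hd, mul_one]
        · rw [if_neg hd, if_neg hd, mul_zero, mul_zero]
      rw [Finset.sum_congr rfl (fun e _ => h2 e), hsum, ← Finset.sum_div]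
    have h3 : (∑ a ∈ A, ∑ b ∈ A, (if Disjoint (E a) (E b) then (1 : ℝ) else 0)) ≤
        ((univ.filter (fun p : (H → Λ) × (H → Λ) =>
          ∃ e f : Finset H, Evt D G e p.1 ∧ Evt D G f p.2 ∧ Disjoint e f)).card : ℝ) := by
      rw [← Finset.sum_product', ← Finset.sum_filter, Finset.sum_const, nsmul_eq_mul, mul_one]
      norm_cast
      apply Finset.card_le_card
      intro p hp
      obtain ⟨hp1, hp2⟩ := Finset.mem_filter.mp hp
      obtain ⟨ha, hb⟩ := Finset.mem_product.mp hp1
      exact Finset.mem_filter.mpr ⟨Finset.mem_univ _, E p.1, E p.2, (hE p.1 ha).1,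
        (hE p.2 hb).1, hp2⟩
    have h4 : ((univ.filter (fun p : (H → Λ) × (H → Λ) =>
          ∃ e f : Finset H, Evt D G e p.1 ∧ Evt D G f p.2 ∧ Disjoint e f)).card : ℝ) ≤
        16 * (N * ((univ.filter (fun a : H → Λ => 2 ≤ Nn D G a)).card : ℝ)) := by
      rw [hNdef]
      exact_mod_cast hRa H Λ D G
    have h5 : ((univ.filter (fun a : H → Λ => 2 ≤ Nn D G a)).card : ℝ) ≤ ζ * N := by
      refine le_trans ?_ hN
      norm_cast
      apply Finset.card_le_card
      intro a ha
      have h6 := (Finset.mem_filter.mp ha).2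
      refine Finset.mem_filter.mpr ⟨Finset.mem_univ _, ?_⟩
      omega
    rw [h1, div_div, div_le_iff₀ (by positivity)]
    have h7 : 16 * (N * ((univ.filter (fun a : H → Λ => 2 ≤ Nn D G a)).card : ℝ)) ≤
        16 * (N * (z2 / 16 * N)) := by
      have : ζ * N ≤ z2 / 16 * N := mul_le_mul_of_nonneg_right hζ1 hNpos.le
      have h8 : N * ((univ.filter (fun a : H → Λ => 2 ≤ Nn D G a)).card : ℝ) ≤
          N * (z2 / 16 * N) := mul_le_mul_of_nonneg_left (h5.trans this) hNpos.le
      linarith
    have h9 : 16 * (N * (z2 / 16 * N)) = z2 * (N * N) := by ring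
    linarith
  -- transfer from the two coordinates
  have htwo : ∀ u v : H, u ≠ v →
      (1 - ξ) * (Fintype.card Λ : ℝ) ^ 2 ≤ (univ.filter (fun p : Λ × Λ => G u v p.1 p.2)).card →
      ∃ v, (1 - ξ) * N ≤
        (univ.filter (fun a : H → Λ => D v (a v) ∨ ∃ w, w ≠ v ∧ G v w (a v) (a w))).card := by
    intro u v huv h
    refine ⟨u, ?_⟩
    have hΛ : 0 < (Fintype.card Λ : ℝ) := by
      have : Nonempty (H → Λ) := Fintype.card_pos_iff.mp hpos
      obtain ⟨a⟩ := this
      exact_mod_cast Fintype.card_pos_iff.mpr ⟨a u⟩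
    have h1 := (hPr H Λ).2.1 u v (fun x y => if G u v x y then (1 : ℝ) else 0) huv
    have h2 : (∑ a : H → Λ, (if G u v (a u) (a v) then (1 : ℝ) else 0)) =
        ((univ.filter (fun a : H → Λ => G u v (a u) (a v))).card : ℝ) := by
      rw [← Finset.sum_filter, Finset.sum_const, nsmul_eq_mul, mul_one]
    have h3 : (∑ x : Λ, ∑ y : Λ, (if G u v x y then (1 : ℝ) else 0)) =
        ((univ.filter (fun p : Λ × Λ => G u v p.1 p.2)).card : ℝ) := by
      rw [← Fintype.sum_prod_type', ← Finset.sum_filter, Finset.sum_const, nsmul_eq_mul, mul_one]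
    rw [h2, h3] at h1
    have h4 : (Fintype.card Λ : ℝ) ^ Fintype.card H = N := by
      rw [hNdef, Fintype.card_fun, Nat.cast_pow]
    rw [h4] at h1
    have h5 : (1 - ξ) * N ≤ ((univ.filter (fun a : H → Λ => G u v (a u) (a v))).card : ℝ) := by
      have h6 : 0 < (Fintype.card Λ : ℝ) ^ 2 := by positivity
      refine le_of_mul_le_mul_left ?_ h6
      rw [h1]
      have h7 := mul_le_mul_of_nonneg_left h hNpos.le
      linarith
    refine h5.trans ?_
    norm_cast
    apply Finset.card_le_card
    intro a ha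
    have h6 := (Finset.mem_filter.mp ha).2
    exact Finset.mem_filter.mpr ⟨Finset.mem_univ _, Or.inr ⟨v, huv.symm, h6⟩⟩
  rcases hRb' H μ hμ0 hμc hμ1 hμ2 hdis with ⟨v, hv⟩ | ⟨u, v, w, huv, hvw, huw, htri⟩
  · refine ⟨v, ?_⟩
    have h1 : ∑ e ∈ univ.filter (fun e : Finset H => v ∈ e), μ e =
        ((A.filter (fun a => v ∈ E a)).card : ℝ) / N := by
      have h2 := hsum (fun e => if v ∈ e then 1 else 0)
      rw [Finset.sum_filter]
      rw [← Finset.sum_filter, Finset.sum_const, nsmul_eq_mul, mul_one] at h2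
      rw [← h2]
      refine Finset.sum_congr rfl fun e _ => ?_
      by_cases hd : v ∈ e
      · rw [if_pos hd, if_pos hd, mul_one]
      · rw [if_neg hd, if_neg hd, mul_zero]
    rw [h1, le_div_iff₀ hNpos] at hv
    have h3 : (1 - ξ) * N ≤ (1 - min ξ z3) * N := by
      apply mul_le_mul_of_nonneg_right _ hNpos.le
      have := min_le_left ξ z3
      linarith
    refine (h3.trans hv).trans ?_
    norm_cast
    apply Finset.card_le_card
    intro a ha
    obtain ⟨h4, h5⟩ := Finset.mem_filter.mp ha
    exact Finset.mem_filter.mpr ⟨Finset.mem_univ _, rd_mem hG h5 (hE a h4).1⟩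
  · have hne1 : ({u, v} : Finset H) ≠ {v, w} := by
      intro h
      have h1 : u ∈ ({v, w} : Finset H) := by rw [← h]; simp
      rw [mem_insert, mem_singleton] at h1
      rcases h1 with h1 | h1
      · exact huv h1
      · exact huw h1
    have hne2 : ({u, v} : Finset H) ≠ {u, w} := by
      intro h
      have h1 : v ∈ ({u, w} : Finset H) := by rw [← h]; simp
      rw [mem_insert, mem_singleton] at h1
      rcases h1 with h1 | h1
      · exact huv h1.symm
      · exact hvw h1
    have hne3 : ({v, w} : Finset H) ≠ {u, w} := by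
      intro h
      have h1 : v ∈ ({u, w} : Finset H) := by rw [← h]; simp
      rw [mem_insert, mem_singleton] at h1
      rcases h1 with h1 | h1
      · exact huv h1.symm
      · exact hvw h1
    set P : Λ → Λ → Λ → Prop := fun x y z =>
      (G u v x y ∧ ¬ G v w y z ∧ ¬ G u w x z) ∨ (¬ G u v x y ∧ G v w y z ∧ ¬ G u w x z) ∨
      (¬ G u v x y ∧ ¬ G v w y z ∧ G u w x z) with hPdef
    have hevt : ∀ a : H → Λ, ∀ x y : H, x ≠ y → G x y (a x) (a y) → Evt D G {x, y} a :=
      fun a x y hxy h => Or.inr ⟨x, y, hxy, rfl, h⟩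
    have hP1 : μ {u, v} + μ {v, w} + μ {u, w} ≤
        ((univ.filter (fun a : H → Λ => P (a u) (a v) (a w))).card : ℝ) / N := by
      simp only [hμ]
      rw [← add_div, ← add_div]
      apply div_le_div_of_nonneg_right _ hNpos.le
      have hd1 : Disjoint (A.filter (fun a => E a = {u, v})) (A.filter (fun a => E a = {v, w})) := by
        rw [Finset.disjoint_filter]
        intro a _ h1 h2
        exact hne1 (h1.symm.trans h2)
      have hd2 : Disjoint (A.filter (fun a => E a = {u, v}) ∪ A.filter (fun a => E a = {v, w}))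
          (A.filter (fun a => E a = {u, w})) := by
        rw [Finset.disjoint_union_left, Finset.disjoint_filter, Finset.disjoint_filter]
        exact ⟨fun a _ h1 h2 => hne2 (h1.symm.trans h2), fun a _ h1 h2 => hne3 (h1.symm.trans h2)⟩
      have hc : (A.filter (fun a => E a = {u, v})).card + (A.filter (fun a => E a = {v, w})).card +
          (A.filter (fun a => E a = {u, w})).card =
          (A.filter (fun a => E a = {u, v}) ∪ A.filter (fun a => E a = {v, w}) ∪
            A.filter (fun a => E a = {u, w})).card := by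
        rw [Finset.card_union_of_disjoint hd2, Finset.card_union_of_disjoint hd1]
      have hc2 : (A.filter (fun a => E a = {u, v}) ∪ A.filter (fun a => E a = {v, w}) ∪
            A.filter (fun a => E a = {u, w})).card ≤
          (univ.filter (fun a : H → Λ => P (a u) (a v) (a w))).card := by
        apply Finset.card_le_card
        intro a ha
        refine Finset.mem_filter.mpr ⟨Finset.mem_univ _, ?_⟩
        simp only [Finset.mem_union, Finset.mem_filter] at ha
        rcases ha with (⟨haA, hae⟩ | ⟨haA, hae⟩) | ⟨haA, hae⟩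
        · obtain ⟨h1, h2⟩ := hE a haA
          rw [hae] at h1 h2
          exact Or.inl ⟨rd_pair hG huv h1, fun h => hne1 (h2 _ (hevt a v w hvw h)).symm,
            fun h => hne2 (h2 _ (hevt a u w huw h)).symm⟩
        · obtain ⟨h1, h2⟩ := hE a haA
          rw [hae] at h1 h2
          exact Or.inr (Or.inl ⟨fun h => hne1 (h2 _ (hevt a u v huv h)), rd_pair hG hvw h1,
            fun h => hne3 (h2 _ (hevt a u w huw h)).symm⟩)
        · obtain ⟨h1, h2⟩ := hE a haA
          rw [hae] at h1 h2
          exact Or.inr (Or.inr ⟨fun h => hne2 (h2 _ (hevt a u v huv h)),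
            fun h => hne3 (h2 _ (hevt a v w hvw h)), rd_pair hG huw h1⟩)
      have hc3 := hc.trans_le hc2
      exact_mod_cast hc3
    have hΛ : 0 < (Fintype.card Λ : ℝ) := by
      have : Nonempty (H → Λ) := Fintype.card_pos_iff.mp hpos
      obtain ⟨a⟩ := this
      exact_mod_cast Fintype.card_pos_iff.mpr ⟨a u⟩
    have h1 := (hPr H Λ).2.2 u v w (fun x y z => if P x y z then (1 : ℝ) else 0) huv hvw huw
    have h2 : (∑ a : H → Λ, (if P (a u) (a v) (a w) then (1 : ℝ) else 0)) =
        ((univ.filter (fun a : H → Λ => P (a u) (a v) (a w))).card : ℝ) := by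
      rw [← Finset.sum_filter, Finset.sum_const, nsmul_eq_mul, mul_one]
    have h3 : (∑ x : Λ, ∑ y : Λ, ∑ z : Λ, (if P x y z then (1 : ℝ) else 0)) =
        ((univ.filter (fun p : Λ × Λ × Λ => P p.1 p.2.1 p.2.2)).card : ℝ) := by
      rw [Finset.card_filter, Nat.cast_sum, Fintype.sum_prod_type]
      refine Finset.sum_congr rfl fun x _ => ?_
      rw [Fintype.sum_prod_type]
      refine Finset.sum_congr rfl fun y _ => Finset.sum_congr rfl fun z _ => ?_
      by_cases hp : P x y z
      · rw [if_pos hp, if_pos hp, Nat.cast_one]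
      · rw [if_neg hp, if_neg hp, Nat.cast_zero]
    rw [h2, h3] at h1
    have h4 : (Fintype.card Λ : ℝ) ^ Fintype.card H = N := by
      rw [hNdef, Fintype.card_fun, Nat.cast_pow]
    rw [h4] at h1
    have h5 : (1 - z3) * (Fintype.card Λ : ℝ) ^ 3 ≤
        ((univ.filter (fun p : Λ × Λ × Λ => P p.1 p.2.1 p.2.2)).card : ℝ) := by
      have h6 : (1 - min ξ z3) * N ≤
          ((univ.filter (fun a : H → Λ => P (a u) (a v) (a w))).card : ℝ) := by
        rw [← le_div_iff₀ hNpos]
        exact htri.trans hP1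
      have h7 : (1 - z3) * N ≤ (1 - min ξ z3) * N := by
        apply mul_le_mul_of_nonneg_right _ hNpos.le
        have := min_le_right ξ z3
        linarith
      refine le_of_mul_le_mul_left ?_ hNpos
      rw [← h1]
      have h8 : 0 ≤ (Fintype.card Λ : ℝ) ^ 3 := by positivity
      have h9 := mul_le_mul_of_nonneg_left (h7.trans h6) h8
      linarith
    rcases hRc' Λ (G u v) (G v w) (G u w) (fun x y => hG.2 u v x y) (fun x y => hG.2 v w x y)
      (fun x y => hG.2 u w x y) h5 with h | h | h
    · exact htwo u v huv h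
    · exact htwo v w hvw h
    · exact htwo u w huw h

end Pool.Agent.Ham
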