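import Pool.Agent.Lib.MP_716318_co.H.Spec3

/-!
# MP_716318_co, package H: stability

Proof of `S_Stab`.
-/

set_option autoImplicit false
set_option linter.unusedSectionVars false

namespace Pool.Agent.Ham

open Finset
open scoped Classical

/-! ## Counting events -/

section Abstract

variable {H Λ : Type} [Fintype H] [DecidableEq H] [Fintype Λ] [DecidableEq Λ]

private theorem st_card (G : H → H → Λ → Λ → Prop) (hG : GSym G) (a : H → Λ) :
    2 * (univ.filter (fun e : Finset H => ∃ v w, v ≠ w ∧ e = {v, w} ∧ G v w (a v) (a w))).card ≤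
      (univ.filter (fun p : H × H => p.1 ≠ p.2 ∧ G p.1 p.2 (a p.1) (a p.2))).card := by
  have h1 := Finset.card_eq_sum_card_fiberwise
    (s := univ.filter (fun p : H × H => p.1 ≠ p.2 ∧ G p.1 p.2 (a p.1) (a p.2)))
    (t := univ.filter (fun e : Finset H => ∃ v w, v ≠ w ∧ e = {v, w} ∧ G v w (a v) (a w)))
    (f := fun p : H × H => ({p.1, p.2} : Finset H)) (by
      intro p hp
      have hp' := (Finset.mem_filter.1 (Finset.mem_coe.1 hp)).2
      exact Finset.mem_coe.2 (Finset.mem_filter.2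
        ⟨Finset.mem_univ _, p.1, p.2, hp'.1, rfl, hp'.2⟩))
  rw [h1]
  have h2 : ∀ e ∈ univ.filter (fun e : Finset H => ∃ v w, v ≠ w ∧ e = {v, w} ∧
      G v w (a v) (a w)), 2 ≤ ((univ.filter (fun p : H × H => p.1 ≠ p.2 ∧
        G p.1 p.2 (a p.1) (a p.2))).filter (fun p => ({p.1, p.2} : Finset H) = e)).card := by
    intro e he
    obtain ⟨v, w, hvw, he, hg⟩ := (Finset.mem_filter.1 he).2
    have h3 : ({(v, w), (w, v)} : Finset (H × H)) ⊆ (univ.filter (fun p : H × H => p.1 ≠ p.2 ∧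
        G p.1 p.2 (a p.1) (a p.2))).filter (fun p => ({p.1, p.2} : Finset H) = e) := by
      intro p hp
      rcases Finset.mem_insert.1 hp with h | h
      · subst h
        exact Finset.mem_filter.2 ⟨Finset.mem_filter.2 ⟨Finset.mem_univ _, hvw, hg⟩, he.symm⟩
      · rw [Finset.mem_singleton] at h
        subst h
        refine Finset.mem_filter.2 ⟨Finset.mem_filter.2 ⟨Finset.mem_univ _, hvw.symm, ?_⟩, ?_⟩
        · exact hG.1 _ _ _ _ hg
        · rw [he]
          exact Finset.pair_comm _ _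
    have h4 := Finset.card_le_card h3
    rw [Finset.card_pair] at h4
    · exact h4
    · intro h
      exact hvw (congrArg Prod.fst h)
  have h5 := Finset.sum_le_sum h2
  rw [Finset.sum_const, smul_eq_mul] at h5
  omega

private theorem st_nn (D : H → Λ → Prop) (G : H → H → Λ → Λ → Prop) (hG : GSym G) (a : H → Λ) :
    2 * Nn D G a ≤ 2 * (univ.filter (fun v : H => D v (a v))).card +
      (univ.filter (fun p : H × H => p.1 ≠ p.2 ∧ G p.1 p.2 (a p.1) (a p.2))).card := by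
  have h1 : univ.filter (fun e : Finset H => Evt D G e a) ⊆
      (univ.filter (fun v : H => D v (a v))).image (fun v => ({v} : Finset H)) ∪
      univ.filter (fun e : Finset H => ∃ v w, v ≠ w ∧ e = {v, w} ∧ G v w (a v) (a w)) := by
    intro e he
    rcases (Finset.mem_filter.1 he).2 with ⟨v, hv, hd⟩ | h
    · exact Finset.mem_union_left _ (Finset.mem_image.2
        ⟨v, Finset.mem_filter.2 ⟨Finset.mem_univ _, hd⟩, hv.symm⟩)
    · exact Finset.mem_union_right _ (Finset.mem_filter.2 ⟨Finset.mem_univ _, h⟩)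
  have h2 := (Finset.card_le_card h1).trans (Finset.card_union_le _ _)
  have h3 := Finset.card_image_le (s := univ.filter (fun v : H => D v (a v)))
    (f := fun v => ({v} : Finset H))
  have h4 := st_card G hG a
  unfold Nn
  omega

private theorem st_nnR (D : H → Λ → Prop) (G : H → H → Λ → Λ → Prop) (hG : GSym G) (a : H → Λ) :
    2 * (Nn D G a : ℝ) ≤ 2 * (∑ v : H, if D v (a v) then (1 : ℝ) else 0) +
      ∑ v : H, ∑ w : H, if v ≠ w then (if G v w (a v) (a w) then (1 : ℝ) else 0) else 0 := by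
  have h1 := st_nn D G hG a
  have h2 : ((univ.filter (fun v : H => D v (a v))).card : ℝ) =
      ∑ v : H, if D v (a v) then (1 : ℝ) else 0 := by
    rw [Finset.sum_boole]
  have h3 : ((univ.filter (fun p : H × H => p.1 ≠ p.2 ∧ G p.1 p.2 (a p.1) (a p.2))).card : ℝ) =
      ∑ v : H, ∑ w : H, if v ≠ w then (if G v w (a v) (a w) then (1 : ℝ) else 0) else 0 := by
    rw [← Finset.sum_boole, ← Finset.univ_product_univ, Finset.sum_product]
    refine Finset.sum_congr rfl fun v _ => Finset.sum_congr rfl fun w _ => ?_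
    by_cases h : v ≠ w
    · by_cases h' : G v w (a v) (a w)
      · rw [if_pos ⟨h, h'⟩, if_pos h, if_pos h']
      · rw [if_neg (fun h'' => h' h''.2), if_pos h, if_neg h']
    · rw [if_neg (fun h'' => h h''.1), if_neg h]
  rw [← h2, ← h3]
  exact_mod_cast h1

/-- The number of `x` with `D v x`. -/
private noncomputable def dd (D : H → Λ → Prop) (v : H) : ℝ := ∑ x, if D v x then (1 : ℝ) else 0

/-- The number of pairs with `G v w x y`. -/
private noncomputable def gg (G : H → H → Λ → Λ → Prop) (v w : H) : ℝ :=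
  ∑ x, ∑ y, if G v w x y then (1 : ℝ) else 0

private theorem st_gg0 (G : H → H → Λ → Λ → Prop) (v w : H) : 0 ≤ gg G v w := by
  unfold gg
  refine Finset.sum_nonneg fun x _ => Finset.sum_nonneg fun y _ => ?_
  split_ifs
  · exact zero_le_one
  · exact le_refl _

private theorem st_A (hPr : S_Pr) (D : H → Λ → Prop) (G : H → H → Λ → Λ → Prop) (hG : GSym G)
    (T : ℝ) (hT : 0 ≤ T) (hT' : T ≤ Fintype.card Λ) :
    2 * (T * (Fintype.card Λ : ℝ) ^ 3 * ∑ a : H → Λ, (Nn D G a : ℝ)) ≤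
      (Fintype.card Λ : ℝ) ^ 2 * (Fintype.card Λ : ℝ) ^ Fintype.card H *
      (2 * T * ∑ v, dd D v + ∑ v, ∑ w, if v ≠ w then gg G v w else 0) := by
  have hL : (0 : ℝ) ≤ Fintype.card Λ := Nat.cast_nonneg _
  set L : ℝ := (Fintype.card Λ : ℝ) with hLd
  set M : ℝ := L ^ Fintype.card H with hM
  have hM0 : 0 ≤ M := pow_nonneg hL _
  have h1 : 2 * ∑ a : H → Λ, (Nn D G a : ℝ) ≤
      2 * (∑ v : H, ∑ a : H → Λ, if D v (a v) then (1 : ℝ) else 0) +
      ∑ v : H, ∑ w : H, ∑ a : H → Λ,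
        if v ≠ w then (if G v w (a v) (a w) then (1 : ℝ) else 0) else 0 := by
    have h2 := Finset.sum_le_sum (fun (a : H → Λ) (_ : a ∈ (univ : Finset (H → Λ))) =>
      st_nnR D G hG a)
    rw [← Finset.mul_sum, Finset.sum_add_distrib, ← Finset.mul_sum] at h2
    refine h2.trans (le_of_eq ?_)
    have e1 : (∑ a : H → Λ, ∑ v : H, if D v (a v) then (1 : ℝ) else 0) =
        ∑ v : H, ∑ a : H → Λ, if D v (a v) then (1 : ℝ) else 0 := Finset.sum_comm
    have e2 : (∑ a : H → Λ, ∑ v : H, ∑ w : H,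
        if v ≠ w then (if G v w (a v) (a w) then (1 : ℝ) else 0) else 0) =
        ∑ v : H, ∑ w : H, ∑ a : H → Λ,
        if v ≠ w then (if G v w (a v) (a w) then (1 : ℝ) else 0) else 0 := by
      rw [Finset.sum_comm]
      refine Finset.sum_congr rfl fun v _ => ?_
      rw [Finset.sum_comm]
    rw [e1, e2]
  have h3 : ∀ v : H, L * (∑ a : H → Λ, if D v (a v) then (1 : ℝ) else 0) = M * dd D v := by
    intro v
    exact (hPr H Λ).1 v (fun x => if D v x then (1 : ℝ) else 0)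
  have h4 : ∀ v w : H, L ^ 2 * (∑ a : H → Λ,
      if v ≠ w then (if G v w (a v) (a w) then (1 : ℝ) else 0) else 0) =
      M * (if v ≠ w then gg G v w else 0) := by
    intro v w
    by_cases h : v ≠ w
    · simp only [if_pos h]
      exact (hPr H Λ).2.1 v w (fun x y => if G v w x y then (1 : ℝ) else 0) h
    · simp only [if_neg h, Finset.sum_const_zero, mul_zero]
  have h5 : L * (∑ v : H, ∑ a : H → Λ, if D v (a v) then (1 : ℝ) else 0) = M * ∑ v, dd D v := by
    rw [Finset.mul_sum, Finset.mul_sum]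
    exact Finset.sum_congr rfl fun v _ => h3 v
  have h6 : L ^ 2 * (∑ v : H, ∑ w : H, ∑ a : H → Λ,
      if v ≠ w then (if G v w (a v) (a w) then (1 : ℝ) else 0) else 0) =
      M * ∑ v, ∑ w, (if v ≠ w then gg G v w else 0) := by
    rw [Finset.mul_sum, Finset.mul_sum]
    refine Finset.sum_congr rfl fun v _ => ?_
    rw [Finset.mul_sum, Finset.mul_sum]
    exact Finset.sum_congr rfl fun w _ => h4 v w
  set SD : ℝ := ∑ v : H, ∑ a : H → Λ, if D v (a v) then (1 : ℝ) else 0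
  set SG : ℝ := ∑ v : H, ∑ w : H, ∑ a : H → Λ,
      if v ≠ w then (if G v w (a v) (a w) then (1 : ℝ) else 0) else 0
  set NN : ℝ := ∑ a : H → Λ, (Nn D G a : ℝ)
  have h7 : 0 ≤ ∑ v, ∑ w, (if v ≠ w then gg G v w else 0) := by
    refine Finset.sum_nonneg fun v _ => Finset.sum_nonneg fun w _ => ?_
    split_ifs
    · exact st_gg0 G v w
    · exact le_refl _
  calc 2 * (T * L ^ 3 * NN) = T * L ^ 3 * (2 * NN) := by ring
    _ ≤ T * L ^ 3 * (2 * SD + SG) := mul_le_mul_of_nonneg_left h1 (by positivity)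
    _ = 2 * T * L ^ 2 * (L * SD) + T * L * (L ^ 2 * SG) := by ring
    _ = L ^ 2 * M * (2 * T * ∑ v, dd D v) +
        T * L * (M * ∑ v, ∑ w, (if v ≠ w then gg G v w else 0)) := by rw [h5, h6]; ring
    _ ≤ L ^ 2 * M * (2 * T * ∑ v, dd D v) +
        L * L * (M * ∑ v, ∑ w, (if v ≠ w then gg G v w else 0)) := by
        have : T * L ≤ L * L := mul_le_mul_of_nonneg_right hT' hL
        have := mul_le_mul_of_nonneg_right this (mul_nonneg hM0 h7)
        linarith
    _ = _ := by ring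

private theorem st_B (hPr : S_Pr) (D : H → Λ → Prop) (G : H → H → Λ → Λ → Prop)
    (T : ℝ) (hT : 0 ≤ T) (hT' : T ≤ Fintype.card Λ) (v : H) :
    T * (Fintype.card Λ : ℝ) ^ 3 *
      (univ.filter (fun a : H → Λ => D v (a v) ∨ ∃ w, w ≠ v ∧ G v w (a v) (a w))).card ≤
      (Fintype.card Λ : ℝ) ^ 2 * (Fintype.card Λ : ℝ) ^ Fintype.card H *
      (T * dd D v + ∑ w, if v ≠ w then gg G v w else 0) := by
  have hL : (0 : ℝ) ≤ Fintype.card Λ := Nat.cast_nonneg _
  set L : ℝ := (Fintype.card Λ : ℝ) with hLd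
  set M : ℝ := L ^ Fintype.card H with hM
  have hM0 : 0 ≤ M := pow_nonneg hL _
  set NC : ℝ := ((univ.filter (fun a : H → Λ =>
    D v (a v) ∨ ∃ w, w ≠ v ∧ G v w (a v) (a w))).card : ℝ) with hNC
  have h1 : NC ≤ (∑ a : H → Λ, if D v (a v) then (1 : ℝ) else 0) +
      ∑ w : H, ∑ a : H → Λ,
        if v ≠ w then (if G v w (a v) (a w) then (1 : ℝ) else 0) else 0 := by
    rw [Finset.sum_comm (s := (univ : Finset H)), ← Finset.sum_add_distrib, hNC,
      ← Finset.sum_boole]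
    refine Finset.sum_le_sum fun a _ => ?_
    have h0 : ∀ w : H, (0 : ℝ) ≤
        (if v ≠ w then (if G v w (a v) (a w) then (1 : ℝ) else 0) else 0) := by
      intro w
      split_ifs <;> norm_num
    by_cases hd : D v (a v)
    · rw [if_pos (Or.inl hd), if_pos hd]
      have := Finset.sum_nonneg (fun w (_ : w ∈ (univ : Finset H)) => h0 w)
      linarith
    · by_cases hw : ∃ w, w ≠ v ∧ G v w (a v) (a w)
      · rw [if_pos (Or.inr hw), if_neg hd]
        obtain ⟨w, hwv, hg⟩ := hw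
        have := Finset.single_le_sum (fun w (_ : w ∈ (univ : Finset H)) => h0 w)
          (Finset.mem_univ w)
        rw [if_pos hwv.symm, if_pos hg] at this
        linarith
      · rw [if_neg (fun h => h.elim hd hw), if_neg hd]
        have := Finset.sum_nonneg (fun w (_ : w ∈ (univ : Finset H)) => h0 w)
        linarith
  have h3 : L * (∑ a : H → Λ, if D v (a v) then (1 : ℝ) else 0) = M * dd D v :=
    (hPr H Λ).1 v (fun x => if D v x then (1 : ℝ) else 0)
  have h4 : ∀ w : H, L ^ 2 * (∑ a : H → Λ,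
      if v ≠ w then (if G v w (a v) (a w) then (1 : ℝ) else 0) else 0) =
      M * (if v ≠ w then gg G v w else 0) := by
    intro w
    by_cases h : v ≠ w
    · simp only [if_pos h]
      exact (hPr H Λ).2.1 v w (fun x y => if G v w x y then (1 : ℝ) else 0) h
    · simp only [if_neg h, Finset.sum_const_zero, mul_zero]
  have h6 : L ^ 2 * (∑ w : H, ∑ a : H → Λ,
      if v ≠ w then (if G v w (a v) (a w) then (1 : ℝ) else 0) else 0) =
      M * ∑ w, (if v ≠ w then gg G v w else 0) := by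
    rw [Finset.mul_sum, Finset.mul_sum]
    exact Finset.sum_congr rfl fun w _ => h4 w
  set SD : ℝ := ∑ a : H → Λ, if D v (a v) then (1 : ℝ) else 0
  set SG : ℝ := ∑ w : H, ∑ a : H → Λ,
      if v ≠ w then (if G v w (a v) (a w) then (1 : ℝ) else 0) else 0
  have h7 : 0 ≤ ∑ w, (if v ≠ w then gg G v w else 0) := by
    refine Finset.sum_nonneg fun w _ => ?_
    split_ifs
    · exact st_gg0 G v w
    · exact le_refl _
  calc T * L ^ 3 * NC ≤ T * L ^ 3 * (SD + SG) := mul_le_mul_of_nonneg_left h1 (by positivity)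
    _ = T * L ^ 2 * (L * SD) + T * L * (L ^ 2 * SG) := by ring
    _ = L ^ 2 * M * (T * dd D v) +
        T * L * (M * ∑ w, (if v ≠ w then gg G v w else 0)) := by rw [h3, h6]; ring
    _ ≤ L ^ 2 * M * (T * dd D v) +
        L * L * (M * ∑ w, (if v ≠ w then gg G v w else 0)) := by
        have : T * L ≤ L * L := mul_le_mul_of_nonneg_right hT' hL
        have := mul_le_mul_of_nonneg_right this (mul_nonneg hM0 h7)
        linarith
    _ = _ := by ring

private theorem st_nn0 (D : H → Λ → Prop) (G : H → H → Λ → Λ → Prop) (a : H → Λ)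
    (h : Nn D G a = 0) : (∀ v, ¬ D v (a v)) ∧ ∀ v w, v ≠ w → ¬ G v w (a v) (a w) := by
  unfold Nn at h
  rw [Finset.card_eq_zero, Finset.filter_eq_empty_iff] at h
  constructor
  · intro v hv
    exact h (Finset.mem_univ ({v} : Finset H)) (Or.inl ⟨v, rfl, hv⟩)
  · intro v w hvw hg
    exact h (Finset.mem_univ ({v, w} : Finset H)) (Or.inr ⟨v, w, hvw, rfl, hg⟩)

private theorem st_ne1 (D : H → Λ → Prop) (G : H → H → Λ → Λ → Prop) :
    ((univ.filter (fun a : H → Λ => Nn D G a ≠ 1)).card : ℝ) ≤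
      (∑ a : H → Λ, (Nn D G a : ℝ)) - Fintype.card (H → Λ) +
      2 * (univ.filter (fun a : H → Λ => Nn D G a = 0)).card := by
  have h1 : (Fintype.card (H → Λ) : ℝ) = ∑ _a : H → Λ, (1 : ℝ) := by
    rw [Finset.sum_const, Finset.card_univ, nsmul_eq_mul, mul_one]
  rw [h1, ← Finset.sum_boole, ← Finset.sum_boole, Finset.mul_sum, ← Finset.sum_sub_distrib,
    ← Finset.sum_add_distrib]
  refine Finset.sum_le_sum fun a _ => ?_
  rcases Nat.lt_trichotomy (Nn D G a) 1 with h | h | h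
  · have h0 : Nn D G a = 0 := by omega
    rw [if_pos (by omega), if_pos h0, h0]
    norm_num
  · rw [if_neg (by omega), if_neg (by omega), h]
    norm_num
  · rw [if_pos (by omega), if_neg (by omega)]
    have : (2 : ℝ) ≤ Nn D G a := by exact_mod_cast h
    linarith

end Abstract

/-! ## The concrete events -/

private def Dv {V : Type} [Fintype V] [DecidableEq V] (F : Finset (Finset V)) (J : Finset V)
    (θ : ℝ) (v : {v // v ∈ J}) (x : {x // x ∉ J}) : Prop := Dd F J θ v.1 x.1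

private def Gv {V : Type} [DecidableEq V] (F : Finset (Finset V)) (J : Finset V)
    (v w : {v // v ∈ J}) (x y : {x // x ∉ J}) : Prop := ({v.1, x.1, w.1, y.1} : Finset V) ∈ F

private theorem st_GSym {V : Type} [DecidableEq V] (F : Finset (Finset V)) (J : Finset V) :
    GSym (Gv F J) := by
  constructor
  · intro v w x y h
    unfold Gv at h ⊢
    have : ({w.1, y.1, v.1, x.1} : Finset V) = {v.1, x.1, w.1, y.1} := by
      ext t
      simp only [Finset.mem_insert, Finset.mem_singleton]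
      tauto
    rw [this]
    exact h
  · intro v w x y h
    unfold Gv at h ⊢
    have : ({v.1, y.1, w.1, x.1} : Finset V) = {v.1, x.1, w.1, y.1} := by
      ext t
      simp only [Finset.mem_insert, Finset.mem_singleton]
      tauto
    rw [this]
    exact h

private theorem st_sub {V : Type} [Fintype V] [DecidableEq V] (J : Finset V) (f : V → ℝ) :
    (∑ x : {x // x ∉ J}, f x.1) = ∑ x : V, if x ∉ J then f x else 0 := by
  rw [← Finset.sum_filter]
  exact (Finset.sum_subtype (univ.filter (fun x => x ∉ J)) (by simp) f).symm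

private theorem st_dd {V : Type} [Fintype V] [DecidableEq V] (F : Finset (Finset V))
    (J : Finset V) (θ : ℝ) (v : {v // v ∈ J}) : dd (Dv F J θ) v = nD F J θ v.1 := by
  unfold dd nD Dv
  rw [← Finset.sum_boole, st_sub J (fun x => if Dd F J θ v.1 x then (1 : ℝ) else 0)]
  refine Finset.sum_congr rfl fun x _ => ?_
  by_cases h1 : x ∉ J
  · by_cases h2 : Dd F J θ v.1 x
    · rw [if_pos h1, if_pos h2, if_pos ⟨h1, h2⟩]
    · rw [if_pos h1, if_neg h2, if_neg (fun h => h2 h.2)]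
  · rw [if_neg h1, if_neg (fun h => h1 h.1)]

private theorem st_gg {V : Type} [Fintype V] [DecidableEq V] (F : Finset (Finset V))
    (J : Finset V) (v w : {v // v ∈ J}) : gg (Gv F J) v w = nE F J v.1 w.1 := by
  let I : V → V → ℝ := fun x y => if ({v.1, x, w.1, y} : Finset V) ∈ F then (1 : ℝ) else 0
  have hI : ∀ x y, I x y = if ({v.1, x, w.1, y} : Finset V) ∈ F then (1 : ℝ) else 0 :=
    fun x y => rfl
  have e1 : gg (Gv F J) v w = ∑ x : {x // x ∉ J}, ∑ y : {x // x ∉ J}, I x.1 y.1 := by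
    unfold gg Gv
    refine Finset.sum_congr rfl fun x _ => Finset.sum_congr rfl fun y _ => ?_
    rw [hI]
    by_cases h : ({v.1, x.1, w.1, y.1} : Finset V) ∈ F
    · rw [if_pos h, if_pos h]
    · rw [if_neg h, if_neg h]
  rw [e1, st_sub J (fun x => ∑ y : {x // x ∉ J}, I x y.1)]
  unfold nE
  rw [← Finset.sum_boole, ← Finset.univ_product_univ, Finset.sum_product]
  refine Finset.sum_congr rfl fun x _ => ?_
  rw [st_sub J (fun y => I x y)]
  by_cases h1 : x ∉ J
  · rw [if_pos h1]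
    refine Finset.sum_congr rfl fun y _ => ?_
    by_cases h2 : y ∉ J
    · rw [if_pos h2, hI]
      by_cases h3 : ({v.1, x, w.1, y} : Finset V) ∈ F
      · rw [if_pos h3, if_pos ⟨h1, h2, h3⟩]
      · rw [if_neg h3, if_neg (fun h => h3 h.2.2)]
    · rw [if_neg h2, if_neg (fun h => h2 h.2.1)]
  · rw [if_neg h1]
    symm
    refine Finset.sum_eq_zero fun y _ => ?_
    rw [if_neg (fun h => h1 h.1)]

private theorem st_sumJ {V : Type} [Fintype V] [DecidableEq V] (J : Finset V) (f : V → ℝ) :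
    (∑ v : {v // v ∈ J}, f v.1) = ∑ v ∈ J, f v := Finset.sum_coe_sort J f

private theorem st_sumE {V : Type} [Fintype V] [DecidableEq V] (J : Finset V) (v : V)
    (hv : v ∈ J) (f : V → ℝ) :
    (∑ w : {v // v ∈ J}, if (⟨v, hv⟩ : {v // v ∈ J}) ≠ w then f w.1 else 0) =
      ∑ w ∈ J.erase v, f w := by
  have h1 : ∀ w : {v // v ∈ J}, (if (⟨v, hv⟩ : {v // v ∈ J}) ≠ w then f w.1 else 0) =
      (fun w : V => if v ≠ w then f w else 0) w.1 := by
    intro w
    by_cases h : v = w.1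
    · have h' : (⟨v, hv⟩ : {v // v ∈ J}) = w := Subtype.ext h
      rw [if_neg (fun h2 => h2 h')]
      exact (if_neg (fun h2 => h2 h)).symm
    · have h' : (⟨v, hv⟩ : {v // v ∈ J}) ≠ w := fun h2 => h (congrArg Subtype.val h2)
      rw [if_pos h']
      exact (if_pos h).symm
  rw [Finset.sum_congr rfl (fun w _ => h1 w), st_sumJ J (fun w : V => if v ≠ w then f w else 0),
    ← Finset.sum_filter]
  congr 1
  ext w
  simp only [Finset.mem_filter, Finset.mem_erase]
  constructor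
  · rintro ⟨h2, h3⟩
    exact ⟨fun h => h3 h.symm, h2⟩
  · rintro ⟨h2, h3⟩
    exact ⟨h3, fun h => h2 h.symm⟩

private theorem st_Z0 {V : Type} [Fintype V] [DecidableEq V] (F : Finset (Finset V))
    (J : Finset V) (θ : ℝ) (a : {v // v ∈ J} → {x // x ∉ J}) (h : Nn (Dv F J θ) (Gv F J) a = 0) :
    Z0 F J θ a := st_nn0 (Dv F J θ) (Gv F J) a h

private theorem st_off {V : Type} [Fintype V] [DecidableEq V] (F : Finset (Finset V)) (v : V) :
    (off F {v}).card + dg F {v} = F.card := by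
  unfold off dg
  rw [← Finset.card_filter_add_card_filter_not (s := F) (fun A => Disjoint A {v})]
  congr 2
  ext A
  simp only [Finset.mem_filter, Finset.disjoint_singleton_right, Finset.singleton_subset_iff,
    not_not]

/-- The sizes. -/
private theorem st_size (δ εm ε n h c : ℝ) (hδ : 0 < δ) (hδ1 : δ ≤ 1 / 500) (hεm : 0 < εm)
    (hε : εm ≤ ε) (hn : (2 / εm + 2) / δ ≤ n) (hh : h * (ε * n ^ 2) ≤ 4 * c)
    (hc : 2 * c ≤ n ^ 2) (hh0 : 0 ≤ h) :
    0 < (1 - δ) * n - 1 ∧ (1 - δ) * n - 1 ≤ n - h ∧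
      (1 - 2 * δ) * n ^ 2 ≤ ((1 - δ) * n - 1) * (n - h) := by
  have h1 : 0 < 2 / εm := by positivity
  have h2 : 2 / εm + 2 ≤ n * δ := (div_le_iff₀ hδ).1 hn
  have hn0 : 0 < n := by
    have : 0 < (2 / εm + 2) / δ := by positivity
    linarith
  have hn2 : 0 < n ^ 2 := by positivity
  have h3 : h ≤ 2 / εm := by
    rw [le_div_iff₀ hεm]
    have h4 : h * (ε * n ^ 2) ≤ 2 * n ^ 2 := by linarith
    have h5 : h * εm * n ^ 2 ≤ h * (ε * n ^ 2) := by
      have : h * εm ≤ h * ε := mul_le_mul_of_nonneg_left hε hh0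
      have := mul_le_mul_of_nonneg_right this hn2.le
      linarith
    have h6 : h * εm * n ^ 2 ≤ 2 * n ^ 2 := h5.trans h4
    exact le_of_mul_le_mul_right h6 hn2
  have h7 : n * δ ≤ n / 500 := by
    have := mul_le_mul_of_nonneg_left hδ1 hn0.le
    linarith
  refine ⟨by linarith, by linarith, ?_⟩
  have h8 : 0 ≤ h * (n * δ + 1) := by positivity
  have h9 : (h + 1) * n ≤ (n * δ) * n := mul_le_mul_of_nonneg_right (by linarith) hn0.le
  nlinarith

private theorem st_core (hCost : S_Cost) (hPr : S_Pr) {V : Type} [Fintype V] [DecidableEq V]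
    (F : Finset (Finset V)) (hF : U4 F) (J : Finset V) (θ δ : ℝ) (hθ : 0 < θ - 1)
    (hθ' : θ - 1 ≤ Fintype.card {x // x ∉ J}) (hδ : 0 < δ) (hδ1 : δ ≤ 1 / 500)
    (h2 : 2 * F.card ≤ (Fintype.card V) ^ 2) (hn0 : (0 : ℝ) < Fintype.card V)
    (hp : (1 - 2 * δ) * (Fintype.card V : ℝ) ^ 2 ≤ (θ - 1) * Fintype.card {x // x ∉ J}) :
    (∑ a : {v // v ∈ J} → {x // x ∉ J}, (Nn (Dv F J θ) (Gv F J) a : ℝ)) ≤
      (1 + 4 * δ) * Fintype.card ({v // v ∈ J} → {x // x ∉ J}) := by
  have hA := st_A hPr (Dv F J θ) (Gv F J) (st_GSym F J) (θ - 1) hθ.le hθ'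
  have hC := (hCost V F J θ hF (by linarith)).2
  have e1 : (∑ v, dd (Dv F J θ) v) = ∑ v ∈ J, (nD F J θ v : ℝ) := by
    rw [← st_sumJ J (fun v => (nD F J θ v : ℝ))]
    exact Finset.sum_congr rfl fun v _ => st_dd F J θ v
  have e2 : (∑ v, ∑ w, if v ≠ w then gg (Gv F J) v w else 0) =
      ∑ v ∈ J, ∑ w ∈ J.erase v, (nE F J v w : ℝ) := by
    rw [← st_sumJ J (fun v => ∑ w ∈ J.erase v, (nE F J v w : ℝ))]
    refine Finset.sum_congr rfl fun v _ => ?_
    rw [← st_sumE J v.1 v.2 (fun w => (nE F J v.1 w : ℝ))]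
    refine Finset.sum_congr rfl fun w _ => ?_
    rw [st_gg]
  rw [e1, e2] at hA
  have hL : (0 : ℝ) < Fintype.card {x // x ∉ J} := by linarith
  have hMe : (Fintype.card ({v // v ∈ J} → {x // x ∉ J}) : ℝ) =
      (Fintype.card {x // x ∉ J} : ℝ) ^ Fintype.card {v // v ∈ J} := by
    rw [Fintype.card_fun, Nat.cast_pow]
  rw [hMe]
  set L : ℝ := (Fintype.card {x // x ∉ J} : ℝ)
  set M : ℝ := L ^ Fintype.card {v // v ∈ J}
  have hM : 0 < M := by positivity
  set N : ℝ := ∑ a : {v // v ∈ J} → {x // x ∉ J}, (Nn (Dv F J θ) (Gv F J) a : ℝ)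
  have h2' : 2 * (F.card : ℝ) ≤ (Fintype.card V : ℝ) ^ 2 := by exact_mod_cast h2
  set n : ℝ := (Fintype.card V : ℝ)
  have h3 : 2 * ((θ - 1) * L ^ 3 * N) ≤ L ^ 2 * M * (2 * n ^ 2) := by
    refine hA.trans (mul_le_mul_of_nonneg_left (by linarith) (by positivity))
  have h4 : L ^ 2 * ((θ - 1) * L * N) ≤ L ^ 2 * (M * n ^ 2) := by nlinarith
  have h5 : (θ - 1) * L * N ≤ M * n ^ 2 := le_of_mul_le_mul_left h4 (by positivity)
  have hN : 0 ≤ N := Finset.sum_nonneg fun a _ => Nat.cast_nonneg _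
  have hn' : 0 < n ^ 2 := by positivity
  have h6 : (1 - 2 * δ) * n ^ 2 * N ≤ M * n ^ 2 :=
    (mul_le_mul_of_nonneg_right hp hN).trans h5
  have h7 : (1 - 2 * δ) * N ≤ M := by
    have : ((1 - 2 * δ) * N) * n ^ 2 ≤ M * n ^ 2 := by linarith
    exact le_of_mul_le_mul_right this hn'
  have h8 : (1 + 4 * δ) * ((1 - 2 * δ) * N) ≤ (1 + 4 * δ) * M :=
    mul_le_mul_of_nonneg_left h7 (by linarith)
  have h9 : 1 ≤ (1 + 4 * δ) * (1 - 2 * δ) := by nlinarith
  have h10 := mul_le_mul_of_nonneg_right h9 hN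
  linarith

private theorem st_coreB (hCost : S_Cost) (hPr : S_Pr) {V : Type} [Fintype V] [DecidableEq V]
    (F : Finset (Finset V)) (hF : U4 F) (J : Finset V) (θ ξ : ℝ) (hθ : 0 < θ - 1)
    (hθ' : θ - 1 ≤ Fintype.card {x // x ∉ J}) (v : {v // v ∈ J})
    (hv : (1 - ξ) * Fintype.card ({v // v ∈ J} → {x // x ∉ J}) ≤
      (univ.filter (fun a : {v // v ∈ J} → {x // x ∉ J} =>
        Dv F J θ v (a v) ∨ ∃ w, w ≠ v ∧ Gv F J v w (a v) (a w))).card) :
    (1 - ξ) * ((θ - 1) * Fintype.card {x // x ∉ J}) ≤ 2 * dg F {v.1} := by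
  have hB := st_B hPr (Dv F J θ) (Gv F J) (θ - 1) hθ.le hθ' v
  have hC := (hCost V F J θ hF (by linarith)).1 v.1 v.2
  have e2 : (∑ w, if v ≠ w then gg (Gv F J) v w else 0) =
      ∑ w ∈ J.erase v.1, (nE F J v.1 w : ℝ) := by
    rw [← st_sumE J v.1 v.2 (fun w => (nE F J v.1 w : ℝ))]
    refine Finset.sum_congr rfl fun w _ => ?_
    rw [st_gg]
  rw [e2, st_dd] at hB
  have hL : (0 : ℝ) < Fintype.card {x // x ∉ J} := by linarith
  have hMe : (Fintype.card ({v // v ∈ J} → {x // x ∉ J}) : ℝ) =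
      (Fintype.card {x // x ∉ J} : ℝ) ^ Fintype.card {v // v ∈ J} := by
    rw [Fintype.card_fun, Nat.cast_pow]
  rw [hMe] at hv
  set L : ℝ := (Fintype.card {x // x ∉ J} : ℝ)
  set M : ℝ := L ^ Fintype.card {v // v ∈ J}
  have hM : 0 < M := by positivity
  have h1 : (θ - 1) * L ^ 3 * ((1 - ξ) * M) ≤ L ^ 2 * M * (2 * dg F {v.1}) :=
    (mul_le_mul_of_nonneg_left hv (by positivity)).trans
      (hB.trans (mul_le_mul_of_nonneg_left hC (by positivity)))
  have h2 : (L ^ 2 * M) * ((1 - ξ) * ((θ - 1) * L)) ≤ (L ^ 2 * M) * (2 * dg F {v.1}) := by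
    have : (θ - 1) * L ^ 3 * ((1 - ξ) * M) = (L ^ 2 * M) * ((1 - ξ) * ((θ - 1) * L)) := by ring
    linarith
  exact le_of_mul_le_mul_left h2 (by positivity)

theorem tStab : S_Gt → S_Cost → S_Pr → S_Sum → S_Rd → S_Stab := by
  intro hGt hCost hPr hSum hRd ξ0 hξ0
  set ξ : ℝ := min ξ0 1 with hξd
  have hξ : 0 < ξ := lt_min hξ0 one_pos
  have hξ1 : ξ ≤ 1 := min_le_right _ _
  have hξξ : ξ ≤ ξ0 := min_le_left _ _
  obtain ⟨ζ0, hζ0, hRd'⟩ := hRd (ξ / 4) (by linarith)
  set ζ : ℝ := min ζ0 1 with hζd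
  have hζ : 0 < ζ := lt_min hζ0 one_pos
  have hζ1 : ζ ≤ 1 := min_le_right _ _
  have hζζ : ζ ≤ ζ0 := min_le_left _ _
  set δ : ℝ := min (ζ / 16) (min (ξ / 100) (1 / 500)) with hδd
  have hδ : 0 < δ := lt_min (by linarith) (lt_min (by linarith) (by norm_num))
  have hδ1 : δ ≤ ζ / 16 := min_le_left _ _
  have hδ2 : δ ≤ ξ / 100 := (min_le_right _ _).trans (min_le_left _ _)
  have hδ3 : δ ≤ 1 / 500 := (min_le_right _ _).trans (min_le_right _ _)
  obtain ⟨εm, hεm, n0, hG⟩ := hGt (ζ / 8) δ 1 (by linarith) (by linarith) hδ hδ3 one_pos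
  refine ⟨max n0 ⌈(2 / εm + 2) / δ⌉₊, ?_⟩
  intro V _ _ F hF hn h2 hacc
  obtain ⟨ε, hε, hε1, hZ⟩ := hG V F hF (le_trans (le_max_left _ _) hn) h2 hacc
  have hnR : (2 / εm + 2) / δ ≤ (Fintype.card V : ℝ) :=
    (Nat.le_ceil _).trans (by exact_mod_cast le_trans (le_max_right _ _) hn)
  have hn0 : (0 : ℝ) < Fintype.card V := lt_of_lt_of_le (by positivity) hnR
  have hs3 := (hSum V F hF).2.2 ε
  set J : Finset V := He F ε with hJ
  have h2R : 2 * (F.card : ℝ) ≤ (Fintype.card V : ℝ) ^ 2 := by exact_mod_cast h2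
  obtain ⟨hs1, hs2, hs4⟩ := st_size δ εm ε (Fintype.card V) J.card F.card hδ hδ3 hεm hε hnR
    hs3 h2R (Nat.cast_nonneg _)
  have hcard : (Fintype.card {x // x ∉ J} : ℝ) = Fintype.card V - J.card := by
    have h1 : Fintype.card {x // x ∉ J} = Fintype.card V - J.card := by
      rw [Fintype.card_subtype, Finset.filter_not]
      rw [Finset.filter_mem_eq_inter, Finset.univ_inter, ← Finset.compl_eq_univ_sdiff,
        Finset.card_compl]
    rw [h1, Nat.cast_sub (Finset.card_le_univ J)]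
  rw [← hcard] at hs2 hs4
  set θ : ℝ := (1 - δ) * Fintype.card V with hθ
  have hcore := st_core hCost hPr F hF J θ δ hs1 hs2 hδ hδ3 h2 hn0 hs4
  have hMe : (Fintype.card ({v // v ∈ J} → {x // x ∉ J}) : ℝ) =
      (Fintype.card {x // x ∉ J} : ℝ) ^ Fintype.card {v // v ∈ J} := by
    rw [Fintype.card_fun, Nat.cast_pow]
  rw [← hMe] at hZ
  have hne1 := st_ne1 (Dv F J θ) (Gv F J)
  have h0 : ((univ.filter (fun a : {v // v ∈ J} → {x // x ∉ J} =>
      Nn (Dv F J θ) (Gv F J) a = 0)).card : ℝ) ≤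
      ζ / 8 * Fintype.card ({v // v ∈ J} → {x // x ∉ J}) := by
    refine le_trans ?_ hZ.le
    have : univ.filter (fun a : {v // v ∈ J} → {x // x ∉ J} =>
      Nn (Dv F J θ) (Gv F J) a = 0) ⊆ univ.filter (fun a => Z0 F J θ a) := by
      intro a ha
      exact Finset.mem_filter.2 ⟨Finset.mem_univ _, st_Z0 F J θ a (Finset.mem_filter.1 ha).2⟩
    exact_mod_cast Finset.card_le_card this
  have hM0 : (0 : ℝ) ≤ Fintype.card ({v // v ∈ J} → {x // x ∉ J}) := Nat.cast_nonneg _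
  have hfin : ((univ.filter (fun a : {v // v ∈ J} → {x // x ∉ J} =>
      Nn (Dv F J θ) (Gv F J) a ≠ 1)).card : ℝ) ≤
      ζ0 * Fintype.card ({v // v ∈ J} → {x // x ∉ J}) := by
    have h3 := mul_le_mul_of_nonneg_right hζζ hM0
    have h4 := mul_le_mul_of_nonneg_right hδ1 hM0
    linarith
  obtain ⟨v, hv⟩ := hRd' {v // v ∈ J} {x // x ∉ J} (Dv F J θ) (Gv F J) (st_GSym F J) hfin
  refine ⟨v.1, ?_⟩
  have hB := st_coreB hCost hPr F hF J θ (ξ / 4) hs1 hs2 v hv
  have hoff : ((off F {v.1}).card : ℝ) + dg F {v.1} = F.card := by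
    exact_mod_cast st_off F v.1
  have hn2 : 0 < (Fintype.card V : ℝ) ^ 2 := by positivity
  have h5 : (1 - ξ / 4) * ((1 - 2 * δ) * (Fintype.card V : ℝ) ^ 2) ≤ 2 * dg F {v.1} :=
    (mul_le_mul_of_nonneg_left hs4 (by linarith)).trans hB
  have h6 : (1 - ξ) ≤ (1 - ξ / 4) * (1 - 2 * δ) := by nlinarith
  have h7 := mul_le_mul_of_nonneg_right h6 hn2.le
  have h8 := mul_le_mul_of_nonneg_right hξξ hn2.le
  nlinarith

end Pool.Agent.Ham
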