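import Pool.Agent.Lib.MP_716318_co.H.Spec4

/-!
# MP_716318_co, package H: the weighting lemma
-/

set_option autoImplicit false

namespace Pool.Agent.Ham

open Finset
open scoped Classical

private theorem om_nn {V : Type} [DecidableEq V] (Tn : Finset V) (y : V → V) (A : Finset V)
    (x : V) : 0 ≤ om Tn y A x := by
  unfold om
  split_ifs <;> positivity

private theorem rcv_nn {V : Type} [DecidableEq V] (F : Finset (Finset V)) (Tn : Finset V)
    (y : V → V) (x : V) : 0 ≤ rcv F Tn y x := by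
  unfold rcv
  exact Finset.sum_nonneg (fun A _ => om_nn Tn y A x)

private theorem mass {V : Type} [DecidableEq V] (Tn : Finset V) (y : V → V) (A B : Finset V)
    (hB : B.card = 3) :
    ∑ x ∈ B, om Tn y A x ≤ 1 - (if Cl Tn y A = ∅ then 1 / 2 else 0) := by
  by_cases h0 : Cl Tn y A = ∅
  · rw [if_pos h0]
    have h1 : ∀ x ∈ B, om Tn y A x = 1 / 6 := by
      intro x _
      unfold om
      rw [h0, Finset.card_empty, if_pos rfl]
    rw [Finset.sum_congr rfl h1, Finset.sum_const, hB]
    norm_num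
  · rw [if_neg h0]
    have hc0 : (Cl Tn y A).card ≠ 0 := fun h => h0 (Finset.card_eq_zero.1 h)
    by_cases h1 : (Cl Tn y A).card = 1
    · obtain ⟨c, hc⟩ := Finset.card_eq_one.1 h1
      have h2 : ∀ x ∈ B, om Tn y A x ≤
          (if x = c then (7 / 10 : ℝ) else 0) + (if x = y c then (3 / 10 : ℝ) else 0) := by
        intro x _
        unfold om
        rw [if_neg hc0, if_pos h1, hc]
        by_cases hx : x = c
        · rw [if_pos (by rw [hx]; exact Finset.mem_singleton_self c), if_pos hx]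
          split_ifs <;> norm_num
        · rw [if_neg (by rw [Finset.mem_singleton]; exact hx), if_neg hx]
          by_cases hy : x = y c
          · rw [if_pos hy]
            split_ifs <;> norm_num
          · rw [if_neg hy, if_neg]
            · norm_num
            · rintro ⟨c', hc', h3⟩
              rw [Finset.mem_singleton] at hc'
              rw [hc'] at h3
              exact hy h3.symm
      refine (Finset.sum_le_sum h2).trans ?_
      rw [Finset.sum_add_distrib, Finset.sum_ite_eq' B c, Finset.sum_ite_eq' B (y c)]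
      split_ifs <;> norm_num
    · have h2 : ∀ x ∈ B, om Tn y A x =
          if x ∈ Cl Tn y A then 1 / ((Cl Tn y A).card : ℝ) else 0 := by
        intro x _
        unfold om
        rw [if_neg hc0, if_neg h1]
      rw [Finset.sum_congr rfl h2, ← Finset.sum_filter, Finset.sum_const, nsmul_eq_mul]
      have h3 : (B.filter (fun x => x ∈ Cl Tn y A)).card ≤ (Cl Tn y A).card :=
        Finset.card_le_card (fun x hx => (Finset.mem_filter.1 hx).2)
      have h4 : (0 : ℝ) < (Cl Tn y A).card := by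
        exact_mod_cast Nat.pos_of_ne_zero hc0
      have h5 : ((B.filter (fun x => x ∈ Cl Tn y A)).card : ℝ) ≤ (Cl Tn y A).card := by
        exact_mod_cast h3
      rw [mul_one_div, sub_zero, div_le_one h4]
      exact h5

private theorem swap {V : Type} [Fintype V] [DecidableEq V] (F : Finset (Finset V)) (v : V)
    (Tn : Finset V) (y : V → V) :
    ∑ x ∈ univ.erase v, rcv F Tn y x = ∑ A ∈ F, ∑ x ∈ A.erase v, om Tn y A x := by
  have h1 : ∀ x ∈ univ.erase v, rcv F Tn y x = ∑ A ∈ F, if x ∈ A then om Tn y A x else 0 := by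
    intro x _
    unfold rcv
    rw [Finset.sum_filter]
  rw [Finset.sum_congr rfl h1, Finset.sum_comm]
  refine Finset.sum_congr rfl (fun A _ => ?_)
  rw [← Finset.sum_filter]
  refine Finset.sum_congr ?_ (fun _ _ => rfl)
  ext x
  simp only [Finset.mem_filter, Finset.mem_erase, Finset.mem_univ, and_true]

private theorem upper {V : Type} [Fintype V] [DecidableEq V] (F : Finset (Finset V)) (v : V)
    (Tn : Finset V) (y : V → V) (hU : U4 F) (hv : ∀ A ∈ F, v ∈ A) :
    ∑ x ∈ univ.erase v, rcv F Tn y x ≤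
      F.card - ((F.filter (fun A => Cl Tn y A = ∅)).card : ℝ) / 2 := by
  rw [swap]
  have h1 : ∀ A ∈ F, ∑ x ∈ A.erase v, om Tn y A x ≤
      1 - (if Cl Tn y A = ∅ then (1 / 2 : ℝ) else 0) := by
    intro A hA
    apply mass
    rw [Finset.card_erase_of_mem (hv A hA), hU A hA]
  refine (Finset.sum_le_sum h1).trans ?_
  rw [Finset.sum_sub_distrib, ← Finset.sum_filter, Finset.sum_const, Finset.sum_const,
    nsmul_eq_mul, nsmul_eq_mul]
  linarith

private theorem invol {V : Type} (Q : Finset V) (f : V → ℝ) (y : V → V) (c : ℝ)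
    (h1 : ∀ a ∈ Q, y a ∈ Q) (h2 : ∀ a ∈ Q, y (y a) = a) (h3 : ∀ a ∈ Q, 2 * c ≤ f a + f (y a)) :
    c * Q.card ≤ ∑ a ∈ Q, f a := by
  have h4 : ∑ a ∈ Q, f (y a) = ∑ a ∈ Q, f a :=
    Finset.sum_nbij' y y h1 h1 h2 h2 (fun _ _ => rfl)
  have h5 := Finset.sum_le_sum h3
  rw [Finset.sum_add_distrib, h4, Finset.sum_const, nsmul_eq_mul] at h5
  linarith

theorem tWl : S_Wp → S_Wq → S_Wr → S_Wl := by
  intro hp hq hr V _ _ F v Tn Ta Tp y N H
  have hup := upper F v Tn y H.u4 H.mv
  have hN : 0 ≤ N := by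
    have := H.big
    linarith
  have hsub : Tn ∪ Ta ∪ Tp ⊆ univ.erase v := by
    intro x hx
    rw [Finset.mem_erase]
    refine ⟨?_, Finset.mem_univ x⟩
    rintro rfl
    rw [Finset.mem_union, Finset.mem_union] at hx
    obtain ⟨h1, h2, h3⟩ := H.hv
    rcases hx with (hx | hx) | hx
    · exact h1 hx
    · exact h2 hx
    · exact h3 hx
  have hlow : ∑ x ∈ Tn ∪ Ta ∪ Tp, rcv F Tn y x ≤ ∑ x ∈ univ.erase v, rcv F Tn y x :=
    Finset.sum_le_sum_of_subset_of_nonneg hsub (fun x _ _ => rcv_nn F Tn y x)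
  obtain ⟨d1, d2, d3⟩ := H.dis
  rw [Finset.sum_union (Finset.disjoint_union_left.2 ⟨d2, d3⟩), Finset.sum_union d1] at hlow
  -- `Ta` and `Tp`
  obtain ⟨hra, hrp⟩ := hr V F v Tn Ta Tp y N H
  have hTa : 52 / 100 * N * Ta.card ≤ ∑ x ∈ Ta, rcv F Tn y x := by
    have h1 := Finset.sum_le_sum hra
    rw [Finset.sum_const, nsmul_eq_mul] at h1
    linarith
  have hTp : 5 / 100 * N * Tp.card ≤ ∑ x ∈ Tp, rcv F Tn y x := by
    have h1 := Finset.sum_le_sum hrp
    rw [Finset.sum_const, nsmul_eq_mul] at h1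
    linarith
  -- the perfect vertices
  have hsplit := Finset.sum_filter_add_sum_filter_not Tn (fun a => Pf F v Tn y N a)
    (fun x => rcv F Tn y x)
  have hPf : (∑ a ∈ Tn.filter (fun a => Pf F v Tn y N a), (c3 F v a (y a) : ℝ)) / 2 ≤
      ∑ a ∈ Tn.filter (fun a => Pf F v Tn y N a), rcv F Tn y a := by
    rw [Finset.sum_div]
    exact Finset.sum_le_sum (fun a ha =>
      hp V F v Tn Ta Tp y N H a (Finset.mem_filter.1 ha).2)
  -- the imperfect vertices
  have hIm : 52 / 100 * N * ((Tn.filter (fun a => ¬ Pf F v Tn y N a)).card : ℝ) ≤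
      ∑ a ∈ Tn.filter (fun a => ¬ Pf F v Tn y N a), rcv F Tn y a := by
    let R : V → Prop := fun a => y a ∈ Tn ∧ y (y a) = a ∧ ¬ Pf F v Tn y N (y a) ∧
      104 / 100 * N ≤ rcv F Tn y a + rcv F Tn y (y a)
    let I := Tn.filter (fun a => ¬ Pf F v Tn y N a)
    have hI : ∀ a, a ∈ I ↔ a ∈ Tn ∧ ¬ Pf F v Tn y N a := fun a => Finset.mem_filter
    have hs := Finset.sum_filter_add_sum_filter_not I R (fun x => rcv F Tn y x)
    have hc := Finset.card_filter_add_card_filter_not (s := I) R
    have hc' : ((I.filter R).card : ℝ) + ((I.filter (fun a => ¬ R a)).card : ℝ) = (I.card : ℝ) := by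
      exact_mod_cast hc
    have hQ : 52 / 100 * N * ((I.filter R).card : ℝ) ≤ ∑ a ∈ I.filter R, rcv F Tn y a := by
      apply invol (I.filter R) (fun a => rcv F Tn y a) y (52 / 100 * N)
      · intro a ha
        obtain ⟨ha1, ha2⟩ := Finset.mem_filter.1 ha
        obtain ⟨ha3, ha4⟩ := (hI a).1 ha1
        obtain ⟨r1, r2, r3, r4⟩ := ha2
        refine Finset.mem_filter.2 ⟨(hI _).2 ⟨r1, r3⟩, ?_, ?_, ?_, ?_⟩
        · rw [r2]; exact ha3
        · rw [r2]
        · rw [r2]; exact ha4
        · rw [r2]; linarith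
      · intro a ha
        exact (Finset.mem_filter.1 ha).2.2.1
      · intro a ha
        have h1 := (Finset.mem_filter.1 ha).2.2.2.2
        show 2 * (52 / 100 * N) ≤ rcv F Tn y a + rcv F Tn y (y a)
        linarith
    have hP : 52 / 100 * N * ((I.filter (fun a => ¬ R a)).card : ℝ) ≤
        ∑ a ∈ I.filter (fun a => ¬ R a), rcv F Tn y a := by
      have h1 : ∀ a ∈ I.filter (fun a => ¬ R a), 52 / 100 * N ≤ rcv F Tn y a := by
        intro a ha
        obtain ⟨ha1, ha2⟩ := Finset.mem_filter.1 ha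
        obtain ⟨ha3, ha4⟩ := (hI a).1 ha1
        rcases hq V F v Tn Ta Tp y N H a ha3 ha4 with h | h
        · exact h
        · exact absurd h ha2
      have h2 := Finset.sum_le_sum h1
      rw [Finset.sum_const, nsmul_eq_mul] at h2
      linarith
    show 52 / 100 * N * (I.card : ℝ) ≤ ∑ a ∈ I, rcv F Tn y a
    rw [← hs, ← hc']
    have : 52 / 100 * N * (((I.filter R).card : ℝ) + ((I.filter (fun a => ¬ R a)).card : ℝ)) =
      52 / 100 * N * ((I.filter R).card : ℝ) +
        52 / 100 * N * ((I.filter (fun a => ¬ R a)).card : ℝ) := by ring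
    rw [this]
    exact add_le_add hQ hP
  have hfin : 52 / 100 * N *
      (((Tn.filter (fun a => ¬ Pf F v Tn y N a)).card : ℝ) + (Ta.card : ℝ)) =
      52 / 100 * N * ((Tn.filter (fun a => ¬ Pf F v Tn y N a)).card : ℝ) +
        52 / 100 * N * (Ta.card : ℝ) := by ring
  rw [hfin]
  linarith

end Pool.Agent.Ham
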