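import Pool.Agent.Lib.MP_716318_co.H.Spec4

/-!
# MP_716318_co, package H, part 4: a perfect vertex
-/

set_option autoImplicit false

namespace Pool.Agent.Ham

open Finset
open scoped Classical

/-- Four elements of a set of size four are different. -/
private theorem d4 {V : Type} [DecidableEq V] {x y z w : V} (h : ({x, y, z, w} : Finset V).card = 4) :
    x ≠ y ∧ x ≠ z ∧ x ≠ w ∧ y ≠ z ∧ y ≠ w ∧ z ≠ w := by
  have h3 : ∀ p q r : V, ({p, q, r} : Finset V).card ≤ 3 := fun p q r => card_le_three
  refine ⟨?_, ?_, ?_, ?_, ?_, ?_⟩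
  · rintro rfl
    have := h3 x z w
    have e : ({x, x, z, w} : Finset V) = {x, z, w} := by ext u; simp
    rw [e] at h
    omega
  · rintro rfl
    have := h3 x y w
    have e : ({x, y, x, w} : Finset V) = {x, y, w} := by ext u; simp; tauto
    rw [e] at h
    omega
  · rintro rfl
    have := h3 x y z
    have e : ({x, y, z, x} : Finset V) = {x, y, z} := by ext u; simp; tauto
    rw [e] at h
    omega
  · rintro rfl
    have := h3 x y w
    have e : ({x, y, y, w} : Finset V) = {x, y, w} := by ext u; simp
    rw [e] at h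
    omega
  · rintro rfl
    have := h3 x y z
    have e : ({x, y, z, y} : Finset V) = {x, y, z} := by ext u; simp; tauto
    rw [e] at h
    omega
  · rintro rfl
    have := h3 x y z
    have e : ({x, y, z, z} : Finset V) = {x, y, z} := by ext u; simp
    rw [e] at h
    omega

/-- The order of the second and the third vertex does not matter. -/
private theorem sw {V : Type} [Fintype V] [DecidableEq V] (F : Finset (Finset V)) (x y z : V) :
    c3 F x y z = c3 F x z y := by
  unfold c3
  refine congrArg _ (Finset.filter_congr fun t _ => ?_)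
  have e : ({x, y, z, t} : Finset V) = {x, z, y, t} := by ext u; simp; tauto
  rw [e]

/-- The members of `Tn` differ from `v` and from their partners. -/
private theorem df {V : Type} [Fintype V] [DecidableEq V] {F : Finset (Finset V)} {v : V}
    {Tn Ta Tp : Finset V} {y : V → V} {N : ℝ} (h : Wh F v Tn Ta Tp y N) {a : V} (ha : a ∈ Tn) :
    v ≠ a ∧ v ≠ y a ∧ a ≠ y a := by
  have h1 := h.hc a ha
  have h2 := h.big
  have h3 : (0 : ℝ) < c3 F v a (y a) := by linarith
  have h4 : 0 < c3 F v a (y a) := by exact_mod_cast h3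
  obtain ⟨t, ht⟩ := Finset.card_pos.1 h4
  have h5 := d4 (h.u4 _ (Finset.mem_filter.1 ht).2)
  exact ⟨h5.1, h5.2.1, h5.2.2.2.1⟩

/-- All weights are nonnegative. -/
private theorem om0 {V : Type} [DecidableEq V] (Tn : Finset V) (y : V → V) (A : Finset V) (x : V) :
    0 ≤ om Tn y A x := by
  unfold om
  split_ifs
  · norm_num
  · norm_num
  · norm_num
  · exact le_rfl
  · positivity
  · exact le_rfl

/-- The claimants of `{v, a, y a, t}`. -/
private theorem cl2 {V : Type} [Fintype V] [DecidableEq V] {F : Finset (Finset V)} {v : V}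
    {Tn Ta Tp : Finset V} {y : V → V} {N : ℝ} (h : Wh F v Tn Ta Tp y N) {a : V}
    (hp : Pf F v Tn y N a) {t : V} (ht : ({v, a, y a, t} : Finset V) ∈ F) :
    Cl Tn y {v, a, y a, t} = {a, y a} := by
  obtain ⟨ha, hb, hyy, h1, h2⟩ := hp
  have hd := d4 (h.u4 _ ht)
  have hN := h.big
  ext x
  simp only [Cl, Finset.mem_filter, Finset.mem_insert, Finset.mem_singleton]
  constructor
  · rintro ⟨hx, hxT, hyx⟩
    rcases hx with rfl | rfl | rfl | rfl
    · exact absurd hxT h.hv.1
    · exact Or.inl rfl
    · exact Or.inr rfl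
    · exfalso
      have hq := df h hxT
      have hc := h.hc x hxT
      rcases hyx with e | e | e | e
      · exact hq.2.1 e.symm
      · rw [e, sw] at hc
        have := h1 x (fun e' => hd.2.2.2.2.2 e'.symm)
        linarith
      · rw [e, sw] at hc
        have := h2 x (fun e' => hd.2.2.2.2.1 e'.symm)
        linarith
      · exact hq.2.2 e.symm
  · rintro (rfl | rfl)
    · exact ⟨Or.inr (Or.inl rfl), ha, Or.inr (Or.inr (Or.inl rfl))⟩
    · exact ⟨Or.inr (Or.inr (Or.inl rfl)), hb, Or.inr (Or.inl hyy)⟩

theorem tWp : S_Wp := by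
  intro V _ _ F v Tn Ta Tp y N h a hp
  set T : Finset V := univ.filter (fun t => ({v, a, y a, t} : Finset V) ∈ F) with hT
  set g : V → Finset V := fun t => {v, a, y a, t} with hg
  have hinj : Set.InjOn g (T : Set V) := by
    intro t ht s hs e
    have ht' : g t ∈ F := (Finset.mem_filter.1 (Finset.mem_coe.1 ht)).2
    have hd := d4 (h.u4 _ ht')
    have h1 : t ∈ g s := by
      rw [← e]
      simp [hg]
    simp only [hg, Finset.mem_insert, Finset.mem_singleton] at h1
    rcases h1 with h1 | h1 | h1 | h1
    · exact absurd h1.symm hd.2.2.1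
    · exact absurd h1.symm hd.2.2.2.2.1
    · exact absurd h1.symm hd.2.2.2.2.2
    · exact h1
  have hsub : T.image g ⊆ F.filter (fun A => a ∈ A) := by
    intro A hA
    obtain ⟨t, ht, rfl⟩ := Finset.mem_image.1 hA
    refine Finset.mem_filter.2 ⟨(Finset.mem_filter.1 ht).2, ?_⟩
    simp [hg]
  have hval : ∀ t ∈ T, om Tn y (g t) a = 1 / 2 := by
    intro t ht
    have ht' : ({v, a, y a, t} : Finset V) ∈ F := (Finset.mem_filter.1 ht).2
    have hc : Cl Tn y (g t) = {a, y a} := cl2 h hp ht'
    have hd := d4 (h.u4 _ ht')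
    have hcard : (Cl Tn y (g t)).card = 2 := by
      rw [hc]
      exact Finset.card_pair hd.2.2.2.1
    have hmem : a ∈ Cl Tn y (g t) := by
      rw [hc]
      simp
    unfold om
    rw [if_neg (by omega), if_neg (by omega), if_pos hmem, hcard]
    norm_num
  calc (c3 F v a (y a) : ℝ) / 2 = ∑ t ∈ T, om Tn y (g t) a := by
        rw [Finset.sum_congr rfl hval, Finset.sum_const, nsmul_eq_mul]
        have : c3 F v a (y a) = T.card := rfl
        rw [this]
        ring
    _ = ∑ A ∈ T.image g, om Tn y A a := by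
        rw [Finset.sum_image (f := fun A => om Tn y A a) hinj]
    _ ≤ ∑ A ∈ F.filter (fun A => a ∈ A), om Tn y A a :=
        Finset.sum_le_sum_of_subset_of_nonneg hsub (fun A _ _ => om0 Tn y A a)
    _ = rcv F Tn y a := rfl

end Pool.Agent.Ham
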