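import Pool.Agent.Lib.MP_716318_co.H.Spec4

set_option autoImplicit false

namespace Pool.Agent.Ham

open Finset
open scoped Classical

private theorem four {V : Type} [DecidableEq V] {v x z t : V}
    (h : ({v, x, z, t} : Finset V).card = 4) :
    v ≠ x ∧ v ≠ z ∧ v ≠ t ∧ x ≠ z ∧ x ≠ t ∧ z ≠ t := by
  have h1 : v ∉ ({x, z, t} : Finset V) := fun hm => by
    rw [Finset.insert_eq_of_mem hm] at h
    have := Finset.card_le_three (a := x) (b := z) (c := t)
    omega
  have h2 : ({x, z, t} : Finset V).card = 3 := by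
    rw [Finset.card_insert_of_notMem h1] at h
    omega
  have h3 : x ∉ ({z, t} : Finset V) := fun hm => by
    rw [Finset.insert_eq_of_mem hm] at h2
    have := Finset.card_le_two (a := z) (b := t)
    omega
  have h4 : z ≠ t := by
    rintro rfl
    rw [Finset.card_insert_of_notMem h3] at h2
    simp at h2
  simp only [Finset.mem_insert, Finset.mem_singleton, not_or] at h1 h3
  exact ⟨h1.1, h1.2.1, h1.2.2, h3.1, h3.2, h4⟩

private theorem om_nn {V : Type} [DecidableEq V] (Tn : Finset V) (y : V → V) (A : Finset V)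
    (x : V) : 0 ≤ om Tn y A x := by
  unfold om
  split_ifs <;> positivity

section

variable {V : Type} [Fintype V] [DecidableEq V] {F : Finset (Finset V)} {v : V}
  {Tn Ta Tp : Finset V} {y : V → V} {N : ℝ}

private theorem ypos (H : Wh F v Tn Ta Tp y N) {t : V} (ht : t ∈ Tn) : y t ≠ v ∧ y t ≠ t := by
  have h1 := H.hc t ht
  have h2 := H.big
  have h3 : 0 < c3 F v t (y t) := by
    have : (0 : ℝ) < c3 F v t (y t) := by linarith
    exact_mod_cast this
  unfold c3 at h3
  obtain ⟨s, hs⟩ := Finset.card_pos.1 h3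
  have h4 := four (H.u4 _ (Finset.mem_filter.1 hs).2)
  exact ⟨fun h => h4.2.1 h.symm, fun h => h4.2.2.2.1 h.symm⟩

private theorem cl_iff (H : Wh F v Tn Ta Tp y N) {x z t : V} (hA : ({v, x, z, t} : Finset V) ∈ F) (c : V) :
    c ∈ Cl Tn y {v, x, z, t} ↔
      (c = x ∧ x ∈ Tn ∧ (y x = z ∨ y x = t)) ∨ (c = z ∧ z ∈ Tn ∧ (y z = x ∨ y z = t)) ∨
      (c = t ∧ t ∈ Tn ∧ (y t = x ∨ y t = z)) := by
  have h4 := four (H.u4 _ hA)
  unfold Cl
  simp only [Finset.mem_filter, Finset.mem_insert, Finset.mem_singleton]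
  constructor
  · rintro ⟨hc, hT, hy⟩
    have hp := ypos H hT
    rcases hc with rfl | rfl | rfl | rfl
    · exact absurd hT H.hv.1
    · rcases hy with hy | hy | hy | hy
      · exact absurd hy hp.1
      · exact absurd hy hp.2
      · exact Or.inl ⟨rfl, hT, Or.inl hy⟩
      · exact Or.inl ⟨rfl, hT, Or.inr hy⟩
    · rcases hy with hy | hy | hy | hy
      · exact absurd hy hp.1
      · exact Or.inr (Or.inl ⟨rfl, hT, Or.inl hy⟩)
      · exact absurd hy hp.2
      · exact Or.inr (Or.inl ⟨rfl, hT, Or.inr hy⟩)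
    · rcases hy with hy | hy | hy | hy
      · exact absurd hy hp.1
      · exact Or.inr (Or.inr ⟨rfl, hT, Or.inl hy⟩)
      · exact Or.inr (Or.inr ⟨rfl, hT, Or.inr hy⟩)
      · exact absurd hy hp.2
  · rintro (⟨rfl, hT, hy⟩ | ⟨rfl, hT, hy⟩ | ⟨rfl, hT, hy⟩)
    · exact ⟨by simp, hT, by rcases hy with hy | hy <;> simp [hy]⟩
    · exact ⟨by simp, hT, by rcases hy with hy | hy <;> simp [hy]⟩
    · exact ⟨by simp, hT, by rcases hy with hy | hy <;> simp [hy]⟩

/-- The good fourth vertices. -/
private noncomputable def TT (F : Finset (Finset V)) (v : V) (Tn : Finset V) (y : V → V) (x z u w : V) :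
    Finset V :=
  univ.filter (fun t => ({v, x, z, t} : Finset V) ∈ F ∧ t ≠ u ∧ t ≠ w ∧
    ¬ (t ∈ Tn ∧ (y t = x ∨ y t = z)))

private theorem cnt (H : Wh F v Tn Ta Tp y N) (x z u w : V) :
    (c3 F v x z : ℝ) - N / 100 - 2 ≤ ((TT F v Tn y x z u w).card : ℝ) := by
  have h1 : univ.filter (fun t => ({v, x, z, t} : Finset V) ∈ F) ⊆
      TT F v Tn y x z u w ∪ (Tn.filter (fun a => y a = x) ∪ (Tn.filter (fun a => y a = z) ∪ {u, w})) := by
    intro t ht
    simp only [TT, Finset.mem_filter, Finset.mem_univ, true_and, Finset.mem_union, Finset.mem_insert,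
      Finset.mem_singleton] at ht ⊢
    by_cases h1 : t = u
    · simp [h1]
    · by_cases h2 : t = w
      · simp [h2]
      · by_cases h3 : t ∈ Tn ∧ (y t = x ∨ y t = z)
        · rcases h3.2 with h | h
          · exact Or.inr (Or.inl ⟨h3.1, h⟩)
          · exact Or.inr (Or.inr (Or.inl ⟨h3.1, h⟩))
        · exact Or.inl ⟨ht, h1, h2, h3⟩
  have h2 := (Finset.card_le_card h1).trans (Finset.card_union_le _ _)
  have h3 := Finset.card_union_le (Tn.filter (fun a => y a = x)) (Tn.filter (fun a => y a = z) ∪ {u, w})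
  have h4 := Finset.card_union_le (Tn.filter (fun a => y a = z)) ({u, w} : Finset V)
  have h5 := Finset.card_le_two (a := u) (b := w)
  have h6 : c3 F v x z ≤ (TT F v Tn y x z u w).card + (Tn.filter (fun a => y a = x)).card +
      (Tn.filter (fun a => y a = z)).card + 2 := by
    unfold c3
    omega
  have h7 := H.ind x
  have h8 := H.ind z
  have h9 : (c3 F v x z : ℝ) ≤ (TT F v Tn y x z u w).card + (Tn.filter (fun a => y a = x)).card +
      (Tn.filter (fun a => y a = z)).card + 2 := by exact_mod_cast h6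
  linarith

private theorem img_inj (H : Wh F v Tn Ta Tp y N) (x z u w : V) :
    ((TT F v Tn y x z u w).image (fun t => ({v, x, z, t} : Finset V))).card =
      (TT F v Tn y x z u w).card := by
  apply Finset.card_image_of_injOn
  intro t ht t' ht' h
  simp only [TT, Finset.coe_filter, Set.mem_ofPred_eq, Finset.mem_univ, true_and] at ht ht'
  have h4 := four (H.u4 _ ht.1)
  have h5 : t ∈ ({v, x, z, t'} : Finset V) := by
    simp only at h
    rw [← h]
    simp
  simp only [Finset.mem_insert, Finset.mem_singleton] at h5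
  rcases h5 with h5 | h5 | h5 | h5
  · exact absurd h5.symm h4.2.2.1
  · exact absurd h5.symm h4.2.2.2.2.1
  · exact absurd h5.symm h4.2.2.2.2.2
  · exact h5

private theorem sum_ge (H : Wh F v Tn Ta Tp y N) (x z u w : V) (q : V) (c : ℝ)
    (h : ∀ t ∈ TT F v Tn y x z u w, c ≤ om Tn y {v, x, z, t} q) :
    c * ((TT F v Tn y x z u w).card : ℝ) ≤
      ∑ A ∈ (TT F v Tn y x z u w).image (fun t => ({v, x, z, t} : Finset V)), om Tn y A q := by
  rw [← img_inj H x z u w]
  have := Finset.card_nsmul_le_sum ((TT F v Tn y x z u w).image (fun t => ({v, x, z, t} : Finset V)))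
    (fun A => om Tn y A q) c (by
      intro A hA
      obtain ⟨t, ht, rfl⟩ := Finset.mem_image.1 hA
      exact h t ht)
  rw [nsmul_eq_mul] at this
  linarith

private theorem img_sub (x z u w : V) (q : V) (hq : q = x ∨ q = z) :
    (TT F v Tn y x z u w).image (fun t => ({v, x, z, t} : Finset V)) ⊆
      F.filter (fun A => q ∈ A) := by
  intro A hA
  obtain ⟨t, ht, rfl⟩ := Finset.mem_image.1 hA
  simp only [TT, Finset.mem_filter, Finset.mem_univ, true_and] at ht
  refine Finset.mem_filter.2 ⟨ht.1, ?_⟩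
  rcases hq with rfl | rfl <;> simp

private theorem rcv_one (H : Wh F v Tn Ta Tp y N) (x z u w : V) (q : V) (hq : q = x ∨ q = z) (c : ℝ)
    (hc : 0 ≤ c) (h : ∀ t ∈ TT F v Tn y x z u w, c ≤ om Tn y {v, x, z, t} q) :
    c * ((c3 F v x z : ℝ) - N / 100 - 2) ≤ rcv F Tn y q := by
  have h1 := sum_ge H x z u w q c h
  have h2 : ∑ A ∈ (TT F v Tn y x z u w).image (fun t => ({v, x, z, t} : Finset V)), om Tn y A q ≤
      rcv F Tn y q :=
    Finset.sum_le_sum_of_subset_of_nonneg (img_sub x z u w q hq) (fun A _ _ => om_nn Tn y A q)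
  have h3 := mul_le_mul_of_nonneg_left (cnt H x z u w) hc
  linarith

/-- `a` and `b` are partners of each other: the members `{v, a, b, t}`. -/
private theorem om_half (H : Wh F v Tn Ta Tp y N) {a b : V} (ha : a ∈ Tn) (hb : b ∈ Tn) (hab : y a = b)
    (hba : y b = a) (t : V) (ht : t ∈ TT F v Tn y a b v v) (q : V) (hq : q = a ∨ q = b) :
    1 / 2 ≤ om Tn y {v, a, b, t} q := by
  simp only [TT, Finset.mem_filter, Finset.mem_univ, true_and] at ht
  have h4 := four (H.u4 _ ht.1)
  have hcl : Cl Tn y {v, a, b, t} = {a, b} := by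
    ext c
    rw [cl_iff H ht.1 c]
    simp only [Finset.mem_insert, Finset.mem_singleton]
    constructor
    · rintro (h | h | h)
      · exact Or.inl h.1
      · exact Or.inr h.1
      · exact absurd h.2 ht.2.2.2
    · rintro (h | h)
      · exact Or.inl ⟨h, ha, Or.inl hab⟩
      · exact Or.inr (Or.inl ⟨h, hb, Or.inl hba⟩)
  have hcard : (Cl Tn y {v, a, b, t}).card = 2 := by
    rw [hcl, Finset.card_pair h4.2.2.2.1]
  have hmem : q ∈ Cl Tn y {v, a, b, t} := by
    rw [hcl]
    rcases hq with rfl | rfl <;> simp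
  unfold om
  rw [hcard]
  simp [hmem]

private theorem two (H : Wh F v Tn Ta Tp y N) {a b z : V} (ha : a ∈ Tn) (hb : b ∈ Tn) (hab : y a = b)
    (hba : y b = a) (hzb : z ≠ b) (hz : N ≤ 2 * (c3 F v a z : ℝ)) :
    104 / 100 * N ≤ rcv F Tn y a + rcv F Tn y b := by
  have hN := H.big
  have hc := H.hc a ha
  rw [hab] at hc
  have hva : v ≠ b := fun h => H.hv.1 (h ▸ hb)
  have hab' : a ≠ b := by
    have := (ypos H ha).2
    rw [hab] at this
    exact this.symm
  have h1 := rcv_one H a b v v b (Or.inr rfl) (1 / 2) (by norm_num)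
    (fun t ht => om_half H ha hb hab hba t ht b (Or.inr rfl))
  have h2 := sum_ge H a b v v a (1 / 2) (fun t ht => om_half H ha hb hab hba t ht a (Or.inl rfl))
  have h3 := sum_ge H a z b (y z) a (1 / 6) (by
    intro t ht
    simp only [TT, Finset.mem_filter, Finset.mem_univ, true_and] at ht
    have h4 := four (H.u4 _ ht.1)
    by_cases hza : z ∈ Tn ∧ y z = a
    · have hcl : Cl Tn y {v, a, z, t} = {z} := by
        ext c
        rw [cl_iff H ht.1 c]
        simp only [Finset.mem_singleton]
        constructor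
        · rintro (h | h | h)
          · rcases h.2.2 with h' | h'
            · exact absurd (h'.symm.trans hab) hzb
            · exact absurd (h'.symm.trans hab) ht.2.1
          · exact h.1
          · exact absurd h.2 ht.2.2.2
        · intro h
          exact Or.inr (Or.inl ⟨h, hza.1, Or.inl hza.2⟩)
      have hmem : a ∉ Cl Tn y {v, a, z, t} := by
        rw [hcl, Finset.mem_singleton]
        exact h4.2.2.2.1
      have hex : ∃ c ∈ Cl Tn y {v, a, z, t}, y c = a := ⟨z, by rw [hcl]; simp, hza.2⟩
      unfold om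
      rw [if_neg (by rw [hcl]; simp), if_pos (by rw [hcl]; simp), if_neg hmem, if_pos hex]
      norm_num
    · have hcl : Cl Tn y {v, a, z, t} = ∅ := by
        rw [Finset.eq_empty_iff_forall_notMem]
        intro c
        rw [cl_iff H ht.1 c]
        rintro (h | h | h)
        · rcases h.2.2 with h' | h'
          · exact absurd (h'.symm.trans hab) hzb
          · exact absurd (h'.symm.trans hab) ht.2.1
        · rcases h.2.2 with h' | h'
          · exact hza ⟨h.2.1, h'⟩
          · exact ht.2.2.1 h'.symm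
        · exact absurd h.2 ht.2.2.2
      unfold om
      rw [if_pos (by rw [hcl]; simp)])
  have hdis : Disjoint ((TT F v Tn y a b v v).image (fun t => ({v, a, b, t} : Finset V)))
      ((TT F v Tn y a z b (y z)).image (fun t => ({v, a, z, t} : Finset V))) := by
    rw [Finset.disjoint_left]
    intro A hA hA'
    obtain ⟨t, ht, rfl⟩ := Finset.mem_image.1 hA
    obtain ⟨t', ht', h⟩ := Finset.mem_image.1 hA'
    simp only [TT, Finset.mem_filter, Finset.mem_univ, true_and] at ht'
    have h5 : b ∈ ({v, a, z, t'} : Finset V) := by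
      rw [h]
      simp
    simp only [Finset.mem_insert, Finset.mem_singleton] at h5
    rcases h5 with h5 | h5 | h5 | h5
    · exact hva h5.symm
    · exact hab' h5.symm
    · exact hzb h5.symm
    · exact ht'.2.1 h5.symm
  have h4 : (∑ A ∈ (TT F v Tn y a b v v).image (fun t => ({v, a, b, t} : Finset V)), om Tn y A a) +
      (∑ A ∈ (TT F v Tn y a z b (y z)).image (fun t => ({v, a, z, t} : Finset V)), om Tn y A a) ≤
      rcv F Tn y a := by
    rw [← Finset.sum_union hdis]
    exact Finset.sum_le_sum_of_subset_of_nonneg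
      (Finset.union_subset (img_sub a b v v a (Or.inl rfl)) (img_sub a z b (y z) a (Or.inl rfl)))
      (fun A _ _ => om_nn Tn y A a)
  have h5 := cnt H a b v v
  have h6 := cnt H a z b (y z)
  linarith

end

theorem tWq : S_Wq := by
  intro V _ _ F v Tn Ta Tp y N H a ha hnp
  have hN := H.big
  have hc := H.hc a ha
  by_cases hb : y a ∈ Tn ∧ y (y a) = a
  · right
    refine ⟨hb.1, hb.2, ?_, ?_⟩
    · rintro ⟨p1, p2, p3, p4, p5⟩
      apply hnp
      refine ⟨ha, hb.1, hb.2, ?_, ?_⟩
      · intro b hb'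
        have := p5 b hb'
        rw [hb.2] at this
        exact this
      · intro b hb'
        exact p4 b (by rw [hb.2]; exact hb')
    · have hnp' : ¬ ((∀ b, b ≠ y a → 2 * (c3 F v a b : ℝ) < N) ∧
          ∀ b, b ≠ a → 2 * (c3 F v (y a) b : ℝ) < N) :=
        fun h => hnp ⟨ha, hb.1, hb.2, h.1, h.2⟩
      rw [not_and_or] at hnp'
      rcases hnp' with h | h
      · push Not at h
        obtain ⟨z, hz, hz'⟩ := h
        exact two H ha hb.1 rfl hb.2 hz hz'
      · push Not at h
        obtain ⟨z, hz, hz'⟩ := h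
        have := two H hb.1 ha hb.2 rfl hz hz'
        linarith
  · left
    have h1 := rcv_one H a (y a) (y (y a)) v a (Or.inl rfl) (7 / 10) (by norm_num) (by
      intro t ht
      simp only [TT, Finset.mem_filter, Finset.mem_univ, true_and] at ht
      have h4 := four (H.u4 _ ht.1)
      have hcl : Cl Tn y {v, a, y a, t} = {a} := by
        ext c
        rw [cl_iff H ht.1 c]
        simp only [Finset.mem_singleton]
        constructor
        · rintro (h | h | h)
          · exact h.1
          · rcases h.2.2 with h' | h'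
            · exact absurd ⟨h.2.1, h'⟩ hb
            · exact absurd h'.symm ht.2.1
          · exact absurd h.2 ht.2.2.2
        · intro h
          exact Or.inl ⟨h, ha, Or.inl trivial⟩
      unfold om
      rw [if_neg (by rw [hcl]; simp), if_pos (by rw [hcl]; simp), if_pos (by rw [hcl]; simp)])
    linarith

end Pool.Agent.Ham
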