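import Pool.Agent.Lib.MP_716318_co.H.Spec4

/-!
# MP_716318_co, package H: `S_Wr`
-/

set_option autoImplicit false

namespace Pool.Agent.Ham

open Finset
open scoped Classical

private lemma wrNonneg {V : Type} [DecidableEq V] (Tn : Finset V) (y : V → V) (A : Finset V)
    (x : V) : 0 ≤ om Tn y A x := by
  unfold om
  split_ifs <;> positivity

private lemma wrDist {V : Type} [DecidableEq V] {F : Finset (Finset V)} (hU : U4 F)
    {v b c t : V} (h : ({v, b, c, t} : Finset V) ∈ F) :
    v ≠ b ∧ v ≠ c ∧ v ≠ t ∧ b ≠ c ∧ b ≠ t ∧ c ≠ t := by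
  have h4 := hU _ h
  have key : ∀ p q r : V, ({v, b, c, t} : Finset V) ⊆ {p, q, r} → False := by
    intro p q r hs
    have h1 := card_le_card hs
    have h2 : ({p, q, r} : Finset V).card ≤ 3 := card_le_three
    omega
  refine ⟨?_, ?_, ?_, ?_, ?_, ?_⟩
  · intro e
    refine key v c t ?_
    intro z
    simp only [mem_insert, mem_singleton]
    rintro (h | h | h | h) <;> simp [h, e]
  · intro e
    refine key v b t ?_
    intro z
    simp only [mem_insert, mem_singleton]
    rintro (h | h | h | h) <;> simp [h, e]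
  · intro e
    refine key v b c ?_
    intro z
    simp only [mem_insert, mem_singleton]
    rintro (h | h | h | h) <;> simp [h, e]
  · intro e
    refine key v b t ?_
    intro z
    simp only [mem_insert, mem_singleton]
    rintro (h | h | h | h) <;> simp [h, e]
  · intro e
    refine key v b c ?_
    intro z
    simp only [mem_insert, mem_singleton]
    rintro (h | h | h | h) <;> simp [h, e]
  · intro e
    refine key v b c ?_
    intro z
    simp only [mem_insert, mem_singleton]
    rintro (h | h | h | h) <;> simp [h, e]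

/-- The partner of `t` is neither `v` nor `t`. -/
private lemma wrPart {V : Type} [Fintype V] [DecidableEq V] {F : Finset (Finset V)} {v : V}
    {Tn Ta Tp : Finset V} {y : V → V} {N : ℝ} (W : Wh F v Tn Ta Tp y N) {t : V} (ht : t ∈ Tn) :
    v ≠ y t ∧ t ≠ y t := by
  have h1 := W.hc t ht
  have h2 := W.big
  have h3 : 0 < c3 F v t (y t) := by
    have : (0 : ℝ) < c3 F v t (y t) := by linarith
    exact_mod_cast this
  unfold c3 at h3
  obtain ⟨s, hs⟩ := card_pos.1 h3
  rw [mem_filter] at hs
  obtain ⟨-, h5, -, h6, -, -⟩ := wrDist W.u4 hs.2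
  exact ⟨h5, h6⟩

/-- The `t` for which `{v, b, y b, t}` is a member not claimed by `t`. -/
private noncomputable def NC {V : Type} [Fintype V] [DecidableEq V] (F : Finset (Finset V))
    (v : V) (Tn : Finset V) (y : V → V) (b : V) : Finset V :=
  univ.filter (fun t => ({v, b, y b, t} : Finset V) ∈ F ∧ t ∉ Cl Tn y {v, b, y b, t})

private lemma ncCard {V : Type} [Fintype V] [DecidableEq V] {F : Finset (Finset V)} {v : V}
    {Tn Ta Tp : Finset V} {y : V → V} {N : ℝ} (W : Wh F v Tn Ta Tp y N) {b : V} (hb : b ∈ Tn) :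
    98 / 100 * N ≤ ((NC F v Tn y b).card : ℝ) := by
  have h1 := W.hc b hb
  have hsub : univ.filter (fun t => ({v, b, y b, t} : Finset V) ∈ F) ⊆
      NC F v Tn y b ∪ (Tn.filter (fun a => y a = b) ∪ Tn.filter (fun a => y a = y b)) := by
    intro t ht
    rw [mem_filter] at ht
    by_cases hc : t ∈ Cl Tn y {v, b, y b, t}
    · unfold Cl at hc
      rw [mem_filter] at hc
      obtain ⟨-, h3, h4⟩ := hc
      obtain ⟨h5, h6⟩ := wrPart W h3
      simp only [mem_insert, mem_singleton] at h4
      rcases h4 with h4 | h4 | h4 | h4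
      · exact absurd h4.symm h5
      · exact mem_union_right _ (mem_union_left _ (mem_filter.2 ⟨h3, h4⟩))
      · exact mem_union_right _ (mem_union_right _ (mem_filter.2 ⟨h3, h4⟩))
      · exact absurd h4.symm h6
    · exact mem_union_left _ (mem_filter.2 ⟨mem_univ _, ht.2, hc⟩)
  have h2 : c3 F v b (y b) ≤ (NC F v Tn y b).card +
      ((Tn.filter (fun a => y a = b)).card + (Tn.filter (fun a => y a = y b)).card) := by
    unfold c3
    exact (card_le_card hsub).trans
      ((card_union_le _ _).trans (Nat.add_le_add_left (card_union_le _ _) _))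
  have h3 : (c3 F v b (y b) : ℝ) ≤ (NC F v Tn y b).card +
      ((Tn.filter (fun a => y a = b)).card + (Tn.filter (fun a => y a = y b)).card) := by
    exact_mod_cast h2
  have h4 := W.ind b
  have h5 := W.ind (y b)
  linarith

/-- The members `{v, b, y b, t}` which only `b` claims and which avoid `b'`. -/
private noncomputable def SB {V : Type} [Fintype V] [DecidableEq V] (F : Finset (Finset V))
    (v : V) (Tn : Finset V) (y : V → V) (b b' : V) : Finset (Finset V) :=
  ((NC F v Tn y b).erase b').image (fun t => ({v, b, y b, t} : Finset V))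

private lemma sbCard {V : Type} [Fintype V] [DecidableEq V] {F : Finset (Finset V)} {v : V}
    {Tn Ta Tp : Finset V} {y : V → V} {N : ℝ} (W : Wh F v Tn Ta Tp y N) {b : V} (hb : b ∈ Tn)
    (b' : V) : 98 / 100 * N - 1 ≤ ((SB F v Tn y b b').card : ℝ) := by
  have h1 := ncCard W hb
  have h2 : (SB F v Tn y b b').card = ((NC F v Tn y b).erase b').card := by
    unfold SB
    refine card_image_of_injOn ?_
    intro t ht s hs e
    have ht' := mem_of_mem_erase (mem_coe.1 ht)
    have hs' := mem_of_mem_erase (mem_coe.1 hs)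
    unfold NC at ht' hs'
    rw [mem_filter] at ht' hs'
    obtain ⟨-, -, g3, -, g5, g6⟩ := wrDist W.u4 ht'.2.1
    have : t ∈ ({v, b, y b, s} : Finset V) := by
      have e' : ({v, b, y b, t} : Finset V) = {v, b, y b, s} := e
      rw [← e']
      simp
    simp only [mem_insert, mem_singleton] at this
    rcases this with h | h | h | h
    · exact absurd h.symm g3
    · exact absurd h.symm g5
    · exact absurd h.symm g6
    · exact h
  have h3 : (NC F v Tn y b).card ≤ ((NC F v Tn y b).erase b').card + 1 := by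
    have := pred_card_le_card_erase (s := NC F v Tn y b) (a := b')
    omega
  have h4 : ((NC F v Tn y b).card : ℝ) ≤ (SB F v Tn y b b').card + 1 := by
    rw [h2]
    exact_mod_cast h3
  linarith

private lemma sbSpec {V : Type} [Fintype V] [DecidableEq V] {F : Finset (Finset V)} {v : V}
    {Tn Ta Tp : Finset V} {y : V → V} {N : ℝ} (W : Wh F v Tn Ta Tp y N) {b : V} (hb : b ∈ Tn)
    {b' : V} (hb' : b' ∈ Tn) (hne : b ≠ b') (ha : y b ∉ Tn) {A : Finset V}
    (hA : A ∈ SB F v Tn y b b') :
    A ∈ F ∧ y b ∈ A ∧ b ∈ A ∧ b' ∉ A ∧ om Tn y A (y b) = 3 / 10 := by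
  unfold SB at hA
  obtain ⟨t, ht, rfl⟩ := mem_image.1 hA
  rw [mem_erase] at ht
  obtain ⟨ht1, ht2⟩ := ht
  unfold NC at ht2
  rw [mem_filter] at ht2
  obtain ⟨-, h1, h2⟩ := ht2
  have hv := W.hv.1
  refine ⟨h1, by simp, by simp, ?_, ?_⟩
  · simp only [mem_insert, mem_singleton, not_or]
    refine ⟨?_, ?_, ?_, ?_⟩
    · rintro rfl
      exact hv hb'
    · exact fun h => hne h.symm
    · intro h
      rw [← h] at ha
      exact ha hb'
    · exact fun h => ht1 h.symm
  · have hCl : Cl Tn y {v, b, y b, t} = {b} := by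
      ext c
      rw [mem_singleton]
      constructor
      · intro hc
        have hc' := hc
        unfold Cl at hc'
        rw [mem_filter] at hc'
        obtain ⟨h3, h4, -⟩ := hc'
        simp only [mem_insert, mem_singleton] at h3
        rcases h3 with h3 | h3 | h3 | h3
        · rw [h3] at h4
          exact absurd h4 hv
        · exact h3
        · rw [h3] at h4
          exact absurd h4 ha
        · rw [h3] at hc
          exact absurd hc h2
      · rintro rfl
        unfold Cl
        rw [mem_filter]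
        exact ⟨by simp, hb, by simp⟩
    unfold om
    rw [hCl]
    rw [if_neg (by simp), if_pos (by simp), if_neg, if_pos]
    · exact ⟨b, by simp, rfl⟩
    · rw [mem_singleton]
      intro h
      rw [h] at ha
      exact ha hb

private lemma wrTwo {V : Type} [Fintype V] [DecidableEq V] {F : Finset (Finset V)} {v : V}
    {Tn Ta Tp : Finset V} {y : V → V} {N : ℝ} (W : Wh F v Tn Ta Tp y N) {a : V} (ha : a ∉ Tn)
    (hI : 1 < (Tn.filter (fun b => y b = a)).card) : 52 / 100 * N ≤ rcv F Tn y a := by
  obtain ⟨b, hb, b', hb', hne⟩ := one_lt_card.1 hI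
  rw [mem_filter] at hb hb'
  obtain ⟨hb, rfl⟩ := hb
  obtain ⟨hb', he⟩ := hb'
  have h1 := sbCard W hb b'
  have h2 := sbCard W hb' b
  have hdis : Disjoint (SB F v Tn y b b') (SB F v Tn y b' b) := by
    rw [disjoint_left]
    intro A hA hA'
    obtain ⟨-, -, -, h3, -⟩ := sbSpec W hb hb' hne ha hA
    obtain ⟨-, -, h4, -, -⟩ := sbSpec W hb' hb hne.symm (by rw [he]; exact ha) hA'
    exact h3 h4
  have hsub : SB F v Tn y b b' ∪ SB F v Tn y b' b ⊆ F.filter (fun A => y b ∈ A) := by
    intro A hA
    rw [mem_union] at hA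
    rw [mem_filter]
    rcases hA with hA | hA
    · obtain ⟨h3, h4, -⟩ := sbSpec W hb hb' hne ha hA
      exact ⟨h3, h4⟩
    · obtain ⟨h3, h4, -⟩ := sbSpec W hb' hb hne.symm (by rw [he]; exact ha) hA
      rw [he] at h4
      exact ⟨h3, h4⟩
  have h3 : ∑ A ∈ SB F v Tn y b b' ∪ SB F v Tn y b' b, om Tn y A (y b) ≤ rcv F Tn y (y b) := by
    unfold rcv
    exact sum_le_sum_of_subset_of_nonneg hsub (fun A _ _ => wrNonneg Tn y A (y b))
  have h4 : ∑ A ∈ SB F v Tn y b b' ∪ SB F v Tn y b' b, om Tn y A (y b) =
      ∑ A ∈ SB F v Tn y b b' ∪ SB F v Tn y b' b, (3 / 10 : ℝ) := by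
    refine sum_congr rfl ?_
    intro A hA
    rw [mem_union] at hA
    rcases hA with hA | hA
    · obtain ⟨-, -, -, -, h5⟩ := sbSpec W hb hb' hne ha hA
      exact h5
    · obtain ⟨-, -, -, -, h5⟩ := sbSpec W hb' hb hne.symm (by rw [he]; exact ha) hA
      rw [he] at h5
      exact h5
  rw [h4, sum_const, card_union_of_disjoint hdis, nsmul_eq_mul, Nat.cast_add] at h3
  have h5 := W.big
  linarith

private lemma wrOne {V : Type} [Fintype V] [DecidableEq V] {F : Finset (Finset V)} {v : V}
    {Tn Ta Tp : Finset V} {y : V → V} {N : ℝ} (W : Wh F v Tn Ta Tp y N) {a : V} (ha : a ∉ Tn)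
    (hav : a ≠ v) (hI : (Tn.filter (fun b => y b = a)).card ≤ 1) :
    ((dg F {a} : ℝ) - Tn.card) / 6 ≤ rcv F Tn y a := by
  have hb : ((F.filter (fun A => a ∈ A)).filter (fun A => ∃ c ∈ Cl Tn y A, y c ≠ a)).card ≤
      Tn.card := by
    have hsub : (F.filter (fun A => a ∈ A)).filter (fun A => ∃ c ∈ Cl Tn y A, y c ≠ a) ⊆
        Tn.image (fun c => ({v, c, y c, a} : Finset V)) := by
      intro A hA
      rw [mem_filter, mem_filter] at hA
      obtain ⟨⟨hAF, haA⟩, c, hc, hca⟩ := hA
      unfold Cl at hc
      rw [mem_filter] at hc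
      obtain ⟨hcA, hcT, hyA⟩ := hc
      obtain ⟨h5, h6⟩ := wrPart W hcT
      have hvA := W.mv A hAF
      have h4 := W.u4 A hAF
      have hvc : v ≠ c := by
        rintro rfl
        exact W.hv.1 hcT
      have hac : c ≠ a := by
        rintro rfl
        exact ha hcT
      rw [mem_image]
      refine ⟨c, hcT, ?_⟩
      refine eq_of_subset_of_card_le ?_ ?_
      · intro z
        simp only [mem_insert, mem_singleton]
        rintro (h | h | h | h)
        · rw [h]; exact hvA
        · rw [h]; exact hcA
        · rw [h]; exact hyA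
        · rw [h]; exact haA
      · rw [h4, card_insert_of_notMem, card_insert_of_notMem, card_insert_of_notMem,
          card_singleton]
        · rw [mem_singleton]
          exact hca
        · simp only [mem_insert, mem_singleton, not_or]
          exact ⟨h6, hac⟩
        · simp only [mem_insert, mem_singleton, not_or]
          exact ⟨hvc, h5, hav.symm⟩
    exact (card_le_card hsub).trans card_image_le
  have hd : dg F {a} = (F.filter (fun A => a ∈ A)).card := by
    unfold dg
    refine congrArg card (filter_congr ?_)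
    intro A _
    rw [singleton_subset_iff]
  have hsplit := card_filter_add_card_filter_not (s := F.filter (fun A => a ∈ A))
    (fun A => ∃ c ∈ Cl Tn y A, y c ≠ a)
  have hlow : ∀ A ∈ (F.filter (fun A => a ∈ A)).filter
      (fun A => ¬ ∃ c ∈ Cl Tn y A, y c ≠ a), (1 / 6 : ℝ) ≤ om Tn y A a := by
    intro A hA
    rw [mem_filter] at hA
    obtain ⟨-, hno⟩ := hA
    push Not at hno
    have hle : (Cl Tn y A).card ≤ 1 := by
      refine (card_le_card ?_).trans hI
      intro c hc
      rw [mem_filter]
      refine ⟨?_, hno c hc⟩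
      unfold Cl at hc
      rw [mem_filter] at hc
      exact hc.2.1
    have hna : a ∉ Cl Tn y A := by
      intro h
      unfold Cl at h
      rw [mem_filter] at h
      exact ha h.2.1
    unfold om
    by_cases h0 : (Cl Tn y A).card = 0
    · rw [if_pos h0]
    · have h1 : (Cl Tn y A).card = 1 := by omega
      rw [if_neg h0, if_pos h1, if_neg hna, if_pos]
      · norm_num
      · obtain ⟨c, hc⟩ := card_pos.1 (Nat.pos_of_ne_zero h0)
        exact ⟨c, hc, hno c hc⟩
  have hsum : ∑ A ∈ (F.filter (fun A => a ∈ A)).filter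
      (fun A => ¬ ∃ c ∈ Cl Tn y A, y c ≠ a), (1 / 6 : ℝ) ≤ rcv F Tn y a := by
    unfold rcv
    exact (sum_le_sum hlow).trans
      (sum_le_sum_of_subset_of_nonneg (filter_subset _ _) (fun A _ _ => wrNonneg Tn y A a))
  rw [sum_const, nsmul_eq_mul] at hsum
  have hR : (dg F {a} : ℝ) ≤ Tn.card + (((F.filter (fun A => a ∈ A)).filter
      (fun A => ¬ ∃ c ∈ Cl Tn y A, y c ≠ a)).card : ℝ) := by
    have : dg F {a} ≤ Tn.card + ((F.filter (fun A => a ∈ A)).filter
      (fun A => ¬ ∃ c ∈ Cl Tn y A, y c ≠ a)).card := by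
      rw [hd, ← hsplit]
      exact Nat.add_le_add_right hb _
    exact_mod_cast this
  linarith

theorem tWr : S_Wr := by
  intro V _ _ F v Tn Ta Tp y N W
  have hN := W.big
  have hc := W.card
  obtain ⟨hv1, hv2, hv3⟩ := W.hv
  obtain ⟨hd1, hd2, hd3⟩ := W.dis
  constructor
  · intro a ha
    have han : a ∉ Tn := fun h => (disjoint_left.1 hd1) h ha
    have hav : a ≠ v := by
      rintro rfl
      exact hv2 ha
    rcases Nat.lt_or_ge 1 (Tn.filter (fun b => y b = a)).card with h | h
    · exact wrTwo W han h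
    · have h1 := wrOne W han hav h
      have h2 := W.ta a ha
      linarith
  · intro a ha
    have han : a ∉ Tn := fun h => (disjoint_left.1 hd2) h ha
    have hav : a ≠ v := by
      rintro rfl
      exact hv3 ha
    rcases Nat.lt_or_ge 1 (Tn.filter (fun b => y b = a)).card with h | h
    · have := wrTwo W han h
      linarith
    · have h1 := wrOne W han hav h
      obtain ⟨h2, h3⟩ := W.tp a ha
      linarith

end Pool.Agent.Ham
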