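import Pool.Agent.Lib.MP_716318_co.H.AsmA
import Pool.Agent.Lib.MP_716318_co.H.Ra
import Pool.Agent.Lib.MP_716318_co.H.Rb
import Pool.Agent.Lib.MP_716318_co.H.Rc
import Pool.Agent.Lib.MP_716318_co.H.Rd
import Pool.Agent.Lib.MP_716318_co.H.Stab
import Pool.Agent.Lib.MP_716318_co.H.Wp
import Pool.Agent.Lib.MP_716318_co.H.Wq
import Pool.Agent.Lib.MP_716318_co.H.Wr
import Pool.Agent.Lib.MP_716318_co.H.Wl
import Pool.Agent.Lib.MP_716318_co.H.Pes
import Pool.Agent.Lib.MP_716318_co.H.Ca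
import Pool.Agent.Lib.MP_716318_co.H.Cb
import Pool.Agent.Lib.MP_716318_co.H.Rb2
import Pool.Agent.Lib.MP_716318_co.H.Ra1
import Pool.Agent.Lib.MP_716318_co.H.Na
import Pool.Agent.Lib.MP_716318_co.H.Nb
import Pool.Agent.Lib.MP_716318_co.H.Nt
import Pool.Agent.Lib.MP_716318_co.H.Nc
import Pool.Agent.Lib.MP_716318_co.H.Nd
import Pool.Agent.Lib.MP_716318_co.H.Nd2
import Pool.Agent.Lib.MP_716318_co.H.Ne
import Pool.Agent.Lib.MP_716318_co.H.Nl
import Pool.Agent.Lib.MP_716318_co.H.Nf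
import Pool.Agent.Lib.MP_716318_co.H.Ng
import Pool.Agent.Lib.MP_716318_co.H.Nh
import Pool.Agent.Lib.MP_716318_co.H.Main

/-!
# MP_716318_co, package H: assembly of Theorem B
-/

set_option autoImplicit false

namespace Pool.Agent.Ham

theorem stab : S_Stab := tStab gt (tCost tTwo) tPr tSum (tRd tRa tRb tRc tPr)

theorem wl : S_Wl := tWl tWp tWq tWr

theorem pes : S_Pes := tPes pe

theorem nl : S_Nl := tNl (tNe (tNb pes) tNt) tNt

theorem nh : S_Nh := tNh (tNc (tNa pes) tNt) (tNd (tNa pes) tNt) tNd2 tNt (tNf nl wl tNt) nl tNg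

theorem main : S_Main := tMain stab (tCa pes) (tRb2 (tCb pes) wl) (tRa1 tTwo) nh

end Pool.Agent.Ham
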