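import Pool.Agent.Lib.MP_716318_co.H.Spec6

/-!
# MP_716318_co, package H: from two choices to an acceptable cycle (`S_OsCc`)
-/

set_option autoImplicit false

namespace Pool.Agent.Ham

open Finset
open scoped Classical

private lemma ne4 {V : Type} [DecidableEq V] {F : Finset (Finset V)} (hF : U4 F) {a b c d : V}
    (h : ({a, b, c, d} : Finset V) ∈ F) : a ≠ c ∧ b ≠ c ∧ a ≠ d := by
  have h4 := hF _ h
  refine ⟨?_, ?_, ?_⟩
  · rintro rfl
    have : ({a, b, a, d} : Finset V) = {b, a, d} := by
      rw [Finset.insert_eq_of_mem]; simp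
    rw [this] at h4
    have := Finset.card_le_three (a := b) (b := a) (c := d)
    omega
  · rintro rfl
    have : ({a, b, b, d} : Finset V) = {a, b, d} := by
      rw [Finset.insert_eq_of_mem (a := b) (s := {b, d})]; simp
    rw [this] at h4
    have := Finset.card_le_three (a := a) (b := b) (c := d)
    omega
  · rintro rfl
    have : ({a, b, c, a} : Finset V) = {b, c, a} := by
      rw [Finset.insert_eq_of_mem]; simp
    rw [this] at h4
    have := Finset.card_le_three (a := b) (b := c) (c := a)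
    omega

private lemma ex_out {V : Type} [Fintype V] (U : Finset V) (h : U.card < Fintype.card V) :
    ∃ s, s ∉ U := by
  by_contra hc
  push Not at hc
  have : U = univ := Finset.eq_univ_iff_forall.mpr hc
  rw [this, Finset.card_univ] at h
  omega

private lemma dg_off {V : Type} [DecidableEq V] (F : Finset (Finset V)) (J S : Finset V) :
    dg (off F J) S ≤ dg F S := by
  unfold dg off
  exact Finset.card_le_card (Finset.filter_subset_filter _ (Finset.filter_subset _ _))

/-- The edges of the blocks. -/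
private noncomputable def EE {V : Type} (J : Finset V) (a a' : {v // v ∈ J} → {x // x ∉ J}) :
    List (V × V) :=
  (univ : Finset {v // v ∈ J}).toList.map (fun v => ((a v).1, v.1)) ++
    (univ : Finset {v // v ∈ J}).toList.map (fun v => (v.1, (a' v).1))

/-- The blocks. -/
private noncomputable def BB {V : Type} (J : Finset V) (a a' : {v // v ∈ J} → {x // x ∉ J}) :
    List (List V) :=
  (univ : Finset {v // v ∈ J}).toList.map (fun v => [(a v).1, v.1, (a' v).1])

private lemma mem_EE {V : Type} (J : Finset V) (a a' : {v // v ∈ J} → {x // x ∉ J}) (e : V × V) :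
    e ∈ EE J a a' ↔ ∃ v, e = ((a v).1, v.1) ∨ e = (v.1, (a' v).1) := by
  unfold EE
  simp only [List.mem_append, List.mem_map, Finset.mem_toList, Finset.mem_univ, true_and]
  constructor
  · rintro (⟨v, rfl⟩ | ⟨v, rfl⟩)
    · exact ⟨v, Or.inl rfl⟩
    · exact ⟨v, Or.inr rfl⟩
  · rintro ⟨v, rfl | rfl⟩
    · exact Or.inl ⟨v, rfl⟩
    · exact Or.inr ⟨v, rfl⟩

private lemma mem_BB {V : Type} (J : Finset V) (a a' : {v // v ∈ J} → {x // x ∉ J}) (B : List V) :
    B ∈ BB J a a' ↔ ∃ v, B = [(a v).1, v.1, (a' v).1] := by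
  unfold BB
  simp only [List.mem_map, Finset.mem_toList, Finset.mem_univ, true_and]
  constructor
  · rintro ⟨v, rfl⟩; exact ⟨v, rfl⟩
  · rintro ⟨v, rfl⟩; exact ⟨v, rfl⟩

private lemma mem_fl {V : Type} (J : Finset V) (a a' : {v // v ∈ J} → {x // x ∉ J}) (x : V) :
    x ∈ (BB J a a').flatten ↔ ∃ v, x = (a v).1 ∨ x = v.1 ∨ x = (a' v).1 := by
  simp only [List.mem_flatten, mem_BB]
  constructor
  · rintro ⟨_, ⟨v, rfl⟩, hx⟩
    simp only [List.mem_cons, List.not_mem_nil, or_false] at hx
    exact ⟨v, hx⟩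
  · rintro ⟨v, hx⟩
    refine ⟨_, ⟨v, rfl⟩, ?_⟩
    simp only [List.mem_cons, List.not_mem_nil, or_false]
    exact hx

private lemma len_EE {V : Type} (J : Finset V) (a a' : {v // v ∈ J} → {x // x ∉ J}) :
    (EE J a a').length = 2 * J.card := by
  unfold EE
  simp only [List.length_append, List.length_map, Finset.length_toList, Finset.card_univ,
    Fintype.card_coe]
  omega

private lemma len_fl {V : Type} (J : Finset V) (a a' : {v // v ∈ J} → {x // x ∉ J}) :
    ((BB J a a').flatten).length = 3 * J.card := by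
  have : ∀ L : List {v // v ∈ J},
      ((L.map (fun v => [(a v).1, v.1, (a' v).1])).flatten).length = 3 * L.length := by
    intro L
    induction L with
    | nil => simp
    | cons v L ih =>
      simp only [List.map_cons, List.flatten_cons, List.length_append, ih, List.length_cons,
        List.length_nil]
      omega
  unfold BB
  rw [this, Finset.length_toList, Finset.card_univ, Fintype.card_coe]

private lemma nd_fl {V : Type} (J : Finset V) (a a' : {v // v ∈ J} → {x // x ∉ J})
    (ha : Function.Injective a) (ha' : Function.Injective a') (hd : ∀ v w, a v ≠ a' w) :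
    ((BB J a a').flatten).Nodup := by
  have hJ : ∀ (v w : {v // v ∈ J}) (b : {v // v ∈ J} → {x // x ∉ J}), (b w).1 ≠ v.1 :=
    fun v w b h => (b w).2 (h ▸ v.2)
  rw [List.nodup_flatten]
  constructor
  · intro B hB
    obtain ⟨v, rfl⟩ := (mem_BB J a a' B).mp hB
    simp only [List.nodup_cons, List.mem_cons, List.not_mem_nil, or_false, not_or,
      List.nodup_nil, and_true, not_false_eq_true]
    exact ⟨⟨hJ v v a, fun h => hd v v (Subtype.ext h)⟩, fun h => hJ v v a' h.symm⟩
  · unfold BB
    rw [List.pairwise_map]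
    refine List.Pairwise.imp ?_ (Finset.nodup_toList _)
    intro v w hvw x hx hy
    simp only [List.mem_cons, List.not_mem_nil, or_false] at hx hy
    rcases hx with rfl | rfl | rfl
    · rcases hy with h | h | h
      · exact hvw (ha (Subtype.ext h))
      · exact hJ w v a h
      · exact hd v w (Subtype.ext h)
    · rcases hy with h | h | h
      · exact hJ v w a h.symm
      · exact hvw (Subtype.ext h)
      · exact hJ v w a' h.symm
    · rcases hy with h | h | h
      · exact hd w v (Subtype.ext h.symm)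
      · exact hJ w v a' h
      · exact hvw (ha' (Subtype.ext h))

private lemma gs_le {V : Type} [Fintype V] [DecidableEq V] (F : Finset (Finset V)) (J : Finset V)
    (a a' : {v // v ∈ J} → {x // x ∉ J}) (x : V) :
    gs F J (EE J a a') x ≤ Sy F J a x + Sy F J a' x := by
  unfold gs Sy ch
  rw [← Finset.sum_add_distrib]
  have hsub : (univ.filter (fun y => y ∉ J ∧ Gs F (EE J a a') x y)) ⊆
      (univ : Finset {v // v ∈ J}).biUnion (fun v =>
        (univ.filter (fun t => t ∉ J ∧ ({v.1, (a v).1, x, t} : Finset V) ∈ F)) ∪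
        (univ.filter (fun t => t ∉ J ∧ ({v.1, (a' v).1, x, t} : Finset V) ∈ F))) := by
    intro y hy
    obtain ⟨hyJ, e, he, hc⟩ := (Finset.mem_filter.mp hy).2
    obtain ⟨v, rfl | rfl⟩ := (mem_EE J a a' e).mp he
    · refine Finset.mem_biUnion.mpr ⟨v, Finset.mem_univ _, Finset.mem_union_left _ ?_⟩
      refine Finset.mem_filter.mpr ⟨Finset.mem_univ _, hyJ, ?_⟩
      have : ({v.1, (a v).1, x, y} : Finset V) = {(a v).1, v.1, x, y} := Finset.insert_comm _ _ _
      rw [this]; exact hc
    · refine Finset.mem_biUnion.mpr ⟨v, Finset.mem_univ _, Finset.mem_union_right _ ?_⟩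
      exact Finset.mem_filter.mpr ⟨Finset.mem_univ _, hyJ, hc⟩
  refine (Finset.card_le_card hsub).trans (Finset.card_biUnion_le.trans ?_)
  exact Finset.sum_le_sum fun v _ => Finset.card_union_le _ _


private lemma oc_card4 {V : Type} [DecidableEq V] {p q x y : V}
    (h : ({p, q, x, y} : Finset V).card = 4) :
    p ≠ q ∧ p ≠ x ∧ p ≠ y ∧ q ≠ x ∧ q ≠ y ∧ x ≠ y := by
  have h3 : ∀ a b c : V, ({a, b, c} : Finset V).card ≤ 3 := fun a b c => Finset.card_le_three
  refine ⟨?_, ?_, ?_, ?_, ?_, ?_⟩
  · rintro rfl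
    have := h3 p x y
    rw [Finset.insert_eq_of_mem (by simp)] at h
    omega
  · rintro rfl
    have := h3 q p y
    rw [Finset.insert_eq_of_mem (by simp)] at h
    omega
  · rintro rfl
    have := h3 q x p
    rw [Finset.insert_eq_of_mem (by simp)] at h
    omega
  · rintro rfl
    have := h3 p q y
    rw [Finset.insert_eq_of_mem (a := q) (by simp)] at h
    omega
  · rintro rfl
    have := h3 p x q
    rw [Finset.insert_eq_of_mem (a := q) (by simp)] at h
    omega
  · rintro rfl
    have := h3 p q x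
    rw [Finset.insert_eq_of_mem (a := x) (by simp)] at h
    omega

private lemma oc_sum0 {V : Type} [Fintype V] [DecidableEq V] (G : Finset (Finset V)) (hG : U4 G)
    (p q : V) :
    ∑ x, (univ.filter (fun y => ({p, q, x, y} : Finset V) ∈ G)).card ≤ 2 * dg G {q} := by
  have h1 : ∑ x, (univ.filter (fun y => ({p, q, x, y} : Finset V) ∈ G)).card =
      ((univ : Finset (V × V)).filter (fun z => ({p, q, z.1, z.2} : Finset V) ∈ G)).card := by
    rw [Finset.card_filter, Fintype.sum_prod_type]
    exact Finset.sum_congr rfl (fun x _ => Finset.card_filter _ _)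
  rw [h1]
  unfold dg
  refine Finset.card_le_mul_card_image_of_maps_to
    (f := fun z : V × V => ({p, q, z.1, z.2} : Finset V)) ?_ 2 ?_
  · intro z hz
    have hz' := (Finset.mem_filter.mp hz).2
    refine Finset.mem_filter.mpr ⟨hz', ?_⟩
    simp
  · intro A hA
    have hA' := (Finset.mem_filter.mp hA).1
    have hA4 := hG A hA'
    rcases Finset.eq_empty_or_nonempty (((univ : Finset (V × V)).filter
          (fun z => ({p, q, z.1, z.2} : Finset V) ∈ G)).filter
          (fun z => ({p, q, z.1, z.2} : Finset V) = A)) with he | hne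
    · rw [he]; simp
    · refine le_trans (Finset.card_le_card (t := ((A.erase p).erase q).offDiag) ?_) ?_
      · intro z hz
        have hz2 := (Finset.mem_filter.mp hz).2
        have hz2' : ({p, q, z.1, z.2} : Finset V) = A := hz2
        have h4 : ({p, q, z.1, z.2} : Finset V).card = 4 := by rw [hz2']; exact hA4
        obtain ⟨h12, h13, h14, h23, h24, h34⟩ := oc_card4 h4
        rw [Finset.mem_offDiag, ← hz2']
        refine ⟨?_, ?_, h34⟩
        · simp only [Finset.mem_erase, Finset.mem_insert, Finset.mem_singleton]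
          exact ⟨h23.symm, h13.symm, by tauto⟩
        · simp only [Finset.mem_erase, Finset.mem_insert, Finset.mem_singleton]
          exact ⟨h24.symm, h14.symm, by tauto⟩
      · obtain ⟨z, hz⟩ := hne
        have hz2' : ({p, q, z.1, z.2} : Finset V) = A := (Finset.mem_filter.mp hz).2
        have h4 : ({p, q, z.1, z.2} : Finset V).card = 4 := by rw [hz2']; exact hA4
        obtain ⟨h12, h13, h14, h23, h24, h34⟩ := oc_card4 h4
        have hp : p ∈ A := by rw [← hz2']; simp
        have hq : q ∈ A.erase p := by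
          rw [← hz2']
          simp only [Finset.mem_erase, Finset.mem_insert, Finset.mem_singleton]
          exact ⟨h12.symm, by tauto⟩
        rw [Finset.offDiag_card, Finset.card_erase_of_mem hq, Finset.card_erase_of_mem hp, hA4]

/-- the sum of the `c3` -/
private lemma oc_sum {V : Type} [Fintype V] [DecidableEq V] (F : Finset (Finset V)) (hF : U4 F)
    (t s : V) : ∑ x, c3 F t s x ≤ 2 * dg F {t, s} := by
  have h1 : ∀ x, c3 F t s x = c3 (F.filter (fun A => ({t, s} : Finset V) ⊆ A)) t s x := by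
    intro x
    unfold c3
    congr 1
    apply Finset.filter_congr
    intro y _
    rw [Finset.mem_filter]
    constructor
    · intro h
      refine ⟨h, ?_⟩
      intro u hu
      simp only [Finset.mem_insert, Finset.mem_singleton] at hu ⊢
      tauto
    · exact fun h => h.1
  rw [Finset.sum_congr rfl (fun x _ => h1 x)]
  refine (oc_sum0 (F.filter (fun A => ({t, s} : Finset V) ⊆ A))
    (fun A hA => hF A (Finset.mem_of_mem_filter A hA)) t s).trans ?_
  apply Nat.mul_le_mul_left
  unfold dg
  exact Finset.card_le_card (Finset.filter_subset _ _)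

private lemma oc_c3_le {V : Type} [Fintype V] [DecidableEq V] (F : Finset (Finset V))
    (hU : U4 F) (x y z : V) : c3 F x y z ≤ dg F {x, y} := by
  unfold c3 dg
  apply Finset.card_le_card_of_injOn (fun t => ({x, y, z, t} : Finset V))
  · intro t ht
    rw [Finset.mem_coe, Finset.mem_filter] at ht
    rw [Finset.mem_coe, Finset.mem_filter]
    refine ⟨ht.2, ?_⟩
    intro u hu
    simp only [Finset.mem_insert, Finset.mem_singleton] at hu ⊢
    tauto
  · intro t ht t' ht' htt
    rw [Finset.mem_coe, Finset.mem_filter] at ht ht'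
    obtain ⟨-, -, h3, -, h5, h6⟩ := oc_card4 (hU _ ht.2)
    have h7 : t ∈ ({x, y, z, t'} : Finset V) := by
      have h8 : t ∈ ({x, y, z, t} : Finset V) := by simp
      have h9 : ({x, y, z, t} : Finset V) = {x, y, z, t'} := htt
      rw [← h9]
      exact h8
    simp only [Finset.mem_insert, Finset.mem_singleton] at h7
    rcases h7 with h | h | h | h
    · exact absurd h.symm h3
    · exact absurd h.symm h5
    · exact absurd h.symm h6
    · exact h

/-- few vertices have a large common degree with `s` -/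
private lemma oc_cnt {V : Type} [Fintype V] [DecidableEq V] (F : Finset (Finset V)) (hU : U4 F)
    (s : V) (T : ℝ) :
    T * (univ.filter (fun t => t ≠ s ∧ T < (dg F {s, t} : ℝ))).card ≤ 3 * dg F {s} := by
  obtain ⟨B, hB⟩ : ∃ B : Finset V, B = univ.filter (fun t => t ≠ s ∧ T < (dg F {s, t} : ℝ)) :=
    ⟨_, rfl⟩
  rw [← hB]
  have h1 : (B.card : ℝ) * T ≤ ∑ t ∈ B, (dg F {s, t} : ℝ) := by
    have := Finset.card_nsmul_le_sum B (fun t => (dg F {s, t} : ℝ)) T (by
      intro t ht
      rw [hB, Finset.mem_filter] at ht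
      exact ht.2.2.le)
    rwa [nsmul_eq_mul] at this
  have h2 : ∑ t ∈ B, dg F {s, t} ≤ 3 * dg F {s} := by
    have e1 : ∀ t, dg F {s, t} = ∑ A ∈ F.filter (fun A => ({s} : Finset V) ⊆ A),
        if t ∈ A then 1 else 0 := by
      intro t
      rw [← Finset.card_filter, Finset.filter_filter]
      unfold dg
      congr 1
      apply Finset.filter_congr
      intro A _
      rw [Finset.insert_subset_iff, Finset.singleton_subset_iff, Finset.singleton_subset_iff]
    simp only [e1]
    rw [Finset.sum_comm]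
    have e2 : ∀ A ∈ F.filter (fun A => ({s} : Finset V) ⊆ A),
        (∑ t ∈ B, if t ∈ A then 1 else 0) ≤ 3 := by
      intro A hA
      rw [Finset.mem_filter, Finset.singleton_subset_iff] at hA
      rw [← Finset.card_filter]
      have e3 : (B.filter (fun t => t ∈ A)) ⊆ A.erase s := by
        intro t ht
        rw [Finset.mem_filter, hB, Finset.mem_filter] at ht
        exact Finset.mem_erase.mpr ⟨ht.1.2.1, ht.2⟩
      have e4 := Finset.card_le_card e3
      rw [Finset.card_erase_of_mem hA.2, hU A hA.1] at e4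
      exact e4
    have e5 := Finset.sum_le_card_nsmul _ _ 3 e2
    rw [smul_eq_mul, mul_comm] at e5
    unfold dg
    exact e5
  have h3 : (∑ t ∈ B, (dg F {s, t} : ℝ)) ≤ 3 * dg F {s} := by exact_mod_cast h2
  linarith

/-- few vertices have a large value of `f` -/
private lemma oc_mk {V : Type} [Fintype V] [DecidableEq V] (J : Finset V) (f : V → ℕ) (M T : ℝ)
    (h : (∑ y ∈ univ.filter (fun y => y ∉ J), (f y : ℝ)) ≤ M) :
    T * (univ.filter (fun y => y ∉ J ∧ T < (f y : ℝ))).card ≤ M := by
  have h1 : ((univ.filter (fun y => y ∉ J ∧ T < (f y : ℝ))).card : ℝ) * T ≤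
      ∑ y ∈ univ.filter (fun y => y ∉ J ∧ T < (f y : ℝ)), (f y : ℝ) := by
    have := Finset.card_nsmul_le_sum (univ.filter (fun y => y ∉ J ∧ T < (f y : ℝ)))
      (fun y => (f y : ℝ)) T (by
      intro t ht
      rw [Finset.mem_filter] at ht
      exact ht.2.2.le)
    rwa [nsmul_eq_mul] at this
  have h2 : ∑ y ∈ univ.filter (fun y => y ∉ J ∧ T < (f y : ℝ)), (f y : ℝ) ≤
      ∑ y ∈ univ.filter (fun y => y ∉ J), (f y : ℝ) := by
    apply Finset.sum_le_sum_of_subset_of_nonneg
    · intro y hy
      rw [Finset.mem_filter] at hy ⊢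
      exact ⟨hy.1, hy.2.1⟩
    · intro _ _ _
      exact Nat.cast_nonneg _
  linarith

/-- the vertices in conflict with one of the fixed edges, for a fixed second vertex `s` -/
private lemma oc_bad {V : Type} [Fintype V] [DecidableEq V] (F : Finset (Finset V)) (J : Finset V)
    (a : {v // v ∈ J} → {x // x ∉ J}) (s : V) :
    (univ.filter (fun t => t ∉ J ∧ ∃ v, ({v.1, (a v).1, s, t} : Finset V) ∈ F)).card ≤
      Sy F J a s := by
  unfold Sy ch
  have hsub : (univ.filter (fun t => t ∉ J ∧ ∃ v, ({v.1, (a v).1, s, t} : Finset V) ∈ F)) ⊆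
      (univ : Finset {v // v ∈ J}).biUnion (fun v =>
        (univ.filter (fun t => t ∉ J ∧ ({v.1, (a v).1, s, t} : Finset V) ∈ F))) := by
    intro y hy
    obtain ⟨-, hyJ, v, hv⟩ := Finset.mem_filter.mp hy
    refine Finset.mem_biUnion.mpr ⟨v, Finset.mem_univ _, ?_⟩
    exact Finset.mem_filter.mpr ⟨Finset.mem_univ _, hyJ, hv⟩
  exact (Finset.card_le_card hsub).trans Finset.card_biUnion_le

private lemma oc_gs {V : Type} [Fintype V] [DecidableEq V] (F : Finset (Finset V)) (J : Finset V)
    (E : List (V × V)) (t s x : V) :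
    gs F J ((t, s) :: E) x ≤ gs F J E x + c3 F t s x := by
  unfold gs c3
  refine (Finset.card_le_card ?_).trans (Finset.card_union_le _ _)
  intro y hy
  obtain ⟨-, hyJ, e, he, hc⟩ := Finset.mem_filter.mp hy
  rcases List.mem_cons.mp he with rfl | he
  · exact Finset.mem_union_right _ (Finset.mem_filter.mpr ⟨Finset.mem_univ _, hc⟩)
  · exact Finset.mem_union_left _ (Finset.mem_filter.mpr ⟨Finset.mem_univ _, hyJ, e, he, hc⟩)

private lemma oc_perm {V : Type} [DecidableEq V] (a b c d : V) :
    ({a, b, c, d} : Finset V) = {b, a, c, d} ∧ ({a, b, c, d} : Finset V) = {a, b, d, c} ∧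
    ({a, b, c, d} : Finset V) = {b, a, d, c} ∧ ({a, b, c, d} : Finset V) = {c, d, a, b} ∧
    ({a, b, c, d} : Finset V) = {d, c, a, b} ∧ ({a, b, c, d} : Finset V) = {c, d, b, a} ∧
    ({a, b, c, d} : Finset V) = {d, c, b, a} := by
  refine ⟨?_, ?_, ?_, ?_, ?_, ?_, ?_⟩ <;>
    (ext x; simp only [Finset.mem_insert, Finset.mem_singleton]; tauto)

theorem tOsCc : S_Pe → S_Sum → S_OsCc := by
  intro hPe hSum γ δ ε hγ hγ1 hδ hδ1 hε hε1
  have hK : (1 : ℝ) ≤ 6 / ε + 128 / γ + 10 := by
    have h1 : 0 < 6 / ε := by positivity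
    have h2 : 0 < 128 / γ := by positivity
    linarith
  obtain ⟨η, hη, n0', hPe⟩ := hPe (δ / 4) (6 / ε + 128 / γ + 10) (by linarith) (by linarith) hK
  refine ⟨min η (δ / 1000), lt_min hη (by positivity), ?_⟩
  intro ε' hε' hε'2
  have hε'3 : ε' ≤ δ / 1000 := hε'2.trans (min_le_right _ _)
  have hε'2 : ε' ≤ η := hε'2.trans (min_le_left _ _)
  refine ⟨n0' + ⌈2 * (6 / ε + 2 / ε' + 12800 / γ)⌉₊ + 100, ?_⟩
  intro V _ _ F hU hn h2F ⟨a, a', hP⟩
  obtain ⟨J, hJ⟩ : ∃ J, J = He F ε := ⟨_, rfl⟩
  revert a a'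
  rw [← hJ]
  intro a a' hP
  obtain ⟨-, -, hs3⟩ := hSum V F hU
  obtain ⟨n, hnn⟩ : ∃ n, n = Fintype.card V := ⟨_, rfl⟩
  rw [← hnn] at hn h2F
  simp only [← hnn] at hs3
  have hn0 : (0 : ℝ) < n := by
    have : 0 < n := by omega
    exact_mod_cast this
  have hn2 : (0 : ℝ) < (n : ℝ) ^ 2 := by positivity
  have h2Fr : 2 * (F.card : ℝ) ≤ (n : ℝ) ^ 2 := by exact_mod_cast h2F
  have hHe : ∀ e : ℝ, 0 < e → ((He F e).card : ℝ) ≤ 2 / e := by
    intro e he
    have h1 := hs3 e
    rw [le_div_iff₀ he]
    have h2 : ((He F e).card : ℝ) * e * (n : ℝ) ^ 2 ≤ 2 * (n : ℝ) ^ 2 := by nlinarith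
    exact le_of_mul_le_mul_right h2 hn2
  have hJc : (J.card : ℝ) ≤ 2 / ε := hJ ▸ hHe ε hε
  have hH'c := hHe ε' hε'
  have hbig : 2 * (6 / ε + 2 / ε' + 12800 / γ) + 100 ≤ (n : ℝ) := by
    have h1 : (⌈2 * (6 / ε + 2 / ε' + 12800 / γ)⌉₊ : ℝ) + 100 ≤ n := by
      have : ⌈2 * (6 / ε + 2 / ε' + 12800 / γ)⌉₊ + 100 ≤ n := by omega
      exact_mod_cast this
    have h2 := Nat.le_ceil (2 * (6 / ε + 2 / ε' + 12800 / γ))
    linarith
  have h6 : 3 * (2 / ε) = 6 / ε := by ring
  -- degrees
  have hdJ : ∀ x, x ∉ J → (dg F {x} : ℝ) < ε * (n : ℝ) ^ 2 := by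
    intro x hx
    by_contra hc
    apply hx
    rw [hJ]
    refine Finset.mem_filter.mpr ⟨Finset.mem_univ _, ?_⟩
    rw [← hnn]
    exact not_lt.mp hc
  obtain ⟨hmix, ha, ha', haa, hch⟩ := hP
  have g0 := hmix ∅
  have g1 := hmix univ
  simp only [Finset.notMem_empty, if_false, Finset.mem_univ, if_true] at g0 g1
  -- the two end points
  have s0 := g0.2.2.2.1
  have s1 := g1.2.2.2.1
  rw [← hnn] at s0 s1
  obtain ⟨Y0, hY0⟩ : ∃ Y0 : Finset V,
    Y0 = univ.filter (fun y => y ∉ J ∧ (n : ℝ) / 100 < (Sy F J a y : ℝ)) := ⟨_, rfl⟩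
  obtain ⟨Y1, hY1⟩ : ∃ Y1 : Finset V,
    Y1 = univ.filter (fun y => y ∉ J ∧ (n : ℝ) / 100 < (Sy F J a' y : ℝ)) := ⟨_, rfl⟩
  have hYc : ∀ k : ℝ, (n : ℝ) / 100 * k ≤ 64 / γ * n → k ≤ 6400 / γ := by
    intro k hk
    have h1 : 64 / γ * (n : ℝ) = (n : ℝ) / 100 * (6400 / γ) := by ring
    rw [h1] at hk
    exact le_of_mul_le_mul_left hk (by positivity)
  have hY0c : (Y0.card : ℝ) ≤ 6400 / γ := by
    rw [hY0]
    exact hYc _ (oc_mk J (fun y => Sy F J a y) _ _ s0)
  have hY1c : (Y1.card : ℝ) ≤ 6400 / γ := by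
    rw [hY1]
    exact hYc _ (oc_mk J (fun y => Sy F J a' y) _ _ s1)
  obtain ⟨U, hUdef⟩ : ∃ U : Finset V, U = J ∪ (univ.image (fun v => (a v).1)) ∪
    (univ.image (fun v => (a' v).1)) ∪ He F ε' ∪ Y0 ∪ Y1 := ⟨_, rfl⟩
  have hUc : U.card ≤ J.card + J.card + J.card + (He F ε').card + Y0.card + Y1.card := by
    rw [hUdef]
    refine (Finset.card_union_le _ _).trans (Nat.add_le_add_right ?_ _)
    refine (Finset.card_union_le _ _).trans (Nat.add_le_add_right ?_ _)
    refine (Finset.card_union_le _ _).trans (Nat.add_le_add_right ?_ _)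
    refine (Finset.card_union_le _ _).trans (Nat.add_le_add ?_ ?_)
    · refine (Finset.card_union_le _ _).trans (Nat.add_le_add_left ?_ _)
      refine Finset.card_image_le.trans (le_of_eq ?_)
      rw [Finset.card_univ, Fintype.card_coe]
    · refine Finset.card_image_le.trans (le_of_eq ?_)
      rw [Finset.card_univ, Fintype.card_coe]
  have hUr1 : (U.card : ℝ) ≤ 6 / ε + 2 / ε' + 12800 / γ := by
    have h1 : (U.card : ℝ) ≤ J.card + J.card + J.card + (He F ε').card + Y0.card + Y1.card := by
      exact_mod_cast hUc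
    have h2 : 6400 / γ + 6400 / γ = 12800 / γ := by ring
    linarith
  have hUr : (U.card : ℝ) + 1 < n := by
    have h1 : 0 < 6 / ε := by positivity
    have h2 : 0 < 2 / ε' := by positivity
    have h3 : 0 < 12800 / γ := by positivity
    linarith
  have hUn : U.card + 1 < Fintype.card V := by
    rw [← hnn]; exact_mod_cast hUr
  obtain ⟨s, hs⟩ := ex_out U (by omega)
  have hout : ∀ x, x ∉ U → x ∉ J ∧ (∀ v, x ≠ (a v).1) ∧ (∀ v, x ≠ (a' v).1) ∧
      (dg F {x} : ℝ) ≤ ε' * (n : ℝ) ^ 2 := by
    intro x hx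
    rw [hUdef] at hx
    simp only [Finset.mem_union, not_or, Finset.mem_image, Finset.mem_univ, true_and,
      not_exists] at hx
    obtain ⟨⟨⟨⟨⟨x1, x2⟩, x3⟩, x4⟩, -⟩, -⟩ := hx
    refine ⟨x1, fun v h => x2 v h.symm, fun v h => x3 v h.symm, ?_⟩
    by_contra hc
    apply x4
    refine Finset.mem_filter.mpr ⟨Finset.mem_univ _, ?_⟩
    rw [← hnn]
    exact (not_le.mp hc).le
  -- the second end point
  have hsS : (Sy F J a s : ℝ) ≤ (n : ℝ) / 100 ∧ (Sy F J a' s : ℝ) ≤ (n : ℝ) / 100 := by
    have hs' := hs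
    rw [hUdef] at hs'
    simp only [Finset.mem_union, not_or] at hs'
    obtain ⟨⟨-, h0⟩, h1⟩ := hs'
    have hsJ := (hout s hs).1
    constructor
    · by_contra hc
      apply h0
      rw [hY0]
      exact Finset.mem_filter.mpr ⟨Finset.mem_univ _, hsJ, not_le.mp hc⟩
    · by_contra hc
      apply h1
      rw [hY1]
      exact Finset.mem_filter.mpr ⟨Finset.mem_univ _, hsJ, not_le.mp hc⟩
  obtain ⟨Q1, hQ1⟩ : ∃ Q1 : Finset V,
    Q1 = univ.filter (fun t => t ≠ s ∧ δ * (n : ℝ) / 16 < (dg F {s, t} : ℝ)) := ⟨_, rfl⟩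
  have hδn0 : 0 < δ * (n : ℝ) := mul_pos hδ hn0
  have hQ1c : (Q1.card : ℝ) ≤ (n : ℝ) / 20 := by
    have h1 := oc_cnt F hU s (δ * (n : ℝ) / 16)
    rw [← hQ1] at h1
    have h2 := (hout s hs).2.2.2
    have h3 : ε' * (n : ℝ) ^ 2 ≤ δ / 1000 * (n : ℝ) ^ 2 :=
      mul_le_mul_of_nonneg_right hε'3 hn2.le
    have h4 : δ * (n : ℝ) / 16 * Q1.card ≤ δ * (n : ℝ) / 16 * ((n : ℝ) / 20) := by
      nlinarith
    exact le_of_mul_le_mul_left h4 (by positivity)
  obtain ⟨t, ht⟩ := ex_out (insert s (U ∪ Q1 ∪
      univ.filter (fun t => t ∉ J ∧ ∃ v, ({v.1, (a v).1, s, t} : Finset V) ∈ F) ∪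
      univ.filter (fun t => t ∉ J ∧ ∃ v, ({v.1, (a' v).1, s, t} : Finset V) ∈ F))) (by
    have k1 := Finset.card_insert_le s (U ∪ Q1 ∪
      univ.filter (fun t => t ∉ J ∧ ∃ v, ({v.1, (a v).1, s, t} : Finset V) ∈ F) ∪
      univ.filter (fun t => t ∉ J ∧ ∃ v, ({v.1, (a' v).1, s, t} : Finset V) ∈ F))
    have k2 := Finset.card_union_le (U ∪ Q1 ∪
      univ.filter (fun t => t ∉ J ∧ ∃ v, ({v.1, (a v).1, s, t} : Finset V) ∈ F))
      (univ.filter (fun t => t ∉ J ∧ ∃ v, ({v.1, (a' v).1, s, t} : Finset V) ∈ F))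
    have k3 := Finset.card_union_le (U ∪ Q1)
      (univ.filter (fun t => t ∉ J ∧ ∃ v, ({v.1, (a v).1, s, t} : Finset V) ∈ F))
    have k4 := Finset.card_union_le U Q1
    have k5 := oc_bad F J a s
    have k6 := oc_bad F J a' s
    have k7 : (insert s (U ∪ Q1 ∪
      univ.filter (fun t => t ∉ J ∧ ∃ v, ({v.1, (a v).1, s, t} : Finset V) ∈ F) ∪
      univ.filter (fun t => t ∉ J ∧ ∃ v, ({v.1, (a' v).1, s, t} : Finset V) ∈ F))).card ≤
      U.card + Q1.card + Sy F J a s + Sy F J a' s + 1 := by omega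
    have k8 : (U.card : ℝ) + Q1.card + Sy F J a s + Sy F J a' s + 1 < n := by
      have h1 := hsS.1
      have h2 := hsS.2
      linarith
    have k9 : U.card + Q1.card + Sy F J a s + Sy F J a' s + 1 < n := by exact_mod_cast k8
    rw [← hnn]
    omega)
  simp only [Finset.mem_insert, Finset.mem_union, not_or] at ht
  obtain ⟨hts, ⟨⟨htU, htQ⟩, htb⟩, htb'⟩ := ht
  have htJ := (hout t htU).1
  have hdst : (dg F {t, s} : ℝ) ≤ δ * (n : ℝ) / 16 := by
    by_contra hc
    apply htQ
    rw [hQ1]
    refine Finset.mem_filter.mpr ⟨Finset.mem_univ _, hts, ?_⟩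
    rw [Finset.pair_comm]
    exact not_le.mp hc
  have hcz : ∀ v : {v // v ∈ J}, ({v.1, (a v).1, s, t} : Finset V) ∉ F := by
    intro v hv
    exact htb (Finset.mem_filter.mpr ⟨Finset.mem_univ _, htJ, v, hv⟩)
  have hcz' : ∀ v : {v // v ∈ J}, ({v.1, (a' v).1, s, t} : Finset V) ∉ F := by
    intro v hv
    exact htb' (Finset.mem_filter.mpr ⟨Finset.mem_univ _, htJ, v, hv⟩)
  have hnf : ∀ x, x ∉ U → x ∉ (BB J a a').flatten := by
    intro x hx hm
    obtain ⟨v, h | h | h⟩ := (mem_fl J a a' x).mp hm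
    · exact (hout x hx).2.1 v h
    · exact (hout x hx).1 (h ▸ v.2)
    · exact (hout x hx).2.2.1 v h
  -- conflicts
  have hz : ∀ S : Finset {v // v ∈ J}, ∀ v w : {v // v ∈ J}, v ≠ w →
      ({v.1, ((if v ∈ S then a' v else a v) : {x // x ∉ J}).1, w.1,
        ((if w ∈ S then a' w else a w) : {x // x ∉ J}).1} : Finset V) ∉ F := by
    intro S v w hvw
    exact (hmix S).1.2 v w hvw
  have z00 : ∀ v w : {v // v ∈ J}, v ≠ w → ({v.1, (a v).1, w.1, (a w).1} : Finset V) ∉ F := by
    intro v w hvw
    have := hz ∅ v w hvw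
    simpa using this
  have z11 : ∀ v w : {v // v ∈ J}, v ≠ w → ({v.1, (a' v).1, w.1, (a' w).1} : Finset V) ∉ F := by
    intro v w hvw
    have := hz univ v w hvw
    simpa using this
  have z10 : ∀ v w : {v // v ∈ J}, v ≠ w → ({v.1, (a' v).1, w.1, (a w).1} : Finset V) ∉ F := by
    intro v w hvw
    have := hz {v} v w hvw
    rw [if_pos (Finset.mem_singleton_self v),
      if_neg (fun h => hvw (Finset.mem_singleton.mp h).symm)] at this
    exact this
  have hc0 : ∀ e ∈ EE J a a', ∀ f ∈ EE J a a', ¬ Cf F e f := by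
    intro e he f hf hc
    unfold Cf at hc
    obtain ⟨v, rfl | rfl⟩ := (mem_EE J a a' e).mp he <;>
      obtain ⟨w, rfl | rfl⟩ := (mem_EE J a a' f).mp hf <;>
      simp only at hc <;>
      by_cases hvw : v = w
    · subst hvw; exact (ne4 hU hc).1 rfl
    · refine z00 v w hvw ?_
      have : ({v.1, (a v).1, w.1, (a w).1} : Finset V) = {(a v).1, v.1, (a w).1, w.1} := (oc_perm (v.1) ((a v).1) (w.1) ((a w).1)).2.2.1
      rw [this]; exact hc
    · subst hvw; exact (ne4 hU hc).2.1 rfl
    · refine z10 w v (Ne.symm hvw) ?_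
      have : ({w.1, (a' w).1, v.1, (a v).1} : Finset V) = {(a v).1, v.1, w.1, (a' w).1} := (oc_perm (w.1) ((a' w).1) (v.1) ((a v).1)).2.2.2.2.1
      rw [this]; exact hc
    · subst hvw; exact (ne4 hU hc).2.2 rfl
    · refine z10 v w hvw ?_
      have : ({v.1, (a' v).1, w.1, (a w).1} : Finset V) = {v.1, (a' v).1, (a w).1, w.1} := (oc_perm (v.1) ((a' v).1) (w.1) ((a w).1)).2.1
      rw [this]; exact hc
    · subst hvw; exact (ne4 hU hc).1 rfl
    · exact z11 v w hvw hc
  have hst2 : ¬ Cf F (t, s) (t, s) := by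
    intro h
    exact (ne4 hU h).1 rfl
  have hste : ∀ e ∈ EE J a a', ¬ Cf F (t, s) e ∧ ¬ Cf F e (t, s) := by
    intro e he
    obtain ⟨v, rfl | rfl⟩ := (mem_EE J a a' e).mp he
    · constructor
      · intro h
        apply hcz v
        have : ({v.1, (a v).1, s, t} : Finset V) = {t, s, (a v).1, v.1} := (oc_perm (v.1) ((a v).1) (s) (t)).2.2.2.2.2.2
        rw [this]; exact h
      · intro h
        apply hcz v
        have : ({v.1, (a v).1, s, t} : Finset V) = {(a v).1, v.1, t, s} := (oc_perm (v.1) ((a v).1) (s) (t)).2.2.1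
        rw [this]; exact h
    · constructor
      · intro h
        apply hcz' v
        have : ({v.1, (a' v).1, s, t} : Finset V) = {t, s, v.1, (a' v).1} := (oc_perm (v.1) ((a' v).1) (s) (t)).2.2.2.2.1
        rw [this]; exact h
      · intro h
        apply hcz' v
        have : ({v.1, (a' v).1, s, t} : Finset V) = {v.1, (a' v).1, t, s} := (oc_perm (v.1) ((a' v).1) (s) (t)).2.1
        rw [this]; exact h
  have hc0' : ∀ e ∈ (t, s) :: EE J a a', ∀ f ∈ (t, s) :: EE J a a', ¬ Cf F e f := by
    intro e he f hf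
    rcases List.mem_cons.mp he with rfl | he
    · rcases List.mem_cons.mp hf with rfl | hf
      · exact hst2
      · exact (hste f hf).1
    · rcases List.mem_cons.mp hf with rfl | hf
      · exact (hste e he).2
      · exact hc0 e he f hf
  -- degrees again
  have hoff : ∀ x, (dg (off F J) {x} : ℝ) ≤ dg F {x} := fun x => by
    exact_mod_cast dg_off F J {x}
  have hgs0 : ∀ x, (gs F J ((t, s) :: EE J a a') x : ℝ) ≤
      (Sy F J a x + Sy F J a' x) + c3 F t s x := fun x => by
    have h1 := gs_le F J a a' x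
    have h2 := oc_gs F J (EE J a a') t s x
    have h3 : gs F J ((t, s) :: EE J a a') x ≤ (Sy F J a x + Sy F J a' x) + c3 F t s x := by
      omega
    exact_mod_cast h3
  have hc3 : ∀ x, (c3 F t s x : ℝ) ≤ δ * (n : ℝ) / 16 := fun x => by
    have h1 : (c3 F t s x : ℝ) ≤ dg F {t, s} := by exact_mod_cast oc_c3_le F hU t s x
    linarith
  have hgs : ∀ x, (gs F J ((t, s) :: EE J a a') x : ℝ) ≤
      Sy F J a x + Sy F J a' x + δ * (n : ℝ) / 16 := fun x => by
    have h1 := hgs0 x
    have h2 := hc3 x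
    linarith
  obtain ⟨-, p2, p3, p4, p5⟩ := g0
  obtain ⟨-, q2, q3, q4, q5⟩ := g1
  rw [← hnn] at p2 p3 p4 p5 q2 q3 q4 q5 hch
  have hηn : ε' * (n : ℝ) ^ 2 ≤ η * (n : ℝ) ^ 2 := mul_le_mul_of_nonneg_right hε'2 hn2.le
  have hδn : 0 < δ * (n : ℝ) := mul_pos hδ hn0
  have hδn1 : δ * (n : ℝ) ≤ 1 / 1000 * n := mul_le_mul_of_nonneg_right hδ1 hn0.le
  have hεn : ε * (n : ℝ) ^ 2 ≤ 1 / 200000 * (n : ℝ) ^ 2 :=
    mul_le_mul_of_nonneg_right hε1 hn2.le
  obtain ⟨l, l1, l2, l4, l5, l3, l6⟩ := hPe V F J ((t, s) :: EE J a a') [s] [t] (BB J a a')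
    (by rw [← hnn]; omega)
    { u4 := hU
      nz := ⟨by simp, by simp, by
        intro B hB
        obtain ⟨v, rfl⟩ := (mem_BB J a a' B).mp hB
        simp⟩
      nd := by
        rw [List.singleton_append, List.nodup_cons, List.mem_append, List.mem_singleton,
          not_or]
        refine ⟨⟨hnf s hs, fun h => hts h.symm⟩, ?_⟩
        rw [List.nodup_append]
        refine ⟨nd_fl J a a' ha ha' haa, by simp, ?_⟩
        intro x hx y hy h
        rw [List.mem_singleton] at hy
        subst h
        subst hy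
        exact hnf _ htU hx
      len := by
        constructor
        · rw [List.length_append, List.length_append, len_fl]
          simp only [List.length_singleton]
          push_cast
          have h2 : 0 < 128 / γ := by positivity
          linarith
        · rw [List.length_cons, len_EE]
          push_cast
          have h2 : 0 < 128 / γ := by positivity
          have h3 : 0 < 2 / ε := by positivity
          linarith
      jb := by
        intro x hx
        refine List.mem_append_right _ (List.mem_append_left _ ?_)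
        exact (mem_fl J a a' x).mpr ⟨⟨x, hx⟩, Or.inr (Or.inl rfl)⟩
      es := by
        refine ⟨?_, ?_, ?_⟩
        · intro e he
          simp [eds] at he
        · intro e he
          simp [eds] at he
        · intro B hB e he
          obtain ⟨v, rfl⟩ := (mem_BB J a a' B).mp hB
          simp only [eds, List.tail_cons, List.zip_cons_cons, List.zip_nil_right,
            List.mem_cons, List.not_mem_nil, or_false] at he
          exact List.mem_cons_of_mem _ ((mem_EE J a a' e).mpr ⟨v, he⟩)
      ends := by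
        intro x hx
        rw [← hnn]
        have key : x ∉ J ∧ (dg F {x} : ℝ) ≤ ε' * (n : ℝ) ^ 2 := by
          rcases hx with h | h | ⟨B, hB, h⟩
          · simp only [List.getLast?_singleton, Option.some.injEq] at h
            subst h
            exact ⟨(hout _ hs).1, (hout _ hs).2.2.2⟩
          · simp only [List.head?_cons, Option.some.injEq] at h
            subst h
            exact ⟨(hout _ htU).1, (hout _ htU).2.2.2⟩
          · obtain ⟨v, rfl⟩ := (mem_BB J a a' B).mp hB
            rcases h with h | h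
            · simp only [List.head?_cons, Option.some.injEq] at h
              subst h
              exact ⟨(a v).2, p5 v⟩
            · simp only [List.getLast?_cons_cons, List.getLast?_singleton,
                Option.some.injEq] at h
              subst h
              exact ⟨(a' v).2, q5 v⟩
        exact ⟨key.1, (hoff x).trans (key.2.trans hηn)⟩
      c0 := hc0'
      c1 := by
        intro x hx
        rw [← hnn]
        have h1 := hdJ x hx
        have h2 := hoff x
        have h3 : (200000 * dg (off F J) {x} : ℝ) ≤ (n : ℝ) ^ 2 := by linarith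
        exact_mod_cast h3
      c2 := by
        intro x hx _
        rw [← hnn]
        refine (hgs x).trans ?_
        by_cases h : (dg F {x} : ℝ) ≤ ε' * (n : ℝ) ^ 2
        · rcases hch x hx h with h' | h'
          · have := q2 x hx
            linarith
          · have := p2 x hx
            linarith
        · have h1 := p3 x hx (not_le.mp h)
          have h2 := q3 x hx (not_le.mp h)
          linarith
      c2m := by
        intro x hx h
        rw [← hnn] at h ⊢
        have h0 : ε' * (n : ℝ) ^ 2 < dg F {x} := lt_of_le_of_lt hηn (lt_of_lt_of_le h (hoff x))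
        have h1 := p3 x hx h0
        have h2 := q3 x hx h0
        have h3 := hgs x
        have h4 : (2000 * gs F J ((t, s) :: EE J a a') x : ℝ) ≤ n := by linarith
        exact_mod_cast h4
      c3 := by
        rw [← hnn]
        refine (Finset.sum_le_sum fun x _ => hgs0 x).trans ?_
        rw [Finset.sum_add_distrib, Finset.sum_add_distrib]
        have h5 : (∑ x ∈ univ.filter (fun x => x ∉ J), (c3 F t s x : ℝ)) ≤ (n : ℝ) := by
          have h6 : (∑ x ∈ univ.filter (fun x => x ∉ J), (c3 F t s x : ℝ)) ≤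
              ∑ x, (c3 F t s x : ℝ) :=
            Finset.sum_le_sum_of_subset_of_nonneg (Finset.subset_univ _)
              (fun _ _ _ => Nat.cast_nonneg _)
          have h7 : (∑ x, (c3 F t s x : ℝ)) ≤ 2 * dg F {t, s} := by
            exact_mod_cast oc_sum F hU t s
          linarith
        have h1 : 0 < 6 / ε * (n : ℝ) := by positivity
        have h2 : 64 / γ * (n : ℝ) + 64 / γ * n = 128 / γ * n := by ring
        linarith
      c4 := by
        rw [← hnn]
        have : (off F J).card ≤ F.card := Finset.card_le_card (Finset.filter_subset _ _)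
        omega }
  obtain ⟨r1, hr1⟩ := l4
  obtain ⟨r2, hr2⟩ := l5
  have hsym : ∀ e f : V × V, Cf F e f → Cf F f e := by
    intro e f h
    unfold Cf at h ⊢
    have : ({f.1, f.2, e.1, e.2} : Finset V) = {e.1, e.2, f.1, f.2} := (oc_perm (f.1) (f.2) (e.1) (e.2)).2.2.2.1
    rw [this]; exact h
  refine ⟨l, s, t, l1, l2, by rw [← hr1]; rfl, by rw [← hr2]; simp, ?_⟩
  intro e he f hf
  rcases List.mem_cons.mp he with rfl | he
  · rcases List.mem_cons.mp hf with rfl | hf
    · exact hst2
    · intro h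
      exact l6 f hf (t, s) (List.mem_cons_self) (hsym _ _ h)
  · rcases List.mem_cons.mp hf with rfl | hf
    · exact l6 e he (t, s) (List.mem_cons_self)
    · exact l3 e he f hf

end Pool.Agent.Ham
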