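import Pool.Agent.Lib.MP_716318_co.H.AsmA
import Pool.Agent.Lib.MP_716318_co.H.OsCc
import Pool.Agent.Lib.MP_716318_co.H.Osc
import Pool.Agent.Lib.MP_716318_co.H.Gtc
import Pool.Agent.Lib.MP_716318_co.H.ThAc

/-!
# MP_716318_co, package H: assembly of Theorem A for Hamilton cycles
-/

set_option autoImplicit false

namespace Pool.Agent.Ham

open Finset

theorem thAc : S_ThAc :=
  tThAc (tGtc (tOsc (tOsA (tMk tPr) tSum) (tOsB (tMk tPr) tSum tDbl) (tOsCc pe tSum)) tSum)
    (tCost tTwo) tPr tSum

/-- An acceptable cyclic list gives an acceptable permutation. -/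
theorem bridgeC {n : ℕ} (F : Finset (Finset (Fin n))) (h : AccC F) :
    ∃ P : Equiv.Perm (Fin n), ∀ i j : Fin n,
      ({P i, P (finRotate n i), P j, P (finRotate n j)} : Finset (Fin n)) ∉ F := by
  obtain ⟨l, s, t, nd, hm, hs, ht, hc⟩ := h
  have hlen : l.length = n := by
    have h1 : l.toFinset = univ := by
      ext x; simp [hm x]
    have h2 := congrArg Finset.card h1
    rw [List.toFinset_card_of_nodup nd] at h2
    simpa using h2
  let e : Fin n ≃ Fin n := (finCongr hlen.symm).trans (nd.getEquivOfForallMemList l hm)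
  have he : ∀ (i : ℕ) (hi : i < n), e ⟨i, hi⟩ = l[i]'(by omega) := by
    intro i hi
    rfl
  have hed : ∀ (i : ℕ) (hi : i + 1 < n),
      (l[i]'(by omega), l[i + 1]'(by omega)) ∈ eds l := by
    intro i hi
    unfold eds
    rw [List.mem_iff_getElem]
    refine ⟨i, ?_, ?_⟩
    · simp [List.length_zip]; omega
    · simp [List.getElem_zip, List.getElem_tail]
  refine ⟨e, ?_⟩
  have key : ∀ i : Fin n, (e i, e (finRotate n i)) ∈ (t, s) :: eds l := by
    intro i
    obtain ⟨i, hi⟩ := i
    obtain ⟨m, rfl⟩ : ∃ m, n = m + 1 := ⟨n - 1, by omega⟩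
    by_cases h1 : i < m
    · rw [finRotate_of_lt h1, he i hi, he (i + 1) (by omega)]
      exact List.mem_cons_of_mem _ (hed i (by omega))
    · have h2 : i = m := by omega
      subst h2
      have h3 : finRotate (i + 1) ⟨i, hi⟩ = ⟨0, by omega⟩ := finRotate_last'
      rw [h3, he i hi, he 0 (by omega)]
      have h4 : l[0]'(by omega) = s := by
        rw [List.head?_eq_getElem?, List.getElem?_eq_some_iff] at hs
        exact hs.2
      have h5 : l[i]'(by omega) = t := by
        rw [List.getLast?_eq_getElem?, List.getElem?_eq_some_iff] at ht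
        obtain ⟨h6, h7⟩ := ht
        have h8 : l.length - 1 = i := by omega
        simp only [h8] at h7
        exact h7
      rw [h4, h5]
      exact List.mem_cons_self
  intro i j hF
  exact hc _ (key i) _ (key j) hF

end Pool.Agent.Ham
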