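import Pool.Agent.Lib.MP_716318_co.H.Defs

/-!
# MP_716318_co, package H: from lists to permutations; the star
-/

set_option autoImplicit false

namespace Pool.Agent.Ham

open Finset

/-- An acceptable list gives an acceptable permutation. -/
theorem bridge {n : ℕ} (F : Finset (Finset (Fin n))) (h : Acc F) :
    ∃ P : Equiv.Perm (Fin n), ∀ (i j : ℕ) (_ : i + 1 < j) (hj : j + 1 < n),
      ({P ⟨i, by omega⟩, P ⟨i + 1, by omega⟩, P ⟨j, by omega⟩, P ⟨j + 1, hj⟩} :
        Finset (Fin n)) ∉ F := by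
  obtain ⟨l, nd, hm, hc⟩ := h
  have hlen : l.length = n := by
    have h1 : l.toFinset = univ := by
      ext x; simp [hm x]
    have h2 := congrArg Finset.card h1
    rw [List.toFinset_card_of_nodup nd] at h2
    simpa using h2
  let e : Fin n ≃ Fin n := (finCongr hlen.symm).trans (nd.getEquivOfForallMemList l hm)
  have he : ∀ (i : ℕ) (hi : i < n), e ⟨i, hi⟩ = l[i]'(by omega) := by
    intro i hi
    rfl
  have hed : ∀ (i : ℕ) (hi : i + 1 < n),
      (l[i]'(by omega), l[i + 1]'(by omega)) ∈ eds l := by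
    intro i hi
    unfold eds
    rw [List.mem_iff_getElem]
    refine ⟨i, ?_, ?_⟩
    · simp [List.length_zip]; omega
    · simp [List.getElem_zip, List.getElem_tail]
  refine ⟨e, ?_⟩
  intro i j hi hj hF
  refine hc _ (hed i (by omega)) _ (hed j hj) ?_
  unfold Cf
  rw [he i (by omega), he (i + 1) (by omega), he j (by omega), he (j + 1) hj] at hF
  exact hF

/-- The star with the two centres `a`, `b`. -/
def star {n : ℕ} (a b : Fin n) : Finset (Finset (Fin n)) :=
  (powersetCard 2 ((univ.erase a).erase b)).image (fun S => insert a (insert b S))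

theorem star_card {n : ℕ} (a b : Fin n) (hab : a ≠ b) : (star a b).card ≤ (n - 2).choose 2 := by
  unfold star
  refine card_image_le.trans ?_
  rw [card_powersetCard, card_erase_of_mem (by simp [hab.symm]), card_erase_of_mem (by simp)]
  simp only [card_univ, Fintype.card_fin]
  exact le_of_eq (by rw [Nat.sub_sub])

theorem star_u4 {n : ℕ} (a b : Fin n) (hab : a ≠ b) : ∀ A ∈ star a b, A.card = 4 := by
  intro A hA
  unfold star at hA
  rw [mem_image] at hA
  obtain ⟨S, hS, rfl⟩ := hA
  rw [mem_powersetCard] at hS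
  have hb : b ∉ S := fun h => by
    have := hS.1 h
    simp at this
  have ha : a ∉ insert b S := by
    rw [mem_insert]
    rintro (h | h)
    · exact hab h
    · have := hS.1 h
      simp at this
  rw [card_insert_of_notMem ha, card_insert_of_notMem hb, hS.2]

theorem mem_star {n : ℕ} (a b : Fin n) (A : Finset (Fin n)) (hab : a ≠ b) (ha : a ∈ A)
    (hb : b ∈ A) (hA : A.card = 4) : A ∈ star a b := by
  unfold star
  rw [mem_image]
  refine ⟨(A.erase a).erase b, ?_, ?_⟩
  · rw [mem_powersetCard]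
    constructor
    · intro x hx
      rw [mem_erase, mem_erase] at hx
      rw [mem_erase, mem_erase]
      exact ⟨hx.1, hx.2.1, mem_univ _⟩
    · rw [card_erase_of_mem (mem_erase.2 ⟨hab.symm, hb⟩), card_erase_of_mem ha, hA]
  · ext x
    simp only [mem_insert, mem_erase]
    constructor
    · rintro (h | h | h)
      · exact h ▸ ha
      · exact h ▸ hb
      · exact h.2.2
    · intro h
      by_cases h1 : x = a
      · exact Or.inl h1
      · by_cases h2 : x = b
        · exact Or.inr (Or.inl h2)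
        · exact Or.inr (Or.inr ⟨h2, h1, h⟩)

/-- Any two positions are covered by two disjoint edges of the path. -/
theorem positions (n p q : ℕ) (hn : 4 ≤ n) (hp : p < n) (hq : q < n) (hpq : p < q) :
    ∃ i j : ℕ, i + 1 < j ∧ j + 1 < n ∧ (p = i ∨ p = i + 1 ∨ p = j ∨ p = j + 1) ∧
      (q = i ∨ q = i + 1 ∨ q = j ∨ q = j + 1) := by
  by_cases h3 : p + 3 ≤ q
  · exact ⟨p, q - 1, by omega, by omega, by omega, by omega⟩
  · by_cases h2 : q = p + 2
    · by_cases h0 : p = 0
      · exact ⟨0, 2, by omega, by omega, by omega, by omega⟩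
      · exact ⟨p - 1, p + 1, by omega, by omega, by omega, by omega⟩
    · by_cases h0 : p = 0
      · exact ⟨0, 2, by omega, by omega, by omega, by omega⟩
      · by_cases h1 : q + 1 < n
        · exact ⟨p - 1, q, by omega, by omega, by omega, by omega⟩
        · exact ⟨n - 4, p, by omega, by omega, by omega, by omega⟩

/-- The star blocks all Hamilton paths. -/
theorem star_blocks {n : ℕ} (hn : 4 ≤ n) (a b : Fin n) (hab : a ≠ b)
    (P : Equiv.Perm (Fin n)) :
    ∃ (i j : ℕ) (_ : i + 1 < j) (hj : j + 1 < n),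
      ({P ⟨i, by omega⟩, P ⟨i + 1, by omega⟩, P ⟨j, by omega⟩, P ⟨j + 1, hj⟩} :
        Finset (Fin n)) ∈ star a b := by
  have key : ∀ p q : Fin n, (p : ℕ) < q → ∃ (i j : ℕ) (_ : i + 1 < j) (hj : j + 1 < n),
      P p ∈ ({P ⟨i, by omega⟩, P ⟨i + 1, by omega⟩, P ⟨j, by omega⟩, P ⟨j + 1, hj⟩} :
        Finset (Fin n)) ∧
      P q ∈ ({P ⟨i, by omega⟩, P ⟨i + 1, by omega⟩, P ⟨j, by omega⟩, P ⟨j + 1, hj⟩} :
        Finset (Fin n)) := by
    intro p q hpq
    obtain ⟨i, j, hi, hj, h1, h2⟩ := positions n p q hn p.isLt q.isLt hpq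
    refine ⟨i, j, hi, hj, ?_, ?_⟩
    · simp only [mem_insert, mem_singleton]
      rcases h1 with h | h | h | h
      · exact Or.inl (congrArg P (Fin.ext h))
      · exact Or.inr (Or.inl (congrArg P (Fin.ext h)))
      · exact Or.inr (Or.inr (Or.inl (congrArg P (Fin.ext h))))
      · exact Or.inr (Or.inr (Or.inr (congrArg P (Fin.ext h))))
    · simp only [mem_insert, mem_singleton]
      rcases h2 with h | h | h | h
      · exact Or.inl (congrArg P (Fin.ext h))
      · exact Or.inr (Or.inl (congrArg P (Fin.ext h)))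
      · exact Or.inr (Or.inr (Or.inl (congrArg P (Fin.ext h))))
      · exact Or.inr (Or.inr (Or.inr (congrArg P (Fin.ext h))))
  have hpq : P.symm a ≠ P.symm b := fun h => hab (P.symm.injective h)
  have main : ∃ (i j : ℕ) (_ : i + 1 < j) (hj : j + 1 < n),
      a ∈ ({P ⟨i, by omega⟩, P ⟨i + 1, by omega⟩, P ⟨j, by omega⟩, P ⟨j + 1, hj⟩} :
        Finset (Fin n)) ∧
      b ∈ ({P ⟨i, by omega⟩, P ⟨i + 1, by omega⟩, P ⟨j, by omega⟩, P ⟨j + 1, hj⟩} :
        Finset (Fin n)) := by
    rcases lt_or_gt_of_ne (fun h => hpq (Fin.ext h) :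
      ((P.symm a : Fin n) : ℕ) ≠ ((P.symm b : Fin n) : ℕ)) with h | h
    · obtain ⟨i, j, hi, hj, h1, h2⟩ := key _ _ h
      rw [Equiv.apply_symm_apply] at h1 h2
      exact ⟨i, j, hi, hj, h1, h2⟩
    · obtain ⟨i, j, hi, hj, h1, h2⟩ := key _ _ h
      rw [Equiv.apply_symm_apply] at h1 h2
      exact ⟨i, j, hi, hj, h2, h1⟩
  obtain ⟨i, j, hi, hj, h1, h2⟩ := main
  refine ⟨i, j, hi, hj, mem_star a b _ hab h1 h2 ?_⟩
  have hinj : ∀ x y : Fin n, x ≠ y → P x ≠ P y := fun x y h h' => h (P.injective h')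
  have hne : ∀ (x y : ℕ) (hx : x < n) (hy : y < n), x ≠ y → P ⟨x, hx⟩ ≠ P ⟨y, hy⟩ := by
    intro x y hx hy h
    exact hinj _ _ (fun h' => h (congrArg Fin.val h'))
  rw [card_insert_of_notMem, card_insert_of_notMem, card_insert_of_notMem, card_singleton]
  · simp only [mem_singleton]
    exact hne _ _ _ _ (by omega)
  · simp only [mem_insert, mem_singleton, not_or]
    exact ⟨hne _ _ _ _ (by omega), hne _ _ _ _ (by omega)⟩
  · simp only [mem_insert, mem_singleton, not_or]
    exact ⟨hne _ _ _ _ (by omega), hne _ _ _ _ (by omega), hne _ _ _ _ (by omega)⟩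

end Pool.Agent.Ham
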