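import Pool.Agent.Lib.MP_716318_co.H.Spec5

set_option autoImplicit false

namespace Pool.Agent.Ham

open Finset
open scoped Classical

private theorem ca_mem {α : Type} {p : α → Prop} (d : DecidablePred p) {s : Finset α} {a : α} :
    a ∈ @Finset.filter α p d s ↔ a ∈ s ∧ p a := by
  rw [Finset.mem_filter]

/-- Double counting. -/
private theorem ca_sum {V : Type} [Fintype V] [DecidableEq V] (F : Finset (Finset V)) (v a : V)
    (hF : U4 F) (hav : a ≠ v) : ∑ x, c3 F v a x ≤ 2 * dg F {v, a} := by
  have h1 : ∑ x, c3 F v a x =
      ((univ : Finset (V × V)).filter (fun p => ({v, a, p.1, p.2} : Finset V) ∈ F)).card := by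
    rw [card_filter, Fintype.sum_prod_type]
    refine sum_congr rfl fun x _ => ?_
    unfold c3
    rw [card_filter]
  rw [h1]
  unfold dg
  refine card_le_mul_card_image_of_maps_to (f := fun p : V × V => ({v, a, p.1, p.2} : Finset V))
    ?_ 2 ?_
  · intro p hp
    refine (ca_mem _).2 ⟨((ca_mem _).1 hp).2, ?_⟩
    intro z hz
    simp only [mem_insert, mem_singleton] at hz ⊢
    tauto
  · intro A hA
    have hA4 : A.card = 4 := hF A ((ca_mem _).1 hA).1
    have hsub : ({v, a} : Finset V) ⊆ A := ((ca_mem _).1 hA).2
    have hc2 : (A \ {v, a}).card = 2 := by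
      rw [card_sdiff_of_subset hsub, hA4, card_pair (Ne.symm hav)]
    have hoff : (A \ {v, a}).offDiag.card = 2 := by
      rw [offDiag_card, hc2]
    rw [← hoff]
    refine card_le_card fun p hp => ?_
    have hp2 : ({v, a, p.1, p.2} : Finset V) = A := ((ca_mem _).1 hp).2
    have hc : ({v, a, p.1, p.2} : Finset V).card = 4 := by rw [hp2, hA4]
    have hne : p.1 ≠ v ∧ p.1 ≠ a ∧ p.2 ≠ v ∧ p.2 ≠ a ∧ p.1 ≠ p.2 := by
      refine ⟨?_, ?_, ?_, ?_, ?_⟩ <;> intro he <;> rw [he] at hc
      · have : ({v, a, v, p.2} : Finset V) ⊆ {v, a, p.2} := by
          intro z hz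
          simp only [mem_insert, mem_singleton] at hz ⊢
          tauto
        have := (card_le_card this).trans card_le_three
        omega
      · have : ({v, a, a, p.2} : Finset V) ⊆ {v, a, p.2} := by
          intro z hz
          simp only [mem_insert, mem_singleton] at hz ⊢
          tauto
        have := (card_le_card this).trans card_le_three
        omega
      · have : ({v, a, p.1, v} : Finset V) ⊆ {v, a, p.1} := by
          intro z hz
          simp only [mem_insert, mem_singleton] at hz ⊢
          tauto
        have := (card_le_card this).trans card_le_three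
        omega
      · have : ({v, a, p.1, a} : Finset V) ⊆ {v, a, p.1} := by
          intro z hz
          simp only [mem_insert, mem_singleton] at hz ⊢
          tauto
        have := (card_le_card this).trans card_le_three
        omega
      · have : ({v, a, p.2, p.2} : Finset V) ⊆ {v, a, p.2} := by
          intro z hz
          simp only [mem_insert, mem_singleton] at hz ⊢
          tauto
        have := (card_le_card this).trans card_le_three
        omega
    rw [mem_offDiag, ← hp2]
    simp only [mem_sdiff, mem_insert, mem_singleton]
    tauto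

theorem tCa : S_Pes → S_Ca := by
  intro hPes
  obtain ⟨ξ, hξ, n0, h⟩ := hPes (1 / (10 : ℝ) ^ 8) (2 * (10 : ℝ) ^ 7) (by norm_num) (by norm_num)
    (by norm_num)
  refine ⟨ξ, hξ, max n0 3, ?_⟩
  intro V _ _ F v a hF hn hav hacc hoff
  obtain ⟨z, hz⟩ : ∃ z, z ∉ ({v, a} : Finset V) := by
    by_contra hcon
    push Not at hcon
    have h1 : (univ : Finset V) ⊆ {v, a} := fun x _ => hcon x
    have h2 := (card_le_card h1).trans card_le_two
    rw [card_univ] at h2
    have := le_trans (le_max_right n0 3) hn
    omega
  have hzv : z ≠ v := fun he => hz (by rw [he]; exact mem_insert_self _ _)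
  have hza : z ≠ a := fun he => hz (by rw [he]; exact mem_insert_of_mem (mem_singleton_self _))
  have hB : Bls F {v} [(v, a)] [v, a] [z] [] (2 * (10 : ℝ) ^ 7) :=
    { u4 := hF
      nz := ⟨by simp, by simp, by simp⟩
      nd := by
        simp only [List.flatten_nil, List.nil_append, List.cons_append, List.nodup_cons,
          List.mem_cons, List.not_mem_nil, or_false, not_or, List.nodup_nil, and_true, not_false_eq_true]
        exact ⟨⟨hav.symm, hzv.symm⟩, hza.symm⟩
      len := ⟨by norm_num, by norm_num⟩
      jb := by
        intro x hx
        rw [mem_singleton] at hx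
        simp [hx]
      es := ⟨by simp [eds], by simp [eds], by simp⟩
      ends := by
        intro x hx
        rw [mem_singleton]
        rcases hx with hx | hx | ⟨B, hB, -⟩
        · simp only [List.getLast?_cons_cons, List.getLast?_singleton, Option.some.injEq] at hx
          rw [← hx]
          exact hav
        · simp only [List.head?_cons, Option.some.injEq] at hx
          rw [← hx]
          exact hzv
        · simp at hB
      c0 := by
        intro e he f hf hC
        rw [List.mem_singleton] at he hf
        subst he
        subst hf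
        have h4 := hF _ hC
        have : ({v, a, v, a} : Finset V) ⊆ {v, a} := by
          intro z hz
          simp only [mem_insert, mem_singleton] at hz ⊢
          tauto
        have := (card_le_card this).trans card_le_two
        change ({v, a, v, a} : Finset V).card = 4 at h4
        omega }
  have hg : ∀ x, gs F {v} [(v, a)] x ≤ c3 F v a x := by
    intro x
    unfold gs c3
    refine card_le_card fun y hy => ?_
    obtain ⟨-, -, e, he, hC⟩ := (ca_mem _).1 hy
    rw [List.mem_singleton] at he
    subst he
    exact (ca_mem _).2 ⟨mem_univ _, hC⟩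
  rcases h V F {v} [(v, a)] [v, a] [z] [] (le_trans (le_max_left n0 3) hn) hB hoff hacc with
    ⟨x, -, hx⟩ | hsum
  · right
    refine ⟨x, hx.le.trans ?_⟩
    exact_mod_cast hg x
  · left
    have h1 : ∑ x ∈ univ.filter (fun x => x ∉ ({v} : Finset V)), (gs F {v} [(v, a)] x : ℝ) ≤
        ∑ x, (c3 F v a x : ℝ) := by
      refine le_trans (sum_le_sum fun x _ => ?_) (sum_le_sum_of_subset_of_nonneg
        (subset_univ _) fun x _ _ => Nat.cast_nonneg _)
      exact_mod_cast hg x
    have h2 : ∑ x, (c3 F v a x : ℝ) ≤ 2 * dg F {v, a} := by
      exact_mod_cast ca_sum F v a hF hav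
    linarith

end Pool.Agent.Ham
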