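import Mathlib

/-!
# MP_716318_co, package H: definitions

`F` is a family of 4-subsets of `V` (`U4 F`). An ordering of `V` is a list `l` without repetitions; its
edges are the pairs in `eds l`. Two edges `e`, `f` are in conflict (`Cf F e f`) if the set of their four
end points is a member of `F` (in particular the end points are four different vertices).
-/

set_option autoImplicit false

namespace Pool.Agent.Ham

open Finset
open scoped Classical

/-- All members have four elements. -/
def U4 {V : Type} (F : Finset (Finset V)) : Prop := ∀ A ∈ F, A.card = 4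

/-- Consecutive pairs of a list. -/
def eds {V : Type} (l : List V) : List (V × V) := l.zip l.tail

/-- The two pairs are in conflict. -/
def Cf {V : Type} [DecidableEq V] (F : Finset (Finset V)) (e f : V × V) : Prop :=
  ({e.1, e.2, f.1, f.2} : Finset V) ∈ F

/-- The members of `F` which are disjoint from `J`. -/
def off {V : Type} [DecidableEq V] (F : Finset (Finset V)) (J : Finset V) : Finset (Finset V) :=
  F.filter (fun A => Disjoint A J)

/-- The number of members of `F` which contain `S`. -/
def dg {V : Type} [DecidableEq V] (F : Finset (Finset V)) (S : Finset V) : ℕ :=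
  (F.filter (fun A => S ⊆ A)).card

/-- The number of `t` with `{x, y, z, t} ∈ F`. -/
def c3 {V : Type} [Fintype V] [DecidableEq V] (F : Finset (Finset V)) (x y z : V) : ℕ :=
  (univ.filter (fun t => ({x, y, z, t} : Finset V) ∈ F)).card

/-- There is an acceptable Hamilton path. -/
def Acc {V : Type} [DecidableEq V] (F : Finset (Finset V)) : Prop :=
  ∃ l : List V, l.Nodup ∧ (∀ x, x ∈ l) ∧ ∀ e ∈ eds l, ∀ f ∈ eds l, ¬ Cf F e f

/-- `x y` is in conflict with one of the edges in `Es`. -/
def Gs {V : Type} [DecidableEq V] (F : Finset (Finset V)) (Es : List (V × V)) (x y : V) : Prop :=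
  ∃ e ∈ Es, Cf F e (x, y)

/-- The number of `y ∉ J` for which `x y` is in conflict with one of the edges in `Es`. -/
noncomputable def gs {V : Type} [Fintype V] [DecidableEq V] (F : Finset (Finset V)) (J : Finset V)
    (Es : List (V × V)) (x : V) : ℕ :=
  (univ.filter (fun y => y ∉ J ∧ Gs F Es x y)).card

end Pool.Agent.Ham
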