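import Pool.Agent.Lib.MP_716318_co.H.Spec1

/-! # MP_716318_co, package H, Link: a link between two open vertices (helper36) -/

set_option autoImplicit false

namespace Pool.Agent.Ham

open Finset
open scoped Classical

private theorem link_cons {V : Type} [Fintype V] [DecidableEq V] {F : Finset (Finset V)}
    {J : Finset V} {Es Lk : List (V × V)} {T : ℝ} {a b : V} (hU : U4 F) (hG : Gd F J Es T Lk)
    (ha : a ∉ J) (hb : b ∉ J) (hg : ¬ Gs F Es a b)
    (hc : ∀ z, (c3 (off F J) a b z : ℝ) ≤ T) (hf : ∀ f ∈ Lk, ¬ Cf F (a, b) f) :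
    Gd F J Es T ((a, b) :: Lk) := by
  have hself : ¬ Cf F (a, b) (a, b) := by
    intro h
    have h1 := hU _ h
    have h2 : ({a, b, a, b} : Finset V) = {a, b} := by
      ext z
      simp only [mem_insert, mem_singleton]
      tauto
    rw [h2] at h1
    have h3 : ({a, b} : Finset V).card ≤ 2 := card_le_two
    omega
  have hsym : ∀ f ∈ Lk, ¬ Cf F f (a, b) := by
    intro f hfL h
    apply hf f hfL
    have h2 : ({f.1, f.2, a, b} : Finset V) = {a, b, f.1, f.2} := by
      ext z
      simp only [mem_insert, mem_singleton]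
      tauto
    have h3 : ({f.1, f.2, a, b} : Finset V) ∈ F := h
    rw [h2] at h3
    exact h3
  obtain ⟨h1, h2⟩ := hG
  refine ⟨?_, ?_⟩
  · intro e he
    rcases List.mem_cons.1 he with rfl | he
    · exact ⟨ha, hb, hg, hc⟩
    · exact h1 e he
  · intro e he f hfL
    rcases List.mem_cons.1 he with rfl | he
    · rcases List.mem_cons.1 hfL with rfl | hfL
      · exact hself
      · exact hf f hfL
    · rcases List.mem_cons.1 hfL with rfl | hfL
      · exact hsym e he
      · exact h2 e he f hfL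

private theorem link_swap {V : Type} [Fintype V] [DecidableEq V] {F : Finset (Finset V)}
    {J : Finset V} {Es Lk : List (V × V)} {T : ℝ} {y e : V} (h : Ad F J Es Lk T y e) :
    ¬ Gs F Es e y ∧ (∀ z, (c3 (off F J) e y z : ℝ) ≤ T) ∧ ∀ f ∈ Lk, ¬ Cf F (e, y) f := by
  obtain ⟨-, a1, a2, a3⟩ := h
  refine ⟨?_, ?_, ?_⟩
  · rintro ⟨g, hg, h⟩
    apply a1
    refine ⟨g, hg, ?_⟩
    have h7 : ({g.1, g.2, e, y} : Finset V) = {g.1, g.2, y, e} := by
      ext z
      simp only [mem_insert, mem_singleton]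
      tauto
    have h8 : ({g.1, g.2, e, y} : Finset V) ∈ F := h
    rw [h7] at h8
    exact h8
  · intro z
    have h7 : c3 (off F J) e y z = c3 (off F J) y e z := by
      unfold c3
      congr 1
      apply filter_congr
      intro t _
      have h9 : ({e, y, z, t} : Finset V) = {y, e, z, t} := by
        ext w
        simp only [mem_insert, mem_singleton]
        tauto
      rw [h9]
    rw [h7]
    exact a2 z
  · intro f hf h
    apply a3 f hf
    have h7 : ({e, y, f.1, f.2} : Finset V) = {y, e, f.1, f.2} := by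
      ext z
      simp only [mem_insert, mem_singleton]
      tauto
    have h8 : ({e, y, f.1, f.2} : Finset V) ∈ F := h
    rw [h7] at h8
    exact h8

theorem tLink : S_Exc → S_Ext → S_Link := by
  intro hExc hExt V _ _ F J U Es Lk T D g0 g1 x y hU4 hT hg0 hg1 hD hG hJU hx hy hop hlt
  have hn : (0 : ℝ) ≤ Lk.length := Nat.cast_nonneg _
  have hDT : 0 ≤ 3 * D / T := by positivity
  have hDT2 : 6 * D / T = 3 * D / T + 3 * D / T := by ring
  have hLT : 0 ≤ (Lk.length : ℝ) * T := by positivity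
  rw [hDT2] at hlt
  obtain ⟨c, hcU, hGc, -⟩ := hExt V F J U Es Lk T D g0 x hU4 hT hG hJU hx (by nlinarith)
  have hopc := hop c hcU
  have hcJ : c ∉ J := hopc.1
  have hlen : (((x, c) :: Lk).length : ℝ) = Lk.length + 1 := by
    rw [List.length_cons]; push_cast; ring
  have hB : ∀ (g : ℝ) (a : V), Op F J Es D g a →
      ((univ.filter (fun e => e ∉ J ∧ ¬ Ad F J Es ((x, c) :: Lk) T a e)).card : ℝ) ≤
        g + 3 * D / T + (Lk.length + 1) * T := by
    intro g a ha
    have h1 := hExc V F J Es ((x, c) :: Lk) T a hU4 hT hGc ha.1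
    rw [hlen] at h1
    have h3 : 3 * (dg (off F J) {a} : ℝ) / T ≤ 3 * D / T := by
      apply div_le_div_of_nonneg_right _ hT.le
      linarith [ha.2.1]
    linarith [ha.2.2]
  have hB1 := hB g1 c hopc
  have hB2 := hB g0 y hy
  set B1 := univ.filter (fun e => e ∉ J ∧ ¬ Ad F J Es ((x, c) :: Lk) T c e) with hB1d
  set B2 := univ.filter (fun e => e ∉ J ∧ ¬ Ad F J Es ((x, c) :: Lk) T y e) with hB2d
  have h4 : ((U ∪ {c}) ∪ (B1 ∪ B2)).card < Fintype.card V := by
    have e1 : ((U ∪ {c}) ∪ (B1 ∪ B2)).card ≤ (U ∪ {c}).card + (B1 ∪ B2).card := card_union_le _ _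
    have e2 : (U ∪ {c}).card ≤ U.card + 1 := by
      simpa using card_union_le U {c}
    have e3 : (B1 ∪ B2).card ≤ B1.card + B2.card := card_union_le _ _
    have e4 : (((U ∪ {c}) ∪ (B1 ∪ B2)).card : ℝ) ≤ U.card + 1 + (B1.card + B2.card) := by
      have : ((U ∪ {c}) ∪ (B1 ∪ B2)).card ≤ U.card + 1 + (B1.card + B2.card) := by omega
      exact_mod_cast this
    have e5 : (((U ∪ {c}) ∪ (B1 ∪ B2)).card : ℝ) < Fintype.card V := by nlinarith
    exact_mod_cast e5
  obtain ⟨e, he⟩ : ∃ e, e ∉ (U ∪ {c}) ∪ (B1 ∪ B2) := by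
    by_contra h
    push Not at h
    have : (U ∪ {c}) ∪ (B1 ∪ B2) = univ := eq_univ_of_forall h
    rw [this, card_univ] at h4
    exact lt_irrefl _ h4
  simp only [mem_union, mem_singleton, not_or] at he
  obtain ⟨⟨heU, hec⟩, heB1, heB2⟩ := he
  have heJ : e ∉ J := fun h => heU (hJU h)
  have hA1 : Ad F J Es ((x, c) :: Lk) T c e := by
    by_contra h
    exact heB1 (mem_filter.2 ⟨mem_univ _, heJ, h⟩)
  have hA2 : Ad F J Es ((x, c) :: Lk) T y e := by
    by_contra h
    exact heB2 (mem_filter.2 ⟨mem_univ _, heJ, h⟩)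
  obtain ⟨s1, s2, s3⟩ := link_swap hA2
  have hG1 : Gd F J Es T ((e, y) :: (x, c) :: Lk) := link_cons hU4 hGc heJ hy.1 s1 s2 s3
  obtain ⟨-, b1, b2, b3⟩ := hA1
  have hG2 : Gd F J Es T ((c, e) :: (e, y) :: (x, c) :: Lk) := by
    refine link_cons hU4 hG1 hcJ heJ b1 b2 ?_
    intro f hf
    rcases List.mem_cons.1 hf with rfl | hf
    · intro h
      have h1 := hU4 _ h
      have h2 : ({c, e, e, y} : Finset V) = {c, e, y} := by
        ext z
        simp only [mem_insert, mem_singleton]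
        tauto
      rw [h2] at h1
      have h3 : ({c, e, y} : Finset V).card ≤ 3 := card_le_three
      omega
    · exact b3 f hf
  refine ⟨c, e, hcU, heU, fun h => hec h.symm, ?_⟩
  have hmem : ∀ f : V × V, f ∈ ((x, c) :: (c, e) :: (e, y) :: Lk) ↔
      f ∈ ((c, e) :: (e, y) :: (x, c) :: Lk) := by
    intro f
    simp only [List.mem_cons]
    tauto
  exact ⟨fun f hf => hG2.1 f ((hmem f).1 hf),
    fun f hf f' hf' => hG2.2 f ((hmem f).1 hf) f' ((hmem f').1 hf')⟩

end Pool.Agent.Ham
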