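import Pool.Agent.Lib.MP_716318_co.H.Spec5

set_option autoImplicit false

/-!
# MP_716318_co, package H: the final inequality near a star (`S_Nf`)
-/

namespace Pool.Agent.Ham

open Finset
open scoped Classical

/-- One side of the final inequality. -/
private lemma half (hWl : S_Wl) {V : Type} [Fintype V] [DecidableEq V] (F : Finset (Finset V))
    (v w : V) (y : V → V) (hu4 : U4 F) (hN : (1000 : ℝ) ≤ Fintype.card V)
    (hT : 20000 * (T1 F v w).card ≤ Fintype.card V) (hv : v ∉ T1 F v w) (hPm : Pm F v w y) :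
    (un F v w y : ℝ) / 2 +
      (((Fintype.card V : ℝ) - 4) * pn F v w y - ls F v w y) / 2 +
      52 / 100 * (Fintype.card V : ℝ) * ((T1 F v w).card - pn F v w y) +
      5 / 100 * (Fintype.card V : ℝ) * ((T2 F v w).filter (fun a =>
        4 / 10 * (Fintype.card V : ℝ) ≤ dg (fv F v w) {a})).card ≤ (fv F v w).card ∧
      (pn F v w y : ℝ) ≤ (T1 F v w).card := by
  set N : ℝ := (Fintype.card V : ℝ) with hNdef
  have hTm : Tm F v w ⊆ T1 F v w := filter_subset _ _
  have hTmc : (Tm F v w).card ≤ (T1 F v w).card := card_le_card hTm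
  have hTr : 20000 * ((T1 F v w).card : ℝ) ≤ N := by
    rw [hNdef]; exact_mod_cast hT
  have hTmr : ((Tm F v w).card : ℝ) ≤ (T1 F v w).card := by exact_mod_cast hTmc
  have h200 : ((Tm F v w).card : ℝ) ≤ N / 200 := by linarith
  have hWh : Wh (fv F v w) v (Tm F v w) (T1 F v w \ Tm F v w)
      ((T2 F v w).filter (fun a => 4 / 10 * (Fintype.card V : ℝ) ≤ dg (fv F v w) {a})) y N := by
    refine ⟨?_, ?_, hN, ?_, hPm, ?_, ?_, ?_, ?_, ?_⟩
    · intro A hA
      exact hu4 A (mem_filter.1 hA).1
    · intro A hA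
      exact (mem_filter.1 hA).2.1
    · refine ⟨fun h => hv (hTm h), fun h => hv (mem_sdiff.1 h).1, fun h => ?_⟩
      have h1 := (mem_filter.1 h).1
      unfold T2 at h1
      exact (mem_filter.1 h1).2.1 rfl
    · intro u
      have h1 : ((Tm F v w).filter (fun a => y a = u)).card ≤ (Tm F v w).card :=
        card_le_card (filter_subset _ _)
      have h2 : (((Tm F v w).filter (fun a => y a = u)).card : ℝ) ≤ (Tm F v w).card := by
        exact_mod_cast h1
      linarith
    · linarith
    · refine ⟨disjoint_sdiff, ?_, ?_⟩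
      · rw [Finset.disjoint_left]
        intro a ha hb
        have h1 := (mem_filter.1 hb).1
        unfold T2 at h1
        exact (mem_filter.1 h1).2.2.2.1 (hTm ha)
      · rw [Finset.disjoint_left]
        intro a ha hb
        have h1 := (mem_filter.1 hb).1
        unfold T2 at h1
        exact (mem_filter.1 h1).2.2.2.1 (mem_sdiff.1 ha).1
    · intro a ha
      obtain ⟨h1, h2⟩ := mem_sdiff.1 ha
      by_contra hlt
      push Not at hlt
      exact h2 (mem_filter.2 ⟨h1, hlt⟩)
    · intro a ha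
      exact ⟨(mem_filter.1 ha).2, h200⟩
  have h1 := hWl V (fv F v w) v _ _ _ y N hWh
  -- the number of the perfect vertices
  have hp : ((Tm F v w).filter (fun a => Pf (fv F v w) v (Tm F v w) y N a)).card +
      ((Tm F v w).filter (fun a => ¬ Pf (fv F v w) v (Tm F v w) y N a)).card =
      (Tm F v w).card := card_filter_add_card_filter_not _
  have hpn : pn F v w y =
      ((Tm F v w).filter (fun a => Pf (fv F v w) v (Tm F v w) y N a)).card := rfl
  have hs : (T1 F v w \ Tm F v w).card = (T1 F v w).card - (Tm F v w).card :=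
    card_sdiff_of_subset hTm
  have hs' : ((T1 F v w \ Tm F v w).card : ℝ) = (T1 F v w).card - (Tm F v w).card := by
    rw [hs, Nat.cast_sub hTmc]
  have hp' : (((Tm F v w).filter (fun a => ¬ Pf (fv F v w) v (Tm F v w) y N a)).card : ℝ) =
      (Tm F v w).card - pn F v w y := by
    rw [hpn, ← hp]
    push_cast
    ring
  have hls : (∑ a ∈ (Tm F v w).filter (fun a => Pf (fv F v w) v (Tm F v w) y N a),
      (c3 (fv F v w) v a (y a) : ℝ)) = (N - 4) * pn F v w y - ls F v w y := by
    unfold ls
    rw [sum_sub_distrib, sum_const, nsmul_eq_mul, hpn]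
    ring
  have hun : (((fv F v w).filter (fun A => Cl (Tm F v w) y A = ∅)).card : ℝ) = un F v w y := rfl
  rw [hs', hp', hls, hun] at h1
  constructor
  · refine le_trans (le_of_eq ?_) h1
    ring
  · have h3 : pn F v w y ≤ (Tm F v w).card := by
      rw [hpn]; exact card_le_card (filter_subset _ _)
    exact_mod_cast h3.trans hTmc

theorem tNf : S_Nl → S_Wl → S_Nt → S_Nf := by
  rintro ⟨ξ, hξ, n0, hNl⟩ hWl hNt
  refine ⟨ξ, hξ, max n0 24000, ?_⟩
  intro V _ _ F v w yv yw hn hNS hPv hPw
  have hn0 : n0 ≤ Fintype.card V := le_trans (le_max_left _ _) hn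
  have hn1 : 24000 ≤ Fintype.card V := le_trans (le_max_right _ _) hn
  obtain ⟨ht1, -, hNS', -, hT1, hT2, hv, hw⟩ := hNt V F v w ξ hNS
  have hn2 : (24000 : ℝ) ≤ Fintype.card V := by exact_mod_cast hn1
  have hN : (1000 : ℝ) ≤ Fintype.card V := by linarith
  obtain ⟨h1, hp1⟩ := half hWl F v w yv hNS.u4 hN ht1 hv hPv
  obtain ⟨h2, hp2⟩ := half hWl F w v yw hNS.u4 hN (by rw [← hT1]; exact ht1)
    (by rw [← hT1]; exact hw) hPw
  have l1 := hNl V F v w yv yw hn0 hNS hPv hPw
  have l2 := hNl V F w v yw yv hn0 hNS' hPw hPv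
  rw [← hT1] at h2 l2 hp2
  rw [← hT2] at h2
  rw [pair_comm w v] at l2
  -- `T2` is covered
  have hcov : T2 F v w ⊆ (T2 F v w).filter (fun a =>
        4 / 10 * (Fintype.card V : ℝ) ≤ dg (fv F v w) {a}) ∪ (T2 F v w).filter (fun a =>
        4 / 10 * (Fintype.card V : ℝ) ≤ dg (fv F w v) {a}) := by
    intro a ha
    have h3 : 999 / 1000 * (Fintype.card V : ℝ) ≤
        (dg (fv F v w) {a} : ℝ) + dg (fv F w v) {a} := by
      have h4 := ha
      unfold T2 at h4
      exact (mem_filter.1 h4).2.2.2.2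
    rw [mem_union, mem_filter, mem_filter]
    by_cases h5 : 4 / 10 * (Fintype.card V : ℝ) ≤ dg (fv F v w) {a}
    · exact Or.inl ⟨ha, h5⟩
    · refine Or.inr ⟨ha, ?_⟩
      push Not at h5
      linarith
  have hcard := (card_le_card hcov).trans (card_union_le _ _)
  have hcard' : ((T2 F v w).card : ℝ) ≤ ((T2 F v w).filter (fun a =>
        4 / 10 * (Fintype.card V : ℝ) ≤ dg (fv F v w) {a})).card + ((T2 F v w).filter (fun a =>
        4 / 10 * (Fintype.card V : ℝ) ≤ dg (fv F w v) {a})).card := by exact_mod_cast hcard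
  generalize ((T2 F v w).filter (fun a =>
        4 / 10 * (Fintype.card V : ℝ) ≤ dg (fv F v w) {a})).card = A1 at *
  generalize ((T2 F v w).filter (fun a =>
        4 / 10 * (Fintype.card V : ℝ) ≤ dg (fv F w v) {a})).card = A2 at *
  generalize (T2 F v w).card = A at *
  generalize (T1 F v w).card = t at *
  generalize pn F v w yv = p at *
  generalize pn F w v yw = q at *
  generalize ls F v w yv = lv at *
  generalize ls F w v yw = lw at *
  generalize (fv F v w).card = fa at *
  generalize (fv F w v).card = fb at *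
  have hu1 : (0 : ℝ) ≤ un F v w yv := Nat.cast_nonneg _
  have hu2 : (0 : ℝ) ≤ un F w v yw := Nat.cast_nonneg _
  have ho : (0 : ℝ) ≤ (off F {v, w}).card := Nat.cast_nonneg _
  generalize (un F v w yv : ℝ) = u at *
  generalize (un F w v yw : ℝ) = u' at *
  generalize ((off F {v, w}).card : ℝ) = o at *
  generalize (Fintype.card V : ℝ) = N at *
  have hpos : 0 < N := by linarith
  have e1 : 72 * o / N ≤ o / 2 := by
    rw [div_le_div_iff₀ hpos (by norm_num)]
    nlinarith
  have e2 : 12000 * u / N ≤ u / 2 := by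
    rw [div_le_div_iff₀ hpos (by norm_num)]
    nlinarith
  have e3 : 12000 * u' / N ≤ u' / 2 := by
    rw [div_le_div_iff₀ hpos (by norm_num)]
    nlinarith
  have e4 : 5 / 100 * N * A ≤ 5 / 100 * N * (A1 + A2) :=
    mul_le_mul_of_nonneg_left hcard' (by linarith)
  have hD : (0 : ℝ) ≤ 2 * t - p - q := by linarith
  nlinarith

end Pool.Agent.Ham
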