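import Pool.Agent.Lib.MP_716318_co.H.Spec2

/-!
# MP_716318_co, package H: one scale (`tOs`)
-/

set_option autoImplicit false

namespace Pool.Agent.Ham

open Finset
open scoped Classical

theorem tOs : S_OsA → S_OsB → S_OsC → S_Os := by
  intro hA hB hC γ δ ε hγ hγ1 hδ hδ1 hε hε1 hε2
  obtain ⟨e1, he1, HB⟩ := hB γ δ ε hγ hγ1 hδ hδ1 hε
  obtain ⟨e2, he2, HC⟩ := hC γ δ ε hγ hγ1 hδ hδ1 hε hε2
  have hp : 0 < min (ε / 2) (min e1 e2) := lt_min (by linarith) (lt_min he1 he2)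
  have hlt : min (ε / 2) (min e1 e2) < ε := lt_of_le_of_lt (min_le_left _ _) (by linarith)
  have hle1 : min (ε / 2) (min e1 e2) ≤ e1 := (min_le_right _ _).trans (min_le_left _ _)
  have hle2 : min (ε / 2) (min e1 e2) ≤ e2 := (min_le_right _ _).trans (min_le_right _ _)
  obtain ⟨nA, HA⟩ := hA γ δ ε _ hγ hγ1 hδ hδ1 hp hlt hε1
  obtain ⟨nB, HB⟩ := HB _ hp hle1
  obtain ⟨nC, HC⟩ := HC _ hp hle2
  refine ⟨_, hp, hlt, max nA (max nB nC), ?_⟩
  intro V _ _ F hF hn hc hacc hsum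
  have hn1 : nA ≤ Fintype.card V := (le_max_left _ _).trans hn
  have hn2 : nB ≤ Fintype.card V := ((le_max_left _ _).trans (le_max_right _ _)).trans hn
  have hn3 : nC ≤ Fintype.card V := ((le_max_right _ _).trans (le_max_right _ _)).trans hn
  by_contra hcon
  push Not at hcon
  exact hacc (HC V F hF hn3 hc (HB V F hF hn2 hc (HA V F hF hn1 hc hsum hcon)))

end Pool.Agent.Ham
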