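import Pool.Agent.Lib.MP_716318_co.H.Defs

/-!
# MP_716318_co, package H, part 1: random completion and path embedding, statements with proofs

Main result `S_Pe`: if boundedly many vertex disjoint path segments (blocks) are given which contain
all the vertices `J` of large degree, without conflicts, and every other vertex `x` has at least
`δ n` allowed neighbours, then the blocks can be completed to an acceptable Hamilton path.

Modules `H/<Name>.lean` (import this file only), theorem `t<Name> : S_Y → .. → S_<Name>` in the namespace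
`Pool.Agent.Ham`, all other declarations `private`. Every module is independent: the statements used
are hypotheses.
-/

set_option autoImplicit false

namespace Pool.Agent.Ham

open Finset
open scoped Classical

/-! ## The local lemma for random bijections -/

/-- `M` is (the graph of) a partial bijection. -/
def PB {I W : Type} (M : Finset (I × W)) : Prop := ∀ p ∈ M, ∀ q ∈ M, (p.1 = q.1 ↔ p.2 = q.2)

/-- The bijection `π` contains `M`. -/
def Ct {I W : Type} (π : I ≃ W) (M : Finset (I × W)) : Prop := ∀ p ∈ M, π p.1 = p.2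

/-- The probability that a random bijection contains a given partial bijection of size `k`. -/
noncomputable def wt (r k : ℕ) : ℝ := 1 / (r.descFactorial k : ℝ)

/-- `𝓜` consists of partial bijections of size at most 4, and every position and every value is
met by members of `𝓜` of total weight at most `ε`. -/
def Sml {I W : Type} [Fintype I] (𝓜 : Finset (Finset (I × W))) (ε : ℝ) : Prop :=
  (∀ M ∈ 𝓜, M.Nonempty ∧ M.card ≤ 4 ∧ PB M) ∧
  (∀ i : I, ∑ M ∈ 𝓜.filter (fun M => ∃ p ∈ M, p.1 = i), wt (Fintype.card I) M.card ≤ ε) ∧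
  (∀ w : W, ∑ M ∈ 𝓜.filter (fun M => ∃ p ∈ M, p.2 = w), wt (Fintype.card I) M.card ≤ ε)

/-- **Sw** (120 lines). Switching.

Proof. Induction on `M` (`Finset.induction_on`), it is enough to show for `M = insert (i, x) N`,
`(i, x) ∉ N`, `k = |N|`, with `A(M) = {π | Ct π M ∧ ∀ M' ∈ 𝓢, ¬ Ct π M'}`: `(r - k) |A(M)| ≤ |A(N)|` (then use
`Nat.descFactorial_succ`). For each of the `r - k` values `z` which are not a second component of
an element of `N` (by `PB` these are `k` different values) map `π ∈ A(M)` to `π' = π.trans (Equiv.swap x z)`. Then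
`π' i = z`; `Ct π' N` because the values of `N` are neither `x` nor `z`; if `M' ∈ 𝓢` and `Ct π' M'` then for
`q ∈ M'`: `q.1 ≠ i`, `q.2 ≠ x` (disjointness of `M'` from `M`), so `π' q.1 = q.2 ≠ x` and `π' q.1 ≠ z` (as `π' i = z`), hence
`π q.1 = q.2`: `Ct π M'`, contradiction. So `π' ∈ A(N)`. The map `(π, z) ↦ π'` is injective: `z = π' i` and
`π = π'.trans (swap x z)`. -/
def S_Sw : Prop :=
  ∀ (I W : Type) [Fintype I] [DecidableEq I] [Fintype W] [DecidableEq W] (M : Finset (I × W))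
    (𝓢 : Finset (Finset (I × W))), Fintype.card I = Fintype.card W → PB M →
    (∀ M' ∈ 𝓢, ∀ p ∈ M, ∀ q ∈ M', p.1 ≠ q.1 ∧ p.2 ≠ q.2) →
    (Fintype.card I).descFactorial M.card *
      (univ.filter (fun π : I ≃ W => Ct π M ∧ ∀ M' ∈ 𝓢, ¬ Ct π M')).card ≤
      (univ.filter (fun π : I ≃ W => ∀ M' ∈ 𝓢, ¬ Ct π M')).card

/-- **Lll** (200 lines, uses `S_Sw`). The local lemma.

Proof. Let `N(𝓢)` be the number of bijections which contain no member of `𝓢`, and
`A(M, 𝓢)` the number of those among them which contain `M`. `r = |I|`. Every member `M` of `𝓜` has `wt r |M| ≤ 1/32`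
(it is one of the terms of the sum for a position of `M`). Claim, by strong induction on `|𝓢|`, for all
`𝓢 ⊆ 𝓜`: `N(𝓢) > 0`, and `A(M, 𝓢) ≤ 2 wt(M) N(𝓢)` for all `M ∈ 𝓜`. Proof of the second part from the first part
for `𝓢` and the claim for smaller sets: let `𝓢₁` be the set of the `M' ∈ 𝓢` which have a position or a
value in common with `M`, `𝓢₂ = 𝓢 \ 𝓢₁`. `A(M, 𝓢) ≤ A(M, 𝓢₂) ≤ wt(M) N(𝓢₂)` by `S_Sw`. If `𝓢₁ = ∅` this is
the claim. Otherwise `|𝓢₂| < |𝓢|` and `N(𝓢) ≥ N(𝓢₂) - ∑_{M' ∈ 𝓢₁} A(M', 𝓢₂) ≥ N(𝓢₂) (1 - 2 ∑_{𝓢₁} wt(M')) ≥ N(𝓢₂) / 2`, because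
`∑_{𝓢₁} wt ≤ 8 / 32` (at most four positions and four values of `M`). First part: `N(∅) > 0`; for
`𝓢 = insert M 𝓢'`: `N(𝓢) = N(𝓢') - A(M, 𝓢') ≥ N(𝓢') (1 - 2 / 32) > 0` by the claim for `𝓢'`. Finally take `𝓢 = 𝓜`.
(`I ≃ W` is not empty because of the cardinalities.) -/
def S_Lll : Prop :=
  ∀ (I W : Type) [Fintype I] [DecidableEq I] [Fintype W] [DecidableEq W]
    (𝓜 : Finset (Finset (I × W))), Fintype.card I = Fintype.card W → Sml 𝓜 (1 / 32) →
    ∃ π : I ≃ W, ∀ M ∈ 𝓜, ¬ Ct π M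

/-- **Ta** (120 lines). Consecutive pairs.

Proof. `𝓜` is the set of the `{(i, x), (i + 1, y)}` with `i + 1 < r`, `x ≠ y`, `G x y`. Such a set has two elements.
A position occurs as `i` and as `i + 1`, each time with at most `r * (r / 1000)` pairs `(x, y)`, so the
first sum is at most `2 r (r / 1000) / (r (r - 1)) ≤ 1 / 250`. A value occurs as `x` or as `y`, with at
most `r` positions and `r / 1000` partners: `2 r (r / 1000) / (r (r - 1))`. (Sums over the image of
a set of triples `(i, x, y)` are at most the sum over the triples.) If `G x x` for some `x` it does not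
matter, `π` is injective. -/
def S_Ta : Prop :=
  ∃ r0 : ℕ, ∀ (r : ℕ) (W : Type) [Fintype W] [DecidableEq W] (G : W → W → Prop), r0 ≤ r →
    Fintype.card W = r → (∀ x y, G x y → G y x) →
    (∀ x, 1000 * (univ.filter (fun y => G x y)).card ≤ r) →
    ∃ 𝓜 : Finset (Finset (Fin r × W)), Sml 𝓜 (1 / 250) ∧ ∀ π : Fin r ≃ W, (∀ M ∈ 𝓜, ¬ Ct π M) →
      ∀ (i : ℕ) (h : i + 1 < r), ¬ G (π ⟨i, by omega⟩) (π ⟨i + 1, h⟩)

/-- **Tb** (60 lines). One position.

Proof. `𝓜 = {{(a, x)} | x ∈ B}`; the sums are `|B| / r` and `1 / r`. -/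
def S_Tb : Prop :=
  ∃ r0 : ℕ, ∀ (r : ℕ) (W : Type) [Fintype W] [DecidableEq W] (a : Fin r) (B : Finset W), r0 ≤ r →
    Fintype.card W = r → 1000 * B.card ≤ r →
    ∃ 𝓜 : Finset (Finset (Fin r × W)), Sml 𝓜 (1 / 250) ∧ ∀ π : Fin r ≃ W, (∀ M ∈ 𝓜, ¬ Ct π M) →
      π a ∉ B

/-- **Tc** (200 lines). Two pairs of consecutive positions.

Proof. `𝓜` is the set of the `{(i, x), (i + 1, y), (j, z), (j + 1, w)}` with `i + 1 < j`, `j + 1 < r` and
`(x, y, z, w) ∈ H`, `x, y, z, w` different (so these are partial bijections with four elements, weight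
`1 / (r (r - 1) (r - 2) (r - 3))`). A given position is one of `i, i + 1, j, j + 1`, so it occurs for at most `4 r`
pairs `(i, j)`: the first sum is at most `4 r * 1000 r ^ 2 / (r (r - 1) (r - 2) (r - 3)) ≤ 1 / 250` for large `r`. A
value occurs for at most `r ^ 2` pairs `(i, j)` and `r ^ 2 / 300` elements of `H`: the second sum is at most
`r ^ 2 * (r ^ 2 / 300) / (r (r - 1) (r - 2) (r - 3)) ≤ 1 / 250` for large `r`. -/
def S_Tc : Prop :=
  ∃ r0 : ℕ, ∀ (r : ℕ) (W : Type) [Fintype W] [DecidableEq W] (H : Finset (W × W × W × W)),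
    r0 ≤ r → Fintype.card W = r → H.card ≤ 1000 * r ^ 2 →
    (∀ x : W, 300 * (H.filter (fun t => t.1 = x ∨ t.2.1 = x ∨ t.2.2.1 = x ∨ t.2.2.2 = x)).card
      ≤ r ^ 2) →
    ∃ 𝓜 : Finset (Finset (Fin r × W)), Sml 𝓜 (1 / 250) ∧ ∀ π : Fin r ≃ W, (∀ M ∈ 𝓜, ¬ Ct π M) →
      ∀ (i j : ℕ) (_ : i + 1 < j) (h : j + 1 < r),
        (π ⟨i, by omega⟩, π ⟨i + 1, by omega⟩, π ⟨j, by omega⟩, π ⟨j + 1, h⟩) ∉ H

/-- **Td** (150 lines). A fixed position and a pair of consecutive positions.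

Proof. `𝓜` is the set of the `{(a, x), (j, z), (j + 1, w)}` with `j + 1 < r`, `j ≠ a`, `j + 1 ≠ a`, `(x, z, w) ∈ H`,
`x, z, w` different; weight `1 / (r (r - 1) (r - 2))`. All the sums are at most
`2 r * |H| / (r (r - 1) (r - 2)) ≤ 2 / 300 ..`; more precisely: the position `a` and every value: at most `r` positions `j`,
`r |H| / (r (r - 1) (r - 2)) ≤ 1 / 250`; every other position: at most two `j`. -/
def S_Td : Prop :=
  ∃ r0 : ℕ, ∀ (r : ℕ) (W : Type) [Fintype W] [DecidableEq W] (a : Fin r)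
    (H : Finset (W × W × W)), r0 ≤ r → Fintype.card W = r → 300 * H.card ≤ r ^ 2 →
    ∃ 𝓜 : Finset (Finset (Fin r × W)), Sml 𝓜 (1 / 250) ∧ ∀ π : Fin r ≃ W, (∀ M ∈ 𝓜, ¬ Ct π M) →
      ∀ (j : ℕ) (h : j + 1 < r), j ≠ a.val → j + 1 ≠ a.val →
        (π a, π ⟨j, by omega⟩, π ⟨j + 1, h⟩) ∉ H

/-- **Te** (80 lines). Two fixed positions.

Proof. `𝓜` is the set of the `{(a, x), (b, z)}` with `(x, z) ∈ H`, `x ≠ z`; weight `1 / (r (r - 1))`; all the sums are
at most `|H| / (r (r - 1)) ≤ 1 / 250`. -/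
def S_Te : Prop :=
  ∃ r0 : ℕ, ∀ (r : ℕ) (W : Type) [Fintype W] [DecidableEq W] (a b : Fin r)
    (H : Finset (W × W)), r0 ≤ r → a ≠ b → Fintype.card W = r → 300 * H.card ≤ r ^ 2 →
    ∃ 𝓜 : Finset (Finset (Fin r × W)), Sml 𝓜 (1 / 250) ∧ ∀ π : Fin r ≃ W, (∀ M ∈ 𝓜, ¬ Ct π M) →
      (π a, π b) ∉ H

/-- **Comp** (300 lines, uses `S_Lll`, `S_Ta`, `S_Tb`, `S_Tc`, `S_Td`, `S_Te`). Random completion.

Proof. `r = |W|` large, values in the subtype `{x // x ∈ W}`. Take the union `𝓜` of seven families: `S_Ta` for `G`;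
`S_Tb` for the position `0` and `{x | G p x}`, and for the position `r - 1` and `{x | G x q}`; `S_Tc` for
`H = {(x, y, z, w) | {x, y, z, w} ∈ F}`; `S_Td` for the position `0` and `{(x, z, w) | {p, x, z, w} ∈ F}`, and for the
position `r - 1` and `{(z, x, y) | {x, y, z, q} ∈ F}`; `S_Te` for the positions `0`, `r - 1` and
`{(x, z) | {p, x, z, q} ∈ F}`. `Sml 𝓜 (7 / 250)` (a sum over a union is at most the sum of the sums), `7 / 250 ≤ 1 / 32`.
Cardinalities: let `F' = {A ∈ F | A ⊆ insert p (insert q W)}`, `|F'| ≤ 2 r ^ 2`; for a set `A` with four elements there are at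
most `4 ^ 4 = 256` quadruples with `{x, y, z, w} = A`, so `|H| ≤ 512 r ^ 2`, at most `256 r ^ 2 / 100000 ≤ r ^ 2 / 300` of them
contain a given `x`; the other three sets have at most `64 r ^ 2 / 100000` (and `16 r ^ 2 / 100000`) elements (here all the
members of `F` involved contain `p` or `q`). Let `π` be the bijection of `S_Lll` and `l = List.ofFn (fun i => (π i).1)`. Let
`s 0 = p`, `s (i + 1) = π i` for `i < r`, `s (r + 1) = q`; the edges of `p :: (l ++ [q])` are the pairs `(s i, s (i + 1))`,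
`i ≤ r`. By the choice of `π` no such pair is in `G` and `{s i, s (i+1), s j, s (j+1)} ∉ F` for `i + 1 < j` (four cases: `i = 0` or
not, `j = r` or not); for `j ≤ i + 1`, `i ≤ j + 1` the set has at most three elements, so it is not in `F` (`U4`). -/
def S_Comp : Prop :=
  ∃ r0 : ℕ, ∀ (V : Type) [Fintype V] [DecidableEq V] (F : Finset (Finset V)) (G : V → V → Prop)
    (W : Finset V) (p q : V), U4 F → (∀ x y, G x y → G y x) → p ∉ W → q ∉ W → p ≠ q →
    r0 ≤ W.card →
    (∀ x ∈ insert p (insert q W), 1000 * (W.filter (fun y => G x y)).card ≤ W.card) →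
    (∀ x ∈ insert p (insert q W),
      100000 * (F.filter (fun A => x ∈ A ∧ A ⊆ insert p (insert q W))).card ≤ W.card ^ 2) →
    (F.filter (fun A => A ⊆ insert p (insert q W))).card ≤ 2 * W.card ^ 2 →
    ∃ l : List V, l.Nodup ∧ (∀ x, x ∈ l ↔ x ∈ W) ∧
      (∀ e ∈ eds (p :: (l ++ [q])), ¬ G e.1 e.2) ∧
      ∀ e ∈ eds (p :: (l ++ [q])), ∀ f ∈ eds (p :: (l ++ [q])), ¬ Cf F e f

/-! ## Greedy links -/

/-- The edge `x c` may be added to the set `Lk` of links (threshold `T`). -/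
def Ad {V : Type} [Fintype V] [DecidableEq V] (F : Finset (Finset V)) (J : Finset V)
    (Es Lk : List (V × V)) (T : ℝ) (x c : V) : Prop :=
  c ∉ J ∧ ¬ Gs F Es x c ∧ (∀ z, (c3 (off F J) x c z : ℝ) ≤ T) ∧ ∀ f ∈ Lk, ¬ Cf F (x, c) f

/-- `Lk` is a good set of links (threshold `T`). -/
def Gd {V : Type} [Fintype V] [DecidableEq V] (F : Finset (Finset V)) (J : Finset V)
    (Es : List (V × V)) (T : ℝ) (Lk : List (V × V)) : Prop :=
  (∀ e ∈ Lk, e.1 ∉ J ∧ e.2 ∉ J ∧ ¬ Gs F Es e.1 e.2 ∧ ∀ z, (c3 (off F J) e.1 e.2 z : ℝ) ≤ T) ∧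
  ∀ e ∈ Lk, ∀ f ∈ Lk, ¬ Cf F e f

/-- `x` is an open vertex: not in `J`, in at most `D` members of `F` which avoid `J`, and at most `g` vertices
outside `J` are forbidden neighbours. -/
def Op {V : Type} [Fintype V] [DecidableEq V] (F : Finset (Finset V)) (J : Finset V)
    (Es : List (V × V)) (D g : ℝ) (x : V) : Prop :=
  x ∉ J ∧ (dg (off F J) {x} : ℝ) ≤ D ∧ (gs F J Es x : ℝ) ≤ g

/-- **Bad** (80 lines).

Proof. Let `B` be the set on the left. For `c ∈ B` choose `z c`. The set `P` of the pairs `(c, t)` with `c ∈ B` and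
`{x, c, z c, t} ∈ F` has at least `T |B|` elements. Map `(c, t) ∈ P` to `A = {x, c, z c, t} ∈ F`, a member which contains
`x`. The fibre of `A` has at most three elements: `c ∈ A \ {x}` (`x ≠ c` because `|A| = 4`) and `t` is the only
element of `A \ {x, c, z c}`. -/
def S_Bad : Prop :=
  ∀ (V : Type) [Fintype V] [DecidableEq V] (F : Finset (Finset V)) (x : V) (T : ℝ), U4 F → 0 < T →
    T * (univ.filter (fun c => ∃ z, T < (c3 F x c z : ℝ))).card ≤ 3 * dg F {x}

/-- **Exc** (80 lines, uses `S_Bad`). The number of vertices `c` which cannot be joined to `x`.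

Proof. If `c ∉ J` and not `Ad .. x c`, then `Gs F Es x c` (these `c` are counted by `gs`), or `T < c3 (off F J) x c z` for some `z`
(at most `3 dg (off F J) {x} / T` such `c` by `S_Bad` for `off F J`), or `{x, c, f.1, f.2} ∈ F` for some `f ∈ Lk`; as
`x, c, f.1, f.2 ∉ J` this set is in `off F J`, so for given `f` there are at most `c3 (off F J) f.1 f.2 x ≤ T` such `c`. -/
def S_Exc : Prop :=
  ∀ (V : Type) [Fintype V] [DecidableEq V] (F : Finset (Finset V)) (J : Finset V)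
    (Es Lk : List (V × V)) (T : ℝ) (x : V), U4 F → 0 < T → Gd F J Es T Lk → x ∉ J →
    ((univ.filter (fun c => c ∉ J ∧ ¬ Ad F J Es Lk T x c)).card : ℝ) ≤
      gs F J Es x + 3 * dg (off F J) {x} / T + Lk.length * T

/-- **Ext** (80 lines, uses `S_Exc`). One more vertex.

Proof. The number of the `c` which are in `U` or not `Ad .. x c` is less than `|V|` by `S_Exc`. For such a `c` outside:
`Gd` for `(x, c) :: Lk` from `Ad` (a pair is never in conflict with itself: `U4`; `Cf` is symmetric). -/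
def S_Ext : Prop :=
  ∀ (V : Type) [Fintype V] [DecidableEq V] (F : Finset (Finset V)) (J U : Finset V)
    (Es Lk : List (V × V)) (T D g : ℝ) (x : V), U4 F → 0 < T → Gd F J Es T Lk → J ⊆ U →
    Op F J Es D g x → (U.card : ℝ) + g + 3 * D / T + Lk.length * T < Fintype.card V →
    ∃ c, c ∉ U ∧ Gd F J Es T ((x, c) :: Lk) ∧ Gd F J Es T ((c, x) :: Lk)

/-- **Link** (120 lines, uses `S_Exc`, `S_Ext`). A link between two open vertices.

Proof. `S_Ext` gives `c ∉ U` with `Gd` for `L1 = (x, c) :: Lk`. `c` is outside `U`, so `Op .. D g1 c`. By `S_Exc` for `L1` there is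
`e ∉ U ∪ {c}` with `Ad .. L1 T c e` and `Ad .. L1 T y e`: the number of the other vertices is at most
`|U| + 1 + (g1 + 3 D / T + (|Lk| + 1) T) + (g0 + 3 D / T + (|Lk| + 1) T)`. The new pairs `(x, c)`, `(c, e)`, `(e, y)`: `(c, e)` and `(e, y)` are not in
conflict because `{c, e, e, y}` has at most three elements; all the rest is in `Ad` (`c3` and `Cf` are symmetric
in the obvious way). -/
def S_Link : Prop :=
  ∀ (V : Type) [Fintype V] [DecidableEq V] (F : Finset (Finset V)) (J U : Finset V)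
    (Es Lk : List (V × V)) (T D g0 g1 : ℝ) (x y : V), U4 F → 0 < T → 0 ≤ g0 → 0 ≤ g1 → 0 ≤ D →
    Gd F J Es T Lk → J ⊆ U → Op F J Es D g0 x → Op F J Es D g0 y →
    (∀ c, c ∉ U → Op F J Es D g1 c) →
    (U.card : ℝ) + 1 + g0 + g1 + 6 * D / T + 2 * (Lk.length + 1) * T < Fintype.card V →
    ∃ c e, c ∉ U ∧ e ∉ U ∧ c ≠ e ∧ Gd F J Es T ((x, c) :: (c, e) :: (e, y) :: Lk)

/-- **Chain** (250 lines, uses `S_Link`). Linking the blocks `Bs` one after the other, starting with `Q0`.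

Proof. Induction on `Bs` from the right (`List.reverseRecOn`, or induction on `Bs` for all `Q0`, `Lk0` if the statement is
generalized to a given good `Lk0`). Step: `Q`, `Lk` for `Bs'`, next block `B` with head `y`. Let `x` be the last element of
`Q` (an open vertex) and apply `S_Link` with `U ∪ Q.toFinset` (its cardinality is at most
`|U| + 2 |Bs|`, because the elements of `Q` are in `Q0`, in blocks (these are in `U`), or are the at most `2 |Bs'|` link
vertices). Put `Q' = Q ++ [c, e] ++ B`. -/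
def S_Chain : Prop :=
  ∀ (V : Type) [Fintype V] [DecidableEq V] (F : Finset (Finset V)) (J U : Finset V)
    (Es : List (V × V)) (T D g0 g1 : ℝ) (Q0 : List V) (Bs : List (List V)), U4 F → 0 < T →
    0 ≤ g0 → 0 ≤ g1 → 0 ≤ D → J ⊆ U → Q0 ≠ [] → (Q0 ++ Bs.flatten).Nodup →
    (∀ x ∈ Q0 ++ Bs.flatten, x ∈ U) →
    (∀ B ∈ Bs, B ≠ []) → (∀ e ∈ eds Q0, e ∈ Es) → (∀ B ∈ Bs, ∀ e ∈ eds B, e ∈ Es) →
    (∀ x, Q0.getLast? = some x → Op F J Es D g0 x) →
    (∀ B ∈ Bs, ∀ x, (B.head? = some x ∨ B.getLast? = some x) → Op F J Es D g0 x) →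
    (∀ c, c ∉ U → Op F J Es D g1 c) →
    (U.card : ℝ) + 2 * Bs.length + 1 + g0 + g1 + 6 * D / T + 2 * (3 * Bs.length + 1) * T
      < Fintype.card V →
    ∃ (Q : List V) (Lk : List (V × V)), Q0 <+: Q ∧ Q.Nodup ∧
      (∀ x ∈ Q, x ∈ Q0 ++ Bs.flatten ∨ x ∉ U) ∧ (∀ x ∈ Bs.flatten, x ∈ Q) ∧
      (∀ e ∈ eds Q, e ∈ Es ∨ e ∈ Lk) ∧ Gd F J Es T Lk ∧ Lk.length ≤ 3 * Bs.length ∧
      Q.length ≤ (Q0 ++ Bs.flatten).length + 2 * Bs.length ∧
      ∃ x, Q.getLast? = some x ∧ Op F J Es D g0 x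

/-- The hypotheses of the path embedding theorem: `n = |V|`; `B0` is the first block, `B1` the last one,
`Bs` the blocks in the middle, `Es` the fixed edges, `J` the inner vertices. -/
structure Blk {V : Type} [Fintype V] [DecidableEq V] (F : Finset (Finset V)) (J : Finset V)
    (Es : List (V × V)) (B0 B1 : List V) (Bs : List (List V)) (δ K η : ℝ) : Prop where
  u4 : U4 F
  nz : B0 ≠ [] ∧ B1 ≠ [] ∧ ∀ B ∈ Bs, B ≠ []
  nd : (B0 ++ (Bs.flatten ++ B1)).Nodup
  len : ((B0 ++ (Bs.flatten ++ B1)).length : ℝ) ≤ K ∧ (Es.length : ℝ) ≤ K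
  jb : ∀ x ∈ J, x ∈ B0 ++ (Bs.flatten ++ B1)
  es : (∀ e ∈ eds B0, e ∈ Es) ∧ (∀ e ∈ eds B1, e ∈ Es) ∧ ∀ B ∈ Bs, ∀ e ∈ eds B, e ∈ Es
  /-- the open ends are light and not in `J` -/
  ends : ∀ x, (B0.getLast? = some x ∨ B1.head? = some x ∨
    ∃ B ∈ Bs, B.head? = some x ∨ B.getLast? = some x) →
    x ∉ J ∧ (dg (off F J) {x} : ℝ) ≤ η * (Fintype.card V : ℝ) ^ 2
  c0 : ∀ e ∈ Es, ∀ f ∈ Es, ¬ Cf F e f
  c1 : ∀ x, x ∉ J → 200000 * dg (off F J) {x} ≤ (Fintype.card V) ^ 2
  /-- light vertices have at least `δ n` allowed neighbours -/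
  c2 : ∀ x, x ∉ J → (dg (off F J) {x} : ℝ) ≤ η * (Fintype.card V : ℝ) ^ 2 →
    (gs F J Es x : ℝ) ≤ (1 - δ) * Fintype.card V
  /-- the other vertices have few forbidden neighbours -/
  c2m : ∀ x, x ∉ J → η * (Fintype.card V : ℝ) ^ 2 < (dg (off F J) {x} : ℝ) →
    2000 * gs F J Es x ≤ Fintype.card V
  c3 : (∑ x ∈ univ.filter (fun x => x ∉ J), (gs F J Es x : ℝ)) ≤ K * Fintype.card V
  c4 : (off F J).card ≤ (Fintype.card V) ^ 2

/-- **Pe** (350 lines, uses `S_Ext`, `S_Chain`, `S_Comp`). The path embedding theorem.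

Proof. `n = |V|`. Let `κ = δ / 2000` (so `κ ≤ δ / 4` and `κ ≤ 1 / 2000`), `T = ε n` with `ε = δ ^ 2 / (10 ^ 8 K)`, `D = η n ^ 2` with
`η = ε δ / 100`, `g0 = (1 - δ) n`, `g1 = κ n`. (1) `Md = {x ∉ J | D < dg (off F J) {x}}` has at most `4 / η` elements, because
`∑ x, dg (off F J) {x} = 4 |off F J| ≤ 4 n ^ 2`. (2) `Y = {x ∉ J | x` in no block, `x ∉ Md`, `κ n < gs F J Es x}` has at most `K / κ`
elements (`c3`). (3) Let `Bs' = Bs ++ Y.toList.map (fun y => [y])`, at most `K + K / κ ≤ 2001 K / δ` blocks. `U` = `J`, `Md`, all the blocks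
and `Y`: at most `3 K + 4 / η + K / κ` elements. Then `Op F J Es D g1 c` for `c ∉ U`, and `Op F J Es D g0 x` for the heads
and last elements of the blocks (`ends`, `c2`; `Y` by definition). `S_Chain` gives `Q`, `Lk`; the numerical hypothesis holds
for `n ≥ n0`: `g0 + g1 ≤ (1 - 3 δ / 4) n`, `6 D / T = 6 η n / ε = 6 δ n / 100`, `2 (3 |Bs'| + 1) T ≤ 14000 (K / δ) ε n ≤ δ n / 100`. (4) `S_Ext` with
`x` = the last element of `Q`: `p ∉ U ∪ Q`, and `(x, p)` is added to `Lk`. `S_Ext` with `x'` = the head of `B1`: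
`q ∉ U ∪ Q ∪ {p}`, `(q, x')` is added. Let `Lk'` be the result, `|Lk'| ≤ 3 |Bs'| + 2`. (5) `W` = all the vertices which are not in
`Q`, `B1`, `{p, q}`. `r = |W| ≥ n - C ≥ 9 n / 10`. `S_Comp` with `G = Gs F (Es ++ Lk')` (symmetric). The members of `insert p (insert q W)` are not
in `J` and not in `Y`, so for such `x`: `gs F J Es x ≤ n / 2000` (`x ∈ Md`: `c2m`; otherwise `≤ κ n`), and the number of `y ∈ W` in
conflict with an edge of `Lk'` is at most `|Lk'| T ≤ n / 10000` (as in `S_Exc`), altogether `1000 * .. ≤ r`. The members of `F`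
which are contained in `insert p (insert q W)` are in `off F J`: use `c1`, `c4`. (6) `l = Q ++ (p :: (π ++ (q :: B1)))` where `π` is the list of
`S_Comp`. The edges of `l` are: edges of `Q` and `B1` and `(x, p)`, `(q, x')`: all in `Es` or `Lk'`; and the edges of
`p :: (π ++ [q])`. No conflicts: inside `Es`: `c0`; inside `Lk'`: `Gd`; between `Es` and `Lk'`: `Gd`; between these and the others:
`¬ G`; the others: `S_Comp`. -/
def S_Pe : Prop :=
  ∀ δ K : ℝ, 0 < δ → δ ≤ 1 → 1 ≤ K → ∃ η : ℝ, 0 < η ∧ ∃ n0 : ℕ,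
    ∀ (V : Type) [Fintype V] [DecidableEq V] (F : Finset (Finset V)) (J : Finset V)
      (Es : List (V × V)) (B0 B1 : List V) (Bs : List (List V)),
      n0 ≤ Fintype.card V → Blk F J Es B0 B1 Bs δ K η →
      ∃ l : List V, l.Nodup ∧ (∀ x, x ∈ l) ∧ B0 <+: l ∧ B1 <:+ l ∧
        (∀ e ∈ eds l, ∀ f ∈ eds l, ¬ Cf F e f) ∧ ∀ e ∈ eds l, ∀ f ∈ Es, ¬ Cf F e f

end Pool.Agent.Ham
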