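import Pool.Agent.Lib.MP_716318_co.H.Spec1

/-!
# MP_716318_co, package H, part 2: random neighbours of the heavy vertices, statements with proofs

`J` is the set of heavy vertices. `a : {v // v ∈ J} → {x // x ∉ J}` chooses a light neighbour for every
heavy vertex. `Z0` says that the choice is free of conflicts and of dead neighbours. Main results:
`S_Gt` (if there is no acceptable path, then for some threshold almost no choice satisfies `Z0`) and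
`S_ThA` (a family without acceptable path has at least `(1/2 - γ) n ^ 2` members).

Modules `H/<Name>.lean` (import this file only), theorem `t<Name> : S_Y → .. → S_<Name>` in the namespace
`Pool.Agent.Ham`, all other declarations `private`.
-/

set_option autoImplicit false

namespace Pool.Agent.Ham

open Finset
open scoped Classical

/-! ## Product spaces -/

/-- **Pr** (80 lines). Sums over functions of one, two, three coordinates.

Proof. Reindex with `Equiv.piSplitAt`/`Equiv.funSplitAt`, or: the fibre of `a ↦ a v` over every `x` has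
`λ ^ (h - 1)` elements (`Fintype.card_pi`, or by symmetry all the fibres have the same cardinality: compose with a
permutation of `Λ` at the coordinate `v`), the same for two and three coordinates. -/
def S_Pr : Prop :=
  ∀ (H Λ : Type) [Fintype H] [DecidableEq H] [Fintype Λ] [DecidableEq Λ],
    (∀ (v : H) (f : Λ → ℝ), (Fintype.card Λ : ℝ) * ∑ a : H → Λ, f (a v) =
      (Fintype.card Λ : ℝ) ^ Fintype.card H * ∑ x, f x) ∧
    (∀ (v w : H) (f : Λ → Λ → ℝ), v ≠ w → (Fintype.card Λ : ℝ) ^ 2 * ∑ a : H → Λ, f (a v) (a w) =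
      (Fintype.card Λ : ℝ) ^ Fintype.card H * ∑ x, ∑ y, f x y) ∧
    (∀ (u v w : H) (f : Λ → Λ → Λ → ℝ), u ≠ v → v ≠ w → u ≠ w →
      (Fintype.card Λ : ℝ) ^ 3 * ∑ a : H → Λ, f (a u) (a v) (a w) =
      (Fintype.card Λ : ℝ) ^ Fintype.card H * ∑ x, ∑ y, ∑ z, f x y z)

/-- **Mk** (100 lines, uses `S_Pr`). First and second moment.

Proof. `W_v = w v (a v)`, `S = ∑ v, W_v`, `s_v = ∑ x, w v x`, `s = ∑ v, s_v`. (1) `t * #{a | t ≤ S} ≤ ∑ a, S`, and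
`λ ∑ a, W_v = λ ^ h s_v`. (2) If `T₂ ≤ S` and `W_v ≤ T₁` for all `v`, then `∑ W_v ^ 2 ≤ T₁ S`, so
`∑_{v ≠ w} W_v W_w = S ^ 2 - ∑ W_v ^ 2 ≥ S (S - T₁) ≥ T₂ (T₂ - T₁)`; and `λ ^ 2 ∑ a, ∑_{v ≠ w} W_v W_w = λ ^ h ∑_{v ≠ w} s_v s_w ≤ λ ^ h s ^ 2`. -/
def S_Mk : Prop :=
  ∀ (H Λ : Type) [Fintype H] [DecidableEq H] [Fintype Λ] [DecidableEq Λ] (w : H → Λ → ℝ),
    (∀ v x, 0 ≤ w v x) →
    (∀ t : ℝ, 0 < t → t * Fintype.card Λ *
      (univ.filter (fun a : H → Λ => t ≤ ∑ v, w v (a v))).card ≤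
      (Fintype.card Λ : ℝ) ^ Fintype.card H * ∑ v, ∑ x, w v x) ∧
    (∀ T₁ T₂ : ℝ, 0 ≤ T₁ → T₁ < T₂ → T₂ * (T₂ - T₁) * (Fintype.card Λ : ℝ) ^ 2 *
      (univ.filter (fun a : H → Λ => T₂ ≤ ∑ v, w v (a v) ∧ ∀ v, w v (a v) ≤ T₁)).card ≤
      (Fintype.card Λ : ℝ) ^ Fintype.card H * (∑ v, ∑ x, w v x) ^ 2)

/-- **Dbl** (150 lines). Doubling.

Proof. It is enough to prove for all `k`, all finite types `X` and all sets `𝒢` of pairs `(x, a)`, `x : X`,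
`a : Fin k → Λ`: if `c |X| λ ^ k ≤ |𝒢|` then the number of the `(x, a, a')` with `(x, mix S a a') ∈ 𝒢` for all `S` is at least
`c ^ (2 ^ k) |X| λ ^ (2 k)` (then take `X` a point and transport `H ≃ Fin h`). Induction on `k`, `k = 0` is
clear. `k + 1`: write `a = Fin.cons b a₁`. For every `(x, a₁)` let `n(x, a₁)` be the number of `b` with
`(x, cons b a₁) ∈ 𝒢`. By Cauchy-Schwarz (`inner_mul_le_norm_mul_norm` or `sq_sum_le_card_mul_sum_sq`)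
`∑ n ^ 2 ≥ (c |X| λ ^ (k+1)) ^ 2 / (|X| λ ^ k) = c ^ 2 |X| λ ^ 2 λ ^ k`. Apply the induction hypothesis to `X' = X × Λ × Λ`, `c ^ 2` and
`𝒢' = {((x, b, b'), a₁) | (x, cons b a₁) ∈ 𝒢 ∧ (x, cons b' a₁) ∈ 𝒢}`. -/
def S_Dbl : Prop :=
  ∀ (H Λ : Type) [Fintype H] [DecidableEq H] [Fintype Λ] [DecidableEq Λ] (c : ℝ)
    (P : (H → Λ) → Prop), 0 ≤ c →
    c * (Fintype.card Λ : ℝ) ^ Fintype.card H ≤ (univ.filter (fun a : H → Λ => P a)).card →
    c ^ (2 ^ Fintype.card H) * ((Fintype.card Λ : ℝ) ^ Fintype.card H) ^ 2 ≤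
      (univ.filter (fun p : (H → Λ) × (H → Λ) =>
        ∀ S : Finset H, P (fun v => if v ∈ S then p.2 v else p.1 v))).card

/-! ## Heavy vertices -/

/-- The heavy vertices: at least `ε n ^ 2` members of `F`. -/
noncomputable def He {V : Type} [Fintype V] [DecidableEq V] (F : Finset (Finset V)) (ε : ℝ) :
    Finset V := univ.filter (fun v => ε * (Fintype.card V : ℝ) ^ 2 ≤ dg F {v})

/-- The number of `t ∉ J` with `{v, x, y, t} ∈ F`. -/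
noncomputable def ch {V : Type} [Fintype V] [DecidableEq V] (F : Finset (Finset V)) (J : Finset V)
    (v x y : V) : ℕ := (univ.filter (fun t => t ∉ J ∧ ({v, x, y, t} : Finset V) ∈ F)).card

/-- The number of the forbidden neighbours of `y` (with multiplicity). -/
noncomputable def Sy {V : Type} [Fintype V] [DecidableEq V] (F : Finset (Finset V)) (J : Finset V)
    (a : {v // v ∈ J} → {x // x ∉ J}) (y : V) : ℕ := ∑ v : {v // v ∈ J}, ch F J v.1 (a v).1 y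

/-- `x` is dead for `v`. -/
def Dd {V : Type} [Fintype V] [DecidableEq V] (F : Finset (Finset V)) (J : Finset V) (θ : ℝ)
    (v x : V) : Prop := ∃ y, y ∉ J ∧ θ ≤ (ch F J v x y : ℝ)

/-- No dead neighbour, no conflict. -/
def Z0 {V : Type} [Fintype V] [DecidableEq V] (F : Finset (Finset V)) (J : Finset V) (θ : ℝ)
    (a : {v // v ∈ J} → {x // x ∉ J}) : Prop :=
  (∀ v, ¬ Dd F J θ v.1 (a v).1) ∧
  ∀ v w, v ≠ w → ({v.1, (a v).1, w.1, (a w).1} : Finset V) ∉ F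

/-- **Sum** (80 lines). Degree sums.

Proof. (1) Double counting. (2) The sum is the number of the `(v, x, t)`, `v ∈ J`, `x, t ∉ J`, `{v, x, y, t} ∈ F`. The set
`A = {v, x, y, t}` contains `y`, and `v` is its only element in `J`; `(x, t)` is one of the two orders of
`A \ {v, y}`. So every `A` occurs at most twice. (3) By (1), `|He F ε| ε n ^ 2 ≤ 4 |F|`. -/
def S_Sum : Prop :=
  ∀ (V : Type) [Fintype V] [DecidableEq V] (F : Finset (Finset V)), U4 F →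
    (∑ y, dg F {y} = 4 * F.card) ∧
    (∀ (J : Finset V) (y : V), y ∉ J →
      ∑ v : {v // v ∈ J}, ∑ x : {x // x ∉ J}, ch F J v.1 x.1 y ≤ 2 * dg F {y}) ∧
    ∀ ε : ℝ, (He F ε).card * (ε * (Fintype.card V : ℝ) ^ 2) ≤ 4 * F.card

/-- **Two** (120 lines). A member serves at most two vertices, with at most `|D|` exceptions.

Proof. For `a ∈ D` let `S_a` be the set of the members `{v, a, y a, t}` of `F`; `|S_a| ≥ θ` (different `t`, different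
sets; all four elements are different because of `U4`). `m(A)` = the number of the `a ∈ D` with
`A ∈ S_a` is at most 3 (`a ∈ A \ {v}`). If `m(A) = 3` then `A \ {v}` is closed under `y`, which has no fixed point there; so
`A \ {v} = {z, y z, y (y z)}` for some `z ∈ D` (for a 3-cycle any `z`; otherwise there is a 2-cycle and
the third element `z` is mapped into it). So at most `|D|` members have `m(A) = 3`, and
`θ |D| ≤ ∑ m(A) ≤ 2 dg F {v} + |D|`. -/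
def S_Two : Prop :=
  ∀ (V : Type) [Fintype V] [DecidableEq V] (F : Finset (Finset V)) (v : V) (D : Finset V)
    (y : V → V) (θ : ℝ), U4 F → 0 < θ → (∀ a ∈ D, θ ≤ (c3 F v a (y a) : ℝ)) →
    (θ - 1) * D.card ≤ 2 * dg F {v}

/-- The number of the dead `x ∉ J`. -/
noncomputable def nD {V : Type} [Fintype V] [DecidableEq V] (F : Finset (Finset V)) (J : Finset V)
    (θ : ℝ) (v : V) : ℕ := (univ.filter (fun x => x ∉ J ∧ Dd F J θ v x)).card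

/-- The number of the pairs `(x, y)` outside `J` with `{v, x, w, y} ∈ F`. -/
noncomputable def nE {V : Type} [Fintype V] [DecidableEq V] (F : Finset (Finset V)) (J : Finset V)
    (v w : V) : ℕ :=
  (univ.filter (fun p : V × V => p.1 ∉ J ∧ p.2 ∉ J ∧ ({v, p.1, w, p.2} : Finset V) ∈ F)).card

/-- **Cost** (120 lines, uses `S_Two`). The cost inequality.

Proof. For `v ∈ J` let `F_v` be the set of the members `A` with `A ∩ J = {v}`, and `F_vw` the set of those with `A ∩ J = {v, w}`. All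
these sets are disjoint. `(θ - 1) nD v ≤ 2 |F_v|` by `S_Two` for `F_v` and `D` = the set of the dead `x` (for dead `x` with witness
`y`: `ch F J v x y = c3 F_v v x y`). `nE v w ≤ 2 |F_vw|` (`(x, y)` is one of the two orders of `A \ {v, w}`). (1) The members which
contain `v` include `F_v` and all the `F_vw`: `(θ - 1) nD v + ∑_w nE v w ≤ 2 (|F_v| + ∑_w |F_vw|) ≤ 2 dg F {v}`. (2) `|F| ≥ ∑_v |F_v| + (1/2) ∑_{v ≠ w} |F_vw|`, so
`4 |F| ≥ 2 (θ - 1) ∑ nD v + ∑_{v ≠ w} nE v w`. -/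
def S_Cost : Prop :=
  ∀ (V : Type) [Fintype V] [DecidableEq V] (F : Finset (Finset V)) (J : Finset V) (θ : ℝ), U4 F →
    0 < θ →
    (∀ v ∈ J, (θ - 1) * nD F J θ v + ∑ w ∈ J.erase v, (nE F J v w : ℝ) ≤ 2 * dg F {v}) ∧
    2 * (θ - 1) * ∑ v ∈ J, (nD F J θ v : ℝ) + ∑ v ∈ J, ∑ w ∈ J.erase v, (nE F J v w : ℝ) ≤
      4 * F.card

/-! ## One scale -/

/-- The good choices. -/
def Gq {V : Type} [Fintype V] [DecidableEq V] (F : Finset (Finset V)) (J : Finset V)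
    (δ γ ε' : ℝ) (a : {v // v ∈ J} → {x // x ∉ J}) : Prop :=
  Z0 F J ((1 - δ) * Fintype.card V) a ∧
  (∀ y, y ∉ J → (Sy F J a y : ℝ) ≤ (1 - δ / 2) * Fintype.card V) ∧
  (∀ y, y ∉ J → ε' * (Fintype.card V : ℝ) ^ 2 < dg F {y} →
    (Sy F J a y : ℝ) ≤ δ / 8 * Fintype.card V) ∧
  (∑ y ∈ univ.filter (fun y => y ∉ J), (Sy F J a y : ℝ)) ≤ 64 / γ * Fintype.card V ∧
  ∀ v, (dg F {(a v).1} : ℝ) ≤ ε' * (Fintype.card V : ℝ) ^ 2

/-- **OsA** (250 lines, uses `S_Mk`, `S_Sum`). Most choices with `Z0` are good.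

Proof. `J = He F ε`, `h = |J| ≤ 2 / ε`, `λ = n - h ≥ n / √2` for `n ≥ n0`. Let `s_y = ∑ v, ∑ x, ch F J v x y ≤ 2 dg F {y}` for `y ∉ J` (`S_Sum`), so
`∑_{y ∉ J} s_y ≤ 8 |F| ≤ 4 n ^ 2`, and `s_y < 2 ε n ^ 2`. The number of the `a` with `Z0` which violate
(2): some `y ∉ J` has `Sy > (1 - δ/2) n` while `ch F J v (a v) y < (1 - δ) n` for all `v` (`Z0`). By `S_Mk` (2) with
`T₂ = (1 - δ/2) n`, `T₁ = (1 - δ) n`, `T₂ (T₂ - T₁) ≥ δ n ^ 2 / 4`: at most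
`∑_y 4 s_y ^ 2 / (δ n ^ 2 λ ^ 2) λ ^ h ≤ 4 * 2 ε n ^ 2 * 4 n ^ 2 / (δ n ^ 2 λ ^ 2) λ ^ h ≤ 64 (ε / δ) λ ^ h ≤ (γ / 8) λ ^ h`;
(3): by `S_Mk` (1) with `t = δ n / 8` at most `∑_{y medium} 8 s_y / (δ n λ) λ ^ h ≤ 16 (γ δ / 1000) n ^ 2 / (δ n λ) λ ^ h ≤ (γ / 8) λ ^ h`;
(4): `∑_y Sy = ∑_v w v (a v)` with `w v x = ∑_{y ∉ J} ch F J v x y`; `S_Mk` (1) with `t = 64 n / γ`: at most
`4 n ^ 2 γ / (64 n λ) λ ^ h ≤ (γ / 8) λ ^ h`;
(5): there are at most `2 / ε'` vertices with `dg > ε' n ^ 2`; at most `h (2 / ε') λ ^ (h - 1) ≤ (γ / 8) λ ^ h` for large `n` (`S_Mk` (1) with the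
indicator functions and `t = 1`). -/
def S_OsA : Prop :=
  ∀ γ δ ε ε' : ℝ, 0 < γ → γ ≤ 1 → 0 < δ → δ ≤ 1 / 500 → 0 < ε' → ε' < ε → ε ≤ γ * δ / 5000 →
    ∃ n0 : ℕ, ∀ (V : Type) [Fintype V] [DecidableEq V] (F : Finset (Finset V)), U4 F →
      n0 ≤ Fintype.card V → 2 * F.card ≤ (Fintype.card V) ^ 2 →
      (∑ y ∈ univ.filter (fun y => y ∉ He F ε ∧ ε' * (Fintype.card V : ℝ) ^ 2 < dg F {y}),
        (dg F {y} : ℝ)) ≤ γ * δ / 1000 * (Fintype.card V : ℝ) ^ 2 →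
      γ * (Fintype.card {x // x ∉ He F ε} : ℝ) ^ Fintype.card {v // v ∈ He F ε} ≤
        (univ.filter (fun a => Z0 F (He F ε) ((1 - δ) * Fintype.card V) a)).card →
      γ / 2 * (Fintype.card {x // x ∉ He F ε} : ℝ) ^ Fintype.card {v // v ∈ He F ε} ≤
        (univ.filter (fun a => Gq F (He F ε) δ γ ε' a)).card

/-- Two choices all of whose mixtures are good, with different values, and for every light `y` one
of them is cheap. -/
def Pq {V : Type} [Fintype V] [DecidableEq V] (F : Finset (Finset V)) (J : Finset V)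
    (δ γ ε' : ℝ) (a a' : {v // v ∈ J} → {x // x ∉ J}) : Prop :=
  (∀ S : Finset {v // v ∈ J}, Gq F J δ γ ε' (fun v => if v ∈ S then a' v else a v)) ∧
  Function.Injective a ∧ Function.Injective a' ∧ (∀ v w, a v ≠ a' w) ∧
  ∀ y, y ∉ J → (dg F {y} : ℝ) ≤ ε' * (Fintype.card V : ℝ) ^ 2 →
    (Sy F J a y : ℝ) ≤ δ / 8 * Fintype.card V ∨ (Sy F J a' y : ℝ) ≤ δ / 8 * Fintype.card V

/-- **OsB** (200 lines, uses `S_Mk`, `S_Sum`, `S_Dbl`).

Proof. `h ≤ 2 / ε`. `c = γ / 2`, `κ = c ^ (2 ^ ⌈2 / ε⌉₊)`, `ε1 = δ ^ 2 κ / 5000`. By `S_Dbl` at least `κ λ ^ (2 h)` pairs have only good mixtures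
(`c ≤ 1`). At most `(2 h) ^ 2 λ ^ (2 h) / λ ≤ (κ / 4) λ ^ (2 h)` pairs have a coincidence among the `2 h` values (large `n`; count the
functions on `J ⊕ J` or use `S_Pr`). For `y` with `dg ≤ ε' n ^ 2` the number of the pairs with both `Sy > δ n / 8` is at
most `(8 s_y / (δ n λ) λ ^ h) ^ 2` (`S_Mk` (1)), `s_y ≤ 2 dg F {y}`; sum: `64 / (δ n λ) ^ 2 * 2 ε' n ^ 2 * 4 n ^ 2 λ ^ (2 h) ≤ 1024 (ε' / δ ^ 2) λ ^ (2 h) ≤ (κ / 4) λ ^ (2 h)`. So
some pair is left. -/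
def S_OsB : Prop :=
  ∀ γ δ ε : ℝ, 0 < γ → γ ≤ 1 → 0 < δ → δ ≤ 1 / 500 → 0 < ε → ∃ ε1 : ℝ, 0 < ε1 ∧
    ∀ ε' : ℝ, 0 < ε' → ε' ≤ ε1 → ∃ n0 : ℕ, ∀ (V : Type) [Fintype V] [DecidableEq V]
      (F : Finset (Finset V)), U4 F → n0 ≤ Fintype.card V → 2 * F.card ≤ (Fintype.card V) ^ 2 →
      γ / 2 * (Fintype.card {x // x ∉ He F ε} : ℝ) ^ Fintype.card {v // v ∈ He F ε} ≤
        (univ.filter (fun a => Gq F (He F ε) δ γ ε' a)).card →
      ∃ a a', Pq F (He F ε) δ γ ε' a a'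

/-- **OsC** (300 lines, uses `S_Pe`, `S_Sum`). From two choices to an acceptable path.

Proof. `J = He F ε`, `h ≤ 2 / ε`; `K = 6 / ε + 128 / γ + 10`; `η`, `n0'` from `S_Pe` for `δ / 4`, `K`; `ε2 = min η (1 / 200000)` (the statement is used with
`ε ≤ 1 / 200000`). Blocks: `B0 = [s]`, `B1 = [t]`, `Bs` = the list of the `[a v, v, a' v]`, `v ∈ J`, where `s ≠ t` are two vertices outside
`J` and the values of `a`, `a'` with `dg ≤ ε' n ^ 2` (all but at most `h + 2 h + 2 / ε'` vertices). `Es` = the pairs `(a v, v)`, `(v, a' v)`.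
`Blk`: `nd`: `Pq`; `c0`: two edges at the same `v` are not in conflict (`U4`), for `v ≠ w` use `Z0` of a suitable
mixture (`{v, b v, w, b w} ∉ F` for `b v ∈ {a v, a' v}`, `b w ∈ {a w, a' w}`); for `x ∉ J`: `gs F J Es x ≤ Sy a x + Sy a' x`; `c1`: `dg (off F J) {x} ≤ dg F {x} < ε n ^ 2`; `c2`: if `dg F {x} ≤ ε' n ^ 2`
then `gs ≤ (1 - δ/2) n + δ n / 8 ≤ (1 - δ/4) n` (`Pq` and (2) of `Gq` for `S = ∅`, `univ`), otherwise `gs ≤ 2 δ n / 8` by (3); `c2m`: here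
`dg F {x} > η n ^ 2 ≥ ε' n ^ 2`, so `gs ≤ δ n / 4 ≤ n / 2000`; `c3`: `2 * 64 n / γ`; `c4`: `2 |F| ≤ n ^ 2`. -/
def S_OsC : Prop :=
  ∀ γ δ ε : ℝ, 0 < γ → γ ≤ 1 → 0 < δ → δ ≤ 1 / 500 → 0 < ε → ε ≤ 1 / 200000 →
    ∃ ε2 : ℝ, 0 < ε2 ∧ ∀ ε' : ℝ, 0 < ε' → ε' ≤ ε2 → ∃ n0 : ℕ,
      ∀ (V : Type) [Fintype V] [DecidableEq V] (F : Finset (Finset V)), U4 F →
      n0 ≤ Fintype.card V → 2 * F.card ≤ (Fintype.card V) ^ 2 →
      (∃ a a', Pq F (He F ε) δ γ ε' a a') → Acc F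

/-- **Os** (60 lines, uses `S_OsA`, `S_OsB`, `S_OsC`). One scale.

Proof. `ε' = min (ε / 2) (min ε1 ε2)`, `n0` the maximum of the three. -/
def S_Os : Prop :=
  ∀ γ δ ε : ℝ, 0 < γ → γ ≤ 1 → 0 < δ → δ ≤ 1 / 500 → 0 < ε → ε ≤ γ * δ / 5000 →
    ε ≤ 1 / 200000 → ∃ ε' : ℝ, 0 < ε' ∧ ε' < ε ∧ ∃ n0 : ℕ,
      ∀ (V : Type) [Fintype V] [DecidableEq V] (F : Finset (Finset V)), U4 F →
      n0 ≤ Fintype.card V → 2 * F.card ≤ (Fintype.card V) ^ 2 → ¬ Acc F →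
      (∑ y ∈ univ.filter (fun y => y ∉ He F ε ∧ ε' * (Fintype.card V : ℝ) ^ 2 < dg F {y}),
        (dg F {y} : ℝ)) ≤ γ * δ / 1000 * (Fintype.card V : ℝ) ^ 2 →
      (univ.filter (fun a => Z0 F (He F ε) ((1 - δ) * Fintype.card V) a)).card <
        γ * (Fintype.card {x // x ∉ He F ε} : ℝ) ^ Fintype.card {v // v ∈ He F ε}

/-- **Gt** (150 lines, uses `S_Os`, `S_Sum`). All scales.

Proof. `e 0 = min ε0 (min (γ δ / 5000) (1 / 200000))`, `e (j + 1)` = the `ε'` of `S_Os` for `ε = e j` (`Classical.choose`; define the sequence in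
the subtype of the admissible `ε`). `k = ⌈2000 / (γ δ)⌉₊`, `εm = e k`, `n0` = the maximum (sum) of the `n0` for `j < k`. The sets
`R_j = {y | y ∉ He F (e j), e (j+1) n ^ 2 < dg F {y}}` are disjoint, so `∑_{j < k} ∑_{R_j} dg ≤ 4 |F| ≤ 2 n ^ 2` and for some `j` the sum is at most
`2 n ^ 2 / k ≤ γ δ n ^ 2 / 1000`. Apply `S_Os` to this `j`. -/
def S_Gt : Prop :=
  ∀ γ δ ε0 : ℝ, 0 < γ → γ ≤ 1 → 0 < δ → δ ≤ 1 / 500 → 0 < ε0 → ∃ εm : ℝ, 0 < εm ∧ ∃ n0 : ℕ,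
    ∀ (V : Type) [Fintype V] [DecidableEq V] (F : Finset (Finset V)), U4 F →
      n0 ≤ Fintype.card V → 2 * F.card ≤ (Fintype.card V) ^ 2 → ¬ Acc F →
      ∃ ε : ℝ, εm ≤ ε ∧ ε ≤ ε0 ∧
        (univ.filter (fun a => Z0 F (He F ε) ((1 - δ) * Fintype.card V) a)).card <
        γ * (Fintype.card {x // x ∉ He F ε} : ℝ) ^ Fintype.card {v // v ∈ He F ε}

/-- **ThA** (150 lines, uses `S_Gt`, `S_Cost`, `S_Pr`, `S_Sum`). Theorem A.

Proof. Let `γ ≤ 1/2`, `δ = min (γ / 8) (1 / 500)`. Suppose `¬ Acc F`. `S_Gt` for `γ`, `δ`, `ε0 = 1` gives `ε ≥ εm`; `J = He F ε`, `h ≤ 2 / εm`,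
`λ = n - h`, `θ = (1 - δ) n ≥ 2`, `θ - 1 ≤ λ` for large `n`. If `a` does not satisfy `Z0`, then some `a v` is dead or
`{v, a v, w, a w} ∈ F` for two ordered pairs `(v, w)`, `(w, v)`. So by `S_Pr`
`#{¬ Z0} ≤ λ ^ h (∑_v nD v / λ + (1/2) ∑_{v ≠ w} nE v w / λ ^ 2) ≤ λ ^ h 2 |F| / ((θ - 1) λ)` by `S_Cost` (2)
(`nD v / λ = (θ - 1) nD v / ((θ - 1) λ)`, `nE / λ ^ 2 ≤ nE / ((θ - 1) λ)`). `2 |F| ≤ (1 - 2 γ) n ^ 2` and `(θ - 1) λ ≥ (1 - 2 δ) n ^ 2` for large `n`, so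
`#{¬ Z0} ≤ (1 - γ) λ ^ h`, a contradiction. -/
def S_ThA : Prop :=
  ∀ γ : ℝ, 0 < γ → ∃ n0 : ℕ, ∀ (V : Type) [Fintype V] [DecidableEq V] (F : Finset (Finset V)),
    U4 F → n0 ≤ Fintype.card V → (F.card : ℝ) ≤ (1 / 2 - γ) * (Fintype.card V : ℝ) ^ 2 → Acc F

end Pool.Agent.Ham
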