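import Pool.Agent.Lib.MP_716318_co.H.Spec2

/-!
# MP_716318_co, package H, part 3: stability, statements with proofs

If there is no acceptable path and `2 |F| ≤ n ^ 2`, then one vertex is in almost all members of `F` (`S_Stab`).

Modules `H/<Name>.lean` (import this file only), theorem `t<Name> : S_Y → .. → S_<Name>` in the namespace
`Pool.Agent.Ham`, all other declarations `private`.
-/

set_option autoImplicit false

namespace Pool.Agent.Ham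

open Finset
open scoped Classical

/-- The event with index set `e` (one or two coordinates) occurs at `a`. -/
def Evt {H Λ : Type} [DecidableEq H] (D : H → Λ → Prop) (G : H → H → Λ → Λ → Prop)
    (e : Finset H) (a : H → Λ) : Prop :=
  (∃ v, e = {v} ∧ D v (a v)) ∨ ∃ v w, v ≠ w ∧ e = {v, w} ∧ G v w (a v) (a w)

/-- The number of the events which occur at `a`. -/
noncomputable def Nn {H Λ : Type} [Fintype H] [DecidableEq H] (D : H → Λ → Prop)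
    (G : H → H → Λ → Λ → Prop) (a : H → Λ) : ℕ :=
  (univ.filter (fun e : Finset H => Evt D G e a)).card

/-- The symmetries of the pair events. -/
def GSym {H Λ : Type} (G : H → H → Λ → Λ → Prop) : Prop :=
  (∀ v w x y, G v w x y → G w v y x) ∧ ∀ v w x y, G v w x y → G v w y x

/-- **Ra** (100 lines). Disjoint events at two independent choices.

Proof. Let `Ω = H → Λ`. For `(a, b)` on the left take `e`, `f` disjoint, nonempty, with at most two elements. For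
every `S : Finset H` with `e ⊆ S`, `f ∩ S = ∅` the mixture `c v = if v ∈ S then a v else b v` satisfies `Evt e c`, `Evt f c`
(an event depends only on the coordinates in its index set), `e ≠ f`, so `2 ≤ Nn c`. There are
`2 ^ (h - |e| - |f|) ≥ 2 ^ h / 16` such `S`. For fixed `S` the map `(a, b) ↦ (c, c')` with the complementary mixture `c'` is a
bijection of `Ω × Ω`, so there are exactly `2 ^ h |Ω| #{c | 2 ≤ Nn c}` triples `(a, b, S)` with `2 ≤ Nn c`. -/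
def S_Ra : Prop :=
  ∀ (H Λ : Type) [Fintype H] [DecidableEq H] [Fintype Λ] [DecidableEq Λ] (D : H → Λ → Prop)
    (G : H → H → Λ → Λ → Prop),
    (univ.filter (fun p : (H → Λ) × (H → Λ) =>
      ∃ e f : Finset H, Evt D G e p.1 ∧ Evt D G f p.2 ∧ Disjoint e f)).card ≤
    16 * (Fintype.card (H → Λ) * (univ.filter (fun a : H → Λ => 2 ≤ Nn D G a)).card)

/-- **Rb** (150 lines). Almost intersecting measures on sets of size at most two.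

Proof. `m = ∑ μ ∈ [1 - z, 1]`, `s = √z` small. Since `∑_e μ e ν e ≤ z` with `ν e = ∑_{f ∩ e = ∅} μ f`, there is `e` with `μ e > 0`, `ν e ≤ z / m ≤ 2 z`.
If `e = {v}`: `∑_{f ∋ v} μ f ≥ 1 - 3 z`. Let `e = {v, w}`. `α` = mass of the `f ∋ v`, `f ∌ w`; `β` = mass of the `f ∋ w`, `f ∌ v`; `μ₀ = μ e`;
`α + β + μ₀ ≥ 1 - 3 z`. If `β ≤ 10 s` take `v`, if `α ≤ 10 s` take `w`. Otherwise let `α_u = μ {v, u}`, `β_u = μ {w, u}` (`u ≠ v, w`): two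
sets `f ∋ v`, `f ∌ w`, `g ∋ w`, `g ∌ v` meet only if `f = {v, u}`, `g = {w, u}`, so `∑_u α_u β_u ≥ α β - z`. Take `u` with the largest `α_u`:
`α_u β ≥ α β - z`, so `α - α_u ≤ z / β ≤ s / 10`. The other terms: `∑_{u' ≠ u} α_{u'} β_{u'} ≤ (α - α_u) β ≤ z`, so `α β_u ≥ α_u β_u ≥ α β - 2 z`,
`β_u ≥ β - 2 z / α ≥ β - s / 5`. Hence `μ {v, w} + μ {v, u} + μ {w, u} ≥ 1 - 3 z - s`. -/
def S_Rb : Prop :=
  ∀ ξ : ℝ, 0 < ξ → ∃ z : ℝ, 0 < z ∧ ∀ (H : Type) [Fintype H] [DecidableEq H] (μ : Finset H → ℝ),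
    (∀ e, 0 ≤ μ e) → (∀ e, μ e ≠ 0 → 1 ≤ e.card ∧ e.card ≤ 2) → 1 - z ≤ ∑ e, μ e → ∑ e, μ e ≤ 1 →
    (∑ e, ∑ f ∈ univ.filter (fun f => Disjoint e f), μ e * μ f) ≤ z →
    (∃ v, 1 - ξ ≤ ∑ e ∈ univ.filter (fun e : Finset H => v ∈ e), μ e) ∨
    ∃ u v w, u ≠ v ∧ v ≠ w ∧ u ≠ w ∧ 1 - ξ ≤ μ {u, v} + μ {v, w} + μ {u, w}

/-- **Rc** (250 lines). The triangle.

Proof. Let `κ = z ^ (1/4)` be small, `X x = {y | R1 x y}`, `Y x = {t | R3 x t}`. Call `x` typical if for all but `κ ^ 2 λ ^ 2` pairs `(y, t)` exactly one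
of `y ∈ X x`, `t ∈ Y x`, `R2 y t` holds; all but `κ ^ 2 λ` of the `x` are typical (Markov, `κ ^ 4 = z`). For typical `x`
`|X x| |Y x| ≤ κ ^ 2 λ ^ 2`, so `|X x| ≤ κ λ` or `|Y x| ≤ κ λ`. Suppose `|Y x| ≤ κ λ`. Then `R2 y t ↔ y ∉ X x` for all but `2 κ λ ^ 2` pairs; as `R2` is
symmetric, `y ∈ X x ↔ t ∈ X x` for all but `4 κ λ ^ 2` pairs, so `2 |X x| (λ - |X x|) ≤ 4 κ λ ^ 2`, hence `|X x| ≤ 4 κ λ` or
`|X x| ≥ (1 - 4 κ) λ`. In the first case `R2` holds for all but `6 κ λ ^ 2` pairs and we are done. The same with `X`, `Y` exchanged.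
So we may assume that for all typical `x` either `|X x| ≥ (1 - 4 κ) λ` and `|Y x| ≤ κ λ` (`x ∈ C`) or `|Y x| ≥ (1 - 4 κ) λ` and `|X x| ≤ κ λ`.
Count the pairs `x ∈ C`, `y ∉ C`, `R1 x y`: at least `|C| (λ - |C| - 4 κ λ)`, and (symmetry of `R1`) at most `κ λ ^ 2 + κ ^ 2 λ ^ 2`. So
`|C| (λ - |C|) ≤ 6 κ λ ^ 2`, `|C| ≤ 12 κ λ` or `|C| ≥ (1 - 12 κ) λ`. In the second case `R1` has at least `(1 - 16 κ) λ ^ 2` pairs, in the
first case `R3`. -/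
def S_Rc : Prop :=
  ∀ ξ : ℝ, 0 < ξ → ∃ z : ℝ, 0 < z ∧ ∀ (Λ : Type) [Fintype Λ] [DecidableEq Λ]
    (R1 R2 R3 : Λ → Λ → Prop), (∀ x y, R1 x y → R1 y x) → (∀ x y, R2 x y → R2 y x) →
    (∀ x y, R3 x y → R3 y x) →
    (1 - z) * (Fintype.card Λ : ℝ) ^ 3 ≤ (univ.filter (fun p : Λ × Λ × Λ =>
      (R1 p.1 p.2.1 ∧ ¬ R2 p.2.1 p.2.2 ∧ ¬ R3 p.1 p.2.2) ∨
      (¬ R1 p.1 p.2.1 ∧ R2 p.2.1 p.2.2 ∧ ¬ R3 p.1 p.2.2) ∨
      (¬ R1 p.1 p.2.1 ∧ ¬ R2 p.2.1 p.2.2 ∧ R3 p.1 p.2.2))).card →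
    (1 - ξ) * (Fintype.card Λ : ℝ) ^ 2 ≤ (univ.filter (fun p : Λ × Λ => R1 p.1 p.2)).card ∨
    (1 - ξ) * (Fintype.card Λ : ℝ) ^ 2 ≤ (univ.filter (fun p : Λ × Λ => R2 p.1 p.2)).card ∨
    (1 - ξ) * (Fintype.card Λ : ℝ) ^ 2 ≤ (univ.filter (fun p : Λ × Λ => R3 p.1 p.2)).card

/-- **Rd** (200 lines, uses `S_Ra`, `S_Rb`, `S_Rc`, `S_Pr`). One vertex is in almost all events.

Proof. We may assume that `Ω = H → Λ` is not empty. `μ e = #{a | Evt e a ∧ Nn a = 1} / |Ω|`. Then `∑ μ = #{Nn a = 1} / |Ω| ≥ 1 - ζ` and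
`∑_{e ∩ f = ∅} μ e μ f ≤ #{(a, b) | ∃ e f ..} / |Ω| ^ 2 ≤ 16 ζ` by `S_Ra` (if `Nn a = Nn b = 1` the pair `(a, b)` is counted for at most one
`(e, f)`). `S_Rb` gives `v` with `∑_{e ∋ v} μ e ≥ 1 - ξ`, which is the claim (if `Evt e a`, `v ∈ e`, then `D v (a v)` or
`G v w (a v) (a w)`, using the first symmetry), or a triangle `u, v, w`: for at least `(1 - ξ') |Ω|` of the `a` the only event is
one of `{u, v}`, `{v, w}`, `{u, w}`, so exactly one of `G u v (a u) (a v)`, `G v w (a v) (a w)`, `G u w (a u) (a w)` holds. By `S_Pr` (three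
coordinates) `S_Rc` applies with `R1 = G u v`, `R2 = G v w`, `R3 = G u w`, and one of the three, say `G u v`, holds for
`≥ (1 - ξ) λ ^ 2` pairs, so (`S_Pr`, two coordinates) for `≥ (1 - ξ) |Ω|` of the `a`: `u` has the claimed property. -/
def S_Rd : Prop :=
  ∀ ξ : ℝ, 0 < ξ → ∃ ζ : ℝ, 0 < ζ ∧ ∀ (H Λ : Type) [Fintype H] [DecidableEq H] [Fintype Λ]
    [DecidableEq Λ] (D : H → Λ → Prop) (G : H → H → Λ → Λ → Prop), GSym G →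
    ((univ.filter (fun a : H → Λ => Nn D G a ≠ 1)).card : ℝ) ≤ ζ * Fintype.card (H → Λ) →
    ∃ v, (1 - ξ) * Fintype.card (H → Λ) ≤
      (univ.filter (fun a : H → Λ => D v (a v) ∨ ∃ w, w ≠ v ∧ G v w (a v) (a w))).card

/-- **Stab** (250 lines, uses `S_Gt`, `S_Cost`, `S_Pr`, `S_Sum`, `S_Rd`). Stability.

Proof. Let `ξ ≤ 1`, `ζ ≤ 1` from `S_Rd` for `ξ / 4`, `γ = ζ / 8`, `δ = min (ζ / 16) (min (ξ / 100) (1 / 500))`; `S_Gt` with `ε0 = 1` gives `ε ≥ εm`, `J = He F ε`,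
`h = |J| ≤ 2 / εm`, `λ = n - h`, `θ = (1 - δ) n`; `θ - 1 ≤ λ` and `(θ - 1) λ ≥ (1 - 2 δ) n ^ 2` for large `n`. `D v x = Dd F J θ v x`,
`G v w x y = ({v, x, w, y} ∈ F)`, on the subtypes; `GSym`. `Z0 a ↔ Nn a = 0`. By `S_Pr` (every unordered pair is counted twice)
`∑_a Nn a = λ ^ h (∑_v nD v / λ + (1/2) ∑_{v ≠ w} nE v w / λ ^ 2) ≤ λ ^ h 2 |F| / ((θ - 1) λ) ≤ λ ^ h / (1 - 2 δ) ≤ (1 + 4 δ) λ ^ h` by `S_Cost` (2).
As `Nn ≥ 1 - 1[Nn = 0] + 1[Nn ≥ 2]`: `#{Nn ≥ 2} ≤ ∑ Nn - λ ^ h + #{Nn = 0} ≤ (4 δ + γ) λ ^ h`. So `#{Nn ≠ 1} ≤ (4 δ + 2 γ) λ ^ h ≤ ζ λ ^ h`. `S_Rd` gives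
`v ∈ J` with `nD v / λ + ∑_{w ≠ v} nE v w / λ ^ 2 ≥ 1 - ξ / 4` (union bound, `S_Pr`). By `S_Cost` (1)
`2 dg F {v} ≥ (θ - 1) nD v + ∑ nE v w ≥ (θ - 1) λ (1 - ξ / 4) ≥ (1 - ξ / 4) (1 - 2 δ) n ^ 2 ≥ (1 - ξ / 2) n ^ 2`, and
`|off F {v}| = |F| - dg F {v} ≤ n ^ 2 / 2 - (1 - ξ / 2) n ^ 2 / 2`. -/
def S_Stab : Prop :=
  ∀ ξ : ℝ, 0 < ξ → ∃ n0 : ℕ, ∀ (V : Type) [Fintype V] [DecidableEq V] (F : Finset (Finset V)),
    U4 F → n0 ≤ Fintype.card V → 2 * F.card ≤ (Fintype.card V) ^ 2 → ¬ Acc F →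
    ∃ v, ((off F {v}).card : ℝ) ≤ ξ * (Fintype.card V : ℝ) ^ 2

end Pool.Agent.Ham
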