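import Pool.Agent.Lib.MP_716318_co.H.Spec3

/-!
# MP_716318_co, package H, part 4: the weighting lemma, statements with proofs

`F` is a family of 4-sets which all contain `v` (so a 3-graph). `Tn` is a set of vertices `a` with a partner
`y a`: `{v, a, y a, t} ∈ F` for almost all `t`. A member `A` is claimed by the `a ∈ A ∩ Tn` with `y a ∈ A`.

Modules `H/<Name>.lean` (import this file only), theorem `t<Name> : S_Y → .. → S_<Name>` in the namespace
`Pool.Agent.Ham`, all other declarations `private`.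
-/

set_option autoImplicit false

namespace Pool.Agent.Ham

open Finset
open scoped Classical

/-- The vertices which claim `A`. -/
noncomputable def Cl {V : Type} [DecidableEq V] (Tn : Finset V) (y : V → V) (A : Finset V) :
    Finset V := A.filter (fun a => a ∈ Tn ∧ y a ∈ A)

/-- The weight which `A` gives to `x`. -/
noncomputable def om {V : Type} [DecidableEq V] (Tn : Finset V) (y : V → V) (A : Finset V)
    (x : V) : ℝ :=
  if (Cl Tn y A).card = 0 then 1 / 6
  else if (Cl Tn y A).card = 1 then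
    (if x ∈ Cl Tn y A then 7 / 10 else if ∃ c ∈ Cl Tn y A, y c = x then 3 / 10 else 0)
  else if x ∈ Cl Tn y A then 1 / ((Cl Tn y A).card : ℝ) else 0

/-- What `x` receives. -/
noncomputable def rcv {V : Type} [DecidableEq V] (F : Finset (Finset V)) (Tn : Finset V)
    (y : V → V) (x : V) : ℝ := ∑ A ∈ F.filter (fun A => x ∈ A), om Tn y A x

/-- `a` is perfect: its partner has the partner `a`, and neither of them has a second vertex with
`≥ N / 2` members. -/
def Pf {V : Type} [Fintype V] [DecidableEq V] (F : Finset (Finset V)) (v : V) (Tn : Finset V)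
    (y : V → V) (N : ℝ) (a : V) : Prop :=
  a ∈ Tn ∧ y a ∈ Tn ∧ y (y a) = a ∧ (∀ b, b ≠ y a → 2 * (c3 F v a b : ℝ) < N) ∧
  ∀ b, b ≠ a → 2 * (c3 F v (y a) b : ℝ) < N

/-- The hypotheses of the weighting lemma. `Ta`: vertices of large degree; `Tp`: additional vertices. -/
structure Wh {V : Type} [Fintype V] [DecidableEq V] (F : Finset (Finset V)) (v : V)
    (Tn Ta Tp : Finset V) (y : V → V) (N : ℝ) : Prop where
  u4 : U4 F
  mv : ∀ A ∈ F, v ∈ A
  big : 1000 ≤ N
  hv : v ∉ Tn ∧ v ∉ Ta ∧ v ∉ Tp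
  hc : ∀ a ∈ Tn, 99 / 100 * N ≤ c3 F v a (y a)
  ind : ∀ u, ((Tn.filter (fun a => y a = u)).card : ℝ) ≤ N / 200
  card : (Tn.card : ℝ) ≤ N
  dis : Disjoint Tn Ta ∧ Disjoint Tn Tp ∧ Disjoint Ta Tp
  ta : ∀ a ∈ Ta, 8 * N ≤ dg F {a}
  tp : ∀ a ∈ Tp, 4 / 10 * N ≤ dg F {a} ∧ (Tn.card : ℝ) ≤ N / 200

/-- **Wp** (80 lines). A perfect vertex.

Proof. Let `b = y a`. For every `t` with `A = {v, a, b, t} ∈ F` (four different elements, different `t` give different `A`)
`Cl A = {a, b}`: `a` and `b` claim `A`; if `t ∈ Tn` and `y t = a`, then `c3 F v a t = c3 F v t a ≥ 0.99 N`, `t ≠ b`,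
a contradiction; the same with `y t = b`. So `om A a = 1 / 2`. -/
def S_Wp : Prop :=
  ∀ (V : Type) [Fintype V] [DecidableEq V] (F : Finset (Finset V)) (v : V)
    (Tn Ta Tp : Finset V) (y : V → V) (N : ℝ), Wh F v Tn Ta Tp y N → ∀ a, Pf F v Tn y N a →
    (c3 F v a (y a) : ℝ) / 2 ≤ rcv F Tn y a

/-- **Wq** (200 lines). An imperfect vertex of `Tn`.

Proof. Let `b = y a`. For at least `0.98 N` of the `t` with `A = {v, a, b, t} ∈ F` the vertex `t` does not claim `A` (`ind`). (1) If not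
(`b ∈ Tn` and `y b = a`): `b` claims `A` only if `y b = t`, for one `t`; for the others `Cl A = {a}`, so
`rcv a ≥ 0.7 (0.98 N - 1) ≥ 0.52 N`. (2) Let `b ∈ Tn`, `y b = a`. For the `0.98 N` values of `t`: `Cl A = {a, b}`, so `rcv a` and `rcv b` are
at least `0.49 N`. As `a` is not perfect there is `z ≠ b` with `c3 F v a z ≥ N / 2`, or `z ≠ a` with `c3 F v b z ≥ N / 2`; the two
cases are symmetric, take the first one. Consider `A = {v, a, z, t} ∈ F`, `t ≠ b`, such that `t` does not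
claim `A` and not `y z = t`: at least `N / 2 - 2 - N / 100` sets, none of them contains `b`. `a` does not claim `A` (`b ∉ A`). If
`z ∈ Tn` and `y z = a` then `Cl A = {z}` and `om A a = 3 / 10`, otherwise `Cl A = ∅` and `om A a = 1 / 6`. So
`rcv a + rcv b ≥ 0.98 N + (0.49 N - 2) / 6 ≥ 1.04 N`. `b` is not perfect either (the definition is symmetric). -/
def S_Wq : Prop :=
  ∀ (V : Type) [Fintype V] [DecidableEq V] (F : Finset (Finset V)) (v : V)
    (Tn Ta Tp : Finset V) (y : V → V) (N : ℝ), Wh F v Tn Ta Tp y N →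
    ∀ a ∈ Tn, ¬ Pf F v Tn y N a →
    52 / 100 * N ≤ rcv F Tn y a ∨
    (y a ∈ Tn ∧ y (y a) = a ∧ ¬ Pf F v Tn y N (y a) ∧
      104 / 100 * N ≤ rcv F Tn y a + rcv F Tn y (y a))

/-- **Wr** (200 lines). The vertices of `Ta` and `Tp`.

Proof. Let `a ∉ Tn`, `I = {b ∈ Tn | y b = a}`. For `b ∈ I` at least `0.98 N` of the `t` with `A = {v, b, a, t} ∈ F` do not claim `A`; then
`Cl A = {b}` and `om A a = 3 / 10`. (1) `|I| ≥ 2`, `b ≠ b'` in `I`: the sets for `b` with `t ≠ b'` and the sets for `b'` with `t ≠ b` are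
different: `rcv a ≥ 0.3 * 2 (0.98 N - 1) ≥ 0.52 N`. `|I| = 1`: `rcv a ≥ 0.3 * 0.98 N ≥ 0.05 N`. (2) Let `|I| ≤ 1` and `A ∋ a` a member with
`om A a = 0`. Then there is `c ∈ Cl A` with `y c ≠ a` (if `|Cl A| = 1` by the definition of `om`; if `|Cl A| ≥ 2` because
`|I| ≤ 1`), so `A = {v, c, y c, a}`: at most `|Tn|` such members. All the others give at least `1 / 6`
(`a ∉ Cl A`, so `|Cl A| ≤ 1` and the weight is `1 / 6` or `3 / 10`; if `|Cl A| ≥ 2` the weight is `0`). `a ∈ Ta`: `rcv a ≥ (8 N - N) / 6`.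
`a ∈ Tp`, `|I| = 0`: `rcv a ≥ (0.4 N - N / 200) / 6 ≥ 0.05 N`. -/
def S_Wr : Prop :=
  ∀ (V : Type) [Fintype V] [DecidableEq V] (F : Finset (Finset V)) (v : V)
    (Tn Ta Tp : Finset V) (y : V → V) (N : ℝ), Wh F v Tn Ta Tp y N →
    (∀ a ∈ Ta, 52 / 100 * N ≤ rcv F Tn y a) ∧ ∀ a ∈ Tp, 5 / 100 * N ≤ rcv F Tn y a

/-- **Wl** (150 lines, uses `S_Wp`, `S_Wq`, `S_Wr`). The weighting lemma.

Proof. For `A ∈ F`: `∑_{x ∈ A \ {v}} om A x ≤ 1`, and `= 1 / 2` if `Cl A = ∅` (`v ∉ Tn`; at most three claimants; if `|Cl A| = 1`, `Cl A = {c}`, the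
weights are `7/10` for `c`, `3/10` for `y c`; all weights are `≥ 0`). So
`∑_{x ≠ v} rcv x ≤ |F| - |U| / 2`. On the left: `S_Wp` for the perfect vertices; `∑ rcv a ≥ 0.52 N` times the number of the
imperfect `a ∈ Tn`: those with the first alternative of `S_Wq` are clear, the set `Q` of the others is closed under the
involution `y`, `∑_Q rcv a = (1/2) ∑_Q (rcv a + rcv (y a))` (if for one of `a`, `y a` the first alternative
holds, still use the sum for both: let `Q` be the set of the imperfect `a` for which the second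
alternative holds; it is closed under `y`, since the second alternative is symmetric); `S_Wr`. -/
def S_Wl : Prop :=
  ∀ (V : Type) [Fintype V] [DecidableEq V] (F : Finset (Finset V)) (v : V)
    (Tn Ta Tp : Finset V) (y : V → V) (N : ℝ), Wh F v Tn Ta Tp y N →
    ((F.filter (fun A => Cl Tn y A = ∅)).card : ℝ) / 2 +
      (∑ a ∈ Tn.filter (fun a => Pf F v Tn y N a), (c3 F v a (y a) : ℝ)) / 2 +
      52 / 100 * N * ((Tn.filter (fun a => ¬ Pf F v Tn y N a)).card + Ta.card) +
      5 / 100 * N * Tp.card ≤ F.card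

end Pool.Agent.Ham
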