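import Pool.Agent.Lib.MP_716318_co.H.Spec4

/-!
# MP_716318_co, package H, part 5: the exact value, statements with proofs

Main result `S_Main`: for all large `n` every family of fewer than `C(n - 2, 2)` four-element sets has an
acceptable Hamilton path.

Modules `H/<Name>.lean` (import this file only), theorem `t<Name> : S_Y → .. → S_<Name>` in the namespace
`Pool.Agent.Ham`, all other declarations `private`.
-/

set_option autoImplicit false

namespace Pool.Agent.Ham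

open Finset
open scoped Classical

/-- Disjoint blocks with fixed edges. -/
structure Bls {V : Type} [Fintype V] [DecidableEq V] (F : Finset (Finset V)) (J : Finset V)
    (Es : List (V × V)) (B0 B1 : List V) (Bs : List (List V)) (K : ℝ) : Prop where
  u4 : U4 F
  nz : B0 ≠ [] ∧ B1 ≠ [] ∧ ∀ B ∈ Bs, B ≠ []
  nd : (B0 ++ (Bs.flatten ++ B1)).Nodup
  len : ((B0 ++ (Bs.flatten ++ B1)).length : ℝ) ≤ K ∧ (Es.length : ℝ) ≤ K
  jb : ∀ x ∈ J, x ∈ B0 ++ (Bs.flatten ++ B1)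
  es : (∀ e ∈ eds B0, e ∈ Es) ∧ (∀ e ∈ eds B1, e ∈ Es) ∧ ∀ B ∈ Bs, ∀ e ∈ eds B, e ∈ Es
  ends : ∀ x, (B0.getLast? = some x ∨ B1.head? = some x ∨
    ∃ B ∈ Bs, B.head? = some x ∨ B.getLast? = some x) → x ∉ J
  c0 : ∀ e ∈ Es, ∀ f ∈ Es, ¬ Cf F e f

/-- **Pes** (60 lines, uses `S_Pe`). Path embedding when few members avoid `J`.

Proof. `η`, `n0` from `S_Pe` (for `δ`, `K`), `ξ = min η (1 / 200000)`. If both alternatives fail, then `Blk` holds: for `x ∉ J`
`dg (off F J) {x} ≤ |off F J| ≤ ξ n ^ 2`. So `Acc F`. -/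
def S_Pes : Prop :=
  ∀ δ K : ℝ, 0 < δ → δ ≤ 1 → 1 ≤ K → ∃ ξ : ℝ, 0 < ξ ∧ ∃ n0 : ℕ,
    ∀ (V : Type) [Fintype V] [DecidableEq V] (F : Finset (Finset V)) (J : Finset V)
      (Es : List (V × V)) (B0 B1 : List V) (Bs : List (List V)),
      n0 ≤ Fintype.card V → Bls F J Es B0 B1 Bs K →
      ((off F J).card : ℝ) ≤ ξ * (Fintype.card V : ℝ) ^ 2 → ¬ Acc F →
      (∃ x, x ∉ J ∧ (1 - δ) * Fintype.card V < gs F J Es x) ∨
      K * Fintype.card V < ∑ x ∈ univ.filter (fun x => x ∉ J), (gs F J Es x : ℝ)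

/-- **Ca** (80 lines, uses `S_Pes`). Every vertex has a partner.

Proof. `S_Pes` with `δ = 10 ^ (-8)`, `K = 2 * 10 ^ 7 + 10`, `J = {v}`, `Es = [(v, a)]`, `B0 = [v, a]`, `B1 = [z]` for any third vertex `z`, `Bs = []`. For
`x ≠ v`: `gs F J Es x = c3 F v a x`, and `∑ gs = 2 dg F {v, a}`. -/
def S_Ca : Prop :=
  ∃ ξ : ℝ, 0 < ξ ∧ ∃ n0 : ℕ, ∀ (V : Type) [Fintype V] [DecidableEq V] (F : Finset (Finset V))
    (v a : V), U4 F → n0 ≤ Fintype.card V → a ≠ v → ¬ Acc F →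
    ((off F {v}).card : ℝ) ≤ ξ * (Fintype.card V : ℝ) ^ 2 →
    (10 : ℝ) ^ 7 * Fintype.card V ≤ dg F {v, a} ∨
    ∃ y, (1 - 1 / (10 : ℝ) ^ 8) * Fintype.card V ≤ c3 F v a y

/-- **Cb** (120 lines, uses `S_Pes`). A missing set.

Proof. `S_Pes` with `δ = 1 / 100`, `K = 5 * 10 ^ 7`, `J = {v, y}`, `Es = [(v, a), (x, y)]`, `B0 = [v, a]`, `B1 = [x, y]`, `Bs = []`. For `z ∉ J`
`gs F J Es z ≤ c3 F v a z + c3 (off F {v}) x y z` (if `{x, y, z, t} ∈ F`, `z, t ≠ v`, the set is in `off F {v}`), and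
`∑ gs ≤ 2 dg F {v, a} + 2 dg (off F {v}) {x, y}`. `off F J ⊆ off F {v}`. -/
def S_Cb : Prop :=
  ∃ ξ : ℝ, 0 < ξ ∧ ∃ n0 : ℕ, ∀ (V : Type) [Fintype V] [DecidableEq V] (F : Finset (Finset V))
    (v a x y : V), U4 F → n0 ≤ Fintype.card V → [v, a, x, y].Nodup → ({v, a, x, y} : Finset V) ∉ F →
    ¬ Acc F → ((off F {v}).card : ℝ) ≤ ξ * (Fintype.card V : ℝ) ^ 2 →
    (10 : ℝ) ^ 7 * Fintype.card V ≤ dg F {v, a} ∨
    (10 : ℝ) ^ 7 * Fintype.card V ≤ dg (off F {v}) {x, y} ∨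
    ∃ z, z ≠ y ∧ 99 / 100 * (Fintype.card V : ℝ) ≤
      (c3 F v a z : ℝ) + c3 (off F {v}) x y z

/-- **Rb2** (200 lines, uses `S_Cb`, `S_Wl`). All in-degrees of the partner map are small.

Proof. `ξ`, `n0` from `S_Cb` (`n0 ≥ 1000`), `n = |V|`. `S_Wl` for `{A ∈ F | v ∈ A}` (for it `c3 .. v a b` is the same as for `F`, `dg .. {a} = dg F {v, a}`
for `a ≠ v`), `Tn`, `Ta = {a ≠ v | a ∉ Tn}`, `Tp = ∅`, `N = n`: `dg F {v} ≥ (1/2) ∑_{Pf} c3 F v a (y a) + 0.52 n (n - 1 - p)`, where `p` is the number of the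
perfect `a`. For perfect `a` let `X a` be the set of the `x ∉ {v, a, y a}` with `{v, a, y a, x} ∉ F`; `c3 F v a (y a) = n - 3 - |X a|`. By `S_Cb` for
`v, a, x, y a`, `x ∈ X a`: not the first alternative; so `dg (off F {v}) {x, y a} ≥ n / 3` (second alternative, or third one
with `c3 F v a z < n / 2` for `z ≠ y a`: `c3 (off F {v}) x (y a) z ≥ 0.49 n`). As `y` is injective on the perfect vertices
`∑ |X a| ≤ #{(x, b) | n / 3 ≤ dg (off F {v}) {x, b}} ≤ 12 |off F {v}| / (n / 3) ≤ |off F {v}|`. So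
`|F| = dg F {v} + |off F {v}| ≥ (1/2) (n - 3) p + 0.52 n (n - 1 - p) + |off F {v}| / 2 ≥ (n - 3) (n - 1) / 2 ≥ (n - 2) (n - 3) / 2`. -/
def S_Rb2 : Prop :=
  ∃ ξ : ℝ, 0 < ξ ∧ ∃ n0 : ℕ, ∀ (V : Type) [Fintype V] [DecidableEq V] (F : Finset (Finset V))
    (v : V) (Tn : Finset V) (y : V → V), U4 F → n0 ≤ Fintype.card V → ¬ Acc F →
    ((off F {v}).card : ℝ) ≤ ξ * (Fintype.card V : ℝ) ^ 2 →
    (∀ a, a ∈ Tn ↔ a ≠ v ∧ (dg F {v, a} : ℝ) < (10 : ℝ) ^ 7 * Fintype.card V) →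
    (∀ a ∈ Tn, (1 - 1 / (10 : ℝ) ^ 8) * Fintype.card V ≤ c3 F v a (y a)) →
    (∀ u, ((Tn.filter (fun a => y a = u)).card : ℝ) ≤ (Fintype.card V : ℝ) / 200) →
    (Fintype.card V - 2).choose 2 ≤ F.card

/-- **Ra1** (200 lines, uses `S_Two`). A large in-degree: almost a star.

Proof. `n = |V|`, `δ = 10 ^ (-8)`, `D = {a ∈ Tn | y a = w}`, `d = |D| = x n`. (1) The members which contain `v` and `w`: the pairs `(a, t)`,
`a ∈ D`, `{v, a, w, t} ∈ F`, are at least `d (1 - δ) n`; every member is counted at most twice, and twice only if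
`a, t ∈ D`, for at most `d ^ 2 / 2` members: `dg F {v, w} ≥ d (1 - δ) n - d ^ 2 / 2`. (2) `∑_{a ≠ v} dg F {v, a} = 3 dg F {v} ≤ 3 n ^ 2 / 2`, so
`|Tn| ≥ n - 1 - 1.5 * 10 ^ (-7) n`. (3) `S_Two` for `F2 = {A ∈ F | v ∈ A, w ∉ A}`, the set of the `a ∈ Tn` with `y a ≠ w`, `a ≠ w`, and
`θ = (1 - δ) n - 1`: `2 |F2| ≥ ((1 - δ) n - 2) (|Tn| - d - 1)`. (4) `dg F {v, w} + |F2| ≤ |F| ≤ n ^ 2 / 2` gives
`x - x ^ 2 / 2 + (1 - x) / 2 - δ - 0.75 * 10 ^ (-7) - O(1/n) ≤ 1 / 2`, i.e. `x (1 - x) ≤ 2 * 10 ^ (-7)` for large `n`, and `x > 1 / 200` gives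
`1 - x ≤ 4 * 10 ^ (-5)`. (5) Then `dg F {v, w} ≥ n ^ 2 (x - x ^ 2 / 2 - δ) = n ^ 2 (1/2 - (1 - x) ^ 2 / 2 - δ) ≥ (1/2 - 10 ^ (-7)) n ^ 2`. -/
def S_Ra1 : Prop :=
  ∃ n0 : ℕ, ∀ (V : Type) [Fintype V] [DecidableEq V] (F : Finset (Finset V))
    (v w : V) (Tn : Finset V) (y : V → V), U4 F → n0 ≤ Fintype.card V →
    2 * F.card ≤ (Fintype.card V) ^ 2 →
    (∀ a, a ∈ Tn ↔ a ≠ v ∧ (dg F {v, a} : ℝ) < (10 : ℝ) ^ 7 * Fintype.card V) →
    (∀ a ∈ Tn, (1 - 1 / (10 : ℝ) ^ 8) * Fintype.card V ≤ c3 F v a (y a)) →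
    (Fintype.card V : ℝ) / 200 < ((Tn.filter (fun a => y a = w)).card : ℝ) →
    v ≠ w ∧ (1 / 2 - 1 / (10 : ℝ) ^ 7) * (Fintype.card V : ℝ) ^ 2 ≤ dg F {v, w}

/-! ## Near a star -/

/-- The members which contain `v` and not `w`. -/
def fv {V : Type} [DecidableEq V] (F : Finset (Finset V)) (v w : V) : Finset (Finset V) :=
  F.filter (fun A => v ∈ A ∧ w ∉ A)

/-- A missing pair. -/
def Ms {V : Type} [DecidableEq V] (F : Finset (Finset V)) (v w a b : V) : Prop :=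
  a ≠ b ∧ a ≠ v ∧ a ≠ w ∧ b ≠ v ∧ b ≠ w ∧ ({v, w, a, b} : Finset V) ∉ F

/-- The degree in the graph of the missing pairs. -/
noncomputable def dM {V : Type} [Fintype V] [DecidableEq V] (F : Finset (Finset V)) (v w a : V) :
    ℕ := (univ.filter (fun b => Ms F v w a b)).card

/-- The vertices of large degree in the graph of the missing pairs. -/
noncomputable def T1 {V : Type} [Fintype V] [DecidableEq V] (F : Finset (Finset V)) (v w : V) :
    Finset V := univ.filter (fun a => 4 / 1000 * (Fintype.card V : ℝ) ≤ dM F v w a)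

/-- The other vertices of large degree in `F`. -/
noncomputable def T2 {V : Type} [Fintype V] [DecidableEq V] (F : Finset (Finset V)) (v w : V) :
    Finset V := univ.filter (fun a => a ≠ v ∧ a ≠ w ∧ a ∉ T1 F v w ∧
      999 / 1000 * (Fintype.card V : ℝ) ≤ (dg (fv F v w) {a} : ℝ) + dg (fv F w v) {a})

/-- The vertices of `T1` of moderate degree in `fv F v w`. -/
noncomputable def Tm {V : Type} [Fintype V] [DecidableEq V] (F : Finset (Finset V)) (v w : V) :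
    Finset V := (T1 F v w).filter (fun a => (dg (fv F v w) {a} : ℝ) < 8 * Fintype.card V)

/-- Near star: hypotheses (symmetric in `v`, `w`). -/
structure NS {V : Type} [Fintype V] [DecidableEq V] (F : Finset (Finset V)) (v w : V) (ξ : ℝ) :
    Prop where
  u4 : U4 F
  vw : v ≠ w
  na : ¬ Acc F
  o : ((off F {v, w}).card : ℝ) ≤ ξ * (Fintype.card V : ℝ) ^ 2
  m : (∑ a, (dM F v w a : ℝ)) ≤ 2 / (10 : ℝ) ^ 7 * (Fintype.card V : ℝ) ^ 2
  f : 2 * ((fv F v w).card + (fv F w v).card + (off F {v, w}).card) < ∑ a, dM F v w a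

/-- **Na** (120 lines, uses `S_Pes`). A missing pair.

Proof. `S_Pes` with `δ = 1 / 1000`, `K = 40`, `J = {v, w}`, `Es = [(v, a), (b, w)]`, `B0 = [v, a]`, `B1 = [b, w]`, `Bs = []`. `{v, a, b, w} ∉ F`. For
`z ∉ J`: `gs F J Es z ≤ c3 (fv F v w) v a z + c3 (fv F w v) w b z`, `∑ gs ≤ 2 dg (fv F v w) {a} + 2 dg (fv F w v) {b}`. -/
def S_Na : Prop :=
  ∃ ξ : ℝ, 0 < ξ ∧ ∃ n0 : ℕ, ∀ (V : Type) [Fintype V] [DecidableEq V] (F : Finset (Finset V))
    (v w a b : V), U4 F → n0 ≤ Fintype.card V → v ≠ w → ¬ Acc F →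
    ((off F {v, w}).card : ℝ) ≤ ξ * (Fintype.card V : ℝ) ^ 2 → Ms F v w a b →
    8 * (Fintype.card V : ℝ) ≤ dg (fv F v w) {a} ∨ 8 * (Fintype.card V : ℝ) ≤ dg (fv F w v) {b} ∨
    ∃ z, 999 / 1000 * (Fintype.card V : ℝ) ≤
      (c3 (fv F v w) v a z : ℝ) + c3 (fv F w v) w b z

/-- **Nb** (150 lines, uses `S_Pes`). A missing set and two missing pairs.

Proof. `S_Pes` with `δ = 1 / 1000`, `K = 100`, `J = {v, w, y}`, `Es = [(v, a), (b, w), (w, c), (x, y)]`, `B0 = [v, a]`, `Bs = [[b, w, c]]`, `B1 = [x, y]`. No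
conflicts: `(v, a)` with `(b, w)`, `(w, c)`: missing pairs; with `(x, y)`: hypothesis; `(b, w)`, `(w, c)` with `(x, y)`: hypothesis; `(b, w)` with
`(w, c)`: common vertex. For `z ∉ J` `gs F J Es z` is at most the sum below, and
`∑ gs ≤ 2 (dg (fv F v w) {a} + dg (fv F w v) {b} + dg (fv F w v) {c} + dg (off F {v, w}) {x, y})`. `off F J ⊆ off F {v, w}`. -/
def S_Nb : Prop :=
  ∃ ξ : ℝ, 0 < ξ ∧ ∃ n0 : ℕ, ∀ (V : Type) [Fintype V] [DecidableEq V] (F : Finset (Finset V))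
    (v w a b c x y : V), U4 F → n0 ≤ Fintype.card V → ¬ Acc F →
    ((off F {v, w}).card : ℝ) ≤ ξ * (Fintype.card V : ℝ) ^ 2 → [v, w, a, b, c, x, y].Nodup →
    Ms F v w a b → Ms F v w a c → ({v, a, x, y} : Finset V) ∉ F →
    ({w, b, x, y} : Finset V) ∉ F → ({w, c, x, y} : Finset V) ∉ F →
    8 * (Fintype.card V : ℝ) ≤ dg (fv F v w) {a} ∨ 8 * (Fintype.card V : ℝ) ≤ dg (fv F w v) {b} ∨
    8 * (Fintype.card V : ℝ) ≤ dg (fv F w v) {c} ∨
    8 * (Fintype.card V : ℝ) ≤ dg (off F {v, w}) {x, y} ∨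
    ∃ z, z ≠ y ∧ 999 / 1000 * (Fintype.card V : ℝ) ≤
      (c3 (fv F v w) v a z : ℝ) + c3 (fv F w v) w b z + c3 (fv F w v) w c z +
        c3 (off F {v, w}) x y z

/-- **Nt** (100 lines). Sizes near a star.

Proof. `n = |V| > 0` (as `∑ dM > 0`). (1) `|T1| * 4 n / 1000 ≤ ∑ dM ≤ 2 * 10 ^ (-7) n ^ 2`. (2) `|fv F v w| + |fv F w v| ≤ 10 ^ (-7) n ^ 2` by `NS.f`, `NS.m`. A vertex `b` on the
left has `dg (fv F v w) {b} + dg (fv F w v) {b} > n / 1000`, and the sum of these degrees over `b ∉ {v, w}` is at most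
`3 * 10 ^ (-7) n ^ 2`; so at most `3 n / 10000` of them. (3) The symmetries `NS F v w ξ → NS F w v ξ`, `dM F v w = dM F w v`, `T1 F v w = T1 F w v`,
`T2 F v w = T2 F w v`. -/
def S_Nt : Prop :=
  ∀ (V : Type) [Fintype V] [DecidableEq V] (F : Finset (Finset V)) (v w : V) (ξ : ℝ),
    NS F v w ξ →
    (20000 * (T1 F v w).card ≤ Fintype.card V) ∧
    (10000 * (univ.filter (fun b => b ≠ v ∧ b ≠ w ∧
      ((Fintype.card V : ℝ) / 1000 < dg (fv F v w) {b} ∨
        (Fintype.card V : ℝ) / 1000 < dg (fv F w v) {b}))).card ≤ 3 * Fintype.card V) ∧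
    NS F w v ξ ∧ (∀ a, dM F v w a = dM F w v a) ∧ T1 F v w = T1 F w v ∧ T2 F v w = T2 F w v ∧
    v ∉ T1 F v w ∧ w ∉ T1 F v w

/-- **Nc** (80 lines, uses `S_Na`, `S_Nt`). Partners.

Proof. `a ∈ T1` has at least `4 n / 1000` missing pairs `(a, b)`, so (`S_Nt`) there is such a `b` with `dg (fv F w v) {b} ≤ n / 1000`. In `S_Na` for
`a`, `b` the first two alternatives are impossible, and `c3 (fv F w v) w b z ≤ dg (fv F w v) {b} ≤ n / 1000`. -/
def S_Nc : Prop :=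
  ∃ ξ : ℝ, 0 < ξ ∧ ∃ n0 : ℕ, ∀ (V : Type) [Fintype V] [DecidableEq V] (F : Finset (Finset V))
    (v w : V), n0 ≤ Fintype.card V → NS F v w ξ → ∀ a ∈ Tm F v w,
    ∃ z, 99 / 100 * (Fintype.card V : ℝ) ≤ c3 (fv F v w) v a z

/-- **Nd** (80 lines, uses `S_Na`, `S_Nt`). Cover of the missing pairs.

Proof. Let `Ms F v w a b`, `a, b ∉ T1`. By `S_Na` for `(a, b)`: `dg (fv F v w) {a} + dg (fv F w v) {b} ≥ 0.999 n` in all three cases
(`c3 (fv F v w) v a z ≤ dg (fv F v w) {a}`). By `S_Na` for `(b, a)`: `dg (fv F v w) {b} + dg (fv F w v) {a} ≥ 0.999 n`. So one of `a`, `b` is in `T2`. -/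
def S_Nd : Prop :=
  ∃ ξ : ℝ, 0 < ξ ∧ ∃ n0 : ℕ, ∀ (V : Type) [Fintype V] [DecidableEq V] (F : Finset (Finset V))
    (v w : V), n0 ≤ Fintype.card V → NS F v w ξ → ∀ a b, Ms F v w a b →
    a ∈ T1 F v w ∨ b ∈ T1 F v w ∨ a ∈ T2 F v w ∨ b ∈ T2 F v w

/-- **Nd2** (120 lines). Counting the missing pairs.

Proof. `∑ dM` is the number of the ordered missing pairs `(a, b)`. Those with `a ∈ T1` or `b ∈ T1`: at most the number of
all ordered pairs of different vertices outside `{v, w}` which meet `T1`, `t = |T1|`: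
`2 t (n - 2 - t) + t (t - 1) = 2 t (n - 2) - t (t + 1)`. The others have `a ∈ T2` or `b ∈ T2`, and `dM < 4 n / 1000` for elements of
`T2`: at most `2 |T2| 4 n / 1000`. -/
def S_Nd2 : Prop :=
  ∀ (V : Type) [Fintype V] [DecidableEq V] (F : Finset (Finset V)) (v w : V), v ≠ w →
    v ∉ T1 F v w → w ∉ T1 F v w →
    (∀ a b, Ms F v w a b → a ∈ T1 F v w ∨ b ∈ T1 F v w ∨ a ∈ T2 F v w ∨ b ∈ T2 F v w) →
    (∑ a, (dM F v w a : ℝ)) ≤ 2 * (T1 F v w).card * ((Fintype.card V : ℝ) - 2) -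
      (T1 F v w).card * ((T1 F v w).card + 1) + 8 / 1000 * Fintype.card V * (T2 F v w).card

/-- **Ne** (120 lines, uses `S_Nb`, `S_Nt`). A missing set at a vertex with a unique partner.

Proof. Suppose `c3 (fv F w v) w x y < 2 n / 1000`. Among the at least `4 n / 1000` missing pairs `(a, b)` at most `3 n / 10000` have `b` with
`dg (fv F w v) {b} > n / 1000`, at most two have `b ∈ {x, y}`, fewer than `2 n / 1000` have `{w, b, x, y} ∈ F` (such a set with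
`b, x, y ≠ v` is in `fv F w v`). So there are two different `b`, `c` left, and `S_Nb` applies. The first three alternatives are
impossible; the fourth gives the claim; in the fifth `c3 (fv F v w) v a z < n / 2`, the two terms with `w` are at most `n / 1000`, so
`dg (off F {v, w}) {x, y} ≥ c3 (off F {v, w}) x y z ≥ 0.499 n - 0.002 n ≥ n / 3`. -/
def S_Ne : Prop :=
  ∃ ξ : ℝ, 0 < ξ ∧ ∃ n0 : ℕ, ∀ (V : Type) [Fintype V] [DecidableEq V] (F : Finset (Finset V))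
    (v w : V), n0 ≤ Fintype.card V → NS F v w ξ → ∀ a ∈ Tm F v w, ∀ y x, [v, w, a, y, x].Nodup →
    (∀ z, z ≠ y → 2 * (c3 (fv F v w) v a z : ℝ) < Fintype.card V) →
    ({v, a, y, x} : Finset V) ∉ F →
    (Fintype.card V : ℝ) / 3 ≤ dg (off F {v, w}) {x, y} ∨
    2 / 1000 * (Fintype.card V : ℝ) ≤ c3 (fv F w v) w x y

/-- The number of the perfect vertices (for the partner map `y`). -/
noncomputable def pn {V : Type} [Fintype V] [DecidableEq V] (F : Finset (Finset V)) (v w : V)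
    (y : V → V) : ℕ :=
  ((Tm F v w).filter (fun a => Pf (fv F v w) v (Tm F v w) y (Fintype.card V : ℝ) a)).card

/-- The number of the unclaimed members. -/
noncomputable def un {V : Type} [Fintype V] [DecidableEq V] (F : Finset (Finset V)) (v w : V)
    (y : V → V) : ℕ := ((fv F v w).filter (fun A => Cl (Tm F v w) y A = ∅)).card

/-- The losses of the perfect vertices. -/
noncomputable def ls {V : Type} [Fintype V] [DecidableEq V] (F : Finset (Finset V)) (v w : V)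
    (y : V → V) : ℝ :=
  ∑ a ∈ (Tm F v w).filter (fun a => Pf (fv F v w) v (Tm F v w) y (Fintype.card V : ℝ) a),
    ((Fintype.card V : ℝ) - 4 - c3 (fv F v w) v a (y a))

/-- `y` is a partner map. -/
def Pm {V : Type} [Fintype V] [DecidableEq V] (F : Finset (Finset V)) (v w : V) (y : V → V) :
    Prop := ∀ a ∈ Tm F v w, 99 / 100 * (Fintype.card V : ℝ) ≤ c3 (fv F v w) v a (y a)

/-- **Nl** (250 lines, uses `S_Ne`, `S_Nt`). The losses.

Proof. `n` large. Let `P_v`, `P_w` be the sets of the perfect vertices of the two systems (`Tm F v w`, `yv`) and (`Tm F w v`, `yw`). For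
`a ∈ P_v`, `b = yv a` (also in `P_v`, `yv b = a`): `n - 4 - c3 (fv F v w) v a b = |X|`, `X` = the set of the `x ∉ {v, w, a, b}` with
`{v, a, b, x} ∉ F`; `|X| ≤ n / 100`. Case I: `a ∉ P_w` or `b ∉ P_w`. There are at most `2 (|T1| - |P_w|)` such `a`, total loss at most
`2 (|T1| - |P_w|) n / 100`. Case II: `a, b ∈ P_w`. Let `x ∈ X`. By `S_Ne` for `(a, b, x)` and for `(b, a, x)` (perfect vertices satisfy
its hypothesis), for `c = b` and for `c = a` (1) `dg (off F {v, w}) {x, c} ≥ n / 3` or (2) `c3 (fv F w v) w x c ≥ 2 n / 1000`. Say that `{x, c}` is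
claimed if `x ∈ Tm F w v`, `yw x = c` or `c ∈ Tm F w v`, `yw c = x`. If `{x, c}` is claimed then `x = yw c` (otherwise `yw x = c`,
`c3 (fv F w v) w c x ≥ 0.99 n` and `x ≠ yw c` contradicts the perfectness of `c` in the `w`-system). If both `{x, a}`, `{x, b}` were
claimed, then `x = yw a = yw b` and `yw x = a`, `yw x = b` (perfect), a contradiction. So for one of `c = a`, `c = b` the
ordered pair `(x, c)` is in `Q` = the set of the `(x, c)` with (1), or with (2) and not claimed. Every `(x, c) ∈ Q` is used for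
at most two `(a, x)` (`a ∈ {c, yv c}`), so the total loss in case II is at most `2 |Q|`. Pairs with (1): each member of
`off F {v, w}` has 12 ordered pairs, so at most `36 |off| / n`. Pairs with (2), not claimed: of the at least `2 n / 1000` members
`{w, x, c, t}` of `fv F w v` at most one is claimed by `x`, one by `c`, and `|T1| ≤ n / 20000` by `t`; so at least `n / 1000` are
unclaimed, and each unclaimed member has 6 ordered pairs: at most `6000 un / n` pairs. -/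
def S_Nl : Prop :=
  ∃ ξ : ℝ, 0 < ξ ∧ ∃ n0 : ℕ, ∀ (V : Type) [Fintype V] [DecidableEq V] (F : Finset (Finset V))
    (v w : V) (yv yw : V → V), n0 ≤ Fintype.card V → NS F v w ξ → Pm F v w yv → Pm F w v yw →
    ls F v w yv ≤ 2 / 100 * (Fintype.card V : ℝ) * ((T1 F v w).card - pn F w v yw) +
      72 * (off F {v, w}).card / Fintype.card V + 12000 * un F w v yw / Fintype.card V

/-- **Nf** (200 lines, uses `S_Nl`, `S_Wl`, `S_Nt`). The final inequality.

Proof. `n` large, `t = |T1|`, `p_v = pn F v w yv` etc. `S_Wl` for `fv F v w`, `v`, `Tn = Tm F v w`, `Ta = T1 \ Tm F v w`,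
`Tp = {a ∈ T2 | 0.4 n ≤ dg (fv F v w) {a}}`, `y = yv`, `N = n` (`|T1| ≤ n / 20000` by `S_Nt` gives `ind`, `card`, `tp`), and the same for `w`. As
`(1/2) ∑_{Pf} c3 = (1/2) (n - 4) p_v - (1/2) ls`, and every `a ∈ T2` is in one of the two `Tp`:
`|fv F v w| + |fv F w v| ≥ (u_v + u_w) / 2 + (n - 4) (p_v + p_w) / 2 - (ls_v + ls_w) / 2 + 0.52 n (2 t - p_v - p_w) + 0.05 n |T2|`. By `S_Nl` (for
`v, w` and for `w, v`) `(ls_v + ls_w) / 2 ≤ 0.01 n (2 t - p_v - p_w) + 72 |off| / n + 6000 (u_v + u_w) / n`, and for large `n` the last two terms are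
at most `|off| / 2 + (u_v + u_w) / 4`. Use `0.51 n ≥ (n - 4) / 2 + n / 100` and `p_v, p_w ≤ t`. -/
def S_Nf : Prop :=
  ∃ ξ : ℝ, 0 < ξ ∧ ∃ n0 : ℕ, ∀ (V : Type) [Fintype V] [DecidableEq V] (F : Finset (Finset V))
    (v w : V) (yv yw : V → V), n0 ≤ Fintype.card V → NS F v w ξ → Pm F v w yv → Pm F w v yw →
    ((Fintype.card V : ℝ) - 4) * (T1 F v w).card +
      1 / 100 * (Fintype.card V : ℝ) *
        (2 * (T1 F v w).card - pn F v w yv - pn F w v yw) +
      ((un F v w yv : ℝ) + un F w v yw) / 4 + ((off F {v, w}).card : ℝ) / 2 +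
      5 / 100 * (Fintype.card V : ℝ) * (T2 F v w).card ≤
      ((fv F v w).card : ℝ) + (fv F w v).card + (off F {v, w}).card

/-- **Ng** (120 lines). The switched star has an acceptable path.

Proof. The list `a' :: w :: a :: v :: l` where `l` is a list of all the other vertices. Its edges are `(a', w)`, `(w, a)`, `(a, v)`,
`(v, x)` (if `l = x :: ..`) and pairs of elements of `l`. The union of two of them is: `{a', w, a, v}`, `{a', w, v, x}`, `{w, a, v, x}`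
(contain `v`, `w` and one of `a`, `a'`), `{a', w, p, q}`, `{w, a, p, q}`, `{a, v, p, q}`, `{v, x, p, q}` (exactly one of `v`, `w`, but not both of
`a`, `a'`), `{p, q, p', q'}` (none of `v`, `w`), or has fewer than four elements. None is in `F`. -/
def S_Ng : Prop :=
  ∀ (V : Type) [Fintype V] [DecidableEq V] (F : Finset (Finset V)) (v w a a' : V), U4 F →
    [v, w, a, a'].Nodup →
    (∀ A ∈ F, (v ∈ A ∧ w ∈ A ∧ a ∉ A ∧ a' ∉ A) ∨
      (a ∈ A ∧ a' ∈ A ∧ ((v ∈ A ∧ w ∉ A) ∨ (w ∈ A ∧ v ∉ A)))) → Acc F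

/-- **Nh** (250 lines, uses `S_Nc`, `S_Nd`, `S_Nd2`, `S_Nt`, `S_Nf`, `S_Nl`, `S_Ng`). Near a star: the contradiction.

Proof. Let `ξ`, `n0` be small (large) enough for all the statements. Partner maps `yv`, `yw` from `S_Nc` (for `v, w` and `w, v`). `t = |T1|`. `NS.f`,
`S_Nf` and `S_Nd2` (with `S_Nd`) give
`t (t + 1) - 4 t + 0.02 n (2 t - p_v - p_w) + (u_v + u_w) / 2 + |off| + 0.092 n |T2| < 0`. As `p_v, p_w ≤ t` all the terms after `t (t - 3)` are
`≥ 0`, so `t = 1` or `t = 2` (`t (t - 3) = - 2`), and for large `n`: `p_v = p_w = t`, `T2 = ∅`, `u_v + u_w < 4`, `|off| < 2`. If `t = 1`, `T1 = {a}`, then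
`yv a ∈ T1`, so `yv a = a`, but `c3 .. v a a = 0` (`U4`). So `T1 = {a, a'}`, `yv a = a'`, `yv a' = a`, the same for `yw`. By `S_Nl` `ls F v w yv < 1`; its
terms are nonnegative integers (`c3 (fv F v w) v a a' ≤ n - 4`), so `c3 (fv F v w) v a a' = n - 4`, hence `|fv F v w| ≥ n - 4`; the same for
`w`. `NS.f` and `S_Nd2`: `2 (|fv F v w| + |fv F w v| + |off|) < ∑ dM ≤ 4 (n - 2) - 6 = 4 n - 14`, so `|fv F v w| = |fv F w v| = n - 4`, `off F {v, w} = ∅`, and
`∑ dM > 4 n - 16`. All the missing pairs meet `{a, a'}` (`S_Nd`, `T2 = ∅`), and there are `4 n - 14` ordered pairs outside `{v, w}` which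
meet `{a, a'}`; if one of them (hence also the reversed one) is not missing then `∑ dM ≤ 4 n - 16`. So all of them
are missing. Now the members of `F`: with `v`, `w`: they do not contain `a` or `a'`; with `v` and not `w`: these are the `n - 4` sets
`{v, a, a', x}`; with `w` and not `v`: `{w, a, a', x}`; none with neither. `S_Ng` gives `Acc F`, a contradiction. -/
def S_Nh : Prop :=
  ∃ ξ : ℝ, 0 < ξ ∧ ∃ n0 : ℕ, ∀ (V : Type) [Fintype V] [DecidableEq V] (F : Finset (Finset V))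
    (v w : V), n0 ≤ Fintype.card V → ¬ NS F v w ξ

/-- **Main** (150 lines, uses `S_Stab`, `S_Ca`, `S_Rb2`, `S_Ra1`, `S_Nh`). Theorem B.

Proof. Suppose `¬ Acc F`, `|F| < C(n - 2, 2) ≤ n ^ 2 / 2`. `ξ` = the minimum of the `ξ` of `S_Ca`, `S_Rb2`, `S_Nh`; `v` from `S_Stab`. `Tn` = the set of the `a ≠ v` with
`dg F {v, a} < 10 ^ 7 n`, `y` from `S_Ca`. If all the in-degrees are at most `n / 200`: `S_Rb2`. Otherwise `S_Ra1` gives `w ≠ v` with
`dg F {v, w} ≥ (1/2 - 10 ^ (-7)) n ^ 2`. `NS F v w ξ`: `off F {v, w} ⊆ off F {v}`; `∑ dM = 2 (C(n - 2, 2) - dg F {v, w})` (the unordered pairs outside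
`{v, w}` are missing or belong to exactly one member which contains `v`, `w`) `≤ 2 * 10 ^ (-7) n ^ 2`;
`|F| = dg F {v, w} + |fv F v w| + |fv F w v| + |off F {v, w}| < C(n - 2, 2)` gives `NS.f`. Contradiction to `S_Nh`. -/
def S_Main : Prop :=
  ∃ n0 : ℕ, ∀ (V : Type) [Fintype V] [DecidableEq V] (F : Finset (Finset V)), U4 F →
    n0 ≤ Fintype.card V → F.card < (Fintype.card V - 2).choose 2 → Acc F

end Pool.Agent.Ham
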