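import Pool.Agent.Lib.MP_716318_co.H.Spec2

/-!
# MP_716318_co, package H, part 6: Hamilton cycles

The same as Theorem A (`S_ThA`) for Hamilton cycles.
-/

set_option autoImplicit false

namespace Pool.Agent.Ham

open Finset
open scoped Classical

/-- There is an acceptable Hamilton cycle: `l` is its vertex list, `(t, s)` the closing edge. -/
def AccC {V : Type} [DecidableEq V] (F : Finset (Finset V)) : Prop :=
  ∃ (l : List V) (s t : V), l.Nodup ∧ (∀ x, x ∈ l) ∧ l.head? = some s ∧ l.getLast? = some t ∧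
    ∀ e ∈ (t, s) :: eds l, ∀ f ∈ (t, s) :: eds l, ¬ Cf F e f

/-- **OsCc** (uses `S_Pe`, `S_Sum`). As `S_OsC`; the end points `s`, `t` of the path are chosen such that the
closing edge `(t, s)` has no conflict with the fixed edges and is in at most `δ n / 16` members; it is
added to the fixed edges in `S_Pe`. -/
def S_OsCc : Prop :=
  ∀ γ δ ε : ℝ, 0 < γ → γ ≤ 1 → 0 < δ → δ ≤ 1 / 1000 → 0 < ε → ε ≤ 1 / 200000 →
    ∃ ε2 : ℝ, 0 < ε2 ∧ ∀ ε' : ℝ, 0 < ε' → ε' ≤ ε2 → ∃ n0 : ℕ,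
      ∀ (V : Type) [Fintype V] [DecidableEq V] (F : Finset (Finset V)), U4 F →
      n0 ≤ Fintype.card V → 2 * F.card ≤ (Fintype.card V) ^ 2 →
      (∃ a a', Pq F (He F ε) δ γ ε' a a') → AccC F

/-- **Osc**. As `S_Os`. -/
def S_Osc : Prop :=
  ∀ γ δ ε : ℝ, 0 < γ → γ ≤ 1 → 0 < δ → δ ≤ 1 / 1000 → 0 < ε → ε ≤ γ * δ / 5000 →
    ε ≤ 1 / 200000 → ∃ ε' : ℝ, 0 < ε' ∧ ε' < ε ∧ ∃ n0 : ℕ,
      ∀ (V : Type) [Fintype V] [DecidableEq V] (F : Finset (Finset V)), U4 F →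
      n0 ≤ Fintype.card V → 2 * F.card ≤ (Fintype.card V) ^ 2 → ¬ AccC F →
      (∑ y ∈ univ.filter (fun y => y ∉ He F ε ∧ ε' * (Fintype.card V : ℝ) ^ 2 < dg F {y}),
        (dg F {y} : ℝ)) ≤ γ * δ / 1000 * (Fintype.card V : ℝ) ^ 2 →
      (univ.filter (fun a => Z0 F (He F ε) ((1 - δ) * Fintype.card V) a)).card <
        γ * (Fintype.card {x // x ∉ He F ε} : ℝ) ^ Fintype.card {v // v ∈ He F ε}

/-- **Gtc**. As `S_Gt`. -/
def S_Gtc : Prop :=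
  ∀ γ δ ε0 : ℝ, 0 < γ → γ ≤ 1 → 0 < δ → δ ≤ 1 / 1000 → 0 < ε0 → ∃ εm : ℝ, 0 < εm ∧ ∃ n0 : ℕ,
    ∀ (V : Type) [Fintype V] [DecidableEq V] (F : Finset (Finset V)), U4 F →
      n0 ≤ Fintype.card V → 2 * F.card ≤ (Fintype.card V) ^ 2 → ¬ AccC F →
      ∃ ε : ℝ, εm ≤ ε ∧ ε ≤ ε0 ∧
        (univ.filter (fun a => Z0 F (He F ε) ((1 - δ) * Fintype.card V) a)).card <
        γ * (Fintype.card {x // x ∉ He F ε} : ℝ) ^ Fintype.card {v // v ∈ He F ε}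

/-- **ThAc**. Theorem A for cycles. -/
def S_ThAc : Prop :=
  ∀ γ : ℝ, 0 < γ → ∃ n0 : ℕ, ∀ (V : Type) [Fintype V] [DecidableEq V] (F : Finset (Finset V)),
    U4 F → n0 ≤ Fintype.card V → (F.card : ℝ) ≤ (1 / 2 - γ) * (Fintype.card V : ℝ) ^ 2 → AccC F

end Pool.Agent.Ham
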