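import Pool.Agent.Lib.MP_716318_co.H.Spec1

/-! Module Sw: switching for random bijections. -/

set_option autoImplicit false

namespace Pool.Agent.Ham

open Finset
open scoped Classical

private theorem pb_mono {I W : Type} {M N : Finset (I × W)} (h : N ⊆ M) (hM : PB M) : PB N :=
  fun p hp q hq => hM p (h hp) q (h hq)

private theorem sw_step {I W : Type} [Fintype I] [DecidableEq I] [Fintype W] [DecidableEq W]
    (N : Finset (I × W)) (a : I × W) (𝓢 : Finset (Finset (I × W)))
    (hc : Fintype.card I = Fintype.card W) (ha : a ∉ N) (hpb : PB (insert a N))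
    (hd : ∀ M' ∈ 𝓢, ∀ q ∈ M', a.1 ≠ q.1 ∧ a.2 ≠ q.2) :
    (Fintype.card I - N.card) *
      (univ.filter (fun π : I ≃ W => Ct π (insert a N) ∧ ∀ M' ∈ 𝓢, ¬ Ct π M')).card ≤
      (univ.filter (fun π : I ≃ W => Ct π N ∧ ∀ M' ∈ 𝓢, ¬ Ct π M')).card := by
  obtain ⟨i, x⟩ := a
  have hZ : (univ \ N.image Prod.snd : Finset W).card = Fintype.card I - N.card := by
    rw [card_sdiff_of_subset (subset_univ _), card_univ, hc, card_image_of_injOn]
    intro p hp q hq hpq
    have h1 := (hpb p (mem_insert_of_mem hp) q (mem_insert_of_mem hq)).2 hpq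
    exact Prod.ext h1 hpq
  rw [← hZ, mul_comm, ← card_product]
  refine card_le_card_of_injOn (fun t => t.1.trans (Equiv.swap x t.2)) ?_ ?_
  · rintro ⟨π, z⟩ ht
    rw [mem_coe, mem_product, mem_filter] at ht
    obtain ⟨⟨-, hπ, hS⟩, hz⟩ := ht
    simp only at hπ hS hz
    have hzN : ∀ p ∈ N, p.2 ≠ z := by
      intro p hp h
      rw [mem_sdiff] at hz
      exact hz.2 (mem_image.2 ⟨p, hp, h⟩)
    have hix : π i = x := hπ (i, x) (mem_insert_self _ _)
    have hi' : (π.trans (Equiv.swap x z)) i = z := by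
      rw [Equiv.trans_apply, hix, Equiv.swap_apply_left]
    rw [mem_coe, mem_filter]
    refine ⟨mem_univ _, ?_, ?_⟩
    · intro p hp
      have h1 : π p.1 = p.2 := hπ p (mem_insert_of_mem hp)
      have h2 : p.2 ≠ x := by
        intro h
        have h3 := (hpb p (mem_insert_of_mem hp) (i, x) (mem_insert_self _ _)).2 h
        have h4 : p = (i, x) := Prod.ext h3 h
        exact ha (h4 ▸ hp)
      show (π.trans (Equiv.swap x z)) p.1 = p.2
      rw [Equiv.trans_apply, h1, Equiv.swap_apply_of_ne_of_ne h2 (hzN p hp)]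
    · intro M' hM' hC
      refine hS M' hM' ?_
      intro q hq
      obtain ⟨h1, h2⟩ := hd M' hM' q hq
      simp only at h1 h2
      have h3 : (π.trans (Equiv.swap x z)) q.1 = q.2 := hC q hq
      have h4 : q.2 ≠ z := by
        intro h
        have h5 : (π.trans (Equiv.swap x z)) q.1 = (π.trans (Equiv.swap x z)) i :=
          (h3.trans h).trans hi'.symm
        exact h1 ((π.trans (Equiv.swap x z)).injective h5).symm
      rw [Equiv.trans_apply, Equiv.swap_apply_eq_iff,
        Equiv.swap_apply_of_ne_of_ne (Ne.symm h2) h4] at h3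
      exact h3
  · rintro ⟨π, z⟩ ht ⟨ρ, w⟩ hu h
    rw [mem_coe, mem_product, mem_filter] at ht hu
    obtain ⟨⟨-, hπ, -⟩, -⟩ := ht
    obtain ⟨⟨-, hρ, -⟩, -⟩ := hu
    simp only at hπ hρ h
    have h1 : π i = x := hπ (i, x) (mem_insert_self _ _)
    have h2 : ρ i = x := hρ (i, x) (mem_insert_self _ _)
    have h3 : z = w := by
      have h4 := congrArg (fun e : I ≃ W => e i) h
      simp only [Equiv.trans_apply, h1, h2, Equiv.swap_apply_left] at h4
      exact h4
    subst h3
    have h5 : π = ρ := by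
      ext j
      have h6 := congrArg (fun e : I ≃ W => e j) h
      simp only [Equiv.trans_apply] at h6
      exact (Equiv.swap x z).injective h6
    rw [h5]

theorem tSw : S_Sw := by
  intro I W _ _ _ _ M 𝓢 hc
  induction M using Finset.induction_on with
  | empty =>
    intro _ _
    rw [card_empty, Nat.descFactorial_zero, one_mul]
    refine card_le_card ?_
    intro π hπ
    rw [mem_filter] at hπ ⊢
    exact ⟨mem_univ _, hπ.2.2⟩
  | insert a N ha ih =>
    intro hpb hd
    have h1 := sw_step N a 𝓢 hc ha hpb (fun M' hM' q hq => hd M' hM' a (mem_insert_self _ _) q hq)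
    have h2 := ih (pb_mono (subset_insert _ _) hpb)
      (fun M' hM' p hp q hq => hd M' hM' p (mem_insert_of_mem hp) q hq)
    rw [card_insert_of_notMem ha, Nat.descFactorial_succ]
    calc (Fintype.card I - N.card) * (Fintype.card I).descFactorial N.card * _
        = (Fintype.card I).descFactorial N.card * ((Fintype.card I - N.card) *
          (univ.filter (fun π : I ≃ W => Ct π (insert a N) ∧ ∀ M' ∈ 𝓢, ¬ Ct π M')).card) := by
          ring
      _ ≤ (Fintype.card I).descFactorial N.card *
          (univ.filter (fun π : I ≃ W => Ct π N ∧ ∀ M' ∈ 𝓢, ¬ Ct π M')).card :=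
          Nat.mul_le_mul_left _ h1
      _ ≤ _ := h2

end Pool.Agent.Ham
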